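import Pool.Agent.H88.LF.Defs

/-!
# GBB: the diagonal subgroup `D` and the root groups `U`
-/

set_option autoImplicit false

open Set Filter
open scoped Topology

namespace Pool.Agent.H88.LF

theorem cmp_add (v w : ℝ × ℝ) (i : Fin 3) : cmp (v + w) i = cmp v i + cmp w i := by
  fin_cases i
  · rfl
  · rfl
  · simp only [cmp, Fin.reduceFinMk, Matrix.cons_val, Prod.fst_add, Prod.snd_add]; ring

theorem cmp_neg (v : ℝ × ℝ) (i : Fin 3) : cmp (-v) i = -cmp v i := by
  fin_cases i
  · rfl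
  · rfl
  · simp only [cmp, Fin.reduceFinMk, Matrix.cons_val, Prod.fst_neg, Prod.snd_neg]; ring

theorem cmp_smul (a : ℝ) (v : ℝ × ℝ) (i : Fin 3) : cmp (a • v) i = a * cmp v i := by
  fin_cases i
  · rfl
  · rfl
  · simp only [cmp, Fin.reduceFinMk, Matrix.cons_val, Prod.smul_fst, Prod.smul_snd, smul_eq_mul]; ring

theorem cmp_sum (v : ℝ × ℝ) : cmp v 0 + cmp v 1 + cmp v 2 = 0 := by
  simp only [cmp, Matrix.cons_val]; ring

theorem abs_cmp_le (v : ℝ × ℝ) (i : Fin 3) : |cmp v i| ≤ 2 * ‖v‖ := by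
  have h1 : |v.1| ≤ ‖v‖ := norm_fst_le v
  have h2 : |v.2| ≤ ‖v‖ := norm_snd_le v
  have h0 : 0 ≤ ‖v‖ := norm_nonneg v
  have h1' := abs_le.1 h1
  have h2' := abs_le.1 h2
  rw [abs_le]
  fin_cases i
  · simp only [cmp, Fin.zero_eta, Matrix.cons_val]
    constructor <;> linarith [h1'.1, h1'.2]
  · simp only [cmp, Fin.mk_one, Matrix.cons_val]
    constructor <;> linarith [h2'.1, h2'.2]
  · simp only [cmp, Fin.reduceFinMk, Matrix.cons_val]
    constructor <;> linarith [h1'.1, h1'.2, h2'.1, h2'.2]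

theorem norm_le_cmp (v : ℝ × ℝ) : ∃ i, ‖v‖ ≤ |cmp v i| := by
  rcases le_total ‖v.1‖ ‖v.2‖ with h | h
  · refine ⟨1, ?_⟩
    rw [Prod.norm_def, max_eq_right h]
    exact le_of_eq rfl
  · refine ⟨0, ?_⟩
    rw [Prod.norm_def, max_eq_left h]
    exact le_of_eq rfl

/-- Some difference of coordinates is at least `‖v‖`. -/
theorem exists_pair (v : ℝ × ℝ) : ∃ i l : Fin 3, i ≠ l ∧ ‖v‖ ≤ |cmp v i - cmp v l| := by
  by_contra hcon
  push Not at hcon
  have hs := cmp_sum v
  have h01 := abs_lt.1 (hcon 0 1 (by decide))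
  have h02 := abs_lt.1 (hcon 0 2 (by decide))
  have h12 := abs_lt.1 (hcon 1 2 (by decide))
  obtain ⟨i, hi⟩ := norm_le_cmp v
  have key : |cmp v i| < ‖v‖ := by
    rw [abs_lt]
    fin_cases i
    · simp only [Fin.zero_eta]
      constructor <;> linarith [h01.1, h01.2, h02.1, h02.2, h12.1, h12.2]
    · simp only [Fin.mk_one]
      constructor <;> linarith [h01.1, h01.2, h02.1, h02.2, h12.1, h12.2]
    · simp only [Fin.reduceFinMk]
      constructor <;> linarith [h01.1, h01.2, h02.1, h02.2, h12.1, h12.2]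
  exact absurd hi (not_le.2 key)

/-- Vectors with prescribed coordinates of sum zero. -/
theorem exists_cmp (x : Fin 3 → ℝ) (h : x 0 + x 1 + x 2 = 0) :
    ∃ v : ℝ × ℝ, ∀ i, cmp v i = x i := by
  refine ⟨(x 0, x 1), fun i => ?_⟩
  fin_cases i
  · rfl
  · rfl
  · simp only [cmp, Fin.reduceFinMk, Matrix.cons_val]; linarith

theorem continuous_cmp (i : Fin 3) : Continuous (fun v => cmp v i) := by
  fin_cases i
  · exact continuous_fst
  · exact continuous_snd
  · exact continuous_fst.neg.sub continuous_snd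

theorem D_val (v : ℝ × ℝ) : (D v).1 = Matrix.diagonal (fun i => Real.exp (cmp v i)) := rfl

theorem D_zero : D 0 = 1 := by
  apply Subtype.ext
  rw [D_val]
  have h : (fun i => Real.exp (cmp 0 i)) = fun _ => 1 := by
    funext i
    have h1 := cmp_smul 0 0 i
    rw [zero_smul, zero_mul] at h1
    rw [h1, Real.exp_zero]
  rw [h, Matrix.diagonal_one]
  rfl

theorem D_add (v w : ℝ × ℝ) : D (v + w) = D v * D w := by
  apply Subtype.ext
  rw [D_val]
  change _ = (D v).1 * (D w).1
  rw [D_val, D_val, Matrix.diagonal_mul_diagonal]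
  congr 1
  funext i
  rw [cmp_add, Real.exp_add]

theorem D_neg (v : ℝ × ℝ) : D (-v) = (D v)⁻¹ := by
  apply eq_inv_of_mul_eq_one_left
  rw [← D_add, neg_add_cancel, D_zero]

theorem D_comm (v w : ℝ × ℝ) : D v * D w = D w * D v := by
  rw [← D_add, ← D_add, add_comm]

theorem D_nsmul (n : ℕ) (v : ℝ × ℝ) : D ((n : ℝ) • v) = (D v) ^ n := by
  induction n with
  | zero => rw [Nat.cast_zero, zero_smul, D_zero, pow_zero]
  | succ n ih => rw [Nat.cast_succ, add_smul, one_smul, D_add, ih, pow_succ]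

theorem continuous_D : Continuous D := by
  rw [closedEmb_val.isEmbedding.continuous_iff]
  change Continuous (fun v => Matrix.diagonal (fun i => Real.exp (cmp v i)))
  refine Continuous.matrix_diagonal (continuous_pi fun i => ?_)
  exact Real.continuous_exp.comp (continuous_cmp i)

/-- Entries of a conjugate by `D v`. -/
theorem D_conj_entry (v : ℝ × ℝ) (M : Mat) (i j : Fin 3) :
    ((D v).1 * M * ((D v)⁻¹).1) i j = Real.exp (cmp v i - cmp v j) * M i j := by
  rw [← D_neg, D_val, D_val, Matrix.mul_diagonal, Matrix.diagonal_mul, cmp_neg, sub_eq_add_neg,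
    Real.exp_add]
  ring

theorem nrm_D_le (v : ℝ × ℝ) : nrm (D v).1 ≤ 3 * Real.exp (2 * ‖v‖) := by
  have h : ∀ i, Real.exp (cmp v i) ≤ Real.exp (2 * ‖v‖) := fun i =>
    Real.exp_le_exp.2 ((le_abs_self _).trans (abs_cmp_le v i))
  have h0 : nrm (D v).1 = Real.exp (cmp v 0) + Real.exp (cmp v 1) + Real.exp (cmp v 2) := by
    rw [D_val]
    simp [nrm, Fin.sum_univ_three, Matrix.diagonal_apply]
  rw [h0]
  linarith [h 0, h 1, h 2]

theorem nrm_D_inv_le (v : ℝ × ℝ) : nrm ((D v)⁻¹).1 ≤ 3 * Real.exp (2 * ‖v‖) := by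
  rw [← D_neg, ← norm_neg v]
  exact nrm_D_le (-v)

theorem isCompact_D_image (r : ℝ) : IsCompact (D '' {v | ‖v‖ ≤ r}) := by
  refine IsCompact.image ?_ continuous_D
  have h : {v : ℝ × ℝ | ‖v‖ ≤ r} = Metric.closedBall 0 r := by
    ext v
    simp
  rw [h]
  exact isCompact_closedBall 0 r

theorem U_val (i l : Fin 3) (h : i ≠ l) (s : ℝ) : (U i l h s).1 = Matrix.transvection i l s := rfl

theorem U_zero (i l : Fin 3) (h : i ≠ l) : U i l h 0 = 1 := by
  apply Subtype.ext
  rw [U_val, Matrix.transvection_zero]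
  rfl

theorem U_add (i l : Fin 3) (h : i ≠ l) (s t : ℝ) : U i l h (s + t) = U i l h s * U i l h t := by
  apply Subtype.ext
  change _ = (U i l h s).1 * (U i l h t).1
  rw [U_val, U_val, U_val, Matrix.transvection_mul_transvection_same i l h]

theorem U_neg (i l : Fin 3) (h : i ≠ l) (s : ℝ) : U i l h (-s) = (U i l h s)⁻¹ := by
  apply eq_inv_of_mul_eq_one_left
  rw [← U_add, neg_add_cancel, U_zero]

theorem continuous_U (i l : Fin 3) (h : i ≠ l) : Continuous (U i l h) := by
  rw [closedEmb_val.isEmbedding.continuous_iff]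
  change Continuous (fun s => Matrix.transvection i l s)
  refine continuous_matrix fun a b => ?_
  by_cases hab : i = a ∧ l = b
  · simp only [Matrix.transvection, Matrix.add_apply, Matrix.single_apply, hab, and_self, if_true]
    fun_prop
  · simp only [Matrix.transvection, Matrix.add_apply, Matrix.single_apply, hab, if_false]
    fun_prop

theorem nd_U (i l : Fin 3) (h : i ≠ l) (s : ℝ) : nd (U i l h s) = |s| := by
  have h1 : (U i l h s).1 - 1 = Matrix.single i l s := by
    rw [U_val, Matrix.transvection, add_sub_cancel_left]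
  rw [nd, h1, nrm]
  rw [Finset.sum_eq_single i, Finset.sum_eq_single l]
  · rw [Matrix.single_apply_same]
  · intro b _ hb
    rw [Matrix.single_apply_of_ne, abs_zero]
    exact fun h => hb h.2.symm
  · exact fun h => absurd (Finset.mem_univ _) h
  · intro a _ ha
    refine Finset.sum_eq_zero fun b _ => ?_
    rw [Matrix.single_apply_of_ne, abs_zero]
    exact fun h => ha h.1.symm
  · exact fun h => absurd (Finset.mem_univ _) h

/-- `D(v) U_il(s) = U_il(s e^{v_i-v_l}) D(v)` -/
theorem D_mul_U (v : ℝ × ℝ) (i l : Fin 3) (h : i ≠ l) (s : ℝ) :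
    D v * U i l h s = U i l h (Real.exp (cmp v i - cmp v l) * s) * D v := by
  apply Subtype.ext
  change (D v).1 * (U i l h s).1 = (U i l h (Real.exp (cmp v i - cmp v l) * s)).1 * (D v).1
  rw [U_val, U_val, D_val]
  ext a b
  rw [Matrix.diagonal_mul, Matrix.mul_diagonal]
  simp only [Matrix.transvection, Matrix.add_apply, Matrix.single_apply, Matrix.one_apply]
  by_cases hab : i = a ∧ l = b
  · obtain ⟨rfl, rfl⟩ := hab
    simp only [h, and_self, if_true, if_false, zero_add]
    rw [mul_assoc, mul_comm s, ← mul_assoc, ← Real.exp_add]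
    congr 2
    ring
  · simp only [hab, if_false, add_zero]
    by_cases h2 : a = b
    · subst h2
      ring
    · simp [h2]

theorem rot_add (i l : Fin 3) (h : i ≠ l) (s t : ℝ) :
    rot i l h (s + t) = rot i l h s * rot i l h t := by
  apply Subtype.ext
  change rotMat i l (s + t) = rotMat i l s * rotMat i l t
  ext a b
  rw [Matrix.mul_apply, Fin.sum_univ_three]
  simp only [rotMat, Real.cos_add, Real.sin_add]
  fin_cases i <;> fin_cases l <;> first | exact absurd rfl h | skip
  all_goals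
    fin_cases a <;> fin_cases b <;> simp <;> ring

theorem rot_zero (i l : Fin 3) (h : i ≠ l) : rot i l h 0 = 1 := by
  apply Subtype.ext
  change rotMat i l 0 = 1
  ext a b
  simp only [rotMat, Real.cos_zero, Real.sin_zero, Matrix.one_apply]
  fin_cases i <;> fin_cases l <;> first | exact absurd rfl h | skip
  all_goals
    fin_cases a <;> fin_cases b <;> simp

theorem rot_neg (i l : Fin 3) (h : i ≠ l) (s : ℝ) : rot i l h (-s) = (rot i l h s)⁻¹ := by
  apply eq_inv_of_mul_eq_one_left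
  rw [← rot_add, neg_add_cancel, rot_zero]

theorem continuous_rot (i l : Fin 3) (h : i ≠ l) : Continuous (rot i l h) := by
  rw [closedEmb_val.isEmbedding.continuous_iff]
  change Continuous (fun s => rotMat i l s)
  refine continuous_matrix fun a b => ?_
  simp only [rotMat]
  split_ifs
  · exact Real.continuous_cos
  · exact Real.continuous_sin.neg
  · exact Real.continuous_sin
  · exact continuous_const
  · exact continuous_const

/-- One compact symmetric set contains all rotations. -/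
theorem exists_compact_rot : ∃ Q : Set G, IsCompact Q ∧ (∀ q ∈ Q, q⁻¹ ∈ Q) ∧ (1 : G) ∈ Q ∧
    ∀ (i l : Fin 3) (h : i ≠ l) (θ : ℝ), rot i l h θ ∈ Q := by
  have hK : IsCompact {M : Mat | ∀ a b, M a b ∈ Set.Icc (-1 : ℝ) 1} := by
    have h1 : IsCompact (Set.pi (Set.univ : Set (Fin 3)) fun _ =>
        Set.pi (Set.univ : Set (Fin 3)) fun _ => Set.Icc (-1 : ℝ) 1) :=
      isCompact_univ_pi fun _ => isCompact_univ_pi fun _ => isCompact_Icc
    have h2 : {M : Mat | ∀ a b, M a b ∈ Set.Icc (-1 : ℝ) 1} = (Set.pi (Set.univ : Set (Fin 3))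
        fun _ => Set.pi (Set.univ : Set (Fin 3)) fun _ => Set.Icc (-1 : ℝ) 1) :=
      Set.ext fun M => ⟨fun h a _ b _ => h a b, fun h a b => h a trivial b trivial⟩
    rw [h2]
    exact h1
  have hQ1 : IsCompact {g : G | ∀ a b, g.1 a b ∈ Set.Icc (-1 : ℝ) 1} :=
    closedEmb_val.isCompact_preimage hK
  have hcl : IsClosed {g : G | ∀ a b, (g⁻¹).1 a b ∈ Set.Icc (-1 : ℝ) 1} :=
    (hQ1.isClosed).preimage continuous_inv
  have hrot : ∀ (i l : Fin 3) (h : i ≠ l) (θ : ℝ) (a b : Fin 3),
      (rot i l h θ).1 a b ∈ Set.Icc (-1 : ℝ) 1 := by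
    intro i l h θ a b
    change rotMat i l θ a b ∈ Set.Icc (-1 : ℝ) 1
    simp only [rotMat]
    split_ifs
    · exact ⟨Real.neg_one_le_cos θ, Real.cos_le_one θ⟩
    · exact ⟨neg_le_neg (Real.sin_le_one θ), by linarith [Real.neg_one_le_sin θ]⟩
    · exact ⟨Real.neg_one_le_sin θ, Real.sin_le_one θ⟩
    · constructor <;> norm_num
    · constructor <;> norm_num
  refine ⟨{g : G | ∀ a b, g.1 a b ∈ Set.Icc (-1 : ℝ) 1} ∩
    {g : G | ∀ a b, (g⁻¹).1 a b ∈ Set.Icc (-1 : ℝ) 1}, hQ1.inter_right hcl, ?_, ?_, ?_⟩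
  · rintro q ⟨h1, h2⟩
    refine ⟨h2, ?_⟩
    simp only [Set.mem_ofPred_eq, inv_inv]
    exact h1
  · have h1 : (1 : G) = rot 0 1 (by decide) 0 := (rot_zero 0 1 (by decide)).symm
    refine ⟨?_, ?_⟩
    · rw [h1]
      exact hrot 0 1 (by decide) 0
    · simp only [Set.mem_ofPred_eq, inv_one]
      rw [h1]
      exact hrot 0 1 (by decide) 0
  · intro i l h θ
    refine ⟨hrot i l h θ, ?_⟩
    simp only [Set.mem_ofPred_eq]
    rw [← rot_neg]
    exact hrot i l h (-θ)

end Pool.Agent.H88.LF
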