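import Pool.Agent.H88.LF.GBA
import Pool.Agent.H88.LF.GBB

/-!
# GBC: generation of `G`

`SL(3,ℝ)` is generated by transvections (Mathlib: `diagonal_transvection_induction'` for
`Matrix.SpecialLinearGroup`); a coordinate diagonal matrix is a product of six transvections.
`U i l s = (U i l (s/n))^n` with small factors.
-/

set_option autoImplicit false

open Set Filter
open scoped Topology Pointwise

namespace Pool.Agent.H88.LF

/-- A diagonal element of a coordinate `SL(2)` as a product of six root elements. -/
private theorem gbc_diag (i j : Fin 3) (hij : i ≠ j) (c : ℝ) (hc : c ≠ 0) :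
    Matrix.SpecialLinearGroup.diag2n hij c hc =
      U i j hij c * U j i hij.symm (-c⁻¹) * U i j hij c * U i j hij (-1) * U j i hij.symm 1 *
        U i j hij (-1) := by
  apply Subtype.ext
  simp only [Matrix.SpecialLinearGroup.coe_mul, Matrix.SpecialLinearGroup.diag2n_coe, U_val]
  ext a b
  fin_cases i <;> fin_cases j <;> first | exact absurd rfl hij | skip
  all_goals
    fin_cases a <;> fin_cases b <;>
      simp [Matrix.mul_apply, Fin.sum_univ_three, Matrix.transvection, Matrix.single,
        Matrix.diagonal, hc, Matrix.one_apply]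

/-- A property of products which holds for root elements holds everywhere. -/
private theorem gbc_induction (P : G → Prop)
    (hU : ∀ (i l : Fin 3) (hil : i ≠ l) (s : ℝ), P (U i l hil s))
    (hmul : ∀ g h, P g → P h → P (g * h)) (g : G) : P g := by
  refine Matrix.SpecialLinearGroup.diagonal_transvection_induction' P g ?_ ?_ hmul
  · intro i j hij c hc
    rw [gbc_diag i j hij c hc]
    exact hmul _ _ (hmul _ _ (hmul _ _ (hmul _ _ (hmul _ _ (hU _ _ _ _) (hU _ _ _ _))
      (hU _ _ _ _)) (hU _ _ _ _)) (hU _ _ _ _)) (hU _ _ _ _)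
  · intro i j hij a
    exact hU i j hij a

/-- A subgroup containing all root groups is everything. -/
theorem subgroup_eq_top (Γ : Subgroup G) (h : ∀ (i l : Fin 3) (hil : i ≠ l) (s : ℝ),
    U i l hil s ∈ Γ) : Γ = ⊤ := by
  rw [Subgroup.eq_top_iff']
  exact gbc_induction (fun g => g ∈ Γ) h (fun g h hg hh => Γ.mul_mem hg hh)

theorem BP_mul {r : ℝ} {m n : ℕ} {g h : G} (hg : g ∈ BP r m) (hh : h ∈ BP r n) :
    g * h ∈ BP r (m + n) := by
  induction m generalizing g with
  | zero =>
    have h1 : g = 1 := hg
    rw [h1, one_mul, Nat.zero_add]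
    exact hh
  | succ m ih =>
    obtain ⟨b, hb, g', hg', rfl⟩ := hg
    rw [Nat.add_right_comm, mul_assoc]
    exact ⟨b, hb, g' * h, ih hg', rfl⟩

theorem BP_mono {r : ℝ} (hr : 0 ≤ r) {m n : ℕ} (hmn : m ≤ n) : BP r m ⊆ BP r n := by
  have hone : ∀ k : ℕ, (1 : G) ∈ BP r k := by
    intro k
    induction k with
    | zero => exact rfl
    | succ k ih => exact ⟨1, (by show nd 1 ≤ r; rw [nd_one]; exact hr), 1, ih, (mul_one 1).symm⟩
  obtain ⟨k, rfl⟩ := Nat.exists_eq_add_of_le hmn
  intro g hg
  have h1 := BP_mul hg (hone k)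
  rwa [mul_one] at h1

/-- Every element is a product of elements of a small ball. -/
theorem exists_mem_BP {r : ℝ} (hr : 0 < r) (g : G) : ∃ n, g ∈ BP r n := by
  refine gbc_induction (fun g => ∃ n, g ∈ BP r n) ?_ ?_ g
  · intro i l hil s
    obtain ⟨n, hn⟩ := exists_nat_gt (|s| / r)
    have hn0 : (0 : ℝ) < n := lt_of_le_of_lt (div_nonneg (abs_nonneg s) hr.le) hn
    have hb : U i l hil (s / n) ∈ Bl r := by
      show nd (U i l hil (s / n)) ≤ r
      rw [nd_U, abs_div, abs_of_pos hn0, div_le_iff₀ hn0]
      rw [div_lt_iff₀ hr] at hn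
      linarith
    have key : ∀ k : ℕ, U i l hil (k * (s / n)) ∈ BP r k := by
      intro k
      induction k with
      | zero => simp only [Nat.cast_zero, zero_mul, U_zero]; exact rfl
      | succ k ih =>
        refine ⟨U i l hil (s / n), hb, _, ih, ?_⟩
        rw [← U_add]
        congr 1
        push_cast
        ring
    refine ⟨n, ?_⟩
    have h1 := key n
    rwa [mul_div_cancel₀ s hn0.ne'] at h1
  · rintro g h ⟨m, hm⟩ ⟨n, hn⟩
    exact ⟨m + n, BP_mul hm hn⟩

theorem isCompact_BP (r : ℝ) (n : ℕ) : IsCompact (BP r n) := by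
  induction n with
  | zero => exact isCompact_singleton
  | succ n ih =>
    have h1 := (isCompact_Bl r).mul ih
    have h2 : BP r (n + 1) = Bl r * BP r n := by
      ext g
      constructor
      · rintro ⟨b, hb, g', hg', rfl⟩
        exact Set.mul_mem_mul hb hg'
      · rintro ⟨b, hb, g', hg', rfl⟩
        exact ⟨b, hb, g', hg', rfl⟩
    rw [h2]
    exact h1

/-- A compact set is contained in some `BP r n`. -/
theorem exists_subset_BP {r : ℝ} (hr : 0 < r) {Q : Set G} (hQ : IsCompact Q) :
    ∃ n, Q ⊆ BP r n := by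
  obtain ⟨F, -, hF⟩ := exists_finite_cover hQ hr
  choose N hN using fun g : G => exists_mem_BP hr g
  refine ⟨F.sup N + 1, ?_⟩
  intro q hq
  obtain ⟨f, hf, hqf⟩ := hF q hq
  refine ⟨q * f⁻¹, hqf, f, BP_mono hr.le (Finset.le_sup hf) (hN f), ?_⟩
  group

/-- A nonempty set stable under left multiplication by a small ball is everything. -/
theorem eq_univ_of_Bl_mul {r : ℝ} (hr : 0 < r) {S : Set G} (hne : S.Nonempty)
    (hS : ∀ b ∈ Bl r, ∀ g ∈ S, b * g ∈ S) : S = univ := by
  obtain ⟨s, hs⟩ := hne
  have key : ∀ n : ℕ, ∀ g ∈ BP r n, g * s ∈ S := by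
    intro n
    induction n with
    | zero =>
      intro g hg
      have h1 : g = 1 := hg
      rw [h1, one_mul]
      exact hs
    | succ n ih =>
      rintro g ⟨b, hb, g', hg', rfl⟩
      rw [mul_assoc]
      exact hS b hb _ (ih g' hg')
  rw [Set.eq_univ_iff_forall]
  intro g
  obtain ⟨n, hn⟩ := exists_mem_BP hr (g * s⁻¹)
  have h1 := key n _ hn
  rwa [inv_mul_cancel_right] at h1

/-- `G` is perfect in the form: a homomorphism to a commutative group is trivial. -/
theorem hom_trivial {A : Type*} [CommGroup A] (f : G →* A) (g : G) : f g = 1 := by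
  refine gbc_induction (fun g => f g = 1) ?_ ?_ g
  · intro i l hil s
    -- choose `v` with `cmp v i - cmp v l = log 2`
    obtain ⟨v, hv⟩ := exists_cmp (fun k => if k = i then Real.log 2 / 2 else
      if k = l then -(Real.log 2 / 2) else 0) (by
        fin_cases i <;> fin_cases l <;> first | exact absurd rfl hil | skip
        all_goals simp)
    have h1 : Real.exp (cmp v i - cmp v l) = 2 := by
      rw [hv i, hv l]
      simp only [if_true, if_neg hil.symm]
      rw [show Real.log 2 / 2 - -(Real.log 2 / 2) = Real.log 2 by ring]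
      exact Real.exp_log (by norm_num)
    have h2 := D_mul_U v i l hil s
    rw [h1] at h2
    have h3 := congrArg f h2
    rw [map_mul, map_mul, two_mul, U_add, map_mul] at h3
    have h4 : f (U i l hil s) = f (U i l hil s) * f (U i l hil s) := by
      have : f (D v) * f (U i l hil s) = f (D v) * (f (U i l hil s) * f (U i l hil s)) := by
        rw [h3]; exact mul_comm _ _
      exact mul_left_cancel this
    exact left_eq_mul.1 h4
  · intro g h hg hh
    rw [map_mul, hg, hh, one_mul]

end Pool.Agent.H88.LF
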