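import Pool.Agent.H88.LF.FBA3
import Pool.Agent.H88.LF.GBC

/-!
# FBB: topology of flow boxes (blueprint section 1)

Everything from `inj`, `opn`, `cover`, continuity of the action and compactness of `X`.
-/

set_option autoImplicit false

open MeasureTheory Set Filter
open scoped Topology

namespace Pool.Agent.H88.LF

variable {X : Type} [MetricSpace X] [CompactSpace X] [MulAction G X] [ContinuousSMul G X]

/-- The flow box map `(h,t) ↦ h • c i t` is open on `|t| < 1`. -/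
theorem FB.isOpen_image (S : FB X) (i : Fin S.n) (V : Set (G × ℝ)) (hV : IsOpen V)
    (h1 : ∀ p ∈ V, |p.2| < 1) : IsOpen ((fun p : G × ℝ => p.1 • S.c i p.2) '' V) := by
  rw [isOpen_iff_mem_nhds]
  rintro _ ⟨⟨h, t⟩, hp, rfl⟩
  have ht : |t| < 1 := h1 _ hp
  have hφ : ContinuousAt (fun q : G × ℝ => (h * q.1, q.2)) (1, t) :=
    ((continuous_const.mul continuous_fst).prodMk continuous_snd).continuousAt
  have h2 : (fun q : G × ℝ => (h * q.1, q.2)) ⁻¹' V ∈ 𝓝 ((1 : G), t) := by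
    refine hφ.preimage_mem_nhds ?_
    show V ∈ 𝓝 (h * 1, t)
    rw [mul_one]
    exact hV.mem_nhds hp
  rw [nhds_prod_eq, Filter.mem_prod_iff] at h2
  obtain ⟨U1, hU1, U2, hU2, hU⟩ := h2
  obtain ⟨r1, hr1, hr1'⟩ := nhds_one_basis_Bl.mem_iff.1 hU1
  obtain ⟨r2, hr2, hr2'⟩ := Metric.mem_nhds_iff.1 hU2
  have h3 := S.opn i t ht (min r1 r2) (lt_min hr1 hr2)
  have h4 : (fun y : X => h⁻¹ • y) ⁻¹' {x | ∃ (h : G) (t' : ℝ), nd h < min r1 r2 ∧
      |t' - t| < min r1 r2 ∧ |t'| < 1 ∧ x = h • S.c i t'} ∈ 𝓝 (h • S.c i t) := by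
    refine (continuous_const_smul h⁻¹).continuousAt.preimage_mem_nhds ?_
    rw [inv_smul_smul]
    exact h3
  refine Filter.mem_of_superset h4 ?_
  rintro y ⟨h', t', h5, h6, h7, h8⟩
  refine ⟨(h * h', t'), ?_, ?_⟩
  · refine hU (show ((h', t') : G × ℝ) ∈ U1 ×ˢ U2 from ⟨hr1' ?_, hr2' ?_⟩)
    · exact (h5.trans_le (min_le_left _ _)).le
    · rw [Metric.mem_ball, Real.dist_eq]
      exact h6.trans_le (min_le_right _ _)
  · show (h * h') • S.c i t' = y
    rw [mul_smul, ← h8, smul_inv_smul]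

theorem FB.continuousOn_map (S : FB X) (i : Fin S.n) :
    ContinuousOn (fun p : G × ℝ => p.1 • S.c i p.2) {p | |p.2| < 1} := by
  rintro ⟨g, t⟩ ht
  refine ContinuousAt.continuousWithinAt ?_
  have h1 : ContinuousAt (fun p : G × ℝ => S.c i p.2) (g, t) :=
    ContinuousAt.comp (f := fun p : G × ℝ => p.2) (g := S.c i) (S.cont i t ht) continuousAt_snd
  exact continuousAt_fst.smul h1

/-- The saturation of an open set of parameters is open. -/
theorem FB.isOpen_sat (S : FB X) (i : Fin S.n) (I : Set ℝ) (hI : IsOpen I)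
    (h1 : ∀ t ∈ I, |t| < 1) : IsOpen {x : X | ∃ (g : G), ∃ t ∈ I, x = g • S.c i t} := by
  have h2 : {x : X | ∃ (g : G), ∃ t ∈ I, x = g • S.c i t} =
      (fun p : G × ℝ => p.1 • S.c i p.2) '' (univ ×ˢ I) := by
    ext x
    constructor
    · rintro ⟨g, t, ht, rfl⟩
      exact ⟨(g, t), ⟨mem_univ _, ht⟩, rfl⟩
    · rintro ⟨⟨g, t⟩, ⟨-, ht⟩, rfl⟩
      exact ⟨g, t, ht, rfl⟩
  rw [h2]
  exact S.isOpen_image i _ (isOpen_univ.prod hI) (fun p hp => h1 _ hp.2)

/-- Uniform discreteness of stabilisers (ULF). -/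
theorem FB.ulf (S : FB X) : ∃ ρ > 0, ∀ (x : X) (k : G), nd k ≤ ρ → k • x = x → k = 1 := by
  refine ⟨S.ρ1, S.hρ1, ?_⟩
  intro x k hk hkx
  obtain ⟨h1, h2, h3⟩ := S.rep_spec x
  have hρ1 := S.hρ1
  have hρ := S.hρ
  have hρ0 := S.hρ0
  have h4 : nd (k * S.rh x) < S.ρ0 := by
    have h5 := nd_mul_le k (S.rh x)
    have h6 := nrm_le_nd (S.rh x)
    have h7 : nd k * nrm (S.rh x).1 ≤ S.ρ1 * 4 := by
      refine mul_le_mul hk (by linarith) (nrm_nonneg _) hρ1.le
    linarith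
  have h8 : (k * S.rh x) • S.c (S.ri x) (S.rt x) = S.rh x • S.c (S.ri x) (S.rt x) := by
    rw [mul_smul, ← h3, hkx]
  have h9 := S.inj (S.ri x) (k * S.rh x) (S.rh x) (S.rt x) (S.rt x) (by linarith) (by linarith)
    h4 (by linarith) h8
  exact mul_eq_right.1 h9.1

/-- Quantitative form of ULF by compactness. -/
theorem ulf_close (ρ : ℝ) (hρ : ∀ (x : X) (k : G), nd k ≤ ρ → k • x = x → k = 1) (ε : ℝ)
    (hε : 0 < ε) :
    ∃ ε1 > 0, ∀ (x : X) (k : G), nd k ≤ ρ → dist (k • x) x ≤ ε1 → nd k ≤ ε := by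
  let Z : Set (G × X) := (Bl ρ ∩ {k | ε ≤ nd k}) ×ˢ univ
  have hZ : IsCompact Z := by
    refine IsCompact.prod ?_ isCompact_univ
    exact (isCompact_Bl ρ).inter_right (isClosed_le continuous_const continuous_nd)
  have hf : Continuous (fun p : G × X => dist (p.1 • p.2) p.2) :=
    (continuous_smul).dist continuous_snd
  rcases Z.eq_empty_or_nonempty with hZe | hZn
  · refine ⟨1, one_pos, fun x k hk _ => ?_⟩
    by_contra hcon
    have : ((k, x) : G × X) ∈ Z := ⟨⟨hk, (not_le.1 hcon).le⟩, mem_univ _⟩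
    rw [hZe] at this
    exact this
  · obtain ⟨⟨k0, x0⟩, hz0, hmin⟩ := hZ.exists_isMinOn hZn hf.continuousOn
    have hpos : 0 < dist (k0 • x0) x0 := by
      rw [dist_pos]
      intro h
      have h1 := hρ x0 k0 hz0.1.1 h
      have h2 : ε ≤ nd k0 := hz0.1.2
      rw [h1, nd_one] at h2
      linarith
    refine ⟨dist (k0 • x0) x0 / 2, by positivity, fun x k hk hd => ?_⟩
    by_contra hcon
    have h3 : ((k, x) : G × X) ∈ Z := ⟨⟨hk, (not_le.1 hcon).le⟩, mem_univ _⟩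
    have h4 : dist (k0 • x0) x0 ≤ dist (k • x) x := hmin h3
    linarith

/-- Small group elements move points little, uniformly. -/
theorem small_move (ε : ℝ) (hε : 0 < ε) :
    ∃ ρ > 0, ∀ (x : X) (k : G), nd k ≤ ρ → dist (k • x) x ≤ ε := by
  have hf : Continuous (fun p : G × X => dist (p.1 • p.2) p.2) :=
    (continuous_smul).dist continuous_snd
  have h1 : ∀ᶠ k in 𝓝 (1 : G), ∀ x ∈ (univ : Set X), dist (k • x) x < ε := by
    refine isCompact_univ.eventually_forall_of_forall_eventually (fun x _ => ?_)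
    have h2 : dist ((1 : G) • x) x < ε := by rw [one_smul, dist_self]; exact hε
    exact (hf.tendsto ((1 : G), x)).eventually (gt_mem_nhds h2)
  obtain ⟨ρ, hρ, hρ'⟩ := nhds_one_basis_Bl.mem_iff.1 h1
  exact ⟨ρ, hρ, fun x k hk => (hρ' hk x (mem_univ x)).le⟩

theorem FB.cur_zero (S : FB X) (x : X) : S.cur x 0 = x := by
  unfold FB.cur
  rw [add_zero]
  exact (S.rep_spec x).2.2.symm

/-- The curves `cur x` stay near `x`, uniformly. -/
theorem FB.cur_close (S : FB X) (ε : ℝ) (hε : 0 < ε) :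
    ∃ δ > 0, δ ≤ 1 / 4 ∧ ∀ (x : X) (s : ℝ), |s| ≤ δ → dist (S.cur x s) x ≤ ε := by
  let K : Set (G × ℝ) := Bl S.ρ1 ×ˢ Icc (-(1 / 2) : ℝ) (1 / 2)
  have hK : IsCompact K := (isCompact_Bl _).prod isCompact_Icc
  have h1 : ∀ i : Fin S.n, ∀ᶠ s in 𝓝 (0 : ℝ), ∀ p ∈ K,
      dist (p.1 • S.c i (p.2 + s)) (p.1 • S.c i p.2) < ε := by
    intro i
    refine hK.eventually_forall_of_forall_eventually (P := fun (s : ℝ) (p : G × ℝ) =>
      dist (p.1 • S.c i (p.2 + s)) (p.1 • S.c i p.2) < ε) ?_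
    rintro ⟨g, t⟩ ⟨-, ht⟩
    have ht1 : |t| < 1 := by
      rw [abs_lt]
      constructor <;> linarith [ht.1, ht.2]
    have hc1 : ContinuousAt (fun z : ℝ × (G × ℝ) => S.c i (z.2.2 + z.1)) (0, (g, t)) := by
      refine ContinuousAt.comp (f := fun z : ℝ × (G × ℝ) => z.2.2 + z.1) (g := S.c i) ?_ ?_
      · show ContinuousAt (S.c i) (t + 0)
        rw [add_zero]
        exact S.cont i t ht1
      · exact ((continuous_snd.comp continuous_snd).add continuous_fst).continuousAt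
    have hc2 : ContinuousAt (fun z : ℝ × (G × ℝ) => S.c i z.2.2) (0, (g, t)) := by
      refine ContinuousAt.comp (f := fun z : ℝ × (G × ℝ) => z.2.2) (g := S.c i) ?_ ?_
      · exact S.cont i t ht1
      · exact (continuous_snd.comp continuous_snd).continuousAt
    have hg : ContinuousAt (fun z : ℝ × (G × ℝ) => z.2.1) (0, (g, t)) :=
      (continuous_fst.comp continuous_snd).continuousAt
    have hd : ContinuousAt (fun z : ℝ × (G × ℝ) =>
        dist (z.2.1 • S.c i (z.2.2 + z.1)) (z.2.1 • S.c i z.2.2)) (0, (g, t)) :=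
      (hg.smul hc1).dist (hg.smul hc2)
    have h0 : dist (g • S.c i (t + 0)) (g • S.c i t) < ε := by
      rw [add_zero, dist_self]
      exact hε
    exact hd.tendsto.eventually (gt_mem_nhds h0)
  have h2 : ∀ᶠ s in 𝓝 (0 : ℝ), ∀ i : Fin S.n, ∀ p ∈ K,
      dist (p.1 • S.c i (p.2 + s)) (p.1 • S.c i p.2) < ε := Filter.eventually_all.2 h1
  obtain ⟨δ, hδ, hδ'⟩ := Metric.mem_nhds_iff.1 h2
  refine ⟨min (δ / 2) (1 / 4), lt_min (by positivity) (by norm_num), min_le_right _ _, ?_⟩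
  intro x s hs
  obtain ⟨h3, h4, h5⟩ := S.rep_spec x
  have hsm : s ∈ Metric.ball (0 : ℝ) δ := by
    rw [Metric.mem_ball, dist_zero_right, Real.norm_eq_abs]
    have := hs.trans (min_le_left _ _)
    linarith
  have hmem : ((S.rh x, S.rt x) : G × ℝ) ∈ K := by
    refine ⟨h3.le, ?_⟩
    have := abs_lt.1 h4
    exact ⟨this.1.le, this.2.le⟩
  have h6 := hδ' hsm (S.ri x) _ hmem
  have h7 : dist (S.cur x s) (S.rh x • S.c (S.ri x) (S.rt x)) < ε := h6
  rw [← h5] at h7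
  exact h7.le

theorem CO_smul {x : X} (h : CO x) (g : G) : CO (g • x) := by
  obtain ⟨K, hK, hKx⟩ := h
  refine ⟨(fun k => k * g⁻¹) '' K, hK.image (continuous_mul_const _), ?_⟩
  intro a
  obtain ⟨k, hk, h1⟩ := hKx (a * g)
  refine ⟨k * g⁻¹, ⟨k, hk, rfl⟩, ?_⟩
  rw [← mul_smul, ← mul_smul, inv_mul_cancel_right, h1]

theorem CO_smul_iff {x : X} (g : G) : CO (g • x) ↔ CO x := by
  constructor
  · intro h
    have h1 := CO_smul h g⁻¹
    rwa [inv_smul_smul] at h1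
  · exact fun h => CO_smul h g

/-- A compact orbit meets a closed transversal in finitely many points. -/
theorem FB.finite_plaques (S : FB X) (x : X) (K : Set G) (hK : IsCompact K) (i : Fin S.n) (r : ℝ)
    (hr : r < 1) : Set.Finite {t : ℝ | |t| ≤ r ∧ ∃ k ∈ K, S.c i t = k • x} := by
  obtain ⟨F, -, hF⟩ := exists_finite_cover hK S.hρ1
  have hρ1 := S.hρ1
  have hρ := S.hρ
  have hρ0 := S.hρ0
  have hsub : {t : ℝ | |t| ≤ r ∧ ∃ k ∈ K, S.c i t = k • x} ⊆
      ⋃ f ∈ F, {t : ℝ | |t| ≤ r ∧ ∃ b ∈ Bl S.ρ1, S.c i t = b • (f • x)} := by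
    rintro t ⟨ht, k, hk, h1⟩
    obtain ⟨f, hf, hkf⟩ := hF k hk
    simp only [mem_iUnion]
    refine ⟨f, hf, ht, k * f⁻¹, hkf, ?_⟩
    rw [← mul_smul, inv_mul_cancel_right]
    exact h1
  refine Set.Finite.subset (F.finite_toSet.biUnion (fun f _ => ?_)) hsub
  refine Set.Subsingleton.finite ?_
  rintro t ⟨ht, b, hb, h1⟩ t' ⟨ht', b', hb', h2⟩
  have hinv : ∀ b ∈ Bl S.ρ1, nd b⁻¹ < S.ρ0 := by
    intro b hb
    have hb1 : nd b ≤ S.ρ1 := hb
    have h3 := nd_inv_le_of_small b (by linarith)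
    linarith
  have h4 : b⁻¹ • S.c i t = b'⁻¹ • S.c i t' := by
    rw [h1, h2, inv_smul_smul, inv_smul_smul]
  exact (S.inj i b⁻¹ b'⁻¹ t t' (by linarith) (by linarith) (hinv b hb) (hinv b' hb') h4).2

/-- If the orbit of `x` is covered by `B • y_m`, finitely many `y_m` in the orbit and `B` compact, it is
a compact orbit. -/
theorem CO_of_finite {x : X} (B : Set G) (hB : IsCompact B) (F : Finset G)
    (h : ∀ g : G, ∃ b ∈ B, ∃ f ∈ F, g • x = (b * f) • x) : CO x := by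
  refine ⟨⋃ f ∈ F, (fun b => b * f) '' B, ?_, ?_⟩
  · exact F.isCompact_biUnion (fun f _ => hB.image (continuous_mul_const f))
  · intro g
    obtain ⟨b, hb, f, hf, h1⟩ := h g
    refine ⟨b * f, ?_, h1⟩
    simp only [mem_iUnion]
    exact ⟨f, hf, b, hb, rfl⟩

/-- A point without compact orbit has infinitely many plaques in one flow box. -/
theorem FB.exists_infinite_plaques (S : FB X) (x : X) (hx : ¬ CO x) :
    ∃ j : Fin S.n, Set.Infinite {s : ℝ | |s| ≤ 1 / 2 ∧ ∃ g : G, S.c j s = g • x} := by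
  classical
  by_contra hcon
  push Not at hcon
  have hfin : ∀ j : Fin S.n, Set.Finite {s : ℝ | |s| ≤ 1 / 2 ∧ ∃ g : G, S.c j s = g • x} :=
    fun j => hcon j
  have hch : ∀ (j : Fin S.n) (s : ℝ), ∃ g : G,
      (∃ g : G, S.c j s = g • x) → S.c j s = g • x := by
    intro j s
    by_cases h : ∃ g : G, S.c j s = g • x
    · obtain ⟨g, hg⟩ := h
      exact ⟨g, fun _ => hg⟩
    · exact ⟨1, fun h' => absurd h' h⟩
  choose γ hγ using hch
  refine hx (CO_of_finite (Bl S.ρ1) (isCompact_Bl _)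
    (Finset.univ.biUnion (fun j => (hfin j).toFinset.image (γ j))) ?_)
  intro g
  obtain ⟨h1, h2, h3⟩ := S.rep_spec (g • x)
  have h4 : S.c (S.ri (g • x)) (S.rt (g • x)) = ((S.rh (g • x))⁻¹ * g) • x := by
    rw [mul_smul, eq_inv_smul_iff]
    exact h3.symm
  have h5 := hγ (S.ri (g • x)) (S.rt (g • x)) ⟨_, h4⟩
  refine ⟨S.rh (g • x), h1.le, γ (S.ri (g • x)) (S.rt (g • x)), ?_, ?_⟩
  · rw [Finset.mem_biUnion]
    refine ⟨S.ri (g • x), Finset.mem_univ _, ?_⟩
    rw [Finset.mem_image]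
    refine ⟨S.rt (g • x), ?_, rfl⟩
    rw [Set.Finite.mem_toFinset]
    exact ⟨h2.le, _, h4⟩
  · rw [mul_smul, ← h5]
    exact h3

end Pool.Agent.H88.LF
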