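import Pool.Agent.H88.LF.AFP
import Pool.Agent.H88.LF.FBB

/-!
# AFR (blueprint 10.3): reparametrisation
-/

set_option autoImplicit false

open MeasureTheory Set Filter
open scoped Topology ENNReal

namespace Pool.Agent.H88.LF

/-- primitive of a positive continuous function -/
theorem afr_param (r : ℝ → ℝ) (hpos : ∀ s, |s| < 1 → 0 < r s)
    (hcont : ∀ s, |s| < 1 → ContinuousAt r s) :
    ∃ u : ℝ → ℝ, (∀ t, |t| < 1 → HasDerivAt u (r t) t) ∧ StrictMonoOn u (Ioo (-1) 1) := by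
  have hco : ContinuousOn r (Ioo (-1) 1) := fun s hs =>
    (hcont s (abs_lt.2 hs)).continuousWithinAt
  have hd : ∀ t, |t| < 1 → HasDerivAt (fun t => ∫ x in (0 : ℝ)..t, r x) (r t) t := by
    intro t ht
    have h1 : IntervalIntegrable r volume 0 t := by
      apply ContinuousOn.intervalIntegrable
      intro s hs
      refine (hcont s ?_).continuousWithinAt
      have ht' := abs_lt.1 ht
      rw [abs_lt]
      rcases le_total 0 t with h | h
      · rw [uIcc_of_le h] at hs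
        constructor <;> linarith [hs.1, hs.2]
      · rw [uIcc_of_ge h] at hs
        constructor <;> linarith [hs.1, hs.2]
    exact intervalIntegral.integral_hasDerivAt_right h1
      (ContinuousOn.stronglyMeasurableAtFilter isOpen_Ioo hco t (abs_lt.1 ht)) (hcont t ht)
  refine ⟨fun t => ∫ x in (0 : ℝ)..t, r x, hd, ?_⟩
  refine strictMonoOn_of_deriv_pos (convex_Ioo _ _) ?_ ?_
  · intro t ht
    exact (hd t (abs_lt.2 ht)).continuousAt.continuousWithinAt
  · intro t ht
    rw [interior_Ioo] at ht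
    rw [(hd t (abs_lt.2 ht)).deriv]
    exact hpos t (abs_lt.2 ht)

/-- rescaled inverse of a strictly increasing function -/
theorem afr_inv (u : ℝ → ℝ) (hu : StrictMonoOn u (Ioo (-1) 1)) (hc : ContinuousOn u (Ioo (-1) 1))
    (p : ℝ) (hp : |p| < 1) :
    ∃ ε : ℝ, 0 < ε ∧ ∃ v : ℝ → ℝ, v 0 = p ∧
      ∀ s, |s| < 1 → |v s| < 1 ∧ u (v s) = u p + ε * s ∧ ContinuousAt v s := by
  have hp' := abs_lt.1 hp
  set δ : ℝ := (1 - |p|) / 2 with hδ
  have hδ0 : 0 < δ := by rw [hδ]; linarith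
  have hp1 : p + δ < 1 := by have := le_abs_self p; rw [hδ]; linarith
  have hp2 : -1 < p - δ := by have := neg_abs_le p; rw [hδ]; linarith
  have m0 : p ∈ Ioo (-1 : ℝ) 1 := hp'
  have m1 : p + δ ∈ Ioo (-1 : ℝ) 1 := ⟨by linarith [hp'.1], hp1⟩
  have m2 : p - δ ∈ Ioo (-1 : ℝ) 1 := ⟨hp2, by linarith [hp'.2]⟩
  have e1 : u p < u (p + δ) := hu m0 m1 (by linarith)
  have e2 : u (p - δ) < u p := hu m2 m0 (by linarith)
  set ε : ℝ := min (u (p + δ) - u p) (u p - u (p - δ)) with hε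
  have hε0 : 0 < ε := lt_min (by linarith) (by linarith)
  have hε1 : ε ≤ u (p + δ) - u p := min_le_left _ _
  have hε2 : ε ≤ u p - u (p - δ) := min_le_right _ _
  have hsub : Icc (p - δ) (p + δ) ⊆ Ioo (-1 : ℝ) 1 := fun x hx =>
    ⟨by linarith [hx.1], by linarith [hx.2]⟩
  have hex : ∀ s : ℝ, |s| < 1 → ∃ w ∈ Icc (p - δ) (p + δ), u w = u p + ε * s := by
    intro s hs
    have hs' := abs_lt.1 hs
    have h1 := intermediate_value_Icc (by linarith : p - δ ≤ p + δ) (hc.mono hsub)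
    have h2 : u p + ε * s ∈ Icc (u (p - δ)) (u (p + δ)) := by
      constructor <;> nlinarith
    obtain ⟨w, hw, hw'⟩ := h1 h2
    exact ⟨w, hw, hw'⟩
  classical
  set v : ℝ → ℝ := fun s => if h : |s| < 1 then (hex s h).choose else p with hv
  have hvs : ∀ s, |s| < 1 → v s ∈ Icc (p - δ) (p + δ) ∧ u (v s) = u p + ε * s := by
    intro s hs
    have : v s = (hex s hs).choose := by rw [hv]; simp only [hs, dif_pos]
    rw [this]
    exact (hex s hs).choose_spec
  refine ⟨ε, hε0, v, ?_, ?_⟩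
  · have h0 := hvs 0 (by simp)
    rw [mul_zero, add_zero] at h0
    exact hu.injOn (hsub h0.1) m0 h0.2
  · intro s hs
    obtain ⟨h1, h2⟩ := hvs s hs
    have h3 := hsub h1
    refine ⟨abs_lt.2 h3, h2, ?_⟩
    rw [Metric.continuousAt_iff]
    intro e he
    have h4 : |v s| < 1 := abs_lt.2 h3
    set η : ℝ := min (e / 2) ((1 - |v s|) / 2) with hη
    have hη0 : 0 < η := lt_min (by linarith) (by linarith)
    have hη1 : η ≤ e / 2 := min_le_left _ _
    have hη2 : η ≤ (1 - |v s|) / 2 := min_le_right _ _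
    have n1 : v s + η ∈ Ioo (-1 : ℝ) 1 :=
      ⟨by linarith [h3.1], by linarith [le_abs_self (v s)]⟩
    have n2 : v s - η ∈ Ioo (-1 : ℝ) 1 :=
      ⟨by linarith [neg_abs_le (v s)], by linarith [h3.2]⟩
    have f1 : u (v s) < u (v s + η) := hu h3 n1 (by linarith)
    have f2 : u (v s - η) < u (v s) := hu n2 h3 (by linarith)
    refine ⟨min (min ((u (v s + η) - u (v s)) / ε) ((u (v s) - u (v s - η)) / ε)) (1 - |s|),
      lt_min (lt_min (div_pos (by linarith) hε0) (div_pos (by linarith) hε0)) (by linarith), ?_⟩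
    intro s' hs'
    rw [Real.dist_eq] at hs'
    have g1 : |s' - s| < (u (v s + η) - u (v s)) / ε :=
      hs'.trans_le ((min_le_left _ _).trans (min_le_left _ _))
    have g2 : |s' - s| < (u (v s) - u (v s - η)) / ε :=
      hs'.trans_le ((min_le_left _ _).trans (min_le_right _ _))
    have g3 : |s' - s| < 1 - |s| := hs'.trans_le (min_le_right _ _)
    have g4 : |s'| < 1 := by
      have := abs_add_le (s' - s) s
      rw [sub_add_cancel] at this
      linarith
    obtain ⟨k1, k2⟩ := hvs s' g4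
    rw [lt_div_iff₀ hε0] at g1 g2
    have k3 : u (v s') - u (v s) = ε * (s' - s) := by rw [k2, h2]; ring
    have k4 : u (v s') < u (v s + η) := by
      have := le_abs_self (s' - s)
      nlinarith
    have k5 : u (v s - η) < u (v s') := by
      have := neg_abs_le (s' - s)
      nlinarith
    have k6 := (hu.lt_iff_lt (hsub k1) n1).1 k4
    have k7 := (hu.lt_iff_lt n2 (hsub k1)).1 k5
    rw [Real.dist_eq, abs_lt]
    constructor <;> linarith

variable {X : Type} [MetricSpace X] [CompactSpace X] [MulAction G X] [ContinuousSMul G X]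

omit [CompactSpace X] [ContinuousSMul G X] in
/-- an arrow in the new parameters, near its base point -/
theorem afr_arrow (S : FB X) (hS : S.Straight) (r : Fin S.n → ℝ → ℝ)
    (hlaw : ∀ i j t0 τ0 k0, S.Arr i j t0 τ0 k0 → ∃ c : ℝ, 0 < c ∧ ∀ᶠ s in 𝓝 t0,
        r j (S.τf i j t0 τ0 k0 s) * |deriv (S.τf i j t0 τ0 k0) s| = c * r i s)
    (u : Fin S.n → ℝ → ℝ) (hu : ∀ i t, |t| < 1 → HasDerivAt (u i) (r i t) t)
    {i j : Fin S.n} {t0 τ0 : ℝ} {k0 : G} (h : S.Arr i j t0 τ0 k0) :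
    ∃ (τ : ℝ → ℝ) (β : ℝ), τ t0 = τ0 ∧ ContinuousAt τ t0 ∧
      (∀ᶠ s in 𝓝 t0, S.c i s = k0 • S.c j (τ s)) ∧
      ∀ᶠ s in 𝓝 t0, u j (τ s) = u j τ0 + β * (u i s - u i t0) := by
  obtain ⟨-, h2, -, h4, h5, h6⟩ := S.kf_τf_spec h
  have hk := hS.kf_const h
  obtain ⟨c, hc, hl⟩ := hlaw i j t0 τ0 k0 h
  set τ : ℝ → ℝ := S.τf i j t0 τ0 k0 with hτ
  have hd := FBA3_deriv_cont h4
  have h4c : ContinuousAt τ t0 := h4.continuousAt
  -- constant sign of the derivative
  obtain ⟨σ, hσ⟩ : ∃ σ : ℝ, ∀ᶠ s in 𝓝 t0, deriv τ s = σ * |deriv τ s| := by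
    rcases lt_or_gt_of_ne h5 with h7 | h7
    · refine ⟨-1, ?_⟩
      filter_upwards [hd.eventually_lt_const h7] with s hs
      rw [abs_of_neg hs]; ring
    · refine ⟨1, ?_⟩
      filter_upwards [hd.eventually_const_lt h7] with s hs
      rw [abs_of_pos hs]; ring
  refine ⟨τ, σ * c, h2, h4c, ?_, ?_⟩
  · filter_upwards [h6, hk] with s hs hs'
    rw [hs, hs']
  · have e1 : ∀ᶠ s in 𝓝 t0, |s| < 1 := continuous_abs.continuousAt.eventually_lt_const h.1
    have e2 : ∀ᶠ s in 𝓝 t0, |τ s| < 1 := by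
      refine (continuous_abs.continuousAt.comp h4c).eventually_lt_const ?_
      show |τ t0| < 1
      rw [h2]; exact h.2.1
    have e3 : ∀ᶠ s in 𝓝 t0, ContDiffAt ℝ 2 τ s := h4.eventually (by norm_num)
    have e4 : ∀ᶠ s in 𝓝 t0, HasDerivAt (fun s => u j (τ s) - σ * c * u i s) 0 s := by
      filter_upwards [e1, e2, e3, hl, hσ] with s s1 s2 s3 s4 s5
      have d1 : HasDerivAt τ (deriv τ s) s := (s3.differentiableAt (by norm_num)).hasDerivAt
      have d2 := (hu j (τ s) s2).comp s d1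
      have d3 := (hu i s s1).const_mul (σ * c)
      have d4 := d2.sub d3
      have e : r j (τ s) * deriv τ s - σ * c * r i s = 0 := by
        rw [s5, mul_left_comm, s4]; ring
      rw [e] at d4
      exact d4
    obtain ⟨ρ, hρ, hball⟩ := Metric.eventually_nhds_iff_ball.1 e4
    filter_upwards [Metric.ball_mem_nhds t0 hρ] with s hs
    have hconst := IsOpen.is_const_of_deriv_eq_zero (f := fun s => u j (τ s) - σ * c * u i s)
      Metric.isOpen_ball (convex_ball t0 ρ).isPreconnected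
      (fun y hy => (hball y hy).differentiableAt.differentiableWithinAt)
      (fun y hy => (hball y hy).deriv) hs (Metric.mem_ball_self hρ)
    simp only [h2] at hconst
    linarith

/-- Reparametrisation.  `u_i(t) = ∫_0^t r_i`, strictly increasing and `C¹` on `(-1,1)`; `PreFB` with `A = Fin S.n × {t // |t| < 1}` and `c (i,t0) s = c i (u_i⁻¹(u_i(t0) + ε s))`, `ε` so small that
`u_i(t0) ± ε` are in the range of `u_i` on `(-1,1)`.  Along an arrow: `u_j(τf s) - u_j(τ0) = ± c (u_i(s) - u_i(t0))` near `t0` (derivatives; `τf'` has constant sign), `k = k0` (`Straight`). -/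
theorem affinize_of_density (S : FB X) (hS : S.Straight) (r : Fin S.n → ℝ → ℝ)
    (hpos : ∀ i s, |s| < 1 → 0 < r i s) (hcont : ∀ i s, |s| < 1 → ContinuousAt (r i) s)
    (hlaw : ∀ i j t0 τ0 k0, S.Arr i j t0 τ0 k0 → ∃ c : ℝ, 0 < c ∧ ∀ᶠ s in 𝓝 t0,
        r j (S.τf i j t0 τ0 k0 s) * |deriv (S.τf i j t0 τ0 k0) s| = c * r i s) :
    ∃ S' : FB X, S'.Aff := by
  choose u hu1 hu2 using fun i => afr_param (r i) (hpos i) (hcont i)
  have huc : ∀ i, ContinuousOn (u i) (Ioo (-1) 1) := fun i t ht =>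
    (hu1 i t (abs_lt.2 ht)).continuousAt.continuousWithinAt
  have hinj : ∀ i a b, |a| < 1 → |b| < 1 → u i a = u i b → a = b := fun i a b ha hb hab =>
    (hu2 i).injOn (abs_lt.1 ha) (abs_lt.1 hb) hab
  choose ε hε v hv0 hv using fun (a : Fin S.n × {t : ℝ // |t| < 1}) =>
    afr_inv (u a.1) (hu2 a.1) (huc a.1) a.2.1 a.2.2
  have hρ0 : 0 < S.ρ0 := by linarith [S.hρ1, S.hρ]
  -- transitions are affine
  have key : ∀ (a b : Fin S.n × {t : ℝ // |t| < 1}) (t0 τ0 : ℝ) (k0 : G), |t0| < 1 → |τ0| < 1 →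
      S.c a.1 (v a t0) = k0 • S.c b.1 (v b τ0) →
      ∃ α : ℝ, ∀ᶠ t in 𝓝 t0, S.c a.1 (v a t) = k0 • S.c b.1 (v b (τ0 + α * (t - t0))) := by
    intro a b t0 τ0 k0 ht hτ h
    obtain ⟨a1, a2, a3⟩ := hv a t0 ht
    obtain ⟨b1, b2, b3⟩ := hv b τ0 hτ
    obtain ⟨τ, β, c1, c2, c3, c4⟩ := afr_arrow S hS r hlaw u hu1
      (show S.Arr a.1 b.1 (v a t0) (v b τ0) k0 from ⟨a1, b1, h⟩)
    refine ⟨β * ε a / ε b, ?_⟩
    have e1 : ∀ᶠ t in 𝓝 t0, |t| < 1 := continuous_abs.continuousAt.eventually_lt_const ht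
    have e2 : ∀ᶠ t in 𝓝 t0, |τ0 + β * ε a / ε b * (t - t0)| < 1 := by
      have hcn : Continuous (fun t : ℝ => |τ0 + β * ε a / ε b * (t - t0)|) := by fun_prop
      refine hcn.continuousAt.eventually_lt_const ?_
      show |τ0 + β * ε a / ε b * (t0 - t0)| < 1
      rw [sub_self, mul_zero, add_zero]
      exact hτ
    have e3 := a3.eventually c3
    have e4 := a3.eventually c4
    have e5 : ∀ᶠ t in 𝓝 t0, |τ (v a t)| < 1 := by
      have hcn : ContinuousAt (fun s => |τ s|) (v a t0) := c2.abs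
      refine (ContinuousAt.comp (f := v a) (g := fun s => |τ s|) hcn a3).eventually_lt_const ?_
      show |τ (v a t0)| < 1
      rw [c1]; exact b1
    filter_upwards [e1, e2, e3, e4, e5] with t s1 s2 s3 s4 s5
    rw [s3]
    congr 2
    obtain ⟨d1, d2, -⟩ := hv b _ s2
    refine hinj b.1 _ _ s5 d1 ?_
    rw [s4, d2, b2, (hv a t s1).2.1, a2]
    have := (hε b).ne'
    field_simp
    ring
  refine aff_of_preFB
    { A := Fin S.n × {t : ℝ // |t| < 1}
      c := fun a t => S.c a.1 (v a t)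
      ρ := fun _ => S.ρ0
      hρ := fun _ => hρ0
      cont := ?_
      inj := ?_
      opn := ?_
      cover := ?_
      trans := ?_ } ?_
  · intro a t ht
    obtain ⟨a1, -, a3⟩ := hv a t ht
    exact ContinuousAt.comp (f := v a) (g := S.c a.1) (S.cont a.1 _ a1) a3
  · intro a h h' t t' ht ht' hh hh' heq
    obtain ⟨a1, a2, -⟩ := hv a t ht
    obtain ⟨b1, b2, -⟩ := hv a t' ht'
    obtain ⟨h1, h2⟩ := S.inj a.1 h h' (v a t) (v a t') a1 b1 hh hh' heq
    refine ⟨h1, ?_⟩
    have h3 : u a.1 a.2.1 + ε a * t = u a.1 a.2.1 + ε a * t' := by rw [← a2, ← b2, h2]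
    exact mul_left_cancel₀ (hε a).ne' (add_left_cancel h3)
  · intro a t ht e he
    obtain ⟨a1, a2, -⟩ := hv a t ht
    have hc1 : ContinuousAt (u a.1) (v a t) := (hu1 a.1 _ a1).continuousAt
    have hm : 0 < ε a * min e (1 - |t|) := mul_pos (hε a) (lt_min he (by linarith))
    obtain ⟨d, hd, hd'⟩ := Metric.continuousAt_iff.1 hc1 _ hm
    refine Filter.mem_of_superset (S.opn a.1 (v a t) a1 (min e d) (lt_min he hd)) ?_
    rintro x ⟨g, w, h1, h2, h3, h4⟩
    have h5 : dist w (v a t) < d := by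
      rw [Real.dist_eq]; exact h2.trans_le (min_le_right _ _)
    have h6 := hd' h5
    rw [Real.dist_eq] at h6
    set t' : ℝ := (u a.1 w - u a.1 a.2.1) / ε a with ht'
    have hεa := hε a
    have h7 : ε a * (t' - t) = u a.1 w - u a.1 (v a t) := by
      rw [a2, ht']
      field_simp
      ring
    have h8 : |t' - t| < min e (1 - |t|) := by
      rw [← h7, abs_mul, abs_of_pos hεa] at h6
      exact lt_of_mul_lt_mul_left h6 hεa.le
    have h9 : |t'| < 1 := by
      have := abs_add_le (t' - t) t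
      rw [sub_add_cancel] at this
      have := h8.trans_le (min_le_right _ _)
      linarith
    obtain ⟨b1, b2, -⟩ := hv a t' h9
    have h10 : v a t' = w := by
      refine hinj a.1 _ _ b1 h3 ?_
      rw [b2, ht']
      field_simp
      ring
    refine ⟨g, t', h1.trans_le (min_le_left _ _), h8.trans_le (min_le_left _ _), h9, ?_⟩
    rw [h10]
    exact h4
  · intro x
    obtain ⟨i, h, t, h1, h2, h3⟩ := S.cover x
    refine ⟨(i, ⟨t, by linarith⟩), h, ?_⟩
    simp only [hv0]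
    exact h3
  · intro a b t0 τ0 k0 ht hτ h
    obtain ⟨α, hα⟩ := key a b t0 τ0 k0 ht hτ h
    refine ⟨fun _ => k0, fun t => τ0 + α * (t - t0), rfl, by simp, fun i j => contDiffAt_const,
      by fun_prop, hα⟩
  · exact key

end Pool.Agent.H88.LF
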