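import Pool.Agent.H88.LF.DEN
import Pool.Agent.H88.LF.AFR

/-!
# AFFB
-/

set_option autoImplicit false

open MeasureTheory Set Filter
open scoped Topology ENNReal

namespace Pool.Agent.H88.LF

variable {X : Type} [MetricSpace X] [CompactSpace X] [MulAction G X] [ContinuousSMul G X]

/-- AFF -/
theorem affinize (S : FB X) (hS : S.Straight) (T : TN S) (h : T.CStar) :
    ∃ S' : FB X, S'.Aff := by
  obtain ⟨r, h1, h2, h3⟩ := exists_density hS T h
  exact affinize_of_density S hS r h1 h2 h3

end Pool.Agent.H88.LF
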