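import Pool.Agent.H88.LF.FBA2

/-!
# FBA3: continuity of the derivatives of arrows, compactness, finite values, straight structures

Near a given arrow all arrows are `(t, τf t, kf t)` (`FB.near`), where `dτ = deriv τf t`, `dk` are continuous (`FB.eventually_dτ`).
-/

set_option autoImplicit false

open MeasureTheory Set Filter
open scoped Topology

namespace Pool.Agent.H88.LF

variable {X : Type} [TopologicalSpace X] [MulAction G X]

theorem FBA3_nd_nhds (k0 : G) {ε : ℝ} (hε : 0 < ε) : ∀ᶠ k in 𝓝 k0, nd (k0⁻¹ * k) < ε := by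
  have h1 : Continuous fun k : G => nd (k0⁻¹ * k) := continuous_nd.comp (by fun_prop)
  have h2 : nd (k0⁻¹ * k0) < ε := by
    rw [inv_mul_cancel, nd_one]; exact hε
  exact h1.continuousAt.eventually_lt_const h2

/-- near an arrow all arrows lie on the continuation -/
theorem FBA3_near (S : FB X) {i j : Fin S.n} {p0 : ℝ × ℝ × G}
    (h : S.Arr i j p0.1 p0.2.1 p0.2.2) :
    ∀ᶠ p : ℝ × ℝ × G in 𝓝[{p | S.Arr i j p.1 p.2.1 p.2.2}] p0,
      p.2.2 = S.kf i j p0.1 p0.2.1 p0.2.2 p.1 ∧ p.2.1 = S.τf i j p0.1 p0.2.1 p0.2.2 p.1 := by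
  obtain ⟨ε, hε, hnear⟩ := S.near h
  have h1 : ∀ᶠ p : ℝ × ℝ × G in 𝓝 p0, |p.1 - p0.1| < ε := by
    have hc : Continuous fun p : ℝ × ℝ × G => |p.1 - p0.1| := by fun_prop
    refine hc.continuousAt.eventually_lt_const ?_
    simpa using hε
  have h2 : ∀ᶠ p : ℝ × ℝ × G in 𝓝 p0, nd (p0.2.2⁻¹ * p.2.2) < ε := by
    have hc : Tendsto (fun p : ℝ × ℝ × G => p.2.2) (𝓝 p0) (𝓝 p0.2.2) := by
      have : Continuous fun p : ℝ × ℝ × G => p.2.2 := by fun_prop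
      exact this.tendsto p0
    exact hc.eventually (FBA3_nd_nhds p0.2.2 hε)
  filter_upwards [mem_nhdsWithin_of_mem_nhds h1, mem_nhdsWithin_of_mem_nhds h2,
    self_mem_nhdsWithin] with p hp1 hp2 hp3
  exact hnear p.1 p.2.1 p.2.2 hp1 hp2 hp3

theorem FBA3_fst_tendsto (p0 : ℝ × ℝ × G) (s : Set (ℝ × ℝ × G)) :
    Tendsto (fun p : ℝ × ℝ × G => p.1) (𝓝[s] p0) (𝓝 p0.1) := by
  have : Continuous fun p : ℝ × ℝ × G => p.1 := by fun_prop
  exact (this.tendsto p0).mono_left nhdsWithin_le_nhds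

theorem FBA3_deriv_cont {f : ℝ → ℝ} {t0 : ℝ} (hf : ContDiffAt ℝ 2 f t0) :
    ContinuousAt (deriv f) t0 := by
  have h1 : ContDiffAt ℝ 1 (fderiv ℝ f) t0 := hf.fderiv_right (m := 1) (by norm_num)
  have h2 : ContinuousAt (fderiv ℝ f) t0 := h1.continuousAt
  have h3 : deriv f = fun t => fderiv ℝ f t 1 := by
    funext t
    exact fderiv_apply_one_eq_deriv.symm
  rw [h3]
  exact h2.clm_apply continuousAt_const

/-- `dτ` is continuous on the set of arrows. -/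
theorem FB.continuousOn_dτ (S : FB X) (i j : Fin S.n) :
    ContinuousOn (fun p : ℝ × ℝ × G => S.dτ i j p.1 p.2.1 p.2.2)
      {p | S.Arr i j p.1 p.2.1 p.2.2} := by
  intro p0 h
  have h' : S.Arr i j p0.1 p0.2.1 p0.2.2 := h
  have h1 := FBA3_near S h'
  have h2 := (FBA3_fst_tendsto p0 {p | S.Arr i j p.1 p.2.1 p.2.2}).eventually (S.eventually_dτ h')
  have h3 : (fun p : ℝ × ℝ × G => S.dτ i j p.1 p.2.1 p.2.2) =ᶠ[𝓝[{p | S.Arr i j p.1 p.2.1 p.2.2}] p0]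
      fun p => deriv (S.τf i j p0.1 p0.2.1 p0.2.2) p.1 := by
    filter_upwards [h1, h2] with p hp1 hp2
    rw [hp1.1, hp1.2]
    exact hp2.1
  have h4 : Tendsto (fun p : ℝ × ℝ × G => deriv (S.τf i j p0.1 p0.2.1 p0.2.2) p.1)
      (𝓝[{p | S.Arr i j p.1 p.2.1 p.2.2}] p0) (𝓝 (deriv (S.τf i j p0.1 p0.2.1 p0.2.2) p0.1)) :=
    Tendsto.comp (FBA3_deriv_cont (S.kf_τf_spec h').2.2.2.1) (FBA3_fst_tendsto p0 _)
  exact h4.congr' h3.symm

theorem FBA3_dk_eq {S : FB X} {i j : Fin S.n} {t τ : ℝ} {k : G} {M : Mat}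
    (h : ∀ a b, (S.dk i j t τ k * k.1) a b = M a b) : S.dk i j t τ k = M * (k⁻¹).1 := by
  have h1 : S.dk i j t τ k * k.1 = M := by
    ext a b
    exact h a b
  have h2 : k.1 * (k⁻¹).1 = 1 := by
    rw [← Matrix.SpecialLinearGroup.coe_mul, mul_inv_cancel]; rfl
  rw [← h1, mul_assoc, h2, mul_one]

/-- `dk` is continuous on the set of arrows. -/
theorem FB.continuousOn_dk (S : FB X) (i j : Fin S.n) :
    ContinuousOn (fun p : ℝ × ℝ × G => S.dk i j p.1 p.2.1 p.2.2)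
      {p | S.Arr i j p.1 p.2.1 p.2.2} := by
  intro p0 h
  have h' : S.Arr i j p0.1 p0.2.1 p0.2.2 := h
  have h1 := FBA3_near S h'
  have h2 := (FBA3_fst_tendsto p0 {p | S.Arr i j p.1 p.2.1 p.2.2}).eventually (S.eventually_dτ h')
  let M : ℝ → Mat := fun t => Matrix.of fun a b =>
    deriv (fun t => (S.kf i j p0.1 p0.2.1 p0.2.2 t).1 a b) t
  have h3 : (fun p : ℝ × ℝ × G => S.dk i j p.1 p.2.1 p.2.2) =ᶠ[𝓝[{p | S.Arr i j p.1 p.2.1 p.2.2}] p0]
      fun p => M p.1 * (p.2.2⁻¹).1 := by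
    filter_upwards [h1, h2] with p hp1 hp2
    apply FBA3_dk_eq
    intro a b
    rw [hp1.1, hp1.2]
    exact hp2.2 a b
  have hM : ContinuousAt M p0.1 := by
    refine continuousAt_pi.2 fun a => continuousAt_pi.2 fun b => ?_
    exact FBA3_deriv_cont ((S.kf_τf_spec h').2.2.1 a b)
  have h4 : Tendsto (fun p : ℝ × ℝ × G => M p.1 * (p.2.2⁻¹).1)
      (𝓝[{p | S.Arr i j p.1 p.2.1 p.2.2}] p0) (𝓝 (M p0.1 * (p0.2.2⁻¹).1)) := by
    have e1 : Tendsto (fun p : ℝ × ℝ × G => M p.1) (𝓝[{p | S.Arr i j p.1 p.2.1 p.2.2}] p0)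
      (𝓝 (M p0.1)) := Tendsto.comp (g := M) (y := 𝓝 p0.1) hM (FBA3_fst_tendsto p0 _)
    have e2 : Continuous fun p : ℝ × ℝ × G => (p.2.2⁻¹).1 :=
      closedEmb_val.continuous.comp (by fun_prop)
    exact e1.mul ((e2.tendsto p0).mono_left nhdsWithin_le_nhds)
  have h5 : S.dk i j p0.1 p0.2.1 p0.2.2 = M p0.1 * (p0.2.2⁻¹).1 :=
    h3.eq_of_nhdsWithin h
  have h6 := h4.congr' h3.symm
  rw [← h5] at h6
  exact h6

/-- Arrows over compact sets form a compact set. -/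
theorem FB.isCompact_arr [T2Space X] [ContinuousSMul G X] (S : FB X) (i j : Fin S.n) (r : ℝ)
    (hr : r < 1) (Q : Set G) (hQ : IsCompact Q) :
    IsCompact {p : ℝ × ℝ × G | |p.1| ≤ r ∧ |p.2.1| ≤ r ∧ p.2.2 ∈ Q ∧
      S.Arr i j p.1 p.2.1 p.2.2} := by
  have hK : IsCompact (Icc (-r) r ×ˢ Icc (-r) r ×ˢ Q) :=
    isCompact_Icc.prod (isCompact_Icc.prod hQ)
  have hlt : ∀ t ∈ Icc (-r) r, |t| < 1 := fun t ht => (abs_le.2 ht).trans_lt hr
  have hf : ContinuousOn (fun p : ℝ × ℝ × G => (S.c i p.1, p.2.2 • S.c j p.2.1))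
      (Icc (-r) r ×ˢ Icc (-r) r ×ˢ Q) := by
    rintro ⟨t, τ, k⟩ ⟨ht, hτ, hk⟩
    apply ContinuousAt.continuousWithinAt
    have e1 : ContinuousAt (fun p : ℝ × ℝ × G => S.c i p.1) (t, τ, k) :=
      ContinuousAt.comp (f := fun p : ℝ × ℝ × G => p.1) (g := S.c i) (S.cont i t (hlt t ht))
        continuousAt_fst
    have e2 : ContinuousAt (fun p : ℝ × ℝ × G => S.c j p.2.1) (t, τ, k) :=
      ContinuousAt.comp (f := fun p : ℝ × ℝ × G => p.2.1) (g := S.c j) (S.cont j τ (hlt τ hτ))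
        (by fun_prop)
    have e3 : ContinuousAt (fun p : ℝ × ℝ × G => p.2.2) (t, τ, k) := by fun_prop
    exact e1.prodMk (e3.smul e2)
  have hcl := hf.preimage_isClosed_of_isClosed hK.isClosed isClosed_diagonal
  have heq : {p : ℝ × ℝ × G | |p.1| ≤ r ∧ |p.2.1| ≤ r ∧ p.2.2 ∈ Q ∧
      S.Arr i j p.1 p.2.1 p.2.2} = (Icc (-r) r ×ˢ Icc (-r) r ×ˢ Q) ∩
      (fun p : ℝ × ℝ × G => (S.c i p.1, p.2.2 • S.c j p.2.1)) ⁻¹' diagonal X := by
    ext ⟨t, τ, k⟩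
    constructor
    · rintro ⟨h1, h2, h3, h4⟩
      exact ⟨⟨abs_le.1 h1, abs_le.1 h2, h3⟩, h4.2.2⟩
    · rintro ⟨⟨h1, h2, h3⟩, h4⟩
      exact ⟨abs_le.2 h1, abs_le.2 h2, h3, hlt t h1, hlt τ h2, h4⟩
  rw [heq]
  exact hK.of_isClosed_subset hcl inter_subset_left

/-- A function on arrows which is constant along all local continuations takes finitely many
values on compact sets of arrows (here as a statement about an arbitrary function `f`). -/
theorem FB.finite_values [T2Space X] [ContinuousSMul G X] {E : Type*} (S : FB X) (i j : Fin S.n)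
    (f : ℝ → ℝ → G → E)
    (hf : ∀ t0 τ0 k0, S.Arr i j t0 τ0 k0 → ∀ᶠ t in 𝓝 t0,
      f t (S.τf i j t0 τ0 k0 t) (S.kf i j t0 τ0 k0 t) = f t0 τ0 k0)
    (r : ℝ) (hr : r < 1) (Q : Set G) (hQ : IsCompact Q) :
    Set.Finite {e | ∃ t τ k, |t| ≤ r ∧ |τ| ≤ r ∧ k ∈ Q ∧ S.Arr i j t τ k ∧ e = f t τ k} := by
  have hK := S.isCompact_arr i j r hr Q hQ
  let F : ℝ × ℝ × G → E := fun p => f p.1 p.2.1 p.2.2
  have key : Set.Finite (F '' ({p : ℝ × ℝ × G | |p.1| ≤ r ∧ |p.2.1| ≤ r ∧ p.2.2 ∈ Q ∧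
      S.Arr i j p.1 p.2.1 p.2.2})) := by
    refine hK.induction_on (p := fun s => Set.Finite (F '' s)) ?_ ?_ ?_ ?_
    · simp
    · intro s t hst ht
      exact ht.subset (image_mono hst)
    · intro s t hs ht
      rw [image_union]
      exact hs.union ht
    · intro p0 hp0
      obtain ⟨h1, h2, h3, h4⟩ := hp0
      have e1 := FBA3_near S h4
      have e2 := (FBA3_fst_tendsto p0 {p | S.Arr i j p.1 p.2.1 p.2.2}).eventually (hf _ _ _ h4)
      have e3 : ∀ᶠ p : ℝ × ℝ × G in 𝓝[{p | S.Arr i j p.1 p.2.1 p.2.2}] p0, F p = F p0 := by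
        filter_upwards [e1, e2] with p hp1 hp2
        change f p.1 p.2.1 p.2.2 = f p0.1 p0.2.1 p0.2.2
        rw [hp1.1, hp1.2]
        exact hp2
      refine ⟨{p | F p = F p0}, ?_, ?_⟩
      · exact nhdsWithin_mono p0 (fun p hp => hp.2.2.2) e3
      · refine (finite_singleton (F p0)).subset ?_
        rintro _ ⟨p, hp, rfl⟩
        exact hp
  refine key.subset ?_
  rintro e ⟨t, τ, k, h1, h2, h3, h4, rfl⟩
  exact ⟨(t, τ, k), ⟨h1, h2, h3, h4⟩, rfl⟩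

theorem FBA3_bound1 [T2Space X] [ContinuousSMul G X] (S : FB X) (r : ℝ) (hr : r < 1)
    (Q : Set G) (hQ : IsCompact Q) (i j : Fin S.n) :
    ∃ C : ℝ, 1 ≤ C ∧ ∀ (t τ : ℝ) (k : G), |t| ≤ r → |τ| ≤ r → k ∈ Q →
      S.Arr i j t τ k → |S.dτ i j t τ k| ≤ C ∧ C⁻¹ ≤ |S.dτ i j t τ k| ∧
        nrm (S.dk i j t τ k) ≤ C := by
  have hK := S.isCompact_arr i j r hr Q hQ
  have hsub : {p : ℝ × ℝ × G | |p.1| ≤ r ∧ |p.2.1| ≤ r ∧ p.2.2 ∈ Q ∧
      S.Arr i j p.1 p.2.1 p.2.2} ⊆ {p | S.Arr i j p.1 p.2.1 p.2.2} := fun p hp => hp.2.2.2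
  have c1 := (S.continuousOn_dτ i j).mono hsub
  have c2 := (S.continuousOn_dk i j).mono hsub
  obtain ⟨C1, hC1⟩ := hK.exists_bound_of_continuousOn c1
  obtain ⟨C2, hC2⟩ := hK.exists_bound_of_continuousOn
    (c1.inv₀ fun p hp => S.dτ_ne_zero hp.2.2.2)
  obtain ⟨C3, hC3⟩ := hK.exists_bound_of_continuousOn (continuous_nrm.comp_continuousOn c2)
  refine ⟨max 1 (max C1 (max C2 C3)), le_max_left _ _, fun t τ k h1 h2 h3 h4 => ?_⟩
  have hp : ((t, τ, k) : ℝ × ℝ × G) ∈ {p : ℝ × ℝ × G | |p.1| ≤ r ∧ |p.2.1| ≤ r ∧ p.2.2 ∈ Q ∧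
      S.Arr i j p.1 p.2.1 p.2.2} := ⟨h1, h2, h3, h4⟩
  have d1 := hC1 _ hp
  have d2 := hC2 _ hp
  have d3 := hC3 _ hp
  have hd : 0 < |S.dτ i j t τ k| := abs_pos.2 (S.dτ_ne_zero h4)
  have m1 : C1 ≤ max 1 (max C1 (max C2 C3)) := (le_max_left _ _).trans (le_max_right _ _)
  have m2 : C2 ≤ max 1 (max C1 (max C2 C3)) :=
    ((le_max_left _ _).trans (le_max_right _ _)).trans (le_max_right _ _)
  have m3 : C3 ≤ max 1 (max C1 (max C2 C3)) :=
    ((le_max_right _ _).trans (le_max_right _ _)).trans (le_max_right _ _)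
  refine ⟨?_, ?_, ?_⟩
  · exact le_trans d1 m1
  · have d2' : |S.dτ i j t τ k|⁻¹ ≤ max 1 (max C1 (max C2 C3)) := by
      have : ‖(S.dτ i j t τ k)⁻¹‖ = |S.dτ i j t τ k|⁻¹ := by rw [norm_inv, Real.norm_eq_abs]
      rw [← this]
      exact le_trans d2 m2
    rw [inv_le_comm₀ (lt_of_lt_of_le one_pos (le_max_left _ _)) hd]
    exact d2'
  · refine le_trans ((le_abs_self _).trans ?_) m3
    exact d3

/-- Uniform bounds for the derivatives of arrows over compact sets. -/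
theorem FB.exists_bound_arr [T2Space X] [ContinuousSMul G X] (S : FB X) (r : ℝ) (hr : r < 1)
    (Q : Set G) (hQ : IsCompact Q) :
    ∃ C : ℝ, 1 ≤ C ∧ ∀ (i j : Fin S.n) (t τ : ℝ) (k : G), |t| ≤ r → |τ| ≤ r → k ∈ Q →
      S.Arr i j t τ k → |S.dτ i j t τ k| ≤ C ∧ C⁻¹ ≤ |S.dτ i j t τ k| ∧
        nrm (S.dk i j t τ k) ≤ C := by
  choose C hC1 hC using FBA3_bound1 S r hr Q hQ
  have hle : ∀ i j, C i j ≤ 1 + ∑ i, ∑ j, C i j := by
    intro i j
    have h0 : ∀ i j, 0 ≤ C i j := fun i j => le_trans zero_le_one (hC1 i j)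
    have e1 : C i j ≤ ∑ j, C i j :=
      Finset.single_le_sum (f := fun j => C i j) (fun j _ => h0 i j) (Finset.mem_univ j)
    have e2 : ∑ j, C i j ≤ ∑ i, ∑ j, C i j :=
      Finset.single_le_sum (f := fun i => ∑ j, C i j)
        (fun i _ => Finset.sum_nonneg fun j _ => h0 i j) (Finset.mem_univ i)
    linarith
  refine ⟨1 + ∑ i, ∑ j, C i j, ?_, fun i j t τ k h1 h2 h3 h4 => ?_⟩
  · have : 0 ≤ ∑ i, ∑ j, C i j := Finset.sum_nonneg fun i _ => Finset.sum_nonneg fun j _ =>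
      le_trans zero_le_one (hC1 i j)
    linarith
  · obtain ⟨d1, d2, d3⟩ := hC i j t τ k h1 h2 h3 h4
    refine ⟨d1.trans (hle i j), ?_, d3.trans (hle i j)⟩
    exact (inv_anti₀ (lt_of_lt_of_le one_pos (hC1 i j)) (hle i j)).trans d2

/-- In a straight structure the group component of the continuation is constant. -/
theorem FB.Straight.kf_const {S : FB X} (hS : S.Straight) {i j : Fin S.n} {t0 τ0 : ℝ} {k0 : G}
    (h : S.Arr i j t0 τ0 k0) : ∀ᶠ t in 𝓝 t0, S.kf i j t0 τ0 k0 t = k0 := by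
  obtain ⟨τ, hτ0, hτ, _, he⟩ := hS i j t0 τ0 k0 h
  have h1 := S.cont_unique h (fun _ => k0) τ continuousAt_const hτ.continuousAt rfl hτ0 he
  filter_upwards [h1] with t ht
  exact ht.1.symm

theorem FB.Straight.dk_eq_zero {S : FB X} (hS : S.Straight) {i j : Fin S.n} {t0 τ0 : ℝ} {k0 : G}
    (h : S.Arr i j t0 τ0 k0) : S.dk i j t0 τ0 k0 = 0 := by
  have h1 := hS.kf_const h
  unfold FB.dk
  have h2 : (Matrix.of fun a b => deriv (fun t => (S.kf i j t0 τ0 k0 t).1 a b) t0 : Mat) = 0 := by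
    ext a b
    rw [Matrix.of_apply, Matrix.zero_apply]
    have h3 : (fun t => (S.kf i j t0 τ0 k0 t).1 a b) =ᶠ[𝓝 t0] fun _ => k0.1 a b := by
      filter_upwards [h1] with t ht
      rw [ht]
    rw [h3.deriv_eq, deriv_const]
  rw [h2, zero_mul]

theorem FB.Aff.straight {S : FB X} (hS : S.Aff) : S.Straight := by
  intro i j t0 τ0 k0 h
  obtain ⟨α, hα, he⟩ := hS i j t0 τ0 k0 h
  have hd : HasDerivAt (fun t : ℝ => τ0 + α * (t - t0)) α t0 := by
    simpa using (((hasDerivAt_id t0).sub_const t0).const_mul α).const_add τ0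
  refine ⟨fun t => τ0 + α * (t - t0), by simp, by fun_prop, ?_, he⟩
  rw [hd.deriv]
  exact hα

end Pool.Agent.H88.LF
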