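import Pool.Agent.H88.LF.PRE
import Pool.Agent.H88.LF.FBA3

/-!
# AFP: affine structure from a family
-/

set_option autoImplicit false

open MeasureTheory Set Filter
open scoped Topology ENNReal

namespace Pool.Agent.H88.LF

variable {X : Type} [MetricSpace X] [CompactSpace X] [MulAction G X] [ContinuousSMul G X]

/-- Affine structure from a family: like `straight_of_preFB`. -/
theorem aff_of_preFB (P : PreFB X)
    (hP : ∀ a b (t0 τ0 : ℝ) (k0 : G), |t0| < 1 → |τ0| < 1 → P.c a t0 = k0 • P.c b τ0 →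
      ∃ α : ℝ, ∀ᶠ t in 𝓝 t0, P.c a t = k0 • P.c b (τ0 + α * (t - t0))) :
    ∃ S : FB X, S.Aff := by
  obtain ⟨S, hS⟩ := preFB_toFB P
  choose a h hc using hS
  refine ⟨S, fun i j t0 τ0 k0 hA => ?_⟩
  obtain ⟨ht, hτ, hk⟩ := hA
  have h1 : P.c (a i) t0 = ((h i)⁻¹ * k0 * h j) • P.c (a j) τ0 := by
    rw [mul_smul, mul_smul, ← hc j τ0, ← hk, hc i t0, inv_smul_smul]
  obtain ⟨α, hα⟩ := hP (a i) (a j) t0 τ0 _ ht hτ h1
  have h2 : ∀ᶠ t in 𝓝 t0, S.c i t = k0 • S.c j (τ0 + α * (t - t0)) := by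
    filter_upwards [hα] with t e
    rw [hc i t, e, hc j, mul_smul, mul_smul, smul_inv_smul]
  refine ⟨α, ?_, h2⟩
  rintro rfl
  have h3 : ∀ᶠ t in 𝓝 t0, |t| < 1 :=
    continuous_abs.continuousAt.eventually_lt continuousAt_const ht
  have h4 : ∀ᶠ t in 𝓝[≠] t0, S.c i t = k0 • S.c j (τ0 + 0 * (t - t0)) ∧ |t| < 1 ∧ t ≠ t0 :=
    (h2.filter_mono nhdsWithin_le_nhds).and
      ((h3.filter_mono nhdsWithin_le_nhds).and self_mem_nhdsWithin)
  obtain ⟨t, e1, e2, e3⟩ := h4.exists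
  have hρ : nd (1 : G) < S.ρ0 := by
    rw [pre_nd_one]
    linarith [S.hρ, S.hρ1]
  rw [zero_mul, add_zero, ← hk] at e1
  refine e3 (S.inj i 1 1 t t0 e2 ht hρ hρ ?_).2
  rw [e1]

end Pool.Agent.H88.LF
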