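import Pool.Agent.H88.LF.ALGF

/-!
# ALG (blueprint section 12): there is no subgroup Lambda of SL(3,ℝ) with an affine action on ℝ
# satisfying (i) and (iii)

Steps 1 to 3 (construction of the space `S`); the remaining steps are in ALGA - ALGF.
-/

set_option autoImplicit false

open Set Filter
open scoped Topology

namespace Pool.Agent.H88.LF

/-- Step 1: small elements. -/
theorem alg_small (Λ : Subgroup G) (A : G → ℝ → ℝ)
    (hA : ∀ h ∈ Λ, ∃ a b : ℝ, a ≠ 0 ∧ ∀ s, A h s = a * s + b)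
    (Q : Set G) (hQ : IsCompact Q) (R : ℝ)
    (hiii : ∀ (g : G) (s : ℝ), ∃ h ∈ Λ, g * h⁻¹ ∈ Q ∧ |A h s| ≤ R)
    {U : Set G} (hU : U ∈ 𝓝 (1 : G)) : ∃ h ∈ Λ, h ∈ U ∧ h ≠ 1 := by
  by_contra hcon
  push Not at hcon
  choose h hh hq hR using fun n : ℕ => hiii 1 (n : ℝ)
  have hq' : ∀ n, (h n)⁻¹ ∈ Q := fun n => by simpa using hq n
  obtain ⟨q, _, φ, hφ, hlim⟩ := hQ.tendsto_subseq hq'
  have hc : Continuous (fun z : G × G => z.1 * z.2⁻¹) := by fun_prop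
  have h1 : Tendsto (fun z : G × G => z.1 * z.2⁻¹) (𝓝 (q, q)) (𝓝 1) := by
    have := hc.tendsto (q, q)
    simpa using this
  have h2 := h1 hU
  rw [mem_map, nhds_prod_eq] at h2
  obtain ⟨V, hV, W, hW, hVW⟩ := mem_prod_iff.1 h2
  have h3 := hlim.eventually hV
  have h4 := hlim.eventually hW
  obtain ⟨N, hN⟩ := (h3.and h4).exists_forall_of_atTop
  have heq : ∀ n ≥ N, h (φ n) = h (φ N) := by
    intro n hn
    have hm : ((h (φ n))⁻¹, (h (φ N))⁻¹) ∈ V ×ˢ W := ⟨(hN n hn).1, (hN N le_rfl).2⟩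
    have h5 : (h (φ n))⁻¹ * ((h (φ N))⁻¹)⁻¹ ∈ U := hVW hm
    have h6 := hcon _ (Λ.mul_mem (Λ.inv_mem (hh _)) (Λ.inv_mem (Λ.inv_mem (hh _)))) h5
    rw [inv_inv, inv_mul_eq_one] at h6
    exact h6
  obtain ⟨a, b, ha, hab⟩ := hA _ (hh (φ N))
  have hbd : ∀ n ≥ N, |a| * (φ n : ℝ) ≤ R + |b| := by
    intro n hn
    have h7 := hR (φ n)
    rw [heq n hn, hab] at h7
    have h8 : |a * (φ n : ℝ)| ≤ |a * (φ n : ℝ) + b| + |b| := by
      have := abs_add_le (a * (φ n : ℝ) + b) (-b)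
      rw [abs_neg, add_neg_cancel_right] at this
      exact this
    rw [abs_mul, abs_of_nonneg (Nat.cast_nonneg (φ n) : (0 : ℝ) ≤ φ n)] at h8
    linarith
  have h9 : Tendsto (fun n => |a| * (φ n : ℝ)) atTop atTop :=
    (tendsto_natCast_atTop_atTop.comp hφ.tendsto_atTop).const_mul_atTop (abs_pos.2 ha)
  obtain ⟨n, hn1, hn2⟩ := ((h9.eventually_gt_atTop (R + |b|)).and (eventually_ge_atTop N)).exists
  linarith [hbd n hn2]

/-- the span of the `h - 1`, `h ∈ Λ ∩ U` -/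
def algT (Λ : Subgroup G) (U : Set G) : Submodule ℝ Mat :=
  Submodule.span ℝ {Z : Mat | ∃ h ∈ Λ, h ∈ U ∧ Z = h.1 - 1}

theorem algT_mono (Λ : Subgroup G) {U U' : Set G} (h : U ⊆ U') : algT Λ U ≤ algT Λ U' := by
  apply Submodule.span_mono
  rintro Z ⟨x, hx, hxU, rfl⟩
  exact ⟨x, hx, h hxU, rfl⟩

theorem algT_mem (Λ : Subgroup G) {U : Set G} {h : G} (hh : h ∈ Λ) (hU : h ∈ U) :
    h.1 - 1 ∈ algT Λ U := Submodule.subset_span ⟨h, hh, hU, rfl⟩

theorem algT_induction (Λ : Subgroup G) (U : Set G) {p : Mat → Prop}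
    (hm : ∀ h ∈ Λ, h ∈ U → p (h.1 - 1)) (h0 : p 0) (ha : ∀ x y, p x → p y → p (x + y))
    (hs : ∀ (c : ℝ) x, p x → p (c • x)) {Z : Mat} (hZ : Z ∈ algT Λ U) : p Z := by
  unfold algT at hZ
  induction hZ using Submodule.span_induction with
  | mem Z hZ =>
    obtain ⟨x, hx, hxU, rfl⟩ := hZ
    exact hm x hx hxU
  | zero => exact h0
  | add a b _ _ h1 h2 => exact ha a b h1 h2
  | smul c a _ h1 => exact hs c a h1

theorem algT_stab (Λ : Subgroup G) : ∃ U1 ∈ 𝓝 (1 : G), ∀ U ∈ 𝓝 (1 : G),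
    algT Λ U1 = algT Λ (U ∩ U1) := by
  classical
  have hex : ∃ m : ℕ, ∃ U ∈ 𝓝 (1 : G), Module.finrank ℝ (algT Λ U) = m :=
    ⟨_, univ, univ_mem, rfl⟩
  obtain ⟨U1, hU1, hU1m⟩ := Nat.find_spec hex
  refine ⟨U1, hU1, fun U hU => ?_⟩
  symm
  refine Submodule.eq_of_le_of_finrank_le (algT_mono Λ inter_subset_right) ?_
  rw [hU1m]
  exact Nat.find_min' hex ⟨_, inter_mem hU hU1, rfl⟩

/-- ALG -/
theorem alg (Λ : Subgroup G) (A : G → ℝ → ℝ)
    (hA : ∀ h ∈ Λ, ∃ a b : ℝ, a ≠ 0 ∧ ∀ s, A h s = a * s + b)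
    (hmul : ∀ h ∈ Λ, ∀ h' ∈ Λ, ∀ s, A (h * h') s = A h (A h' s))
    (ρ : ℝ) (hρ : 0 < ρ)
    (hi : ∀ h ∈ Λ, (∃ s, A h s = s) → ∀ g : G, nd (g * h * g⁻¹) ≤ ρ → h = 1)
    (Q : Set G) (hQ : IsCompact Q) (R : ℝ)
    (hiii : ∀ (g : G) (s : ℝ), ∃ h ∈ Λ, g * h⁻¹ ∈ Q ∧ |A h s| ≤ R) : False := by
  classical
  -- the neighbourhood where `nd ≤ ρ`
  have hU0 : {g : G | nd g ≤ ρ} ∈ 𝓝 (1 : G) := by
    have h1 : nd 1 = 0 := by simp [nd, nrm]
    have h2 : Tendsto nd (𝓝 1) (𝓝 0) := by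
      have := alg_nd_cont.tendsto 1
      rwa [h1] at this
    exact h2 (Iic_mem_nhds hρ)
  have A_one : ∀ s, A 1 s = s := by
    intro s
    obtain ⟨a, b, ha, hab⟩ := hA 1 Λ.one_mem
    have h1 := hmul 1 Λ.one_mem 1 Λ.one_mem s
    rw [one_mul, hab (A 1 s)] at h1
    have h2 := hab s
    have h3 : a * (A 1 s - s) = 0 := by linarith
    rcases mul_eq_zero.1 h3 with h | h
    · exact absurd h ha
    · linarith
  -- small elements are translations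
  have htrans : ∀ h ∈ Λ, nd h ≤ ρ → ∃ τ : ℝ, ∀ s, A h s = s + τ := by
    intro h hh hn
    by_cases hfix : ∃ s, A h s = s
    · have h1 := hi h hh hfix 1 (by simpa using hn)
      subst h1
      exact ⟨0, fun s => by rw [A_one, add_zero]⟩
    · obtain ⟨a, b, ha, hab⟩ := hA h hh
      by_cases ha1 : a = 1
      · exact ⟨b, fun s => by rw [hab, ha1, one_mul]⟩
      · exfalso
        apply hfix
        refine ⟨b / (1 - a), ?_⟩
        have : 1 - a ≠ 0 := sub_ne_zero.2 (Ne.symm ha1)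
        rw [hab]
        field_simp
        ring
  -- small elements commute
  obtain ⟨V, hV, hcommV⟩ : ∃ V ∈ 𝓝 (1 : G), ∀ x ∈ Λ, x ∈ V → ∀ y ∈ Λ, y ∈ V →
      x * y = y * x := by
    have hc : Continuous (fun z : G × G => z.1 * z.2 * z.1⁻¹ * z.2⁻¹) := by fun_prop
    have h1 : Tendsto (fun z : G × G => z.1 * z.2 * z.1⁻¹ * z.2⁻¹) (𝓝 (1, 1)) (𝓝 1) := by
      have := hc.tendsto (1, 1)
      simpa using this
    have h2 := h1 hU0
    rw [mem_map, nhds_prod_eq] at h2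
    obtain ⟨V1, hV1, W1, hW1, hVW⟩ := mem_prod_iff.1 h2
    refine ⟨V1 ∩ W1 ∩ {g : G | nd g ≤ ρ}, inter_mem (inter_mem hV1 hW1) hU0, ?_⟩
    rintro x hx ⟨⟨hx1, hx2⟩, hx3⟩ y hy ⟨⟨hy1, hy2⟩, hy3⟩
    obtain ⟨τ, hτ⟩ := htrans x hx hx3
    obtain ⟨σ, hσ⟩ := htrans y hy hy3
    have hx' := Λ.inv_mem hx
    have hy' := Λ.inv_mem hy
    have hxi : ∀ s, A x⁻¹ s = s - τ := by
      intro s
      have h3 := hmul x hx x⁻¹ hx' s
      rw [mul_inv_cancel, A_one, hτ] at h3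
      linarith
    have hyi : ∀ s, A y⁻¹ s = s - σ := by
      intro s
      have h3 := hmul y hy y⁻¹ hy' s
      rw [mul_inv_cancel, A_one, hσ] at h3
      linarith
    have hk : x * y * x⁻¹ * y⁻¹ ∈ Λ := Λ.mul_mem (Λ.mul_mem (Λ.mul_mem hx hy) hx') hy'
    have h4 : x * y * x⁻¹ * y⁻¹ = 1 := by
      refine hi _ hk ⟨0, ?_⟩ 1 ?_
      · rw [hmul _ (Λ.mul_mem (Λ.mul_mem hx hy) hx') _ hy', hmul _ (Λ.mul_mem hx hy) _ hx',
          hmul _ hx _ hy, hyi, hxi, hσ, hτ]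
        ring
      · have h5 : (x, y) ∈ V1 ×ˢ W1 := ⟨hx1, hy2⟩
        have h6 := hVW h5
        rw [mem_preimage] at h6
        have h7 : x * y * x⁻¹ * y⁻¹ ∈ {g : G | nd g ≤ ρ} := h6
        rw [mem_ofPred_eq] at h7
        rw [one_mul, inv_one, mul_one]
        exact h7
    calc x * y = (x * y * x⁻¹ * y⁻¹) * (y * x) := by group
      _ = y * x := by rw [h4, one_mul]
  -- the spans
  obtain ⟨U1, hU1, hST⟩ := algT_stab Λ
  have hi' : ∃ U ∈ 𝓝 (1 : G), ∀ h ∈ Λ, (∃ s, A h s = s) → ∀ g : G, g * h * g⁻¹ ∈ U → h = 1 := by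
    refine ⟨{g : G | nd g ≤ ρ}, hU0, ?_⟩
    intro h hh hf g hg
    rw [mem_ofPred_eq] at hg
    exact hi h hh hf g hg
  refine AlgGood.absurd (L := Λ) (A := A) (S := algT Λ U1)
    ⟨hA, hmul, hi', ?_, ?_, ?_, ?_, ?_, ?_⟩
  · refine ⟨Q⁻¹, hQ.inv, fun g => ?_⟩
    obtain ⟨h, hh, hq, _⟩ := hiii g 0
    refine ⟨(g * h⁻¹)⁻¹, ?_, ?_⟩
    · rw [Set.mem_inv, inv_inv]; exact hq
    · have : (g * h⁻¹)⁻¹ * g = h := by group
      rw [this]; exact hh
  · rw [hST V hV]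
    have h1 : ∀ Z ∈ algT Λ (V ∩ U1), ∀ y ∈ Λ, y ∈ V → Z * (y.1 - 1) = (y.1 - 1) * Z := by
      intro Z hZ y hy hyV
      refine algT_induction Λ (V ∩ U1) (p := fun Z => Z * (y.1 - 1) = (y.1 - 1) * Z)
        ?_ ?_ ?_ ?_ hZ
      · intro x hx hxU
        have h2 := congrArg (fun g : G => g.1) (hcommV x hx hxU.1 y hy hyV)
        simp only [alg_mulv] at h2
        show (x.1 - 1) * (y.1 - 1) = (y.1 - 1) * (x.1 - 1)
        rw [mul_sub, sub_mul, sub_mul, mul_sub, sub_mul, h2]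
        simp only [mul_one, one_mul]
        abel
      · show (0 : Mat) * _ = _ * (0 : Mat)
        rw [zero_mul, mul_zero]
      · intro a b ha hb
        show (a + b) * _ = _ * (a + b)
        rw [add_mul, mul_add, ha, hb]
      · intro c a ha
        show (c • a) * _ = _ * (c • a)
        rw [Matrix.smul_mul, Matrix.mul_smul, ha]
    intro Z hZ W hW
    refine algT_induction Λ (V ∩ U1) (p := fun W => Z * W = W * Z) ?_ ?_ ?_ ?_ hW
    · intro y hy hyU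
      exact h1 Z hZ y hy hyU.1
    · show _ * (0 : Mat) = (0 : Mat) * _
      rw [zero_mul, mul_zero]
    · intro a b ha hb
      show _ * (a + b) = (a + b) * _
      rw [add_mul, mul_add, ha, hb]
    · intro c a ha
      show _ * (c • a) = (c • a) * _
      rw [Matrix.smul_mul, Matrix.mul_smul, ha]
  · intro k hk Z hZ
    have hUk := alg_conj_nhds k hU1
    rw [hST _ hUk] at hZ
    rw [← algConj_apply]
    refine algT_induction Λ _ (p := fun Z => algConj k Z ∈ algT Λ U1) ?_ ?_ ?_ ?_ hZ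
    · intro x hx hxU
      show algConj k (x.1 - 1) ∈ _
      rw [algConj_sub_one]
      exact algT_mem Λ (Λ.mul_mem (Λ.mul_mem hk hx) (Λ.inv_mem hk)) hxU.1
    · show algConj k 0 ∈ _
      rw [map_zero]; exact Submodule.zero_mem _
    · intro a b ha hb
      show algConj k (a + b) ∈ _
      rw [map_add]; exact Submodule.add_mem _ ha hb
    · intro c a ha
      show algConj k (c • a) ∈ _
      rw [map_smul]; exact Submodule.smul_mem _ c ha
  · apply Submodule.span_le.2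
    rintro Z ⟨x, hx, hxU, rfl⟩
    exact Submodule.subset_span ⟨algT_mem Λ hx hxU, x, hx, rfl⟩
  · exact ⟨U1, hU1, fun h hh hU => algT_mem Λ hh hU⟩
  · obtain ⟨h, hh, hhU, hne⟩ := alg_small Λ A hA Q hQ R hiii hU1
    exact ⟨h, hh, hne, algT_mem Λ hh hhU⟩

end Pool.Agent.H88.LF
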