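import Pool.Agent.H88.LF.Defs

/-!
# ALGA: conjugation stable data used in ALG
-/

set_option autoImplicit false

open Set Filter
open scoped Topology

namespace Pool.Agent.H88.LF

theorem alg_cval : Continuous (fun g : G => g.1) := closedEmb_val.continuous

theorem alg_vinv (g : G) : g.1 * (g⁻¹).1 = 1 := by
  have h : (g * g⁻¹).1 = (1 : G).1 := by rw [mul_inv_cancel]
  rwa [Matrix.SpecialLinearGroup.coe_mul, Matrix.SpecialLinearGroup.coe_one] at h

theorem alg_invv (g : G) : (g⁻¹).1 * g.1 = 1 := by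
  have h : (g⁻¹ * g).1 = (1 : G).1 := by rw [inv_mul_cancel]
  rwa [Matrix.SpecialLinearGroup.coe_mul, Matrix.SpecialLinearGroup.coe_one] at h

theorem alg_mulv (g h : G) : (g * h).1 = g.1 * h.1 := Matrix.SpecialLinearGroup.coe_mul g h

theorem alg_onev : (1 : G).1 = (1 : Mat) := Matrix.SpecialLinearGroup.coe_one

/-- If `g.1 * M = 1` then `M` is the inverse. -/
theorem alg_inv_eq (g : G) (M : Mat) (h : g.1 * M = 1) : (g⁻¹).1 = M := by
  calc (g⁻¹).1 = (g⁻¹).1 * (g.1 * M) := by rw [h, mul_one]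
    _ = M := by rw [← mul_assoc, alg_invv, one_mul]

theorem alg_nd_cont : Continuous nd := by
  unfold nd nrm
  refine continuous_finsetSum _ fun i _ => continuous_finsetSum _ fun j _ => ?_
  refine Continuous.abs ?_
  have h : Continuous (fun g : G => g.1 - (1 : Mat)) := alg_cval.sub continuous_const
  exact (continuous_apply j).comp ((continuous_apply i).comp h)

/-- Everything that is used about `Λ`; stable under conjugation. -/
structure AlgGood (L : Subgroup G) (A : G → ℝ → ℝ) (S : Submodule ℝ Mat) : Prop where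
  hA : ∀ h ∈ L, ∃ a b : ℝ, a ≠ 0 ∧ ∀ s, A h s = a * s + b
  hmul : ∀ h ∈ L, ∀ h' ∈ L, ∀ s, A (h * h') s = A h (A h' s)
  hi : ∃ U ∈ 𝓝 (1 : G), ∀ h ∈ L, (∃ s, A h s = s) → ∀ g : G, g * h * g⁻¹ ∈ U → h = 1
  hK : ∃ K : Set G, IsCompact K ∧ ∀ g : G, ∃ p ∈ K, p * g ∈ L
  comm : ∀ Z ∈ S, ∀ W ∈ S, Z * W = W * Z
  inv : ∀ h ∈ L, ∀ Z ∈ S, h.1 * Z * (h⁻¹).1 ∈ S
  span : S ≤ Submodule.span ℝ {Z : Mat | Z ∈ S ∧ ∃ h ∈ L, Z = h.1 - 1}
  small : ∃ U ∈ 𝓝 (1 : G), ∀ h ∈ L, h ∈ U → h.1 - 1 ∈ S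
  ne : ∃ h ∈ L, h ≠ 1 ∧ h.1 - 1 ∈ S

/-- conjugation as a linear map -/
def algConj (g : G) : Mat →ₗ[ℝ] Mat where
  toFun Z := g.1 * Z * (g⁻¹).1
  map_add' Z W := by rw [mul_add, add_mul]
  map_smul' c Z := by simp

theorem algConj_apply (g : G) (Z : Mat) : algConj g Z = g.1 * Z * (g⁻¹).1 := rfl

theorem algConj_mul (g h : G) (Z : Mat) : algConj (g * h) Z = algConj g (algConj h Z) := by
  rw [algConj_apply, algConj_apply, algConj_apply, mul_inv_rev, alg_mulv, alg_mulv]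
  simp only [mul_assoc]

theorem algConj_one (Z : Mat) : algConj 1 Z = Z := by
  rw [algConj_apply, inv_one, alg_onev, one_mul, mul_one]

theorem algConj_sub_one (g h : G) : algConj g (h.1 - 1) = (g * h * g⁻¹).1 - 1 := by
  rw [algConj_apply, mul_sub, sub_mul, mul_one, alg_vinv, alg_mulv, alg_mulv]

theorem algConj_prod (g : G) (Z W : Mat) : algConj g (Z * W) = algConj g Z * algConj g W := by
  rw [algConj_apply, algConj_apply, algConj_apply]
  calc g.1 * (Z * W) * (g⁻¹).1 = g.1 * Z * 1 * W * (g⁻¹).1 := by simp only [mul_one, mul_assoc]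
    _ = g.1 * Z * ((g⁻¹).1 * g.1) * W * (g⁻¹).1 := by rw [alg_invv]
    _ = _ := by simp only [mul_assoc]

theorem algConj_inv_cancel (g : G) (Z : Mat) : algConj g (algConj g⁻¹ Z) = Z := by
  rw [← algConj_mul, mul_inv_cancel, algConj_one]

theorem algConj_inv_cancel' (g : G) (Z : Mat) : algConj g⁻¹ (algConj g Z) = Z := by
  rw [← algConj_mul, inv_mul_cancel, algConj_one]

theorem alg_conj_cont (g : G) : Continuous (fun h : G => g * h * g⁻¹) := by fun_prop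

theorem alg_conj_nhds (g : G) {U : Set G} (hU : U ∈ 𝓝 (1 : G)) :
    {h : G | g * h * g⁻¹ ∈ U} ∈ 𝓝 (1 : G) := by
  have h1 : Tendsto (fun h : G => g * h * g⁻¹) (𝓝 1) (𝓝 (g * 1 * g⁻¹)) :=
    (alg_conj_cont g).tendsto 1
  rw [mul_one, mul_inv_cancel] at h1
  exact h1 hU

/-- Conjugation stability. -/
theorem AlgGood.conj {L : Subgroup G} {A : G → ℝ → ℝ} {S : Submodule ℝ Mat}
    (H : AlgGood L A S) (g0 : G) :
    AlgGood (L.comap (MulAut.conj g0⁻¹).toMonoidHom) (fun h => A (g0⁻¹ * h * g0))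
      (S.comap (algConj g0⁻¹)) := by
  have hmem : ∀ h : G, h ∈ L.comap (MulAut.conj g0⁻¹).toMonoidHom ↔ g0⁻¹ * h * g0 ∈ L := by
    intro h
    rw [Subgroup.mem_comap]
    simp
  have hSmem : ∀ Z : Mat, Z ∈ S.comap (algConj g0⁻¹) ↔ algConj g0⁻¹ Z ∈ S := fun Z => Iff.rfl
  have hinvc : ∀ h : G, algConj g0⁻¹ (h.1 - 1) = (g0⁻¹ * h * g0).1 - 1 := by
    intro h
    rw [algConj_sub_one, inv_inv]
  refine ⟨?_, ?_, ?_, ?_, ?_, ?_, ?_, ?_, ?_⟩
  · intro h hh
    exact H.hA _ ((hmem h).1 hh)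
  · intro h hh h' hh' s
    have := H.hmul _ ((hmem h).1 hh) _ ((hmem h').1 hh') s
    show A (g0⁻¹ * (h * h') * g0) s = A (g0⁻¹ * h * g0) (A (g0⁻¹ * h' * g0) s)
    rw [← this]
    congr 1
    group
  · obtain ⟨U, hU, hU2⟩ := H.hi
    refine ⟨U, hU, ?_⟩
    intro h hh hfix g hg
    have h1 := hU2 _ ((hmem h).1 hh) hfix (g * g0) (by
      have : g * g0 * (g0⁻¹ * h * g0) * (g * g0)⁻¹ = g * h * g⁻¹ := by group
      rw [this]; exact hg)
    calc h = g0 * (g0⁻¹ * h * g0) * g0⁻¹ := by group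
      _ = 1 := by rw [h1]; group
  · obtain ⟨K, hK, hK2⟩ := H.hK
    refine ⟨(fun p => g0 * p) '' K, hK.image (by fun_prop), ?_⟩
    intro g
    obtain ⟨p, hp, hpg⟩ := hK2 (g * g0)
    refine ⟨g0 * p, ⟨p, hp, rfl⟩, ?_⟩
    rw [hmem]
    have : g0⁻¹ * (g0 * p * g) * g0 = p * (g * g0) := by group
    rw [this]; exact hpg
  · intro Z hZ W hW
    have h1 := H.comm _ ((hSmem Z).1 hZ) _ ((hSmem W).1 hW)
    rw [← algConj_prod, ← algConj_prod] at h1
    have h2 := congrArg (algConj g0) h1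
    rwa [algConj_inv_cancel, algConj_inv_cancel] at h2
  · intro h hh Z hZ
    have h1 := H.inv _ ((hmem h).1 hh) _ ((hSmem Z).1 hZ)
    rw [← algConj_apply] at h1
    rw [← algConj_apply, hSmem, ← algConj_mul]
    rw [← algConj_mul] at h1
    have : g0⁻¹ * h * g0 * g0⁻¹ = g0⁻¹ * h := by group
    rwa [this] at h1
  · intro Z hZ
    have h1 : ∀ Y ∈ Submodule.span ℝ {Z : Mat | Z ∈ S ∧ ∃ h ∈ L, Z = h.1 - 1},
        algConj g0 Y ∈ Submodule.span ℝ {Z : Mat | Z ∈ S.comap (algConj g0⁻¹) ∧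
          ∃ h ∈ L.comap (MulAut.conj g0⁻¹).toMonoidHom, Z = h.1 - 1} := by
      intro Y hY
      induction hY using Submodule.span_induction with
      | mem Y hY =>
        obtain ⟨hYS, h, hh, rfl⟩ := hY
        apply Submodule.subset_span
        refine ⟨?_, g0 * h * g0⁻¹, ?_, algConj_sub_one g0 h⟩
        · rw [hSmem, algConj_inv_cancel']; exact hYS
        · rw [hmem]
          have : g0⁻¹ * (g0 * h * g0⁻¹) * g0 = h := by group
          rw [this]; exact hh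
      | zero => rw [map_zero]; exact Submodule.zero_mem _
      | add x y _ _ hx hy => rw [map_add]; exact Submodule.add_mem _ hx hy
      | smul a x _ hx => rw [map_smul]; exact Submodule.smul_mem _ a hx
    have h2 := h1 _ (H.span ((hSmem Z).1 hZ))
    rwa [algConj_inv_cancel] at h2
  · obtain ⟨U, hU, hU2⟩ := H.small
    refine ⟨{h | g0⁻¹ * h * (g0⁻¹)⁻¹ ∈ U}, alg_conj_nhds g0⁻¹ hU, ?_⟩
    intro h hh hhU
    rw [hSmem, hinvc]
    refine hU2 _ ((hmem h).1 hh) ?_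
    have h3 : g0⁻¹ * h * (g0⁻¹)⁻¹ ∈ U := hhU
    rwa [inv_inv] at h3
  · obtain ⟨h, hh, hne, hS⟩ := H.ne
    refine ⟨g0 * h * g0⁻¹, ?_, ?_, ?_⟩
    · rw [hmem]
      have : g0⁻¹ * (g0 * h * g0⁻¹) * g0 = h := by group
      rw [this]; exact hh
    · intro h1
      apply hne
      calc h = g0⁻¹ * (g0 * h * g0⁻¹) * g0 := by group
        _ = 1 := by rw [h1]; group
    · rw [hSmem, hinvc]
      have : g0⁻¹ * (g0 * h * g0⁻¹) * g0 = h := by group
      rw [this]; exact hS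

end Pool.Agent.H88.LF
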