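import Pool.Agent.H88.LF.ALGA

/-!
# ALGB: a conjugate of the nilpotent elementary matrix lies in `S`; shape of `S`
-/

set_option autoImplicit false

open Set Filter
open scoped Topology

namespace Pool.Agent.H88.LF

/-- The elementary matrix. -/
def algE : Mat := !![0, 0, 1; 0, 0, 0; 0, 0, 0]

theorem AlgGood.seq {L : Subgroup G} {A : G → ℝ → ℝ} {S : Submodule ℝ Mat}
    (H : AlgGood L A S) (g : ℕ → G) :
    ∃ (p : G) (φ : ℕ → ℕ) (P : ℕ → G), StrictMono φ ∧ (∀ n, P n * g (φ n) ∈ L) ∧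
      Tendsto P atTop (𝓝 p) := by
  obtain ⟨K, hK, h⟩ := H.hK
  choose P0 hP0 hP1 using fun n => h (g n)
  obtain ⟨p, _, φ, hφ, ht⟩ := hK.tendsto_subseq hP0
  exact ⟨p, φ, P0 ∘ φ, hφ, fun n => hP1 (φ n), ht⟩

/-- limit of entries -/
theorem alg_entry_lim {P : ℕ → G} {p : G} (h : Tendsto P atTop (𝓝 p)) (i j : Fin 3) :
    Tendsto (fun n => (P n).1 i j) atTop (𝓝 (p.1 i j)) := by
  have h1 : Tendsto (fun n => (P n).1) atTop (𝓝 p.1) := (alg_cval.tendsto p).comp h
  have h2 : Continuous (fun M : Mat => M i j) := (continuous_apply j).comp (continuous_apply i)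
  exact (h2.tendsto p.1).comp h1

theorem alg_mul_apply (M N : Mat) (i j : Fin 3) :
    (M * N) i j = M i 0 * N 0 j + M i 1 * N 1 j + M i 2 * N 2 j := by
  rw [Matrix.mul_apply, Fin.sum_univ_three]

/-- A matrix all of whose conjugates have vanishing lower left entry is scalar. -/
theorem alg_scalar (Z : Mat)
    (H : ∀ g g' : Mat, g.det = 1 → g * g' = 1 → (g * Z * g') 2 0 = 0) :
    Z = Z 0 0 • (1 : Mat) := by
  have e1 := H 1 1 (by simp) (by simp)
  have h1 := H (!![0, 0, 1; 1, 0, 0; 0, 1, 0]) (!![0, 1, 0; 0, 0, 1; 1, 0, 0])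
    (by simp [Matrix.det_fin_three])
    (by ext i j; rw [alg_mul_apply]; fin_cases i <;> fin_cases j <;> simp)
  have h2 := H (!![0, 1, 0; 0, 0, 1; 1, 0, 0]) (!![0, 0, 1; 1, 0, 0; 0, 1, 0])
    (by simp [Matrix.det_fin_three])
    (by ext i j; rw [alg_mul_apply]; fin_cases i <;> fin_cases j <;> simp)
  have h3 := H (!![0, 0, 1; 0, -1, 0; 1, 0, 0]) (!![0, 0, 1; 0, -1, 0; 1, 0, 0])
    (by simp [Matrix.det_fin_three])
    (by ext i j; rw [alg_mul_apply]; fin_cases i <;> fin_cases j <;> simp)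
  have h4 := H (!![0, 1, 0; 1, 0, 0; 0, 0, -1]) (!![0, 1, 0; 1, 0, 0; 0, 0, -1])
    (by simp [Matrix.det_fin_three])
    (by ext i j; rw [alg_mul_apply]; fin_cases i <;> fin_cases j <;> simp)
  have h5 := H (!![-1, 0, 0; 0, 0, 1; 0, 1, 0]) (!![-1, 0, 0; 0, 0, 1; 0, 1, 0])
    (by simp [Matrix.det_fin_three])
    (by ext i j; rw [alg_mul_apply]; fin_cases i <;> fin_cases j <;> simp)
  have h6 := H (!![1, 0, 0; 0, 1, 0; 1, 0, 1]) (!![1, 0, 0; 0, 1, 0; -1, 0, 1])
    (by simp [Matrix.det_fin_three])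
    (by ext i j; rw [alg_mul_apply]; fin_cases i <;> fin_cases j <;> simp)
  have h7 := H (!![1, 0, 0; 0, 0, -1; 1, 1, 0]) (!![1, 0, 0; -1, 0, 1; 0, -1, 0])
    (by simp [Matrix.det_fin_three])
    (by ext i j; rw [alg_mul_apply]; fin_cases i <;> fin_cases j <;> simp)
  simp only [alg_mul_apply] at h1 h2 h3 h4 h5 h6 h7
  simp at e1 h1 h2 h3 h4 h5 h6 h7
  ext i j
  rw [Matrix.smul_apply, Matrix.one_apply, smul_eq_mul]
  fin_cases i <;> fin_cases j <;> simp <;> linarith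

theorem algE_sq : algE * algE = 0 := by
  ext i j; rw [alg_mul_apply]; fin_cases i <;> fin_cases j <;> simp [algE]

theorem algE_mid (Y : Mat) : algE * Y * algE = Y 2 0 • algE := by
  ext i j; simp only [alg_mul_apply]; fin_cases i <;> fin_cases j <;> simp [algE]

/-- `1 + t E` -/
def algU (t : ℝ) : G := ⟨1 + t • algE, by rw [Matrix.det_fin_three]; simp [algE]⟩

theorem algU_val (t : ℝ) : (algU t).1 = 1 + t • algE := rfl

theorem algU_inv (t : ℝ) : ((algU t)⁻¹).1 = 1 - t • algE := by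
  apply alg_inv_eq
  rw [algU_val, mul_sub, mul_one, add_mul, one_mul, Matrix.mul_smul, Matrix.smul_mul, algE_sq,
    smul_zero, smul_zero, add_zero, add_sub_cancel_right]

theorem algU_conj (t : ℝ) (Y : Mat) :
    algConj (algU t) Y = Y + t • (algE * Y - Y * algE) - t ^ 2 • (algE * Y * algE) := by
  rw [algConj_apply, algU_inv, algU_val, add_mul, one_mul, mul_sub, mul_one, add_mul, smul_sub]
  simp only [Matrix.smul_mul, Matrix.mul_smul, smul_smul, pow_two]
  abel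

theorem alg_F_cont (Y : Mat) : Continuous (fun z : G × ℝ =>
    algConj z.1 (z.2 ^ 2 • Y + z.2 • (algE * Y - Y * algE) - algE * Y * algE)) := by
  have c1 : Continuous (fun z : G × ℝ => z.1.1) := alg_cval.comp continuous_fst
  have c2 : Continuous (fun z : G × ℝ => (z.1⁻¹).1) :=
    alg_cval.comp (continuous_inv.comp continuous_fst)
  have c3 : Continuous (fun z : G × ℝ => (z.2 ^ 2 • Y + z.2 • (algE * Y - Y * algE)
    - algE * Y * algE)) := by fun_prop
  exact (c1.mul c3).mul c2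

theorem alg_not_scalar (h : G) (hne : h ≠ 1) :
    ∃ g g' : Mat, g.det = 1 ∧ g * g' = 1 ∧ (g * (h.1 - 1) * g') 2 0 ≠ 0 := by
  by_contra hcon
  push Not at hcon
  have hsc := alg_scalar (h.1 - 1) hcon
  set c : ℝ := (h.1 - 1) 0 0 with hc
  have hval : h.1 = (1 + c) • (1 : Mat) := by
    rw [add_smul, one_smul, ← hsc]; abel
  have hdet : h.1.det = 1 := h.2
  rw [hval, Matrix.det_smul, Matrix.det_one, mul_one, Fintype.card_fin] at hdet
  have h1 : 1 + c = 1 := by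
    have : (1 + c) ^ 3 = 1 ^ 3 := by rw [hdet]; norm_num
    exact (Odd.strictMono_pow (by decide : Odd 3)).injective this
  apply hne
  apply Subtype.ext
  rw [hval, h1, one_smul]
  rfl

/-- Step 4: a conjugate of `E` lies in `S`. -/
theorem AlgGood.nilp {L : Subgroup G} {A : G → ℝ → ℝ} {S : Submodule ℝ Mat}
    (H : AlgGood L A S) : ∃ q : G, algConj q algE ∈ S := by
  obtain ⟨h, hh, hne, hS⟩ := H.ne
  obtain ⟨g, g', hg, hgg, hne2⟩ := alg_not_scalar h hne
  generalize h.1 - 1 = Z at hS hne2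
  obtain ⟨γ, hγ⟩ : ∃ γ : G, γ.1 = g := ⟨⟨g, hg⟩, rfl⟩
  have hγi : (γ⁻¹).1 = g' := alg_inv_eq γ g' (by rw [hγ]; exact hgg)
  obtain ⟨Y, hY⟩ : ∃ Y : Mat, Y = g * Z * g' := ⟨_, rfl⟩
  rw [← hY] at hne2
  have hYc : algConj γ Z = Y := by rw [algConj_apply, hγi, hγ, hY]
  obtain ⟨p, φ, P, hφ, hP, hlim⟩ := H.seq (fun n => algU ((n : ℝ) + 1) * γ)
  have hxlim : Tendsto (fun n => 1 / ((φ n : ℝ) + 1)) atTop (𝓝 0) :=
    (tendsto_one_div_add_atTop_nhds_zero_nat).comp hφ.tendsto_atTop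
  have hlim2 := ((alg_F_cont Y).tendsto (p, 0)).comp (hlim.prodMk_nhds hxlim)
  have hmem : ∀ n, algConj (P n) ((1 / ((φ n : ℝ) + 1)) ^ 2 • Y + (1 / ((φ n : ℝ) + 1)) •
      (algE * Y - Y * algE) - algE * Y * algE) ∈ S := by
    intro n
    have h1 := H.inv _ (hP n) Z hS
    have ht0 : ((φ n : ℝ) + 1) ≠ 0 := by positivity
    generalize ((φ n : ℝ) + 1) = t at ht0 h1
    rw [← algConj_apply, ← mul_assoc, algConj_mul, hYc, algConj_mul, algU_conj] at h1
    have h2 : Y + t • (algE * Y - Y * algE) - t ^ 2 • (algE * Y * algE) =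
      t ^ 2 • ((1 / t) ^ 2 • Y + (1 / t) • (algE * Y - Y * algE) - algE * Y * algE) := by
      have e1 : t ^ 2 * (1 / t) ^ 2 = 1 := by field_simp
      have e2 : t ^ 2 * (1 / t) = t := by field_simp
      rw [smul_sub (t ^ 2), smul_add, smul_smul, smul_smul, e1, e2, one_smul]
    rw [h2, map_smul] at h1
    have h3 := S.smul_mem (t ^ 2)⁻¹ h1
    rwa [smul_smul, inv_mul_cancel₀ (pow_ne_zero 2 ht0), one_smul] at h3
  have hcl : IsClosed (S : Set Mat) := S.closed_of_finiteDimensional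
  have hfin : algConj p ((0 : ℝ) ^ 2 • Y + (0 : ℝ) • (algE * Y - Y * algE) - algE * Y * algE) ∈
      S := hcl.mem_of_tendsto hlim2 (Eventually.of_forall hmem)
  have h4 : (0 : ℝ) ^ 2 • Y + (0 : ℝ) • (algE * Y - Y * algE) - algE * Y * algE =
      (- Y 2 0) • algE := by
    rw [algE_mid, zero_smul, zero_pow (two_ne_zero), zero_smul, neg_smul, add_zero, zero_sub]
  rw [h4, map_smul] at hfin
  refine ⟨p, ?_⟩
  have h5 := S.smul_mem (- Y 2 0)⁻¹ hfin
  rwa [smul_smul, inv_mul_cancel₀ (neg_ne_zero.2 hne2), one_smul] at h5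

end Pool.Agent.H88.LF
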