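import Pool.Agent.H88.LF.ALGB

/-!
# ALGC: if `E ∈ S` then `S` consists of strictly upper triangular matrices with `p q = 0`
-/

set_option autoImplicit false

open Set Filter
open scoped Topology

namespace Pool.Agent.H88.LF

theorem AlgGood.shape {L : Subgroup G} {A : G → ℝ → ℝ} {S : Submodule ℝ Mat}
    (H : AlgGood L A S) (hE : algE ∈ S) {Z : Mat} (hZ : Z ∈ S) :
    Z 1 0 = 0 ∧ Z 2 0 = 0 ∧ Z 2 1 = 0 ∧ Z 2 2 = Z 0 0 := by
  have h := H.comm Z hZ algE hE
  have h1 := congrFun (congrFun h 1) 2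
  have h2 := congrFun (congrFun h 2) 2
  have h3 := congrFun (congrFun h 0) 1
  have h4 := congrFun (congrFun h 0) 2
  simp only [alg_mul_apply] at h1 h2 h3 h4
  simp [algE] at h1 h2 h3 h4
  exact ⟨h1, h2, h3.symm, h4.symm⟩

theorem alg_det_upper {Z : Mat} (h1 : Z 1 0 = 0) (h2 : Z 2 0 = 0) (h3 : Z 2 1 = 0) :
    Z.det = Z 0 0 * Z 1 1 * Z 2 2 := by
  rw [Matrix.det_fin_three, h1, h2, h3]; ring

theorem algConj_det (g : G) (Z : Mat) : (algConj g Z).det = Z.det := by
  have h1 : g.1.det = 1 := g.2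
  have h2 : (g⁻¹).1.det = 1 := (g⁻¹).2
  rw [algConj_apply, Matrix.det_mul, Matrix.det_mul, h1, h2]; ring

theorem algConj_trace (g : G) (Z : Mat) : (algConj g Z).trace = Z.trace := by
  rw [algConj_apply, Matrix.trace_mul_comm, ← mul_assoc, alg_invv, one_mul]

theorem algConj_id (g : G) : algConj g 1 = 1 := by
  rw [algConj_apply, mul_one, alg_vinv]

/-- The matrix `1 + t E10`. -/
def algV (t : ℝ) : G := ⟨!![1, 0, 0; t, 1, 0; 0, 0, 1], by rw [Matrix.det_fin_three]; simp⟩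

theorem algV_inv (t : ℝ) : ((algV t)⁻¹).1 = !![1, 0, 0; -t, 1, 0; 0, 0, 1] := by
  apply alg_inv_eq
  ext i j; rw [alg_mul_apply]; fin_cases i <;> fin_cases j <;> simp [algV]

theorem algV_conj (t : ℝ) (M : Mat) :
    algConj (algV t) M 1 0 = M 1 0 + t * M 0 0 - t * (M 1 1 + t * M 0 1) := by
  rw [algConj_apply, algV_inv]
  simp only [alg_mul_apply]
  simp [algV]
  ring

theorem algConj_lim {P : ℕ → G} {p : G} (h : Tendsto P atTop (𝓝 p)) (M : Mat) (i j : Fin 3) :
    Tendsto (fun n => algConj (P n) M i j) atTop (𝓝 (algConj p M i j)) := by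
  have c1 : Continuous (fun z : G => algConj z M) :=
    (alg_cval.mul continuous_const).mul (alg_cval.comp continuous_inv)
  have h2 : Continuous (fun M : Mat => M i j) := (continuous_apply j).comp (continuous_apply i)
  exact ((h2.comp c1).tendsto p).comp h

/-- eigenvalues are preserved -/
theorem AlgGood.eig {L : Subgroup G} {A : G → ℝ → ℝ} {S : Submodule ℝ Mat}
    (H : AlgGood L A S) (hE : algE ∈ S) {Z : Mat} (hZ : Z ∈ S) (hne : Z 1 1 ≠ Z 0 0)
    {k : G} (hk : k ∈ L) :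
    (algConj k Z) 0 0 = Z 0 0 ∧ (algConj k Z) 1 1 = Z 1 1 := by
  have hZ' : algConj k Z ∈ S := H.inv k hk Z hZ
  obtain ⟨a1, a2, a3, a4⟩ := H.shape hE hZ
  obtain ⟨b1, b2, b3, b4⟩ := H.shape hE hZ'
  have hdet : ∀ x : ℝ, (algConj k Z - x • 1).det = (Z - x • 1).det := by
    intro x
    rw [← algConj_det k (Z - x • 1), map_sub, map_smul, algConj_id]
  have htr := algConj_trace k Z
  rw [Matrix.trace_fin_three, Matrix.trace_fin_three] at htr
  have hdet' : ∀ x : ℝ, ((algConj k Z) 0 0 - x) * ((algConj k Z) 1 1 - x) *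
      ((algConj k Z) 2 2 - x) = (Z 0 0 - x) * (Z 1 1 - x) * (Z 2 2 - x) := by
    intro x
    have := hdet x
    rw [alg_det_upper, alg_det_upper] at this
    · simpa [Matrix.sub_apply, Matrix.smul_apply] using this
    all_goals simp [a1, a2, a3, b1, b2, b3]
  generalize algConj k Z 0 0 = c' at *
  generalize algConj k Z 1 1 = d' at *
  have e1 := hdet' (Z 0 0)
  have e2 := hdet' (Z 1 1)
  rw [b4, a4] at e1 e2 htr
  generalize Z 0 0 = c at *
  generalize Z 1 1 = d at *
  have e1' : (c' - c) * ((d' - c) * (c' - c)) = 0 := by linear_combination e1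
  have e2' : (c' - d) * ((d' - d) * (c' - d)) = 0 := by linear_combination e2
  by_cases hc : c' = c
  · refine ⟨hc, ?_⟩
    subst hc; linarith
  · exfalso
    have h1 : c' - c ≠ 0 := sub_ne_zero.2 hc
    have h2 : d' - c = 0 := by
      rcases mul_eq_zero.1 e1' with h | h
      · exact absurd h h1
      · rcases mul_eq_zero.1 h with h | h
        · exact h
        · exact absurd h h1
    have h3 : d' = c := by linarith
    subst h3
    have h4 : d' - d ≠ 0 := sub_ne_zero.2 (Ne.symm hne)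
    have h5 : c' - d = 0 := by
      rcases mul_eq_zero.1 e2' with h | h
      · exact h
      · rcases mul_eq_zero.1 h with h | h
        · exact absurd h h4
        · exact h
    apply hne
    linarith

/-- Step 5, first part. -/
theorem AlgGood.cd {L : Subgroup G} {A : G → ℝ → ℝ} {S : Submodule ℝ Mat}
    (H : AlgGood L A S) (hE : algE ∈ S) {Z : Mat} (hZ : Z ∈ S) : Z 1 1 = Z 0 0 := by
  by_contra hne
  obtain ⟨a1, a2, a3, a4⟩ := H.shape hE hZ
  set W : Mat := Z - Z 0 0 • 1 with hW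
  have hfix : ∀ k ∈ L, algConj k (W * W) = W * W := by
    intro k hk
    have hZ' : algConj k Z ∈ S := H.inv k hk Z hZ
    obtain ⟨b1, b2, b3, b4⟩ := H.shape hE hZ'
    obtain ⟨c1, c2⟩ := H.eig hE hZ hne hk
    have hc := H.comm Z hZ _ hZ'
    have hc01 := congrFun (congrFun hc 0) 1
    have hc12 := congrFun (congrFun hc 1) 2
    rw [alg_mul_apply, alg_mul_apply] at hc01 hc12
    rw [algConj_prod, hW, map_sub, map_smul, algConj_id]
    generalize algConj k Z = Z' at *
    rw [a3, b3, c1, c2] at hc01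
    rw [a1, b1, c2, b4, c1, a4] at hc12
    have p1 : Z' 0 1 = Z 0 1 := by
      have : (Z 0 0 - Z 1 1) * (Z' 0 1 - Z 0 1) = 0 := by linear_combination hc01
      rcases mul_eq_zero.1 this with h | h
      · exact absurd (by linarith) hne
      · linarith
    have p2 : Z' 1 2 = Z 1 2 := by
      have : (Z 1 1 - Z 0 0) * (Z' 1 2 - Z 1 2) = 0 := by linear_combination hc12
      rcases mul_eq_zero.1 this with h | h
      · exact absurd (by linarith) hne
      · linarith
    ext i j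
    rw [alg_mul_apply, alg_mul_apply]
    fin_cases i <;> fin_cases j <;>
      simp [a1, a2, a3, a4, b1, b2, b3, b4, c1, c2, p1, p2]
  obtain ⟨σ, hσ1, hσ2⟩ : ∃ σ : ℝ, σ ^ 2 = 1 ∧ 0 ≤ σ * (Z 0 1 * (Z 1 1 - Z 0 0)) := by
    rcases le_total 0 (Z 0 1 * (Z 1 1 - Z 0 0)) with h | h
    · exact ⟨1, by norm_num, by linarith⟩
    · exact ⟨-1, by norm_num, by linarith⟩
  obtain ⟨p, φ, P, hφ, hP, hlim⟩ := H.seq (fun n => algV (σ * ((n : ℝ) + 1)))
  have hconj : ∀ n, algConj (P n)⁻¹ (W * W) 1 0 =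
      algConj (algV (σ * ((φ n : ℝ) + 1))) (W * W) 1 0 := by
    intro n
    have h1 := hfix _ (hP n)
    rw [algConj_mul] at h1
    rw [← h1, algConj_inv_cancel', h1]
  have hlim2 := algConj_lim (hlim.inv) (W * W) 1 0
  have hlim3 := hlim2.pow 2
  have hδ : 0 < (Z 1 1 - Z 0 0) ^ 2 := by
    have : Z 1 1 - Z 0 0 ≠ 0 := sub_ne_zero.2 hne
    positivity
  have hW00 : (W * W) 0 0 = 0 := by rw [alg_mul_apply]; simp [hW, a1, a2]
  have hW10 : (W * W) 1 0 = 0 := by rw [alg_mul_apply]; simp [hW, a1, a2]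
  have hW11 : (W * W) 1 1 = (Z 1 1 - Z 0 0) ^ 2 := by
    rw [alg_mul_apply]; simp [hW, a1, a3]; ring
  have hW01 : (W * W) 0 1 = Z 0 1 * (Z 1 1 - Z 0 0) := by
    rw [alg_mul_apply]; simp [hW, a3]
  refine not_tendsto_nhds_of_tendsto_atTop ?_ _ hlim3
  have hmono : ∀ n, ((φ n : ℝ) + 1) * ((Z 1 1 - Z 0 0) ^ 2) ^ 2 ≤
      (algConj (P⁻¹ n) (W * W) 1 0) ^ 2 := by
    intro n
    rw [Pi.inv_apply, hconj n, algV_conj, hW00, hW10, hW11, hW01]
    have ht : 1 ≤ (φ n : ℝ) + 1 := by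
      have : (0 : ℝ) ≤ φ n := Nat.cast_nonneg _
      linarith
    generalize (φ n : ℝ) + 1 = t at ht
    generalize (Z 1 1 - Z 0 0) ^ 2 = D at hδ
    generalize Z 0 1 * (Z 1 1 - Z 0 0) = B at hσ2
    have e : (0 + σ * t * 0 - σ * t * (D + σ * t * B)) ^ 2 =
        t ^ 2 * (D + t * (σ * B)) ^ 2 := by
      linear_combination (t ^ 2 * (D + t * (σ * B)) ^ 2) * hσ1
    rw [e]
    have h1 : D ≤ D + t * (σ * B) := by
      have : 0 ≤ t * (σ * B) := mul_nonneg (by linarith) hσ2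
      linarith
    have h2 : D ^ 2 ≤ (D + t * (σ * B)) ^ 2 := pow_le_pow_left₀ hδ.le h1 2
    have h3 : t ≤ t ^ 2 := by nlinarith
    exact mul_le_mul h3 h2 (by positivity) (by positivity)
  refine tendsto_atTop_mono hmono ?_
  have h4 : Tendsto (fun n => ((φ n : ℝ) + 1)) atTop atTop :=
    tendsto_atTop_add_const_right _ _ (tendsto_natCast_atTop_atTop.comp hφ.tendsto_atTop)
  exact h4.atTop_mul_const (by positivity)

/-- Step 5: `S` is strictly upper triangular. -/
theorem AlgGood.strict {L : Subgroup G} {A : G → ℝ → ℝ} {S : Submodule ℝ Mat}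
    (H : AlgGood L A S) (hE : algE ∈ S) {Z : Mat} (hZ : Z ∈ S) :
    Z 0 0 = 0 ∧ Z 1 1 = 0 ∧ Z 2 2 = 0 := by
  have h1 : ∀ Z ∈ Submodule.span ℝ {Z : Mat | Z ∈ S ∧ ∃ h ∈ L, Z = h.1 - 1}, Z 0 0 = 0 := by
    intro Y hY
    induction hY using Submodule.span_induction with
    | mem Y hY =>
      obtain ⟨hYS, h, hh, he⟩ := hY
      obtain ⟨a1, a2, a3, a4⟩ := H.shape hE hYS
      have a5 := H.cd hE hYS
      have hdet : (Y + 1).det = 1 := by
        rw [he, sub_add_cancel]; exact h.2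
      rw [alg_det_upper] at hdet
      · simp [a4, a5] at hdet
        have h3 : Y 0 0 + 1 = 1 := by
          have : (Y 0 0 + 1) ^ 3 = 1 ^ 3 := by linear_combination hdet
          exact (Odd.strictMono_pow (by decide : Odd 3)).injective this
        linarith
      all_goals simp [a1, a2, a3]
    | zero => rfl
    | add x y _ _ hx hy => rw [Matrix.add_apply, hx, hy, add_zero]
    | smul a x _ hx => rw [Matrix.smul_apply, hx, smul_zero]
  have h2 := h1 Z (H.span hZ)
  obtain ⟨a1, a2, a3, a4⟩ := H.shape hE hZ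
  exact ⟨h2, by rw [H.cd hE hZ, h2], by rw [a4, h2]⟩

end Pool.Agent.H88.LF
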