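import Pool.Agent.H88.LF.ALGC

/-!
# ALGD: steps 6 and 7
-/

set_option autoImplicit false

open Set Filter
open scoped Topology

namespace Pool.Agent.H88.LF

theorem algConj_mul_right (h : G) (Z : Mat) : algConj h Z * h.1 = h.1 * Z := by
  rw [algConj_apply, mul_assoc, alg_invv, mul_one]

theorem algD_val (v : ℝ × ℝ) (i j : Fin 3) :
    (D v).1 i j = if i = j then Real.exp (cmp v i) else 0 := by
  show Matrix.diagonal _ i j = _
  rw [Matrix.diagonal_apply]

theorem algD_inv (v : ℝ × ℝ) (i j : Fin 3) :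
    ((D v)⁻¹).1 i j = if i = j then Real.exp (- cmp v i) else 0 := by
  have h : ((D v)⁻¹).1 = Matrix.diagonal (fun i => Real.exp (- cmp v i)) := by
    apply alg_inv_eq
    show Matrix.diagonal _ * _ = _
    rw [Matrix.diagonal_mul_diagonal, ← Matrix.diagonal_one]
    congr 1
    funext i
    rw [← Real.exp_add, add_neg_cancel, Real.exp_zero]
  rw [h, Matrix.diagonal_apply]

/-- Step 6. -/
theorem AlgGood.pq {L : Subgroup G} {A : G → ℝ → ℝ} {S : Submodule ℝ Mat}
    (H : AlgGood L A S) (hE : algE ∈ S) {Z : Mat} (hZ : Z ∈ S) : Z 0 1 * Z 1 2 = 0 := by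
  by_contra hpq
  obtain ⟨a1, a2, a3, _⟩ := H.shape hE hZ
  obtain ⟨a4, a5, a6⟩ := H.strict hE hZ
  have hone : ∀ h ∈ L, h.1 1 1 = 1 ∧ h.1 1 0 = 0 := by
    intro h hh
    have hZ' : algConj h Z ∈ S := H.inv h hh Z hZ
    obtain ⟨b1, b2, b3, _⟩ := H.shape hE hZ'
    obtain ⟨b4, b5, b6⟩ := H.strict hE hZ'
    have hc := congrFun (congrFun (H.comm Z hZ _ hZ') 0) 2
    have hm := algConj_mul_right h Z
    have hm2 : algConj h Z * algConj h Z * h.1 = h.1 * (Z * Z) := by
      rw [mul_assoc, hm, ← mul_assoc, hm, mul_assoc]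
    have hdet : h.1.det = 1 := h.2
    rw [Matrix.det_fin_three] at hdet
    have m01 := congrFun (congrFun hm 0) 1
    have m12 := congrFun (congrFun hm 1) 2
    have n12 := congrFun (congrFun hm2 1) 2
    have n22 := congrFun (congrFun hm2 2) 2
    have n01 := congrFun (congrFun hm2 0) 1
    have n02 := congrFun (congrFun hm2 0) 2
    simp only [alg_mul_apply] at hc m01 m12 n12 n22 n01 n02
    generalize algConj h Z = Z' at *
    rw [a1, a2, a3, a4, a5, a6, b1, b2, b3, b4, b5, b6] at *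
    simp only [zero_mul, mul_zero, add_zero, zero_add] at hc m01 m12 n12 n22 n01 n02
    have e10 : h.1 1 0 = 0 := by
      rcases mul_eq_zero.1 n12.symm with h | h
      · exact h
      · exact absurd h hpq
    have e20 : h.1 2 0 = 0 := by
      rcases mul_eq_zero.1 n22.symm with h | h
      · exact h
      · exact absurd h hpq
    rw [e10, e20] at hdet
    have hne : h.1 0 0 ≠ 0 := by
      intro h0; rw [h0] at hdet; simp at hdet
    have e21 : h.1 2 1 = 0 := by
      rcases mul_eq_zero.1 n01 with h' | h'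
      · exfalso
        rw [h', zero_mul] at n02
        rcases mul_eq_zero.1 n02.symm with h'' | h''
        · exact hne h''
        · exact hpq h''
      · exact h'
    rw [e21] at hdet m01
    rw [e10] at m12
    simp only [zero_mul, mul_zero, add_zero, zero_add, sub_zero] at hdet m01 m12
    refine ⟨?_, e10⟩
    have h1 : Z 0 1 * Z 1 2 * (h.1 1 1 * h.1 1 1 - h.1 0 0 * h.1 2 2) = 0 := by
      have x1 : (h.1 1 1 * h.1 2 2) * (Z 0 1 * Z' 1 2) =
        (h.1 1 1 * h.1 2 2) * (Z' 0 1 * Z 1 2) := by rw [hc]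
      linear_combination x1 - h.1 1 1 * Z 0 1 * m12 + h.1 2 2 * Z 1 2 * m01
    have h2 : h.1 1 1 * h.1 1 1 = h.1 0 0 * h.1 2 2 := by
      rcases mul_eq_zero.1 h1 with h | h
      · exact absurd h hpq
      · linarith
    have h3 : (h.1 1 1) ^ 3 = 1 ^ 3 := by
      linear_combination (h.1 1 1) * h2 + hdet
    exact (Odd.strictMono_pow (by decide : Odd 3)).injective h3
  obtain ⟨p, φ, P, hφ, hP, hlim⟩ := H.seq (fun n => D ((n : ℝ), - (n : ℝ)))
  have hent := alg_entry_lim hlim 1 1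
  refine not_tendsto_nhds_of_tendsto_atTop ?_ _ hent
  have hval : ∀ n, Real.exp (φ n) = (P n).1 1 1 := by
    intro n
    obtain ⟨h1, _⟩ := hone _ (hP n)
    rw [alg_mulv, alg_mul_apply, algD_val, algD_val, algD_val] at h1
    simp [cmp] at h1
    rw [Real.exp_neg] at h1
    have := Real.exp_pos (φ n : ℝ)
    field_simp at h1
    exact h1.symm
  refine Tendsto.congr hval ?_
  exact Real.tendsto_exp_atTop.comp (tendsto_natCast_atTop_atTop.comp hφ.tendsto_atTop)

/-- unipotent upper triangular -/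
def AlgUni (h : G) : Prop :=
  h.1 1 0 = 0 ∧ h.1 2 0 = 0 ∧ h.1 2 1 = 0 ∧ h.1 0 0 = 1 ∧ h.1 1 1 = 1 ∧ h.1 2 2 = 1

theorem alg_tendsto_one {ψ : ℕ → G}
    (h : ∀ i j, Tendsto (fun n => (ψ n).1 i j) atTop (𝓝 ((1 : Mat) i j))) :
    Tendsto ψ atTop (𝓝 1) := by
  rw [closedEmb_val.isInducing.tendsto_nhds_iff]
  refine tendsto_pi_nhds.2 fun i => tendsto_pi_nhds.2 fun j => ?_
  have := h i j
  rwa [← alg_onev] at this

theorem algUni_contract {h : G} (hu : AlgUni h) :
    Tendsto (fun n : ℕ => D (-(n : ℝ), 0) * h * (D (-(n : ℝ), 0))⁻¹) atTop (𝓝 1) := by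
  obtain ⟨u1, u2, u3, u4, u5, u6⟩ := hu
  have hexp : Tendsto (fun n : ℕ => Real.exp (-(n : ℝ))) atTop (𝓝 0) :=
    Real.tendsto_exp_neg_atTop_nhds_zero.comp tendsto_natCast_atTop_atTop
  apply alg_tendsto_one
  intro i j
  have hval : ∀ n : ℕ, (D (-(n : ℝ), 0) * h * (D (-(n : ℝ), 0))⁻¹).1 i j =
      Real.exp (cmp (-(n : ℝ), 0) i) * h.1 i j * Real.exp (- cmp (-(n : ℝ), 0) j) := by
    intro n
    rw [alg_mulv, alg_mulv]
    simp only [alg_mul_apply, algD_val, algD_inv]
    fin_cases i <;> fin_cases j <;> simp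
  simp only [hval]
  have t0 : Tendsto (fun n : ℕ => (0 : ℝ)) atTop (𝓝 0) := tendsto_const_nhds
  fin_cases i <;> fin_cases j
  · simp [cmp, u4, Real.exp_neg]
  · have h1 := (hexp.mul_const (h.1 0 1)).mul_const (Real.exp 0)
    simpa [cmp] using h1
  · have h1 := (hexp.mul_const (h.1 0 2)).mul hexp
    simpa [cmp] using h1
  · simp [cmp, u1]
  · simp [cmp, u5]
  · have h1 := hexp.const_mul (h.1 1 2)
    simpa [cmp] using h1
  · simp [cmp, u2]
  · simp [cmp, u3]
  · simp [cmp, u6, Real.exp_neg]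

theorem AlgUni.mul {g h : G} (hg : AlgUni g) (hh : AlgUni h) : AlgUni (g * h) := by
  obtain ⟨u1, u2, u3, u4, u5, u6⟩ := hg
  obtain ⟨v1, v2, v3, v4, v5, v6⟩ := hh
  unfold AlgUni
  rw [alg_mulv]
  simp only [alg_mul_apply, u1, u2, u3, u4, u5, u6, v1, v2, v3, v4, v5, v6]
  norm_num

/-- The cofactor description of the inverse. -/
theorem alg_inv_entries (h : G) : (h⁻¹).1 = Matrix.adjugate h.1 := rfl

theorem AlgUni.inv {h : G} (hh : AlgUni h) : AlgUni h⁻¹ := by
  obtain ⟨v1, v2, v3, v4, v5, v6⟩ := hh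
  have e := alg_invv h
  have e00 := congrFun (congrFun e 0) 0
  have e10 := congrFun (congrFun e 1) 0
  have e20 := congrFun (congrFun e 2) 0
  have e01 := congrFun (congrFun e 0) 1
  have e11 := congrFun (congrFun e 1) 1
  have e21 := congrFun (congrFun e 2) 1
  have e22 := congrFun (congrFun e 2) 2
  simp only [alg_mul_apply, v1, v2, v3, v4, v5, v6] at e00 e10 e20 e01 e11 e21 e22
  simp at e00 e10 e20 e01 e11 e21 e22
  refine ⟨e10, e20, ?_, e00, ?_, ?_⟩
  · rw [e20] at e21; simpa using e21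
  · rw [e10] at e11; simpa using e11
  · rw [e20] at e21 e22
    simp at e21
    rw [e21] at e22; simpa using e22

end Pool.Agent.H88.LF
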