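import Pool.Agent.H88.LF.ALGD

/-!
# ALGE: step 7
-/

set_option autoImplicit false
set_option linter.unusedSimpArgs false

open Set Filter
open scoped Topology

namespace Pool.Agent.H88.LF

variable {L : Subgroup G} {A : G → ℝ → ℝ} {S : Submodule ℝ Mat}

theorem AlgGood.A_one (H : AlgGood L A S) (s : ℝ) : A 1 s = s := by
  obtain ⟨a, b, ha, hab⟩ := H.hA 1 L.one_mem
  have h1 := H.hmul 1 L.one_mem 1 L.one_mem s
  rw [one_mul, hab (A 1 s)] at h1
  have h2 := hab s
  have h3 : a * (A 1 s - s) = 0 := by linarith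
  rcases mul_eq_zero.1 h3 with h | h
  · exact absurd h ha
  · linarith

/-- unipotent elements act by translations -/
theorem AlgGood.uni_one (H : AlgGood L A S) {h : G} (hh : h ∈ L) (hu : AlgUni h)
    (hfix : ∃ s, A h s = s) : h = 1 := by
  obtain ⟨U, hU, hU2⟩ := H.hi
  have h1 := (algUni_contract hu).eventually hU
  obtain ⟨n, hn⟩ := h1.exists
  exact hU2 h hh hfix _ hn

theorem AlgGood.uni_trans (H : AlgGood L A S) {h : G} (hh : h ∈ L) (hu : AlgUni h) :
    ∃ τ : ℝ, ∀ s, A h s = s + τ := by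
  by_cases hfix : ∃ s, A h s = s
  · have := H.uni_one hh hu hfix
    subst this
    exact ⟨0, fun s => by rw [H.A_one, add_zero]⟩
  · obtain ⟨a, b, ha, hab⟩ := H.hA h hh
    by_cases ha1 : a = 1
    · exact ⟨b, fun s => by rw [hab, ha1, one_mul]⟩
    · exfalso
      apply hfix
      refine ⟨b / (1 - a), ?_⟩
      have : 1 - a ≠ 0 := sub_ne_zero.2 (Ne.symm ha1)
      rw [hab]
      field_simp
      ring

theorem AlgGood.A_inv (H : AlgGood L A S) {h : G} (hh : h ∈ L) (s : ℝ) :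
    A h (A h⁻¹ s) = s := by
  rw [← H.hmul h hh _ (L.inv_mem hh), mul_inv_cancel, H.A_one]

theorem AlgGood.A_inv' (H : AlgGood L A S) {h : G} (hh : h ∈ L) (s : ℝ) :
    A h⁻¹ (A h s) = s := by
  rw [← H.hmul _ (L.inv_mem hh) _ hh, inv_mul_cancel, H.A_one]

/-- the linear part of an inverse -/
theorem AlgGood.inv_lin (H : AlgGood L A S) {h : G} (hh : h ∈ L) {a b : ℝ} (ha : a ≠ 0)
    (hab : ∀ s, A h s = a * s + b) (s : ℝ) : A h⁻¹ s = a⁻¹ * s - a⁻¹ * b := by
  have h1 := H.A_inv hh s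
  rw [hab] at h1
  field_simp
  linarith

theorem AlgGood.comm_trans (H : AlgGood L A S) {x y : G} (hx : x ∈ L) (hy : y ∈ L) :
    ∃ t : ℝ, ∀ s, A (x * y * x⁻¹ * y⁻¹) s = s + t := by
  obtain ⟨a, b, ha, hab⟩ := H.hA x hx
  obtain ⟨c, d, hc, hcd⟩ := H.hA y hy
  have hx' := L.inv_mem hx
  have hy' := L.inv_mem hy
  refine ⟨b + a * d - c * b - d, fun s => ?_⟩
  rw [H.hmul _ (L.mul_mem (L.mul_mem hx hy) hx') _ hy', H.hmul _ (L.mul_mem hx hy) _ hx',
    H.hmul _ hx _ hy, H.inv_lin hy hc hcd, H.inv_lin hx ha hab, hcd, hab]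
  field_simp
  ring

/-- elements with `h - 1 ∈ S` are unipotent -/
theorem AlgGood.uni_of_S (H : AlgGood L A S) (hE : algE ∈ S) {h : G} (hS : h.1 - 1 ∈ S) :
    AlgUni h := by
  obtain ⟨a1, a2, a3, _⟩ := H.shape hE hS
  obtain ⟨a4, a5, a6⟩ := H.strict hE hS
  simp [Matrix.sub_apply] at a1 a2 a3 a4 a5 a6
  exact ⟨a1, a2, a3, by linarith, by linarith, by linarith⟩

/-- commutators of `L` centralise the elements with `h - 1 ∈ S` -/
theorem AlgGood.comm_S (H : AlgGood L A S) (hE : algE ∈ S) {x y : G} (hx : x ∈ L) (hy : y ∈ L)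
    {h : G} (hh : h ∈ L) (hS : h.1 - 1 ∈ S) :
    (x * y * x⁻¹ * y⁻¹) * h * (x * y * x⁻¹ * y⁻¹)⁻¹ = h := by
  obtain ⟨t, ht⟩ := H.comm_trans hx hy
  have hk : x * y * x⁻¹ * y⁻¹ ∈ L :=
    L.mul_mem (L.mul_mem (L.mul_mem hx hy) (L.inv_mem hx)) (L.inv_mem hy)
  generalize x * y * x⁻¹ * y⁻¹ = k at *
  have hu := H.uni_of_S hE hS
  obtain ⟨τ, hτ⟩ := H.uni_trans hh hu
  have hk' := L.inv_mem hk
  have hS' : (k * h * k⁻¹).1 - 1 ∈ S := by
    rw [← algConj_sub_one]
    exact H.inv k hk _ hS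
  have hu' := H.uni_of_S hE hS'
  have h1 : h⁻¹ * (k * h * k⁻¹) = 1 := by
    refine H.uni_one (L.mul_mem (L.inv_mem hh) (L.mul_mem (L.mul_mem hk hh) hk'))
      (hu.inv.mul hu') ⟨0, ?_⟩
    have hkinv : ∀ s, A k⁻¹ s = s - t := by
      intro s
      have := H.inv_lin hk one_ne_zero (b := t) (by intro s; rw [ht, one_mul]) s
      rw [this]; ring
    have hhinv : ∀ s, A h⁻¹ s = s - τ := by
      intro s
      have := H.inv_lin hh one_ne_zero (b := τ) (by intro s; rw [hτ, one_mul]) s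
      rw [this]; ring
    rw [H.hmul _ (L.inv_mem hh) _ (L.mul_mem (L.mul_mem hk hh) hk'),
      H.hmul _ (L.mul_mem hk hh) _ hk', H.hmul _ hk _ hh, hkinv, hτ, ht, hhinv]
    ring
  calc k * h * k⁻¹ = h * (h⁻¹ * (k * h * k⁻¹)) := by group
    _ = h := by rw [h1, mul_one]

/-- commutators of `L` centralise `S` -/
theorem AlgGood.comm_S' (H : AlgGood L A S) (hE : algE ∈ S) {x y : G} (hx : x ∈ L) (hy : y ∈ L)
    {Z : Mat} (hZ : Z ∈ S) : algConj (x * y * x⁻¹ * y⁻¹) Z = Z := by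
  have h1 : ∀ Z ∈ Submodule.span ℝ {Z : Mat | Z ∈ S ∧ ∃ h ∈ L, Z = h.1 - 1},
      algConj (x * y * x⁻¹ * y⁻¹) Z = Z := by
    intro Y hY
    induction hY using Submodule.span_induction with
    | mem Y hY =>
      obtain ⟨hYS, h, hh, rfl⟩ := hY
      rw [algConj_sub_one, H.comm_S hE hx hy hh hYS]
    | zero => exact map_zero _
    | add x y _ _ hx hy => rw [map_add, hx, hy]
    | smul a x _ hx => rw [map_smul, hx]
  exact h1 Z (H.span hZ)

/-- a unipotent upper triangular element of `L` is in `1 + S` -/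
theorem AlgGood.uni_S (H : AlgGood L A S) {h : G} (hh : h ∈ L) (hu : AlgUni h) :
    h.1 - 1 ∈ S := by
  obtain ⟨p, φ, P, hφ, hP, hlim⟩ := H.seq (fun n => D (-(n : ℝ), 0))
  obtain ⟨U, hU, hU2⟩ := H.small
  have h1 : Tendsto (fun n => P n * (D (-(φ n : ℝ), 0) * h * (D (-(φ n : ℝ), 0))⁻¹) * (P n)⁻¹)
      atTop (𝓝 (p * 1 * p⁻¹)) :=
    (hlim.mul ((algUni_contract hu).comp hφ.tendsto_atTop)).mul hlim.inv
  rw [mul_one, mul_inv_cancel] at h1
  obtain ⟨n, hn⟩ := (h1.eventually hU).exists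
  have hk := hP n
  set k : G := P n * D (-(φ n : ℝ), 0) with hkdef
  have h2 : P n * (D (-(φ n : ℝ), 0) * h * (D (-(φ n : ℝ), 0))⁻¹) * (P n)⁻¹ = k * h * k⁻¹ := by
    rw [hkdef]; group
  rw [h2] at hn
  have h3 := hU2 _ (L.mul_mem (L.mul_mem hk hh) (L.inv_mem hk)) hn
  rw [← algConj_sub_one] at h3
  have h4 := H.inv k⁻¹ (L.inv_mem hk) _ h3
  rw [← algConj_apply, algConj_inv_cancel'] at h4
  exact h4

/-- case distinction -/
theorem AlgGood.cases (H : AlgGood L A S) (hE : algE ∈ S) :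
    (∀ Z ∈ S, Z 0 1 = 0) ∨ (∀ Z ∈ S, Z 1 2 = 0) := by
  by_contra hcon
  push Not at hcon
  obtain ⟨⟨Z, hZ, hZ1⟩, ⟨W, hW, hW1⟩⟩ := hcon
  have h1 := H.pq hE hZ
  have h2 := H.pq hE hW
  have h3 := H.pq hE (S.add_mem hZ hW)
  have h4 : Z 1 2 = 0 := by
    rcases mul_eq_zero.1 h1 with h | h
    · exact absurd h hZ1
    · exact h
  have h5 : W 0 1 = 0 := by
    rcases mul_eq_zero.1 h2 with h | h
    · exact h
    · exact absurd h hW1
  rw [Matrix.add_apply, Matrix.add_apply, h4, h5, add_zero, zero_add] at h3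
  rcases mul_eq_zero.1 h3 with h | h
  · exact hZ1 h
  · exact hW1 h

/-- first case: the plane `⟨e1,e2⟩` -/
theorem AlgGood.caseB (H : AlgGood L A S) (hE : algE ∈ S) (h0 : ∀ Z ∈ S, Z 0 1 = 0) :
    (∀ h ∈ L, h.1 2 0 = 0 ∧ h.1 2 1 = 0) ∧ ∀ x ∈ L, ∀ y ∈ L,
      (x * y * x⁻¹ * y⁻¹).1 0 0 = 1 ∧ (x * y * x⁻¹ * y⁻¹).1 0 1 = 0 ∧
      (x * y * x⁻¹ * y⁻¹).1 1 0 = 0 ∧ (x * y * x⁻¹ * y⁻¹).1 1 1 = 1 := by
  by_cases hq : ∃ Z ∈ S, Z 1 2 ≠ 0
  · obtain ⟨Z, hZ, hZq⟩ := hq
    obtain ⟨a1, a2, a3, _⟩ := H.shape hE hZ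
    obtain ⟨a4, a5, a6⟩ := H.strict hE hZ
    have a7 := h0 Z hZ
    constructor
    · intro h hh
      have hE' : algConj h algE ∈ S := H.inv h hh _ hE
      have hZ' : algConj h Z ∈ S := H.inv h hh _ hZ
      obtain ⟨b1, b2, b3, _⟩ := H.shape hE hE'
      obtain ⟨b4, b5, b6⟩ := H.strict hE hE'
      obtain ⟨c1, c2, c3, _⟩ := H.shape hE hZ'
      obtain ⟨c4, c5, c6⟩ := H.strict hE hZ'
      have e := congrFun (congrFun (algConj_mul_right h algE) 2) 2
      have f := congrFun (congrFun (algConj_mul_right h Z) 2) 2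
      rw [alg_mul_apply, alg_mul_apply, b2, b3, b6] at e
      rw [alg_mul_apply, alg_mul_apply, c2, c3, c6, a6] at f
      simp [algE] at e
      rw [← e] at f
      simp at f
      refine ⟨e.symm, ?_⟩
      rcases f with h | h
      · exact h
      · exact absurd h hZq
    · intro x hx y hy
      have c1 := H.comm_S' hE hx hy hE
      have c2 := H.comm_S' hE hx hy hZ
      generalize x * y * x⁻¹ * y⁻¹ = k at *
      have e1 := algConj_mul_right k algE
      have e2 := algConj_mul_right k Z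
      rw [c1] at e1
      rw [c2] at e2
      have hdet : k.1.det = 1 := k.2
      rw [Matrix.det_fin_three] at hdet
      have i12 := congrFun (congrFun e1 1) 2
      have i22 := congrFun (congrFun e1 2) 2
      have i01 := congrFun (congrFun e1 0) 1
      have i02 := congrFun (congrFun e1 0) 2
      have j02 := congrFun (congrFun e2 0) 2
      have j12 := congrFun (congrFun e2 1) 2
      simp only [alg_mul_apply, a1, a2, a3, a4, a5, a6, a7] at i12 i22 i01 i02 j02 j12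
      simp [algE] at i12 i22 i01 i02 j02 j12
      rw [← i12, ← i22] at hdet
      rw [i01] at hdet
      rw [← i12] at j12
      have k11 : k.1 1 1 = k.1 2 2 := by
        have h1 : Z 1 2 * (k.1 1 1 - k.1 2 2) = 0 := by linear_combination -j12
        rcases mul_eq_zero.1 h1 with h | h
        · exact absurd h hZq
        · linarith
      rw [k11, ← i02] at hdet
      have k22 : k.1 2 2 = 1 := by
        have : (k.1 2 2) ^ 3 = 1 ^ 3 := by linear_combination hdet
        exact (Odd.strictMono_pow (by decide : Odd 3)).injective this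
      have k01 : k.1 0 1 = 0 := by
        have h1 : Z 1 2 * k.1 0 1 = 0 := by
          rw [← i02] at j02
          linear_combination -j02
        rcases mul_eq_zero.1 h1 with h | h
        · exact absurd h hZq
        · exact h
      exact ⟨by rw [← i02, k22], k01, i12.symm, by rw [k11, k22]⟩
  · push Not at hq
    have hup : ∀ h ∈ L, h.1 1 0 = 0 ∧ h.1 2 0 = 0 ∧ h.1 2 1 = 0 := by
      intro h hh
      have hE' : algConj h algE ∈ S := H.inv h hh _ hE
      obtain ⟨b1, b2, b3, _⟩ := H.shape hE hE'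
      obtain ⟨b4, b5, b6⟩ := H.strict hE hE'
      have b7 := h0 _ hE'
      have b8 := hq _ hE'
      have e := algConj_mul_right h algE
      have e02 := congrFun (congrFun e 0) 2
      have e12 := congrFun (congrFun e 1) 2
      have e22 := congrFun (congrFun e 2) 2
      have e01 := congrFun (congrFun e 0) 1
      simp only [alg_mul_apply] at e02 e12 e22 e01
      rw [b4, b7] at e02 e01
      rw [b1, b5, b8] at e12
      rw [b2, b3, b6] at e22
      simp [algE] at e02 e12 e22 e01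
      have hdet : h.1.det = 1 := h.2
      rw [Matrix.det_fin_three, ← e12, ← e22] at hdet
      refine ⟨e12.symm, e22.symm, ?_⟩
      rcases e01 with h' | h'
      · exfalso
        rw [h', zero_mul] at e02
        rw [← e02] at hdet
        simp at hdet
      · exact h'
    refine ⟨fun h hh => ⟨(hup h hh).2.1, (hup h hh).2.2⟩, ?_⟩
    intro x hx y hy
    have hx' := L.inv_mem hx
    have hy' := L.inv_mem hy
    have hk : x * y * x⁻¹ * y⁻¹ ∈ L := L.mul_mem (L.mul_mem (L.mul_mem hx hy) hx') hy'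
    have hu : AlgUni (x * y * x⁻¹ * y⁻¹) := by
      obtain ⟨k1, k2, k3⟩ := hup _ hk
      obtain ⟨x1, x2, x3⟩ := hup _ hx
      obtain ⟨y1, y2, y3⟩ := hup _ hy
      obtain ⟨x1', x2', x3'⟩ := hup _ hx'
      obtain ⟨y1', y2', y3'⟩ := hup _ hy'
      have ex := alg_vinv x
      have ey := alg_vinv y
      have ex0 := congrFun (congrFun ex 0) 0
      have ex1 := congrFun (congrFun ex 1) 1
      have ex2 := congrFun (congrFun ex 2) 2
      have ey0 := congrFun (congrFun ey 0) 0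
      have ey1 := congrFun (congrFun ey 1) 1
      have ey2 := congrFun (congrFun ey 2) 2
      simp only [alg_mul_apply, x1, x2, x3, y1, y2, y3, x1', x2', x3', y1', y2', y3'] at ex0 ex1 ex2 ey0 ey1 ey2
      simp at ex0 ex1 ex2 ey0 ey1 ey2
      refine ⟨k1, k2, k3, ?_, ?_, ?_⟩
      · rw [alg_mulv, alg_mulv, alg_mulv]
        simp only [alg_mul_apply, x1, x2, x3, y1, y2, y3, x1', x2', x3', y1', y2', y3']
        linear_combination ex0 * (y.1 0 0 * (y⁻¹).1 0 0) + ey0
      · rw [alg_mulv, alg_mulv, alg_mulv]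
        simp only [alg_mul_apply, x1, x2, x3, y1, y2, y3, x1', x2', x3', y1', y2', y3']
        linear_combination ex1 * (y.1 1 1 * (y⁻¹).1 1 1) + ey1
      · rw [alg_mulv, alg_mulv, alg_mulv]
        simp only [alg_mul_apply, x1, x2, x3, y1, y2, y3, x1', x2', x3', y1', y2', y3']
        linear_combination ex2 * (y.1 2 2 * (y⁻¹).1 2 2) + ey2
    have hS := H.uni_S hk hu
    have h1 := h0 _ hS
    obtain ⟨u1, u2, u3, u4, u5, u6⟩ := hu
    refine ⟨u4, ?_, u1, u5⟩
    rw [Matrix.sub_apply] at h1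
    simpa using h1

/-- second case: the quotient by `⟨e1⟩` -/
theorem AlgGood.caseC (H : AlgGood L A S) (hE : algE ∈ S) (h0 : ∀ Z ∈ S, Z 1 2 = 0)
    (hp : ∃ Z ∈ S, Z 0 1 ≠ 0) :
    (∀ h ∈ L, h.1 1 0 = 0 ∧ h.1 2 0 = 0) ∧ ∀ x ∈ L, ∀ y ∈ L,
      (x * y * x⁻¹ * y⁻¹).1 1 1 = 1 ∧ (x * y * x⁻¹ * y⁻¹).1 1 2 = 0 ∧
      (x * y * x⁻¹ * y⁻¹).1 2 1 = 0 ∧ (x * y * x⁻¹ * y⁻¹).1 2 2 = 1 := by
  obtain ⟨Z, hZ, hZp⟩ := hp
  obtain ⟨a1, a2, a3, _⟩ := H.shape hE hZ
  obtain ⟨a4, a5, a6⟩ := H.strict hE hZ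
  have a7 := h0 Z hZ
  constructor
  · intro h hh
    have hE' : algConj h algE ∈ S := H.inv h hh _ hE
    obtain ⟨b1, b2, b3, _⟩ := H.shape hE hE'
    obtain ⟨b4, b5, b6⟩ := H.strict hE hE'
    have b7 := h0 _ hE'
    have e := congrFun (congrFun (algConj_mul_right h algE) 2) 2
    have f := congrFun (congrFun (algConj_mul_right h algE) 1) 2
    rw [alg_mul_apply, alg_mul_apply, b2, b3, b6] at e
    rw [alg_mul_apply, alg_mul_apply, b1, b5, b7] at f
    simp [algE] at e f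
    exact ⟨f.symm, e.symm⟩
  · intro x hx y hy
    have c1 := H.comm_S' hE hx hy hE
    have c2 := H.comm_S' hE hx hy hZ
    generalize x * y * x⁻¹ * y⁻¹ = k at *
    have e1 := algConj_mul_right k algE
    have e2 := algConj_mul_right k Z
    rw [c1] at e1
    rw [c2] at e2
    have hdet : k.1.det = 1 := k.2
    rw [Matrix.det_fin_three] at hdet
    have i12 := congrFun (congrFun e1 1) 2
    have i22 := congrFun (congrFun e1 2) 2
    have i01 := congrFun (congrFun e1 0) 1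
    have i02 := congrFun (congrFun e1 0) 2
    have j01 := congrFun (congrFun e2 0) 1
    have j02 := congrFun (congrFun e2 0) 2
    simp only [alg_mul_apply, a1, a2, a3, a4, a5, a6, a7] at i12 i22 i01 i02 j01 j02
    simp [algE] at i12 i22 i01 i02 j01 j02
    rw [← i12, ← i22, i01] at hdet
    rw [i01] at j01
    have k11 : k.1 1 1 = k.1 0 0 := by
      have h1 : Z 0 1 * (k.1 1 1 - k.1 0 0) = 0 := by linear_combination j01
      rcases mul_eq_zero.1 h1 with h | h
      · exact absurd h hZp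
      · linarith
    have k12 : k.1 1 2 = 0 := by
      have h1 : Z 0 1 * k.1 1 2 = 0 := by
        rw [i02] at j02
        linear_combination j02
      rcases mul_eq_zero.1 h1 with h | h
      · exact absurd h hZp
      · exact h
    rw [k11, i02] at hdet
    have k00 : k.1 0 0 = 1 := by
      have : (k.1 0 0) ^ 3 = 1 ^ 3 := by linear_combination hdet
      exact (Odd.strictMono_pow (by decide : Odd 3)).injective this
    exact ⟨by rw [k11, k00], k12, i01, by rw [i02, k00]⟩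

end Pool.Agent.H88.LF
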