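import Pool.Agent.H88.LF.ALGE

/-!
# ALGF: step 8
-/

set_option autoImplicit false

open Set Filter
open scoped Topology

namespace Pool.Agent.H88.LF

variable {L : Subgroup G} {A : G → ℝ → ℝ} {S : Submodule ℝ Mat}

/-- Step 8, abstract form. -/
theorem alg_final (H : AlgGood L A S) (B : Set G) (β : G → Matrix (Fin 2) (Fin 2) ℝ)
    (hLB : ∀ h ∈ L, h ∈ B) (hBmul : ∀ g ∈ B, ∀ h ∈ B, g * h ∈ B) (hBinv : ∀ g ∈ B, g⁻¹ ∈ B)
    (hBcl : IsClosed B) (hβc : Continuous β)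
    (hβmul : ∀ g ∈ B, ∀ h ∈ B, β (g * h) = β g * β h)
    (hβcomm : ∀ x ∈ L, ∀ y ∈ L, β (x * y * x⁻¹ * y⁻¹) = 1)
    (hβne : ∀ g ∈ B, β g 0 0 ≠ 0 ∨ β g 1 0 ≠ 0)
    (hβsurj : ∀ t f1 f2 : ℝ, 0 < t → 0 < f1 ^ 2 + f2 ^ 2 →
      ∃ g ∈ B, β g = !![t * f1, t * f2; -f2, f1]) : False := by
  have hcomm : ∀ x ∈ L, ∀ y ∈ L, β x * β y = β y * β x := by
    intro x hx y hy
    have hx' := L.inv_mem hx
    have hy' := L.inv_mem hy
    have hk : x * y * x⁻¹ * y⁻¹ ∈ L := L.mul_mem (L.mul_mem (L.mul_mem hx hy) hx') hy'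
    rw [← hβmul x (hLB x hx) y (hLB y hy), ← hβmul y (hLB y hy) x (hLB x hx)]
    have e : x * y = (x * y * x⁻¹ * y⁻¹) * (y * x) := by group
    rw [e, hβmul _ (hLB _ hk) _ (hLB _ (L.mul_mem hy hx)), hβcomm x hx y hy, one_mul]
  have key : ∀ f1 f2 : ℝ, 0 < f1 ^ 2 + f2 ^ 2 → ∃ u v : ℝ, (u ≠ 0 ∨ v ≠ 0) ∧
      ∃ (z : ℕ → G) (c : ℕ → ℝ), (∀ n, z n ∈ L) ∧
        Tendsto (fun n => c n • β (z n)) atTop (𝓝 !![u * f1, u * f2; v * f1, v * f2]) := by
    intro f1 f2 hf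
    choose g hgB hg using fun n : ℕ => hβsurj ((n : ℝ) + 1) f1 f2 (by positivity) hf
    obtain ⟨p, φ, P, hφ, hP, hlim⟩ := H.seq g
    have hPB : ∀ n, P n ∈ B := by
      intro n
      have : P n = P n * g (φ n) * (g (φ n))⁻¹ := by group
      rw [this]
      exact hBmul _ (hLB _ (hP n)) _ (hBinv _ (hgB _))
    have hpB : p ∈ B := hBcl.mem_of_tendsto hlim (Eventually.of_forall hPB)
    refine ⟨β p 0 0, β p 1 0, hβne p hpB, fun n => P n * g (φ n),
      fun n => 1 / ((φ n : ℝ) + 1), hP, ?_⟩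
    have hx : Tendsto (fun n => 1 / ((φ n : ℝ) + 1)) atTop (𝓝 0) :=
      (tendsto_one_div_add_atTop_nhds_zero_nat).comp hφ.tendsto_atTop
    have hF : Continuous (fun z : G × ℝ =>
        β z.1 * !![f1, f2; z.2 * (-f2), z.2 * f1]) := by
      refine (hβc.comp continuous_fst).mul ?_
      refine continuous_matrix fun i j => ?_
      fin_cases i <;> fin_cases j <;> simp <;> fun_prop
    have h1 := (hF.tendsto (p, 0)).comp (hlim.prodMk_nhds hx)
    have h2 : (fun n => (1 / ((φ n : ℝ) + 1)) • β (P n * g (φ n))) =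
        (fun z : G × ℝ => β z.1 * !![f1, f2; z.2 * (-f2), z.2 * f1]) ∘
          (fun n => (P n, 1 / ((φ n : ℝ) + 1))) := by
      funext n
      have ht : ((φ n : ℝ) + 1) ≠ 0 := by positivity
      rw [hβmul _ (hPB n) _ (hgB _), hg, ← Matrix.mul_smul]
      show _ = β (P n) * _
      congr 1
      ext i j
      fin_cases i <;> fin_cases j <;> simp <;> field_simp
    have h3 : !![β p 0 0 * f1, β p 0 0 * f2; β p 1 0 * f1, β p 1 0 * f2] =
        (fun z : G × ℝ => β z.1 * !![f1, f2; z.2 * (-f2), z.2 * f1]) (p, 0) := by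
      ext i j
      fin_cases i <;> fin_cases j <;> simp [Matrix.mul_apply, Fin.sum_univ_two]
    rw [h2, h3]
    exact h1
  have hlimcomm : ∀ (z w : ℕ → G) (c d : ℕ → ℝ) (X Y : Matrix (Fin 2) (Fin 2) ℝ),
      (∀ n, z n ∈ L) → (∀ n, w n ∈ L) → Tendsto (fun n => c n • β (z n)) atTop (𝓝 X) →
      Tendsto (fun n => d n • β (w n)) atTop (𝓝 Y) → X * Y = Y * X := by
    intro z w c d X Y hz hw hX hY
    have h1 := hX.mul hY
    have h2 := hY.mul hX
    have h3 : (fun n => c n • β (z n) * d n • β (w n)) =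
        fun n => d n • β (w n) * c n • β (z n) := by
      funext n
      rw [Matrix.smul_mul, Matrix.mul_smul, Matrix.smul_mul, Matrix.mul_smul,
        hcomm _ (hz n) _ (hw n), smul_comm]
    rw [h3] at h1
    exact tendsto_nhds_unique h1 h2
  obtain ⟨u0, u1, hu, z, c, hz, hX⟩ := key 1 0 (by norm_num)
  obtain ⟨v0, v1, hv, z', c', hz', hY⟩ := key 0 1 (by norm_num)
  obtain ⟨w0, w1, hw, z'', c'', hz'', hW⟩ := key 1 1 (by norm_num)
  have e1 := hlimcomm _ _ _ _ _ _ hz hz' hX hY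
  have e2 := hlimcomm _ _ _ _ _ _ hz hz'' hX hW
  have a01 := congrFun (congrFun e1 0) 1
  have a11 := congrFun (congrFun e1 1) 1
  have a10 := congrFun (congrFun e1 1) 0
  have b01 := congrFun (congrFun e2 0) 1
  have b11 := congrFun (congrFun e2 1) 1
  have b10 := congrFun (congrFun e2 1) 0
  simp [Matrix.mul_apply, Fin.sum_univ_two] at a01 a11 a10 b01 b11 b10
  have hv0 : v0 = 0 := by
    rcases hu with h | h
    · exact a01.resolve_left h
    · exact a11.resolve_left h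
  have hv1 : v1 ≠ 0 := by
    rcases hv with h | h
    · exact absurd hv0 h
    · exact h
  have hu1 : u1 = 0 := by
    rcases a10 with h | h
    · exact absurd h hv1
    · exact h
  have hu0 : u0 ≠ 0 := by
    rcases hu with h | h
    · exact h
    · exact absurd hu1 h
  have hw0 : w0 = 0 := by
    rcases b01 with h | h
    · exact absurd h hu0
    · exact h
  rw [hu1, hw0] at b10
  simp at b10
  have hw1 : w1 = 0 := by
    rcases b10 with h | h
    · exact h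
    · exact absurd h hu0
  rcases hw with h | h
  · exact h hw0
  · exact h hw1

theorem alg_ent_cont (i j : Fin 3) : Continuous (fun g : G => g.1 i j) := by
  have h2 : Continuous (fun M : Mat => M i j) := (continuous_apply j).comp (continuous_apply i)
  exact h2.comp alg_cval

theorem alg_endB (H : AlgGood L A S) (hB : ∀ h ∈ L, h.1 2 0 = 0 ∧ h.1 2 1 = 0)
    (hC : ∀ x ∈ L, ∀ y ∈ L,
      (x * y * x⁻¹ * y⁻¹).1 0 0 = 1 ∧ (x * y * x⁻¹ * y⁻¹).1 0 1 = 0 ∧
      (x * y * x⁻¹ * y⁻¹).1 1 0 = 0 ∧ (x * y * x⁻¹ * y⁻¹).1 1 1 = 1) : False := by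
  refine alg_final H {g | g.1 2 0 = 0 ∧ g.1 2 1 = 0}
    (fun g => !![g.1 0 0, g.1 0 1; g.1 1 0, g.1 1 1]) hB ?_ ?_ ?_ ?_ ?_ ?_ ?_ ?_
  · rintro g ⟨g1, g2⟩ h ⟨h1, h2⟩
    constructor <;> rw [alg_mulv, alg_mul_apply] <;> simp [g1, g2, h1, h2]
  · rintro g ⟨g1, g2⟩
    have e := alg_vinv g
    have e0 := congrFun (congrFun e 2) 0
    have e1 := congrFun (congrFun e 2) 1
    have e2 := congrFun (congrFun e 2) 2
    rw [alg_mul_apply, g1, g2] at e0 e1 e2
    simp at e0 e1 e2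
    have hne : g.1 2 2 ≠ 0 := by
      intro h; rw [h] at e2; simp at e2
    exact ⟨e0.resolve_left hne, e1.resolve_left hne⟩
  · exact (isClosed_eq (alg_ent_cont 2 0) continuous_const).inter
      (isClosed_eq (alg_ent_cont 2 1) continuous_const)
  · refine continuous_matrix fun i j => ?_
    fin_cases i <;> fin_cases j <;> exact alg_ent_cont _ _
  · rintro g ⟨g1, g2⟩ h ⟨h1, h2⟩
    ext i j
    rw [Matrix.mul_apply, Fin.sum_univ_two]
    fin_cases i <;> fin_cases j <;> simp [alg_mul_apply, h1, h2]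
  · intro x hx y hy
    obtain ⟨c1, c2, c3, c4⟩ := hC x hx y hy
    show !![_, _; _, _] = (1 : Matrix (Fin 2) (Fin 2) ℝ)
    rw [c1, c2, c3, c4]
    ext i j
    fin_cases i <;> fin_cases j <;> simp
  · rintro g ⟨g1, g2⟩
    by_contra hcon
    push Not at hcon
    obtain ⟨h1, h2⟩ := hcon
    simp at h1 h2
    have hdet : g.1.det = 1 := g.2
    rw [Matrix.det_fin_three, g1, g2, h1, h2] at hdet
    simp at hdet
  · intro t f1 f2 ht hf
    refine ⟨⟨!![t * f1, t * f2, 0; -f2, f1, 0; 0, 0, 1 / (t * (f1 ^ 2 + f2 ^ 2))], ?_⟩, ?_, ?_⟩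
    · rw [Matrix.det_fin_three]
      simp
      field_simp
    · constructor <;> simp
    · ext i j
      fin_cases i <;> fin_cases j <;> simp

theorem alg_endC (H : AlgGood L A S) (hB : ∀ h ∈ L, h.1 1 0 = 0 ∧ h.1 2 0 = 0)
    (hC : ∀ x ∈ L, ∀ y ∈ L,
      (x * y * x⁻¹ * y⁻¹).1 1 1 = 1 ∧ (x * y * x⁻¹ * y⁻¹).1 1 2 = 0 ∧
      (x * y * x⁻¹ * y⁻¹).1 2 1 = 0 ∧ (x * y * x⁻¹ * y⁻¹).1 2 2 = 1) : False := by
  refine alg_final H {g | g.1 1 0 = 0 ∧ g.1 2 0 = 0}
    (fun g => !![g.1 1 1, g.1 1 2; g.1 2 1, g.1 2 2]) hB ?_ ?_ ?_ ?_ ?_ ?_ ?_ ?_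
  · rintro g ⟨g1, g2⟩ h ⟨h1, h2⟩
    constructor <;> rw [alg_mulv, alg_mul_apply] <;> simp [g1, g2, h1, h2]
  · rintro g ⟨g1, g2⟩
    have e := alg_invv g
    have e0 := congrFun (congrFun e 0) 0
    have e1 := congrFun (congrFun e 1) 0
    have e2 := congrFun (congrFun e 2) 0
    rw [alg_mul_apply, g1, g2] at e0 e1 e2
    simp at e0 e1 e2
    have hne : g.1 0 0 ≠ 0 := by
      intro h; rw [h] at e0; simp at e0
    exact ⟨e1.resolve_right hne, e2.resolve_right hne⟩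
  · exact (isClosed_eq (alg_ent_cont 1 0) continuous_const).inter
      (isClosed_eq (alg_ent_cont 2 0) continuous_const)
  · refine continuous_matrix fun i j => ?_
    fin_cases i <;> fin_cases j <;> exact alg_ent_cont _ _
  · rintro g ⟨g1, g2⟩ h ⟨h1, h2⟩
    ext i j
    rw [Matrix.mul_apply, Fin.sum_univ_two]
    fin_cases i <;> fin_cases j <;> simp [alg_mul_apply, g1, g2]
  · intro x hx y hy
    obtain ⟨c1, c2, c3, c4⟩ := hC x hx y hy
    show !![_, _; _, _] = (1 : Matrix (Fin 2) (Fin 2) ℝ)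
    rw [c1, c2, c3, c4]
    ext i j
    fin_cases i <;> fin_cases j <;> simp
  · rintro g ⟨g1, g2⟩
    by_contra hcon
    push Not at hcon
    obtain ⟨h1, h2⟩ := hcon
    simp at h1 h2
    have hdet : g.1.det = 1 := g.2
    rw [Matrix.det_fin_three, g1, g2, h1, h2] at hdet
    simp at hdet
  · intro t f1 f2 ht hf
    refine ⟨⟨!![1 / (t * (f1 ^ 2 + f2 ^ 2)), 0, 0; 0, t * f1, t * f2; 0, -f2, f1], ?_⟩, ?_, ?_⟩
    · rw [Matrix.det_fin_three]
      simp
      field_simp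
    · constructor <;> simp
    · ext i j
      fin_cases i <;> fin_cases j <;> simp

/-- The end: there is no good data with `E ∈ S`. -/
theorem AlgGood.absurdE (H : AlgGood L A S) (hE : algE ∈ S) : False := by
  by_cases h0 : ∀ Z ∈ S, Z 0 1 = 0
  · obtain ⟨hB, hC⟩ := H.caseB hE h0
    exact alg_endB H hB hC
  · have h1 : ∀ Z ∈ S, Z 1 2 = 0 := by
      rcases H.cases hE with h | h
      · exact absurd h h0
      · exact h
    push Not at h0
    obtain ⟨hB, hC⟩ := H.caseC hE h1 h0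
    exact alg_endC H hB hC

/-- There is no good data. -/
theorem AlgGood.absurd (H : AlgGood L A S) : False := by
  obtain ⟨q, hq⟩ := H.nilp
  refine (H.conj q⁻¹).absurdE ?_
  show algConj (q⁻¹)⁻¹ algE ∈ S
  rw [inv_inv]
  exact hq

end Pool.Agent.H88.LF
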