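import Pool.Agent.H88.LF.NOB

/-!
# CLO (blueprint 8.3): from `no_boundary` and `d1`; see the header of NOB
-/

set_option autoImplicit false

open MeasureTheory Set Filter
open scoped Topology

namespace Pool.Agent.H88.LF

variable {X : Type} [MetricSpace X] [CompactSpace X] [MulAction G X] [ContinuousSMul G X]

/-- Compactness of orbits propagates along a transversal. -/
theorem clo_line (S : FB X) (i : Fin S.n) (a σ L : ℝ) (hσ : σ = 1 ∨ σ = -1)
    (hin : ∀ s, 0 ≤ s → s ≤ L → |a + σ * s| < 1) (ha : CO (S.c i a)) :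
    ∀ s, 0 ≤ s → s ≤ L → CO (S.c i (a + σ * s)) := by
  by_contra hcon
  push Not at hcon
  obtain ⟨s0, hs0, hs0L, hn⟩ := hcon
  have hσa : |σ| = 1 := by rcases hσ with rfl | rfl <;> simp
  set B : Set ℝ := {s | 0 ≤ s ∧ s ≤ L ∧ ¬ CO (S.c i (a + σ * s))} with hB
  have hBne : B.Nonempty := ⟨s0, hs0, hs0L, hn⟩
  have hBb : BddBelow B := ⟨0, fun s hs => hs.1⟩
  set m := sInf B with hm
  have hm0 : 0 ≤ m := le_csInf hBne fun s hs => hs.1
  have hmL : m ≤ L := (csInf_le hBb ⟨hs0, hs0L, hn⟩).trans hs0L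
  have hlt : ∀ s, 0 ≤ s → s < m → CO (S.c i (a + σ * s)) := by
    intro s hs1 hs2
    by_contra hc
    exact absurd (csInf_le hBb (⟨hs1, hs2.le.trans hmL, hc⟩ : s ∈ B)) (not_le.2 hs2)
  have hCOm : CO (S.c i (a + σ * m)) := by
    rcases hm0.eq_or_lt with h0 | h0
    · rw [← h0, mul_zero, add_zero]; exact ha
    · refine no_boundary S i (a + σ * m) (-σ) m (hin m hm0 hmL) ?_ h0 ?_ ?_
      · rcases hσ with rfl | rfl
        · exact Or.inr rfl
        · exact Or.inl (by norm_num)
      · intro s h1 h2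
        have e1 : a + σ * m + -σ * s = a + σ * (m - s) := by ring
        rw [e1]
        exact hin _ (by linarith) (by linarith)
      · intro s h1 h2
        have e1 : a + σ * m + -σ * s = a + σ * (m - s) := by ring
        rw [e1]
        exact hlt _ (by linarith) (by linarith)
  obtain ⟨K, hK, δ, hδ, hd⟩ := d1 S i (a + σ * m) (hin m hm0 hmL) hCOm
  obtain ⟨b, hb, hbm⟩ := exists_lt_of_csInf_lt hBne (show sInf B < m + δ by linarith)
  have hmb : m ≤ b := csInf_le hBb hb
  refine hb.2.2 ⟨K, hK, hd _ ?_⟩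
  have e1 : a + σ * b - (a + σ * m) = σ * (b - m) := by ring
  rw [e1, abs_mul, hσa, one_mul, abs_of_nonneg (by linarith)]
  linarith

/-- All points of a transversal have compact orbits if one has. -/
theorem clo_all (S : FB X) (i : Fin S.n) (a b : ℝ) (ha : |a| < 1) (hb : |b| < 1)
    (hCO : CO (S.c i a)) : CO (S.c i b) := by
  rw [abs_lt] at ha hb
  rcases le_total a b with h | h
  · have := clo_line S i a 1 (b - a) (Or.inl rfl) (fun s h1 h2 => by
      rw [abs_lt]; constructor <;> linarith [ha.1, hb.2]) hCO (b - a) (by linarith) le_rfl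
    rwa [one_mul, add_sub_cancel] at this
  · have := clo_line S i a (-1) (a - b) (Or.inr rfl) (fun s h1 h2 => by
      rw [abs_lt]; constructor <;> linarith [ha.2, hb.1]) hCO (a - b) (by linarith) le_rfl
    have e1 : a + -1 * (a - b) = b := by ring
    rwa [e1] at this

/-- CLO -/
theorem isClopen_CO (S : FB X) : IsClopen {x : X | CO x} := by
  have key : ∀ p : Prop → Prop, (∀ (i : Fin S.n) (a : ℝ), |a| < 1 → p (CO (S.c i a)) →
      ∀ b : ℝ, |b| < 1 → p (CO (S.c i b))) → IsOpen {x : X | p (CO x)} := by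
    intro p hp
    rw [isOpen_iff_mem_nhds]
    intro x hx
    obtain ⟨-, ht, hxe⟩ := S.rep_spec x
    have hx' : p (CO (S.c (S.ri x) (S.rt x))) := by
      have h1 : p (CO x) := hx
      rw [hxe, CO_smul_iff] at h1
      exact h1
    have ho := S.isOpen_sat (S.ri x) {t | |t| < 1} (isOpen_lt continuous_abs continuous_const)
      (fun t ht => ht)
    refine Filter.mem_of_superset (ho.mem_nhds ⟨S.rh x, S.rt x, ?_, hxe⟩) ?_
    · show |S.rt x| < 1
      linarith
    · rintro y ⟨g, t, ht', rfl⟩
      show p (CO (g • S.c (S.ri x) t))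
      rw [CO_smul_iff]
      exact hp _ _ (by linarith) hx' t ht'
  constructor
  · rw [← isOpen_compl_iff]
    exact key (fun q => ¬ q) fun i a ha h b hb hc => h (clo_all S i b a hb ha hc)
  · exact key (fun q => q) fun i a ha h b hb => clo_all S i a b ha hb h

end Pool.Agent.H88.LF
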