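import Pool.Agent.H88.LF.Defs

/-!
# KOOP: the half density (Koopman) representation

`(π(g)φ)(y) = √(J(g⁻¹,y)) φ(g⁻¹y)` on `L²(Y,μ;ℂ)`.  Well defined and isometric by `qi` (apply it to `‖φ‖²`; `qi`
also shows that `g⁻¹ •` pulls back null sets to null sets), `π(gh) = π(g)π(h)` by the cocycle identity, strongly
continuous: for `φ` continuous with compact support and `g → g0` use local compactness of `G` (supports stay in
a compact set, uniform convergence, `μ` finite on compacts), then density of `C_c(Y)` in `L²` and `‖π(g)‖ = 1`.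
Note `J(1,y) = 1` (from `coc` and positivity).
-/

set_option autoImplicit false

open MeasureTheory Set Filter
open scoped Topology ENNReal

namespace Pool.Agent.H88.LF

section KOOP

variable {Y : Type} [TopologicalSpace Y] [MeasurableSpace Y] [MulAction G Y] {μ : Measure Y}

/-- KOOP: pointwise formula -/
noncomputable def KOOP_K (d : KD Y μ) (g : G) (f : Y → ℂ) (y : Y) : ℂ :=
  ((Real.sqrt (d.J g⁻¹ y) : ℝ) : ℂ) * f (g⁻¹ • y)

theorem KOOP_J_one (d : KD Y μ) (y : Y) : d.J 1 y = 1 := by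
  have h := d.coc 1 1 y
  rw [mul_one, one_smul] at h
  have hp := d.pos 1 y
  field_simp at h
  nlinarith [h, hp]

theorem KOOP_enorm_sq (d : KD Y μ) (g : G) (f : Y → ℂ) (y : Y) :
    ‖KOOP_K d g f y‖ₑ ^ 2 = ‖f (g⁻¹ • y)‖ₑ ^ 2 * ENNReal.ofReal (d.J g⁻¹ y) := by
  unfold KOOP_K
  rw [enorm_mul, mul_pow, mul_comm]
  congr 1
  rw [← ofReal_norm, Complex.norm_real, Real.norm_eq_abs, abs_of_nonneg (Real.sqrt_nonneg _),
    ← ENNReal.ofReal_pow (Real.sqrt_nonneg _), Real.sq_sqrt (d.pos _ _).le]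

variable [BorelSpace Y] [ContinuousSMul G Y]

theorem KOOP_meas_smul (g : G) : Measurable (fun y : Y => g • y) :=
  (continuous_const_smul g).measurable

theorem KOOP_cont_J (d : KD Y μ) (g : G) : Continuous (fun y : Y => d.J g y) :=
  d.cont.comp (Continuous.prodMk_right g)

theorem KOOP_qmp (d : KD Y μ) (g : G) :
    Measure.QuasiMeasurePreserving (fun y : Y => g⁻¹ • y) μ μ := by
  refine ⟨KOOP_meas_smul _, ?_⟩
  refine Measure.AbsolutelyContinuous.mk (fun s hs h0 => ?_)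
  rw [Measure.map_apply (KOOP_meas_smul _) hs]
  have h := d.qi g (s.indicator 1) (measurable_one.indicator hs)
  rw [lintegral_indicator_one hs, h0] at h
  have hm : Measurable (fun y => (s.indicator (1 : Y → ℝ≥0∞)) (g⁻¹ • y) *
      ENNReal.ofReal (d.J g⁻¹ y)) :=
    ((measurable_one.indicator hs).comp (KOOP_meas_smul _)).mul
      (KOOP_cont_J d g⁻¹).measurable.ennreal_ofReal
  rw [lintegral_eq_zero_iff hm] at h
  have : ∀ᵐ y ∂μ, y ∉ (fun y : Y => g⁻¹ • y) ⁻¹' s := by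
    filter_upwards [h] with y hy hys
    have hJ : ENNReal.ofReal (d.J g⁻¹ y) ≠ 0 := by
      simpa using d.pos g⁻¹ y
    have h1 : (s.indicator (1 : Y → ℝ≥0∞)) (g⁻¹ • y) = 1 :=
      indicator_of_mem (s := s) (a := g⁻¹ • y) hys _
    simp only [h1, one_mul, Pi.zero_apply] at hy
    exact hJ hy
  rw [ae_iff] at this
  simp only [not_not] at this
  exact this

theorem KOOP_lint (d : KD Y μ) (g : G) (f : Y → ℂ) (hf : Measurable f) :
    ∫⁻ y, ‖KOOP_K d g f y‖ₑ ^ 2 ∂μ = ∫⁻ y, ‖f y‖ₑ ^ 2 ∂μ := by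
  rw [← d.qi g (fun y => ‖f y‖ₑ ^ 2) (by fun_prop)]
  exact lintegral_congr (fun y => KOOP_enorm_sq d g f y)

theorem KOOP_ae_congr (d : KD Y μ) (g : G) {f f' : Y → ℂ} (h : f =ᵐ[μ] f') :
    KOOP_K d g f =ᵐ[μ] KOOP_K d g f' := by
  have := (KOOP_qmp d g).ae h
  filter_upwards [this] with y hy
  unfold KOOP_K
  rw [hy]

theorem KOOP_eLpNorm_eq (f : Y → ℂ) :
    eLpNorm f 2 μ = (∫⁻ y, ‖f y‖ₑ ^ 2 ∂μ) ^ (1 / 2 : ℝ) := by
  rw [eLpNorm_eq_lintegral_rpow_enorm_toReal (by norm_num) (by norm_num)]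
  norm_num

theorem KOOP_eLpNorm (d : KD Y μ) (g : G) (f : Y → ℂ) (hf : Measurable f) :
    eLpNorm (KOOP_K d g f) 2 μ = eLpNorm f 2 μ := by
  rw [KOOP_eLpNorm_eq, KOOP_eLpNorm_eq, KOOP_lint d g f hf]

theorem KOOP_meas (d : KD Y μ) (g : G) (f : Y → ℂ) (hf : Measurable f) :
    Measurable (KOOP_K d g f) := by
  unfold KOOP_K
  refine Measurable.mul ?_ (hf.comp (KOOP_meas_smul _))
  exact (Complex.continuous_ofReal.comp
    (Real.continuous_sqrt.comp (KOOP_cont_J d g⁻¹))).measurable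

theorem KOOP_memLp (d : KD Y μ) (g : G) (φ : Lp ℂ 2 μ) :
    MemLp (KOOP_K d g (φ : Y → ℂ)) 2 μ := by
  have hφ : Measurable (φ : Y → ℂ) := (Lp.stronglyMeasurable φ).measurable
  refine ⟨(KOOP_meas d g _ hφ).aestronglyMeasurable, ?_⟩
  rw [KOOP_eLpNorm d g _ hφ]
  exact (Lp.memLp φ).2

/-- KOOP: the operator -/
noncomputable def KOOP_op (d : KD Y μ) (g : G) (φ : Lp ℂ 2 μ) : Lp ℂ 2 μ :=
  (KOOP_memLp d g φ).toLp _

theorem KOOP_op_ae (d : KD Y μ) (g : G) (φ : Lp ℂ 2 μ) :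
    (KOOP_op d g φ : Y → ℂ) =ᵐ[μ] KOOP_K d g (φ : Y → ℂ) :=
  MemLp.coeFn_toLp _

theorem KOOP_op_norm (d : KD Y μ) (g : G) (φ : Lp ℂ 2 μ) : ‖KOOP_op d g φ‖ = ‖φ‖ := by
  unfold KOOP_op
  rw [Lp.norm_toLp, Lp.norm_def, KOOP_eLpNorm d g _ (Lp.stronglyMeasurable φ).measurable]

/-- KOOP: the operator as a linear isometry -/
noncomputable def KOOP_lin (d : KD Y μ) (g : G) : Lp ℂ 2 μ →ₗᵢ[ℂ] Lp ℂ 2 μ where
  toFun := KOOP_op d g
  map_add' φ ψ := by
    refine Lp.ext ?_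
    have h1 := KOOP_op_ae d g (φ + ψ)
    have h2 := KOOP_op_ae d g φ
    have h3 := KOOP_op_ae d g ψ
    have h4 := KOOP_ae_congr d g (Lp.coeFn_add φ ψ)
    have h5 := Lp.coeFn_add (KOOP_op d g φ) (KOOP_op d g ψ)
    filter_upwards [h1, h2, h3, h4, h5] with y h1 h2 h3 h4 h5
    rw [h1, h4, h5, Pi.add_apply, h2, h3]
    unfold KOOP_K
    simp only [Pi.add_apply]
    ring
  map_smul' c φ := by
    refine Lp.ext ?_
    have h1 := KOOP_op_ae d g (c • φ)
    have h2 := KOOP_op_ae d g φ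
    have h4 := KOOP_ae_congr d g (Lp.coeFn_smul c φ)
    have h5 := Lp.coeFn_smul c (KOOP_op d g φ)
    filter_upwards [h1, h2, h4, h5] with y h1 h2 h4 h5
    simp only [RingHom.id_apply]
    rw [h1, h4, h5, Pi.smul_apply, h2]
    unfold KOOP_K
    simp only [Pi.smul_apply, smul_eq_mul]
    ring
  norm_map' φ := KOOP_op_norm d g φ

theorem KOOP_lin_ae (d : KD Y μ) (g : G) (φ : Lp ℂ 2 μ) :
    (KOOP_lin d g φ : Y → ℂ) =ᵐ[μ] KOOP_K d g (φ : Y → ℂ) := KOOP_op_ae d g φ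

theorem KOOP_lin_one (d : KD Y μ) (φ : Lp ℂ 2 μ) : KOOP_lin d 1 φ = φ := by
  refine Lp.ext ?_
  filter_upwards [KOOP_lin_ae d 1 φ] with y h1
  rw [h1]
  unfold KOOP_K
  rw [inv_one, KOOP_J_one, one_smul, Real.sqrt_one, Complex.ofReal_one, one_mul]

theorem KOOP_lin_mul (d : KD Y μ) (g h : G) (φ : Lp ℂ 2 μ) :
    KOOP_lin d (g * h) φ = KOOP_lin d g (KOOP_lin d h φ) := by
  refine Lp.ext ?_
  have h1 := KOOP_lin_ae d (g * h) φ
  have h2 := KOOP_lin_ae d g (KOOP_lin d h φ)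
  have h3 := KOOP_ae_congr d g (KOOP_lin_ae d h φ)
  filter_upwards [h1, h2, h3] with y h1 h2 h3
  rw [h1, h2, h3]
  unfold KOOP_K
  rw [mul_inv_rev, mul_smul, d.coc, mul_comm (d.J h⁻¹ (g⁻¹ • y)), Real.sqrt_mul (d.pos _ _).le]
  push_cast
  ring

variable [T2Space Y] [LocallyCompactSpace Y] [SecondCountableTopology Y]
  [IsFiniteMeasureOnCompacts μ]

theorem KOOP_contp (d : KD Y μ) (f : Y → ℂ) (hf : Continuous f) :
    Continuous (fun p : G × Y => KOOP_K d p.1 f p.2) := by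
  unfold KOOP_K
  refine Continuous.mul ?_ ?_
  · refine Complex.continuous_ofReal.comp (Real.continuous_sqrt.comp ?_)
    exact d.cont.comp (continuous_fst.inv.prodMk continuous_snd)
  · exact hf.comp (continuous_fst.inv.smul continuous_snd)

theorem KOOP_contg (d : KD Y μ) (f : Y → ℂ) (hf : Continuous f) (y : Y) :
    Continuous (fun g : G => KOOP_K d g f y) := by
  unfold KOOP_K
  refine Continuous.mul ?_ ?_
  · refine Complex.continuous_ofReal.comp (Real.continuous_sqrt.comp ?_)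
    exact d.cont.comp (continuous_inv.prodMk continuous_const)
  · exact hf.comp (continuous_inv.smul continuous_const)

theorem KOOP_contd (d : KD Y μ) (f : Y → ℂ) (hf : Continuous f) (g0 : G) (y : Y) :
    Tendsto (fun g : G => ‖KOOP_K d g f y - KOOP_K d g0 f y‖ₑ ^ 2) (𝓝 g0) (𝓝 0) := by
  have h2 : Continuous (fun g : G => ‖KOOP_K d g f y - KOOP_K d g0 f y‖ₑ) :=
    ((KOOP_contg d f hf y).sub continuous_const).enorm
  have h1 : Continuous (fun g : G => ‖KOOP_K d g f y - KOOP_K d g0 f y‖ₑ ^ 2) :=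
    (ENNReal.continuous_pow 2).comp h2
  have h3 := h1.tendsto g0
  rw [sub_self, enorm_zero, zero_pow two_ne_zero] at h3
  exact h3

theorem KOOP_cont_cc (d : KD Y μ) (f : Y → ℂ) (hf : Continuous f) (hc : HasCompactSupport f)
    (g0 : G) :
    Tendsto (fun g => eLpNorm (fun y => KOOP_K d g f y - KOOP_K d g0 f y) 2 μ) (𝓝 g0) (𝓝 0) := by
  have hFc := KOOP_contp d f hf
  obtain ⟨N, hNc, hN⟩ := exists_compact_mem_nhds g0
  -- the compact set of supports
  have hK : IsCompact ((fun p : G × Y => p.1 • p.2) '' (N ×ˢ tsupport f)) :=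
    (hNc.prod hc).image continuous_smul
  set K := (fun p : G × Y => p.1 • p.2) '' (N ×ˢ tsupport f) with hKdef
  have hzero : ∀ g ∈ N, ∀ y, y ∉ K → KOOP_K d g f y = 0 := by
    intro g hg y hy
    unfold KOOP_K
    have : g⁻¹ • y ∉ tsupport f := by
      intro h
      exact hy ⟨(g, g⁻¹ • y), ⟨hg, h⟩, by simp⟩
    rw [image_eq_zero_of_notMem_tsupport this, mul_zero]
  obtain ⟨C, hC⟩ := (hNc.prod hK).exists_bound_of_continuousOn hFc.continuousOn
  have hbd : ∀ g ∈ N, ∀ y ∈ K, ‖KOOP_K d g f y‖ ≤ C := fun g hg y hy => hC (g, y) ⟨hg, hy⟩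
  have hg0 : g0 ∈ N := mem_of_mem_nhds hN
  have hkey : Tendsto (fun g => ∫⁻ y, ‖KOOP_K d g f y - KOOP_K d g0 f y‖ₑ ^ 2 ∂μ) (𝓝 g0)
      (𝓝 (∫⁻ y, (0 : ℝ≥0∞) ∂μ)) := by
    refine tendsto_lintegral_filter_of_dominated_convergence
      (K.indicator (fun _ => (ENNReal.ofReal (C + C)) ^ 2)) ?_ ?_ ?_ ?_
    · refine Eventually.of_forall (fun g => ?_)
      have h1 := (KOOP_meas d g f hf.measurable).sub (KOOP_meas d g0 f hf.measurable)
      exact (h1.enorm).pow_const 2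
    · filter_upwards [hN] with g hg
      refine Eventually.of_forall (fun y => ?_)
      by_cases hy : y ∈ K
      · rw [indicator_of_mem hy]
        gcongr
        rw [← ofReal_norm]
        refine ENNReal.ofReal_le_ofReal ?_
        exact (norm_sub_le _ _).trans (add_le_add (hbd g hg y hy) (hbd g0 hg0 y hy))
      · rw [indicator_of_notMem hy, hzero g hg y hy, hzero g0 hg0 y hy]
        simp
    · rw [lintegral_indicator_const hK.isClosed.measurableSet]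
      exact ENNReal.mul_ne_top (ENNReal.pow_ne_top ENNReal.ofReal_ne_top) hK.measure_lt_top.ne
    · exact Eventually.of_forall (fun y => KOOP_contd d f hf g0 y)
  have h5 : Tendsto (fun g => (∫⁻ y, ‖KOOP_K d g f y - KOOP_K d g0 f y‖ₑ ^ 2 ∂μ) ^ (1 / 2 : ℝ))
      (𝓝 g0) (𝓝 (0 ^ (1 / 2 : ℝ))) := by
    rw [lintegral_zero] at hkey
    exact (ENNReal.continuous_rpow_const.tendsto _).comp hkey
  rw [ENNReal.zero_rpow_of_pos (by norm_num)] at h5
  refine h5.congr (fun g => ?_)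
  rw [KOOP_eLpNorm_eq]

theorem KOOP_cont (d : KD Y μ) (φ : Lp ℂ 2 μ) : Continuous (fun g => KOOP_lin d g φ) := by
  rw [continuous_iff_continuousAt]
  intro g0
  rw [ContinuousAt, Metric.tendsto_nhds]
  intro ε hε
  obtain ⟨f, hfc, hfe, hfcont, hfm⟩ :=
    (Lp.memLp φ).exists_hasCompactSupport_eLpNorm_sub_le (by norm_num)
      (ε := ENNReal.ofReal (ε / 4)) (by simpa using hε)
  set ψ : Lp ℂ 2 μ := hfm.toLp f with hψ
  have hφψ : ‖φ - ψ‖ ≤ ε / 4 := by
    have h1 : φ - ψ = ((Lp.memLp φ).sub hfm).toLp _ := by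
      rw [MemLp.toLp_sub (Lp.memLp φ) hfm, Lp.toLp_coeFn]
    rw [h1, Lp.norm_toLp]
    exact ENNReal.toReal_le_of_le_ofReal (by linarith) hfe
  have hψK : ∀ g, (KOOP_lin d g ψ : Y → ℂ) =ᵐ[μ] KOOP_K d g f := fun g =>
    (KOOP_lin_ae d g ψ).trans (KOOP_ae_congr d g (MemLp.coeFn_toLp _))
  have hcc := KOOP_cont_cc d f hfcont hfc g0
  have hev := hcc.eventually (gt_mem_nhds (show (0 : ℝ≥0∞) < ENNReal.ofReal (ε / 4) by simpa using hε))
  filter_upwards [hev] with g hg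
  have h2 : ‖KOOP_lin d g ψ - KOOP_lin d g0 ψ‖ ≤ ε / 4 := by
    rw [Lp.norm_def]
    refine ENNReal.toReal_le_of_le_ofReal (by linarith) ?_
    refine le_of_eq_of_le ?_ hg.le
    refine eLpNorm_congr_ae ?_
    filter_upwards [Lp.coeFn_sub (KOOP_lin d g ψ) (KOOP_lin d g0 ψ), hψK g, hψK g0] with y h1 h2 h3
    rw [h1, Pi.sub_apply, h2, h3]
  have h3 : ‖KOOP_lin d g φ - KOOP_lin d g ψ‖ ≤ ε / 4 := by
    rw [← map_sub, LinearIsometry.norm_map]; exact hφψ
  have h4 : ‖KOOP_lin d g0 ψ - KOOP_lin d g0 φ‖ ≤ ε / 4 := by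
    rw [← map_sub, LinearIsometry.norm_map, norm_sub_rev]; exact hφψ
  rw [dist_eq_norm]
  have h5 : KOOP_lin d g φ - KOOP_lin d g0 φ = (KOOP_lin d g φ - KOOP_lin d g ψ) +
      (KOOP_lin d g ψ - KOOP_lin d g0 ψ) + (KOOP_lin d g0 ψ - KOOP_lin d g0 φ) := by abel
  rw [h5]
  refine lt_of_le_of_lt (norm_add₃_le) ?_
  linarith

end KOOP

/-- KOOP -/
theorem koop {Y : Type} [TopologicalSpace Y] [T2Space Y] [LocallyCompactSpace Y]
    [SecondCountableTopology Y] [MeasurableSpace Y] [BorelSpace Y] [MulAction G Y]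
    [ContinuousSMul G Y] (μ : Measure Y) [IsFiniteMeasureOnCompacts μ] (d : KD Y μ) :
    ∃ R : URep (Lp ℂ 2 μ), d.IsKoop R := by
  refine ⟨⟨fun g => (KOOP_lin d g).toContinuousLinearMap, fun φ => KOOP_lin_one d φ,
    fun g h φ => KOOP_lin_mul d g h φ, fun g φ => (KOOP_lin d g).norm_map φ,
    fun φ => KOOP_cont d φ⟩, ?_⟩
  intro g φ
  exact KOOP_lin_ae d g φ

end Pool.Agent.H88.LF
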