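import Pool.Agent.H88.LF.DEC
import Pool.Agent.H88.LF.KOOP

/-!
# COC (end of blueprint section 7): polynomial growth of `G/Γ` and uniform discreteness imply cocompactness

`Γ` is a discrete (countable) subgroup.  `λ` = the `G`-invariant measure on `G ⧸ Γ` (image of Haar measure restricted to a Borel
fundamental domain; `Mathlib.MeasureTheory.Measure.Haar.Quotient`).  If `U ⊆ G` is such that `u ↦ uΓ` is injective on `U` then
`λ(UΓ/Γ) = haar U`; in general `λ(UΓ/Γ) ≤ haar U`.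
(a) Suppose `λ(G/Γ) = ∞`.  Then `L²(G/Γ)` has no nonzero invariant vector (an invariant function is a.e. constant: `f(gy)=f(y)` a.e.
for every `g`, Fubini, transitivity).  Apply `dec` to the Koopman representation (`koop` with `J = 1`), `K = ⊤`, `(i,l) = (0,1)`, `v = (t,-t)`,
`φ = 1_{BP 1 n Γ/Γ}`, `ψ = 1_{BP 1 (n+m) Γ/Γ}` where `m` is such that all `rot θ'⁻¹ * D v * rot θ` lie in `BP 1 m` (compact set, `BP 1 m` exhausts `G`:
`G` is generated by small elements).  Then `⟪π(rot θ')ψ, π(D v rot θ)φ⟫ = λ(BP 1 n Γ/Γ)`, so `(2π)² λ_n ≤ 1000 e^{-t/2} √(λ_n λ_{n+m})`; for `t` large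
`λ_{n+m} ≥ 2 λ_n` for all `n`: exponential growth.  But `λ_n ≤ C(n+1)^p haar(Bl 1)` by `hpoly`.  Contradiction.
(b) So `λ(G/Γ) < ∞`.  Choose `r` small so that `nd(b⁻¹b')≤ρ` for `b, b' ∈ Bl r`; the sets `Bl r g Γ/Γ` have measure `haar(Bl r)` by `hUD`
(`b g γ = b' g` gives `nd(gγg⁻¹) ≤ ρ`).  A maximal family of pairwise disjoint such sets is finite: `g_1..g_m`; then
`G = ∪ (Bl r)⁻¹ Bl r g_l Γ`, `K = ∪ (Bl r)⁻¹ Bl r g_l`.
-/

set_option autoImplicit false

open MeasureTheory Set Filter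
open scoped Topology ENNReal Pointwise NNReal

namespace Pool.Agent.H88.LF



/-! ### Topology of `G` -/

theorem coc_continuous_val : Continuous (fun g : G => (g.1 : Mat)) := closedEmb_val.continuous

theorem coc_continuous_nrm : Continuous (fun A : Mat => nrm A) := by
  unfold nrm
  refine continuous_finsetSum _ fun i _ => continuous_finsetSum _ fun j _ => ?_
  exact continuous_abs.comp ((continuous_apply j).comp (continuous_apply i))

theorem coc_continuous_nd : Continuous nd := by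
  unfold nd
  exact coc_continuous_nrm.comp (coc_continuous_val.sub continuous_const)

theorem coc_nd_one : nd 1 = 0 := by
  simp [nd, nrm]

theorem coc_isClosed_Bl (r : ℝ) : IsClosed (Bl r) := isClosed_le coc_continuous_nd continuous_const

theorem coc_isCompact_Bl (r : ℝ) : IsCompact (Bl r) := by
  have h1 : IsCompact {A : Mat | nrm (A - 1) ≤ r} := by
    have hc : IsClosed {A : Mat | nrm (A - 1) ≤ r} :=
      isClosed_le (coc_continuous_nrm.comp (continuous_id.sub continuous_const)) continuous_const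
    have h2 : IsCompact (Set.univ.pi (fun i => Set.univ.pi (fun j => Set.Icc ((1 : Mat) i j - r) ((1 : Mat) i j + r))) : Set Mat) :=
      isCompact_univ_pi fun i => isCompact_univ_pi fun j => isCompact_Icc
    refine h2.of_isClosed_subset hc ?_
    intro A hA i _ j _
    change Mat at A
    have h3 : |(A - 1) i j| ≤ nrm (A - 1) := by
      unfold nrm
      refine le_trans ?_ (Finset.single_le_sum (f := fun i => ∑ j, |(A - 1) i j|)
        (fun i _ => Finset.sum_nonneg fun j _ => abs_nonneg _) (Finset.mem_univ i))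
      exact Finset.single_le_sum (f := fun j => |(A - 1) i j|) (fun j _ => abs_nonneg _) (Finset.mem_univ j)
    have h4 := abs_le.1 (h3.trans hA)
    rw [Matrix.sub_apply] at h4
    exact ⟨by linarith [h4.1], by linarith [h4.2]⟩
  exact closedEmb_val.isCompact_preimage h1

theorem coc_Bl_mem_nhds (r : ℝ) (hr : 0 < r) : Bl r ∈ 𝓝 (1 : G) := by
  have : {g : G | nd g < r} ∈ 𝓝 (1 : G) :=
    (isOpen_lt coc_continuous_nd continuous_const).mem_nhds (by simpa [coc_nd_one] using hr)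
  exact mem_of_superset this (fun g hg => le_of_lt (show nd g < r from hg))

instance coc_polishG : PolishSpace G := by
  have : PolishSpace Mat := inferInstanceAs (PolishSpace (Fin 3 → Fin 3 → ℝ))
  exact closedEmb_val.polishSpace

/-! ### Products of small elements -/

theorem coc_BP_isCompact (r : ℝ) (n : ℕ) : IsCompact (BP r n) := by
  induction n with
  | zero => exact isCompact_singleton
  | succ n ih =>
    have : BP r (n + 1) = Bl r * BP r n := by
      ext g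
      simp only [BP, mem_ofPred_eq, Set.mem_mul]
      constructor
      · rintro ⟨b, hb, g', hg', rfl⟩; exact ⟨b, hb, g', hg', rfl⟩
      · rintro ⟨b, hb, g', hg', rfl⟩; exact ⟨b, hb, g', hg', rfl⟩
    rw [this]
    exact (coc_isCompact_Bl r).mul ih

theorem coc_BP_mul (r : ℝ) (m n : ℕ) {g h : G} (hg : g ∈ BP r m) (hh : h ∈ BP r n) :
    g * h ∈ BP r (n + m) := by
  induction m generalizing g with
  | zero =>
    have : g = 1 := hg
    subst this; simpa using hh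
  | succ m ih =>
    obtain ⟨b, hb, g', hg', rfl⟩ := hg
    exact ⟨b, hb, g' * h, ih hg', by rw [mul_assoc]⟩

theorem coc_BP_pow (r : ℝ) (n : ℕ) {g : G} (hg : g ∈ Bl r) : g ^ n ∈ BP r n := by
  induction n with
  | zero => simp [BP]
  | succ n ih => exact ⟨g, hg, g ^ n, ih, by rw [pow_succ']⟩

theorem coc_one_mem_Bl : (1 : G) ∈ Bl 1 := by
  simp [Bl, coc_nd_one]


/-! ### Unimodularity -/

/-- A homomorphism into the nonnegative reals kills all transvections. -/
theorem coc_char_U (f : G →* ℝ≥0) (i j : Fin 3) (h : i ≠ j) (c : ℝ) : f (U i j h c) = 1 := by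
  obtain ⟨k, hki, hkj⟩ : ∃ k : Fin 3, k ≠ i ∧ k ≠ j := by
    fin_cases i <;> fin_cases j <;> first | exact absurd rfl h | decide
  have e : U i k hki.symm 1 * U k j hkj c = U i j h c * (U k j hkj c * U i k hki.symm 1) := by
    apply Subtype.ext
    change Matrix.transvection i k 1 * Matrix.transvection k j c =
      Matrix.transvection i j c * (Matrix.transvection k j c * Matrix.transvection i k 1)
    ext a b
    fin_cases i <;> fin_cases j <;> (try exact absurd rfl h) <;> fin_cases k <;>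
      (try exact absurd rfl hki) <;> (try exact absurd rfl hkj) <;> fin_cases a <;> fin_cases b <;>
      simp [Matrix.transvection, Matrix.mul_apply, Fin.sum_univ_three, Matrix.single, Matrix.one_apply]
  have e2 := congrArg f e
  rw [map_mul, map_mul, map_mul, mul_comm (f (U k j hkj c))] at e2
  have hne : f (U i k hki.symm 1) * f (U k j hkj c) ≠ 0 := by
    rw [← map_mul]
    intro h0
    have h1 : f (U i k hki.symm 1 * U k j hkj c) * f ((U i k hki.symm 1 * U k j hkj c)⁻¹) = 1 := by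
      rw [← map_mul, mul_inv_cancel, map_one]
    rw [h0, zero_mul] at h1
    exact zero_ne_one h1
  have e3 : 1 * (f (U i k hki.symm 1) * f (U k j hkj c)) =
      f (U i j h c) * (f (U i k hki.symm 1) * f (U k j hkj c)) := by
    rw [one_mul]; exact e2
  exact (mul_right_cancel₀ hne e3).symm

theorem coc_char_list (f : G →* ℝ≥0) (L : List (Matrix.TransvectionStruct (Fin 3) ℝ)) :
    ∃ g : G, g.1 = (L.map Matrix.TransvectionStruct.toMatrix).prod ∧ f g = 1 := by
  induction L with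
  | nil => exact ⟨1, rfl, map_one f⟩
  | cons t L ih =>
    obtain ⟨g, hg, hf⟩ := ih
    refine ⟨U t.i t.j t.hij t.c * g, ?_, ?_⟩
    · rw [List.map_cons, List.prod_cons, ← hg]; rfl
    · rw [map_mul, coc_char_U, hf, one_mul]

/-- The cyclic permutation. -/
def coc_P : G := ⟨!![0,1,0;0,0,1;1,0,0], by rw [Matrix.det_fin_three]; simp⟩

/-- Diagonal elements. -/
noncomputable def coc_dg (a b c : ℝ) (h : a * b * c = 1) : G :=
  ⟨Matrix.diagonal ![a, b, c], by
    rw [Matrix.det_diagonal, Fin.prod_univ_three]; simpa using h⟩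

theorem coc_char_dg (f : G →* ℝ≥0) (a b c : ℝ) (h : a * b * c = 1) : f (coc_dg a b c h) = 1 := by
  have key : ∀ (a b c : ℝ) (h : a * b * c = 1), f (coc_dg a b c h) =
      f (coc_dg b c a (by rw [← h]; ring)) := by
    intro a b c h
    have e : coc_P * coc_dg a b c h = coc_dg b c a (by rw [← h]; ring) * coc_P := by
      apply Subtype.ext
      change (!![0,1,0;0,0,1;1,0,0] : Mat) * Matrix.diagonal ![a,b,c] =
        Matrix.diagonal ![b,c,a] * (!![0,1,0;0,0,1;1,0,0] : Mat)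
      ext i j
      fin_cases i <;> fin_cases j <;> simp [Matrix.mul_apply, Matrix.diagonal]
    have e2 := congrArg f e
    rw [map_mul, map_mul, mul_comm (f coc_P)] at e2
    have hne : f coc_P ≠ 0 := by
      intro h0
      have h1 : f coc_P * f coc_P⁻¹ = 1 := by rw [← map_mul, mul_inv_cancel, map_one]
      rw [h0, zero_mul] at h1
      exact zero_ne_one h1
    exact mul_right_cancel₀ hne e2
  have h3 : coc_dg a b c h * coc_dg b c a (by rw [← h]; ring) * coc_dg c a b (by rw [← h]; ring) = 1 := by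
    apply Subtype.ext
    change Matrix.diagonal ![a,b,c] * Matrix.diagonal ![b,c,a] * Matrix.diagonal ![c,a,b] = (1 : Mat)
    rw [Matrix.diagonal_mul_diagonal, Matrix.diagonal_mul_diagonal, ← Matrix.diagonal_one]
    congr 1
    ext i
    fin_cases i <;> simp <;> nlinarith [h]
  have h4 := congrArg f h3
  rw [map_mul, map_mul, map_one, ← key b c a (by rw [← h]; ring), ← key a b c h] at h4
  have h5 : (f (coc_dg a b c h)) ^ 3 = 1 := by rw [← h4]; ring
  exact (pow_eq_one_iff_of_nonneg (zero_le) (by norm_num : (3:ℕ) ≠ 0)).1 h5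

theorem coc_char (f : G →* ℝ≥0) (g : G) : f g = 1 := by
  obtain ⟨L, L', D, hD⟩ := Matrix.Pivot.exists_list_transvec_mul_diagonal_mul_list_transvec g.1
  obtain ⟨g1, h1, hf1⟩ := coc_char_list f L
  obtain ⟨g2, h2, hf2⟩ := coc_char_list f L'
  have hdet : D 0 * D 1 * D 2 = 1 := by
    have h3 : (g.1).det = 1 := g.2
    rw [hD, ← h1, ← h2, Matrix.det_mul, Matrix.det_mul, g1.2, g2.2, Matrix.det_diagonal,
      Fin.prod_univ_three] at h3
    simpa using h3
  have e : g = g1 * coc_dg (D 0) (D 1) (D 2) hdet * g2 := by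
    apply Subtype.ext
    change g.1 = g1.1 * Matrix.diagonal ![D 0, D 1, D 2] * g2.1
    rw [hD, h1, h2]
    congr 3
    ext i; fin_cases i <;> rfl
  rw [e, map_mul, map_mul, hf1, hf2, coc_char_dg, one_mul, one_mul]

instance coc_rightInv : (hG).IsMulRightInvariant where
  map_mul_right_eq_self g := by
    have h : Measure.modularCharacterFun g = 1 := coc_char (Measure.modularCharacter (G := G)) g
    rw [Measure.map_right_mul_eq_modularCharacterFun_smul, h, one_smul]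




section quot

variable {Γ : Subgroup G} {ρ : ℝ}

/-- A small open set. -/
theorem coc_exists_V (ρ : ℝ) (hρ : 0 < ρ) : ∃ V : Set G, IsOpen V ∧ (1 : G) ∈ V ∧
    V ⊆ Bl 1 ∧ ∀ b ∈ V, ∀ b' ∈ V, nd (b⁻¹ * b') ≤ ρ := by
  have hc : Continuous (fun p : G × G => nd (p.1⁻¹ * p.2)) :=
    coc_continuous_nd.comp ((continuous_fst.inv).mul continuous_snd)
  have ho : IsOpen {p : G × G | nd (p.1⁻¹ * p.2) < ρ} := isOpen_lt hc continuous_const
  have hm : ((1 : G), (1 : G)) ∈ {p : G × G | nd (p.1⁻¹ * p.2) < ρ} := by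
    simpa [coc_nd_one] using hρ
  obtain ⟨u, v, hu, hv, h1u, h1v, huv⟩ := isOpen_prod_iff.1 ho 1 1 hm
  have hB : IsOpen {g : G | nd g < 1} := isOpen_lt coc_continuous_nd continuous_const
  refine ⟨u ∩ v ∩ {g : G | nd g < 1}, (hu.inter hv).inter hB, ⟨⟨h1u, h1v⟩, ?_⟩, ?_, ?_⟩
  · simp [coc_nd_one]
  · intro g hg
    exact le_of_lt (show nd g < 1 from hg.2)
  · intro b hb b' hb'
    have h := @huv (b, b') ⟨hb.1.1, hb'.1.2⟩
    rw [mem_ofPred_eq] at h
    exact le_of_lt h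

theorem coc_discrete (hρ : 0 < ρ) (hUD : ∀ γ ∈ Γ, nd γ ≤ ρ → γ = 1) : DiscreteTopology Γ := by
  apply discreteTopology_of_isOpen_singleton_one
  have : ({1} : Set Γ) = (fun γ : Γ => nd γ.1) ⁻¹' (Iio ρ) := by
    ext γ
    simp only [mem_singleton_iff, mem_preimage, mem_Iio]
    constructor
    · rintro rfl
      simpa [coc_nd_one] using hρ
    · intro h
      exact Subtype.ext (hUD γ.1 γ.2 h.le)
  rw [this]
  exact isOpen_Iio.preimage (coc_continuous_nd.comp continuous_subtype_val)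

theorem coc_t2 [DiscreteTopology Γ] : T2Space (G ⧸ Γ) := by
  have : ProperlyDiscontinuousSMul Γ.op G :=
    Γ.properlyDiscontinuousSMul_opposite_of_tendsto_cofinite
      (Γ.tendsto_coe_cofinite_of_discrete ⟨inferInstance⟩)
  have h : T2Space (Quotient (MulAction.orbitRel Γ.op G)) := inferInstance
  exact h

theorem coc_countable [DiscreteTopology Γ] : Countable Γ := by
  have : SecondCountableTopology Γ := inferInstance
  exact countable_of_Lindelof_of_discrete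

/-- The sets `x Γ`-saturation. -/
def coc_T (Γ : Subgroup G) (W : ℕ → Set G) (n : ℕ) : Set G := {x | ∃ γ ∈ Γ, x * γ ∈ W n}

/-- The fundamental domain. -/
def coc_F (Γ : Subgroup G) (W : ℕ → Set G) : Set G :=
  {x | ∃ n, x ∈ W n ∧ ∀ m, m < n → x ∉ coc_T Γ W m}

theorem coc_F_meas (W : ℕ → Set G) (hW : ∀ n, IsOpen (W n)) (hT : ∀ n, IsOpen (coc_T Γ W n)) :
    MeasurableSet (coc_F Γ W) := by
  have : coc_F Γ W = ⋃ n, (W n ∩ ⋂ m, ⋂ (_ : m < n), (coc_T Γ W m)ᶜ) := by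
    ext x; simp [coc_F]
  rw [this]
  exact MeasurableSet.iUnion fun n => (hW n).measurableSet.inter
    (MeasurableSet.iInter fun m => MeasurableSet.iInter fun _ => (hT m).measurableSet.compl)

theorem coc_T_open (W : ℕ → Set G) (hW : ∀ n, IsOpen (W n)) (n : ℕ) : IsOpen (coc_T Γ W n) := by
  have : coc_T Γ W n = ⋃ γ ∈ Γ, (fun x => x * γ) ⁻¹' (W n) := by
    ext x; simp [coc_T]
  rw [this]
  exact isOpen_biUnion fun γ _ => (hW n).preimage (continuous_mul_const γ)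

theorem coc_fund (W : ℕ → Set G) (hW : ∀ n, IsOpen (W n)) (hcov : ∀ x, ∃ n, x ∈ W n)
    (hinj : ∀ n, ∀ x ∈ W n, ∀ γ ∈ Γ, x * γ ∈ W n → γ = 1) :
    IsFundamentalDomain Γ.op (coc_F Γ W) hG := by
  classical
  refine IsFundamentalDomain.mk' ?_ ?_
  · apply MeasurableSet.nullMeasurableSet
    exact coc_F_meas W hW (coc_T_open W hW)
  · intro x
    have hex : ∃ n, x ∈ coc_T Γ W n := by
      obtain ⟨n, hn⟩ := hcov x
      exact ⟨n, 1, Γ.one_mem, by simpa using hn⟩
    have hTinv : ∀ m, ∀ γ ∈ Γ, x * γ ∈ coc_T Γ W m ↔ x ∈ coc_T Γ W m := by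
      intro m γ hγ
      constructor
      · rintro ⟨δ, hδ, h⟩
        exact ⟨γ * δ, Γ.mul_mem hγ hδ, by rwa [← mul_assoc]⟩
      · rintro ⟨δ, hδ, h⟩
        exact ⟨γ⁻¹ * δ, Γ.mul_mem (Γ.inv_mem hγ) hδ, by rwa [← mul_assoc, mul_inv_cancel_right]⟩
    have hmem : ∀ γ ∈ Γ, x * γ ∈ coc_F Γ W ↔ x * γ ∈ W (Nat.find hex) := by
      intro γ hγ
      simp only [coc_F, mem_ofPred_eq]
      constructor
      · rintro ⟨n, h1, h2⟩
        have h3 : n = Nat.find hex := by
          refine le_antisymm ?_ (Nat.find_min' hex ⟨γ, hγ, h1⟩)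
          by_contra hlt
          rw [not_le] at hlt
          exact h2 _ hlt ((hTinv _ γ hγ).2 (Nat.find_spec hex))
        rwa [h3] at h1
      · intro h
        refine ⟨_, h, ?_⟩
        intro m hm h4
        exact Nat.find_min hex hm ((hTinv m γ hγ).1 h4)
    obtain ⟨γ, hγ, h⟩ := Nat.find_spec hex
    refine ⟨⟨MulOpposite.op γ, by simpa using hγ⟩, ?_, ?_⟩
    · exact (hmem γ hγ).2 h
    · rintro ⟨δ, hδ⟩ h5
      have hδ' : δ.unop ∈ Γ := hδ
      have h6 : x * δ.unop ∈ W (Nat.find hex) := (hmem _ hδ').1 h5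
      have h7 := hinj _ _ h (γ⁻¹ * δ.unop) (Γ.mul_mem (Γ.inv_mem hγ) hδ')
        (by rwa [← mul_assoc, mul_inv_cancel_right])
      apply Subtype.ext
      apply MulOpposite.unop_injective
      change δ.unop = γ
      exact (inv_mul_eq_one.1 h7).symm

end quot



section meas

variable {Γ : Subgroup G}

/-- The quotient map. -/
abbrev coc_pi (Γ : Subgroup G) : G → G ⧸ Γ := QuotientGroup.mk

theorem coc_pi_eq {x y : G} : coc_pi Γ x = coc_pi Γ y ↔ ∃ γ ∈ Γ, x * γ = y := by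
  rw [QuotientGroup.eq]
  constructor
  · intro h; exact ⟨_, h, by rw [mul_inv_cancel_left]⟩
  · rintro ⟨γ, hγ, rfl⟩; rwa [inv_mul_cancel_left]

theorem coc_preimage (K : Set G) : coc_pi Γ ⁻¹' (coc_pi Γ '' K) = ⋃ g : Γ.op, g • K := by
  ext x
  simp only [mem_preimage, mem_image, mem_iUnion]
  constructor
  · rintro ⟨k, hk, h⟩
    obtain ⟨γ, hγ, rfl⟩ := coc_pi_eq.1 h
    exact ⟨⟨MulOpposite.op γ, by simpa using hγ⟩, k, hk, rfl⟩
  · rintro ⟨⟨δ, hδ⟩, k, hk, rfl⟩
    exact ⟨k, hk, coc_pi_eq.2 ⟨δ.unop, hδ, rfl⟩⟩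

theorem coc_pi_cont : Continuous (coc_pi Γ) := continuous_quotient_mk'

theorem coc_pi_open : IsOpenMap (coc_pi Γ) := QuotientGroup.isOpenMap_coe

/-- Everything we need about the quotient measure. -/
theorem coc_measure [DiscreteTopology Γ] [Countable Γ] [T2Space (G ⧸ Γ)]
    (V : Set G) (hVo : IsOpen V) (h1V : (1 : G) ∈ V) (hVB : V ⊆ Bl 1)
    (hV : ∀ b ∈ V, ∀ b' ∈ V, ∀ g : G, ∀ γ ∈ Γ, b * g * γ = b' * g → γ = 1) :
    ∃ lam : Measure (G ⧸ Γ), SMulInvariantMeasure G (G ⧸ Γ) lam ∧ IsLocallyFiniteMeasure lam ∧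
      (∀ K : Set G, MeasurableSet (coc_pi Γ '' K) → lam (coc_pi Γ '' K) ≤ hG K) ∧
      (∀ K : Set G, MeasurableSet K → MeasurableSet (coc_pi Γ '' K) → InjOn (coc_pi Γ) K →
        lam (coc_pi Γ '' K) = hG K) ∧
      (∀ N : Set (G ⧸ Γ), MeasurableSet N → hG (coc_pi Γ ⁻¹' N) = 0 → lam N = 0) := by
  classical
  have hop : Countable Γ.op := (Subgroup.equivOp Γ).symm.countable_iff.2 inferInstance
  obtain ⟨s, hsc, hs⟩ := TopologicalSpace.countable_cover_nhds
    (f := fun g : G => (fun x => x * g⁻¹) ⁻¹' V)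
    (fun g => (hVo.preimage (continuous_mul_const g⁻¹)).mem_nhds (by simpa using h1V))
  have hsne : s.Nonempty := by
    by_contra hne
    rw [not_nonempty_iff_eq_empty] at hne
    subst hne
    have : (1 : G) ∈ (univ : Set G) := mem_univ _
    rw [← hs] at this
    simp at this
  obtain ⟨e, he⟩ := hsc.exists_eq_range hsne
  set W : ℕ → Set G := fun n => (fun x => x * (e n)⁻¹) ⁻¹' V with hWdef
  have hWo : ∀ n, IsOpen (W n) := fun n => hVo.preimage (continuous_mul_const _)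
  have hcov : ∀ x, ∃ n, x ∈ W n := by
    intro x
    have : x ∈ (univ : Set G) := mem_univ _
    rw [← hs] at this
    simp only [mem_iUnion] at this
    obtain ⟨g, hg, hx⟩ := this
    rw [he] at hg
    obtain ⟨n, rfl⟩ := hg
    exact ⟨n, hx⟩
  have hinj : ∀ n, ∀ x ∈ W n, ∀ γ ∈ Γ, x * γ ∈ W n → γ = 1 := by
    intro n x hx γ hγ hxγ
    refine hV _ hx _ hxγ (e n) γ hγ ?_
    simp
  have hF : IsFundamentalDomain Γ.op (coc_F Γ W) hG := coc_fund W hWo hcov hinj
  have hFm : MeasurableSet (coc_F Γ W) := coc_F_meas W hWo (coc_T_open W hWo)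
  set lam : Measure (G ⧸ Γ) := (hG.restrict (coc_F Γ W)).map (coc_pi Γ) with hlam
  have hap : ∀ N : Set (G ⧸ Γ), MeasurableSet N → lam N = hG (coc_pi Γ ⁻¹' N ∩ coc_F Γ W) := by
    intro N hN
    rw [hlam, Measure.map_apply coc_pi_cont.measurable hN,
      Measure.restrict_apply (coc_pi_cont.measurable hN)]
  have hle : ∀ K : Set G, MeasurableSet (coc_pi Γ '' K) → lam (coc_pi Γ '' K) ≤ hG K := by
    intro K hK
    rw [hap _ hK, coc_preimage, iUnion_inter, hF.measure_eq_tsum K]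
    exact measure_iUnion_le _
  refine ⟨lam, ?_, ?_, hle, ?_, ?_⟩
  · have i1 : QuotientMeasureEqMeasurePreimage (G := Γ.op) hG lam :=
      hF.quotientMeasureEqMeasurePreimage_quotientMeasure
    have i2 : HasFundamentalDomain Γ.op G hG := ⟨⟨_, hF⟩⟩
    exact QuotientMeasureEqMeasurePreimage.smulInvariantMeasure_quotient hG
  · refine ⟨fun y => ?_⟩
    obtain ⟨g, rfl⟩ := QuotientGroup.mk_surjective y
    set U : Set G := (fun x => x * g⁻¹) ⁻¹' V with hU
    have hUo : IsOpen U := hVo.preimage (continuous_mul_const _)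
    refine ⟨coc_pi Γ '' U, (coc_pi_open U hUo).mem_nhds ⟨g, by simpa [hU] using h1V, rfl⟩, ?_⟩
    refine lt_of_le_of_lt (hle U (coc_pi_open U hUo).measurableSet) ?_
    rw [hU, measure_preimage_mul_right]
    exact lt_of_le_of_lt (measure_mono hVB) (coc_isCompact_Bl 1).measure_lt_top
  · intro K hKm hK hKi
    rw [hap _ hK, coc_preimage, iUnion_inter, hF.measure_eq_tsum K]
    apply measure_iUnion
    · intro a b hab
      apply Disjoint.mono inter_subset_left inter_subset_left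
      rw [Set.disjoint_left]
      rintro x ⟨k, hk, hka⟩ ⟨k', hk', hkb⟩
      apply hab
      have h1 : k * (a : Gᵐᵒᵖ).unop = x := hka
      have h2 : k' * (b : Gᵐᵒᵖ).unop = x := hkb
      have ha' : (a : Gᵐᵒᵖ).unop ∈ Γ := a.2
      have hb' : (b : Gᵐᵒᵖ).unop ∈ Γ := b.2
      have h3 : coc_pi Γ k = coc_pi Γ k' :=
        (coc_pi_eq.2 ⟨_, ha', h1⟩).trans (coc_pi_eq.2 ⟨_, hb', h2⟩).symm
      have h4 := hKi hk hk' h3
      subst h4
      apply Subtype.ext
      apply MulOpposite.unop_injective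
      exact mul_left_cancel (h1.trans h2.symm)
    · intro a
      exact (hKm.const_smul a).inter hFm
  · intro N hN h0
    rw [hap N hN]
    exact measure_mono_null inter_subset_left h0

end meas



section koop

variable {Γ : Subgroup G} [T2Space (G ⧸ Γ)] (lam : Measure (G ⧸ Γ))
  [SMulInvariantMeasure G (G ⧸ Γ) lam] [IsLocallyFiniteMeasure lam]

/-- Koopman data with trivial cocycle. -/
noncomputable def coc_KD : KD (G ⧸ Γ) lam where
  J := fun _ _ => 1
  pos := fun _ _ => one_pos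
  cont := continuous_const
  coc := fun _ _ _ => by norm_num
  qi := by
    intro g f hf
    simp only [ENNReal.ofReal_one, mul_one]
    exact (measurePreserving_smul g⁻¹ lam).lintegral_comp hf

theorem coc_noInv (h0 : ∀ N : Set (G ⧸ Γ), MeasurableSet N → hG (coc_pi Γ ⁻¹' N) = 0 → lam N = 0)
    (hinf : lam univ = ⊤) (R : URep (Lp ℂ 2 lam)) (hR : (coc_KD lam).IsKoop R)
    (φ : Lp ℂ 2 lam) (hφ : ∀ g, R.π g φ = φ) : φ = 0 := by
  have hm : Measurable (φ : G ⧸ Γ → ℂ) := (Lp.stronglyMeasurable φ).measurable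
  have h1 : ∀ g : G, ∀ᵐ y ∂lam, (φ : G ⧸ Γ → ℂ) (g • y) = (φ : G ⧸ Γ → ℂ) y := by
    intro g
    have h2 := hR g⁻¹ φ
    rw [hφ g⁻¹] at h2
    filter_upwards [h2] with y hy
    rw [hy]
    simp [coc_KD]
  have hS : MeasurableSet {p : G × (G ⧸ Γ) | (φ : G ⧸ Γ → ℂ) (p.1 • p.2) = (φ : G ⧸ Γ → ℂ) p.2} := by
    apply measurableSet_eq_fun
    · exact hm.comp (continuous_smul).measurable
    · exact hm.comp measurable_snd
  have h3 : ∀ᵐ y ∂lam, ∀ᵐ g ∂hG, (φ : G ⧸ Γ → ℂ) (g • y) = (φ : G ⧸ Γ → ℂ) y :=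
    (Measure.ae_ae_comm hS).1 (Eventually.of_forall h1)
  have hne : (ae lam).NeBot := by
    rw [ae_neBot]
    rintro rfl
    simp at hinf
  obtain ⟨y0, hy0⟩ := h3.exists
  obtain ⟨g0, rfl⟩ := QuotientGroup.mk_surjective y0
  set c : ℂ := (φ : G ⧸ Γ → ℂ) (QuotientGroup.mk g0) with hc
  have h4 : ∀ᵐ y ∂lam, (φ : G ⧸ Γ → ℂ) y = c := by
    have hN : MeasurableSet {y : G ⧸ Γ | ¬ (φ : G ⧸ Γ → ℂ) y = c} :=
      (measurableSet_eq_fun hm measurable_const).compl
    refine h0 _ hN ?_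
    have h5 : hG ((fun g => g * g0) ⁻¹' (coc_pi Γ ⁻¹' {y : G ⧸ Γ | ¬ (φ : G ⧸ Γ → ℂ) y = c})) = 0 := by
      exact hy0
    rwa [measure_preimage_mul_right] at h5
  have h6 : (φ : G ⧸ Γ → ℂ) =ᵐ[lam] fun _ => c := h4
  have h7 : MemLp (fun _ : G ⧸ Γ => c) 2 lam := (memLp_congr_ae h6).1 (Lp.memLp φ)
  rw [memLp_const_iff (by norm_num) (by norm_num)] at h7
  rcases h7 with h7 | h7
  · rw [Lp.eq_zero_iff_ae_eq_zero]
    rw [h7] at h6
    exact h6
  · rw [hinf] at h7
    exact absurd h7 (lt_irrefl _)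

omit [IsLocallyFiniteMeasure lam] in
/-- Matrix coefficients of indicator functions. -/
theorem coc_inner (R : URep (Lp ℂ 2 lam)) (hR : (coc_KD lam).IsKoop R) (A B : Set (G ⧸ Γ))
    (hA : MeasurableSet A) (hB : MeasurableSet B) (hA' : lam A ≠ ⊤) (hB' : lam B ≠ ⊤) (g h : G)
    (hgh : ∀ y ∈ A, (h⁻¹ * g) • y ∈ B) :
    inner ℂ (R.π h (indicatorConstLp 2 hB hB' (1:ℂ))) (R.π g (indicatorConstLp 2 hA hA' (1:ℂ))) =
      ((lam A).toReal : ℂ) := by
  rw [L2.inner_def]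
  have e1 : ∀ (g : G) (A : Set (G ⧸ Γ)) (hA : MeasurableSet A) (hA' : lam A ≠ ⊤),
      (R.π g (indicatorConstLp 2 hA hA' (1:ℂ)) : G ⧸ Γ → ℂ) =ᵐ[lam]
        fun y => A.indicator (fun _ => (1:ℂ)) (g⁻¹ • y) := by
    intro g A hA hA'
    have h2 := hR g (indicatorConstLp 2 hA hA' (1:ℂ))
    have h3 : ∀ᵐ y ∂lam, (indicatorConstLp 2 hA hA' (1:ℂ) : G ⧸ Γ → ℂ) (g⁻¹ • y) =
        A.indicator (fun _ => (1:ℂ)) (g⁻¹ • y) :=
      (measurePreserving_smul g⁻¹ lam).quasiMeasurePreserving.ae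
        (indicatorConstLp_coeFn (p := 2) (hs := hA) (hμs := hA') (c := (1:ℂ)))
    filter_upwards [h2, h3] with y hy hy2
    rw [hy, hy2]
    simp [coc_KD]
  have e2 : (fun a => inner ℂ ((R.π h (indicatorConstLp 2 hB hB' (1:ℂ)) : G ⧸ Γ → ℂ) a)
      ((R.π g (indicatorConstLp 2 hA hA' (1:ℂ)) : G ⧸ Γ → ℂ) a)) =ᵐ[lam]
      fun y => A.indicator (fun _ => (1:ℂ)) (g⁻¹ • y) := by
    filter_upwards [e1 g A hA hA', e1 h B hB hB'] with y hy hy2
    rw [hy, hy2]
    by_cases hyA : g⁻¹ • y ∈ A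
    · have hyB : h⁻¹ • y ∈ B := by
        have := hgh _ hyA
        rwa [smul_smul, mul_assoc, mul_inv_cancel, mul_one] at this
      simp [hyA, hyB]
    · simp [hyA]
  rw [integral_congr_ae e2]
  have hmp := (measurePreserving_smul g⁻¹ lam)
  have e3 : ∫ y, A.indicator (fun _ => (1:ℂ)) (g⁻¹ • y) ∂lam = ∫ y, A.indicator (fun _ => (1:ℂ)) y ∂lam :=
    MeasurePreserving.integral_comp' (f := MeasurableEquiv.smul g⁻¹) hmp (fun y => A.indicator (fun _ => (1:ℂ)) y)
  rw [e3, integral_indicator_const _ hA]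
  simp [Measure.real]

end koop



theorem coc_oneParam (f : ℝ → G) (hadd : ∀ a b, f (a + b) = f a * f b)
    (hc : Continuous fun s => nd (f s)) (R : ℝ) : ∃ N, ∀ s, |s| ≤ R → f s ∈ BP 1 N := by
  have hf0 : f 0 = 1 := by
    have h := hadd 0 0
    rw [add_zero] at h
    exact (mul_eq_left.1 h.symm)
  have hnd0 : nd (f 0) < 1 := by rw [hf0, coc_nd_one]; norm_num
  have hev : ∀ᶠ s in 𝓝 (0:ℝ), nd (f s) < 1 := hc.continuousAt.eventually_lt continuousAt_const hnd0
  obtain ⟨δ, hδ, hδs⟩ := Metric.eventually_nhds_iff.1 hev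
  obtain ⟨N, hN⟩ := exists_nat_gt (R / δ)
  refine ⟨N + 1, fun s hs => ?_⟩
  have hN1 : (0:ℝ) < (N:ℝ) + 1 := by positivity
  have hsmall : |s / ((N:ℝ) + 1)| < δ := by
    rw [abs_div, abs_of_pos hN1, div_lt_iff₀ hN1]
    have : R < δ * N := by rwa [div_lt_iff₀ hδ, mul_comm] at hN
    nlinarith
  have hb : f (s / ((N:ℝ) + 1)) ∈ Bl 1 := by
    have h := hδs (y := s / ((N:ℝ) + 1)) (by rw [Real.dist_eq, sub_zero]; exact hsmall)
    exact le_of_lt h
  have hpow : ∀ (x : ℝ) (k : ℕ), f x ^ k = f (k * x) := by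
    intro x k
    induction k with
    | zero => simp [hf0]
    | succ k ih => rw [pow_succ, ih, ← hadd]; congr 1; push_cast; ring
  have h1 := coc_BP_pow 1 (N + 1) hb
  rw [hpow] at h1
  have h2 : ((N + 1 : ℕ) : ℝ) * (s / ((N:ℝ) + 1)) = s := by
    push_cast
    field_simp
  rwa [h2] at h1

theorem coc_rot_add (h : (0 : Fin 3) ≠ 1) (a b : ℝ) :
    rot 0 1 h (a + b) = rot 0 1 h a * rot 0 1 h b := by
  apply Subtype.ext
  change rotMat 0 1 (a + b) = rotMat 0 1 a * rotMat 0 1 b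
  ext i j
  fin_cases i <;> fin_cases j <;>
    simp [rotMat, Matrix.mul_apply, Fin.sum_univ_three, Real.cos_add, Real.sin_add] <;> ring

theorem coc_D_add (t a b : ℝ) :
    D ((a + b) * t, -((a + b) * t)) = D (a * t, -(a * t)) * D (b * t, -(b * t)) := by
  apply Subtype.ext
  change Matrix.diagonal _ = Matrix.diagonal _ * Matrix.diagonal _
  rw [Matrix.diagonal_mul_diagonal]
  congr 1
  ext i
  rw [← Real.exp_add]
  congr 1
  fin_cases i <;> simp [cmp] <;> ring

theorem coc_rot_cont (h : (0 : Fin 3) ≠ 1) : Continuous fun s => nd (rot 0 1 h s) := by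
  unfold nd nrm
  refine continuous_finsetSum _ fun i _ => continuous_finsetSum _ fun j _ => ?_
  refine continuous_abs.comp ?_
  change Continuous fun s => (rotMat 0 1 s - 1) i j
  simp only [Matrix.sub_apply]
  refine Continuous.sub ?_ continuous_const
  unfold rotMat
  fin_cases i <;> fin_cases j <;> simp <;> fun_prop

theorem coc_D_cont (t : ℝ) : Continuous fun s => nd (D (s * t, -(s * t))) := by
  unfold nd nrm
  refine continuous_finsetSum _ fun i _ => continuous_finsetSum _ fun j _ => ?_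
  refine continuous_abs.comp ?_
  change Continuous fun s => (Matrix.diagonal (fun i => Real.exp (cmp (s * t, -(s * t)) i)) - 1) i j
  simp only [Matrix.sub_apply]
  refine Continuous.sub ?_ continuous_const
  fin_cases i <;> fin_cases j <;> simp [cmp, Matrix.diagonal] <;> fun_prop

theorem coc_exists_m (h : (0 : Fin 3) ≠ 1) (t : ℝ) : ∃ m : ℕ, ∀ θ θ' : ℝ, |θ| ≤ 2 * Real.pi →
    |θ'| ≤ 2 * Real.pi → (rot 0 1 h θ')⁻¹ * (D (t, -t) * rot 0 1 h θ) ∈ BP 1 m := by
  obtain ⟨N, hN⟩ := coc_oneParam (fun s => rot 0 1 h s) (coc_rot_add h) (coc_rot_cont h) (2 * Real.pi)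
  obtain ⟨M, hM⟩ := coc_oneParam (fun s => D (s * t, -(s * t))) (coc_D_add t) (coc_D_cont t) 1
  have hrot0 : rot 0 1 h 0 = 1 := by
    have e := coc_rot_add h 0 0
    rw [add_zero] at e
    exact (mul_eq_left.1 e.symm)
  have hinv : ∀ θ, (rot 0 1 h θ)⁻¹ = rot 0 1 h (-θ) := by
    intro θ
    rw [inv_eq_iff_mul_eq_one, ← coc_rot_add h, add_neg_cancel, hrot0]
  refine ⟨(N + M) + N, fun θ θ' hθ hθ' => ?_⟩
  rw [hinv]
  refine coc_BP_mul 1 N (N + M) (hN _ (by rwa [abs_neg])) (coc_BP_mul 1 M N ?_ (hN _ hθ))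
  have := hM 1 (by simp)
  simpa using this

section growth

variable {Γ : Subgroup G} [T2Space (G ⧸ Γ)] (lam : Measure (G ⧸ Γ))
  [SMulInvariantMeasure G (G ⧸ Γ) lam] [IsLocallyFiniteMeasure lam]

theorem coc_step (h0 : ∀ N : Set (G ⧸ Γ), MeasurableSet N → hG (coc_pi Γ ⁻¹' N) = 0 → lam N = 0)
    (hinf : lam univ = ⊤) : ∃ m : ℕ, ∀ n : ℕ,
      2 * (lam (coc_pi Γ '' BP 1 n)).toReal ≤ (lam (coc_pi Γ '' BP 1 (n + m))).toReal := by
  have h01 : (0 : Fin 3) ≠ 1 := by decide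
  set t : ℝ := 2 * Real.log 1000 with ht
  obtain ⟨m, hm⟩ := coc_exists_m h01 t
  refine ⟨m, fun n => ?_⟩
  obtain ⟨R, hR⟩ := koop lam (coc_KD lam)
  have hcpt : ∀ k, IsCompact (coc_pi Γ '' BP 1 k) := fun k => (coc_BP_isCompact 1 k).image coc_pi_cont
  have hms : ∀ k, MeasurableSet (coc_pi Γ '' BP 1 k) := fun k => (hcpt k).measurableSet
  have hfin : ∀ k, lam (coc_pi Γ '' BP 1 k) ≠ ⊤ := fun k => (hcpt k).measure_lt_top.ne
  set φ : Lp ℂ 2 lam := indicatorConstLp 2 (hms n) (hfin n) (1:ℂ) with hφ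
  set ψ : Lp ℂ 2 lam := indicatorConstLp 2 (hms (n + m)) (hfin (n + m)) (1:ℂ) with hψ
  have hd := dec R ⊤ isClosed_univ (fun _ _ _ => trivial)
    (fun φ _ hφ => coc_noInv lam h0 hinf R hR φ hφ) 0 1 h01 (t, -t) φ ψ trivial trivial
  have hin : ∀ θ' ∈ Set.uIcc 0 (2 * Real.pi), ∀ θ ∈ Set.uIcc 0 (2 * Real.pi),
      inner ℂ (R.π (rot 0 1 h01 θ') ψ) (R.π (D (t, -t) * rot 0 1 h01 θ) φ) =
        ((lam (coc_pi Γ '' BP 1 n)).toReal : ℂ) := by
    intro θ' hθ' θ hθ
    have hp : (0:ℝ) ≤ 2 * Real.pi := by positivity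
    rw [Set.uIcc_of_le hp] at hθ hθ'
    refine coc_inner lam R hR _ _ (hms n) (hms (n + m)) (hfin n) (hfin (n + m)) _ _ ?_
    rintro y ⟨x, hx, rfl⟩
    refine ⟨(rot 0 1 h01 θ')⁻¹ * (D (t, -t) * rot 0 1 h01 θ) * x, ?_, rfl⟩
    have := coc_BP_mul 1 m n (hm θ θ' (abs_le.2 ⟨by linarith [hθ.1], hθ.2⟩)
      (abs_le.2 ⟨by linarith [hθ'.1], hθ'.2⟩)) hx
    exact this
  have hint : (∫ θ' in (0:ℝ)..(2 * Real.pi), ∫ θ in (0:ℝ)..(2 * Real.pi),
        inner ℂ (R.π (rot 0 1 h01 θ') ψ) (R.π (D (t, -t) * rot 0 1 h01 θ) φ)) =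
      (((2 * Real.pi) * ((2 * Real.pi) * (lam (coc_pi Γ '' BP 1 n)).toReal) : ℝ) : ℂ) := by
    have e1 : (∫ θ' in (0:ℝ)..(2 * Real.pi), ∫ θ in (0:ℝ)..(2 * Real.pi),
        inner ℂ (R.π (rot 0 1 h01 θ') ψ) (R.π (D (t, -t) * rot 0 1 h01 θ) φ)) =
        ∫ θ' in (0:ℝ)..(2 * Real.pi), ∫ θ in (0:ℝ)..(2 * Real.pi),
          ((lam (coc_pi Γ '' BP 1 n)).toReal : ℂ) := by
      refine intervalIntegral.integral_congr fun θ' hθ' => ?_
      exact intervalIntegral.integral_congr fun θ hθ => hin θ' hθ' θ hθ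
    rw [e1]
    simp only [intervalIntegral.integral_const, sub_zero]
    push_cast
    simp
  rw [hint, Complex.norm_real, Real.norm_eq_abs] at hd
  have hexp : Real.exp (-|cmp (t, -t) 0 - cmp (t, -t) 1| / 4) = 1 / 1000 := by
    have e1 : cmp (t, -t) 0 - cmp (t, -t) 1 = 4 * Real.log 1000 := by
      simp [cmp, ht]; ring
    have e2 : 0 < Real.log 1000 := Real.log_pos (by norm_num)
    rw [e1, abs_of_pos (by positivity)]
    have e3 : -(4 * Real.log 1000) / 4 = -Real.log 1000 := by ring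
    rw [e3, Real.exp_neg, Real.exp_log (by norm_num)]
    norm_num
  rw [hexp] at hd
  have hn : ∀ k, ‖(indicatorConstLp 2 (hms k) (hfin k) (1:ℂ) : Lp ℂ 2 lam)‖ ^ 2 =
      (lam (coc_pi Γ '' BP 1 k)).toReal := by
    intro k
    rw [norm_indicatorConstLp (by norm_num) (by norm_num)]
    rw [norm_one, one_mul]
    simp only [Measure.real, ENNReal.toReal_ofNat]
    rw [← Real.sqrt_eq_rpow, Real.sq_sqrt ENNReal.toReal_nonneg]
  have hx := hn n
  have hy := hn (n + m)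
  rw [← hφ] at hx
  rw [← hψ] at hy
  rw [← hx] at hd ⊢
  rw [← hy]
  have hpi : 3 < Real.pi := Real.pi_gt_three
  have hx0 : 0 ≤ ‖φ‖ := norm_nonneg _
  have hy0 : 0 ≤ ‖ψ‖ := norm_nonneg _
  have h1 : 36 * ‖φ‖ ^ 2 ≤ ‖φ‖ * ‖ψ‖ := by
    have h2 : 2 * Real.pi * (2 * Real.pi * ‖φ‖ ^ 2) ≤ ‖φ‖ * ‖ψ‖ := by
      refine (le_abs_self _).trans (hd.trans (le_of_eq ?_))
      ring
    refine le_trans ?_ h2
    have h3 : 36 ≤ 2 * Real.pi * (2 * Real.pi) := by nlinarith
    nlinarith [sq_nonneg ‖φ‖]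
  rcases hx0.eq_or_lt with h | h
  · rw [← h]; simp
  · have h4 : 36 * ‖φ‖ ≤ ‖ψ‖ := by
      by_contra hlt
      rw [not_le] at hlt
      have := mul_lt_mul_of_pos_left hlt h
      nlinarith
    nlinarith

end growth



theorem coc_growth_absurd (a : ℕ → ℝ) (m p : ℕ) (C : ℝ) (h1 : 0 < a 1)
    (h2 : ∀ n, 2 * a n ≤ a (n + m)) (h3 : ∀ n, a n ≤ C * ((n:ℝ) + 1) ^ p) : False := by
  have h4 : ∀ k : ℕ, 2 ^ k * a 1 ≤ a (1 + k * m) := by
    intro k
    induction k with
    | zero => simp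
    | succ k ih =>
      have := h2 (1 + k * m)
      have e : 1 + (k + 1) * m = 1 + k * m + m := by ring
      rw [e, pow_succ]
      linarith
  have h5 : ∀ k : ℕ, a 1 ≤ (|C| * ((m:ℝ) + 2) ^ p * 2) * (((k + 1 : ℕ) : ℝ) ^ p * (1 / 2) ^ (k + 1)) := by
    intro k
    have e1 := (h4 k).trans (h3 _)
    have e2 : (((1 + k * m : ℕ) : ℝ) + 1) ≤ ((m:ℝ) + 2) * ((k:ℝ) + 1) := by
      push_cast
      nlinarith [show (0:ℝ) ≤ (m:ℝ) from Nat.cast_nonneg m, show (0:ℝ) ≤ (k:ℝ) from Nat.cast_nonneg k]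
    have e3 : C * (((1 + k * m : ℕ) : ℝ) + 1) ^ p ≤ |C| * (((m:ℝ) + 2) * ((k:ℝ) + 1)) ^ p := by
      refine mul_le_mul (le_abs_self C) (pow_le_pow_left₀ (by positivity) e2 p) (by positivity) (abs_nonneg C)
    have e4 := e1.trans e3
    rw [mul_pow] at e4
    have e5 : a 1 ≤ (|C| * (((m:ℝ) + 2) ^ p * ((k:ℝ) + 1) ^ p)) / 2 ^ k := by
      rw [le_div_iff₀ (by positivity)]
      linarith
    refine e5.trans (le_of_eq ?_)
    push_cast
    rw [pow_succ, one_div, inv_pow]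
    field_simp
  have h6 : Tendsto (fun k : ℕ => (|C| * ((m:ℝ) + 2) ^ p * 2) * (((k + 1 : ℕ) : ℝ) ^ p * (1 / 2 : ℝ) ^ (k + 1)))
      atTop (𝓝 ((|C| * ((m:ℝ) + 2) ^ p * 2) * 0)) := by
    refine Tendsto.const_mul _ ?_
    have := tendsto_pow_const_mul_const_pow_of_abs_lt_one p (r := (1/2:ℝ)) (by rw [abs_of_pos] <;> norm_num)
    exact this.comp (tendsto_add_atTop_nat 1)
  rw [mul_zero] at h6
  have h7 := ge_of_tendsto' h6 h5
  linarith

/-- COC -/
theorem cocompact_of_poly (Γ : Subgroup G) (ρ : ℝ) (hρ : 0 < ρ)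
    (hUD : ∀ g : G, ∀ γ ∈ Γ, nd (g * γ * g⁻¹) ≤ ρ → γ = 1) (p : ℕ) (C : ℝ)
    (hpoly : ∀ n : ℕ, ∃ F : Finset G, (F.card : ℝ) ≤ C * ((n:ℝ) + 1) ^ p ∧
      ∀ g ∈ BP 1 n, ∃ b ∈ Bl 1, ∃ f ∈ F, ∃ γ ∈ Γ, g = b * f * γ) :
    ∃ K : Set G, IsCompact K ∧ ∀ g : G, ∃ k ∈ K, ∃ γ ∈ Γ, g = k * γ := by
  classical
  obtain ⟨V, hVo, h1V, hVB, hVd⟩ := coc_exists_V ρ hρ
  have hd : DiscreteTopology Γ := coc_discrete hρ (fun γ hγ h => hUD 1 γ hγ (by simpa using h))
  have ht2 : T2Space (G ⧸ Γ) := coc_t2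
  have hct : Countable Γ := coc_countable
  have hV : ∀ b ∈ V, ∀ b' ∈ V, ∀ g : G, ∀ γ ∈ Γ, b * g * γ = b' * g → γ = 1 := by
    intro b hb b' hb' g γ hγ h
    refine hUD g γ hγ ?_
    have e : g * γ * g⁻¹ = b⁻¹ * b' := by
      have e1 : g * γ = b⁻¹ * (b' * g) := by rw [← h]; group
      rw [e1]; group
    rw [e]
    exact hVd b hb b' hb'
  obtain ⟨lam, hsm, hlf, hle, heq, h0⟩ := coc_measure V hVo h1V hVB hV
  have hVpos : 0 < hG V := hVo.measure_pos hG ⟨1, h1V⟩
  have hVfin : hG V < ⊤ := lt_of_le_of_lt (measure_mono hVB) (coc_isCompact_Bl 1).measure_lt_top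
  -- translates
  have hopV : ∀ g, IsOpen ((fun x => x * g⁻¹) ⁻¹' V) := fun g => hVo.preimage (continuous_mul_const _)
  have hinjV : ∀ g, InjOn (coc_pi Γ) ((fun x => x * g⁻¹) ⁻¹' V) := by
    intro g x hx y hy hxy
    obtain ⟨γ, hγ, rfl⟩ := coc_pi_eq.1 hxy
    have : γ = 1 := hV (x * g⁻¹) hx _ hy g γ hγ (by group)
    rw [this, mul_one]
  have hmeasV : ∀ g, lam (coc_pi Γ '' ((fun x => x * g⁻¹) ⁻¹' V)) = hG V := by
    intro g
    rw [heq _ (hopV g).measurableSet (coc_pi_open _ (hopV g)).measurableSet (hinjV g),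
      measure_preimage_mul_right]
  by_cases hinf : lam univ = ⊤
  · exfalso
    obtain ⟨m, hm⟩ := coc_step lam h0 hinf
    have hcpt : ∀ k, IsCompact (coc_pi Γ '' BP 1 k) := fun k => (coc_BP_isCompact 1 k).image coc_pi_cont
    refine coc_growth_absurd (fun n => (lam (coc_pi Γ '' BP 1 n)).toReal) m p
      (C * (hG (Bl 1)).toReal) ?_ hm ?_
    · have h1 : coc_pi Γ '' V ⊆ coc_pi Γ '' BP 1 1 := by
        apply image_mono
        intro g hg
        exact ⟨g, hVB hg, 1, rfl, by rw [mul_one]⟩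
      have h2 : lam (coc_pi Γ '' V) = hG V := by
        have := hmeasV 1
        simpa using this
      exact ENNReal.toReal_pos (lt_of_lt_of_le (h2 ▸ hVpos) (measure_mono h1)).ne'
        (hcpt 1).measure_lt_top.ne
    · intro n
      obtain ⟨F, hF, hF2⟩ := hpoly n
      have h1 : coc_pi Γ '' BP 1 n ⊆ ⋃ f ∈ F, coc_pi Γ '' ((fun x => x * f⁻¹) ⁻¹' Bl 1) := by
        rintro y ⟨g, hg, rfl⟩
        obtain ⟨b, hb, f, hf, γ, hγ, rfl⟩ := hF2 g hg
        simp only [mem_iUnion]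
        refine ⟨f, hf, b * f, by simpa using hb, ?_⟩
        exact coc_pi_eq.2 ⟨γ, hγ, rfl⟩
      have h2 : lam (coc_pi Γ '' BP 1 n) ≤ F.card * hG (Bl 1) := by
        refine (measure_mono h1).trans ((measure_biUnion_finset_le _ _).trans ?_)
        have h3 : ∀ f ∈ F, lam (coc_pi Γ '' ((fun x => x * f⁻¹) ⁻¹' Bl 1)) ≤ hG (Bl 1) := by
          intro f _
          refine (hle _ ?_).trans (le_of_eq (measure_preimage_mul_right _ _ _))
          have : IsCompact ((fun x => x * f⁻¹) ⁻¹' Bl 1) :=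
            (Homeomorph.mulRight f⁻¹).isCompact_preimage.2 (coc_isCompact_Bl 1)
          exact (this.image coc_pi_cont).measurableSet
        refine (Finset.sum_le_sum h3).trans (le_of_eq ?_)
        rw [Finset.sum_const, nsmul_eq_mul]
      have hBfin : hG (Bl 1) ≠ ⊤ := (coc_isCompact_Bl 1).measure_lt_top.ne
      have h3 := ENNReal.toReal_mono (ENNReal.mul_ne_top (ENNReal.natCast_ne_top _) hBfin) h2
      rw [ENNReal.toReal_mul, ENNReal.toReal_natCast] at h3
      refine h3.trans ?_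
      have h4 : (F.card : ℝ) * (hG (Bl 1)).toReal ≤ (C * ((n:ℝ) + 1) ^ p) * (hG (Bl 1)).toReal :=
        mul_le_mul_of_nonneg_right hF ENNReal.toReal_nonneg
      refine h4.trans (le_of_eq ?_)
      ring
  · -- finite volume
    set P : Finset G → Prop := fun S => (S : Set G).PairwiseDisjoint
      (fun g => coc_pi Γ '' ((fun x => x * g⁻¹) ⁻¹' V)) with hP
    obtain ⟨N, hN⟩ : ∃ N : ℕ, ∀ S, P S → S.card ≤ N := by
      obtain ⟨N, hN⟩ := exists_nat_gt (lam univ / hG V).toReal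
      refine ⟨N, fun S hS => ?_⟩
      have h1 : lam (⋃ g ∈ S, coc_pi Γ '' ((fun x => x * g⁻¹) ⁻¹' V)) = S.card * hG V := by
        rw [measure_biUnion_finset hS (fun g _ => (coc_pi_open _ (hopV g)).measurableSet)]
        rw [Finset.sum_congr rfl (fun g _ => hmeasV g), Finset.sum_const, nsmul_eq_mul]
      have h2 : (S.card : ℝ≥0∞) * hG V ≤ lam univ := h1 ▸ measure_mono (subset_univ _)
      have h3 : (S.card : ℝ≥0∞) ≤ lam univ / hG V :=
        (ENNReal.le_div_iff_mul_le (Or.inl hVpos.ne') (Or.inl hVfin.ne)).2 h2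
      have h4 : lam univ / hG V ≠ ⊤ := ENNReal.div_ne_top hinf hVpos.ne'
      have h5 := ENNReal.toReal_mono h4 h3
      rw [ENNReal.toReal_natCast] at h5
      exact_mod_cast (h5.trans hN.le)
    have hP0 : P ∅ := by simp [hP]
    obtain ⟨S, hS, hSmax⟩ : ∃ S, P S ∧ ∀ S', P S' → S'.card ≤ S.card := by
      have hex : ∃ k, ∃ S, P S ∧ S.card = k := ⟨0, ∅, hP0, rfl⟩
      have hb : ∀ k, (∃ S, P S ∧ S.card = k) → k ≤ N := by
        rintro k ⟨S, hS, rfl⟩; exact hN S hS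
      obtain ⟨S, hS, hSc⟩ := Nat.findGreatest_spec (P := fun k => ∃ S, P S ∧ S.card = k)
        (Nat.zero_le N) ⟨∅, hP0, rfl⟩
      refine ⟨S, hS, fun S' hS' => ?_⟩
      rw [hSc]
      exact Nat.le_findGreatest (hN S' hS') ⟨S', hS', rfl⟩
    have hQc : IsCompact (Bl 1) := coc_isCompact_Bl 1
    refine ⟨((Bl 1)⁻¹ * Bl 1) * (S : Set G), (hQc.inv.mul hQc).mul S.finite_toSet.isCompact, ?_⟩
    intro g
    have hfind : ∃ s ∈ S, ¬ Disjoint (coc_pi Γ '' ((fun x => x * g⁻¹) ⁻¹' V))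
        (coc_pi Γ '' ((fun x => x * s⁻¹) ⁻¹' V)) := by
      by_cases hgS : g ∈ S
      · refine ⟨g, hgS, ?_⟩
        rw [disjoint_self]
        intro hbot
        have h1 : coc_pi Γ g ∈ coc_pi Γ '' ((fun x => x * g⁻¹) ⁻¹' V) := ⟨g, by simpa using h1V, rfl⟩
        rw [hbot] at h1
        exact h1
      · by_contra hcon
        push Not at hcon
        have hP' : P (insert g S) := by
          rw [hP]
          simp only [Finset.coe_insert]
          exact hS.insert (fun s hs _ => hcon s hs)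
        have := hSmax _ hP'
        rw [Finset.card_insert_of_notMem hgS] at this
        omega
    obtain ⟨s, hs, hdis⟩ := hfind
    rw [Set.not_disjoint_iff] at hdis
    obtain ⟨y, ⟨x, hx, rfl⟩, ⟨x', hx', hxx⟩⟩ := hdis
    obtain ⟨γ, hγ, hγ2⟩ := coc_pi_eq.1 hxx
    refine ⟨((x * g⁻¹)⁻¹ * (x' * s⁻¹)) * s, ?_, γ, hγ, ?_⟩
    · exact Set.mul_mem_mul (Set.mul_mem_mul (Set.inv_mem_inv.2 (hVB hx)) (hVB hx')) hs
    · rw [← hγ2]; group



end Pool.Agent.H88.LF
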