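import Pool.Agent.H88.LF.GBB

/-!
# CONE (blueprint 10.2)

`cone_chain`: choose linear coordinates `(x,y)` of the plane with `x = cmp v i - cmp v l` and `y` = the third coordinate `cmp v m` (an isomorphism; compare norms).  Sets: `P_m = {x ≤ mδ'|y|}`, `m = 0..M`, then
`P'_m = {x ≤ 0 or |y| ≥ (1 - mδ')x}`; `v = (x,y)` with `x ≤ (m+1)δ'|y|` is within `δ'|y|` of `(x - δ'|y|, y)`; `v` with `|y| ≥ (1-(m+1)δ')x`, `x > 0`, is within `δ'x` of `(x, y ± δ'x)`.  All sets are star shaped.
-/

set_option autoImplicit false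

open MeasureTheory Set Filter
open scoped Topology

namespace Pool.Agent.H88.LF

/-- the third coordinate -/
theorem cone_third (v : ℝ × ℝ) (i l : Fin 3) (h : i ≠ l) (j : Fin 3) :
    |cmp v j| ≤ |cmp v i| + |cmp v l| := by
  have hs := cmp_sum v
  have h3 : j = i ∨ j = l ∨ cmp v j = -(cmp v i + cmp v l) := by
    fin_cases i <;> fin_cases l <;> fin_cases j <;>
      simp only [Fin.zero_eta, Fin.mk_one, Fin.reduceFinMk] at * <;>
      first
        | exact Or.inl trivial
        | exact Or.inr (Or.inl trivial)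
        | exact absurd rfl h
        | exact Or.inr (Or.inr (by linarith))
  rcases h3 with rfl | rfl | h3
  · linarith [abs_nonneg (cmp v l)]
  · linarith [abs_nonneg (cmp v i)]
  · rw [h3, abs_neg]
    exact abs_add_le _ _

theorem cone_norm (v : ℝ × ℝ) (i l : Fin 3) (h : i ≠ l) :
    ‖v‖ ≤ |cmp v i - cmp v l| + |cmp v i + cmp v l| := by
  obtain ⟨j, hj⟩ := norm_le_cmp v
  refine hj.trans ((cone_third v i l h j).trans ?_)
  rcases abs_cases (cmp v i) with h1 | h1 <;> rcases abs_cases (cmp v l) with h2 | h2 <;>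
    rcases abs_cases (cmp v i - cmp v l) with h3 | h3 <;>
    rcases abs_cases (cmp v i + cmp v l) with h4 | h4 <;> linarith [h1.1, h2.1, h3.1, h4.1]

/-- vectors with two prescribed coordinates -/
theorem cone_exists (i l : Fin 3) (h : i ≠ l) (a b : ℝ) :
    ∃ v : ℝ × ℝ, cmp v i = a ∧ cmp v l = b := by
  obtain ⟨v, hv⟩ := exists_cmp (fun j => if j = i then a else if j = l then b else -(a + b)) (by
    fin_cases i <;> fin_cases l <;> first | exact absurd rfl h | skip
    all_goals
      simp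
      try ring)
  refine ⟨v, ?_, ?_⟩
  · rw [hv]
    simp
  · rw [hv]
    simp [h.symm]

/-- From a half plane to the plane by finitely many small rotations. -/
theorem cone_chain (i l : Fin 3) (h : i ≠ l) (δ : ℝ) (hδ : 0 < δ) :
    ∃ (M : ℕ) (P : ℕ → Set (ℝ × ℝ)), P 0 = {v | cmp v i ≤ cmp v l} ∧ P M = univ ∧
      (∀ m, ∀ v ∈ P m, ∀ c : ℝ, 0 ≤ c → c ≤ 1 → c • v ∈ P m) ∧
      ∀ m, m < M → ∀ v ∈ P (m + 1), ∃ u ∈ P m, ‖v - u‖ ≤ δ * ‖v‖ := by
  set δ' : ℝ := δ / 16 with hδ'
  have hδ'0 : 0 < δ' := by positivity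
  obtain ⟨M, hM⟩ := exists_nat_ge (1 / δ')
  have hM' : 1 ≤ (M : ℝ) * δ' := by
    rw [div_le_iff₀ hδ'0] at hM
    exact hM
  refine ⟨M, fun m => {v | cmp v i - cmp v l ≤
    ((m : ℝ) * δ') * (|cmp v i - cmp v l| + |cmp v i + cmp v l|)}, ?_, ?_, ?_, ?_⟩
  · ext v
    simp
  · ext v
    simp only [mem_univ, iff_true]
    show cmp v i - cmp v l ≤ ((M : ℝ) * δ') * (|cmp v i - cmp v l| + |cmp v i + cmp v l|)
    have h1 : 0 ≤ |cmp v i - cmp v l| + |cmp v i + cmp v l| := by positivity
    have h2 := le_abs_self (cmp v i - cmp v l)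
    have h3 := abs_nonneg (cmp v i + cmp v l)
    nlinarith
  · intro m v hv c hc _
    have hv' : cmp v i - cmp v l ≤
      ((m : ℝ) * δ') * (|cmp v i - cmp v l| + |cmp v i + cmp v l|) := hv
    show cmp (c • v) i - cmp (c • v) l ≤
      ((m : ℝ) * δ') * (|cmp (c • v) i - cmp (c • v) l| + |cmp (c • v) i + cmp (c • v) l|)
    rw [cmp_smul, cmp_smul, ← mul_sub, ← mul_add, abs_mul, abs_mul, abs_of_nonneg hc]
    have := mul_le_mul_of_nonneg_left hv' hc
    linarith
  · intro m _ v hv
    have hv' : cmp v i - cmp v l ≤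
      (((m + 1 : ℕ) : ℝ) * δ') * (|cmp v i - cmp v l| + |cmp v i + cmp v l|) := hv
    push_cast at hv'
    set X := cmp v i - cmp v l with hX
    set Y := cmp v i + cmp v l with hY
    set t := δ' * (|X| + |Y|) with ht
    have ht0 : 0 ≤ t := by positivity
    -- the new second coordinate
    obtain ⟨Y', hY1, hY2⟩ : ∃ Y', |Y'| = |Y| + t ∧ |Y - Y'| ≤ t := by
      rcases le_total 0 Y with h0 | h0
      · refine ⟨Y + t, ?_, ?_⟩
        · rw [abs_of_nonneg (by linarith), abs_of_nonneg h0]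
        · rw [sub_add_cancel_left, abs_neg, abs_of_nonneg ht0]
      · refine ⟨Y - t, ?_, ?_⟩
        · rw [abs_of_nonpos (by linarith), abs_of_nonpos h0]
          ring
        · rw [sub_sub_cancel, abs_of_nonneg ht0]
    obtain ⟨u, hu1, hu2⟩ := cone_exists i l h ((Y' + (X - t)) / 2) ((Y' - (X - t)) / 2)
    have huX : cmp u i - cmp u l = X - t := by rw [hu1, hu2]; ring
    have huY : cmp u i + cmp u l = Y' := by rw [hu1, hu2]; ring
    refine ⟨u, ?_, ?_⟩
    · show cmp u i - cmp u l ≤ ((m : ℝ) * δ') * (|cmp u i - cmp u l| + |cmp u i + cmp u l|)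
      rw [huX, huY, hY1]
      have hm : 0 ≤ (m : ℝ) * δ' := by positivity
      rcases le_total 0 (X - t) with h0 | h0
      · rw [abs_of_nonneg h0]
        have hXp : 0 ≤ X := by linarith
        have h5 : X - t + (|Y| + t) = |X| + |Y| := by rw [abs_of_nonneg hXp]; ring
        rw [h5]
        have h6 : (((m : ℝ) + 1) * δ') * (|X| + |Y|) = (m : ℝ) * δ' * (|X| + |Y|) + t := by
          rw [ht]; ring
        linarith
      · have h7 : 0 ≤ (m : ℝ) * δ' * (|X - t| + (|Y| + t)) := by positivity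
        linarith
    · have h8 := cone_norm (v - u) i l h
      have h9 : ∀ j, cmp (v - u) j = cmp v j - cmp u j := by
        intro j
        rw [sub_eq_add_neg, cmp_add, cmp_neg, sub_eq_add_neg]
      rw [h9, h9] at h8
      have h10 : cmp v i - cmp u i - (cmp v l - cmp u l) = t := by
        have : cmp v i - cmp v l - (cmp u i - cmp u l) = t := by rw [huX, ← hX]; ring
        linarith
      have h11 : cmp v i - cmp u i + (cmp v l - cmp u l) = Y - Y' := by
        have : cmp v i + cmp v l - (cmp u i + cmp u l) = Y - Y' := by rw [huY, ← hY]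
        linarith
      rw [h10, h11, abs_of_nonneg ht0] at h8
      have h12 : |X| ≤ 4 * ‖v‖ := by
        refine (abs_sub _ _).trans ?_
        linarith [abs_cmp_le v i, abs_cmp_le v l]
      have h13 : |Y| ≤ 4 * ‖v‖ := by
        refine (abs_add_le _ _).trans ?_
        linarith [abs_cmp_le v i, abs_cmp_le v l]
      have h14 : t ≤ δ' * (8 * ‖v‖) := by
        rw [ht]
        exact mul_le_mul_of_nonneg_left (by linarith) hδ'0.le
      have h15 : δ' * (8 * ‖v‖) = δ * ‖v‖ / 2 := by rw [hδ']; ring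
      linarith

end Pool.Agent.H88.LF
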