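import Pool.Agent.H88.LF.FAME
import Pool.Agent.H88.LF.CONE

/-!
# FCR (blueprint 10.2)
-/

set_option autoImplicit false

open MeasureTheory Set Filter
open scoped Topology

namespace Pool.Agent.H88.LF

/-- Con is invariant under root groups among good elements: on the half plane `v_i ≤ v_l`: `D v * U = U' * D v`, `U'` in a compact set, `bd`; then `cone_chain` and `Fam.ext`. -/
theorem Fam.con_root {W : G → ℝ → ℝ} {a b : ℝ} (hW : Fam W a b) (ε : ℝ) (hε : 0 < ε) (s0 : ℝ)
    (hs0 : s0 ∈ Icc a b) (i l : Fin 3) (h : i ≠ l) (s : ℝ) (g : G) (hg : g ∈ fCon W a b ε)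
    (hu : U i l h s * g ∈ fGood W s0 ε) : U i l h s * g ∈ fCon W a b ε := by
  obtain ⟨δ, hδ, -, hext⟩ := hW.ext ε hε s0 hs0
  obtain ⟨M, P, hP0, hPM, hstar, hnear⟩ := cone_chain i l h δ hδ
  have key : ∀ m, m ≤ M → ∃ C1 : ℝ, ∀ v ∈ P m,
      fLen W a b (D v * (U i l h s * g)) ≤ C1 * Real.exp (-ε * ‖v‖) := by
    intro m
    induction m with
    | zero =>
      intro _
      obtain ⟨C, hC⟩ := hg
      obtain ⟨B, hB, hbd⟩ := hW.bd _ ((isCompact_Icc (a := -|s|) (b := |s|)).image
        (continuous_U i l h))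
      refine ⟨B * C, fun v hv => ?_⟩
      rw [hP0] at hv
      have hv' : cmp v i - cmp v l ≤ 0 := by
        have : cmp v i ≤ cmp v l := hv
        linarith
      have e : D v * (U i l h s * g) =
          U i l h (Real.exp (cmp v i - cmp v l) * s) * (D v * g) := by
        rw [← mul_assoc, D_mul_U, mul_assoc]
      have hmem : U i l h (Real.exp (cmp v i - cmp v l) * s) ∈
          (fun s => U i l h s) '' Icc (-|s|) |s| := by
        refine ⟨_, ?_, rfl⟩
        have h1 : |Real.exp (cmp v i - cmp v l) * s| ≤ |s| := by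
          rw [abs_mul, abs_of_pos (Real.exp_pos _)]
          have := Real.exp_le_one_iff.2 hv'
          nlinarith [abs_nonneg s]
        exact abs_le.1 h1
      have h2 := FAME_len_le hW (D v * (U i l h s * g)) (D v * g) B
        (fun t ht => by rw [e]; exact hbd _ hmem _ t ht)
      refine h2.trans ?_
      rw [mul_assoc]
      exact mul_le_mul_of_nonneg_left (hC v) hB.le
    | succ m ih =>
      intro hm
      exact hext (P m) (P (m + 1)) (hstar (m + 1)) (hnear m (by omega)) _ hu (ih (by omega))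
  obtain ⟨C1, hC1⟩ := key M le_rfl
  exact ⟨C1, fun v => hC1 v (by rw [hPM]; exact mem_univ v)⟩

end Pool.Agent.H88.LF
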