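import Pool.Agent.H88.LF.FAM

/-!
# FSH (blueprint 10.1)
-/

set_option autoImplicit false

open MeasureTheory Set Filter
open scoped Topology

namespace Pool.Agent.H88.LF

/-- FSH: bound of the length by a bound of the function -/
theorem fsh_len {W : G → ℝ → ℝ} {a b : ℝ} (hab : a ≤ b) {g : G} {M : ℝ}
    (hpos : ∀ s, s ∈ Icc a b → 0 < W g s) (h : ∀ s ∈ Icc a b, W g s ≤ M) :
    fLen W a b g ≤ M * (b - a) := by
  have h1 : ‖∫ s in a..b, W g s‖ ≤ M * |b - a| := by
    refine intervalIntegral.norm_integral_le_of_norm_le_const (fun s hs => ?_)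
    rw [uIoc_of_le hab] at hs
    have hs' : s ∈ Icc a b := ⟨hs.1.le, hs.2⟩
    rw [Real.norm_eq_abs, abs_of_pos (hpos s hs')]
    exact h s hs'
  rw [abs_of_nonneg (by linarith)] at h1
  exact (le_abs_self _).trans h1

/-- FSH: geometric sums along a ray -/
theorem fsh_sum {ε : ℝ} (hε : 0 < ε) (m : ℕ) :
    ∑ k ∈ Finset.range m, Real.exp (-ε * (k / 2)) ≤ (1 - Real.exp (-ε / 2))⁻¹ := by
  have h0 : 0 ≤ Real.exp (-ε / 2) := (Real.exp_pos _).le
  have h1 : Real.exp (-ε / 2) < 1 := by
    rw [Real.exp_lt_one_iff]; linarith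
  have h2 : ∀ k : ℕ, Real.exp (-ε * (k / 2)) = Real.exp (-ε / 2) ^ k := by
    intro k
    rw [← Real.exp_nat_mul]
    congr 1
    ring
  rw [Finset.sum_congr rfl (fun k _ => h2 k), ← tsum_geometric_of_lt_one h0 h1]
  exact (summable_geometric_of_lt_one h0 h1).sum_le_tsum _ (fun k _ => pow_nonneg h0 k)

/-- (10.1) Short segments are contracted by a set of positive measure.  Let `g ∈ Bl ρ` with `W (D v g) s0 ≤ R e^{-ε‖v‖}` and `b - a` small (relative to `R`, the constants of `Fam` for `D u`, `‖u‖≤1`, and the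
distortion `W g s ≤ C2 W g s0` at `g ∈ Bl ρ`): induction along the ray to `v`. -/
theorem Fam.short {W : G → ℝ → ℝ} {a0 b0 : ℝ} (ε : ℝ) (hε : 0 < ε) (ρ R C1 C2 : ℝ)
    (hR : 0 < R) (hC1 : 0 < C1) (hC2 : 0 < C2) (hpos : ∀ g s, s ∈ Icc a0 b0 → 0 < W g s)
    (hcont : ContinuousOn (fun p : G × ℝ => W p.1 p.2) (univ ×ˢ Icc a0 b0))
    (hdist : ∀ (a b : ℝ), a ≤ b → a0 ≤ a → b ≤ b0 → ∀ (u : ℝ × ℝ) (g : G) (s s' : ℝ), ‖u‖ ≤ 1 →
      s ∈ Icc a b → s' ∈ Icc a b →
      |(Real.log (W (D u * g) s) - Real.log (W g s)) -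
        (Real.log (W (D u * g) s') - Real.log (W g s'))| ≤ C1 * fLen W a b g)
    (hC2' : ∀ g ∈ Bl ρ, ∀ s ∈ Icc a0 b0, ∀ s' ∈ Icc a0 b0, W g s ≤ C2 * W g s') :
    ∃ d : ℝ, 0 < d ∧ ∀ (a b : ℝ), a ≤ b → a0 ≤ a → b ≤ b0 → b - a ≤ d → ∀ s0 ∈ Icc a b,
      ∀ g ∈ Bl ρ, (∀ v : ℝ × ℝ, W (D v * g) s0 ≤ R * Real.exp (-ε * ‖v‖)) → g ∈ fCon W a b ε := by
  have he1 : Real.exp (-ε / 2) < 1 := by rw [Real.exp_lt_one_iff]; linarith
  have hS0 : 0 < (1 - Real.exp (-ε / 2))⁻¹ := inv_pos.2 (by linarith)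
  set S := (1 - Real.exp (-ε / 2))⁻¹ with hS
  set K := R * C2 * Real.exp 1 with hK
  have hK0 : 0 < K := by positivity
  refine ⟨(C1 * K * S)⁻¹, by positivity, ?_⟩
  intro a b hab ha0 hb0 hd s0 hs0 g hg hgood
  have hsub : Icc a b ⊆ Icc a0 b0 := Icc_subset_Icc ha0 hb0
  refine ⟨K * (b - a), fun v => ?_⟩
  -- the steps
  set N : ℕ := ⌈‖v‖⌉₊ with hN
  rcases Nat.eq_zero_or_pos N with hN0 | hN0
  · -- `v = 0`
    have hv0 : ‖v‖ ≤ 0 := Nat.ceil_eq_zero.1 hN0
    have hv : v = 0 := norm_le_zero_iff.1 hv0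
    subst hv
    rw [D_zero, one_mul, norm_zero, mul_zero, Real.exp_zero, mul_one]
    refine fsh_len hab (fun s hs => hpos g s (hsub hs)) (fun s hs => ?_)
    have h1 := hC2' g hg s (hsub hs) s0 (hsub hs0)
    have h2 := hgood 0
    rw [D_zero, one_mul, norm_zero, mul_zero, Real.exp_zero, mul_one] at h2
    have h3 : (1 : ℝ) ≤ Real.exp 1 := Real.one_le_exp (by norm_num)
    calc W g s ≤ C2 * W g s0 := h1
      _ ≤ C2 * R := by gcongr
      _ = R * C2 * 1 := by ring
      _ ≤ K := by rw [hK]; gcongr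
  have hNr : (0 : ℝ) < N := by exact_mod_cast hN0
  have hvN : ‖v‖ ≤ N := Nat.le_ceil _
  set x : ℕ → ℝ × ℝ := fun m => ((m : ℝ) / N) • v with hx
  have hxn : ∀ m : ℕ, ‖x m‖ = (m : ℝ) / N * ‖v‖ := by
    intro m
    rw [hx]
    simp only
    rw [norm_smul, Real.norm_eq_abs, abs_of_nonneg (by positivity)]
  have hstep : ∀ m : ℕ, ‖x (m + 1) - x m‖ ≤ 1 := by
    intro m
    have h1 : x (m + 1) - x m = ((1 : ℝ) / N) • v := by
      rw [hx]
      simp only
      rw [← sub_smul]
      congr 1
      push_cast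
      ring
    rw [h1, norm_smul, Real.norm_eq_abs, abs_of_nonneg (by positivity), div_mul_eq_mul_div, one_mul,
      div_le_one hNr]
    exact hvN
  have hxhalf : ∀ m : ℕ, m < N → (m : ℝ) / 2 ≤ ‖x m‖ := by
    intro m hm
    rcases Nat.eq_zero_or_pos m with h0 | h0
    · subst h0
      simp
    · have hN2 : 2 ≤ N := by omega
      have hv1 : 1 ≤ ‖v‖ := by
        by_contra hcon
        have : N ≤ 1 := Nat.ceil_le.2 (by push_cast; linarith)
        omega
      have hNv : (N : ℝ) ≤ 2 * ‖v‖ := by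
        have := Nat.ceil_lt_add_one (norm_nonneg v)
        rw [← hN] at this
        linarith
      rw [hxn, div_mul_eq_mul_div, div_le_div_iff₀ (by norm_num) hNr]
      have : (0 : ℝ) ≤ m := Nat.cast_nonneg m
      nlinarith
  -- log ratios
  have hratio0 : ∀ s ∈ Icc a b, Real.log (W g s) - Real.log (W g s0) ≤ Real.log C2 := by
    intro s hs
    have h1 := hC2' g hg s (hsub hs) s0 (hsub hs0)
    have h2 := Real.log_le_log (hpos g s (hsub hs)) h1
    rw [Real.log_mul hC2.ne' (hpos g s0 (hsub hs0)).ne'] at h2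
    linarith
  have key : ∀ m : ℕ, m ≤ N → ∀ s ∈ Icc a b,
      Real.log (W (D (x m) * g) s) - Real.log (W (D (x m) * g) s0) ≤
        Real.log C2 + C1 * ∑ k ∈ Finset.range m, fLen W a b (D (x k) * g) := by
    intro m
    induction m with
    | zero =>
      intro _ s hs
      have : x 0 = 0 := by rw [hx]; simp
      rw [this, D_zero, one_mul, Finset.range_zero, Finset.sum_empty, mul_zero, add_zero]
      exact hratio0 s hs
    | succ m ih =>
      intro hm s hs
      have h1 := ih (by omega) s hs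
      have h2 := hdist a b hab ha0 hb0 (x (m + 1) - x m) (D (x m) * g) s s0 (hstep m) hs hs0
      rw [← mul_assoc, ← D_add, sub_add_cancel] at h2
      have h3 := (abs_le.1 h2).2
      rw [Finset.sum_range_succ, mul_add]
      linarith
  -- bound of the lengths by strong induction
  have hlen : ∀ m : ℕ, m ≤ N →
      fLen W a b (D (x m) * g) ≤ K * Real.exp (-ε * ‖x m‖) * (b - a) := by
    intro m
    induction m using Nat.strong_induction_on with
    | _ m ih =>
      intro hm
      refine fsh_len hab (fun s hs => hpos _ s (hsub hs)) (fun s hs => ?_)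
      have h1 := key m hm s hs
      have h2 : C1 * ∑ k ∈ Finset.range m, fLen W a b (D (x k) * g) ≤ 1 := by
        have h3 : ∑ k ∈ Finset.range m, fLen W a b (D (x k) * g) ≤ K * (b - a) * S := by
          calc ∑ k ∈ Finset.range m, fLen W a b (D (x k) * g)
              ≤ ∑ k ∈ Finset.range m, K * (b - a) * Real.exp (-ε * (k / 2)) := by
                refine Finset.sum_le_sum (fun k hk => ?_)
                have hk' := Finset.mem_range.1 hk
                refine (ih k hk' (by omega)).trans ?_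
                have h4 : Real.exp (-ε * ‖x k‖) ≤ Real.exp (-ε * (k / 2)) := by
                  refine Real.exp_le_exp.2 ?_
                  have := hxhalf k (by omega)
                  nlinarith
                have h5 : 0 ≤ b - a := by linarith
                calc K * Real.exp (-ε * ‖x k‖) * (b - a) ≤ K * Real.exp (-ε * (k / 2)) * (b - a) := by
                      gcongr
                  _ = K * (b - a) * Real.exp (-ε * (k / 2)) := by ring
            _ = K * (b - a) * ∑ k ∈ Finset.range m, Real.exp (-ε * (k / 2)) := by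
                rw [Finset.mul_sum]
            _ ≤ K * (b - a) * S := by
                have h5 : 0 ≤ b - a := by linarith
                exact mul_le_mul_of_nonneg_left (fsh_sum hε m) (by positivity)
        calc C1 * ∑ k ∈ Finset.range m, fLen W a b (D (x k) * g) ≤ C1 * (K * (b - a) * S) :=
              mul_le_mul_of_nonneg_left h3 hC1.le
          _ = (C1 * K * S) * (b - a) := by ring
          _ ≤ (C1 * K * S) * (C1 * K * S)⁻¹ := by gcongr
          _ = 1 := mul_inv_cancel₀ (by positivity)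
      have hp := hpos (D (x m) * g) s (hsub hs)
      have hp0 := hpos (D (x m) * g) s0 (hsub hs0)
      have h6 : Real.log (W (D (x m) * g) s) ≤
          Real.log (C2 * Real.exp 1 * W (D (x m) * g) s0) := by
        rw [Real.log_mul (by positivity) hp0.ne', Real.log_mul hC2.ne' (Real.exp_pos 1).ne',
          Real.log_exp]
        linarith
      have h7 := (Real.log_le_log_iff hp (by positivity)).1 h6
      calc W (D (x m) * g) s ≤ C2 * Real.exp 1 * W (D (x m) * g) s0 := h7
        _ ≤ C2 * Real.exp 1 * (R * Real.exp (-ε * ‖x m‖)) := by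
            gcongr
            exact hgood (x m)
        _ = K * Real.exp (-ε * ‖x m‖) := by rw [hK]; ring
  have hxN : x N = v := by
    rw [hx]
    simp only
    rw [div_self hNr.ne', one_smul]
  have h8 := hlen N le_rfl
  rw [hxN] at h8
  calc fLen W a b (D v * g) ≤ K * Real.exp (-ε * ‖v‖) * (b - a) := h8
    _ = K * (b - a) * Real.exp (-ε * ‖v‖) := by ring

end Pool.Agent.H88.LF
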