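import Pool.Agent.H88.LF.GBC

/-!
# GBD: Haar measure of `G`, unimodularity

The modular character of `G` is a homomorphism to a commutative group, so trivial
(`Mathlib.MeasureTheory.Group.ModularCharacter`, `hom_trivial`).
-/

set_option autoImplicit false

open MeasureTheory Set Filter
open scoped Topology ENNReal

namespace Pool.Agent.H88.LF

theorem gbd_modular (g : G) : Measure.modularCharacterFun g = 1 := by
  have h := hom_trivial (Measure.modularCharacter (G := G)).toHomUnits g
  have h2 := congrArg Units.val h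
  exact h2

instance instRightInv : (hG).IsMulRightInvariant := by
  refine ⟨fun g => ?_⟩
  have h1 : Measure.haarScalarFactor (Measure.map (· * g) hG) hG = 1 := by
    rw [← Measure.modularCharacterFun_eq_haarScalarFactor hG g, gbd_modular]
  rw [Measure.isMulLeftInvariant_eq_smul (Measure.map (· * g) hG) hG, h1, one_smul]

instance instInvInv : (hG).IsInvInvariant := by
  constructor
  set μ : Measure G := hG with hμ
  let c : ℝ≥0∞ := Measure.haarScalarFactor μ.inv μ
  have hc : μ.inv = c • μ := Measure.isMulLeftInvariant_eq_smul μ.inv μ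
  have h0 : Measure.map Inv.inv (Measure.map Inv.inv μ) = c ^ 2 • μ := by
    rw [← Measure.inv_def μ, hc, Measure.map_smul, ← Measure.inv_def μ, hc, smul_smul, pow_two]
  have μeq : μ = c ^ 2 • μ := by
    rw [Measure.map_map continuous_inv.measurable continuous_inv.measurable] at h0
    simpa only [inv_involutive, Function.Involutive.comp_self, Measure.map_id] using h0
  have K : TopologicalSpace.PositiveCompacts G := Classical.arbitrary _
  have h1 : c ^ 2 * μ K = 1 ^ 2 * μ K := by
    conv_rhs => rw [μeq]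
    simp
  have h2 : c ^ 2 = 1 ^ 2 :=
    (ENNReal.mul_left_inj (Measure.measure_pos_of_nonempty_interior _ K.interior_nonempty).ne'
          K.isCompact.measure_lt_top.ne).1 h1
  have h3 : c = 1 := (ENNReal.pow_right_strictMono two_ne_zero).injective h2
  rw [hc, h3, one_smul]

theorem hG_Bl_lt_top (r : ℝ) : hG (Bl r) < ∞ := (isCompact_Bl r).measure_lt_top

theorem hG_Bl_pos {r : ℝ} (hr : 0 < r) : 0 < hG (Bl r) :=
  Measure.measure_pos_of_mem_nhds hG (Bl_mem_nhds hr)

/-- Almost everywhere statements are stable under left translation. -/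
theorem ae_mul_left (g : G) {p : G → Prop} (h : ∀ᵐ x ∂hG, p x) : ∀ᵐ x ∂hG, p (g * x) :=
  (measurePreserving_mul_left hG g).quasiMeasurePreserving.ae h

/-- Almost everywhere statements are stable under right translation. -/
theorem ae_mul_right (g : G) {p : G → Prop} (h : ∀ᵐ x ∂hG, p x) : ∀ᵐ x ∂hG, p (x * g) :=
  (measurePreserving_mul_right hG g).quasiMeasurePreserving.ae h

/-- A property which holds almost everywhere in all translates of a ball holds almost everywhere. -/
theorem ae_of_ae_Bl {r : ℝ} (hr : 0 < r) {p : G → Prop}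
    (h : ∀ g : G, ∀ᵐ x ∂(hG.restrict (Bl r)), p (x * g)) : ∀ᵐ x ∂hG, p x := by
  have h1 : ∀ g : G, ∀ᵐ x ∂hG, x * g⁻¹ ∈ Bl r → p x := by
    intro g
    have h2 := (ae_restrict_iff' (measurableSet_Bl r)).1 (h g)
    have h3 := ae_mul_right g⁻¹ h2
    filter_upwards [h3] with x hx hx2
    have := hx hx2
    rwa [inv_mul_cancel_right] at this
  have h4 : ∀ g : G, {x : G | x * g⁻¹ ∈ Bl r} ∈ 𝓝 g := by
    intro g
    have h5 : Tendsto (fun x : G => x * g⁻¹) (𝓝 g) (𝓝 (g * g⁻¹)) :=
      (continuous_mul_const g⁻¹).tendsto g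
    rw [mul_inv_cancel] at h5
    exact h5 (Bl_mem_nhds hr)
  obtain ⟨t, ht, hcov⟩ := TopologicalSpace.countable_cover_nhds h4
  have h6 : ∀ᵐ x ∂hG, ∀ g ∈ t, x * g⁻¹ ∈ Bl r → p x :=
    (ae_ball_iff ht).2 fun g _ => h1 g
  filter_upwards [h6] with x hx
  have hx2 : x ∈ ⋃ g ∈ t, {x : G | x * g⁻¹ ∈ Bl r} := by rw [hcov]; trivial
  obtain ⟨g, hg, hxg⟩ := Set.mem_iUnion₂.1 hx2
  exact hx g hg hxg

theorem lintegral_mul_left (f : G → ℝ≥0∞) (g : G) : ∫⁻ x, f (g * x) ∂hG = ∫⁻ x, f x ∂hG :=
  lintegral_mul_left_eq_self f g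

theorem lintegral_mul_right (f : G → ℝ≥0∞) (g : G) :
    ∫⁻ x, f (x * g) ∂hG = ∫⁻ x, f x ∂hG :=
  lintegral_mul_right_eq_self f g

end Pool.Agent.H88.LF
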