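import Pool.Agent.H88.LF.FBC
import Pool.Agent.H88.LF.GBD

/-!
# GOOD: consequences of (C*)

Sum (C*) over `v ∈ ℤ²` with weight `e^{ε‖v‖/2}` (Markov): `hG {g ∈ Bl ρ : ∃ v ∈ ℤ², J(D v g,x)^s > R^s e^{-ε‖v‖/2}} ≤ R^{-s} ∑_v C e^{-ε‖v‖/2} → 0` as `R → ∞`, uniformly in `x`.
For general `v` round to `ℤ²` (`J(D u,·)` bounded for `‖u‖ ≤ 1`).  The rate for `J` is `ε/(2s)`, or anything smaller; take it `≤ 1`.
`good_ae`: a.e. `g ∈ Bl ρ` is good for `y = g0 x`; `J(D v g, g0 x) = J(D v g g0, x)/J(g0,x)`; `ae_of_ae_Bl`.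
-/

set_option autoImplicit false

open MeasureTheory Set Filter
open scoped Topology ENNReal

namespace Pool.Agent.H88.LF

theorem GOOD_summable (c : ℝ) (hc : 0 < c) :
    Summable (fun v : ℤ × ℤ => Real.exp (-c * ‖((v.1 : ℝ), (v.2 : ℝ))‖)) := by
  have h1 : Summable (fun n : ℤ => Real.exp (-(c / 2) * |(n : ℝ)|)) := by
    have h2 : Summable (fun n : ℕ => Real.exp ((n : ℝ) * (-(c / 2)))) :=
      Real.summable_exp_nat_mul_iff.mpr (by linarith)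
    apply Summable.of_nat_of_neg
    · refine h2.congr fun n => ?_
      simp [mul_comm]
    · refine h2.congr fun n => ?_
      simp [mul_comm]
  have h3 := h1.mul_of_nonneg h1 (fun n => (Real.exp_pos _).le) (fun n => (Real.exp_pos _).le)
  refine Summable.of_nonneg_of_le (fun v => (Real.exp_pos _).le) (fun v => ?_) h3
  rw [← Real.exp_add]
  apply Real.exp_le_exp.mpr
  have h4 : |(v.1 : ℝ)| ≤ ‖((v.1 : ℝ), (v.2 : ℝ))‖ := norm_fst_le ((v.1 : ℝ), (v.2 : ℝ))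
  have h5 : |(v.2 : ℝ)| ≤ ‖((v.1 : ℝ), (v.2 : ℝ))‖ := norm_snd_le ((v.1 : ℝ), (v.2 : ℝ))
  nlinarith

variable {X : Type} [MetricSpace X] [CompactSpace X] [MulAction G X] [ContinuousSMul G X]

theorem GOOD_cont {S : FB X} (T : TN S) (v : ℝ × ℝ) (x : X) :
    Continuous (fun g : G => T.J (D v * g) x) := by
  have h1 : Continuous (fun g : G => (D v * g, x)) :=
    (continuous_const_mul (D v)).prodMk continuous_const
  exact T.continuous_J.comp h1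

theorem GOOD_markov {S : FB X} (T : TN S) {s ε0 C ρ0 : ℝ} (hs : 0 < s) (hC : 0 < C)
    (h : ∀ (x : X) (v : ℝ × ℝ), ∫⁻ g in Bl ρ0, ENNReal.ofReal (T.J (D v * g) x ^ s) ∂hG ≤
      ENNReal.ofReal (C * Real.exp (-ε0 * ‖v‖)))
    (ε : ℝ) (hε : s * ε ≤ ε0 / 2) (R : ℝ) (hR : 0 < R) (ρ : ℝ) (hρ : ρ ≤ ρ0) (x : X)
    (v : ℝ × ℝ) :
    hG {g | g ∈ Bl ρ ∧ R * Real.exp (-ε * ‖v‖) < T.J (D v * g) x} ≤
      ENNReal.ofReal (C / R ^ s) * ENNReal.ofReal (Real.exp (-(ε0 / 2) * ‖v‖)) := by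
  set a : ℝ := (R * Real.exp (-ε * ‖v‖)) ^ s with ha
  have hRs : 0 < R ^ s := Real.rpow_pos_of_pos hR s
  have ha0 : 0 < a := Real.rpow_pos_of_pos (by positivity) s
  have hae : a = R ^ s * Real.exp (-(s * ε) * ‖v‖) := by
    rw [ha, Real.mul_rpow hR.le (Real.exp_pos _).le, ← Real.exp_mul]
    congr 2
    ring
  have hmeas : Measurable (fun g : G => ENNReal.ofReal (T.J (D v * g) x ^ s)) :=
    (((GOOD_cont T v x).rpow_const (fun g => Or.inr hs.le)).measurable).ennreal_ofReal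
  have hsub : {g | g ∈ Bl ρ ∧ R * Real.exp (-ε * ‖v‖) < T.J (D v * g) x} ⊆
      {g | ENNReal.ofReal a ≤ ENNReal.ofReal (T.J (D v * g) x ^ s)} ∩ Bl ρ0 := by
    rintro g ⟨h1, h2⟩
    refine ⟨ENNReal.ofReal_le_ofReal ?_, Bl_mono hρ h1⟩
    exact Real.rpow_le_rpow (by positivity) h2.le hs.le
  refine (measure_mono hsub).trans ?_
  rw [← Measure.restrict_apply' (measurableSet_Bl ρ0)]
  refine (meas_ge_le_lintegral_div hmeas.aemeasurable (by simpa using ha0)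
    ENNReal.ofReal_ne_top).trans ?_
  refine (ENNReal.div_le_div_right (h x v) _).trans ?_
  rw [← ENNReal.ofReal_div_of_pos ha0, ← ENNReal.ofReal_mul (by positivity)]
  apply ENNReal.ofReal_le_ofReal
  rw [hae, mul_div_mul_comm]
  refine mul_le_mul_of_nonneg_left ?_ (by positivity)
  rw [← Real.exp_sub]
  apply Real.exp_le_exp.mpr
  have := norm_nonneg v
  nlinarith

omit [CompactSpace X] [ContinuousSMul G X] in
theorem GOOD_round {S : FB X} (T : TN S) {ε C1 : ℝ} (hε : 0 < ε) (hC1 : 1 ≤ C1)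
    (hb : ∀ q ∈ D '' {v | ‖v‖ ≤ 1}, ∀ x : X, T.J q x ≤ C1) (R : ℝ) (hR : 0 < R) (x : X) (g : G)
    (h : ∀ v : ℤ × ℤ, T.J (D ((v.1 : ℝ), (v.2 : ℝ)) * g) x ≤
      R * Real.exp (-ε * ‖((v.1 : ℝ), (v.2 : ℝ))‖)) (v : ℝ × ℝ) :
    T.J (D v * g) x ≤ (C1 * R * Real.exp ε) * Real.exp (-ε * ‖v‖) := by
  set v0 : ℝ × ℝ := (((⌊v.1⌋ : ℤ) : ℝ), ((⌊v.2⌋ : ℤ) : ℝ)) with hv0
  have h0 := h (⌊v.1⌋, ⌊v.2⌋)
  have hu : ‖v - v0‖ ≤ 1 := by
    rw [Prod.norm_def]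
    apply max_le
    · show ‖v.1 - ((⌊v.1⌋ : ℤ) : ℝ)‖ ≤ 1
      rw [Real.norm_eq_abs, abs_le]
      constructor
      · linarith [Int.floor_le v.1]
      · linarith [Int.lt_floor_add_one v.1]
    · show ‖v.2 - ((⌊v.2⌋ : ℤ) : ℝ)‖ ≤ 1
      rw [Real.norm_eq_abs, abs_le]
      constructor
      · linarith [Int.floor_le v.2]
      · linarith [Int.lt_floor_add_one v.2]
  have hv : D v * g = D (v - v0) * (D v0 * g) := by
    rw [← mul_assoc, ← D_add, sub_add_cancel]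
  rw [hv, T.J_mul]
  have h1 : T.J (D (v - v0)) ((D v0 * g) • x) ≤ C1 := hb _ ⟨_, hu, rfl⟩ _
  have h2 : T.J (D v0 * g) x ≤ R * Real.exp (-ε * ‖v0‖) := h0
  have h3 : Real.exp (-ε * ‖v0‖) ≤ Real.exp ε * Real.exp (-ε * ‖v‖) := by
    rw [← Real.exp_add]
    apply Real.exp_le_exp.mpr
    have h4 : ‖v‖ ≤ ‖v - v0‖ + ‖v0‖ := by
      have := norm_add_le (v - v0) v0
      rwa [sub_add_cancel] at this
    nlinarith
  calc T.J (D (v - v0)) ((D v0 * g) • x) * T.J (D v0 * g) x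
      ≤ C1 * (R * Real.exp (-ε * ‖v0‖)) := by
        apply mul_le_mul h1 h2 (T.J_pos _ _).le (by linarith)
    _ ≤ C1 * (R * (Real.exp ε * Real.exp (-ε * ‖v‖))) := by
        apply mul_le_mul_of_nonneg_left _ (by linarith)
        exact mul_le_mul_of_nonneg_left h3 hR.le
    _ = _ := by ring

/-- Uniform version: one rate `ε`, one ball `Bl ρ`. -/
theorem good_unif {S : FB X} {T : TN S} (hC : T.CStar) :
    ∃ ρ : ℝ, 0 < ρ ∧ ρ ≤ 1 ∧ ∃ ε : ℝ, 0 < ε ∧ ε ≤ 1 ∧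
      (∀ η : ℝ, 0 < η → ∃ R : ℝ, 1 ≤ R ∧ ∀ x : X,
        hG {g | g ∈ Bl ρ ∧ ¬ ∀ v : ℝ × ℝ, T.J (D v * g) x ≤ R * Real.exp (-ε * ‖v‖)} ≤
          ENNReal.ofReal η) ∧
      ∀ x : X, ∀ᵐ g ∂hG, ∃ R : ℝ, ∀ v : ℝ × ℝ, T.J (D v * g) x ≤ R * Real.exp (-ε * ‖v‖) := by
  obtain ⟨s, hs, ε0, hε0, C, hC0, ρ0, hρ0, hmain⟩ := hC
  obtain ⟨C1, hC1, hJb⟩ := T.J_bound (isCompact_D_image 1)
  set ρ : ℝ := min ρ0 1 with hρ
  set ε : ℝ := min (ε0 / (2 * s)) 1 with hε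
  have hρp : 0 < ρ := lt_min hρ0 one_pos
  have hεp : 0 < ε := lt_min (by positivity) one_pos
  have hsε : s * ε ≤ ε0 / 2 := by
    have h1 : ε ≤ ε0 / (2 * s) := min_le_left _ _
    calc s * ε ≤ s * (ε0 / (2 * s)) := mul_le_mul_of_nonneg_left h1 hs.le
      _ = ε0 / 2 := by field_simp
  have hunif : ∀ η : ℝ, 0 < η → ∃ R : ℝ, 1 ≤ R ∧ ∀ x : X,
        hG {g | g ∈ Bl ρ ∧ ¬ ∀ v : ℝ × ℝ, T.J (D v * g) x ≤ R * Real.exp (-ε * ‖v‖)} ≤
          ENNReal.ofReal η := by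
    intro η hη
    have hsum := GOOD_summable (ε0 / 2) (by positivity)
    set Zs : ℝ := ∑' v : ℤ × ℤ, Real.exp (-(ε0 / 2) * ‖((v.1 : ℝ), (v.2 : ℝ))‖) with hZ
    have hZ0 : 0 ≤ Zs := tsum_nonneg fun v => (Real.exp_pos _).le
    set m : ℝ := max 1 (C * Zs / η) with hm
    have hm1 : 1 ≤ m := le_max_left _ _
    set R : ℝ := m ^ (1 / s) with hR
    have hR1 : 1 ≤ R := Real.one_le_rpow hm1 (by positivity)
    have hR0 : 0 < R := by linarith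
    have hRs : R ^ s = m := by
      rw [hR, ← Real.rpow_mul (by linarith), one_div, inv_mul_cancel₀ hs.ne', Real.rpow_one]
    refine ⟨C1 * R * Real.exp ε, ?_, fun x => ?_⟩
    · have h1 : 1 ≤ Real.exp ε := Real.one_le_exp hεp.le
      have h2 : 1 ≤ C1 * R := one_le_mul_of_one_le_of_one_le hC1 hR1
      exact one_le_mul_of_one_le_of_one_le h2 h1
    · have hsub : {g | g ∈ Bl ρ ∧ ¬ ∀ v : ℝ × ℝ, T.J (D v * g) x ≤
            (C1 * R * Real.exp ε) * Real.exp (-ε * ‖v‖)} ⊆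
          ⋃ v : ℤ × ℤ, {g | g ∈ Bl ρ ∧ R * Real.exp (-ε * ‖((v.1 : ℝ), (v.2 : ℝ))‖) <
            T.J (D ((v.1 : ℝ), (v.2 : ℝ)) * g) x} := by
        rintro g ⟨h1, h2⟩
        by_contra h3
        apply h2
        apply GOOD_round T hεp hC1 (fun q hq x => (hJb q hq x).2) R hR0 x g
        intro v
        by_contra h4
        push Not at h4
        exact h3 (mem_iUnion.mpr ⟨v, h1, h4⟩)
      refine (measure_mono hsub).trans ((measure_iUnion_le _).trans ?_)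
      calc ∑' v : ℤ × ℤ, hG {g | g ∈ Bl ρ ∧ R * Real.exp (-ε * ‖((v.1 : ℝ), (v.2 : ℝ))‖) <
            T.J (D ((v.1 : ℝ), (v.2 : ℝ)) * g) x}
          ≤ ∑' v : ℤ × ℤ, ENNReal.ofReal (C / R ^ s) *
            ENNReal.ofReal (Real.exp (-(ε0 / 2) * ‖((v.1 : ℝ), (v.2 : ℝ))‖)) :=
            ENNReal.tsum_le_tsum fun v => GOOD_markov T hs hC0 hmain ε hsε R hR0 ρ
              (min_le_left _ _) x _
        _ = ENNReal.ofReal (C / R ^ s) * ENNReal.ofReal Zs := by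
            rw [ENNReal.tsum_mul_left, hZ, ENNReal.ofReal_tsum_of_nonneg
              (fun v => (Real.exp_pos _).le) hsum]
        _ = ENNReal.ofReal (C / R ^ s * Zs) := by
            rw [ENNReal.ofReal_mul (by positivity)]
        _ ≤ ENNReal.ofReal η := by
            apply ENNReal.ofReal_le_ofReal
            rw [hRs, div_mul_eq_mul_div, div_le_iff₀ (by linarith)]
            have h5 : C * Zs / η ≤ m := le_max_right _ _
            rw [div_le_iff₀ hη] at h5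
            linarith
  refine ⟨ρ, hρp, min_le_right _ _, ε, hεp, min_le_right _ _, hunif, ?_⟩
  intro x
  apply ae_of_ae_Bl hρp
  intro g0
  have hzero : hG {g | g ∈ Bl ρ ∧ ¬ ∃ R : ℝ, ∀ v : ℝ × ℝ, T.J (D v * g) (g0 • x) ≤
      R * Real.exp (-ε * ‖v‖)} = 0 := by
    apply le_antisymm _ zero_le
    apply ENNReal.le_of_forall_pos_le_add
    intro η hη _
    obtain ⟨R, hR, hx⟩ := hunif η (by exact_mod_cast hη)
    rw [zero_add]
    refine le_trans (measure_mono ?_) ((hx (g0 • x)).trans (by simp))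
    rintro g ⟨h1, h2⟩
    exact ⟨h1, fun h3 => h2 ⟨R, h3⟩⟩
  rw [ae_restrict_iff' (measurableSet_Bl ρ)]
  rw [ae_iff]
  refine measure_mono_null ?_ hzero
  intro g hg
  simp only [Set.mem_ofPred_eq, Classical.not_imp] at hg
  refine ⟨hg.1, fun h1 => hg.2 ?_⟩
  obtain ⟨R, hR⟩ := h1
  refine ⟨R * T.J g0 x, fun v => ?_⟩
  rw [← mul_assoc, T.J_mul]
  calc T.J (D v * g) (g0 • x) * T.J g0 x ≤ (R * Real.exp (-ε * ‖v‖)) * T.J g0 x :=
        mul_le_mul_of_nonneg_right (hR v) (T.J_pos _ _).le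
    _ = _ := by ring

end Pool.Agent.H88.LF
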