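import Pool.Agent.H88.LF.DIS
import Pool.Agent.H88.LF.FCR
import Pool.Agent.H88.LF.FSH
import Pool.Agent.H88.LF.GOOD

/-!
# CONF (blueprint section 10): full contraction
-/

set_option autoImplicit false

open MeasureTheory Set Filter
open scoped Topology ENNReal

namespace Pool.Agent.H88.LF

/-- the length is continuous -/
theorem CONF_fLen_cont {W : G → ℝ → ℝ} {a b : ℝ} (hab : a ≤ b)
    (hc : ContinuousOn (fun p : G × ℝ => W p.1 p.2) (univ ×ˢ Icc a b)) :
    Continuous (fun g => fLen W a b g) := by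
  have h1 : Continuous (Function.uncurry
      fun (g : G) (s : ℝ) => W g ((projIcc a b hab s : Icc a b) : ℝ)) := by
    have h2 : Continuous (fun p : G × ℝ =>
        ((p.1, ((projIcc a b hab p.2 : Icc a b) : ℝ)) : G × ℝ)) :=
      continuous_fst.prodMk
        (continuous_subtype_val.comp (continuous_projIcc.comp continuous_snd))
    exact hc.comp_continuous h2 (fun p => ⟨mem_univ _, (projIcc a b hab p.2).2⟩)
  have h3 := intervalIntegral.continuous_parametric_intervalIntegral_of_continuous'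
    (μ := volume) h1 a b
  refine h3.congr (fun g => ?_)
  unfold fLen
  refine intervalIntegral.integral_congr (fun s hs => ?_)
  rw [uIcc_of_le hab] at hs
  show W g ((projIcc a b hab s : Icc a b) : ℝ) = W g s
  rw [projIcc_of_mem hab hs]

theorem CONF_meas {W : G → ℝ → ℝ} {a b : ℝ} (ε : ℝ) (hab : a ≤ b)
    (hc : ContinuousOn (fun p : G × ℝ => W p.1 p.2) (univ ×ˢ Icc a b)) :
    MeasurableSet (fCon W a b ε) := by
  have h1 : fCon W a b ε = ⋃ n : ℕ, ⋂ v : ℝ × ℝ,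
      {g | fLen W a b (D v * g) ≤ (n : ℝ) * Real.exp (-ε * ‖v‖)} := by
    ext g
    simp only [mem_iUnion, mem_iInter]
    constructor
    · rintro ⟨C, hC⟩
      obtain ⟨n, hn⟩ := exists_nat_ge C
      exact ⟨n, fun v => (hC v).trans (mul_le_mul_of_nonneg_right hn (Real.exp_pos _).le)⟩
    · rintro ⟨n, hn⟩
      exact ⟨n, hn⟩
  rw [h1]
  refine MeasurableSet.iUnion fun n => IsClosed.measurableSet (isClosed_iInter fun v => ?_)
  exact isClosed_le ((CONF_fLen_cont hab hc).comp (continuous_const_mul (D v)))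
    continuous_const

/-- a set which contains the good part of the ball is not null -/
theorem CONF_pos {ρ : ℝ} (hρ : 0 < ρ) {P : G → Prop} {A : Set G}
    (hP : hG {g | g ∈ Bl ρ ∧ ¬ P g} ≤ ENNReal.ofReal ((hG (Bl ρ)).toReal / 2))
    (hA : ∀ g ∈ Bl ρ, P g → g ∈ A) : hG A ≠ 0 := by
  intro h0
  have hfin : hG (Bl ρ) ≠ ∞ := (hG_Bl_lt_top ρ).ne
  have hpos : 0 < (hG (Bl ρ)).toReal := ENNReal.toReal_pos (hG_Bl_pos hρ).ne' hfin
  have h1 : Bl ρ ⊆ A ∪ {g | g ∈ Bl ρ ∧ ¬ P g} := by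
    intro g hg
    by_cases h : P g
    · exact Or.inl (hA g hg h)
    · exact Or.inr ⟨hg, h⟩
  have h2 : hG (Bl ρ) ≤ ENNReal.ofReal ((hG (Bl ρ)).toReal / 2) := by
    calc hG (Bl ρ) ≤ hG (A ∪ {g | g ∈ Bl ρ ∧ ¬ P g}) := measure_mono h1
      _ ≤ hG A + hG {g | g ∈ Bl ρ ∧ ¬ P g} := measure_union_le _ _
      _ ≤ 0 + ENNReal.ofReal ((hG (Bl ρ)).toReal / 2) := add_le_add h0.le hP
      _ = _ := zero_add _
  have h3 := ENNReal.toReal_mono ENNReal.ofReal_ne_top h2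
  rw [ENNReal.toReal_ofReal (by positivity)] at h3
  linarith

variable {X : Type} [MetricSpace X] [CompactSpace X] [MulAction G X] [ContinuousSMul G X]

omit [CompactSpace X] [ContinuousSMul G X] in
theorem CONF_W {S : FB X} (T : TN S) (g : G) (i : Fin S.n) {s : ℝ} (hs : |s| < 1) :
    T.W g i s = T.J g (S.c i s) * T.W 1 i s := by
  have h := T.W_mul g 1 i s hs
  rw [mul_one, one_smul] at h
  exact h

omit [CompactSpace X] [ContinuousSMul G X] in
theorem CONF_good {S : FB X} (T : TN S) {ε : ℝ}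
    (hae : ∀ x : X, ∀ᵐ g ∂hG, ∃ R : ℝ, ∀ v : ℝ × ℝ,
      T.J (D v * g) x ≤ R * Real.exp (-ε * ‖v‖)) (i : Fin S.n) {s : ℝ} (hs : |s| < 1) :
    ∀ᵐ g ∂hG, g ∈ fGood (fun g s => T.W g i s) s ε := by
  filter_upwards [hae (S.c i s)] with g hg
  obtain ⟨R, hR⟩ := hg
  refine ⟨R * T.W 1 i s, fun v => ?_⟩
  have h1 := CONF_W T (D v * g) i hs
  refine h1.le.trans ?_
  have h2 := mul_le_mul_of_nonneg_right (hR v) (T.pos 1 i s hs).le
  refine h2.trans (le_of_eq ?_)
  ring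

/-- short segments -/
theorem CONF_short {S : FB X} (hS : S.Straight) (T : TN S) {ρ ε : ℝ} (hρ : 0 < ρ) (hε : 0 < ε)
    (hunif : ∀ η : ℝ, 0 < η → ∃ R : ℝ, 1 ≤ R ∧ ∀ x : X,
        hG {g | g ∈ Bl ρ ∧ ¬ ∀ v : ℝ × ℝ, T.J (D v * g) x ≤ R * Real.exp (-ε * ‖v‖)} ≤
          ENNReal.ofReal η)
    (hae : ∀ x : X, ∀ᵐ g ∂hG, ∃ R : ℝ, ∀ v : ℝ × ℝ,
      T.J (D v * g) x ≤ R * Real.exp (-ε * ‖v‖)) (i : Fin S.n) (a b : ℝ) (ha : -1 < a)
    (hab : a ≤ b) (hb : b < 1) :
    ∃ d : ℝ, 0 < d ∧ ∀ a' b' : ℝ, a' ≤ b' → a ≤ a' → b' ≤ b → b' - a' ≤ d →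
      ∀ᵐ g ∂hG, g ∈ fCon (fun g s => T.W g i s) a' b' ε := by
  have hfin : hG (Bl ρ) ≠ ∞ := (hG_Bl_lt_top ρ).ne
  have hBpos : 0 < (hG (Bl ρ)).toReal := ENNReal.toReal_pos (hG_Bl_pos hρ).ne' hfin
  obtain ⟨R, hR1, hR⟩ := hunif ((hG (Bl ρ)).toReal / 2) (by positivity)
  obtain ⟨r, hr⟩ : ∃ r : ℝ, r = max |a| |b| := ⟨_, rfl⟩
  have hr1 : r < 1 := by
    rw [hr, max_lt_iff, abs_lt, abs_lt]
    exact ⟨⟨ha, hab.trans_lt hb⟩, ⟨ha.trans_le hab, hb⟩⟩
  have hrs : ∀ s ∈ Icc a b, |s| ≤ r := by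
    intro s hs
    rw [hr]
    exact abs_le_max_abs_abs hs.1 hs.2
  have habs : ∀ s ∈ Icc a b, |s| < 1 := fun s hs => (hrs s hs).trans_lt hr1
  obtain ⟨M, hM1, hM⟩ := T.W_bound (isCompact_singleton (x := (1 : G))) r hr1
  obtain ⟨C1, hC1, hC1'⟩ := dist_int hS T (D '' {v | ‖v‖ ≤ 1}) (isCompact_D_image 1)
  obtain ⟨C3, hC3, hC3'⟩ := T.W_bound (isCompact_Bl ρ) r hr1
  have hcont : ContinuousOn (fun p : G × ℝ => T.W p.1 i p.2) (univ ×ˢ Icc a b) :=
    (T.cont i).mono fun p hp => habs p.2 hp.2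
  obtain ⟨d, hd, hshort⟩ := Fam.short (W := fun g s => T.W g i s) (a0 := a) (b0 := b) ε hε ρ
    (R * M) C1 (C3 * C3) (by positivity) hC1 (by positivity)
    (fun g s hs => T.pos g i s (habs s hs)) hcont
    (fun a' b' hab' ha' hb' u g s s' hu hs hs' =>
      hC1' (D u) ⟨u, hu, rfl⟩ g i a' b' s s' (ha.trans_le ha') hab' (hb'.trans_lt hb) hs hs')
    (fun g hg s hs s' hs' => by
      have h1 := (hC3' g hg i s (hrs s hs)).2
      have h2 := (hC3' g hg i s' (hrs s' hs')).1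
      have h3 : C3 * C3⁻¹ = 1 := mul_inv_cancel₀ (by positivity)
      have h4 : C3 ≤ C3 * C3 * T.W g i s' := by
        calc C3 = C3 * (C3 * C3⁻¹) := by rw [h3, mul_one]
          _ = C3 * C3 * C3⁻¹ := by ring
          _ ≤ C3 * C3 * T.W g i s' := mul_le_mul_of_nonneg_left h2 (by positivity)
      exact h1.trans h4)
  refine ⟨d, hd, fun a' b' hab' ha' hb' hd' => ?_⟩
  have ha1 : a' ∈ Icc a b := ⟨ha', hab'.trans hb'⟩
  have ha2 : a' ∈ Icc a' b' := ⟨le_rfl, hab'⟩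
  have hFam : Fam (fun g s => T.W g i s) a' b' :=
    fam_of_straight hS T i a' b' (ha.trans_le ha') hab' (hb'.trans_lt hb)
  have hpos : hG (fCon (fun g s => T.W g i s) a' b' ε) ≠ 0 := by
    refine CONF_pos hρ (P := fun g => ∀ v : ℝ × ℝ,
      T.J (D v * g) (S.c i a') ≤ R * Real.exp (-ε * ‖v‖)) (hR (S.c i a')) ?_
    intro g hg hgood
    refine hshort a' b' hab' ha' hb' hd' a' ha2 g hg (fun v => ?_)
    have h1 := CONF_W T (D v * g) i (habs a' ha1)
    have h2 : T.W 1 i a' ≤ M := (hM 1 rfl i a' (hrs a' ha1)).2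
    have h3 : 0 < T.W 1 i a' := T.pos 1 i a' (habs a' ha1)
    refine h1.le.trans ?_
    calc T.J (D v * g) (S.c i a') * T.W 1 i a'
        ≤ R * Real.exp (-ε * ‖v‖) * M :=
          mul_le_mul (hgood v) h2 h3.le (by positivity)
      _ = R * M * Real.exp (-ε * ‖v‖) := by ring
  refine erg_set _ (CONF_meas ε hab' hFam.cont) hpos (fun i' l' hil s => ?_)
  filter_upwards [ae_mul_left (U i' l' hil s) (CONF_good T hae i (habs a' ha1))] with g hg1 hg2
  exact Fam.con_root hFam ε hε a' ha2 i' l' hil s g hg2 hg1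

/-- Full contraction of every compact segment.  Short segments: `good_unif` (with `W(D v g;i,s0) = J(D v g, c i s0) W(1;i,s0)`), `Fam.short` give a subset of positive measure in `fCon`;
`Fam.con_root`, `erg_set` (`fCon` is measurable: a countable union of closed sets; `fGood` has full measure).  Then add up finitely many short segments. -/
theorem con_full {S : FB X} (hS : S.Straight) (T : TN S) (hC : T.CStar) :
    ∃ ε : ℝ, 0 < ε ∧ ∀ (i : Fin S.n) (a b : ℝ), -1 < a → a ≤ b → b < 1 →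
      ∀ᵐ g ∂hG, g ∈ fCon (fun g s => T.W g i s) a b ε := by
  obtain ⟨ρ, hρ, -, ε, hε, -, hunif, hae⟩ := good_unif hC
  refine ⟨ε, hε, fun i a b ha hab hb => ?_⟩
  obtain ⟨d, hd, hseg⟩ := CONF_short hS T hρ hε hunif hae i a b ha hab hb
  obtain ⟨N, hN⟩ := exists_nat_gt ((b - a) / d)
  have hN0 : (0 : ℝ) < N := lt_of_le_of_lt (div_nonneg (by linarith) hd.le) hN
  rw [div_lt_iff₀ hd] at hN
  obtain ⟨p, hp⟩ : ∃ p : ℕ → ℝ, p = fun k : ℕ => a + (k : ℝ) * ((b - a) / N) :=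
    ⟨_, rfl⟩
  have hstep : 0 ≤ (b - a) / N := div_nonneg (by linarith) hN0.le
  have hp0 : p 0 = a := by rw [hp]; simp
  have hpN : p N = b := by
    rw [hp]
    show a + (N : ℝ) * ((b - a) / N) = b
    field_simp
    ring
  have hpm : ∀ k, p k ≤ p (k + 1) := by
    intro k
    rw [hp]
    show a + (k : ℝ) * ((b - a) / N) ≤ a + ((k + 1 : ℕ) : ℝ) * ((b - a) / N)
    push_cast
    nlinarith
  have hmono : Monotone p := monotone_nat_of_le_succ hpm
  have hpd : ∀ k, p (k + 1) - p k ≤ d := by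
    intro k
    rw [hp]
    show a + ((k + 1 : ℕ) : ℝ) * ((b - a) / N) - (a + (k : ℝ) * ((b - a) / N)) ≤ d
    push_cast
    have h1 : (b - a) / N ≤ d := by
      rw [div_le_iff₀ hN0]
      linarith
    linarith
  have hpa : ∀ k, a ≤ p k := fun k => by
    rw [← hp0]
    exact hmono (Nat.zero_le k)
  have hpb : ∀ k, k ≤ N → p k ≤ b := fun k hk => by
    rw [← hpN]
    exact hmono hk
  have hall : ∀ᵐ g ∂hG, ∀ k, k < N → g ∈ fCon (fun g s => T.W g i s) (p k) (p (k + 1)) ε := by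
    refine ae_all_iff.2 fun k => ?_
    by_cases hk : k < N
    · filter_upwards [hseg (p k) (p (k + 1)) (hpm k) (hpa k) (hpb _ hk) (hpd k)] with g hg
      exact fun _ => hg
    · exact Filter.Eventually.of_forall fun g h => absurd h hk
  filter_upwards [hall] with g hg
  have hex : ∀ k, ∃ C : ℝ, k < N → ∀ v : ℝ × ℝ,
      fLen (fun g s => T.W g i s) (p k) (p (k + 1)) (D v * g) ≤ C * Real.exp (-ε * ‖v‖) := by
    intro k
    by_cases hk : k < N
    · obtain ⟨C, hC⟩ := hg k hk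
      exact ⟨C, fun _ => hC⟩
    · exact ⟨0, fun h => absurd h hk⟩
  choose C hC' using hex
  refine ⟨∑ k ∈ Finset.range N, C k, fun v => ?_⟩
  have hint : ∀ k < N, IntervalIntegrable (T.W (D v * g) i) volume (p k) (p (k + 1)) := by
    intro k hk
    refine ContinuousOn.intervalIntegrable ?_
    rw [uIcc_of_le (hpm k)]
    exact (DIS_cont T (D v * g) i ha hb).mono (Icc_subset_Icc (hpa k) (hpb _ hk))
  have hsum : fLen (fun g s => T.W g i s) a b (D v * g) =
      ∑ k ∈ Finset.range N, fLen (fun g s => T.W g i s) (p k) (p (k + 1)) (D v * g) := by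
    have h1 := intervalIntegral.sum_integral_adjacent_intervals hint
    rw [hp0, hpN] at h1
    exact h1.symm
  rw [hsum, Finset.sum_mul]
  exact Finset.sum_le_sum fun k hk => hC' k (Finset.mem_range.1 hk) v

end Pool.Agent.H88.LF
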