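import Pool.Agent.H88.LF.GBB

/-!
# CONV (blueprint 9.1): convergence at infinity in the plane

`conv_diag`: connect any `v` with `M = ‖v‖` to `(M,M)` by at most two axis-parallel segments which stay at distance `≥ M` from `0` (if `|v.1| ≥ |v.2|` move `v.2` to `|v.1|`, then `v.1` to `|v.1|`; otherwise
first move `v.1` to `|v.2|`, then `v.2` to `|v.2|`): at most `4M+2` steps of length `≤ 1`, each increment `≤ C e^{-εM}`; then along the ray `(M+m,M+m)`.  `L = lim F(m,m)`.
`conv_off`: `λ(v) = cmp v a - cmp v b`, `e` with `cmp e a = 1`, `cmp e b = -1` (`‖e‖ = 1`, `λ(e) = 2`).  Along `v + m e`: increments `≤ C e^{-ε(‖v‖-m) - λ(v) - 2m}`, summable, sum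
`≤ C' e^{-ε‖v‖-λ(v)}`.  The limit does not depend on `v`: `|F(v+me) - F(me)| ≤ (‖v‖+1) C e^{-(2m - 4‖v‖ - 4)} → 0`.
-/

set_option autoImplicit false

open Set Filter
open scoped Topology

namespace Pool.Agent.H88.LF

theorem conv_path (F : ℝ × ℝ → ℝ) (v d : ℝ × ℝ) (hd : ‖d‖ ≤ 1) (β : ℝ) (hβ : 0 ≤ β) (t : ℝ)
    (ht : 0 ≤ t) (h : ∀ s : ℝ, 0 ≤ s → s ≤ t → ∀ w : ℝ × ℝ, ‖w‖ ≤ 1 →
      |F (v + s • d + w) - F (v + s • d)| ≤ β) :
    |F (v + t • d) - F v| ≤ (t + 1) * β := by
  have key : ∀ n : ℕ, (n : ℝ) ≤ t → |F (v + (n : ℝ) • d) - F v| ≤ n * β := by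
    intro n
    induction n with
    | zero => intro _; simp
    | succ n ih =>
      intro hn
      push_cast at hn ⊢
      have h1 := ih (by linarith)
      have h2 := h n (Nat.cast_nonneg n) (by linarith) d hd
      have h3 : v + (n : ℝ) • d + d = v + ((n : ℝ) + 1) • d := by
        rw [add_smul, one_smul, add_assoc]
      rw [h3] at h2
      calc |F (v + ((n : ℝ) + 1) • d) - F v|
          ≤ |F (v + ((n : ℝ) + 1) • d) - F (v + (n : ℝ) • d)| + |F (v + (n : ℝ) • d) - F v| :=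
            abs_sub_le _ _ _
        _ ≤ β + n * β := add_le_add h2 h1
        _ = (n + 1) * β := by ring
  have h1 : ((⌊t⌋₊ : ℕ) : ℝ) ≤ t := Nat.floor_le ht
  have h2 : t < ((⌊t⌋₊ : ℕ) : ℝ) + 1 := Nat.lt_floor_add_one t
  set n := ⌊t⌋₊ with hn
  have h3 := key n h1
  have h4 := h n (Nat.cast_nonneg n) h1 ((t - n) • d) (by
    rw [norm_smul, Real.norm_eq_abs, abs_of_nonneg (by linarith)]
    nlinarith [norm_nonneg d])
  have h5 : v + (n : ℝ) • d + (t - n) • d = v + t • d := by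
    rw [add_assoc, ← add_smul]
    congr 2
    ring
  rw [h5] at h4
  calc |F (v + t • d) - F v|
      ≤ |F (v + t • d) - F (v + (n : ℝ) • d)| + |F (v + (n : ℝ) • d) - F v| := abs_sub_le _ _ _
    _ ≤ β + n * β := add_le_add h4 h3
    _ ≤ (t + 1) * β := by nlinarith

/-- a function on the half line with exponentially decreasing increments -/
theorem conv_ray (ε : ℝ) (hε : 0 < ε) (C : ℝ) (hC : 0 ≤ C) (G : ℝ → ℝ)
    (h : ∀ t s : ℝ, 0 ≤ t → 0 ≤ s → s ≤ 1 → |G (t + s) - G t| ≤ C * Real.exp (-ε * t)) :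
    ∃ L : ℝ, ∀ t, 0 ≤ t → |G t - L| ≤ (1 - Real.exp (-ε))⁻¹ * C * Real.exp (-ε * t) := by
  have hq1 : Real.exp (-ε) < 1 := by
    rw [Real.exp_lt_one_iff]; linarith
  have hq0 : 0 < Real.exp (-ε) := Real.exp_pos _
  set K : ℝ := (1 - Real.exp (-ε))⁻¹ with hK
  have hKpos : 0 < K := inv_pos.2 (by linarith)
  have hK1 : K * Real.exp (-ε) + 1 = K := by
    rw [hK]
    have : (1 - Real.exp (-ε)) ≠ 0 := by linarith
    field_simp
    ring
  have key : ∀ n : ℕ, ∀ t s : ℝ, 0 ≤ t → t ≤ s → s ≤ t + n →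
      |G s - G t| ≤ K * C * Real.exp (-ε * t) := by
    intro n
    induction n with
    | zero =>
      intro t s ht hts hs
      have : s = t := by
        have : s ≤ t := by simpa using hs
        linarith
      rw [this, sub_self, abs_zero]
      positivity
    | succ n ih =>
      intro t s ht hts hs
      push_cast at hs
      rcases le_total s (t + 1) with h1 | h1
      · have h2 := h t (s - t) ht (by linarith) (by linarith)
        rw [show t + (s - t) = s by ring] at h2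
        refine h2.trans ?_
        have hK2 : 1 ≤ K := by nlinarith
        have : 0 ≤ C * Real.exp (-ε * t) := by positivity
        nlinarith
      · have h2 := h t 1 ht zero_le_one le_rfl
        have h3 := ih (t + 1) s (by linarith) h1 (by linarith)
        have h4 : Real.exp (-ε * (t + 1)) = Real.exp (-ε) * Real.exp (-ε * t) := by
          rw [← Real.exp_add]; congr 1; ring
        rw [h4] at h3
        calc |G s - G t| ≤ |G s - G (t + 1)| + |G (t + 1) - G t| := abs_sub_le _ _ _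
          _ ≤ K * C * (Real.exp (-ε) * Real.exp (-ε * t)) + C * Real.exp (-ε * t) :=
            add_le_add h3 h2
          _ = (K * Real.exp (-ε) + 1) * (C * Real.exp (-ε * t)) := by ring
          _ = K * C * Real.exp (-ε * t) := by rw [hK1]; ring
  have key2 : ∀ t s : ℝ, 0 ≤ t → t ≤ s → |G s - G t| ≤ K * C * Real.exp (-ε * t) := by
    intro t s ht hts
    obtain ⟨n, hn⟩ := exists_nat_ge (s - t)
    exact key n t s ht hts (by linarith)
  have htend : Tendsto (fun n : ℕ => K * C * Real.exp (-ε * n)) atTop (𝓝 0) := by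
    have h1 : Tendsto (fun n : ℕ => -ε * (n : ℝ)) atTop atBot :=
      tendsto_natCast_atTop_atTop.const_mul_atTop_of_neg (by linarith)
    have h2 := (Real.tendsto_exp_atBot.comp h1).const_mul (K * C)
    simpa using h2
  have hcauchy : CauchySeq (fun n : ℕ => G n) := by
    apply cauchySeq_of_le_tendsto_0 (fun n : ℕ => 2 * (K * C * Real.exp (-ε * n)))
    · intro n m N hn hm
      have h1 := key2 N n (Nat.cast_nonneg N) (by exact_mod_cast hn)
      have h2 := key2 N m (Nat.cast_nonneg N) (by exact_mod_cast hm)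
      rw [Real.dist_eq]
      calc |G n - G m| ≤ |G n - G N| + |G N - G m| := abs_sub_le _ _ _
        _ = |G n - G N| + |G m - G N| := by rw [abs_sub_comm (G N)]
        _ ≤ _ := by linarith
    · simpa using htend.const_mul 2
  obtain ⟨L, hL⟩ := cauchySeq_tendsto_of_complete hcauchy
  refine ⟨L, fun t ht => ?_⟩
  have h1 : Tendsto (fun n : ℕ => |G t - G n|) atTop (𝓝 |G t - L|) :=
    (tendsto_const_nhds.sub hL).abs
  refine le_of_tendsto h1 ?_
  obtain ⟨N, hN⟩ := exists_nat_ge t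
  filter_upwards [eventually_ge_atTop N] with n hn
  rw [abs_sub_comm]
  exact key2 t n ht (hN.trans (by exact_mod_cast hn))

theorem conv_diag (ε : ℝ) (hε : 0 < ε) :
    ∃ C' : ℝ, 0 < C' ∧ ∀ (C : ℝ) (F : ℝ × ℝ → ℝ), 0 ≤ C →
      (∀ v w : ℝ × ℝ, ‖w‖ ≤ 1 → |F (v + w) - F v| ≤ C * Real.exp (-ε * ‖v‖)) →
      ∃ L : ℝ, ∀ v, |F v - L| ≤ C' * C * Real.exp (-ε * ‖v‖ / 2) := by
  have hq1 : Real.exp (-ε) < 1 := by
    rw [Real.exp_lt_one_iff]; linarith
  set K : ℝ := (1 - Real.exp (-ε))⁻¹ with hK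
  have hKpos : 0 < K := inv_pos.2 (by linarith)
  refine ⟨8 / ε + 2 + K, by positivity, ?_⟩
  intro C F hC hF
  obtain ⟨L, hL⟩ := conv_ray ε hε C hC (fun t => F (t, t)) (by
    intro t s ht hs hs1
    have h1 := hF (t, t) (s, s) (by
      rw [Prod.norm_def]; simp [abs_of_nonneg hs, hs1])
    have h2 : ‖((t, t) : ℝ × ℝ)‖ = t := by
      rw [Prod.norm_def]; simp [abs_of_nonneg ht]
    rw [h2] at h1
    simpa using h1)
  refine ⟨L, fun v => ?_⟩
  set M : ℝ := ‖v‖ with hM
  have hM0 : 0 ≤ M := norm_nonneg v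
  -- a horizontal or vertical move
  have hmove : ∀ (u d : ℝ × ℝ) (t : ℝ), ‖d‖ ≤ 1 → 0 ≤ t → t ≤ 2 * M →
      (∀ s : ℝ, 0 ≤ s → s ≤ t → M ≤ ‖u + s • d‖) →
      |F (u + t • d) - F u| ≤ (2 * M + 1) * (C * Real.exp (-ε * M)) := by
    intro u d t hd ht ht2 hs
    have h1 := conv_path F u d hd (C * Real.exp (-ε * M)) (by positivity) t ht (by
      intro s hs0 hst w hw
      refine (hF _ w hw).trans ?_
      have h2 := hs s hs0 hst
      apply mul_le_mul_of_nonneg_left _ hC
      apply Real.exp_le_exp.2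
      nlinarith)
    refine h1.trans ?_
    apply mul_le_mul_of_nonneg_right _ (by positivity)
    linarith
  have hd1 : ‖((1, 0) : ℝ × ℝ)‖ ≤ 1 := by rw [Prod.norm_def]; simp
  have hd2 : ‖((0, 1) : ℝ × ℝ)‖ ≤ 1 := by rw [Prod.norm_def]; simp
  have ha1 : |v.1| ≤ M := norm_fst_le v
  have ha2 : |v.2| ≤ M := norm_snd_le v
  have hb1 := abs_le.1 ha1
  have hb2 := abs_le.1 ha2
  have htot : |F v - F (M, M)| ≤ (4 * M + 2) * (C * Real.exp (-ε * M)) := by
    rcases le_total |v.2| |v.1| with hc | hc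
    · have hMe : M = |v.1| := by
        rw [hM, Prod.norm_def, Real.norm_eq_abs, Real.norm_eq_abs, max_eq_left hc]
      have h1 := hmove v (0, 1) (M - v.2) hd2 (by linarith) (by linarith) (by
        intro s _ _
        refine le_trans (le_of_eq hMe) (le_trans (le_of_eq ?_) (norm_fst_le (v + s • ((0, 1) : ℝ × ℝ))))
        simp)
      have h2 := hmove (v.1, M) (1, 0) (M - v.1) hd1 (by linarith) (by linarith) (by
        intro s _ _
        refine le_trans (le_of_eq ?_) (norm_snd_le ((v.1, M) + s • ((1, 0) : ℝ × ℝ)))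
        simp [abs_of_nonneg hM0])
      have e1 : v + (M - v.2) • ((0, 1) : ℝ × ℝ) = (v.1, M) := by
        ext <;> simp
      have e2 : ((v.1, M) : ℝ × ℝ) + (M - v.1) • ((1, 0) : ℝ × ℝ) = (M, M) := by
        ext <;> simp
      rw [e1] at h1
      rw [e2] at h2
      calc |F v - F (M, M)| ≤ |F v - F (v.1, M)| + |F (v.1, M) - F (M, M)| := abs_sub_le _ _ _
        _ = |F (v.1, M) - F v| + |F (M, M) - F (v.1, M)| := by
          rw [abs_sub_comm (F v) (F (v.1, M)), abs_sub_comm (F (v.1, M)) (F (M, M))]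
        _ ≤ _ := by linarith
    · have hMe : M = |v.2| := by
        rw [hM, Prod.norm_def, Real.norm_eq_abs, Real.norm_eq_abs, max_eq_right hc]
      have h1 := hmove v (1, 0) (M - v.1) hd1 (by linarith) (by linarith) (by
        intro s _ _
        refine le_trans (le_of_eq hMe) (le_trans (le_of_eq ?_) (norm_snd_le (v + s • ((1, 0) : ℝ × ℝ))))
        simp)
      have h2 := hmove (M, v.2) (0, 1) (M - v.2) hd2 (by linarith) (by linarith) (by
        intro s _ _
        refine le_trans (le_of_eq ?_) (norm_fst_le ((M, v.2) + s • ((0, 1) : ℝ × ℝ)))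
        simp [abs_of_nonneg hM0])
      have e1 : v + (M - v.1) • ((1, 0) : ℝ × ℝ) = (M, v.2) := by
        ext <;> simp
      have e2 : ((M, v.2) : ℝ × ℝ) + (M - v.2) • ((0, 1) : ℝ × ℝ) = (M, M) := by
        ext <;> simp
      rw [e1] at h1
      rw [e2] at h2
      calc |F v - F (M, M)| ≤ |F v - F (M, v.2)| + |F (M, v.2) - F (M, M)| := abs_sub_le _ _ _
        _ = |F (M, v.2) - F v| + |F (M, M) - F (M, v.2)| := by
          rw [abs_sub_comm (F v) (F (M, v.2)), abs_sub_comm (F (M, v.2)) (F (M, M))]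
        _ ≤ _ := by linarith
  have hfin := hL M hM0
  have hexp : Real.exp (-ε * M) = Real.exp (-ε * M / 2) * Real.exp (-ε * M / 2) := by
    rw [← Real.exp_add]; congr 1; ring
  set x := Real.exp (-ε * M / 2) with hx
  have hx0 : 0 < x := Real.exp_pos _
  have hx1 : x ≤ 1 := by
    rw [hx, Real.exp_le_one_iff]
    nlinarith
  have hMx : ε * M / 2 * x ≤ 1 := by
    have h1 : ε * M / 2 ≤ Real.exp (ε * M / 2) := by
      linarith [Real.add_one_le_exp (ε * M / 2)]
    have h2 : Real.exp (ε * M / 2) * x = 1 := by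
      rw [hx, ← Real.exp_add]
      have : ε * M / 2 + -ε * M / 2 = 0 := by ring
      rw [this, Real.exp_zero]
    calc ε * M / 2 * x ≤ Real.exp (ε * M / 2) * x := mul_le_mul_of_nonneg_right h1 hx0.le
      _ = 1 := h2
  have hMx2 : 4 * M * x ≤ 8 / ε := by
    rw [le_div_iff₀ hε]
    linarith
  calc |F v - L| ≤ |F v - F (M, M)| + |F (M, M) - L| := abs_sub_le _ _ _
    _ ≤ (4 * M + 2) * (C * Real.exp (-ε * M)) + K * C * Real.exp (-ε * M) := add_le_add htot hfin
    _ = ((4 * M + 2 + K) * x) * (C * x) := by rw [hexp]; ring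
    _ ≤ (8 / ε + 2 + K) * (C * x) := by
        apply mul_le_mul_of_nonneg_right _ (by positivity)
        nlinarith
    _ = (8 / ε + 2 + K) * C * x := by ring

theorem conv_e (a b : Fin 3) (hab : a ≠ b) : ∃ e : ℝ × ℝ, cmp e a = 1 ∧ cmp e b = -1 ∧ ‖e‖ ≤ 1 := by
  fin_cases a <;> fin_cases b
  · exact absurd rfl hab
  · exact ⟨(1, -1), by simp [cmp], by simp [cmp], by rw [Prod.norm_def]; simp⟩
  · exact ⟨(1, 0), by simp [cmp], by simp [cmp], by rw [Prod.norm_def]; simp⟩
  · exact ⟨(-1, 1), by simp [cmp], by simp [cmp], by rw [Prod.norm_def]; simp⟩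
  · exact absurd rfl hab
  · exact ⟨(0, 1), by simp [cmp], by simp [cmp], by rw [Prod.norm_def]; simp⟩
  · exact ⟨(-1, 0), by simp [cmp], by simp [cmp], by rw [Prod.norm_def]; simp⟩
  · exact ⟨(0, -1), by simp [cmp], by simp [cmp], by rw [Prod.norm_def]; simp⟩
  · exact absurd rfl hab

theorem conv_off (ε : ℝ) (hε : 0 < ε) (hε1 : ε ≤ 1) :
    ∃ C' : ℝ, 0 < C' ∧ ∀ (a b : Fin 3), a ≠ b → ∀ (C : ℝ) (F : ℝ × ℝ → ℝ), 0 ≤ C →
      (∀ v w : ℝ × ℝ, ‖w‖ ≤ 1 →
        |F (v + w) - F v| ≤ C * Real.exp (-ε * ‖v‖ - (cmp v a - cmp v b))) →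
      ∃ L : ℝ, ∀ v, |F v - L| ≤ C' * C * Real.exp (-ε * ‖v‖ - (cmp v a - cmp v b)) := by
  have hq1 : Real.exp (-(1 : ℝ)) < 1 := by
    rw [Real.exp_lt_one_iff]; norm_num
  refine ⟨(1 - Real.exp (-(1 : ℝ)))⁻¹, inv_pos.2 (by linarith), ?_⟩
  intro a b hab C F hC hF
  obtain ⟨e, hea, heb, he⟩ := conv_e a b hab
  have hcmp : ∀ (v : ℝ × ℝ) (t : ℝ), cmp (v + t • e) a - cmp (v + t • e) b =
      cmp v a - cmp v b + 2 * t := by
    intro v t
    rw [cmp_add, cmp_add, cmp_smul, cmp_smul, hea, heb]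
    ring
  have hray : ∀ v : ℝ × ℝ, ∃ L : ℝ, ∀ t, 0 ≤ t → |F (v + t • e) - L| ≤
      (1 - Real.exp (-(1 : ℝ)))⁻¹ * (C * Real.exp (-ε * ‖v‖ - (cmp v a - cmp v b))) *
        Real.exp (-1 * t) := by
    intro v
    apply conv_ray 1 one_pos _ (by positivity) (fun t => F (v + t • e))
    intro t s ht hs hs1
    have h1 := hF (v + t • e) (s • e) (by
      rw [norm_smul, Real.norm_eq_abs, abs_of_nonneg hs]
      nlinarith [norm_nonneg e])
    have h2 : v + t • e + s • e = v + (t + s) • e := by rw [add_smul, add_assoc]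
    rw [h2, hcmp] at h1
    refine h1.trans ?_
    rw [mul_assoc, ← Real.exp_add]
    apply mul_le_mul_of_nonneg_left _ hC
    apply Real.exp_le_exp.2
    have h3 : ‖v‖ - t ≤ ‖v + t • e‖ := by
      have h4 : ‖v‖ ≤ ‖v + t • e‖ + ‖t • e‖ := by
        have := norm_sub_le (v + t • e) (t • e)
        rwa [add_sub_cancel_right] at this
      have h5 : ‖t • e‖ ≤ t := by
        rw [norm_smul, Real.norm_eq_abs, abs_of_nonneg ht]
        nlinarith [norm_nonneg e]
      linarith
    nlinarith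
  choose L hL using hray
  have htendv : ∀ v, Tendsto (fun n : ℕ => F (v + (n : ℝ) • e)) atTop (𝓝 (L v)) := by
    intro v
    rw [tendsto_iff_dist_tendsto_zero]
    have h1 : Tendsto (fun n : ℕ => (1 - Real.exp (-(1 : ℝ)))⁻¹ *
        (C * Real.exp (-ε * ‖v‖ - (cmp v a - cmp v b))) * Real.exp (-1 * (n : ℝ))) atTop (𝓝 0) := by
      have h1 : Tendsto (fun n : ℕ => -1 * (n : ℝ)) atTop atBot :=
        tendsto_natCast_atTop_atTop.const_mul_atTop_of_neg (by norm_num)
      have h2 := (Real.tendsto_exp_atBot.comp h1).const_mul ((1 - Real.exp (-(1 : ℝ)))⁻¹ *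
        (C * Real.exp (-ε * ‖v‖ - (cmp v a - cmp v b))))
      simpa using h2
    refine squeeze_zero (fun n => dist_nonneg) (fun n => ?_) h1
    rw [Real.dist_eq]
    exact hL v n (Nat.cast_nonneg n)
  have hLeq : ∀ v, L v = L 0 := by
    intro v
    have h1 : Tendsto (fun n : ℕ => F (v + (n : ℝ) • e) - F (0 + (n : ℝ) • e)) atTop
        (𝓝 (L v - L 0)) := (htendv v).sub (htendv 0)
    have h2 : Tendsto (fun n : ℕ => F (v + (n : ℝ) • e) - F (0 + (n : ℝ) • e)) atTop (𝓝 0) := by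
      have h3 : Tendsto (fun n : ℕ => (‖v‖ + 1) * C * Real.exp (4 * ‖v‖) *
          Real.exp (-2 * (n : ℝ))) atTop (𝓝 0) := by
        have h1 : Tendsto (fun n : ℕ => -2 * (n : ℝ)) atTop atBot :=
          tendsto_natCast_atTop_atTop.const_mul_atTop_of_neg (by norm_num)
        have h2 := (Real.tendsto_exp_atBot.comp h1).const_mul ((‖v‖ + 1) * C * Real.exp (4 * ‖v‖))
        simpa using h2
      refine squeeze_zero_norm (fun n => ?_) h3
      rw [Real.norm_eq_abs]
      rcases eq_or_ne v 0 with rfl | hv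
      · simp
        positivity
      have hvn : 0 < ‖v‖ := norm_pos_iff.2 hv
      have hd : ‖(‖v‖⁻¹ • v)‖ ≤ 1 := by
        rw [norm_smul, norm_inv, norm_norm, inv_mul_cancel₀ hvn.ne']
      have h4 := conv_path F ((n : ℝ) • e) (‖v‖⁻¹ • v) hd
        (C * Real.exp (4 * ‖v‖ - 2 * n)) (by positivity) ‖v‖ hvn.le (by
          intro s hs0 hs1 w hw
          refine (hF _ w hw).trans ?_
          apply mul_le_mul_of_nonneg_left _ hC
          apply Real.exp_le_exp.2
          have h5 := hcmp (s • (‖v‖⁻¹ • v)) n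
          rw [add_comm] at h5
          rw [h5, cmp_smul s (‖v‖⁻¹ • v) a, cmp_smul s (‖v‖⁻¹ • v) b]
          have h6 := abs_le.1 (abs_cmp_le (‖v‖⁻¹ • v) a)
          have h7 := abs_le.1 (abs_cmp_le (‖v‖⁻¹ • v) b)
          have h8 : 0 ≤ ε * ‖(n : ℝ) • e + s • ‖v‖⁻¹ • v‖ := by positivity
          have h10 : 0 ≤ s * (4 + (cmp (‖v‖⁻¹ • v) a - cmp (‖v‖⁻¹ • v) b)) :=
            mul_nonneg hs0 (by linarith [h6.1, h7.2])
          linarith)
      have h9 : (n : ℝ) • e + ‖v‖ • (‖v‖⁻¹ • v) = v + (n : ℝ) • e := by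
        rw [smul_smul, mul_inv_cancel₀ hvn.ne', one_smul, add_comm]
      rw [h9] at h4
      rw [zero_add]
      refine h4.trans (le_of_eq ?_)
      have h10 : Real.exp (4 * ‖v‖ - 2 * n) = Real.exp (4 * ‖v‖) * Real.exp (-2 * (n : ℝ)) := by
        rw [← Real.exp_add]; congr 1; ring
      rw [h10]
      ring
    have h3 := tendsto_nhds_unique h1 h2
    linarith
  refine ⟨L 0, fun v => ?_⟩
  have h1 := hL v 0 le_rfl
  rw [zero_smul, add_zero, mul_zero, Real.exp_zero, mul_one, hLeq v] at h1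
  rw [mul_assoc]
  exact h1

/-- Convergence along the filter at infinity. -/
theorem tendsto_of_bound (ε C : ℝ) (hε : 0 < ε) (F : ℝ × ℝ → ℝ)
    (h : ∀ v, |F v| ≤ C * Real.exp (-ε * ‖v‖)) : Tendsto F (cocompact (ℝ × ℝ)) (𝓝 0) := by
  have h1 : Tendsto (fun v : ℝ × ℝ => -ε * ‖v‖) (cocompact (ℝ × ℝ)) atBot :=
    (tendsto_norm_cocompact_atTop (E := ℝ × ℝ)).const_mul_atTop_of_neg (by linarith)
  have h2 := (Real.tendsto_exp_atBot.comp h1).const_mul C
  rw [mul_zero] at h2
  refine squeeze_zero_norm (fun v => ?_) h2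
  rw [Real.norm_eq_abs]
  exact h v

end Pool.Agent.H88.LF
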