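import Pool.Agent.H88.LF.FBC
import Pool.Agent.H88.LF.GBD

/-!
# MUQ: consequences of `IsMu` (blueprint section 2)

Write `Θ_i(h,t) = h • c i t` on `|t| < 1`.  `G × (-1,1)` is a countable union of Borel sets on which `Θ_i` is injective (small balls in `G` translated:
`{h : nd(h h0⁻¹) < r}` with `r` depending on `h0`), make them disjoint; images of Borel sets under injective continuous maps are Borel
(`MeasurableSet.image_of_continuousOn_injOn` or the like, `G × ℝ` is Polish).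
(a) `μ(Θ_i(E)) ≤ ∫_E W`.  (b) `∫_X f` over `Θ_i(E)`, `E` injective: `= ∫_E f(Θ_i) W`.
(c) quasi-invariance: cover `X` by countably many disjoint Borel sets `Θ_i(E)` with `Θ_i` injective on `E`;
for `f` supported in `Θ_i(E)`: `f ∘ g⁻¹` is supported in `Θ_i(gE)`, `gE = {(gh,t)}`, injective there too, and
`∫ f(g⁻¹x) J(g⁻¹,x) dμ = ∫_{gE} f(g⁻¹h c i t) (W(g⁻¹h;i,t)/W(h;i,t)) W(h;i,t) = ∫_E f(h c i t) W(h;i,t)` by left invariance.
(d) null sets pull back: `μ(N) = 0` implies `{(h,t) : |t|<1, h • c i t ∈ N}` is null for `hG × volume` (as `W > 0`).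
-/

set_option autoImplicit false

open MeasureTheory Set Filter
open scoped Topology ENNReal

namespace Pool.Agent.H88.LF

variable {X : Type} [MetricSpace X] [CompactSpace X] [MulAction G X] [ContinuousSMul G X]
  [MeasurableSpace X] [BorelSpace X]

theorem muq_polish : PolishSpace G := by
  have : PolishSpace Mat := inferInstanceAs (PolishSpace (Fin 3 → Fin 3 → ℝ))
  exact closedEmb_val.polishSpace

theorem muq_dom : MeasurableSet {p : G × ℝ | |p.2| < 1} :=
  (isOpen_lt (continuous_abs.comp continuous_snd) continuous_const).measurableSet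

/-- preimages -/
theorem muq_preimage (S : FB X) (i : Fin S.n) {E : Set (G × ℝ)} (hE : MeasurableSet E)
    (h1 : ∀ p ∈ E, |p.2| < 1) {A : Set X} (hA : MeasurableSet A) :
    MeasurableSet (E ∩ (fun p : G × ℝ => p.1 • S.c i p.2) ⁻¹' A) := by
  classical
  have hm : Measurable ({p : G × ℝ | |p.2| < 1}.piecewise
      (fun p : G × ℝ => p.1 • S.c i p.2) (fun _ => S.c i 0)) :=
    ContinuousOn.measurable_piecewise (S.continuousOn_map i) continuousOn_const muq_dom
  have e : E ∩ (fun p : G × ℝ => p.1 • S.c i p.2) ⁻¹' A =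
      E ∩ ({p : G × ℝ | |p.2| < 1}.piecewise
      (fun p : G × ℝ => p.1 • S.c i p.2) (fun _ => S.c i 0)) ⁻¹' A := by
    ext p
    simp only [mem_inter_iff, mem_preimage]
    refine and_congr_right fun hp => ?_
    rw [Set.piecewise_eq_of_mem _ _ _ (show p ∈ {p : G × ℝ | |p.2| < 1} from h1 p hp)]
  rw [e]
  exact hE.inter (hm hA)

theorem muq_aemeas (S : FB X) (i : Fin S.n) {E : Set (G × ℝ)} (hE : MeasurableSet E)
    (h1 : ∀ p ∈ E, |p.2| < 1) :
    AEMeasurable (fun p : G × ℝ => p.1 • S.c i p.2) ((hG.prod volume).restrict E) :=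
  ((S.continuousOn_map i).mono h1).aemeasurable hE

theorem muq_aemeasW {S : FB X} (T : TN S) (i : Fin S.n) {E : Set (G × ℝ)} (hE : MeasurableSet E)
    (h1 : ∀ p ∈ E, |p.2| < 1) :
    AEMeasurable (fun p : G × ℝ => ENNReal.ofReal (T.W p.1 i p.2))
      ((hG.prod volume).restrict E) :=
  (((T.cont i).mono h1).aemeasurable hE).ennreal_ofReal

theorem TN.IsMu.lintegral_image {S : FB X} {T : TN S} {μ : Measure X} (hμ : T.IsMu μ)
    (i : Fin S.n) (E : Set (G × ℝ)) (hE : MeasurableSet E) (h1 : ∀ p ∈ E, |p.2| < 1)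
    (hinj : InjOn (fun p : G × ℝ => p.1 • S.c i p.2) E) (f : X → ℝ≥0∞) (hf : Measurable f) :
    MeasurableSet ((fun p : G × ℝ => p.1 • S.c i p.2) '' E) ∧
    ∫⁻ x in (fun p : G × ℝ => p.1 • S.c i p.2) '' E, f x ∂μ =
      ∫⁻ p in E, f (p.1 • S.c i p.2) * ENNReal.ofReal (T.W p.1 i p.2) ∂(hG.prod volume) := by
  have := muq_polish
  have hmeas : MeasurableSet ((fun p : G × ℝ => p.1 • S.c i p.2) '' E) :=
    hE.image_of_continuousOn_injOn ((S.continuousOn_map i).mono h1) hinj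
  refine ⟨hmeas, ?_⟩
  have hΘ := muq_aemeas S i hE h1
  have hW := muq_aemeasW T i hE h1
  have hΘ' : AEMeasurable (fun p : G × ℝ => p.1 • S.c i p.2) (((hG.prod volume).restrict
      E).withDensity (fun p => ENNReal.ofReal (T.W p.1 i p.2))) :=
    hΘ.mono_ac (withDensity_absolutelyContinuous _ _)
  have key : μ.restrict ((fun p : G × ℝ => p.1 • S.c i p.2) '' E) =
      Measure.map (fun p : G × ℝ => p.1 • S.c i p.2) (((hG.prod volume).restrict
      E).withDensity (fun p => ENNReal.ofReal (T.W p.1 i p.2))) := by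
    ext A hA
    rw [Measure.restrict_apply hA, Measure.map_apply_of_aemeasurable hΘ' hA]
    have hEA := muq_preimage S i hE h1 hA
    have e1 : A ∩ (fun p : G × ℝ => p.1 • S.c i p.2) '' E =
        (fun p : G × ℝ => p.1 • S.c i p.2) '' (E ∩ (fun p : G × ℝ => p.1 • S.c i p.2) ⁻¹' A) := by
      rw [image_inter_preimage, inter_comm]
    rw [e1, hμ.2 i _ hEA (fun p hp => h1 p hp.1) (hinj.mono inter_subset_left)]
    rw [← restrict_withDensity hE, Measure.restrict_apply' hE,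
      inter_comm ((fun p : G × ℝ => p.1 • S.c i p.2) ⁻¹' A) E, withDensity_apply _ hEA]
  rw [key, lintegral_map' hf.aemeasurable hΘ']
  refine (lintegral_withDensity_eq_lintegral_mul₀ hW (hf.comp_aemeasurable hΘ)).trans ?_
  refine lintegral_congr fun p => ?_
  simp only [Pi.mul_apply]
  exact mul_comm _ _

/-- countably many Borel pieces on which the flow box map is injective -/
theorem muq_pieces (S : FB X) : ∃ V : ℕ → Set (G × ℝ), (∀ k, MeasurableSet (V k)) ∧
    (∀ k, ∀ p ∈ V k, |p.2| < 1) ∧ (∀ k i, InjOn (fun p : G × ℝ => p.1 • S.c i p.2) (V k)) ∧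
    (⋃ k, V k) = {p : G × ℝ | |p.2| < 1} := by
  have hρ0 : 0 < S.ρ0 := by
    have h1 := S.hρ1
    have h2 := S.hρ
    linarith
  have hcont : ∀ g : G, Continuous fun h : G => nd (g⁻¹ * h) := fun g =>
    continuous_nd.comp (continuous_const.mul continuous_id)
  have hopen : ∀ g : G, IsOpen {h : G | nd (g⁻¹ * h) < S.ρ0} := fun g =>
    isOpen_lt (hcont g) continuous_const
  obtain ⟨s, hs, hU⟩ := TopologicalSpace.countable_cover_nhds
    (f := fun g : G => {h : G | nd (g⁻¹ * h) < S.ρ0}) (fun g => (hopen g).mem_nhds (by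
      simp only [mem_ofPred_eq, inv_mul_cancel, nd_one]; exact hρ0))
  have hne : s.Nonempty := by
    by_contra h
    rw [not_nonempty_iff_eq_empty] at h
    rw [h] at hU
    simp only [mem_empty_iff_false, iUnion_of_empty, iUnion_empty] at hU
    exact (univ_nonempty.ne_empty hU.symm).elim
  obtain ⟨γ, hγ⟩ := hs.exists_eq_range hne
  refine ⟨fun k => {p : G × ℝ | nd ((γ k)⁻¹ * p.1) < S.ρ0 ∧ |p.2| < 1}, fun k => ?_,
    fun k p hp => hp.2, fun k i p hp q hq h => ?_, ?_⟩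
  · exact (((hopen (γ k)).preimage continuous_fst).inter
      (isOpen_lt (continuous_abs.comp continuous_snd) continuous_const)).measurableSet
  · have h' : ((γ k)⁻¹ * p.1) • S.c i p.2 = ((γ k)⁻¹ * q.1) • S.c i q.2 := by
      rw [mul_smul, mul_smul]
      exact congrArg _ h
    obtain ⟨h1, h2⟩ := S.inj i _ _ _ _ hp.2 hq.2 hp.1 hq.1 h'
    exact Prod.ext (mul_left_cancel h1) h2
  · ext p
    simp only [mem_iUnion, mem_ofPred_eq]
    refine ⟨fun ⟨k, hk⟩ => hk.2, fun hp => ?_⟩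
    have : p.1 ∈ (⋃ x ∈ s, {h : G | nd (x⁻¹ * h) < S.ρ0}) := by rw [hU]; trivial
    simp only [mem_iUnion] at this
    obtain ⟨g, hg, hgp⟩ := this
    rw [hγ] at hg
    obtain ⟨k, rfl⟩ := hg
    exact ⟨k, hgp, hp⟩

theorem TN.IsMu.image_le {S : FB X} {T : TN S} {μ : Measure X} (hμ : T.IsMu μ) (i : Fin S.n)
    (E : Set (G × ℝ)) (hE : MeasurableSet E) (h1 : ∀ p ∈ E, |p.2| < 1) :
    μ ((fun p : G × ℝ => p.1 • S.c i p.2) '' E) ≤
      ∫⁻ p in E, ENNReal.ofReal (T.W p.1 i p.2) ∂(hG.prod volume) := by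
  obtain ⟨V, hVm, hV1, hVi, hVU⟩ := muq_pieces S
  have hd := disjoint_disjointed V
  have hdm := MeasurableSet.disjointed hVm
  have hEeq : E = ⋃ k, E ∩ disjointed V k := by
    rw [← inter_iUnion, iUnion_disjointed, hVU]
    exact (inter_eq_left.2 h1).symm
  have hm : ∀ k, MeasurableSet (E ∩ disjointed V k) := fun k => hE.inter (hdm k)
  have hpd : Pairwise (Function.onFun Disjoint fun k => E ∩ disjointed V k) :=
    fun a b hab => (hd hab).mono inter_subset_right inter_subset_right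
  calc μ ((fun p : G × ℝ => p.1 • S.c i p.2) '' E) =
      μ (⋃ k, (fun p : G × ℝ => p.1 • S.c i p.2) '' (E ∩ disjointed V k)) := by
        rw [← image_iUnion, ← hEeq]
    _ ≤ ∑' k, μ ((fun p : G × ℝ => p.1 • S.c i p.2) '' (E ∩ disjointed V k)) :=
        measure_iUnion_le _
    _ = ∑' k, ∫⁻ p in E ∩ disjointed V k, ENNReal.ofReal (T.W p.1 i p.2) ∂(hG.prod volume) := by
        congr 1
        funext k
        exact hμ.2 i _ (hm k) (fun p hp => h1 p hp.1)
          ((hVi k i).mono fun p hp => disjointed_subset _ _ hp.2)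
    _ = ∫⁻ p in ⋃ k, E ∩ disjointed V k, ENNReal.ofReal (T.W p.1 i p.2) ∂(hG.prod volume) :=
        (lintegral_iUnion hm hpd _).symm
    _ = _ := by rw [← hEeq]

theorem TN.IsMu.ae_pull {S : FB X} {T : TN S} {μ : Measure X} (hμ : T.IsMu μ) (i : Fin S.n)
    {p : X → Prop} (h : ∀ᵐ x ∂μ, p x) :
    ∀ᵐ q ∂(hG.prod volume), |q.2| < 1 → p ((q : G × ℝ).1 • S.c i q.2) := by
  obtain ⟨V, hVm, hV1, hVi, hVU⟩ := muq_pieces S
  obtain ⟨N, hN1, hN2, hN3⟩ := exists_measurable_superset_of_null (measure_eq_zero_iff_ae_notMem.2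
    (show ∀ᵐ x ∂μ, x ∉ {x | ¬ p x} by
      filter_upwards [h] with x hx
      simpa using hx))
  have hk : ∀ k, (hG.prod volume) (V k ∩ (fun p : G × ℝ => p.1 • S.c i p.2) ⁻¹' N) = 0 := by
    intro k
    have hm := muq_preimage S i (hVm k) (hV1 k) hN2
    have h1 := hμ.2 i _ hm (fun p hp => hV1 k p hp.1) ((hVi k i).mono inter_subset_left)
    have h0 : μ ((fun p : G × ℝ => p.1 • S.c i p.2) ''
        (V k ∩ (fun p : G × ℝ => p.1 • S.c i p.2) ⁻¹' N)) = 0 := by
      refine measure_mono_null ?_ hN3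
      rintro _ ⟨q, hq, rfl⟩
      exact hq.2
    rw [h0] at h1
    have h2 := (lintegral_eq_zero_iff' (muq_aemeasW T i hm fun p hp => hV1 k p hp.1)).1 h1.symm
    rw [Filter.EventuallyEq, ae_restrict_iff' hm] at h2
    rw [measure_eq_zero_iff_ae_notMem]
    filter_upwards [h2] with q hq hqm
    have h3 := hq hqm
    simp only [Pi.zero_apply, ENNReal.ofReal_eq_zero] at h3
    exact absurd (T.pos q.1 i q.2 (hV1 k q hqm.1)) (not_lt.2 h3)
  have hall := measure_iUnion_null hk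
  filter_upwards [measure_eq_zero_iff_ae_notMem.1 hall] with q hq hq1
  by_contra hcon
  refine hq ?_
  have : q ∈ ⋃ k, V k := by rw [hVU]; exact hq1
  obtain ⟨k, hk⟩ := mem_iUnion.1 this
  exact mem_iUnion.2 ⟨k, hk, hN1 hcon⟩

/-- a countable Borel partition of `X` into images of pieces -/
theorem muq_partition (S : FB X) [Nonempty X] :
    ∃ (ι : ℕ → Fin S.n) (E : ℕ → Set (G × ℝ)),
    (∀ k, MeasurableSet (E k)) ∧ (∀ k, ∀ p ∈ E k, |p.2| < 1) ∧
    (∀ k, InjOn (fun p : G × ℝ => p.1 • S.c (ι k) p.2) (E k)) ∧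
    (∀ k, MeasurableSet ((fun p : G × ℝ => p.1 • S.c (ι k) p.2) '' E k)) ∧
    (Pairwise (Function.onFun Disjoint fun k =>
      (fun p : G × ℝ => p.1 • S.c (ι k) p.2) '' E k)) ∧
    (⋃ k, (fun p : G × ℝ => p.1 • S.c (ι k) p.2) '' E k) = (univ : Set X) := by
  have := muq_polish
  obtain ⟨x0⟩ := (inferInstance : Nonempty X)
  obtain ⟨i0, -⟩ := S.cover x0
  obtain ⟨V, hVm, hV1, hVi, hVU⟩ := muq_pieces S
  have : Nonempty (Fin S.n × ℕ) := ⟨(i0, 0)⟩
  obtain ⟨e, he⟩ := exists_surjective_nat (Fin S.n × ℕ)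
  let Z : ℕ → Set X := fun m => (fun p : G × ℝ => p.1 • S.c (e m).1 p.2) '' V (e m).2
  have hZm : ∀ m, MeasurableSet (Z m) := fun m =>
    (hVm _).image_of_continuousOn_injOn ((S.continuousOn_map _).mono (hV1 _)) (hVi _ _)
  have hDm := MeasurableSet.disjointed hZm
  have himg : ∀ m, (fun p : G × ℝ => p.1 • S.c (e m).1 p.2) ''
      (V (e m).2 ∩ (fun p : G × ℝ => p.1 • S.c (e m).1 p.2) ⁻¹' (disjointed Z m)) =
      disjointed Z m := by
    intro m
    rw [image_inter_preimage]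
    exact inter_eq_right.2 (disjointed_subset Z m)
  refine ⟨fun m => (e m).1, fun m => V (e m).2 ∩
    (fun p : G × ℝ => p.1 • S.c (e m).1 p.2) ⁻¹' (disjointed Z m), fun m => ?_, fun m p hp => ?_,
    fun m => ?_, fun m => ?_, ?_, ?_⟩
  · exact muq_preimage S _ (hVm _) (hV1 _) (hDm m)
  · exact hV1 _ p hp.1
  · exact (hVi _ _).mono inter_subset_left
  · rw [himg]; exact hDm m
  · intro a b hab
    simp only [Function.onFun]
    rw [himg, himg]
    exact disjoint_disjointed Z hab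
  · simp only [himg]
    rw [iUnion_disjointed, eq_univ_iff_forall]
    intro x
    obtain ⟨i, h, t, -, ht, hx⟩ := S.cover x
    have : (h, t) ∈ ⋃ k, V k := by
      rw [hVU]
      show |t| < 1
      linarith
    obtain ⟨k, hk⟩ := mem_iUnion.1 this
    obtain ⟨m, hm⟩ := he (i, k)
    refine mem_iUnion.2 ⟨m, (h, t), ?_, ?_⟩
    · rw [hm]; exact hk
    · simp only [hm]; exact hx.symm

theorem TN.IsMu.qi {S : FB X} {T : TN S} {μ : Measure X} (hμ : T.IsMu μ) (g : G)
    (f : X → ℝ≥0∞) (hf : Measurable f) :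
    ∫⁻ x, f (g⁻¹ • x) * ENNReal.ofReal (T.J g⁻¹ x) ∂μ = ∫⁻ x, f x ∂μ := by
  rcases isEmpty_or_nonempty X with hX | hX
  · rw [lintegral_of_isEmpty, lintegral_of_isEmpty]
  obtain ⟨ι, E, hEm, hE1, hEi, hIm, hId, hIU⟩ := muq_partition S
  -- the translated pieces
  let φ : (G × ℝ) ≃ᵐ (G × ℝ) :=
    (MeasurableEquiv.mulLeft g⁻¹).prodCongr (MeasurableEquiv.refl ℝ)
  have hφ : ∀ p : G × ℝ, φ p = (g⁻¹ * p.1, p.2) := fun p => rfl
  have hφp : MeasurePreserving φ (hG.prod volume) (hG.prod volume) :=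
    (measurePreserving_mul_left hG g⁻¹).prod (MeasurePreserving.id volume)
  have hΘφ : ∀ (i : Fin S.n) (p : G × ℝ), (φ p).1 • S.c i (φ p).2 = g⁻¹ • (p.1 • S.c i p.2) := by
    intro i p
    rw [hφ]
    exact mul_smul _ _ _
  have hE'1 : ∀ k, ∀ p ∈ φ ⁻¹' (E k), |p.2| < 1 := fun k p hp => hE1 k (φ p) hp
  have hE'm : ∀ k, MeasurableSet (φ ⁻¹' (E k)) := fun k => φ.measurable (hEm k)
  have hE'i : ∀ k, InjOn (fun p : G × ℝ => p.1 • S.c (ι k) p.2) (φ ⁻¹' (E k)) := by
    intro k p hp q hq h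
    refine φ.injective (hEi k hp hq ?_)
    show (φ p).1 • S.c (ι k) (φ p).2 = (φ q).1 • S.c (ι k) (φ q).2
    rw [hΘφ, hΘφ]
    exact congrArg _ h
  have himg : ∀ k, (fun p : G × ℝ => p.1 • S.c (ι k) p.2) '' (φ ⁻¹' (E k)) =
      (fun x : X => g⁻¹ • x) ⁻¹' ((fun p : G × ℝ => p.1 • S.c (ι k) p.2) '' E k) := by
    intro k
    ext x
    constructor
    · rintro ⟨p, hp, rfl⟩
      exact ⟨φ p, hp, hΘφ _ _⟩
    · rintro ⟨q, hq, hqx⟩
      refine ⟨φ.symm q, ?_, ?_⟩
      · rw [mem_preimage, φ.apply_symm_apply]; exact hq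
      · have h := hΘφ (ι k) (φ.symm q)
        rw [φ.apply_symm_apply] at h
        have h2 : g⁻¹ • ((φ.symm q).1 • S.c (ι k) (φ.symm q).2) = g⁻¹ • x := h.symm.trans hqx
        exact smul_left_cancel _ h2
  have hcs : Measurable (fun x : X => g⁻¹ • x) := (continuous_const_smul g⁻¹).measurable
  have hJm : Measurable (fun x : X => ENNReal.ofReal (T.J g⁻¹ x)) :=
    ((T.continuous_J).comp (Continuous.prodMk continuous_const continuous_id)).measurable.ennreal_ofReal
  have hF : Measurable (fun x : X => f (g⁻¹ • x) * ENNReal.ofReal (T.J g⁻¹ x)) :=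
    (hf.comp hcs).mul hJm
  have hIm' : ∀ k, MeasurableSet ((fun x : X => g⁻¹ • x) ⁻¹'
      ((fun p : G × ℝ => p.1 • S.c (ι k) p.2) '' E k)) := fun k => hcs (hIm k)
  calc ∫⁻ x, f (g⁻¹ • x) * ENNReal.ofReal (T.J g⁻¹ x) ∂μ
      = ∫⁻ x in ⋃ k, (fun x : X => g⁻¹ • x) ⁻¹'
          ((fun p : G × ℝ => p.1 • S.c (ι k) p.2) '' E k),
          f (g⁻¹ • x) * ENNReal.ofReal (T.J g⁻¹ x) ∂μ := by
        rw [← preimage_iUnion, hIU, preimage_univ, setLIntegral_univ]
    _ = ∑' k, ∫⁻ x in (fun x : X => g⁻¹ • x) ⁻¹'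
          ((fun p : G × ℝ => p.1 • S.c (ι k) p.2) '' E k),
          f (g⁻¹ • x) * ENNReal.ofReal (T.J g⁻¹ x) ∂μ :=
        lintegral_iUnion hIm' (fun a b hab => (hId hab).preimage _) _
    _ = ∑' k, ∫⁻ x in (fun p : G × ℝ => p.1 • S.c (ι k) p.2) '' E k, f x ∂μ := by
        congr 1
        funext k
        rw [← himg, (hμ.lintegral_image (ι k) _ (hE'm k) (hE'1 k) (hE'i k) _ hF).2,
          (hμ.lintegral_image (ι k) _ (hEm k) (hE1 k) (hEi k) _ hf).2]
        rw [← hφp.setLIntegral_comp_preimage_emb φ.measurableEmbedding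
          (fun p => f (p.1 • S.c (ι k) p.2) * ENNReal.ofReal (T.W p.1 (ι k) p.2)) (E k)]
        refine setLIntegral_congr_fun (hE'm k) fun p hp => ?_
        have hp1 : |p.2| < 1 := hE'1 k p hp
        show f (g⁻¹ • p.1 • S.c (ι k) p.2) * ENNReal.ofReal (T.J g⁻¹ (p.1 • S.c (ι k) p.2)) *
          ENNReal.ofReal (T.W p.1 (ι k) p.2) =
          f ((φ p).1 • S.c (ι k) (φ p).2) * ENNReal.ofReal (T.W (φ p).1 (ι k) (φ p).2)
        rw [hΘφ, mul_assoc, ← ENNReal.ofReal_mul (T.J_pos _ _).le, hφ,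
          T.W_mul g⁻¹ p.1 (ι k) p.2 hp1]
    _ = ∫⁻ x in ⋃ k, (fun p : G × ℝ => p.1 • S.c (ι k) p.2) '' E k, f x ∂μ :=
        (lintegral_iUnion hIm hId _).symm
    _ = ∫⁻ x, f x ∂μ := by rw [hIU, setLIntegral_univ]

/-- The Koopman data of a flow box structure. -/
noncomputable def TN.IsMu.kd {S : FB X} {T : TN S} {μ : Measure X} (hμ : T.IsMu μ) : KD X μ where
  J := T.J
  pos := T.J_pos
  cont := T.continuous_J
  coc := T.J_mul
  qi := hμ.qi

end Pool.Agent.H88.LF
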