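import Pool.Agent.H88.LF.INVH
import Pool.Agent.H88.LF.MUQ

/-!
# INVA (blueprint section 7)
-/

set_option autoImplicit false

open MeasureTheory Set Filter
open scoped Topology ENNReal

namespace Pool.Agent.H88.LF

/-- a nonnegative function vanishes where its primitive is constant -/
theorem INVA_flat {F : ℝ → ℝ} (hF0 : ∀ t, 0 ≤ F t) (hFi : Integrable F) (c : ℝ) :
    ∀ᵐ s : ℝ, |s| < 1 → (∫ x in (0 : ℝ)..s, F x) = c → F s = 0 := by
  have hint : ∀ a b : ℝ, IntervalIntegrable F volume a b := fun a b => hFi.intervalIntegrable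
  have hcont : Continuous (fun s : ℝ => ∫ x in (0 : ℝ)..s, F x) :=
    intervalIntegral.continuous_primitive hint 0
  set A : Set ℝ := Icc (-1) 1 ∩ {s | (∫ x in (0 : ℝ)..s, F x) = c} with hA
  have hAc : IsCompact A := isCompact_Icc.inter_right (isClosed_eq hcont continuous_const)
  rcases A.eq_empty_or_nonempty with h0 | hne
  · refine Eventually.of_forall fun s hs hc => ?_
    exfalso
    have : s ∈ A := ⟨⟨(abs_lt.1 hs).1.le, (abs_lt.1 hs).2.le⟩, hc⟩
    rw [h0] at this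
    exact this
  · obtain ⟨a, haA, ha⟩ := hAc.exists_isLeast hne
    obtain ⟨b, hbA, hb⟩ := hAc.exists_isGreatest hne
    have hab : a ≤ b := ha hbA
    have h1 : ∫ x in a..b, F x = 0 := by
      have := intervalIntegral.integral_interval_sub_left (hint 0 b) (hint 0 a)
      rw [← this, show (∫ x in (0 : ℝ)..b, F x) = c from hbA.2,
        show (∫ x in (0 : ℝ)..a, F x) = c from haA.2, sub_self]
    rw [intervalIntegral.integral_of_le hab] at h1
    rw [setIntegral_eq_zero_iff_of_nonneg_ae (Eventually.of_forall fun x => hF0 x)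
      hFi.integrableOn] at h1
    rw [EventuallyEq, ae_restrict_iff' measurableSet_Ioc] at h1
    have h2 : ∀ᵐ s : ℝ, s ≠ a := by
      rw [ae_iff]
      simp
    filter_upwards [h1, h2] with s hs hsa hs1 hsc
    have hsA : s ∈ A := ⟨⟨(abs_lt.1 hs1).1.le, (abs_lt.1 hs1).2.le⟩, hsc⟩
    exact hs ⟨lt_of_le_of_ne (ha hsA) (Ne.symm hsa), hb hsA⟩

/-- primitives and monotone changes of variable -/
theorem INVA_step {F H : ℝ → ℝ} (hFi : Integrable F)
    (hHi : Integrable H) {τ τ' : ℝ → ℝ} {t0 ε : ℝ}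
    (hder : ∀ t, |t - t0| < ε → HasDerivAt τ (τ' t) t)
    (hsgn : (∀ t, |t - t0| < ε → 0 < τ' t) ∨ (∀ t, |t - t0| < ε → τ' t < 0))
    (hFH : ∀ᵐ s : ℝ, |s - t0| < ε → F s = |τ' s| * H (τ s)) {t : ℝ} (ht : |t - t0| < ε) :
    (∫ x in (0 : ℝ)..(τ t), H x) - (∫ x in (0 : ℝ)..(τ t0), H x) =
      Real.sign (τ' t0) * ((∫ x in (0 : ℝ)..t, F x) - (∫ x in (0 : ℝ)..t0, F x)) := by
  have hε : 0 < ε := lt_of_le_of_lt (abs_nonneg _) ht
  have hintF : ∀ a b : ℝ, IntervalIntegrable F volume a b := fun a b => hFi.intervalIntegrable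
  have hintH : ∀ a b : ℝ, IntervalIntegrable H volume a b := fun a b => hHi.intervalIntegrable
  rw [intervalIntegral.integral_interval_sub_left (hintH _ _) (hintH _ _),
    intervalIntegral.integral_interval_sub_left (hintF _ _) (hintF _ _)]
  have hsub : ∀ s ∈ uIcc t0 t, |s - t0| < ε := by
    intro s hs
    have h1 : |s - t0| ≤ |t - t0| := by
      rcases le_total t0 t with h | h
      · rw [uIcc_of_le h] at hs
        rw [abs_of_nonneg (by linarith [hs.1]), abs_of_nonneg (by linarith)]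
        linarith [hs.2]
      · rw [uIcc_of_ge h] at hs
        rw [abs_of_nonpos (by linarith [hs.2]), abs_of_nonpos (by linarith)]
        linarith [hs.1]
    exact lt_of_le_of_lt h1 ht
  have hcont : ContinuousOn τ (uIcc t0 t) := fun s hs =>
    (hder s (hsub s hs)).continuousAt.continuousWithinAt
  have hint_sub : interior (uIcc t0 t) ⊆ uIcc t0 t := interior_subset
  have hmono : (StrictMonoOn τ (uIcc t0 t) ∧ 0 < τ' t0) ∨
      (StrictAntiOn τ (uIcc t0 t) ∧ τ' t0 < 0) := by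
    have h00 : |t0 - t0| < ε := by simpa using hε
    rcases hsgn with h | h
    · left
      refine ⟨strictMonoOn_of_deriv_pos (convex_uIcc _ _) hcont fun s hs => ?_, h t0 h00⟩
      rw [(hder s (hsub s (hint_sub hs))).deriv]
      exact h s (hsub s (hint_sub hs))
    · right
      refine ⟨strictAntiOn_of_deriv_neg (convex_uIcc _ _) hcont fun s hs => ?_, h t0 h00⟩
      rw [(hder s (hsub s (hint_sub hs))).deriv]
      exact h s (hsub s (hint_sub hs))
  have hinj : InjOn τ (uIcc t0 t) := by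
    rcases hmono with h | h
    · exact h.1.injOn
    · exact h.1.injOn
  have himg : τ '' uIcc t0 t = uIcc (τ t0) (τ t) := by
    refine Subset.antisymm ?_ (intermediate_value_uIcc hcont)
    rcases hmono with h | h
    · exact (h.1.monotoneOn.mapsTo_uIcc).image_subset
    · exact (h.1.antitoneOn.mapsTo_uIcc).image_subset
  have hch : ∫ x in uIcc (τ t0) (τ t), H x = ∫ x in uIcc t0 t, F x := by
    rw [← himg, integral_image_eq_integral_abs_deriv_smul measurableSet_uIcc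
      (fun s hs => (hder s (hsub s hs)).hasDerivWithinAt) hinj]
    refine setIntegral_congr_ae measurableSet_uIcc ?_
    filter_upwards [hFH] with s hs hs1
    rw [hs (hsub s hs1), smul_eq_mul]
  have habsF : ∀ a b : ℝ, a ≤ b → ∫ x in a..b, F x = ∫ x in uIcc a b, F x := by
    intro a b hab
    rw [intervalIntegral.integral_of_le hab, uIcc_of_le hab]
    exact setIntegral_congr_set Ioc_ae_eq_Icc
  have habsH : ∀ a b : ℝ, a ≤ b → ∫ x in a..b, H x = ∫ x in uIcc a b, H x := by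
    intro a b hab
    rw [intervalIntegral.integral_of_le hab, uIcc_of_le hab]
    exact setIntegral_congr_set Ioc_ae_eq_Icc
  rcases hmono with ⟨hm, hp⟩ | ⟨hm, hp⟩
  · rw [Real.sign_of_pos hp, one_mul]
    rcases le_total t0 t with h | h
    · rw [habsH _ _ (hm.monotoneOn left_mem_uIcc right_mem_uIcc h), habsF _ _ h, hch]
    · rw [intervalIntegral.integral_symm, intervalIntegral.integral_symm t,
        habsH _ _ (hm.monotoneOn right_mem_uIcc left_mem_uIcc h), habsF _ _ h,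
        uIcc_comm (τ t) (τ t0), hch, uIcc_comm t0 t]
  · rw [Real.sign_of_neg hp]
    rcases le_total t0 t with h | h
    · rw [intervalIntegral.integral_symm,
        habsH _ _ (hm.antitoneOn left_mem_uIcc right_mem_uIcc h), habsF _ _ h,
        uIcc_comm (τ t) (τ t0), hch]
      ring
    · rw [habsH _ _ (hm.antitoneOn right_mem_uIcc left_mem_uIcc h),
        intervalIntegral.integral_symm t, habsF _ _ h, hch, uIcc_comm t0 t]
      ring

variable {X : Type} [MetricSpace X] [CompactSpace X] [MulAction G X] [ContinuousSMul G X]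

/-- the density of the vector in a box -/
noncomputable def INVA_Ψ {S : FB X} (T : TN S) (φ : X → ℂ) (i : Fin S.n) (p : G × ℝ) : ℝ≥0∞ :=
  open Classical in
  if |p.2| < 1 then ENNReal.ofReal (‖φ (p.1 • S.c i p.2)‖ ^ 2 * T.W p.1 i p.2) else 0

theorem INVA_U_meas : MeasurableSet {p : G × ℝ | |p.2| < 1} :=
  (isOpen_lt (by fun_prop) continuous_const).measurableSet

section meas
variable [MeasurableSpace X] [BorelSpace X]

theorem INVA_meas {S : FB X} (T : TN S) {φ : X → ℂ} (hφ : Measurable φ) (i : Fin S.n) :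
    Measurable (INVA_Ψ T φ i) := by
  refine measurable_of_restrict_of_restrict_compl INVA_U_meas ?_ ?_
  · have h1 : Measurable (fun p : {p : G × ℝ | |p.2| < 1} => p.1.1 • S.c i p.1.2) :=
      (continuousOn_iff_continuous_domRestrict.1 (FB.continuousOn_map S i)).measurable
    have h2 : Measurable (fun p : {p : G × ℝ | |p.2| < 1} => T.W p.1.1 i p.1.2) :=
      (continuousOn_iff_continuous_domRestrict.1 (T.cont i)).measurable
    have h3 : Measurable (fun p : {p : G × ℝ | |p.2| < 1} =>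
        ENNReal.ofReal (‖φ (p.1.1 • S.c i p.1.2)‖ ^ 2 * T.W p.1.1 i p.1.2)) :=
      (((hφ.comp h1).norm.pow_const 2).mul h2).ennreal_ofReal
    have e : (({p : G × ℝ | |p.2| < 1}).domRestrict (INVA_Ψ T φ i)) = (fun p : {p : G × ℝ | |p.2| < 1} =>
        ENNReal.ofReal (‖φ (p.1.1 • S.c i p.1.2)‖ ^ 2 * T.W p.1.1 i p.1.2)) :=
      funext fun p => if_pos p.2
    rw [e]
    exact h3
  · have h3 : Measurable (fun _ : ({p : G × ℝ | |p.2| < 1}ᶜ : Set (G × ℝ)) => (0 : ℝ≥0∞)) :=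
      measurable_const
    have e : (({p : G × ℝ | |p.2| < 1}ᶜ).domRestrict (INVA_Ψ T φ i)) =
        (fun _ : ({p : G × ℝ | |p.2| < 1}ᶜ : Set (G × ℝ)) => (0 : ℝ≥0∞)) :=
      funext fun p => if_neg p.2
    rw [e]
    exact h3

theorem INVA_inv {S : FB X} {T : TN S} {μ : Measure X}
    (hμ : T.IsMu μ) (R : URep (Lp ℂ 2 μ)) (hR : hμ.kd.IsKoop R) (φ : Lp ℂ 2 μ)
    (hinv : ∀ g, R.π g φ = φ) (i : Fin S.n) (g : G) :
    ∀ᵐ p ∂(hG.prod volume), INVA_Ψ T φ i p = INVA_Ψ T φ i (g⁻¹ * p.1, p.2) := by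
  have h1 := hR g φ
  rw [hinv g] at h1
  filter_upwards [hμ.ae_pull i h1] with p hp
  unfold INVA_Ψ
  by_cases h2 : |p.2| < 1
  · rw [if_pos h2, if_pos h2]
    congr 1
    have h3 := hp h2
    have h4 : hμ.kd.J g⁻¹ (p.1 • S.c i p.2) = T.J g⁻¹ (p.1 • S.c i p.2) := rfl
    rw [h4] at h3
    rw [T.W_mul g⁻¹ p.1 i p.2 h2, h3, norm_mul, mul_pow, smul_smul, Complex.norm_real,
      Real.norm_eq_abs, sq_abs, Real.sq_sqrt (T.J_pos _ _).le]
    ring
  · rw [if_neg h2, if_neg h2]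

/-- along almost every transverse parameter the density is a.e. constant -/
theorem INVA_const {S : FB X} {T : TN S} {μ : Measure X}
    (hμ : T.IsMu μ) (R : URep (Lp ℂ 2 μ)) (hR : hμ.kd.IsKoop R) (φ : Lp ℂ 2 μ)
    (hφ : Measurable (φ : X → ℂ))
    (hinv : ∀ g, R.π g φ = φ) (i : Fin S.n) :
    ∀ᵐ t : ℝ, ∃ c : ℝ≥0∞, ∀ᵐ h ∂hG, INVA_Ψ T φ i (h, t) = c := by
  have hm := INVA_meas T hφ i
  have h1 : ∀ᵐ g ∂hG, ∀ᵐ p ∂(hG.prod (volume : Measure ℝ)),
      INVA_Ψ T φ i p = INVA_Ψ T φ i (g⁻¹ * p.1, p.2) :=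
    Eventually.of_forall fun g => INVA_inv hμ R hR φ hinv i g
  have hms : MeasurableSet {q : G × (G × ℝ) | INVA_Ψ T φ i q.2 =
      INVA_Ψ T φ i (q.1⁻¹ * q.2.1, q.2.2)} := by
    have c1 : Continuous (fun q : G × (G × ℝ) => (q.1⁻¹ * q.2.1, q.2.2)) := by fun_prop
    exact measurableSet_eq_fun (hm.comp measurable_snd) (hm.comp c1.measurable)
  rw [Measure.ae_ae_comm hms] at h1
  have h2 := (Measure.measurePreserving_swap (μ := (volume : Measure ℝ))
    (ν := hG)).quasiMeasurePreserving.ae h1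
  have h3 := Measure.ae_ae_of_ae_prod h2
  filter_upwards [h3] with t ht
  obtain ⟨h0, hh0⟩ := ht.exists
  refine ⟨INVA_Ψ T φ i (h0, t), ?_⟩
  have h4 : ∀ᵐ g ∂hG, INVA_Ψ T φ i (h0, t) = INVA_Ψ T φ i (g⁻¹ * h0, t) := hh0
  have h5 := ae_mul_left h0 h4
  have h6 := (quasiMeasurePreserving_inv hG).ae h5
  filter_upwards [h6] with h hh
  rw [hh]
  congr 2
  group

/-- the essential value -/
noncomputable def INVA_Fe {S : FB X} (T : TN S) (φ : X → ℂ) (i : Fin S.n) (t : ℝ) : ℝ≥0∞ :=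
  (hG (Bl 1))⁻¹ * ∫⁻ h in Bl 1, INVA_Ψ T φ i (h, t) ∂hG

theorem INVA_Fe_meas {S : FB X} (T : TN S) {φ : X → ℂ} (hφ : Measurable φ) (i : Fin S.n) :
    Measurable (INVA_Fe T φ i) := by
  have hm := INVA_meas T hφ i
  exact (Measurable.lintegral_prod_left' (μ := hG.restrict (Bl 1)) hm).const_mul _

omit [CompactSpace X] [ContinuousSMul G X] [MeasurableSpace X] [BorelSpace X] in
theorem INVA_Fe_out {S : FB X} (T : TN S) (φ : X → ℂ) (i : Fin S.n) {t : ℝ} (ht : ¬ |t| < 1) :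
    INVA_Fe T φ i t = 0 := by
  unfold INVA_Fe
  have : ∀ h : G, INVA_Ψ T φ i (h, t) = 0 := fun h => if_neg ht
  simp [this]

theorem INVA_Fe_ae {S : FB X} {T : TN S} {μ : Measure X}
    (hμ : T.IsMu μ) (R : URep (Lp ℂ 2 μ)) (hR : hμ.kd.IsKoop R) (φ : Lp ℂ 2 μ)
    (hφ : Measurable (φ : X → ℂ))
    (hinv : ∀ g, R.π g φ = φ) (i : Fin S.n) :
    ∀ᵐ t : ℝ, ∀ᵐ h ∂hG, INVA_Ψ T φ i (h, t) = INVA_Fe T φ i t := by
  filter_upwards [INVA_const hμ R hR φ hφ hinv i] with t ht
  obtain ⟨c, hc⟩ := ht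
  have h1 : INVA_Fe T φ i t = c := by
    unfold INVA_Fe
    have h2 : ∫⁻ h in Bl 1, INVA_Ψ T φ i (h, t) ∂hG = ∫⁻ h in Bl 1, c ∂hG :=
      lintegral_congr_ae (ae_restrict_of_ae hc)
    rw [h2, setLIntegral_const, mul_comm c, ← mul_assoc,
      ENNReal.inv_mul_cancel (hG_Bl_pos one_pos).ne' (hG_Bl_lt_top 1).ne, one_mul]
  rw [h1]
  exact hc

theorem INVA_Fe_int {S : FB X} {T : TN S} {μ : Measure X}
    (hμ : T.IsMu μ) (R : URep (Lp ℂ 2 μ)) (hR : hμ.kd.IsKoop R) (φ : Lp ℂ 2 μ)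
    (hφ : Measurable (φ : X → ℂ))
    (hinv : ∀ g, R.π g φ = φ) (i : Fin S.n) :
    ∫⁻ t, INVA_Fe T φ i t < ⊤ := by
  have hm := INVA_meas T hφ i
  have hρ0 : 0 < S.ρ0 := by have := S.hρ; have := S.hρ1; linarith
  set B : Set G := Bl (S.ρ0 / 2) with hB
  have hBm : MeasurableSet B := measurableSet_Bl _
  set E : Set (G × ℝ) := B ×ˢ Ioo (-1) 1 with hE
  have hEm : MeasurableSet E := hBm.prod measurableSet_Ioo
  have hE1 : ∀ p ∈ E, |p.2| < 1 := fun p hp => abs_lt.2 hp.2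
  have hinj : InjOn (fun p : G × ℝ => p.1 • S.c i p.2) E := by
    intro p hp q hq hpq
    have h1 : nd p.1 < S.ρ0 := lt_of_le_of_lt hp.1 (by linarith)
    have h2 : nd q.1 < S.ρ0 := lt_of_le_of_lt hq.1 (by linarith)
    obtain ⟨h3, h4⟩ := S.inj i p.1 q.1 p.2 q.2 (hE1 p hp) (hE1 q hq) h1 h2 hpq
    exact Prod.ext h3 h4
  have hf : Measurable (fun x : X => ENNReal.ofReal (‖(φ : X → ℂ) x‖ ^ 2)) :=
    (hφ.norm.pow_const 2).ennreal_ofReal
  obtain ⟨-, h1⟩ := hμ.lintegral_image i E hEm hE1 hinj _ hf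
  have h2 : ∫⁻ x in (fun p : G × ℝ => p.1 • S.c i p.2) '' E,
      ENNReal.ofReal (‖(φ : X → ℂ) x‖ ^ 2) ∂μ < ⊤ := by
    refine lt_of_le_of_lt (setLIntegral_le_lintegral _ _) ?_
    have h3 := (memLp_two_iff_integrable_sq_norm (Lp.aestronglyMeasurable φ)).1 (Lp.memLp φ)
    exact h3.lintegral_lt_top
  rw [h1] at h2
  have h3 : ∫⁻ p in E, ENNReal.ofReal (‖(φ : X → ℂ) (p.1 • S.c i p.2)‖ ^ 2) *
      ENNReal.ofReal (T.W p.1 i p.2) ∂(hG.prod volume) =
      ∫⁻ p in E, INVA_Ψ T φ i p ∂(hG.prod volume) := by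
    refine setLIntegral_congr_fun hEm fun p hp => ?_
    show _ = INVA_Ψ T φ i p
    unfold INVA_Ψ
    rw [if_pos (hE1 p hp), ENNReal.ofReal_mul (by positivity)]
  rw [h3, hE, ← Measure.prod_restrict] at h2
  rw [lintegral_prod_symm _ (hm.aemeasurable)] at h2
  have h4 : ∫⁻ t in Ioo (-1 : ℝ) 1, ∫⁻ h in B, INVA_Ψ T φ i (h, t) ∂hG =
      ∫⁻ t in Ioo (-1 : ℝ) 1, hG B * INVA_Fe T φ i t := by
    refine lintegral_congr_ae ?_
    filter_upwards [ae_restrict_of_ae (INVA_Fe_ae hμ R hR φ hφ hinv i)] with t ht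
    rw [lintegral_congr_ae (ae_restrict_of_ae ht), setLIntegral_const, mul_comm]
  rw [h4, lintegral_const_mul _ (INVA_Fe_meas T hφ i)] at h2
  have h5 : ∫⁻ t in Ioo (-1 : ℝ) 1, INVA_Fe T φ i t < ⊤ := by
    by_contra h6
    rw [not_lt, top_le_iff] at h6
    rw [h6, ENNReal.mul_top (hG_Bl_pos (by linarith)).ne'] at h2
    exact lt_irrefl _ h2
  have h6 : ∫⁻ t, INVA_Fe T φ i t = ∫⁻ t in Ioo (-1 : ℝ) 1, INVA_Fe T φ i t := by
    rw [← lintegral_indicator measurableSet_Ioo]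
    congr 1
    funext t
    by_cases ht : t ∈ Ioo (-1 : ℝ) 1
    · rw [indicator_of_mem ht]
    · rw [indicator_of_notMem ht]
      exact INVA_Fe_out T φ i (fun h => ht (abs_lt.1 h))
  rw [h6]
  exact h5

end meas

/-- preimages of null sets under an injective local diffeomorphism are null sets -/
theorem INVA_null {τ τ' : ℝ → ℝ} {I : Set ℝ} (hI : MeasurableSet I)
    (hder : ∀ s ∈ I, HasDerivAt τ (τ' s) s) (hinj : InjOn τ I) (hne : ∀ s ∈ I, τ' s ≠ 0)
    (hτ' : Measurable τ') {p : ℝ → Prop} (hp : ∀ᵐ t, p t) : ∀ᵐ s : ℝ, s ∈ I → p (τ s) := by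
  set N : Set ℝ := toMeasurable volume {t | ¬ p t} with hN
  have hNm : MeasurableSet N := measurableSet_toMeasurable _ _
  have hN0 : volume N = 0 := by
    rw [hN, measure_toMeasurable]
    exact hp
  have h1 := lintegral_image_eq_lintegral_abs_deriv_mul hI
    (fun s hs => (hder s hs).hasDerivWithinAt) hinj (N.indicator (fun _ => (1 : ℝ≥0∞)))
  have h2 : ∫⁻ x in τ '' I, N.indicator (fun _ => (1 : ℝ≥0∞)) x = 0 := by
    refine le_antisymm ((setLIntegral_le_lintegral _ _).trans ?_) bot_le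
    rw [lintegral_indicator hNm, setLIntegral_const, hN0, mul_zero]
  rw [h2] at h1
  have hc : ContinuousOn τ I := fun s hs => (hder s hs).continuousAt.continuousWithinAt
  have hm : AEMeasurable (fun s => ENNReal.ofReal |τ' s| *
      N.indicator (fun _ => (1 : ℝ≥0∞)) (τ s)) (volume.restrict I) := by
    refine AEMeasurable.mul ?_ ?_
    · exact (hτ'.abs.ennreal_ofReal).aemeasurable
    · exact (measurable_const.indicator hNm).comp_aemeasurable (hc.aemeasurable hI)
  have h3 := (lintegral_eq_zero_iff' hm).1 h1.symm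
  rw [EventuallyEq, ae_restrict_iff' hI] at h3
  filter_upwards [h3] with s hs hsI
  have h4 := hs hsI
  simp only [Pi.zero_apply, mul_eq_zero] at h4
  rcases h4 with h4 | h4
  · exfalso
    rw [ENNReal.ofReal_eq_zero] at h4
    exact hne s hsI (abs_eq_zero.1 (le_antisymm h4 (abs_nonneg _)))
  · have h5 : τ s ∉ N := by
      intro h6
      rw [indicator_of_mem h6] at h4
      exact one_ne_zero h4
    by_contra h6
    exact h5 (subset_toMeasurable _ _ h6)

section meas2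
variable [MeasurableSpace X] [BorelSpace X]

theorem INVA_match {S : FB X} {T : TN S} {μ : Measure X}
    (hμ : T.IsMu μ) (R : URep (Lp ℂ 2 μ)) (hR : hμ.kd.IsKoop R) (φ : Lp ℂ 2 μ)
    (hφ : Measurable (φ : X → ℂ)) (hinv : ∀ g, R.π g φ = φ) {i j : Fin S.n} {t0 ε : ℝ}
    {k : ℝ → G} {τ : ℝ → ℝ}
    (h1 : ∀ t, |t - t0| < ε → S.Arr i j t (τ t) (k t))
    (h2 : ∀ t, |t - t0| < ε → HasDerivAt τ (deriv τ t) t)
    (h3 : ∀ t, |t - t0| < ε → deriv τ t ≠ 0)
    (h4 : ∀ t, |t - t0| < ε → S.dτ i j t (τ t) (k t) = deriv τ t)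
    (hinj : InjOn τ {t | |t - t0| < ε}) :
    ∀ᵐ s : ℝ, |s - t0| < ε → (INVA_Fe T φ i s).toReal =
      |deriv τ s| * (INVA_Fe T φ j (τ s)).toReal := by
  have hI : MeasurableSet {t : ℝ | |t - t0| < ε} :=
    (isOpen_lt (by fun_prop) continuous_const).measurableSet
  have hi := INVA_Fe_ae hμ R hR φ hφ hinv i
  have hj := INVA_null hI h2 hinj h3 (measurable_deriv τ) (INVA_Fe_ae hμ R hR φ hφ hinv j)
  filter_upwards [hi, hj] with s hs1 hs2 hs
  have hs3 := ae_mul_right (k s) (hs2 hs)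
  obtain ⟨g, hg1, hg2⟩ := (hs1.and hs3).exists
  have harr := h1 s hs
  rw [← hg1, ← hg2]
  unfold INVA_Ψ
  rw [if_pos harr.1, if_pos harr.2.1]
  have hW := T.rule i j s (τ s) (k s) harr g
  rw [h4 s hs] at hW
  have hc : g • S.c i s = (g * k s) • S.c j (τ s) := by
    rw [harr.2.2, smul_smul]
  simp only
  rw [hW, hc, ENNReal.toReal_ofReal, ENNReal.toReal_ofReal]
  · ring
  · exact mul_nonneg (by positivity) (T.pos _ _ _ harr.2.1).le
  · exact mul_nonneg (by positivity) (mul_nonneg (T.pos _ _ _ harr.2.1).le (abs_nonneg _))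

theorem INVA_height {S : FB X} {T : TN S} {μ : Measure X}
    (hμ : T.IsMu μ) (R : URep (Lp ℂ 2 μ)) (hR : hμ.kd.IsKoop R) (φ : Lp ℂ 2 μ)
    (hφ : Measurable (φ : X → ℂ)) (hinv : ∀ g, R.π g φ = φ) :
    S.IsHeight (fun i t => ∫ x in (0 : ℝ)..t, (INVA_Fe T φ i x).toReal) := by
  have hint : ∀ i, Integrable (fun x => (INVA_Fe T φ i x).toReal) := fun i =>
    integrable_toReal_of_lintegral_ne_top (INVA_Fe_meas T hφ i).aemeasurable
      (INVA_Fe_int hμ R hR φ hφ hinv i).ne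
  intro i j t0 τ0 k0 h
  obtain ⟨-, hτ0, -, hcd, hne, -⟩ := S.kf_τf_spec h
  set τ : ℝ → ℝ := S.τf i j t0 τ0 k0 with hτdef
  set k : ℝ → G := S.kf i j t0 τ0 k0 with hkdef
  have e1 := S.eventually_arr h
  have e2 := S.eventually_contDiffAt h
  have e3 := S.eventually_dτ h
  have hdc : ContinuousAt (deriv τ) t0 := by
    have h5 : ContDiffAt ℝ 1 (fderiv ℝ τ) t0 := hcd.fderiv_right (by norm_num)
    have h6 : deriv τ = fun t => fderiv ℝ τ t 1 := by
      funext t
      rfl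
    rw [h6]
    exact h5.continuousAt.clm_apply continuousAt_const
  have e4 : ∀ᶠ t in 𝓝 t0, 0 < deriv τ t * deriv τ t0 := by
    have h5 : ContinuousAt (fun t => deriv τ t * deriv τ t0) t0 := hdc.mul continuousAt_const
    exact h5.eventually (lt_mem_nhds (mul_self_pos.2 hne))
  obtain ⟨ε, hε, hall⟩ := Metric.eventually_nhds_iff.1 (e1.and (e2.and (e3.and e4)))
  have hall' : ∀ t, |t - t0| < ε → _ := fun t ht => hall (y := t) (by rwa [Real.dist_eq])
  have hder : ∀ t, |t - t0| < ε → HasDerivAt τ (deriv τ t) t := fun t ht =>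
    ((hall' t ht).2.1.2.1.differentiableAt (by norm_num)).hasDerivAt
  have hsgn : (∀ t, |t - t0| < ε → 0 < deriv τ t) ∨ (∀ t, |t - t0| < ε → deriv τ t < 0) := by
    rcases lt_or_gt_of_ne hne with h5 | h5
    · right
      intro t ht
      have h6 := (hall' t ht).2.2.2
      by_contra h7
      rw [not_lt] at h7
      exact absurd h6 (not_lt.2 (mul_nonpos_of_nonneg_of_nonpos h7 h5.le))
    · left
      intro t ht
      have h6 := (hall' t ht).2.2.2
      exact (pos_iff_pos_of_mul_pos h6).2 h5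
  have hset : {t : ℝ | |t - t0| < ε} = Metric.ball t0 ε := by
    ext t
    rw [Metric.mem_ball, Real.dist_eq]
    rfl
  have hinj : InjOn τ {t : ℝ | |t - t0| < ε} := by
    have hcx : Convex ℝ {t : ℝ | |t - t0| < ε} := by rw [hset]; exact convex_ball _ _
    have hct : ContinuousOn τ {t : ℝ | |t - t0| < ε} := fun s hs =>
      (hder s hs).continuousAt.continuousWithinAt
    have hsub0 : ∀ s ∈ interior {t : ℝ | |t - t0| < ε}, |s - t0| < ε := fun s hs => by
      have hs2 : s ∈ {t : ℝ | |t - t0| < ε} := interior_subset hs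
      exact hs2
    rcases hsgn with h5 | h5
    · exact (strictMonoOn_of_deriv_pos hcx hct fun s hs =>
        h5 s (hsub0 s hs)).injOn
    · exact (strictAntiOn_of_deriv_neg hcx hct fun s hs =>
        h5 s (hsub0 s hs)).injOn
  have hm := INVA_match hμ R hR φ hφ hinv (i := i) (j := j) (t0 := t0) (ε := ε) (k := k) (τ := τ)
    (fun t ht => (hall' t ht).1) hder
    (fun t ht => by
      rcases hsgn with h5 | h5
      · exact (h5 t ht).ne'
      · exact (h5 t ht).ne)
    (fun t ht => (hall' t ht).2.2.1.1) hinj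
  rw [Metric.eventually_nhds_iff]
  refine ⟨ε, hε, fun t ht => ?_⟩
  rw [Real.dist_eq] at ht
  have h5 := INVA_step (hint i) (hint j) hder hsgn hm ht
  rw [hτ0] at h5
  exact h5

/-- INVA: heights from an invariant vector.  `|φ(h c i t)|² W(h;i,t) = F_i(t)` for a.e. `(h,t)`: for fixed `g` invariance gives `Ψ(gh,t) = Ψ(h,t)` for a.e. `(h,t)`
(`ae_pull`, `W_mul`), so by Fubini for a.e. `t` the function `Ψ(·,t)` is a.e. constant.  `F_i` is measurable, `≥ 0`, locally integrable on `(-1,1)` (mass of a box is finite), and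
`F_i(t) = F_j(τf t)|τf' t|` a.e. near `t0` for every arrow (change of variables; right translation by `kf t` preserves null sets).
`N_i(t) = ∫_0^t F_i` (put `N_i = 0` or anything outside `(-1,1)`).  If `N_i(t') = N_i(t)` with `t' ≠ t` then `t` lies in `I_q = {s : N_i(s) = N_i(q)}` for a rational `q` between,
a nondegenerate interval on which `F_i = 0` a.e.; so `φ = 0` a.e. on the set of all `h c i s`, `s ∈ I_q`. -/
theorem heights {S : FB X} {T : TN S} {μ : Measure X}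
    (hμ : T.IsMu μ) (R : URep (Lp ℂ 2 μ)) (hR : hμ.kd.IsKoop R) (φ : Lp ℂ 2 μ)
    (hinv : ∀ g, R.π g φ = φ) :
    ∃ N : Fin S.n → ℝ → ℝ, S.IsHeight N ∧
      ∀ᵐ x ∂μ, (φ : X → ℂ) x ≠ 0 → ∀ (i : Fin S.n) (h : G) (t t' : ℝ), |t| < 1 → |t'| < 1 →
        x = h • S.c i t → N i t' = N i t → t' = t := by
  have hφ : Measurable (φ : X → ℂ) := (Lp.stronglyMeasurable φ).measurable
  have hint : ∀ i, Integrable (fun x => (INVA_Fe T φ i x).toReal) := fun i =>
    integrable_toReal_of_lintegral_ne_top (INVA_Fe_meas T hφ i).aemeasurable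
      (INVA_Fe_int hμ R hR φ hφ hinv i).ne
  refine ⟨fun i t => ∫ x in (0 : ℝ)..t, (INVA_Fe T φ i x).toReal,
    INVA_height hμ R hR φ hφ hinv, ?_⟩
  set N : Fin S.n → ℝ → ℝ := fun i t => ∫ x in (0 : ℝ)..t, (INVA_Fe T φ i x).toReal with hN
  have hNc : ∀ i, Continuous (N i) := fun i =>
    intervalIntegral.continuous_primitive (fun a b => (hint i).intervalIntegrable) 0
  have hNm : ∀ i, Monotone (N i) := by
    intro i a b hab
    have h1 : N i b - N i a = ∫ x in a..b, (INVA_Fe T φ i x).toReal :=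
      intervalIntegral.integral_interval_sub_left (hint i).intervalIntegrable
        (hint i).intervalIntegrable
    have h2 : 0 ≤ ∫ x in a..b, (INVA_Fe T φ i x).toReal :=
      intervalIntegral.integral_nonneg_of_forall hab (fun _ => ENNReal.toReal_nonneg)
    linarith
  let E : Fin S.n → ℚ → Set (G × ℝ) := fun i q =>
    {p | N i p.2 = N i q ∧ INVA_Ψ T φ i p ≠ 0}
  have hE1 : ∀ i q, ∀ p ∈ E i q, |p.2| < 1 := by
    intro i q p hp
    by_contra h1
    exact hp.2 (if_neg h1)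
  have hEm : ∀ i q, MeasurableSet (E i q) := by
    intro i q
    have h1 : MeasurableSet {p : G × ℝ | N i p.2 = N i q} :=
      (isClosed_eq ((hNc i).comp continuous_snd) continuous_const).measurableSet
    have h2 : MeasurableSet {p : G × ℝ | INVA_Ψ T φ i p ≠ 0} :=
      (INVA_meas T hφ i (measurableSet_singleton 0)).compl
    exact h1.inter h2
  have hE0 : ∀ i q, (hG.prod (volume : Measure ℝ)) (E i q) = 0 := by
    intro i q
    have h1 : ∀ᵐ t : ℝ, ∀ᵐ g ∂hG, (g, t) ∉ E i q := by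
      filter_upwards [INVA_Fe_ae hμ R hR φ hφ hinv i,
        INVA_flat (fun t => ENNReal.toReal_nonneg) (hint i) (N i q),
        ae_lt_top (INVA_Fe_meas T hφ i) (INVA_Fe_int hμ R hR φ hφ hinv i).ne] with t ht1 ht2 ht3
      filter_upwards [ht1] with g hg hgE
      have h2 := ht2 (hE1 i q _ hgE) hgE.1
      have h3 : INVA_Fe T φ i t = 0 := by
        rcases (ENNReal.toReal_eq_zero_iff _).1 h2 with h4 | h4
        · exact h4
        · exact absurd h4 ht3.ne
      rw [h3] at hg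
      exact hgE.2 hg
    have h2 : MeasurableSet {x : ℝ × G | (x.2, x.1) ∉ E i q} :=
      ((hEm i q).preimage measurable_swap).compl
    rw [Measure.ae_ae_comm h2] at h1
    have h3 := (Measure.ae_prod_iff_ae_ae (μ := hG) (ν := (volume : Measure ℝ))
      (p := fun p => p ∉ E i q) (hEm i q).compl).2 h1
    have h4 := ae_iff.1 h3
    simpa using h4
  have hz : ∀ i q, μ ((fun p : G × ℝ => p.1 • S.c i p.2) '' (E i q)) = 0 := by
    intro i q
    refine le_antisymm ((hμ.image_le i (E i q) (hEm i q) (hE1 i q)).trans (le_of_eq ?_)) bot_le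
    exact setLIntegral_measure_zero _ _ (hE0 i q)
  have hae : ∀ᵐ x ∂μ, ∀ i q, x ∉ (fun p : G × ℝ => p.1 • S.c i p.2) '' (E i q) := by
    rw [ae_all_iff]
    intro i
    rw [ae_all_iff]
    intro q
    exact measure_eq_zero_iff_ae_notMem.1 (hz i q)
  filter_upwards [hae] with x hx hφx i h t t' ht ht' hxe hNt
  by_contra hne
  have hΨ : INVA_Ψ T φ i (h, t) ≠ 0 := by
    unfold INVA_Ψ
    rw [if_pos ht]
    have h1 : 0 < ‖(φ : X → ℂ) (h • S.c i t)‖ ^ 2 * T.W h i t := by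
      rw [← hxe]
      exact mul_pos (pow_pos (norm_pos_iff.2 hφx) 2) (T.pos _ _ _ ht)
    exact (ENNReal.ofReal_pos.2 h1).ne'
  obtain ⟨q, hq⟩ : ∃ q : ℚ, N i t = N i q := by
    rcases lt_or_gt_of_ne hne with h1 | h1
    · obtain ⟨q, hq1, hq2⟩ := exists_rat_btwn h1
      refine ⟨q, le_antisymm ?_ (hNm i hq2.le)⟩
      rw [← hNt]
      exact hNm i hq1.le
    · obtain ⟨q, hq1, hq2⟩ := exists_rat_btwn h1
      refine ⟨q, le_antisymm (hNm i hq1.le) ?_⟩
      rw [← hNt]
      exact hNm i hq2.le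
  exact hx i q ⟨(h, t), ⟨hq, hΨ⟩, hxe.symm⟩

end meas2

end Pool.Agent.H88.LF
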