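import Pool.Agent.H88.LF.Defs

/-!
# INVC (blueprint section 7)
-/

set_option autoImplicit false

open Set Filter
open scoped Topology

namespace Pool.Agent.H88.LF

/-- the value with sign `e` and coefficients `c` -/
noncomputable def invcVal (F : Finset (ℝ × ℝ)) (a : ℝ) (x : ℤ × (F → ℤ)) : ℝ :=
  (x.1 : ℝ) * a + ∑ q : F, (x.2 q : ℝ) * q.1.2

open Classical in
/-- the set of values with coefficients at most `n` -/
noncomputable def invcSet (F : Finset (ℝ × ℝ)) (a : ℝ) (n : ℕ) : Finset ℝ :=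
  ((({1, -1} : Finset ℤ) ×ˢ Fintype.piFinset (fun _ : F => Finset.Icc (-(n:ℤ)) n))).image
    (invcVal F a)

theorem invcSet_card (F : Finset (ℝ × ℝ)) (a : ℝ) (n : ℕ) :
    ((invcSet F a n).card : ℝ) ≤ 2 * 2 ^ F.card * ((n:ℝ) + 1) ^ F.card := by
  classical
  have h1 : (invcSet F a n).card ≤ 2 * (2 * n + 1) ^ F.card := by
    unfold invcSet
    refine Finset.card_image_le.trans ?_
    rw [Finset.card_product, Fintype.card_piFinset]
    simp only [Int.card_Icc, Finset.prod_const, Finset.card_univ, Fintype.card_coe]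
    have h2 : (({1, -1} : Finset ℤ)).card ≤ 2 := Finset.card_le_two
    have h3 : ((n:ℤ) + 1 - -(n:ℤ)).toNat = 2 * n + 1 := by omega
    rw [h3]
    exact Nat.mul_le_mul_right _ h2
  have h2 : ((2 * n + 1 : ℕ) : ℝ) ≤ 2 * ((n:ℝ) + 1) := by
    push_cast
    linarith
  calc ((invcSet F a n).card : ℝ) ≤ ((2 * (2 * n + 1) ^ F.card : ℕ) : ℝ) := by exact_mod_cast h1
    _ = 2 * ((2 * n + 1 : ℕ) : ℝ) ^ F.card := by push_cast; ring
    _ ≤ 2 * (2 * ((n:ℝ) + 1)) ^ F.card := by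
        apply mul_le_mul_of_nonneg_left _ (by norm_num)
        exact pow_le_pow_left₀ (by positivity) h2 _
    _ = 2 * 2 ^ F.card * ((n:ℝ) + 1) ^ F.card := by rw [mul_pow]; ring

theorem invc_mem (F : Finset (ℝ × ℝ)) (a : ℝ) (n : ℕ) (y : ℝ) :
    y ∈ invcSet F a n ↔ ∃ (e : ℤ) (c : F → ℤ), (e = 1 ∨ e = -1) ∧
      (∀ q, -(n:ℤ) ≤ c q ∧ c q ≤ n) ∧ invcVal F a (e, c) = y := by
  classical
  unfold invcSet
  rw [Finset.mem_image]
  constructor
  · rintro ⟨⟨e, c⟩, h1, h2⟩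
    rw [Finset.mem_product, Fintype.mem_piFinset] at h1
    refine ⟨e, c, ?_, ?_, h2⟩
    · simpa using h1.1
    · intro q
      exact Finset.mem_Icc.1 (h1.2 q)
  · rintro ⟨e, c, h1, h2, h3⟩
    refine ⟨(e, c), ?_, h3⟩
    rw [Finset.mem_product, Fintype.mem_piFinset]
    exact ⟨by simpa using h1, fun q => Finset.mem_Icc.2 (h2 q)⟩

theorem invc_step (F : Finset (ℝ × ℝ)) (hF : ∀ p ∈ F, p.1 = 1 ∨ p.1 = -1) (a : ℝ) (n : ℕ)
    (y : ℝ) (hy : y ∈ invcSet F a n) (p : ℝ × ℝ) (hp : p ∈ F) :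
    p.1 * y + p.2 ∈ invcSet F a (n + 1) := by
  classical
  rw [invc_mem] at hy
  obtain ⟨e, c, he, hc, rfl⟩ := hy
  rw [invc_mem]
  have key : ∀ s : ℤ, (s = 1 ∨ s = -1) → (s : ℝ) = p.1 →
      ∃ (e' : ℤ) (c' : F → ℤ), (e' = 1 ∨ e' = -1) ∧
      (∀ q, -((n + 1 : ℕ):ℤ) ≤ c' q ∧ c' q ≤ ((n + 1 : ℕ) : ℤ)) ∧
        invcVal F a (e', c') = p.1 * invcVal F a (e, c) + p.2 := by
    intro s hs hsp
    refine ⟨s * e, fun q => s * c q + if q = ⟨p, hp⟩ then 1 else 0, ?_, ?_, ?_⟩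
    · rcases hs with rfl | rfl <;> rcases he with rfl | rfl <;> simp
    · intro q
      have h1 := hc q
      push_cast
      rcases hs with rfl | rfl <;> split_ifs <;> constructor <;> omega
    · unfold invcVal
      simp only [Int.cast_mul, Int.cast_add]
      rw [hsp]
      have h2 : ∑ q : F, (p.1 * (c q : ℝ) + ((if q = ⟨p, hp⟩ then (1:ℤ) else 0 : ℤ) : ℝ)) * q.1.2
          = p.1 * ∑ q : F, (c q : ℝ) * q.1.2 + p.2 := by
        rw [Finset.mul_sum]
        simp only [add_mul, Finset.sum_add_distrib]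
        congr 1
        · exact Finset.sum_congr rfl fun q _ => by ring
        · rw [Finset.sum_eq_single (⟨p, hp⟩ : F)]
          · simp
          · intro q _ hq
            simp [hq]
          · intro h
            exact absurd (Finset.mem_univ _) h
      rw [h2]
      ring
  rcases hF p hp with h | h
  · exact key 1 (Or.inl rfl) (by rw [h]; norm_num)
  · exact key (-1) (Or.inr rfl) (by rw [h]; norm_num)

theorem invc_mono (F : Finset (ℝ × ℝ)) (a : ℝ) (n : ℕ) : a ∈ invcSet F a n := by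
  rw [invc_mem]
  refine ⟨1, fun _ => 0, Or.inl rfl, fun q => ⟨by simp, by simp⟩, ?_⟩
  simp [invcVal]

/-- INVC1: counting.  Starting from the height `a` and applying at most `n` maps `y ↦ p.1 y + p.2`, `p ∈ F`, `p.1 = ±1`, one reaches at most `C (n+1)^p` values
(all are `± a + ∑ m_p p.2` with integers `|m_p| ≤ n`). -/
theorem count_heights (F : Finset (ℝ × ℝ)) (hF : ∀ p ∈ F, p.1 = 1 ∨ p.1 = -1) (a : ℝ) :
    ∃ (d : ℕ) (C : ℝ), ∀ n : ℕ, ∃ V : Finset ℝ, (V.card : ℝ) ≤ C * ((n:ℝ) + 1) ^ d ∧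
      ∀ y : ℕ → ℝ, y 0 = a → (∀ m, m < n → ∃ p ∈ F, y (m + 1) = p.1 * y m + p.2) → y n ∈ V := by
  refine ⟨F.card, 2 * 2 ^ F.card, fun n => ⟨invcSet F a n, invcSet_card F a n, ?_⟩⟩
  intro y hy0 hy
  have h : ∀ m, m ≤ n → y m ∈ invcSet F a m := by
    intro m
    induction m with
    | zero =>
      intro _
      rw [hy0]
      exact invc_mono F a 0
    | succ m ih =>
      intro hm
      obtain ⟨p, hp, h1⟩ := hy m (by omega)
      rw [h1]
      exact invc_step F hF a m _ (ih (by omega)) p hp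
  exact h n le_rfl

end Pool.Agent.H88.LF
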