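import Pool.Agent.H88.LF.INVB
import Pool.Agent.H88.LF.INVC

/-!
# INVE (blueprint section 7)
-/

set_option autoImplicit false

open MeasureTheory Set Filter
open scoped Topology ENNReal

namespace Pool.Agent.H88.LF

variable {X : Type} [MetricSpace X] [CompactSpace X] [MulAction G X] [ContinuousSMul G X]

theorem inve_path (n : ℕ) (g : G) (hg : g ∈ BP 1 n) :
    ∃ s : ℕ → G, s 0 = 1 ∧ s n = g ∧ ∀ m, m < n → ∃ b ∈ Bl 1, s (m + 1) = b * s m := by
  induction n generalizing g with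
  | zero =>
    have h1 : g = 1 := hg
    exact ⟨fun _ => 1, rfl, h1.symm, fun m hm => absurd hm (Nat.not_lt_zero m)⟩
  | succ n ih =>
    obtain ⟨b, hb, g', hg', rfl⟩ := hg
    obtain ⟨s, h0, hn, hs⟩ := ih g' hg'
    refine ⟨fun m => if m ≤ n then s m else b * g', ?_, ?_, ?_⟩
    · simp only [Nat.zero_le, if_true]
      exact h0
    · have : ¬ n + 1 ≤ n := by omega
      simp only [this, if_false]
    · intro m hm
      rcases Nat.lt_or_ge m n with h | h
      · obtain ⟨c, hc, hc'⟩ := hs m h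
        refine ⟨c, hc, ?_⟩
        have h1 : m + 1 ≤ n := h
        have h2 : m ≤ n := h.le
        simp only [h1, h2, if_true]
        exact hc'
      · have h3 : m = n := by omega
        subst h3
        refine ⟨b, hb, ?_⟩
        have h1 : ¬ m + 1 ≤ m := by omega
        simp only [h1, if_false, le_refl, if_true]
        rw [hn]

theorem inve_compact : IsCompact {k : G | ∃ b ∈ Bl 1, ∃ h ∈ Bl 1, ∃ h' ∈ Bl 1,
    k = (b * h)⁻¹ * h'} := by
  have h1 : IsCompact ((Bl 1) ×ˢ ((Bl 1) ×ˢ (Bl 1)) : Set (G × G × G)) :=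
    (isCompact_Bl 1).prod ((isCompact_Bl 1).prod (isCompact_Bl 1))
  have h2 : Continuous (fun p : G × G × G => (p.1 * p.2.1)⁻¹ * p.2.2) := by fun_prop
  have h3 := h1.image h2
  refine h3.of_isClosed_subset ?_ ?_
  · have h4 : {k : G | ∃ b ∈ Bl 1, ∃ h ∈ Bl 1, ∃ h' ∈ Bl 1, k = (b * h)⁻¹ * h'} =
        (fun p : G × G × G => (p.1 * p.2.1)⁻¹ * p.2.2) '' ((Bl 1) ×ˢ ((Bl 1) ×ˢ (Bl 1))) := by
      ext k
      constructor
      · rintro ⟨b, hb, h, hh, h', hh', rfl⟩
        exact ⟨(b, h, h'), ⟨hb, hh, hh'⟩, rfl⟩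
      · rintro ⟨⟨b, h, h'⟩, ⟨hb, hh, hh'⟩, rfl⟩
        exact ⟨b, hb, h, hh, h', hh', rfl⟩
    rw [h4]
    exact h3.isClosed
  · rintro k ⟨b, hb, h, hh, h', hh', rfl⟩
    exact ⟨(b, h, h'), ⟨hb, hh, hh'⟩, rfl⟩

/-- INVC2: polynomial growth of the orbit of `x` modulo the stabiliser.  Go from `x` to `g • x`, `g ∈ BP 1 n`, through `x_m`, `x_{m+1} = b x_m`, `b ∈ Bl 1`; the normal representations of
consecutive points are joined by arrows in a compact set `Q`; the last pair `(i,t)` is determined by `i` and the height `N i t`, so there are at most `n C(n+1)^d` such pairs; for each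
fix `f` with `f • x = c i t`; then `g • x = h • c i t = (h f) • x`, `nd h < ρ1`.  (Case `n = 0` included.) -/
theorem poly_growth (S : FB X) (N : Fin S.n → ℝ → ℝ) (hN : S.IsHeight N) (x : X)
    (hx : ∀ (g : G) (i : Fin S.n) (t t' : ℝ), |t| < 1 → |t'| < 1 → g • x = S.c i t →
      N i t' = N i t → t' = t) :
    ∃ (d : ℕ) (C : ℝ), ∀ n : ℕ, ∃ F : Finset G, (F.card : ℝ) ≤ C * ((n:ℝ) + 1) ^ d ∧
      ∀ g ∈ BP 1 n, ∃ b ∈ Bl 1, ∃ f ∈ F, ∃ γ ∈ MulAction.stabilizer G x, g = b * f * γ := by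
  classical
  obtain ⟨F0, hF0, hstep⟩ := height_steps_finite S N hN _ inve_compact
  obtain ⟨d, C, hcount⟩ := count_heights F0 hF0 (N (S.ri x) (S.rt x))
  have hsmall : ∀ h : G, nd h < S.ρ1 → h ∈ Bl 1 := by
    intro h hh
    have h1 := S.hρ
    have h2 := S.hρ0
    have h3 := S.hρ1
    show nd h ≤ 1
    linarith
  -- consecutive points
  have hcons : ∀ (y : X) (b : G), b ∈ Bl 1 → ∃ p ∈ F0,
      N (S.ri (b • y)) (S.rt (b • y)) = p.1 * N (S.ri y) (S.rt y) + p.2 := by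
    intro y b hb
    obtain ⟨hy1, hy2, hy3⟩ := S.rep_spec y
    obtain ⟨hz1, hz2, hz3⟩ := S.rep_spec (b • y)
    refine hstep (S.ri y) (S.ri (b • y)) (S.rt y) (S.rt (b • y))
      ((b * S.rh y)⁻¹ * S.rh (b • y)) hy2.le hz2.le
      ⟨b, hb, S.rh y, hsmall _ hy1, S.rh (b • y), hsmall _ hz1, rfl⟩ ?_
    refine ⟨by linarith, by linarith, ?_⟩
    rw [mul_smul, ← hz3, eq_inv_smul_iff, mul_smul, ← hy3]
  -- the chosen elements
  let f : Fin S.n × ℝ → G := fun q =>
    if h : ∃ g : G, ∃ t : ℝ, |t| < 1 ∧ N q.1 t = q.2 ∧ g • x = S.c q.1 t then h.choose else 1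
  have hf : ∀ (i : Fin S.n) (t : ℝ) (g : G), |t| < 1 → g • x = S.c i t →
      f (i, N i t) • x = S.c i t := by
    intro i t g ht hg
    have h : ∃ g' : G, ∃ t' : ℝ, |t'| < 1 ∧ N i t' = N i t ∧ g' • x = S.c i t' :=
      ⟨g, t, ht, rfl, hg⟩
    have h1 : f (i, N i t) = h.choose := by
      simp only [f]
      rw [dif_pos h]
    obtain ⟨t', ht', hN', hc'⟩ := h.choose_spec
    have h2 : t' = t := hx g i t t' ht ht' hg hN'
    rw [h1, hc', h2]
  refine ⟨d, S.n * C, fun n => ?_⟩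
  obtain ⟨V, hV, hVmem⟩ := hcount n
  refine ⟨((Finset.univ : Finset (Fin S.n)) ×ˢ V).image f, ?_, ?_⟩
  · have h1 : ((((Finset.univ : Finset (Fin S.n)) ×ˢ V).image f).card : ℝ) ≤
        (((Finset.univ : Finset (Fin S.n)) ×ˢ V).card : ℝ) := by
      exact_mod_cast Finset.card_image_le
    rw [Finset.card_product, Finset.card_univ, Fintype.card_fin, Nat.cast_mul] at h1
    refine h1.trans ?_
    rw [mul_assoc]
    exact mul_le_mul_of_nonneg_left hV (Nat.cast_nonneg _)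
  · intro g hg
    obtain ⟨s, hs0, hsn, hs⟩ := inve_path n g hg
    have hmem : N (S.ri (g • x)) (S.rt (g • x)) ∈ V := by
      have h1 := hVmem (fun m => N (S.ri (s m • x)) (S.rt (s m • x))) (by
        simp only [hs0, one_smul]) (by
        intro m hm
        obtain ⟨b, hb, hb'⟩ := hs m hm
        obtain ⟨p, hp, hp'⟩ := hcons (s m • x) b hb
        refine ⟨p, hp, ?_⟩
        simp only [hb', mul_smul]
        exact hp')
      simp only [hsn] at h1
      exact h1
    obtain ⟨hy1, hy2, hy3⟩ := S.rep_spec (g • x)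
    have hfx : f (S.ri (g • x), N (S.ri (g • x)) (S.rt (g • x))) • x =
        S.c (S.ri (g • x)) (S.rt (g • x)) := by
      refine hf _ _ ((S.rh (g • x))⁻¹ * g) (by linarith) ?_
      rw [mul_smul, inv_smul_eq_iff]
      exact hy3
    have hm : (S.ri (g • x), N (S.ri (g • x)) (S.rt (g • x))) ∈
        (Finset.univ : Finset (Fin S.n)) ×ˢ V := Finset.mem_product.2 ⟨Finset.mem_univ _, hmem⟩
    refine ⟨S.rh (g • x), hsmall _ hy1, _, Finset.mem_image_of_mem f hm,
      (S.rh (g • x) * f (S.ri (g • x), N (S.ri (g • x)) (S.rt (g • x))))⁻¹ * g, ?_, ?_⟩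
    · rw [MulAction.mem_stabilizer_iff, mul_smul, inv_smul_eq_iff, mul_smul, hfx]
      exact hy3
    · rw [mul_inv_cancel_left]

end Pool.Agent.H88.LF
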