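import Pool.Agent.H88.LF.COC
import Pool.Agent.H88.LF.INVA
import Pool.Agent.H88.LF.INVE

/-!
# INV (blueprint section 7): an invariant vector gives compact orbits
-/

set_option autoImplicit false

open MeasureTheory Set Filter
open scoped Topology ENNReal

namespace Pool.Agent.H88.LF

variable {X : Type} [MetricSpace X] [CompactSpace X] [MulAction G X] [ContinuousSMul G X]

/-- INVD: `heights`, `poly_growth`, `cocompact_of_poly` (`FB.ulf` for uniform discreteness: `g γ g⁻¹` fixes `g x`). -/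
theorem inv_co [MeasurableSpace X] [BorelSpace X] {S : FB X} {T : TN S} {μ : Measure X}
    (hμ : T.IsMu μ) (R : URep (Lp ℂ 2 μ)) (hR : hμ.kd.IsKoop R) (φ : Lp ℂ 2 μ)
    (hinv : ∀ g, R.π g φ = φ) : ∀ᵐ x ∂μ, (φ : X → ℂ) x ≠ 0 → CO x := by
  obtain ⟨N, hN, hae⟩ := heights hμ R hR φ hinv
  obtain ⟨ρ, hρ, hulf⟩ := S.ulf
  filter_upwards [hae] with x hx hne
  obtain ⟨d, C, hpoly⟩ := poly_growth S N hN x (by
    intro g i t t' ht ht' hg hNt
    refine hx hne i g⁻¹ t t' ht ht' ?_ hNt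
    rw [← hg, inv_smul_smul])
  obtain ⟨K, hK, hKG⟩ := cocompact_of_poly (MulAction.stabilizer G x) ρ hρ (by
    intro g γ hγ hnd
    have h1 : (g * γ * g⁻¹) • (g • x) = g • x := by
      rw [mul_smul, inv_smul_smul, mul_smul, MulAction.mem_stabilizer_iff.1 hγ]
    have h2 := hulf (g • x) (g * γ * g⁻¹) hnd h1
    have h3 : γ = g⁻¹ * (g * γ * g⁻¹) * g := by group
    rw [h3, h2]
    group) d C hpoly
  refine ⟨K, hK, fun g => ?_⟩
  obtain ⟨k, hk, γ, hγ, rfl⟩ := hKG g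
  exact ⟨k, hk, by rw [mul_smul, MulAction.mem_stabilizer_iff.1 hγ]⟩

theorem niv_of_no_co [MeasurableSpace X] [BorelSpace X] {S : FB X} {T : TN S} {μ : Measure X}
    (hμ : T.IsMu μ) (R : URep (Lp ℂ 2 μ)) (hR : hμ.kd.IsKoop R) (Ω : Set X)
    (hno : ∀ x ∈ Ω, ¬ CO x) : NIV R Ω := by
  intro φ hinv hΩ
  rw [Lp.eq_zero_iff_ae_eq_zero]
  filter_upwards [inv_co hμ R hR φ hinv, hΩ] with x h1 h2
  by_contra hne
  have hne' : (φ : X → ℂ) x ≠ 0 := hne
  by_cases hx : x ∈ Ω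
  · exact hno x hx (h1 hne')
  · exact hne' (h2 hx)

end Pool.Agent.H88.LF
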