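import Pool.Agent.H88.LF.MUCV

/-!
# MUEX: the measure `μ` (blueprint section 2)

Let `core i = {h • c i t : nd h < ρ1, |t| < 1/2}` (open, cover `X`), `C_i = core i ∖ ⋃_{j<i} core j` (Borel partition),
`E_i = {(h,t) : nd h < ρ1, |t| < 1/2, h • c i t ∈ C_i}`; the flow box map is injective on `E_i`.  Put
`μ = ∑_i map (flow box map i) ((hG × volume).withDensity (W · i ·)).restrict E_i`.
Claim: for `E` Borel in `|t| < 1` with injective flow box map `i`: `μ(image) = ∫_E W`.  Decompose the image along the `C_j`: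
`image ∩ C_j = Θ_j(F_j)`, `F_j = {(h',τ) ∈ E_j : h' • c j τ ∈ Θ_i(E)}`.  On small pieces the bijection between a part of `E` and a part of `F_j` is
`(h,t) ↦ (h kf(t), τf(t))` for one arrow (`FB.near`; countably many arrows suffice by Lindelöf, make the pieces disjoint), and
`∫_{F'} W(h';j,τ) dh'dτ = ∫_{E'} W(h kf(t);j,τf(t)) |τf'(t)| dh dt = ∫_{E'} W(h;i,t) dh dt` by right invariance of Haar measure for fixed
`t` (Tonelli), one-dimensional change of variables (`lintegral_image_eq_lintegral_abs_deriv_mul`), and `rule`.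
Finiteness: `W` is bounded on the cores.
-/

set_option autoImplicit false

open MeasureTheory Set Filter
open scoped Topology ENNReal

namespace Pool.Agent.H88.LF

/-- abstract gluing of local measure preserving bijections -/
theorem muex_abs {α β : Type*} [MeasurableSpace α] [MeasurableSpace β] (ν : Measure α)
    (ν' : Measure β) (A : ℕ → Set α) (θ : ℕ → α → β) (hA : ∀ m, MeasurableSet (A m))
    (hθ : ∀ m (E' : Set α), MeasurableSet E' → E' ⊆ A m →
      MeasurableSet (θ m '' E') ∧ ν' (θ m '' E') = ν E')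
    (h1 : ∀ m l p, p ∈ A m → p ∈ A l → θ m p = θ l p)
    (h2 : ∀ m l p q, p ∈ A m → q ∈ A l → θ m p = θ l q → p = q) :
    ν' (⋃ m, θ m '' A m) = ν (⋃ m, A m) := by
  have hB : ∀ m, MeasurableSet (disjointed A m) := fun m => MeasurableSet.disjointed hA m
  have hsub : ∀ m, disjointed A m ⊆ A m := fun m => disjointed_subset A m
  have hU : (⋃ m, A m) = ⋃ m, disjointed A m := iUnion_disjointed.symm
  have hU' : (⋃ m, θ m '' A m) = ⋃ m, θ m '' disjointed A m := by
    ext y
    simp only [mem_iUnion, mem_image]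
    constructor
    · rintro ⟨m, p, hp, rfl⟩
      have hp' : p ∈ ⋃ m, disjointed A m := by
        rw [← hU]; exact mem_iUnion.mpr ⟨m, hp⟩
      obtain ⟨l, hl⟩ := mem_iUnion.mp hp'
      exact ⟨l, p, hl, h1 l m p (hsub l hl) hp⟩
    · rintro ⟨m, p, hp, rfl⟩
      exact ⟨m, p, hsub m hp, rfl⟩
  rw [hU', hU, measure_iUnion, measure_iUnion (disjoint_disjointed A) hB]
  · exact tsum_congr fun m => (hθ m _ (hB m) (hsub m)).2
  · intro m l hml
    rw [Function.onFun, Set.disjoint_left]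
    rintro _ ⟨p, hp, rfl⟩ ⟨q, hq, hqp⟩
    have := h2 l m q p (hsub l hq) (hsub m hp) hqp
    subst this
    exact Set.disjoint_left.mp (disjoint_disjointed A hml) hp hq
  · exact fun m => (hθ m _ (hB m) (hsub m)).1

section

variable {X : Type} [TopologicalSpace X] [MulAction G X]

/-- parameters of the cores -/
def muexBox (S : FB X) : Set (G × ℝ) := {p | nd p.1 < S.ρ1 ∧ |p.2| < 1 / 2}

/-- the cores -/
def muexCore (S : FB X) (i : Fin S.n) : Set X :=
  (fun p : G × ℝ => p.1 • S.c i p.2) '' muexBox S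

/-- the partition -/
def muexC (S : FB X) (i : Fin S.n) : Set X := muexCore S i \ ⋃ l : Fin S.n, ⋃ _ : l < i, muexCore S l

open Classical in
/-- measurable version of the flow box map -/
noncomputable def muexP (S : FB X) (i : Fin S.n) : G × ℝ → X :=
  Set.piecewise {p : G × ℝ | |p.2| < 1} (fun p : G × ℝ => p.1 • S.c i p.2) (fun _ => S.c i 0)

theorem muexP_eq (S : FB X) (i : Fin S.n) {p : G × ℝ} (hp : |p.2| < 1) :
    muexP S i p = p.1 • S.c i p.2 := Set.piecewise_eq_of_mem _ _ _ hp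

/-- the pieces -/
def muexE (S : FB X) (i : Fin S.n) : Set (G × ℝ) := muexBox S ∩ muexP S i ⁻¹' muexC S i

theorem muexBox_lt {S : FB X} {p : G × ℝ} (hp : p ∈ muexBox S) : |p.2| < 1 := by
  have := hp.2
  linarith

theorem muexBox_nd {S : FB X} {p : G × ℝ} (hp : p ∈ muexBox S) : nd p.1 < S.ρ0 := by
  have := hp.1
  linarith [S.hρ, S.hρ1]

theorem muexBox_inj {S : FB X} {i : Fin S.n} {p q : G × ℝ} (hp : p ∈ muexBox S)
    (hq : q ∈ muexBox S) (h : p.1 • S.c i p.2 = q.1 • S.c i q.2) : p = q := by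
  obtain ⟨h1, h2⟩ := S.inj i p.1 q.1 p.2 q.2 (muexBox_lt hp) (muexBox_lt hq) (muexBox_nd hp)
    (muexBox_nd hq) h
  exact Prod.ext h1 h2

theorem muexC_exists (S : FB X) (x : X) : ∃ i, x ∈ muexC S i := by
  have hne : {i : Fin S.n | x ∈ muexCore S i}.Nonempty := by
    obtain ⟨i, h, t, h1, h2, h3⟩ := S.cover x
    exact ⟨i, (h, t), ⟨h1, h2⟩, h3.symm⟩
  obtain ⟨i, hi, hmin⟩ := (wellFounded_lt (α := Fin S.n)).has_min _ hne
  refine ⟨i, hi, ?_⟩
  simp only [mem_iUnion, not_exists]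
  intro l hl hx
  exact hmin l hx hl

theorem muexC_disj (S : FB X) {i j : Fin S.n} (hij : i ≠ j) : Disjoint (muexC S i) (muexC S j) := by
  rw [Set.disjoint_left]
  intro x hi hj
  rcases lt_or_gt_of_ne hij with h | h
  · exact hj.2 (mem_iUnion.mpr ⟨i, mem_iUnion.mpr ⟨h, hi.1⟩⟩)
  · exact hi.2 (mem_iUnion.mpr ⟨j, mem_iUnion.mpr ⟨h, hj.1⟩⟩)

end

variable {X : Type} [MetricSpace X] [CompactSpace X] [MulAction G X] [ContinuousSMul G X]
  [MeasurableSpace X] [BorelSpace X]

theorem muexBox_open (S : FB X) : IsOpen (muexBox S) := by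
  have h1 : IsOpen {p : G × ℝ | nd p.1 < S.ρ1} :=
    isOpen_lt (continuous_nd.comp continuous_fst) continuous_const
  have h2 : IsOpen {p : G × ℝ | |p.2| < 1 / 2} :=
    isOpen_lt continuous_snd.abs continuous_const
  exact h1.inter h2

theorem muexCore_open (S : FB X) (i : Fin S.n) : IsOpen (muexCore S i) :=
  S.isOpen_image i _ (muexBox_open S) fun _ hp => muexBox_lt hp

theorem muexC_meas (S : FB X) (i : Fin S.n) : MeasurableSet (muexC S i) := by
  refine (muexCore_open S i).measurableSet.diff ?_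
  exact MeasurableSet.iUnion fun l => MeasurableSet.iUnion fun _ =>
    (muexCore_open S l).measurableSet

theorem muexP_meas (S : FB X) (i : Fin S.n) : Measurable (muexP S i) := by
  classical
  have h : IsOpen {p : G × ℝ | |p.2| < 1} := isOpen_lt continuous_snd.abs continuous_const
  exact ContinuousOn.measurable_piecewise (S.continuousOn_map i) continuousOn_const h.measurableSet

theorem muexE_meas (S : FB X) (i : Fin S.n) : MeasurableSet (muexE S i) :=
  (muexBox_open S).measurableSet.inter (muexP_meas S i (muexC_meas S i))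

/-- the densities in the boxes -/
noncomputable def muexN {S : FB X} (T : TN S) (i : Fin S.n) : Measure (G × ℝ) :=
  (hG.prod volume).withDensity (fun p => ENNReal.ofReal (T.W p.1 i p.2))

instance muex_polishMat : PolishSpace Mat := inferInstanceAs (PolishSpace (Fin 3 → Fin 3 → ℝ))

instance muex_polishG : PolishSpace G := closedEmb_val.polishSpace

theorem muex_image_meas (S : FB X) (i : Fin S.n) {E : Set (G × ℝ)} (hE : MeasurableSet E)
    (h1 : ∀ p ∈ E, |p.2| < 1) (hinj : InjOn (fun p : G × ℝ => p.1 • S.c i p.2) E) :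
    MeasurableSet ((fun p : G × ℝ => p.1 • S.c i p.2) '' E) := by
  have e : (fun p : G × ℝ => p.1 • S.c i p.2) '' E = muexP S i '' E :=
    image_congr fun p hp => (muexP_eq S i (h1 p hp)).symm
  rw [e]
  refine hE.image_of_measurable_injOn (muexP_meas S i) ?_
  intro p hp q hq hpq
  rw [muexP_eq S i (h1 p hp), muexP_eq S i (h1 q hq)] at hpq
  exact hinj hp hq hpq

/-- data for one arrow -/
theorem muex_arrow {S : FB X} (T : TN S) {i j : Fin S.n} {t0 τ0 : ℝ} {k0 : G}
    (h : S.Arr i j t0 τ0 k0) : ∃ ε > 0,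
      (∀ (t τ : ℝ) (k : G), |t - t0| < ε → nd (k0⁻¹ * k) < ε → S.Arr i j t τ k →
        k = S.kf i j t0 τ0 k0 t ∧ τ = S.τf i j t0 τ0 k0 t) ∧
      (∀ t, |t - t0| < ε → S.Arr i j t (S.τf i j t0 τ0 k0 t) (S.kf i j t0 τ0 k0 t) ∧
        ContinuousAt (S.kf i j t0 τ0 k0) t ∧ ContinuousAt (S.τf i j t0 τ0 k0) t) ∧
      (∀ (E' : Set (G × ℝ)), MeasurableSet E' → (∀ p ∈ E', |p.2 - t0| < ε) →
        (MeasurableSet ((fun p : G × ℝ => (p.1 * S.kf i j t0 τ0 k0 p.2,
          S.τf i j t0 τ0 k0 p.2)) '' E')) ∧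
        muexN T j ((fun p : G × ℝ => (p.1 * S.kf i j t0 τ0 k0 p.2, S.τf i j t0 τ0 k0 p.2)) '' E') =
          muexN T i E') := by
  obtain ⟨ε1, hε1, h1⟩ := S.near h
  obtain ⟨ε2, hε2, h2⟩ := T.change_of_var h
  obtain ⟨ε3, hε3, h3⟩ := Metric.eventually_nhds_iff.mp
    ((S.eventually_arr h).and (S.eventually_contDiffAt h))
  refine ⟨min ε1 (min ε2 ε3), lt_min hε1 (lt_min hε2 hε3), ?_, ?_, ?_⟩
  · intro t τ k ht hk ha
    exact h1 t τ k (ht.trans_le (min_le_left _ _)) (hk.trans_le (min_le_left _ _)) ha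
  · intro t ht
    have ht3 : dist t t0 < ε3 := by
      rw [Real.dist_eq]
      exact ht.trans_le ((min_le_right _ _).trans (min_le_right _ _))
    obtain ⟨a1, a2, a3, a4⟩ := h3 ht3
    exact ⟨a1, a4, a3.continuousAt⟩
  · intro E' hE' hE'2
    obtain ⟨b1, b2⟩ := h2 E' hE' fun p hp =>
      (hE'2 p hp).trans_le ((min_le_right _ _).trans (min_le_left _ _))
    refine ⟨b1, ?_⟩
    rw [muexN, muexN, withDensity_apply _ b1, withDensity_apply _ hE', b2]

theorem muex_key {S : FB X} (T : TN S) (i j : Fin S.n) {E : Set (G × ℝ)} (hE : MeasurableSet E)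
    (h1 : ∀ p ∈ E, |p.2| < 1) (hinj : InjOn (fun p : G × ℝ => p.1 • S.c i p.2) E) :
    muexN T j (muexP S j ⁻¹' ((fun p : G × ℝ => p.1 • S.c i p.2) '' E) ∩ muexE S j) =
      muexN T i (E ∩ muexP S i ⁻¹' muexC S j) := by
  classical
  -- the type of arrows
  let ι := {a : ℝ × ℝ × G // S.Arr i j a.1 a.2.1 a.2.2}
  choose ε hε near cont cov using fun a : ι => muex_arrow T a.2
  let θ : ι → G × ℝ → G × ℝ := fun a p =>
    (p.1 * S.kf i j a.1.1 a.1.2.1 a.1.2.2 p.2, S.τf i j a.1.1 a.1.2.1 a.1.2.2 p.2)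
  let V : ι → Set (ℝ × G) := fun a => {q | |q.1 - a.1.1| < ε a ∧ nd (a.1.2.2⁻¹ * q.2) < ε a}
  have hV : ∀ a, IsOpen (V a) := by
    intro a
    have o1 : IsOpen {q : ℝ × G | |q.1 - a.1.1| < ε a} :=
      isOpen_lt (continuous_fst.sub continuous_const).abs continuous_const
    have o2 : IsOpen {q : ℝ × G | nd (a.1.2.2⁻¹ * q.2) < ε a} :=
      isOpen_lt (continuous_nd.comp (continuous_const.mul continuous_snd)) continuous_const
    exact o1.inter o2
  obtain ⟨Tc, hTc, hTU⟩ := TopologicalSpace.isOpen_iUnion_countable V hV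
  -- the sets
  let A : ι → Set (G × ℝ) := fun a => {p | p ∈ E ∧ |p.2 - a.1.1| < ε a ∧ θ a p ∈ muexE S j}
  have hθφ : ∀ a p, |p.2 - a.1.1| < ε a → (θ a p).1 • S.c j (θ a p).2 = p.1 • S.c i p.2 := by
    intro a p hp
    have h := (cont a p.2 hp).1
    change (p.1 * S.kf i j a.1.1 a.1.2.1 a.1.2.2 p.2) • S.c j (S.τf i j a.1.1 a.1.2.1 a.1.2.2 p.2)
      = _
    rw [mul_smul, ← h.2.2]
  have hA : ∀ a, MeasurableSet (A a) := by
    intro a
    have hO : IsOpen {p : G × ℝ | |p.2 - a.1.1| < ε a} :=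
      isOpen_lt (continuous_snd.sub continuous_const).abs continuous_const
    have hc : ContinuousOn (θ a) {p : G × ℝ | |p.2 - a.1.1| < ε a} := by
      intro p hp
      obtain ⟨-, c1, c2⟩ := cont a p.2 hp
      have c1' : ContinuousAt (fun p : G × ℝ => S.kf i j a.1.1 a.1.2.1 a.1.2.2 p.2) p :=
        ContinuousAt.comp (f := fun p : G × ℝ => p.2) c1 continuous_snd.continuousAt
      have c2' : ContinuousAt (fun p : G × ℝ => S.τf i j a.1.1 a.1.2.1 a.1.2.2 p.2) p :=
        ContinuousAt.comp (f := fun p : G × ℝ => p.2) c2 continuous_snd.continuousAt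
      exact ((continuous_fst.continuousAt.mul c1').prodMk c2').continuousWithinAt
    have hm := ContinuousOn.measurable_piecewise hc
      (continuousOn_const (c := ((1 : G), (0 : ℝ)))) hO.measurableSet
    have e : A a = E ∩ ({p : G × ℝ | |p.2 - a.1.1| < ε a} ∩
        ({p : G × ℝ | |p.2 - a.1.1| < ε a}.piecewise (θ a) fun _ => ((1 : G), (0 : ℝ))) ⁻¹'
          muexE S j) := by
      ext p
      constructor
      · rintro ⟨p1, p2, p3⟩
        refine ⟨p1, p2, ?_⟩
        rw [mem_preimage, Set.piecewise_eq_of_mem _ _ _ (by exact p2)]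
        exact p3
      · rintro ⟨p1, p2, p3⟩
        rw [mem_preimage, Set.piecewise_eq_of_mem _ _ _ p2] at p3
        exact ⟨p1, p2, p3⟩
    rw [e]
    exact hE.inter (hO.measurableSet.inter (hm (muexE_meas S j)))
  have hcov : ∀ a (E' : Set (G × ℝ)), MeasurableSet E' → E' ⊆ A a →
      MeasurableSet (θ a '' E') ∧ muexN T j (θ a '' E') = muexN T i E' :=
    fun a E' hE' hsub => cov a E' hE' fun p hp => (hsub hp).2.1
  have g1 : ∀ a b p, p ∈ A a → p ∈ A b → θ a p = θ b p := by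
    intro a b p pa pb
    refine muexBox_inj (i := j) pa.2.2.1 pb.2.2.1 ?_
    rw [hθφ a p pa.2.1, hθφ b p pb.2.1]
  have g2 : ∀ a b p q, p ∈ A a → q ∈ A b → θ a p = θ b q → p = q := by
    intro a b p q pa qb h
    refine hinj pa.1 qb.1 ?_
    simp only []
    rw [← hθφ a p pa.2.1, ← hθφ b q qb.2.1, h]
  -- every pair is given by some arrow
  have g3 : ∀ p ∈ E, ∀ q ∈ muexE S j, p.1 • S.c i p.2 = q.1 • S.c j q.2 →
      ∃ a ∈ Tc, p ∈ A a ∧ θ a p = q := by
    intro p hp q hq hpq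
    have harr : S.Arr i j p.2 q.2 (p.1⁻¹ * q.1) := by
      refine ⟨h1 p hp, muexBox_lt hq.1, ?_⟩
      rw [mul_smul, ← hpq, inv_smul_smul]
    have hmem : (p.2, p.1⁻¹ * q.1) ∈ ⋃ a, V a := by
      refine mem_iUnion.mpr ⟨⟨(p.2, q.2, p.1⁻¹ * q.1), harr⟩, ?_, ?_⟩
      · simpa using hε ⟨(p.2, q.2, p.1⁻¹ * q.1), harr⟩
      · simp only [inv_mul_cancel, nd_one]
        exact hε ⟨(p.2, q.2, p.1⁻¹ * q.1), harr⟩
    rw [← hTU] at hmem
    obtain ⟨a, ha, ha1, ha2⟩ := mem_iUnion₂.mp hmem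
    obtain ⟨n1, n2⟩ := near a p.2 q.2 (p.1⁻¹ * q.1) ha1 ha2 harr
    have hθ : θ a p = q := by
      refine Prod.ext ?_ ?_
      · change p.1 * S.kf i j a.1.1 a.1.2.1 a.1.2.2 p.2 = q.1
        rw [← n1, mul_inv_cancel_left]
      · exact n2.symm
    exact ⟨a, ha, ⟨hp, ha1, by rw [hθ]; exact hq⟩, hθ⟩
  have eF : muexP S j ⁻¹' ((fun p : G × ℝ => p.1 • S.c i p.2) '' E) ∩ muexE S j =
      ⋃ a ∈ Tc, θ a '' A a := by
    ext q
    simp only [mem_iUnion, mem_image, exists_prop]
    constructor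
    · rintro ⟨⟨p, hp, hpq⟩, hq⟩
      simp only [] at hpq
      rw [muexP_eq S j (muexBox_lt hq.1)] at hpq
      obtain ⟨a, ha, hpa, hθ⟩ := g3 p hp q hq hpq
      exact ⟨a, ha, p, hpa, hθ⟩
    · rintro ⟨a, ha, p, hp, rfl⟩
      refine ⟨⟨p, hp.1, ?_⟩, hp.2.2⟩
      simp only []
      rw [muexP_eq S j (muexBox_lt hp.2.2.1), hθφ a p hp.2.1]
  have eE : E ∩ muexP S i ⁻¹' muexC S j = ⋃ a ∈ Tc, A a := by
    ext p
    simp only [mem_iUnion, exists_prop]
    constructor
    · rintro ⟨hp, hpC⟩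
      rw [mem_preimage, muexP_eq S i (h1 p hp)] at hpC
      obtain ⟨q, hq, hqp⟩ := hpC.1
      have hqE : q ∈ muexE S j := by
        refine ⟨hq, ?_⟩
        rw [mem_preimage, muexP_eq S j (muexBox_lt hq)]
        have hqp' : q.1 • S.c j q.2 = p.1 • S.c i p.2 := hqp
        rw [hqp']
        exact hpC
      obtain ⟨a, ha, hpa, -⟩ := g3 p hp q hqE hqp.symm
      exact ⟨a, ha, hpa⟩
    · rintro ⟨a, ha, hp⟩
      refine ⟨hp.1, ?_⟩
      have h2 := hp.2.2.2
      rw [mem_preimage, muexP_eq S j (muexBox_lt hp.2.2.1), hθφ a p hp.2.1] at h2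
      rw [mem_preimage, muexP_eq S i (h1 p hp.1)]
      exact h2
  rw [eF, eE]
  rcases Tc.eq_empty_or_nonempty with hemp | hne
  · simp [hemp]
  · obtain ⟨f, hf⟩ := hTc.exists_eq_range hne
    rw [hf, biUnion_range, biUnion_range]
    exact muex_abs (muexN T i) (muexN T j) (fun m => A (f m)) (fun m => θ (f m))
      (fun m => hA _) (fun m => hcov (f m)) (fun m l => g1 (f m) (f l))
      (fun m l => g2 (f m) (f l))

theorem muex_fin {S : FB X} (T : TN S) (i : Fin S.n) : muexN T i (muexE S i) < ⊤ := by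
  have hQ : IsCompact (Bl S.ρ1) := isCompact_Bl S.ρ1
  obtain ⟨C, hC, hb⟩ := T.W_bound hQ (1 / 2) (by norm_num)
  rw [muexN, withDensity_apply _ (muexE_meas S i)]
  have h1 : ∫⁻ p in muexE S i, ENNReal.ofReal (T.W p.1 i p.2) ∂(hG.prod volume) ≤
      ∫⁻ p in muexE S i, ENNReal.ofReal C ∂(hG.prod volume) := by
    refine setLIntegral_mono measurable_const fun p hp => ?_
    exact ENNReal.ofReal_le_ofReal (hb p.1 hp.1.1.le i p.2 hp.1.2.le).2
  refine h1.trans_lt ?_
  rw [setLIntegral_const]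
  refine ENNReal.mul_lt_top ENNReal.ofReal_lt_top ?_
  have h2 : muexE S i ⊆ Bl S.ρ1 ×ˢ Icc (-(1 / 2) : ℝ) (1 / 2) := by
    intro p hp
    refine ⟨hp.1.1.le, ?_⟩
    have := abs_lt.mp hp.1.2
    exact ⟨this.1.le, this.2.le⟩
  refine (measure_mono h2).trans_lt ?_
  rw [Measure.prod_prod]
  exact ENNReal.mul_lt_top hQ.measure_lt_top (by simp)

/-- MUEX -/
theorem exists_mu {S : FB X} (T : TN S) : ∃ μ : Measure X, T.IsMu μ := by
  refine ⟨∑ i, Measure.map (muexP S i) ((muexN T i).restrict (muexE S i)), ?_, ?_⟩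
  · constructor
    rw [Measure.finsetSum_apply]
    refine ENNReal.sum_lt_top.mpr fun i _ => ?_
    rw [Measure.map_apply (muexP_meas S i) MeasurableSet.univ, preimage_univ,
      Measure.restrict_apply MeasurableSet.univ, univ_inter]
    exact muex_fin T i
  · intro i E hE h1 hinj
    have him := muex_image_meas S i hE h1 hinj
    have e1 : ∀ j, (Measure.map (muexP S j) ((muexN T j).restrict (muexE S j)))
        ((fun p : G × ℝ => p.1 • S.c i p.2) '' E) = muexN T i (E ∩ muexP S i ⁻¹' muexC S j) := by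
      intro j
      rw [Measure.map_apply (muexP_meas S j) him, Measure.restrict_apply (muexP_meas S j him)]
      exact muex_key T i j hE h1 hinj
    rw [Measure.finsetSum_apply, Finset.sum_congr rfl fun j _ => e1 j]
    have e2 : E = ⋃ j, (E ∩ muexP S i ⁻¹' muexC S j) := by
      ext p
      simp only [mem_iUnion, mem_inter_iff, mem_preimage]
      constructor
      · intro hp
        obtain ⟨j, hj⟩ := muexC_exists S (muexP S i p)
        exact ⟨j, hp, hj⟩
      · rintro ⟨j, hp, -⟩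
        exact hp
    have e3 : muexN T i E = ∑ j, muexN T i (E ∩ muexP S i ⁻¹' muexC S j) := by
      conv_lhs => rw [e2]
      rw [measure_iUnion, tsum_fintype]
      · intro j l hjl
        rw [Function.onFun, Set.disjoint_left]
        rintro p ⟨-, hp1⟩ ⟨-, hp2⟩
        exact Set.disjoint_left.mp (muexC_disj S hjl) hp1 hp2
      · exact fun j => hE.inter (muexP_meas S i (muexC_meas S j))
    rw [← e3, muexN, withDensity_apply _ hE]

end Pool.Agent.H88.LF
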