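import Pool.Agent.H88.LF.CSTN
import Pool.Agent.H88.LF.INV
import Pool.Agent.H88.LF.MUEX

/-!
# CST: (C*) for a flow box structure without compact orbits

Give `X` its Borel structure; `exists_mu`, `koop` (for `hμ.kd`), `niv_of_no_co` for `Ω = univ`, `cstar_of_niv`.
`contract_of_cstar`: if `J g x ≥ ε` for all `g` then the integral over `Bl ρ` is at least `ε^s hG(Bl ρ) > 0` for all `v`.
-/

set_option autoImplicit false

open MeasureTheory Set Filter
open scoped Topology ENNReal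

namespace Pool.Agent.H88.LF

variable {X : Type} [MetricSpace X] [CompactSpace X] [MulAction G X] [ContinuousSMul G X]

/-- CST -/
theorem cstar (S : FB X) (T : TN S) (hno : ∀ x : X, ¬ CO x) : T.CStar := by
  borelize X
  obtain ⟨μ, hμ⟩ := exists_mu T
  haveI : IsFiniteMeasure μ := hμ.1
  obtain ⟨R, hR⟩ := koop μ hμ.kd
  exact cstar_of_niv hμ R hR (niv_of_no_co hμ R hR univ (fun x _ => hno x))

/-- CTR -/
theorem contract_of_cstar (S : FB X) (T : TN S) (h : T.CStar) (x : X) (ε : ℝ) (hε : 0 < ε) :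
    ∃ g : G, T.J g x < ε := by
  obtain ⟨s, hs, ε', hε', C, hC, ρ, hρ, hb⟩ := h
  by_contra hcon
  push_neg at hcon
  have hBpos := hG_Bl_pos hρ
  have hBfin := hG_Bl_lt_top ρ
  have key : ∀ v : ℝ × ℝ, ENNReal.ofReal (ε ^ s) * hG (Bl ρ) ≤
      ENNReal.ofReal (C * Real.exp (-ε' * ‖v‖)) := by
    intro v
    refine le_trans ?_ (hb x v)
    rw [← setLIntegral_const]
    refine setLIntegral_mono' (measurableSet_Bl ρ) ?_
    intro g _
    exact ENNReal.ofReal_le_ofReal (Real.rpow_le_rpow hε.le (hcon _) hs.le)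
  have hlim : Tendsto (fun n : ℕ => ENNReal.ofReal (C * Real.exp (-ε' * ‖((n:ℝ), (0:ℝ))‖)))
      atTop (𝓝 0) := by
    rw [← ENNReal.ofReal_zero]
    refine ENNReal.tendsto_ofReal ?_
    have h1 : ∀ n : ℕ, ‖(((n:ℝ), (0:ℝ)) : ℝ × ℝ)‖ = n := by
      intro n
      simp [Prod.norm_def]
    simp_rw [h1]
    have h2 : Tendsto (fun n : ℕ => Real.exp (-ε' * (n:ℝ))) atTop (𝓝 0) := by
      refine Real.tendsto_exp_atBot.comp ?_
      exact tendsto_natCast_atTop_atTop.const_mul_atTop_of_neg (by linarith)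
    simpa using h2.const_mul C
  have h0 : ENNReal.ofReal (ε ^ s) * hG (Bl ρ) ≤ 0 :=
    ge_of_tendsto' hlim (fun n => key _)
  have h1 : ENNReal.ofReal (ε ^ s) ≠ 0 := by
    simpa using Real.rpow_pos_of_pos hε s
  exact absurd (le_antisymm h0 bot_le) (mul_ne_zero h1 hBpos.ne')

end Pool.Agent.H88.LF
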