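import Pool.Agent.H88.LF.LU

/-!
# NET (blueprint section 6): regular directions are dense
-/

set_option autoImplicit false

open Set Filter
open scoped Topology

namespace Pool.Agent.H88.LF

theorem net_reg {a b : ℝ} (h1 : a ≠ b) (h2 : b ≠ -(a / 2)) (h3 : b ≠ -2 * a) : Reg (a, b) := by
  intro i j hij
  have e0 : cmp (a, b) 0 = a := rfl
  have e1 : cmp (a, b) 1 = b := rfl
  have e2 : cmp (a, b) 2 = -a - b := rfl
  fin_cases i <;> fin_cases j
  · rfl
  · exact absurd (show a = b from hij) h1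
  · have h : a = -a - b := hij
    exact absurd (by linarith) h3
  · exact absurd (show b = a from hij).symm h1
  · rfl
  · have h : b = -a - b := hij
    exact absurd (by linarith) h2
  · have h : -a - b = a := hij
    exact absurd (by linarith) h3
  · have h : -a - b = b := hij
    exact absurd (by linarith) h2
  · rfl

theorem net_reg' {a b : ℝ} (h1 : a ≠ b) (h2 : b ≠ -(a / 2)) (h3 : b ≠ -2 * a) : Reg (b, a) := by
  intro i j hij
  fin_cases i <;> fin_cases j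
  · rfl
  · exact absurd (show b = a from hij).symm h1
  · have h : b = -b - a := hij
    exact absurd (by linarith) h2
  · exact absurd (show a = b from hij) h1
  · rfl
  · have h : a = -b - a := hij
    exact absurd (by linarith) h3
  · have h : -b - a = b := hij
    exact absurd (by linarith) h2
  · have h : -b - a = a := hij
    exact absurd (by linarith) h3
  · rfl

theorem net_pick (a : ℝ) {b η : ℝ} (hb : |b| ≤ 1) (hη : 0 < η) :
    ∃ y : ℝ, |y| ≤ 1 ∧ |b - y| ≤ η ∧ a ≠ y ∧ y ≠ -(a / 2) ∧ y ≠ -2 * a := by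
  have hm : 0 < min η 1 := lt_min hη one_pos
  have hb' := abs_le.1 hb
  have key : ∀ l u : ℝ, l < u → ∃ y ∈ Ioo l u, y ∉ ({a, -(a / 2), -2 * a} : Finset ℝ) := by
    intro l u hlu
    exact (Ioo_infinite hlu).exists_notMem_finset _
  have hη1 := min_le_left η 1
  have hη2 := min_le_right η 1
  rcases le_total b 0 with h0 | h0
  · obtain ⟨y, hy, hy2⟩ := key b (b + min η 1) (by linarith)
    simp only [Finset.mem_insert, Finset.mem_singleton, not_or] at hy2
    refine ⟨y, abs_le.2 ⟨by linarith [hy.1], by linarith [hy.2]⟩, ?_, fun h => hy2.1 h.symm,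
      hy2.2.1, hy2.2.2⟩
    rw [abs_le]
    exact ⟨by linarith [hy.2], by linarith [hy.1]⟩
  · obtain ⟨y, hy, hy2⟩ := key (b - min η 1) b (by linarith)
    simp only [Finset.mem_insert, Finset.mem_singleton, not_or] at hy2
    refine ⟨y, abs_le.2 ⟨by linarith [hy.1], by linarith [hy.2]⟩, ?_, fun h => hy2.1 h.symm,
      hy2.2.1, hy2.2.2⟩
    rw [abs_le]
    exact ⟨by linarith [hy.2], by linarith [hy.1]⟩

theorem net_near (v : ℝ × ℝ) (hv : ‖v‖ = 1) {η : ℝ} (hη : 0 < η) :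
    ∃ θ : ℝ × ℝ, (Reg θ ∧ ‖θ‖ = 1) ∧ ‖v - θ‖ ≤ η := by
  obtain ⟨a, b⟩ := v
  rw [Prod.norm_def] at hv
  simp only [Real.norm_eq_abs] at hv
  have ha : |a| ≤ 1 := hv ▸ le_max_left _ _
  have hb : |b| ≤ 1 := hv ▸ le_max_right _ _
  rcases max_choice |a| |b| with h | h
  · rw [h] at hv
    obtain ⟨y, h1, h2, h3, h4, h5⟩ := net_pick a hb hη
    refine ⟨(a, y), ⟨net_reg h3 h4 h5, ?_⟩, ?_⟩
    · rw [Prod.norm_def]
      simp only [Real.norm_eq_abs]
      rw [hv, max_eq_left h1]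
    · rw [Prod.norm_def]
      simp only [Prod.fst_sub, Prod.snd_sub, sub_self, norm_zero, Real.norm_eq_abs]
      exact max_le hη.le h2
  · rw [h] at hv
    obtain ⟨y, h1, h2, h3, h4, h5⟩ := net_pick b ha hη
    refine ⟨(y, b), ⟨net_reg' h3 h4 h5, ?_⟩, ?_⟩
    · rw [Prod.norm_def]
      simp only [Real.norm_eq_abs]
      rw [hv, max_eq_right h1]
    · rw [Prod.norm_def]
      simp only [Prod.fst_sub, Prod.snd_sub, sub_self, norm_zero, Real.norm_eq_abs]
      exact max_le h2 hη.le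

/-- A finite net of regular directions in the unit sphere of `ℝ × ℝ`. -/
theorem exists_net (δ : ℝ) (hδ : 0 < δ) :
    ∃ F : Finset (ℝ × ℝ), (∀ θ ∈ F, Reg θ ∧ ‖θ‖ = 1) ∧
      ∀ v : ℝ × ℝ, ‖v‖ = 1 → ∃ θ ∈ F, ‖v - θ‖ ≤ δ := by
  classical
  have hc : IsCompact (Metric.sphere (0 : ℝ × ℝ) 1) := isCompact_sphere _ _
  have hch : ∀ v : ℝ × ℝ, ∃ θ : ℝ × ℝ, ‖v‖ = 1 → (Reg θ ∧ ‖θ‖ = 1) ∧ ‖v - θ‖ ≤ δ / 2 := by
    intro v
    by_cases hv : ‖v‖ = 1
    · obtain ⟨θ, h1, h2⟩ := net_near v hv (by positivity : 0 < δ / 2)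
      exact ⟨θ, fun _ => ⟨h1, h2⟩⟩
    · exact ⟨0, fun h => absurd h hv⟩
  choose θ hθ using hch
  obtain ⟨t, ht1, ht2⟩ := hc.elim_nhds_subcover (fun v => Metric.ball v (δ / 2))
    (fun v _ => Metric.ball_mem_nhds v (by positivity))
  have hsph : ∀ v ∈ t, ‖v‖ = 1 := by
    intro v hv
    simpa using ht1 v hv
  refine ⟨t.image θ, ?_, ?_⟩
  · intro w hw
    obtain ⟨v, hv, rfl⟩ := Finset.mem_image.1 hw
    exact (hθ v (hsph v hv)).1
  · intro v hv
    have h1 : v ∈ Metric.sphere (0 : ℝ × ℝ) 1 := by simpa using hv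
    have h2 := ht2 h1
    rw [mem_iUnion₂] at h2
    obtain ⟨u, hu, h3⟩ := h2
    refine ⟨θ u, Finset.mem_image_of_mem θ hu, ?_⟩
    have h4 := (hθ u (hsph u hu)).2
    rw [Metric.mem_ball, dist_eq_norm] at h3
    calc ‖v - θ u‖ = ‖(v - u) + (u - θ u)‖ := by rw [sub_add_sub_cancel]
      _ ≤ ‖v - u‖ + ‖u - θ u‖ := norm_add_le _ _
      _ ≤ δ := by linarith

end Pool.Agent.H88.LF
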