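import Pool.Agent.H88.LF.RATE
import Pool.Agent.H88.LF.NET

/-!
# CSTN (blueprint section 6)
-/

set_option autoImplicit false

open MeasureTheory Set Filter
open scoped Topology ENNReal

namespace Pool.Agent.H88.LF

variable {X : Type} [MetricSpace X] [CompactSpace X] [MulAction G X] [ContinuousSMul G X]

variable [MeasurableSpace X] [BorelSpace X]

/-- CSTN: `rate` for `Ω = univ` in the directions of a net with `δ = 1/(8(C0+1))`; for `v` take `θ` in the net near `v/‖v‖` and `n = ⌊‖v‖⌋`: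
`‖v - n•θ‖ ≤ δ‖v‖ + 1`, `J(D v g,x) = J(D(v-nθ),·) J(D(nθ)g,x) ≤ e^{C0(δ‖v‖+2)} J(D(nθ)g,x)`. -/
theorem cstar_of_niv {S : FB X} {T : TN S} {μ : Measure X} (hμ : T.IsMu μ)
    (R : URep (Lp ℂ 2 μ)) (hR : hμ.kd.IsKoop R) (h : NIV R univ) : T.CStar := by
  obtain ⟨C0, hC0⟩ := T.exists_growth
  have hC1 : (1 : ℝ) ≤ C0 := hC0.1
  obtain ⟨F, hF, hnet⟩ := exists_net (1 / (8 * (C0 + 1))) (by positivity)
  have h0 : ∀ θ, θ ∈ F → ∃ ρ' : ℝ, 0 < ρ' ∧ ∃ C : ℝ, 0 < C ∧ ∀ (x : X) (n : ℕ),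
      ∫⁻ g in Bl ρ', ENNReal.ofReal (T.J (D ((n:ℝ) • θ) * g) x ^ (1 / (16 * (C0 + 1)))) ∂hG ≤
        ENNReal.ofReal (C * Real.exp (-(n:ℝ) / (64 * (C0 + 1)))) := by
    intro θ hθ
    obtain ⟨ρ', hρ', -, hr⟩ := rate hμ R hR C0 hC0 θ (hF θ hθ).1 (hF θ hθ).2
    obtain ⟨C, hC, hr1⟩ := hr 1 one_pos
    refine ⟨ρ', hρ', C, hC, fun x n => ?_⟩
    exact hr1 univ MeasurableSet.univ (fun _ _ _ => mem_univ _) h x 1 (Or.inl rfl)
      (fun _ _ _ => mem_univ _) n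
  choose! ρ hρ C hC hbd using h0
  have hρs : 0 ≤ ∑ θ ∈ F, (ρ θ)⁻¹ := Finset.sum_nonneg fun θ hθ => (inv_pos.2 (hρ θ hθ)).le
  have hCs : 0 ≤ ∑ θ ∈ F, C θ := Finset.sum_nonneg fun θ hθ => (hC θ hθ).le
  set s : ℝ := 1 / (16 * (C0 + 1)) with hs
  have hs0 : 0 < s := by positivity
  refine ⟨s, hs0, 1 / (128 * (C0 + 1)), by positivity,
    Real.exp (s * (2 * C0)) * ((1 + ∑ θ ∈ F, C θ) * Real.exp (1 / (64 * (C0 + 1)))),
    by positivity, (1 + ∑ θ ∈ F, (ρ θ)⁻¹)⁻¹, by positivity, fun x v => ?_⟩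
  obtain ⟨u, hu, hvu⟩ : ∃ u : ℝ × ℝ, ‖u‖ = 1 ∧ v = ‖v‖ • u := by
    by_cases hv : v = 0
    · refine ⟨(1, 0), by simp [Prod.norm_def], ?_⟩
      rw [hv, norm_zero, zero_smul]
    · have hn : ‖v‖ ≠ 0 := norm_ne_zero_iff.2 hv
      refine ⟨‖v‖⁻¹ • v, ?_, ?_⟩
      · rw [norm_smul, norm_inv, norm_norm, inv_mul_cancel₀ hn]
      · rw [smul_smul, mul_inv_cancel₀ hn, one_smul]
  obtain ⟨θ, hθ, hθu⟩ := hnet u hu
  set n : ℕ := ⌊‖v‖⌋₊ with hn
  have hn1 : (n : ℝ) ≤ ‖v‖ := Nat.floor_le (norm_nonneg v)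
  have hn2 : ‖v‖ < n + 1 := Nat.lt_floor_add_one ‖v‖
  set w : ℝ × ℝ := v - (n : ℝ) • θ with hw
  have hwn : ‖w‖ ≤ 1 / (8 * (C0 + 1)) * ‖v‖ + 1 := by
    have h1 : w = ‖v‖ • (u - θ) + (‖v‖ - n) • θ := by
      rw [hw]
      nth_rewrite 1 [hvu]
      module
    rw [h1]
    refine (norm_add_le _ _).trans ?_
    rw [norm_smul, norm_smul, norm_norm, (hF θ hθ).2, mul_one]
    have h2 : ‖‖v‖ - (n : ℝ)‖ ≤ 1 := by
      rw [Real.norm_eq_abs, abs_le]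
      constructor <;> linarith
    have h3 : ‖v‖ * ‖u - θ‖ ≤ ‖v‖ * (1 / (8 * (C0 + 1))) := by gcongr
    linarith
  have hJ : ∀ g : G, T.J (D v * g) x ^ s ≤
      Real.exp (s * (C0 * (‖w‖ + 1))) * T.J (D ((n:ℝ) • θ) * g) x ^ s := by
    intro g
    have h1 : D v = D w * D ((n:ℝ) • θ) := by
      rw [← D_add, hw, sub_add_cancel]
    rw [h1, mul_assoc, T.J_mul]
    have h2 := (hC0.2 w 1 ((D ((n:ℝ) • θ) * g) • x) (by
      change nd 1 ≤ 1
      rw [nd_one]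
      exact zero_le_one)).2
    rw [mul_one] at h2
    have h3 := (T.J_pos (D w) ((D ((n:ℝ) • θ) * g) • x)).le
    have h4 := (T.J_pos (D ((n:ℝ) • θ) * g) x).le
    rw [Real.mul_rpow h3 h4]
    refine mul_le_mul_of_nonneg_right ?_ (Real.rpow_nonneg h4 s)
    calc T.J (D w) ((D ((n:ℝ) • θ) * g) • x) ^ s ≤ Real.exp (C0 * (‖w‖ + 1)) ^ s :=
          Real.rpow_le_rpow h3 h2 hs0.le
      _ = Real.exp (s * (C0 * (‖w‖ + 1))) := by rw [← Real.exp_mul, mul_comm]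
  have hsub : Bl ((1 + ∑ θ ∈ F, (ρ θ)⁻¹)⁻¹) ⊆ Bl (ρ θ) := by
    refine Bl_mono ?_
    have h1 : (ρ θ)⁻¹ ≤ 1 + ∑ θ ∈ F, (ρ θ)⁻¹ := by
      have := Finset.single_le_sum (f := fun θ => (ρ θ)⁻¹)
        (fun θ hθ => (inv_pos.2 (hρ θ hθ)).le) hθ
      linarith
    exact (inv_le_comm₀ (by positivity) (hρ θ hθ)).2 h1
  have hCθ : C θ ≤ 1 + ∑ θ ∈ F, C θ := by
    have := Finset.single_le_sum (f := fun θ => C θ) (fun θ hθ => (hC θ hθ).le) hθ
    linarith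
  calc ∫⁻ g in Bl ((1 + ∑ θ ∈ F, (ρ θ)⁻¹)⁻¹), ENNReal.ofReal (T.J (D v * g) x ^ s) ∂hG
      ≤ ∫⁻ g in Bl (ρ θ), ENNReal.ofReal (T.J (D v * g) x ^ s) ∂hG := lintegral_mono_set hsub
    _ ≤ ∫⁻ g in Bl (ρ θ), ENNReal.ofReal (Real.exp (s * (C0 * (‖w‖ + 1)))) *
          ENNReal.ofReal (T.J (D ((n:ℝ) • θ) * g) x ^ s) ∂hG := by
        refine lintegral_mono fun g => ?_
        rw [← ENNReal.ofReal_mul (Real.exp_pos _).le]
        exact ENNReal.ofReal_le_ofReal (hJ g)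
    _ = ENNReal.ofReal (Real.exp (s * (C0 * (‖w‖ + 1)))) *
          ∫⁻ g in Bl (ρ θ), ENNReal.ofReal (T.J (D ((n:ℝ) • θ) * g) x ^ s) ∂hG :=
        lintegral_const_mul' _ _ ENNReal.ofReal_ne_top
    _ ≤ ENNReal.ofReal (Real.exp (s * (C0 * (‖w‖ + 1)))) *
          ENNReal.ofReal (C θ * Real.exp (-(n:ℝ) / (64 * (C0 + 1)))) :=
        mul_le_mul_right (hbd θ hθ x n) _
    _ = ENNReal.ofReal (Real.exp (s * (C0 * (‖w‖ + 1))) *
          (C θ * Real.exp (-(n:ℝ) / (64 * (C0 + 1))))) :=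
        (ENNReal.ofReal_mul (Real.exp_pos _).le).symm
    _ ≤ _ := by
        refine ENNReal.ofReal_le_ofReal ?_
        have hK : 0 < C0 + 1 := by linarith
        have hCθ0 : 0 ≤ C θ := (hC θ hθ).le
        have e1 : s * (C0 * (‖w‖ + 1)) ≤ s * (2 * C0) + 1 / (128 * (C0 + 1)) * ‖v‖ := by
          have h1 : s * (C0 * (‖w‖ + 1)) ≤
              s * (C0 * (1 / (8 * (C0 + 1)) * ‖v‖ + 1 + 1)) := by gcongr
          refine h1.trans ?_
          have h2 : s * (C0 * (1 / (8 * (C0 + 1)) * ‖v‖ + 1 + 1))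
              = s * (2 * C0) + (s * C0) * (1 / (8 * (C0 + 1))) * ‖v‖ := by ring
          rw [h2]
          have h3 : s * C0 ≤ 1 / 16 := by
            rw [hs, one_div, ← div_eq_inv_mul, div_le_iff₀ (by positivity)]
            linarith
          have h4 : (s * C0) * (1 / (8 * (C0 + 1))) * ‖v‖ ≤
              1 / 16 * (1 / (8 * (C0 + 1))) * ‖v‖ := by gcongr
          have h5 : 1 / 16 * (1 / (8 * (C0 + 1))) * ‖v‖ = 1 / (128 * (C0 + 1)) * ‖v‖ := by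
            field_simp
            ring
          linarith
        have e2 : -(n:ℝ) / (64 * (C0 + 1)) ≤ 1 / (64 * (C0 + 1)) +
            (-(1 / (64 * (C0 + 1))) * ‖v‖) := by
          have h1 : 1 / (64 * (C0 + 1)) + (-(1 / (64 * (C0 + 1))) * ‖v‖)
              = (1 - ‖v‖) / (64 * (C0 + 1)) := by
            field_simp
            ring
          rw [h1]
          gcongr
          linarith
        calc Real.exp (s * (C0 * (‖w‖ + 1))) * (C θ * Real.exp (-(n:ℝ) / (64 * (C0 + 1))))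
            ≤ Real.exp (s * (2 * C0) + 1 / (128 * (C0 + 1)) * ‖v‖) *
              ((1 + ∑ θ ∈ F, C θ) * Real.exp (1 / (64 * (C0 + 1)) +
                (-(1 / (64 * (C0 + 1))) * ‖v‖))) := by gcongr
          _ = Real.exp (s * (2 * C0)) *
              ((1 + ∑ θ ∈ F, C θ) * Real.exp (1 / (64 * (C0 + 1)))) *
              (Real.exp (1 / (128 * (C0 + 1)) * ‖v‖) *
                Real.exp (-(1 / (64 * (C0 + 1))) * ‖v‖)) := by
              rw [Real.exp_add, Real.exp_add]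
              ring
          _ = _ := by
              rw [← Real.exp_add]
              congr 2
              field_simp
              ring

end Pool.Agent.H88.LF
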