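import Pool.Agent.H88.LF.FBB

/-!
# D1A (blueprint 8.2, first half)

`x0 = c i t0`, `Γ` its stabiliser, `G = K0 Γ`.  For `γ ∈ Γ` we have the arrow `γ⁻¹ : (i,t0) → (i,t0)`; write `h_γ = τf i i t0 t0 γ⁻¹`, so `γ • c i t = (γ kf(t)) • c i (h_γ t)` near `t0` with
`γ kf(t0) = 1`.  `Γ⁺ = {γ : dτ > 0}` has index at most two: `G = K1 Γ⁺`, `K1` compact with `1 ∈ K1`.  `K = Bl e * K1` (`e > 0`), `F0 = Γ⁺ ∩ K1⁻¹K`, finite (discreteness, `ulf`), add inverses.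
If `t` is near `t0` and `h_γ t = t` for all `γ ∈ F0` then `Y = K • c i t` is stable under a small ball `Bl e'`: `k = k1 γ`, `b k c i t = b k1 (γ kf(t)) c i t` and `b k1 (γ kf(t)) ∈ K` for `t` near
`t0`, uniformly in `k1 ∈ K1` (`k1 η k1⁻¹` is small).  `eq_univ_of_Bl_mul` for `{g : g • c i t ∈ K • c i t}`.
In the statement the arrow is indexed by `γ` itself (replace `γ` by `γ⁻¹`; `F` is symmetric).
-/

set_option autoImplicit false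

open MeasureTheory Set Filter
open scoped Topology Pointwise

namespace Pool.Agent.H88.LF

variable {X : Type} [MetricSpace X] [CompactSpace X] [MulAction G X] [ContinuousSMul G X]

/-- Stabilisers meet compact sets in finite sets. -/
theorem d1a_finite (S : FB X) (x : X) (Q : Set G) (hQ : IsCompact Q) :
    Set.Finite {γ : G | γ ∈ Q ∧ γ • x = x} := by
  obtain ⟨ρ, hρ, hulf⟩ := S.ulf
  have hr : 0 < min (ρ / 6) (1 / 2) := lt_min (by linarith) (by norm_num)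
  obtain ⟨F, -, hF⟩ := exists_finite_cover hQ hr
  have hsub : {γ : G | γ ∈ Q ∧ γ • x = x} ⊆
      ⋃ f ∈ F, {γ : G | γ • x = x ∧ γ * f⁻¹ ∈ Bl (min (ρ / 6) (1 / 2))} := by
    rintro γ ⟨hγ, h1⟩
    obtain ⟨f, hf, h2⟩ := hF γ hγ
    simp only [mem_iUnion]
    exact ⟨f, hf, h1, h2⟩
  refine Set.Finite.subset (F.finite_toSet.biUnion (fun f _ => ?_)) hsub
  refine Set.Subsingleton.finite ?_
  rintro γ ⟨h1, h2⟩ γ' ⟨h1', h2'⟩
  have h3 : nd (γ * f⁻¹) ≤ min (ρ / 6) (1 / 2) := h2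
  have h3' : nd (γ' * f⁻¹) ≤ min (ρ / 6) (1 / 2) := h2'
  have h4 : nd (γ * f⁻¹) ≤ ρ / 6 := h3.trans (min_le_left _ _)
  have h4' : nd (γ' * f⁻¹) ≤ ρ / 6 := h3'.trans (min_le_left _ _)
  have h5' : nd (γ' * f⁻¹) ≤ 1 / 2 := h3'.trans (min_le_right _ _)
  have h6 : nd (γ' * f⁻¹)⁻¹ ≤ 2 * nd (γ' * f⁻¹) := nd_inv_le_of_small _ h5'
  have h7 : nrm ((γ' * f⁻¹)⁻¹).1 ≤ 3 + nd (γ' * f⁻¹)⁻¹ := nrm_le_nd _
  have h8 : nd ((γ * f⁻¹) * (γ' * f⁻¹)⁻¹) ≤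
      nd (γ * f⁻¹) * nrm ((γ' * f⁻¹)⁻¹).1 + nd (γ' * f⁻¹)⁻¹ := nd_mul_le _ _
  have h9 : nd (γ * f⁻¹) * nrm ((γ' * f⁻¹)⁻¹).1 ≤ ρ / 6 * 4 :=
    mul_le_mul h4 (by linarith) (nrm_nonneg _) (by linarith)
  have h10 : (γ * f⁻¹) * (γ' * f⁻¹)⁻¹ = γ * γ'⁻¹ := by group
  rw [h10] at h8
  have h11 : (γ * γ'⁻¹) • x = x := by
    rw [mul_smul, inv_smul_eq_iff.2 h1'.symm, h1]
  have h12 := hulf x (γ * γ'⁻¹) (by linarith) h11
  exact mul_inv_eq_one.1 h12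

theorem d1a_K1 (S : FB X) (i : Fin S.n) (t0 : ℝ) (ht0 : |t0| < 1) (hCO : CO (S.c i t0)) :
    ∃ K1 : Set G, IsCompact K1 ∧ (1 : G) ∈ K1 ∧
      ∀ g : G, ∃ k ∈ K1, S.Arr i i t0 t0 (k⁻¹ * g) ∧ 0 < S.dτ i i t0 t0 (k⁻¹ * g) := by
  obtain ⟨K0, hK0, hK0x⟩ := hCO
  have hArr : ∀ γ : G, γ • S.c i t0 = S.c i t0 → S.Arr i i t0 t0 γ :=
    fun γ h => ⟨ht0, ht0, h.symm⟩
  by_cases hneg : ∃ γ : G, S.Arr i i t0 t0 γ ∧ S.dτ i i t0 t0 γ < 0
  · obtain ⟨γm, hm1, hm2⟩ := hneg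
    refine ⟨insert 1 (K0 ∪ (fun k => k * γm) '' K0),
      (hK0.union (hK0.image (continuous_mul_const _))).insert 1, Set.mem_insert _ _, ?_⟩
    intro g
    obtain ⟨k, hk, hkg⟩ := hK0x g
    have h1 : (k⁻¹ * g) • S.c i t0 = S.c i t0 := by rw [mul_smul, hkg, inv_smul_smul]
    rcases lt_or_gt_of_ne (S.dτ_ne_zero (hArr _ h1)) with h2 | h2
    · have h3 : (k * γm)⁻¹ * g = γm⁻¹ * (k⁻¹ * g) := by group
      refine ⟨k * γm, Or.inr (Or.inr ⟨k, hk, rfl⟩), ?_, ?_⟩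
      · rw [h3]
        exact S.arr_trans (S.arr_symm hm1) (hArr _ h1)
      · rw [h3, S.dτ_trans (S.arr_symm hm1) (hArr _ h1), S.dτ_symm hm1]
        exact mul_pos_of_neg_of_neg (inv_lt_zero.2 hm2) h2
    · exact ⟨k, Or.inr (Or.inl hk), hArr _ h1, h2⟩
  · push Not at hneg
    refine ⟨insert 1 K0, hK0.insert 1, Set.mem_insert _ _, ?_⟩
    intro g
    obtain ⟨k, hk, hkg⟩ := hK0x g
    have h1 : (k⁻¹ * g) • S.c i t0 = S.c i t0 := by rw [mul_smul, hkg, inv_smul_smul]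
    exact ⟨k, Or.inr hk, hArr _ h1,
      lt_of_le_of_ne (hneg _ (hArr _ h1)) (S.dτ_ne_zero (hArr _ h1)).symm⟩

theorem d1a (S : FB X) (i : Fin S.n) (t0 : ℝ) (ht0 : |t0| < 1) (hCO : CO (S.c i t0)) :
    ∃ F : Finset G, (∀ γ ∈ F, S.Arr i i t0 t0 γ ∧ 0 < S.dτ i i t0 t0 γ ∧ γ⁻¹ ∈ F) ∧
      ∃ K : Set G, IsCompact K ∧ ∃ δ > 0, ∀ t, |t - t0| < δ →
        (∀ γ ∈ F, S.τf i i t0 t0 γ t = t) → ∀ g : G, ∃ k ∈ K, g • S.c i t = k • S.c i t := by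
  classical
  obtain ⟨K1, hK1c, hK1one, hK1⟩ := d1a_K1 S i t0 ht0 hCO
  have hKc : IsCompact (Bl 1 * K1) := (isCompact_Bl 1).mul hK1c
  have hQc : IsCompact (K1⁻¹ * (Bl 1 * K1)) := hK1c.inv.mul hKc
  have hfin0 := d1a_finite S (S.c i t0) (K1⁻¹ * (Bl 1 * K1)) hQc
  have hfin : Set.Finite {γ : G | γ ∈ K1⁻¹ * (Bl 1 * K1) ∧ S.Arr i i t0 t0 γ ∧
      0 < S.dτ i i t0 t0 γ} := by
    refine hfin0.subset ?_
    rintro γ ⟨h1, h2, -⟩
    exact ⟨h1, h2.2.2.symm⟩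
  set F0 : Finset G := hfin.toFinset with hF0
  have hF0m : ∀ γ : G, γ ∈ F0 ↔ γ ∈ K1⁻¹ * (Bl 1 * K1) ∧ S.Arr i i t0 t0 γ ∧
      0 < S.dτ i i t0 t0 γ := fun γ => hfin.mem_toFinset
  refine ⟨F0 ∪ F0.image (fun γ => γ⁻¹), ?_, Bl 1 * K1, hKc, ?_⟩
  · intro γ hγ
    rw [Finset.mem_union, Finset.mem_image] at hγ
    rcases hγ with hγ | ⟨γ', hγ', rfl⟩
    · obtain ⟨h1, h2, h3⟩ := (hF0m γ).1 hγ
      refine ⟨h2, h3, ?_⟩
      rw [Finset.mem_union, Finset.mem_image]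
      exact Or.inr ⟨γ, hγ, rfl⟩
    · obtain ⟨h1, h2, h3⟩ := (hF0m γ').1 hγ'
      refine ⟨S.arr_symm h2, ?_, ?_⟩
      · rw [S.dτ_symm h2]
        exact inv_pos.2 h3
      · rw [inv_inv, Finset.mem_union]
        exact Or.inl hγ'
  · obtain ⟨C, hC1, hC⟩ := exists_bound_of_isCompact hK1c
    have hC0 : 0 < C := lt_of_lt_of_le one_pos hC1
    -- the elements `γ kf_{γ⁻¹}(t)` are small
    have hη : ∀ᶠ t in 𝓝 t0, ∀ γ ∈ F0, nd (γ * S.kf i i t0 t0 γ⁻¹ t) < 1 / (8 * C ^ 2) ∧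
        S.c i t = S.kf i i t0 t0 γ⁻¹ t • S.c i (S.τf i i t0 t0 γ⁻¹ t) := by
      rw [Filter.eventually_all_finset]
      intro γ hγ
      obtain ⟨h1, h2, h3⟩ := (hF0m γ).1 hγ
      have h4 := S.arr_symm h2
      have h5 := S.kf_τf_spec h4
      have h6 : ContinuousAt (fun t => nd (γ * S.kf i i t0 t0 γ⁻¹ t)) t0 := by
        have h7 : ContinuousAt (fun t => γ * S.kf i i t0 t0 γ⁻¹ t) t0 :=
          continuousAt_const.mul (S.continuousAt_kf h4)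
        exact ContinuousAt.comp (f := fun t => γ * S.kf i i t0 t0 γ⁻¹ t) (g := nd)
          continuous_nd.continuousAt h7
      have h8 : nd (γ * S.kf i i t0 t0 γ⁻¹ t0) < 1 / (8 * C ^ 2) := by
        rw [h5.1, mul_inv_cancel, nd_one]
        positivity
      exact (h6.tendsto.eventually (gt_mem_nhds h8)).and h5.2.2.2.2.2
    obtain ⟨δ, hδ, hδ'⟩ := Metric.eventually_nhds_iff.1 hη
    refine ⟨δ, hδ, fun t ht hfix g => ?_⟩
    have hη' := hδ' (y := t) (by rw [Real.dist_eq]; exact ht)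
    have huniv : {g : G | ∃ k ∈ Bl 1 * K1, g • S.c i t = k • S.c i t} = univ := by
      refine eq_univ_of_Bl_mul (r := 1 / 8) (by norm_num) ⟨1, 1 * 1, ?_, ?_⟩ ?_
      · refine Set.mul_mem_mul ?_ hK1one
        show nd 1 ≤ 1
        rw [nd_one]
        norm_num
      · rw [mul_one]
      · rintro b hb g ⟨k, hk, hkg⟩
        have hb' : nd b ≤ 1 / 8 := hb
        obtain ⟨k1, hk1, h1, h2⟩ := hK1 k
        have h3 : k1⁻¹ * k ∈ F0 := by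
          rw [hF0m]
          exact ⟨Set.mul_mem_mul (Set.inv_mem_inv.2 hk1) hk, h1, h2⟩
        obtain ⟨h4, h5⟩ := hη' _ h3
        have h6 : S.τf i i t0 t0 (k1⁻¹ * k)⁻¹ t = t := by
          refine hfix _ ?_
          rw [Finset.mem_union, Finset.mem_image]
          exact Or.inr ⟨_, h3, rfl⟩
        rw [h6] at h5
        set γ := k1⁻¹ * k with hγ
        set κ := S.kf i i t0 t0 γ⁻¹ t with hκ
        have h7 : k = k1 * γ := by rw [hγ, mul_inv_cancel_left]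
        obtain ⟨hc1, hc2⟩ := hC k1 hk1
        refine ⟨(b * (k1 * (γ * κ) * k1⁻¹)) * k1, Set.mul_mem_mul ?_ hk1, ?_⟩
        · show nd (b * (k1 * (γ * κ) * k1⁻¹)) ≤ 1
          have h8 := nd_conj_le k1 (γ * κ)
          have h9 : nrm k1.1 * nd (γ * κ) * nrm (k1⁻¹).1 ≤ C * (1 / (8 * C ^ 2)) * C := by
            refine mul_le_mul (mul_le_mul hc1 h4.le (nd_nonneg _) hC0.le) hc2 (nrm_nonneg _) ?_
            positivity
          have h10 : C * (1 / (8 * C ^ 2)) * C = 1 / 8 := by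
            field_simp
          have h11 : nd (k1 * (γ * κ) * k1⁻¹) ≤ 1 / 8 := by linarith
          have h12 := nd_mul_le b (k1 * (γ * κ) * k1⁻¹)
          have h13 := nrm_le_nd (k1 * (γ * κ) * k1⁻¹)
          have h14 : nd b * nrm (k1 * (γ * κ) * k1⁻¹ : G).1 ≤ 1 / 8 * 4 :=
            mul_le_mul hb' (by linarith) (nrm_nonneg _) (by norm_num)
          linarith
        · have h8 : (b * (k1 * (γ * κ) * k1⁻¹)) * k1 = b * (k1 * γ) * κ := by group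
          rw [h8, mul_smul (b * (k1 * γ)) κ, ← h5, mul_smul, hkg, h7, ← mul_smul]
    have := huniv.symm ▸ mem_univ g
    exact this

end Pool.Agent.H88.LF
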