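import Pool.Agent.H88.LF.GBD

/-!
# ORB: the invariant measure on a compact orbit

`Γ = stabilizer of x`, discrete by `hdisc`, `G = K Γ`.  Choose `r > 0` with `nd(b⁻¹b') ≤ ρ` for `b,b' ∈ Bl r` and finitely many `f_1..f_m ∈ K` with
`K ⊆ ∪ (Bl r) f_l`.  `F = ⋃_l (Bl r f_l ∖ ⋃_{l'<l} Bl r f_{l'} Γ)` is a Borel set which meets every coset `gΓ` in exactly one point (on `Bl r f_l` the cosets are
distinct: `b f_l γ = b' f_l` gives `f_l γ f_l⁻¹ = b⁻¹b'`; use a ball such that its conjugates by `f_l⁻¹` are still `≤ ρ`), contained in the compact set `K1 = ∪ Bl r f_l`.  `F` is a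
fundamental domain for the right action of the countable group `Γ` on `G`.  `lam = map (· • x) (hG.restrict F)`.  Invariance:
`lam (g⁻¹E) = hG {h ∈ F : g h x ∈ E} = hG (gF ∩ E')` with `E' = {h : h x ∈ E}` right `Γ`-invariant; `gF` is another fundamental domain, and the measure of
(fundamental domain) ∩ (right `Γ`-invariant set) does not depend on the fundamental domain (Mathlib: `IsFundamentalDomain.measure_set_eq`, for
the action of `Γ.op` or `Γᵐᵒᵖ`; or directly: decompose by `γ` and use right invariance of `hG`).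
-/

set_option autoImplicit false

open MeasureTheory Set Filter
open scoped Topology ENNReal

namespace Pool.Agent.H88.LF

section ORB

/-- The elements `b⁻¹ b'` for small `b, b'`. -/
theorem ORB_small {r : ℝ} (hr : 0 < r) (hr1 : r ≤ 1 / 2) {b b' : G} (hb : b ∈ Bl r)
    (hb' : b' ∈ Bl r) : nd (b⁻¹ * b') ≤ 9 * r := by
  have h1 : nd b ≤ r := hb
  have h2 : nd b' ≤ r := hb'
  have h3 := nd_inv_le_of_small b (h1.trans hr1)
  have h4 := nd_mul_le b⁻¹ b'
  have h5 := nrm_le_nd b'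
  have h6 := nd_nonneg b⁻¹
  have h7 := nd_nonneg b'
  have h8 : nd b⁻¹ * nrm b'.1 ≤ (2 * r) * (3 + r) := by
    apply mul_le_mul (h3.trans (by linarith)) (h5.trans (by linarith)) (nrm_nonneg _)
      (by positivity)
  nlinarith

/-- A discrete subgroup is countable. -/
theorem ORB_countable (Γ : Subgroup G) (ρ : ℝ) (hρ : 0 < ρ)
    (hdisc : ∀ k ∈ Γ, nd k ≤ ρ → k = 1) : Countable Γ := by
  have hd : DiscreteTopology Γ := by
    apply discreteTopology_of_isOpen_singleton_one
    have h1 : ({1} : Set Γ) = Subtype.val ⁻¹' {g : G | nd g < ρ} := by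
      ext γ
      constructor
      · intro h
        rw [mem_singleton_iff.1 h]
        change nd (1 : G) < ρ
        rw [nd_one]
        exact hρ
      · intro h
        have h2 : nd (γ : G) < ρ := h
        have h3 := hdisc γ γ.2 h2.le
        exact mem_singleton_iff.2 (Subtype.ext h3)
    rw [h1]
    exact (isOpen_nd_lt ρ).preimage continuous_subtype_val
  exact TopologicalSpace.separableSpace_iff_countable.1 inferInstance

/-- A compact Borel fundamental set for a cocompact discrete subgroup. -/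
theorem ORB_fund (Γ : Subgroup G) (K : Set G) (hK : IsCompact K)
    (hKG : ∀ g : G, ∃ γ ∈ Γ, g * γ ∈ K) (ρ : ℝ) (hρ : 0 < ρ)
    (hdisc : ∀ k ∈ Γ, nd k ≤ ρ → k = 1) :
    ∃ (F K1 : Set G), MeasurableSet F ∧ IsCompact K1 ∧ F ⊆ K1 ∧
      ∀ g : G, ∃ γ ∈ Γ, g * γ ∈ F ∧ ∀ γ' ∈ Γ, g * γ' ∈ F → γ' = γ := by
  classical
  have hcΓ := ORB_countable Γ ρ hρ hdisc
  obtain ⟨M, hM1, hM⟩ := exists_bound_of_isCompact hK
  set r : ℝ := min (1 / 2) (ρ / (9 * M ^ 2)) with hr
  have hr0 : 0 < r := lt_min (by norm_num) (by positivity)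
  have hr1 : r ≤ 1 / 2 := min_le_left _ _
  have hr2 : M * (9 * r) * M ≤ ρ := by
    have h1 : r ≤ ρ / (9 * M ^ 2) := min_le_right _ _
    rw [le_div_iff₀ (by positivity)] at h1
    nlinarith
  obtain ⟨T, hTK, hT⟩ := exists_finite_cover hK hr0
  let f : Fin T.card → G := fun i => (T.equivFin.symm i : G)
  have hfK : ∀ i, f i ∈ K := fun i => hTK _ (T.equivFin.symm i).2
  let P : Fin T.card → Set G := fun i => {g | g * (f i)⁻¹ ∈ Bl r}
  have hPc : ∀ i, IsCompact (P i) := by
    intro i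
    have : P i = (fun b => b * f i) '' Bl r := by
      ext g
      constructor
      · intro hg
        exact ⟨g * (f i)⁻¹, hg, by simp⟩
      · rintro ⟨b, hb, rfl⟩
        change b * f i * (f i)⁻¹ ∈ Bl r
        rwa [mul_inv_cancel_right]
    rw [this]
    exact (isCompact_Bl r).image (continuous_mul_const (f i))
  let Sat : Fin T.card → Set G := fun i => {g | ∃ γ ∈ Γ, g * γ ∈ P i}
  have hSatm : ∀ i, MeasurableSet (Sat i) := by
    intro i
    have : Sat i = ⋃ γ : Γ, (fun g => g * (γ : G)) ⁻¹' (P i) := by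
      ext g
      simp only [Sat, mem_iUnion, mem_preimage, Subtype.exists, exists_prop]
      rfl
    rw [this]
    refine MeasurableSet.iUnion fun γ => ?_
    exact (continuous_mul_const (γ : G)).measurable (hPc i).isClosed.measurableSet
  have hSatinv : ∀ i (g γ : G), γ ∈ Γ → (g * γ ∈ Sat i ↔ g ∈ Sat i) := by
    intro i g γ hγ
    constructor
    · rintro ⟨γ', h1, h2⟩
      exact ⟨γ * γ', Γ.mul_mem hγ h1, by rwa [← mul_assoc]⟩
    · rintro ⟨γ', h1, h2⟩
      exact ⟨γ⁻¹ * γ', Γ.mul_mem (Γ.inv_mem hγ) h1, by rwa [mul_assoc, mul_inv_cancel_left]⟩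
  have hcov : ∀ g : G, ∃ i, g ∈ Sat i := by
    intro g
    obtain ⟨γ, hγ, hgK⟩ := hKG g
    obtain ⟨t, ht, htb⟩ := hT _ hgK
    refine ⟨T.equivFin ⟨t, ht⟩, γ, hγ, ?_⟩
    change g * γ * (f _)⁻¹ ∈ Bl r
    have : f (T.equivFin ⟨t, ht⟩) = t := by simp [f]
    rw [this]
    exact htb
  -- points of one piece are inequivalent
  have hone : ∀ i (g γ : G), γ ∈ Γ → g ∈ P i → g * γ ∈ P i → γ = 1 := by
    intro i g γ hγ h1 h2
    apply hdisc γ hγ
    have h3 := ORB_small hr0 hr1 h1 h2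
    have h4 : (g * (f i)⁻¹)⁻¹ * (g * γ * (f i)⁻¹) = f i * γ * (f i)⁻¹ := by group
    rw [h4] at h3
    have h5 : γ = (f i)⁻¹ * (f i * γ * (f i)⁻¹) * ((f i)⁻¹)⁻¹ := by group
    rw [h5]
    refine (nd_conj_le _ _).trans (le_trans ?_ hr2)
    rw [inv_inv]
    have h6 := (hM _ (hfK i)).1
    have h7 := (hM _ (hfK i)).2
    have h8 := nd_nonneg (f i * γ * (f i)⁻¹)
    have hM0 : 0 ≤ M := by linarith
    exact mul_le_mul (mul_le_mul h7 h3 h8 hM0) h6 (nrm_nonneg _) (by positivity)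
  let F : Set G := ⋃ i, (P i \ ⋃ i' : Fin T.card, ⋃ (_ : i' < i), Sat i')
  have hmemF : ∀ g, g ∈ F ↔ ∃ i, g ∈ P i ∧ ∀ i' < i, g ∉ Sat i' := by
    intro g
    simp [F]
  refine ⟨F, ⋃ i, P i, ?_, isCompact_iUnion hPc, ?_, ?_⟩
  · refine MeasurableSet.iUnion fun i => (hPc i).isClosed.measurableSet.diff ?_
    exact MeasurableSet.iUnion fun i' => MeasurableSet.iUnion fun _ => hSatm i'
  · exact iUnion_mono fun i => sdiff_subset
  · intro g
    have hex := hcov g
    -- the least index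
    obtain ⟨i, hi, himin⟩ : ∃ i, g ∈ Sat i ∧ ∀ i' < i, g ∉ Sat i' := by
      obtain ⟨i, hi⟩ := WellFounded.has_min (wellFounded_lt (α := Fin T.card))
        {i | g ∈ Sat i} hex
      exact ⟨i, hi.1, fun i' hi' h => hi.2 i' h hi'⟩
    obtain ⟨γ, hγ, hgγ⟩ := hi
    refine ⟨γ, hγ, (hmemF _).2 ⟨i, hgγ, fun i' hi' => ?_⟩, ?_⟩
    · rw [hSatinv i' g γ hγ]
      exact himin i' hi'
    · intro γ' hγ' hF
      obtain ⟨j, hj1, hj2⟩ := (hmemF _).1 hF
      have hgj : g ∈ Sat j := ⟨γ', hγ', hj1⟩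
      have hij : i ≤ j := not_lt.1 fun h => himin j h hgj
      have hji : j ≤ i := by
        refine not_lt.1 fun h => ?_
        have := hj2 i h
        rw [hSatinv i g γ' hγ'] at this
        exact this ⟨γ, hγ, hgγ⟩
      have hijeq : i = j := le_antisymm hij hji
      subst hijeq
      have h1 : g * γ * (γ⁻¹ * γ') ∈ P i := by
        rw [mul_assoc, mul_inv_cancel_left]
        exact hj1
      have h2 := hone i (g * γ) (γ⁻¹ * γ') (Γ.mul_mem (Γ.inv_mem hγ) hγ') hgγ h1
      rw [inv_mul_eq_one] at h2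
      exact h2.symm

end ORB

/-- ORB -/
theorem orbit_measure {X : Type} [TopologicalSpace X] [T2Space X] [MeasurableSpace X]
    [BorelSpace X] [MulAction G X] [ContinuousSMul G X] (x : X) (hCO : CO x) (ρ : ℝ) (hρ : 0 < ρ)
    (hdisc : ∀ k : G, k • x = x → nd k ≤ ρ → k = 1) :
    ∃ (lam : Measure X) (K1 : Set G), IsCompact K1 ∧ IsFiniteMeasure lam ∧ lam univ ≠ 0 ∧
      (∀ g : G, Measure.map (fun y => g • y) lam = lam) ∧
      ∀ E : Set X, MeasurableSet E → lam E ≤ hG {k | k ∈ K1 ∧ k • x ∈ E} := by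
  classical
  obtain ⟨K, hK, hKG⟩ := hCO
  let Γ : Subgroup G := MulAction.stabilizer G x
  have hmemΓ : ∀ g, g ∈ Γ ↔ g • x = x := fun g => MulAction.mem_stabilizer_iff
  have hdisc' : ∀ k ∈ Γ, nd k ≤ ρ → k = 1 := fun k hk => hdisc k ((hmemΓ k).1 hk)
  have hcΓ := ORB_countable Γ ρ hρ hdisc'
  obtain ⟨F, K1, hFm, hK1, hFK, hF⟩ := ORB_fund Γ K hK (by
    intro g
    obtain ⟨k, hk, hgk⟩ := hKG g
    refine ⟨g⁻¹ * k, (hmemΓ _).2 ?_, by rwa [mul_inv_cancel_left]⟩
    rw [mul_smul, ← hgk, inv_smul_smul]) ρ hρ hdisc'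
  have hcont : Continuous (fun h : G => h • x) := continuous_id.smul continuous_const
  have hmeas : Measurable (fun h : G => h • x) := hcont.measurable
  have hdom : ∀ g : G, IsFundamentalDomain Γ.op ((fun h => g * h) ⁻¹' F) hG := by
    intro g
    refine IsFundamentalDomain.mk' ?_ ?_
    · exact ((continuous_const_mul g).measurable hFm).nullMeasurableSet
    · intro h
      obtain ⟨γ, hγ, h1, h2⟩ := hF (g * h)
      refine ⟨⟨MulOpposite.op γ, hγ⟩, ?_, ?_⟩
      · change g * (h * γ) ∈ F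
        rwa [← mul_assoc]
      · rintro ⟨γ', hγ'⟩ h3
        have h4 : g * (h * MulOpposite.unop γ') ∈ F := h3
        rw [← mul_assoc] at h4
        have h5 := h2 (MulOpposite.unop γ') hγ' h4
        apply Subtype.ext
        change γ' = MulOpposite.op γ
        rw [← h5, MulOpposite.op_unop]
  have hdom1 : IsFundamentalDomain Γ.op F hG := by
    have := hdom 1
    simpa using this
  have hΓop : Countable Γ.op := (Γ.equivOp).symm.countable_iff.2 hcΓ
  have hlam : ∀ E, MeasurableSet E → Measure.map (fun h : G => h • x) (hG.restrict F) E =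
      hG ((fun h : G => h • x) ⁻¹' E ∩ F) := by
    intro E hE
    rw [Measure.map_apply hmeas hE, Measure.restrict_apply (hmeas hE)]
  refine ⟨Measure.map (fun h : G => h • x) (hG.restrict F), K1, hK1, ?_, ?_, ?_, ?_⟩
  · have : IsFiniteMeasure (hG.restrict F) := by
      refine ⟨?_⟩
      rw [Measure.restrict_apply_univ]
      exact (measure_mono hFK).trans_lt hK1.measure_lt_top
    exact Measure.isFiniteMeasure_map _ _
  · rw [hlam univ MeasurableSet.univ, preimage_univ, univ_inter]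
    exact hdom1.measure_ne_zero (NeZero.ne _)
  · intro g
    have hgm : Measurable (fun y : X => g • y) := (continuous_const_smul g).measurable
    ext E hE
    rw [Measure.map_apply hgm hE, hlam _ (hgm hE), hlam _ hE]
    have h1 : hG ((fun h : G => h • x) ⁻¹' E ∩ F) =
        hG ((fun h : G => h • x) ⁻¹' E ∩ ((fun h => g⁻¹ * h) ⁻¹' F)) := by
      refine hdom1.measure_set_eq (hdom g⁻¹) (hmeas hE) ?_
      rintro ⟨γ, hγ⟩
      ext h
      change (h * MulOpposite.unop γ) • x ∈ E ↔ h • x ∈ E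
      have h2 : MulOpposite.unop γ • x = x := (hmemΓ _).1 hγ
      rw [mul_smul, h2]
    rw [h1]
    have h3 : (fun h : G => h • x) ⁻¹' ((fun y => g • y) ⁻¹' E) ∩ F =
        (fun h => g * h) ⁻¹' ((fun h : G => h • x) ⁻¹' E ∩ ((fun h => g⁻¹ * h) ⁻¹' F)) := by
      ext h
      simp only [mem_inter_iff, mem_preimage, mul_smul, inv_mul_cancel_left]
    rw [h3, measure_preimage_mul]
  · intro E hE
    rw [hlam E hE]
    refine measure_mono ?_
    rintro h ⟨h1, h2⟩
    exact ⟨hFK h2, h1⟩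

end Pool.Agent.H88.LF
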