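import Pool.Agent.H88.LF.FBC

/-!
# RATEA (blueprint section 6)
-/

set_option autoImplicit false

open MeasureTheory Set Filter
open scoped Topology ENNReal

namespace Pool.Agent.H88.LF

variable {X : Type} [MetricSpace X] [CompactSpace X] [MulAction G X] [ContinuousSMul G X]

/-- `C0` bounds the exponential growth of `J` along the diagonal group, uniformly for group elements near `1`. -/
def TN.Growth {S : FB X} (T : TN S) (C0 : ℝ) : Prop :=
  1 ≤ C0 ∧ ∀ (v : ℝ × ℝ) (g : G) (x : X), g ∈ Bl 1 →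
    Real.exp (-(C0 * (‖v‖ + 1))) ≤ T.J (D v * g) x ∧ T.J (D v * g) x ≤ Real.exp (C0 * (‖v‖ + 1))

theorem TN.exists_growth {S : FB X} (T : TN S) : ∃ C0 : ℝ, T.Growth C0 := by
  obtain ⟨C1, hC1, h1⟩ := T.J_D_bound
  obtain ⟨C2, hC2, h2⟩ := T.J_bound (isCompact_Bl 1)
  have hlog : 0 ≤ Real.log C2 := Real.log_nonneg hC2
  have hpos : (0 : ℝ) < C2 := by linarith
  refine ⟨C1 + Real.log C2, by linarith, fun v g x hg => ?_⟩
  obtain ⟨a1, a2⟩ := h1 v (g • x)
  obtain ⟨b1, b2⟩ := h2 g hg x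
  have hv := norm_nonneg v
  have he : Real.exp (Real.log C2) = C2 := Real.exp_log hpos
  rw [T.J_mul]
  have hle : C1 * (‖v‖ + 1) + Real.log C2 ≤ (C1 + Real.log C2) * (‖v‖ + 1) := by
    nlinarith
  constructor
  · calc Real.exp (-((C1 + Real.log C2) * (‖v‖ + 1)))
        ≤ Real.exp (-(C1 * (‖v‖ + 1)) + -Real.log C2) := Real.exp_le_exp.2 (by linarith)
      _ = Real.exp (-(C1 * (‖v‖ + 1))) * C2⁻¹ := by rw [Real.exp_add, Real.exp_neg (Real.log C2), he]
      _ ≤ _ := mul_le_mul a1 b1 (inv_pos.2 hpos).le (T.J_pos _ _).le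
  · calc T.J (D v) (g • x) * T.J g x
        ≤ Real.exp (C1 * (‖v‖ + 1)) * C2 := mul_le_mul a2 b2 (T.J_pos _ _).le (Real.exp_pos _).le
      _ = Real.exp (C1 * (‖v‖ + 1) + Real.log C2) := by rw [Real.exp_add, he]
      _ ≤ _ := Real.exp_le_exp.2 hle

end Pool.Agent.H88.LF
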