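import Mathlib

/-!
# RLEM: the elementary lemma of blueprint section 6

`κ = 1/4`.  `E_j = {g : b_j e^{κj} = max_{i ≤ j} b_i e^{κi}}`.  On `E_j` let `M = b_j e^{κj}`: `b_i ≤ M e^{-κi}` for `i ≤ j`, so `∑_{i≤j} b_i ≤ 5M`; `M ≥ b_0 ≥ e^{-C0}`,
`M ≤ e^{(C0+κ)(j+1)}`.  Levels `e^k ≤ M e^{C0} < e^{k+1}`, `k ∈ ℕ`: take `r = c3 e^{-(k+1)}`, `c3 = min (c2/5) r0`; Markov gives `ν(level) ≤ A e^{-j/8}`, and there are at most
`(2C0+2)(j+1)` levels.  For every `n` and `g` let `j ≤ n` be an index where `b_i e^{κi}`, `i ≤ n`, is maximal: `g ∈ E_j` and `b_n ≤ e^{-κn} e^{(C0+κ)(j+1)}`.  With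
`s = 1/(16(C0+1))`: `∫ b_n^s ≤ ∑_{j≤n} ν(E_j) e^{-sκn} e^{s(C0+κ)(j+1)} ≤ C e^{-sκn}`.
-/

set_option autoImplicit false

open MeasureTheory Set Filter
open scoped Topology ENNReal

namespace Pool.Agent.H88.LF

/-- the set where the weighted term of index `j` is the largest of the first ones -/
def rlemE {B : Type} (b : ℕ → B → ℝ) (j : ℕ) : Set B :=
  {g | ∀ i ∈ Finset.range (j + 1), b i g * Real.exp ((i:ℝ) / 4) ≤ b j g * Real.exp ((j:ℝ) / 4)}

theorem rlem_measE {B : Type} [MeasurableSpace B] (b : ℕ → B → ℝ) (hb : ∀ n, Measurable (b n))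
    (j : ℕ) : MeasurableSet (rlemE b j) := by
  have : rlemE b j = ⋂ i ∈ Finset.range (j + 1),
      {g | b i g * Real.exp ((i:ℝ) / 4) ≤ b j g * Real.exp ((j:ℝ) / 4)} := by
    ext g; simp [rlemE]
  rw [this]
  refine Finset.measurableSet_biInter _ (fun i _ => ?_)
  exact measurableSet_le ((hb i).mul_const _) ((hb j).mul_const _)

theorem rlem_exp_sum (j : ℕ) : ∑ i ∈ Finset.range (j + 1), Real.exp (-((i:ℝ) / 4)) ≤ 5 := by
  have h1 : ∀ i : ℕ, Real.exp (-((i:ℝ) / 4)) = (Real.exp (-(1/4 : ℝ))) ^ i := by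
    intro i
    rw [← Real.exp_nat_mul]; congr 1; ring
  have hq : Real.exp (-(1/4 : ℝ)) ≤ 4/5 := by
    rw [Real.exp_neg]
    have : (5/4 : ℝ) ≤ Real.exp (1/4) := by
      have := Real.add_one_le_exp (1/4 : ℝ); linarith
    rw [inv_le_comm₀ (by positivity) (by norm_num)]
    norm_num; linarith
  have hq0 : 0 < Real.exp (-(1/4 : ℝ)) := Real.exp_pos _
  have hle : ∑ i ∈ Finset.range (j + 1), Real.exp (-((i:ℝ) / 4)) ≤
      ∑ i ∈ Finset.range (j + 1), (4/5 : ℝ) ^ i := by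
    apply Finset.sum_le_sum
    intro i _
    rw [h1 i]
    exact pow_le_pow_left₀ hq0.le hq i
  refine hle.trans ?_
  rw [geom_sum_eq (by norm_num)]
  have : (0:ℝ) ≤ (4/5) ^ (j + 1) := by positivity
  have e : ((4/5 : ℝ) ^ (j + 1) - 1) / (4/5 - 1) = 5 * (1 - (4/5) ^ (j + 1)) := by
    field_simp; ring
  rw [e]; linarith

/-- the measure of one level -/
theorem rlem_level {B : Type} [MeasurableSpace B] (ν : Measure B)
    (C0 c2 C1 r0 : ℝ) (hc2 : 0 < c2) (hC1 : 0 < C1) (hr0 : 0 < r0)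
    (b : ℕ → B → ℝ) (hb : ∀ n, Measurable (b n)) (hC0 : 0 ≤ C0)
    (hbd : ∀ (n : ℕ) (g : B), Real.exp (-(C0 * ((n:ℝ) + 1))) ≤ b n g ∧
      b n g ≤ Real.exp (C0 * ((n:ℝ) + 1)))
    (H : ∀ (n : ℕ) (r : ℝ), 0 < r → r ≤ r0 →
        ∫⁻ g in {g | r * ∑ j ∈ Finset.range (n + 1), b j g ≤ c2},
          ENNReal.ofReal (Real.sqrt (b n g)) ∂ν ≤
        ENNReal.ofReal (C1 * Real.exp (-(n:ℝ) / 4) / Real.sqrt r)) (j k : ℕ) :
    ν {g | g ∈ rlemE b j ∧ Real.exp (k:ℝ) ≤ b j g * Real.exp ((j:ℝ) / 4 + C0) ∧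
        b j g * Real.exp ((j:ℝ) / 4 + C0) ≤ Real.exp ((k:ℝ) + 1)} ≤
      ENNReal.ofReal (C1 / Real.sqrt (min (c2 / 5) r0) * Real.exp ((1 + C0) / 2) *
        Real.exp (-(j:ℝ) / 8)) := by
  set c3 : ℝ := min (c2 / 5) r0 with hc3
  have hc3p : 0 < c3 := lt_min (by positivity) hr0
  set L : Set B := {g | g ∈ rlemE b j ∧ Real.exp (k:ℝ) ≤ b j g * Real.exp ((j:ℝ) / 4 + C0) ∧
        b j g * Real.exp ((j:ℝ) / 4 + C0) ≤ Real.exp ((k:ℝ) + 1)} with hL
  have hLm : MeasurableSet L := by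
    refine (rlem_measE b hb j).inter ?_
    refine MeasurableSet.inter ?_ ?_
    · exact measurableSet_le measurable_const ((hb j).mul_const _)
    · exact measurableSet_le ((hb j).mul_const _) measurable_const
  set r : ℝ := c3 * Real.exp (-((k:ℝ) + 1)) with hr
  have hrp : 0 < r := by positivity
  have hrr : r ≤ r0 := by
    have h1 : Real.exp (-((k:ℝ) + 1)) ≤ 1 := by
      rw [Real.exp_le_one_iff]; have : (0:ℝ) ≤ k := by positivity
      linarith
    calc r ≤ c3 * 1 := by rw [hr]; exact mul_le_mul_of_nonneg_left h1 hc3p.le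
      _ ≤ r0 := by rw [mul_one]; exact min_le_right _ _
  have hsub : L ⊆ {g | r * ∑ j ∈ Finset.range (j + 1), b j g ≤ c2} := by
    intro g hg
    obtain ⟨hE, -, h2⟩ := hg
    have hM : ∑ i ∈ Finset.range (j + 1), b i g ≤ b j g * Real.exp ((j:ℝ) / 4) * 5 := by
      have hMp : 0 ≤ b j g * Real.exp ((j:ℝ) / 4) := by
        have := (hbd j g).1
        have h3 : 0 < b j g := lt_of_lt_of_le (Real.exp_pos _) this
        positivity
      calc ∑ i ∈ Finset.range (j + 1), b i g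
          ≤ ∑ i ∈ Finset.range (j + 1), b j g * Real.exp ((j:ℝ) / 4) * Real.exp (-((i:ℝ) / 4)) := by
            apply Finset.sum_le_sum
            intro i hi
            have h := hE i hi
            have h4 : b i g = b i g * Real.exp ((i:ℝ) / 4) * Real.exp (-((i:ℝ) / 4)) := by
              rw [mul_assoc, ← Real.exp_add]; simp
            rw [h4]
            exact mul_le_mul_of_nonneg_right h (Real.exp_pos _).le
        _ = b j g * Real.exp ((j:ℝ) / 4) * ∑ i ∈ Finset.range (j + 1), Real.exp (-((i:ℝ) / 4)) := by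
            rw [Finset.mul_sum]
        _ ≤ _ := mul_le_mul_of_nonneg_left (rlem_exp_sum j) hMp
    have h5 : b j g * Real.exp ((j:ℝ) / 4) ≤ Real.exp ((k:ℝ) + 1) := by
      refine le_trans ?_ h2
      apply mul_le_mul_of_nonneg_left _ (le_trans (Real.exp_pos _).le (hbd j g).1)
      apply Real.exp_le_exp.mpr; linarith
    show r * ∑ i ∈ Finset.range (j + 1), b i g ≤ c2
    calc r * ∑ i ∈ Finset.range (j + 1), b i g ≤ r * (Real.exp ((k:ℝ) + 1) * 5) := by
          apply mul_le_mul_of_nonneg_left _ hrp.le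
          exact hM.trans (mul_le_mul_of_nonneg_right h5 (by norm_num))
      _ = 5 * c3 := by
          rw [hr, show c3 * Real.exp (-((k:ℝ) + 1)) * (Real.exp ((k:ℝ) + 1) * 5) =
            5 * c3 * (Real.exp (-((k:ℝ) + 1)) * Real.exp ((k:ℝ) + 1)) by ring, ← Real.exp_add]
          simp
      _ ≤ c2 := by
          have := min_le_left (c2 / 5) r0
          rw [← hc3] at this; linarith
  set v : ℝ := Real.exp (((k:ℝ) - C0 - (j:ℝ) / 4) / 2) with hv
  have hvp : 0 < v := Real.exp_pos _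
  have hlow : ∀ g ∈ L, ENNReal.ofReal v ≤ ENNReal.ofReal (Real.sqrt (b j g)) := by
    intro g hg
    obtain ⟨-, h1, -⟩ := hg
    apply ENNReal.ofReal_le_ofReal
    rw [hv]
    apply Real.le_sqrt_of_sq_le
    rw [← Real.exp_nat_mul]
    have h2 : Real.exp (k:ℝ) * Real.exp (-((j:ℝ) / 4 + C0)) ≤ b j g := by
      calc Real.exp (k:ℝ) * Real.exp (-((j:ℝ) / 4 + C0))
          ≤ b j g * Real.exp ((j:ℝ) / 4 + C0) * Real.exp (-((j:ℝ) / 4 + C0)) :=
            mul_le_mul_of_nonneg_right h1 (Real.exp_pos _).le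
        _ = b j g := by rw [mul_assoc, ← Real.exp_add]; simp
    refine le_trans (le_of_eq ?_) h2
    rw [← Real.exp_add]; congr 1; push_cast; ring
  have hmk : ENNReal.ofReal v * ν L ≤
      ENNReal.ofReal (C1 * Real.exp (-(j:ℝ) / 4) / Real.sqrt r) := by
    calc ENNReal.ofReal v * ν L = ∫⁻ _ in L, ENNReal.ofReal v ∂ν := by
          rw [setLIntegral_const]
      _ ≤ ∫⁻ g in L, ENNReal.ofReal (Real.sqrt (b j g)) ∂ν :=
          setLIntegral_mono' hLm hlow
      _ ≤ ∫⁻ g in {g | r * ∑ j ∈ Finset.range (j + 1), b j g ≤ c2},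
            ENNReal.ofReal (Real.sqrt (b j g)) ∂ν := lintegral_mono_set hsub
      _ ≤ _ := H j r hrp hrr
  have hdiv : ν L ≤ ENNReal.ofReal (C1 * Real.exp (-(j:ℝ) / 4) / Real.sqrt r / v) := by
    rw [ENNReal.ofReal_div_of_pos hvp]
    rw [ENNReal.le_div_iff_mul_le (Or.inl (by simpa using hvp)) (Or.inl ENNReal.ofReal_ne_top)]
    rw [mul_comm]; exact hmk
  refine hdiv.trans (le_of_eq ?_)
  congr 1
  have hsr : Real.sqrt r = Real.sqrt c3 * Real.exp (-((k:ℝ) + 1) / 2) := by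
    rw [hr, Real.sqrt_mul hc3p.le]
    congr 1
    rw [Real.exp_half]
  rw [hsr]
  have hsc : 0 < Real.sqrt c3 := Real.sqrt_pos.mpr hc3p
  rw [hv, div_div, div_eq_iff (by positivity)]
  rw [show C1 / Real.sqrt c3 * Real.exp ((1 + C0) / 2) * Real.exp (-(j:ℝ) / 8) *
      (Real.sqrt c3 * Real.exp (-((k:ℝ) + 1) / 2) * Real.exp (((k:ℝ) - C0 - (j:ℝ) / 4) / 2)) =
      (C1 / Real.sqrt c3 * Real.sqrt c3) * ((Real.exp ((1 + C0) / 2) * Real.exp (-(j:ℝ) / 8)) *
      (Real.exp (-((k:ℝ) + 1) / 2) * Real.exp (((k:ℝ) - C0 - (j:ℝ) / 4) / 2))) by ring]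
  rw [div_mul_cancel₀ _ hsc.ne', ← Real.exp_add, ← Real.exp_add, ← Real.exp_add]
  congr 2; ring

/-- the measure of `E_j` -/
theorem rlem_E {B : Type} [MeasurableSpace B] (ν : Measure B)
    (C0 c2 C1 r0 : ℝ) (hc2 : 0 < c2) (hC1 : 0 < C1) (hr0 : 0 < r0)
    (b : ℕ → B → ℝ) (hb : ∀ n, Measurable (b n)) (hC0 : 0 ≤ C0)
    (hbd : ∀ (n : ℕ) (g : B), Real.exp (-(C0 * ((n:ℝ) + 1))) ≤ b n g ∧
      b n g ≤ Real.exp (C0 * ((n:ℝ) + 1)))
    (H : ∀ (n : ℕ) (r : ℝ), 0 < r → r ≤ r0 →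
        ∫⁻ g in {g | r * ∑ j ∈ Finset.range (n + 1), b j g ≤ c2},
          ENNReal.ofReal (Real.sqrt (b n g)) ∂ν ≤
        ENNReal.ofReal (C1 * Real.exp (-(n:ℝ) / 4) / Real.sqrt r)) (j : ℕ) :
    ν (rlemE b j) ≤
      ENNReal.ofReal ((2 * C0 + 2) * ((j:ℝ) + 1) *
        (C1 / Real.sqrt (min (c2 / 5) r0) * Real.exp ((1 + C0) / 2) *
        Real.exp (-(j:ℝ) / 8))) := by
  set A : ℝ := C1 / Real.sqrt (min (c2 / 5) r0) * Real.exp ((1 + C0) / 2) *
        Real.exp (-(j:ℝ) / 8) with hA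
  have hAp : 0 ≤ A := by rw [hA]; positivity
  set N : ℕ := ⌊(2 * C0 + 1) * ((j:ℝ) + 1)⌋₊ + 1 with hN
  have hcov : rlemE b j ⊆ ⋃ k ∈ Finset.range N,
      {g | g ∈ rlemE b j ∧ Real.exp (k:ℝ) ≤ b j g * Real.exp ((j:ℝ) / 4 + C0) ∧
        b j g * Real.exp ((j:ℝ) / 4 + C0) ≤ Real.exp ((k:ℝ) + 1)} := by
    intro g hg
    have hbp : 0 < b j g := lt_of_lt_of_le (Real.exp_pos _) (hbd j g).1
    set X : ℝ := b j g * Real.exp ((j:ℝ) / 4 + C0) with hX
    have hXp : 0 < X := by positivity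
    have hX1 : 1 ≤ X := by
      have h0 := hg 0 (by simp)
      have h1 := (hbd 0 g).1
      simp only [Nat.cast_zero, zero_div, Real.exp_zero, mul_one, zero_add] at h0 h1
      have h2 : Real.exp (-C0) * Real.exp C0 ≤ b j g * Real.exp ((j:ℝ) / 4) * Real.exp C0 :=
        mul_le_mul_of_nonneg_right (h1.trans h0) (Real.exp_pos _).le
      rw [← Real.exp_add] at h2
      simp only [neg_add_cancel, Real.exp_zero] at h2
      rw [hX, Real.exp_add, ← mul_assoc]; exact h2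
    have hlog : 0 ≤ Real.log X := Real.log_nonneg hX1
    have hXu : Real.log X ≤ (2 * C0 + 1) * ((j:ℝ) + 1) := by
      rw [Real.log_le_iff_le_exp hXp]
      have h1 := (hbd j g).2
      calc X ≤ Real.exp (C0 * ((j:ℝ) + 1)) * Real.exp ((j:ℝ) / 4 + C0) :=
            mul_le_mul_of_nonneg_right h1 (Real.exp_pos _).le
        _ = Real.exp (C0 * ((j:ℝ) + 1) + ((j:ℝ) / 4 + C0)) := by
            rw [Real.exp_add (C0 * ((j:ℝ) + 1))]
        _ ≤ _ := by
            apply Real.exp_le_exp.mpr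
            have hj : (0:ℝ) ≤ j := by positivity
            nlinarith [mul_nonneg hC0 hj]
    simp only [mem_iUnion, Finset.mem_range]
    refine ⟨⌊Real.log X⌋₊, ?_, hg, ?_, ?_⟩
    · have := Nat.floor_le_floor hXu
      omega
    · rw [← Real.le_log_iff_exp_le hXp]
      exact Nat.floor_le hlog
    · rw [← Real.log_le_iff_le_exp hXp]
      exact (Nat.lt_floor_add_one _).le
  calc ν (rlemE b j) ≤ ν (⋃ k ∈ Finset.range N,
      {g | g ∈ rlemE b j ∧ Real.exp (k:ℝ) ≤ b j g * Real.exp ((j:ℝ) / 4 + C0) ∧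
        b j g * Real.exp ((j:ℝ) / 4 + C0) ≤ Real.exp ((k:ℝ) + 1)}) := measure_mono hcov
    _ ≤ ∑ k ∈ Finset.range N, ν {g | g ∈ rlemE b j ∧
        Real.exp (k:ℝ) ≤ b j g * Real.exp ((j:ℝ) / 4 + C0) ∧
        b j g * Real.exp ((j:ℝ) / 4 + C0) ≤ Real.exp ((k:ℝ) + 1)} :=
        measure_biUnion_finset_le _ _
    _ ≤ ∑ _k ∈ Finset.range N, ENNReal.ofReal A := by
        apply Finset.sum_le_sum
        intro k _
        exact rlem_level ν C0 c2 C1 r0 hc2 hC1 hr0 b hb hC0 hbd H j k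
    _ = ENNReal.ofReal ((N:ℝ) * A) := by
        rw [Finset.sum_const, Finset.card_range, nsmul_eq_mul,
          ENNReal.ofReal_mul (p := (N:ℝ)) (by positivity), ENNReal.ofReal_natCast]
    _ ≤ _ := by
        apply ENNReal.ofReal_le_ofReal
        apply mul_le_mul_of_nonneg_right _ hAp
        have h1 : ((⌊(2 * C0 + 1) * ((j:ℝ) + 1)⌋₊ : ℕ) : ℝ) ≤ (2 * C0 + 1) * ((j:ℝ) + 1) :=
          Nat.floor_le (by positivity)
        have hj : (0:ℝ) ≤ j := by positivity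
        rw [hN]; push_cast; nlinarith

/-- RLEM -/
theorem rlem {B : Type} [MeasurableSpace B] (ν : Measure B) [IsFiniteMeasure ν]
    (C0 c2 C1 r0 : ℝ) (hC0 : 0 ≤ C0) (hc2 : 0 < c2) (hC1 : 0 < C1) (hr0 : 0 < r0) :
    ∃ C : ℝ, 0 < C ∧ ∀ b : ℕ → B → ℝ, (∀ n, Measurable (b n)) →
      (∀ (n : ℕ) (g : B), Real.exp (-(C0 * ((n:ℝ) + 1))) ≤ b n g ∧ b n g ≤ Real.exp (C0 * ((n:ℝ) + 1))) →
      (∀ (n : ℕ) (r : ℝ), 0 < r → r ≤ r0 →
        ∫⁻ g in {g | r * ∑ j ∈ Finset.range (n + 1), b j g ≤ c2},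
          ENNReal.ofReal (Real.sqrt (b n g)) ∂ν ≤
        ENNReal.ofReal (C1 * Real.exp (-(n:ℝ) / 4) / Real.sqrt r)) →
      ∀ n : ℕ, ∫⁻ g, ENNReal.ofReal (b n g ^ (1 / (16 * (C0 + 1)))) ∂ν ≤
        ENNReal.ofReal (C * Real.exp (-(n:ℝ) / (64 * (C0 + 1)))) := by
  set s : ℝ := 1 / (16 * (C0 + 1)) with hs
  have hsp : 0 < s := by rw [hs]; positivity
  set A : ℝ := C1 / Real.sqrt (min (c2 / 5) r0) * Real.exp ((1 + C0) / 2) with hA
  have hAp : 0 ≤ A := by rw [hA]; positivity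
  have hsum : Summable (fun j : ℕ => ((j:ℝ) + 1) * Real.exp (-(1/16 : ℝ) * j)) := by
    have h1 := Real.summable_pow_mul_exp_neg_nat_mul 1 (r := 1/16) (by norm_num)
    have h0 := Real.summable_pow_mul_exp_neg_nat_mul 0 (r := 1/16) (by norm_num)
    refine (h1.add h0).congr (fun j => ?_)
    simp only [pow_one, pow_zero, one_mul]
    ring
  set T : ℝ := ∑' j : ℕ, ((j:ℝ) + 1) * Real.exp (-(1/16 : ℝ) * j) with hT
  have hTp : 0 ≤ T := tsum_nonneg (fun j => by positivity)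
  refine ⟨(2 * C0 + 2) * A * Real.exp (1/16) * T + 1, by positivity, ?_⟩
  intro b hb hbd H n
  -- pointwise bound
  have hpt : ∀ g, ENNReal.ofReal (b n g ^ s) ≤
      ∑ j ∈ Finset.range (n + 1), (rlemE b j).indicator
        (fun _ => ENNReal.ofReal (Real.exp (-(s * n / 4)) * Real.exp (((j:ℝ) + 1) / 16))) g := by
    intro g
    obtain ⟨j, hj, hmax⟩ := Finset.exists_max_image (Finset.range (n + 1))
      (fun i => b i g * Real.exp ((i:ℝ) / 4)) ⟨0, by simp⟩
    have hjE : g ∈ rlemE b j := by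
      intro i hi
      apply hmax
      simp only [Finset.mem_range] at hi hj ⊢
      omega
    have hbp : 0 < b n g := lt_of_lt_of_le (Real.exp_pos _) (hbd n g).1
    have h1 : b n g ≤ Real.exp (-((n:ℝ) / 4)) * Real.exp ((C0 + 1) * ((j:ℝ) + 1)) := by
      have h2 := hmax n (by simp)
      have h3 := (hbd j g).2
      have h4 : b n g = b n g * Real.exp ((n:ℝ) / 4) * Real.exp (-((n:ℝ) / 4)) := by
        rw [mul_assoc, ← Real.exp_add]; simp
      rw [h4, mul_comm]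
      apply mul_le_mul_of_nonneg_left _ (Real.exp_pos _).le
      refine h2.trans ?_
      calc b j g * Real.exp ((j:ℝ) / 4) ≤ Real.exp (C0 * ((j:ℝ) + 1)) * Real.exp ((j:ℝ) / 4) :=
            mul_le_mul_of_nonneg_right h3 (Real.exp_pos _).le
        _ = Real.exp (C0 * ((j:ℝ) + 1) + (j:ℝ) / 4) := by rw [Real.exp_add]
        _ ≤ _ := by
            apply Real.exp_le_exp.mpr
            have hj0 : (0:ℝ) ≤ j := by positivity
            nlinarith
    have h5 : b n g ^ s ≤ Real.exp (-(s * n / 4)) * Real.exp (((j:ℝ) + 1) / 16) := by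
      calc b n g ^ s ≤ (Real.exp (-((n:ℝ) / 4)) * Real.exp ((C0 + 1) * ((j:ℝ) + 1))) ^ s :=
            Real.rpow_le_rpow hbp.le h1 hsp.le
        _ = Real.exp (-(s * n / 4)) * Real.exp (((j:ℝ) + 1) / 16) := by
            rw [← Real.exp_add, ← Real.exp_mul, ← Real.exp_add]
            congr 1
            rw [hs]
            have : C0 + 1 ≠ 0 := by positivity
            field_simp
    calc ENNReal.ofReal (b n g ^ s)
        ≤ ENNReal.ofReal (Real.exp (-(s * n / 4)) * Real.exp (((j:ℝ) + 1) / 16)) :=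
          ENNReal.ofReal_le_ofReal h5
      _ = (rlemE b j).indicator
        (fun _ => ENNReal.ofReal (Real.exp (-(s * n / 4)) * Real.exp (((j:ℝ) + 1) / 16))) g := by
          rw [indicator_of_mem hjE]
      _ ≤ _ := Finset.single_le_sum (f := fun j => (rlemE b j).indicator
        (fun _ => ENNReal.ofReal (Real.exp (-(s * n / 4)) * Real.exp (((j:ℝ) + 1) / 16))) g)
          (fun i _ => bot_le) hj
  calc ∫⁻ g, ENNReal.ofReal (b n g ^ s) ∂ν
      ≤ ∫⁻ g, ∑ j ∈ Finset.range (n + 1), (rlemE b j).indicator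
        (fun _ => ENNReal.ofReal (Real.exp (-(s * n / 4)) * Real.exp (((j:ℝ) + 1) / 16))) g ∂ν :=
        lintegral_mono hpt
    _ = ∑ j ∈ Finset.range (n + 1), ∫⁻ g, (rlemE b j).indicator
        (fun _ => ENNReal.ofReal (Real.exp (-(s * n / 4)) * Real.exp (((j:ℝ) + 1) / 16))) g ∂ν := by
        rw [lintegral_finsetSum]
        intro j _
        exact measurable_const.indicator (rlem_measE b hb j)
    _ = ∑ j ∈ Finset.range (n + 1),
        ENNReal.ofReal (Real.exp (-(s * n / 4)) * Real.exp (((j:ℝ) + 1) / 16)) * ν (rlemE b j) := by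
        apply Finset.sum_congr rfl
        intro j _
        rw [lintegral_indicator_const (rlem_measE b hb j)]
    _ ≤ ∑ j ∈ Finset.range (n + 1),
        ENNReal.ofReal ((Real.exp (-(s * n / 4)) * Real.exp (((j:ℝ) + 1) / 16)) *
          ((2 * C0 + 2) * ((j:ℝ) + 1) * (A * Real.exp (-(j:ℝ) / 8)))) := by
        apply Finset.sum_le_sum
        intro j _
        rw [ENNReal.ofReal_mul (p := Real.exp (-(s * n / 4)) * Real.exp (((j:ℝ) + 1) / 16))
          (by positivity)]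
        gcongr
        exact rlem_E ν C0 c2 C1 r0 hc2 hC1 hr0 b hb hC0 hbd H j
    _ = ENNReal.ofReal (∑ j ∈ Finset.range (n + 1),
        ((Real.exp (-(s * n / 4)) * Real.exp (((j:ℝ) + 1) / 16)) *
          ((2 * C0 + 2) * ((j:ℝ) + 1) * (A * Real.exp (-(j:ℝ) / 8))))) := by
        rw [ENNReal.ofReal_sum_of_nonneg]
        intro j _; positivity
    _ ≤ _ := by
        apply ENNReal.ofReal_le_ofReal
        have e1 : ∀ j : ℕ, (Real.exp (-(s * n / 4)) * Real.exp (((j:ℝ) + 1) / 16)) *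
          ((2 * C0 + 2) * ((j:ℝ) + 1) * (A * Real.exp (-(j:ℝ) / 8))) =
          ((2 * C0 + 2) * A * Real.exp (1/16) * Real.exp (-(s * n / 4))) *
            (((j:ℝ) + 1) * Real.exp (-(1/16 : ℝ) * j)) := by
          intro j
          have : Real.exp (((j:ℝ) + 1) / 16) * Real.exp (-(j:ℝ) / 8) =
              Real.exp (1/16) * Real.exp (-(1/16 : ℝ) * j) := by
            rw [← Real.exp_add, ← Real.exp_add]; congr 1; ring
          calc _ = ((2 * C0 + 2) * A * Real.exp (-(s * n / 4))) * ((j:ℝ) + 1) *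
                (Real.exp (((j:ℝ) + 1) / 16) * Real.exp (-(j:ℝ) / 8)) := by ring
            _ = _ := by rw [this]; ring
        rw [Finset.sum_congr rfl (fun j _ => e1 j), ← Finset.mul_sum]
        have h6 : ∑ j ∈ Finset.range (n + 1), ((j:ℝ) + 1) * Real.exp (-(1/16 : ℝ) * j) ≤ T :=
          hsum.sum_le_tsum _ (fun j _ => by positivity)
        have h7 : Real.exp (-(s * n / 4)) = Real.exp (-(n:ℝ) / (64 * (C0 + 1))) := by
          congr 1; rw [hs]
          have : C0 + 1 ≠ 0 := by positivity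
          field_simp; ring
        rw [h7]
        calc (2 * C0 + 2) * A * Real.exp (1/16) * Real.exp (-(n:ℝ) / (64 * (C0 + 1))) *
              ∑ j ∈ Finset.range (n + 1), ((j:ℝ) + 1) * Real.exp (-(1/16 : ℝ) * j)
            ≤ (2 * C0 + 2) * A * Real.exp (1/16) * Real.exp (-(n:ℝ) / (64 * (C0 + 1))) * T :=
              mul_le_mul_of_nonneg_left h6 (by positivity)
          _ = ((2 * C0 + 2) * A * Real.exp (1/16) * T) * Real.exp (-(n:ℝ) / (64 * (C0 + 1))) := by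
              ring
          _ ≤ _ := by
              apply mul_le_mul_of_nonneg_right _ (Real.exp_pos _).le
              linarith

end Pool.Agent.H88.LF
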