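import Pool.Agent.H88.LF.KN
import Pool.Agent.H88.LF.FBB

/-!
# SHB: (P2) of blueprint section 5
-/

set_option autoImplicit false

open MeasureTheory Set Filter
open scoped Topology ENNReal

namespace Pool.Agent.H88.LF

variable {X : Type} [MetricSpace X] [CompactSpace X] [MulAction G X] [ContinuousSMul G X]

/-- (P2).  With `k_j = a^j (g g2⁻¹) a^{-j}`, `z_j = a^j g2 x0`: `dist (k_j z_j) z_j ≤ 2 ε1`; `nd k_0 ≤ ρ_u` if `g,g2` are near `1`;
if `nd k_j ≤ ρ_u` then by `ulf_close` `nd k_j ≤ ε`, and `nd k_{j+1} ≤ nrm(a) nrm(a⁻¹) ε ≤ ρ_u`. -/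
theorem sh_P2 (S : FB X) (θ : ℝ × ℝ) :
    ∃ ρ3 : ℝ, 0 < ρ3 ∧ ∃ r' : ℝ, 0 < r' ∧ ∃ ε1 : ℝ, 0 < ε1 ∧
      ∀ (x0 y : X) (n : ℕ) (g g2 g' : G), g ∈ Bl ρ3 → g2 ∈ Bl ρ3 →
        (∀ j, j ≤ n → dist (((D θ) ^ j * g) • x0) (((D θ) ^ j * g') • y) ≤ ε1) →
        (∀ j, j ≤ n → dist (((D θ) ^ j * g2) • x0) (((D θ) ^ j * g') • y) ≤ ε1) →
        g * g2⁻¹ ∈ Kn θ n r' := by
  obtain ⟨ρu, hρu, hulf⟩ := S.ulf
  set a : G := D θ with ha
  set c : ℝ := nrm a.1 * nrm (a⁻¹).1 with hc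
  have hc1 : 1 ≤ c := by
    have h1 := one_le_nrm a
    have h2 := one_le_nrm a⁻¹
    rw [hc]
    nlinarith
  have hc0 : 0 < c := lt_of_lt_of_le one_pos hc1
  obtain ⟨ε', hε', hclose⟩ := ulf_close ρu hulf (ρu / c) (div_pos hρu hc0)
  refine ⟨min (1 / 2) (ρu / 6), lt_min (by norm_num) (by positivity), ρu, hρu, ε' / 2,
    by positivity, ?_⟩
  intro x0 y n g g2 g' hg hg2 h1 h2
  have hgn : nd g ≤ min (1 / 2) (ρu / 6) := hg
  have hg2n : nd g2 ≤ min (1 / 2) (ρu / 6) := hg2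
  have hk0 : nd (g * g2⁻¹) ≤ ρu := by
    have e1 : nd g ≤ ρu / 6 := hgn.trans (min_le_right _ _)
    have e2 : nd g2 ≤ ρu / 6 := hg2n.trans (min_le_right _ _)
    have e3 : nd g2 ≤ 1 / 2 := hg2n.trans (min_le_left _ _)
    have e4 := nd_inv_le_of_small g2 e3
    have e5 := nrm_le_nd g2⁻¹
    have e6 : nrm (g2⁻¹).1 ≤ 4 := by linarith
    have e7 := nd_mul_le g g2⁻¹
    have e8 : nd g * nrm (g2⁻¹).1 ≤ nd g * 4 := mul_le_mul_of_nonneg_left e6 (nd_nonneg g)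
    linarith
  have key : ∀ j : ℕ, j ≤ n → nd (a ^ j * (g * g2⁻¹) * (a ^ j)⁻¹) ≤ ρu := by
    intro j
    induction j with
    | zero =>
      intro _
      simpa using hk0
    | succ j ih =>
      intro hj
      have hj' : j ≤ n := by omega
      have e1 := ih hj'
      set kj : G := a ^ j * (g * g2⁻¹) * (a ^ j)⁻¹ with hkj
      have e2 : kj • ((a ^ j * g2) • x0) = (a ^ j * g) • x0 := by
        rw [smul_smul, hkj]
        congr 1
        group
      have e3 : dist (kj • ((a ^ j * g2) • x0)) ((a ^ j * g2) • x0) ≤ ε' := by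
        rw [e2]
        have d1 := h1 j hj'
        have d2 := h2 j hj'
        have d3 := dist_triangle_right ((a ^ j * g) • x0) ((a ^ j * g2) • x0)
          ((a ^ j * g') • y)
        linarith
      have e4 := hclose _ kj e1 e3
      have e5 : a ^ (j + 1) * (g * g2⁻¹) * (a ^ (j + 1))⁻¹ = a * kj * a⁻¹ := by
        rw [hkj, pow_succ']
        group
      rw [e5]
      refine (nd_conj_le a kj).trans ?_
      have e6 : nrm a.1 * nd kj * nrm (a⁻¹).1 = c * nd kj := by rw [hc]; ring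
      rw [e6]
      calc c * nd kj ≤ c * (ρu / c) := mul_le_mul_of_nonneg_left e4 hc0.le
        _ = ρu := by field_simp
  exact key

end Pool.Agent.H88.LF
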