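import Pool.Agent.H88.LF.SHA
import Pool.Agent.H88.LF.SHB

/-!
# SH: double counting (blueprint section 5)
-/

set_option autoImplicit false

open MeasureTheory Set Filter
open scoped Topology ENNReal

namespace Pool.Agent.H88.LF

variable {X : Type} [MetricSpace X] [CompactSpace X] [MulAction G X] [ContinuousSMul G X]

omit [CompactSpace X] [ContinuousSMul G X] in
/-- SH: continuity of the cocycle in the group element -/
theorem SH_contJ {S : FB X} (T : TN S) (x : X) : Continuous (fun g : G => T.J g x) := by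
  have h := S.rep_spec x
  have h1 : |S.rt x| < 1 := by linarith [h.2.1]
  unfold TN.J
  refine Continuous.div_const ?_ _
  have hc := T.cont (S.ri x)
  have hm : Continuous (fun g : G => ((g * S.rh x, S.rt x) : G × ℝ)) := by fun_prop
  exact hc.comp_continuous hm (fun _ => h1)

omit [CompactSpace X] [ContinuousSMul G X] in
theorem SH_posJ {S : FB X} (T : TN S) (g : G) (x : X) : 0 < T.J g x := by
  have h := S.rep_spec x
  have h1 : |S.rt x| < 1 := by linarith [h.2.1]
  exact div_pos (T.pos _ _ _ h1) (T.pos _ _ _ h1)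

/-- SH: the double counting argument, abstractly -/
theorem SH_count (f F : G → ℝ) (hf : Continuous f) (hF : Continuous F) (hF0 : ∀ g, 0 ≤ F g)
    (A B K K' : Set G) (hA : MeasurableSet A) (hB : MeasurableSet B)
    (hK' : MeasurableSet K')
    (R : Set (G × G)) (hR : MeasurableSet R) (C2 : ℝ) (hC2 : 0 < C2)
    (h1 : ∀ g ∈ A, ∃ g0 : G, ∀ k ∈ K, k * g0 ∈ B ∧ (g, k * g0) ∈ R ∧ f g ≤ C2 * F (k * g0))
    (h2 : ∀ g g2 g' : G, g ∈ A → g2 ∈ A → g' ∈ B → (g, g') ∈ R → (g2, g') ∈ R →
      g * g2⁻¹ ∈ K')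
    (hK : MeasurableSet K) :
    hG K * ∫⁻ g in A, ENNReal.ofReal (Real.sqrt (f g)) ∂hG ≤
      hG K' * (ENNReal.ofReal (Real.sqrt C2) *
        ∫⁻ g in B, ENNReal.ofReal (Real.sqrt (F g)) ∂hG) := by
  set S : Set (G × G) := {p | p.1 ∈ A ∧ p.2 ∈ B ∧ p ∈ R ∧ f p.1 ≤ C2 * F p.2} with hS
  have hSm : MeasurableSet S := by
    have e1 : MeasurableSet {p : G × G | p.1 ∈ A} := measurable_fst hA
    have e2 : MeasurableSet {p : G × G | p.2 ∈ B} := measurable_snd hB
    have e3 : MeasurableSet {p : G × G | f p.1 ≤ C2 * F p.2} := by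
      refine measurableSet_le (hf.measurable.comp measurable_fst) ?_
      exact (hF.measurable.comp measurable_snd).const_mul C2
    exact e1.inter (e2.inter (hR.inter e3))
  have hsq : Measurable (fun g => ENNReal.ofReal (Real.sqrt (f g))) :=
    (hf.measurable.sqrt).ennreal_ofReal
  have hsqF : Measurable (fun g => ENNReal.ofReal (Real.sqrt (F g))) :=
    (hF.measurable.sqrt).ennreal_ofReal
  set h : G → G → ℝ≥0∞ := fun g g' =>
    S.indicator (fun p => ENNReal.ofReal (Real.sqrt (f p.1))) (g, g') with hh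
  have hhm : Measurable (Function.uncurry h) := by
    have : Measurable (S.indicator (fun p : G × G => ENNReal.ofReal (Real.sqrt (f p.1)))) :=
      (hsq.comp measurable_fst).indicator hSm
    exact this
  have hswap : ∫⁻ g, ∫⁻ g', h g g' ∂hG ∂hG = ∫⁻ g', ∫⁻ g, h g g' ∂hG ∂hG :=
    lintegral_lintegral_swap hhm.aemeasurable
  -- lower bound
  have hlow : hG K * ∫⁻ g in A, ENNReal.ofReal (Real.sqrt (f g)) ∂hG ≤
      ∫⁻ g, ∫⁻ g', h g g' ∂hG ∂hG := by
    rw [← lintegral_const_mul _ hsq, ← lintegral_indicator hA]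
    refine lintegral_mono fun g => ?_
    by_cases hg : g ∈ A
    · rw [indicator_of_mem hg]
      obtain ⟨g0, hg0⟩ := h1 g hg
      have hpre : MeasurableSet ((fun x : G => x * g0⁻¹) ⁻¹' K) :=
        (measurable_mul_const g0⁻¹) hK
      calc hG K * ENNReal.ofReal (Real.sqrt (f g))
          = ENNReal.ofReal (Real.sqrt (f g)) * hG ((fun x : G => x * g0⁻¹) ⁻¹' K) := by
            rw [measure_preimage_mul_right, mul_comm]
        _ = ∫⁻ g', ((fun x : G => x * g0⁻¹) ⁻¹' K).indicator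
              (fun _ => ENNReal.ofReal (Real.sqrt (f g))) g' ∂hG := by
            rw [lintegral_indicator hpre, lintegral_const, Measure.restrict_apply_univ]
        _ ≤ ∫⁻ g', h g g' ∂hG := by
            refine lintegral_mono fun g' => ?_
            by_cases hg' : g' ∈ (fun x : G => x * g0⁻¹) ⁻¹' K
            · rw [indicator_of_mem hg']
              have h3 := hg0 _ hg'
              simp only [inv_mul_cancel_right] at h3
              have hmem : ((g, g') : G × G) ∈ S := ⟨hg, h3.1, h3.2.1, h3.2.2⟩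
              rw [hh]
              simp only
              rw [indicator_of_mem hmem]
            · rw [indicator_of_notMem hg']
              exact zero_le
    · rw [indicator_of_notMem hg]
      exact zero_le
  -- upper bound
  have hup : ∫⁻ g', ∫⁻ g, h g g' ∂hG ∂hG ≤ hG K' * (ENNReal.ofReal (Real.sqrt C2) *
        ∫⁻ g in B, ENNReal.ofReal (Real.sqrt (F g)) ∂hG) := by
    rw [← lintegral_const_mul _ hsqF, ← lintegral_const_mul _ (hsqF.const_mul _),
      ← lintegral_indicator hB]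
    refine lintegral_mono fun g' => ?_
    by_cases hg' : g' ∈ B
    · rw [indicator_of_mem hg']
      by_cases hne : ∃ g2, ((g2, g') : G × G) ∈ S
      · obtain ⟨g2, hg2⟩ := hne
        have hpre : MeasurableSet ((fun x : G => x * g2⁻¹) ⁻¹' K') :=
          (measurable_mul_const g2⁻¹) hK'
        calc ∫⁻ g, h g g' ∂hG ≤ ∫⁻ g, ((fun x : G => x * g2⁻¹) ⁻¹' K').indicator
              (fun _ => ENNReal.ofReal (Real.sqrt (C2 * F g'))) g ∂hG := by
              refine lintegral_mono fun g => ?_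
              by_cases hm : ((g, g') : G × G) ∈ S
              · have hk : g ∈ (fun x : G => x * g2⁻¹) ⁻¹' K' :=
                  h2 g g2 g' hm.1 hg2.1 hg' hm.2.2.1 hg2.2.2.1
                rw [hh]
                simp only
                rw [indicator_of_mem hm, indicator_of_mem hk]
                exact ENNReal.ofReal_le_ofReal (Real.sqrt_le_sqrt hm.2.2.2)
              · rw [hh]
                simp only
                rw [indicator_of_notMem hm]
                exact zero_le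
          _ = hG K' * (ENNReal.ofReal (Real.sqrt C2) * ENNReal.ofReal (Real.sqrt (F g'))) := by
              rw [lintegral_indicator hpre, lintegral_const, Measure.restrict_apply_univ,
                measure_preimage_mul_right, Real.sqrt_mul hC2.le, mul_comm,
                ENNReal.ofReal_mul (Real.sqrt_nonneg _)]
      · push Not at hne
        have : ∫⁻ g, h g g' ∂hG = 0 := by
          rw [← lintegral_zero (α := G) (μ := hG)]
          refine lintegral_congr fun g => ?_
          rw [hh]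
          simp only
          rw [indicator_of_notMem (hne g)]
        rw [this]
        exact zero_le
    · rw [indicator_of_notMem hg']
      have : ∫⁻ g, h g g' ∂hG = 0 := by
        rw [← lintegral_zero (α := G) (μ := hG)]
        refine lintegral_congr fun g => ?_
        rw [hh]
        simp only
        rw [indicator_of_notMem]
        exact fun hm => hg' hm.2.1
      rw [this]
  exact hlow.trans (hswap.le.trans hup)

/-- SH: double counting of `{(g,g') : g ∈ Bl ρ' good, g' ∈ Bl ρ, dist ≤ ε1 for j ≤ n, J(a^n g,x0) ≤ C2 J(a^n g',y)}` (a closed condition in `(g,g')`):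
the slice over a good `g` contains a right translate of `Kn θ n ρ2`, the slice over `g'` is contained in a right translate of `Kn θ n r'`, `Kn_volume`, Tonelli. -/
theorem sh {S : FB X} (T : TN S) (θ : ℝ × ℝ) (hθ : Reg θ) (ρ : ℝ) (hρ : 0 < ρ) :
    ∃ ρ' : ℝ, 0 < ρ' ∧ ρ' ≤ ρ ∧ ∃ r0 : ℝ, 0 < r0 ∧ r0 ≤ 1 / 4 ∧ ∃ c2 : ℝ, 0 < c2 ∧
      ∃ C : ℝ, 0 < C ∧ ∀ (x0 : X) (n : ℕ) (r t : ℝ), 0 < r → r ≤ r0 → |t| < r →
      ∫⁻ g in {g | g ∈ Bl ρ' ∧ r * ∑ j ∈ Finset.range (n + 1), T.J ((D θ) ^ j * g) x0 ≤ c2},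
        ENNReal.ofReal (Real.sqrt (T.J ((D θ) ^ n * g) x0)) ∂hG ≤
      ENNReal.ofReal C * ∫⁻ g in Bl ρ,
        ENNReal.ofReal (Real.sqrt (T.J ((D θ) ^ n * g) (S.cur x0 t))) ∂hG := by
  obtain ⟨ρ3, hρ3, r', hr', ε1, hε1, hP2⟩ := sh_P2 S θ
  obtain ⟨ρ1, hρ1, ρ2, hρ2, c2, hc2, r0, hr0, hr04, C2, hC2, hP1⟩ := sh_P1 T θ hθ ρ ε1 hρ hε1
  obtain ⟨CV, hCV, hvol⟩ := Kn_volume θ ρ2 r' hρ2 hr'
  have hρ'pos : 0 < min ρ (min ρ1 ρ3) := lt_min hρ (lt_min hρ1 hρ3)
  refine ⟨min ρ (min ρ1 ρ3), hρ'pos, min_le_left _ _, r0, hr0, hr04, c2, hc2,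
    CV * Real.sqrt C2, mul_pos hCV (Real.sqrt_pos.mpr hC2), ?_⟩
  intro x0 n r t hr hrr0 ht
  set y := S.cur x0 t with hy
  have hmulc : ∀ (j : ℕ), Continuous (fun g : G => (D θ) ^ j * g) := fun j =>
    continuous_const.mul continuous_id
  have hcf : ∀ (x : X) (j : ℕ), Continuous (fun g : G => T.J ((D θ) ^ j * g) x) := fun x j =>
    (SH_contJ T x).comp (hmulc j)
  have hAm : MeasurableSet {g : G | g ∈ Bl (min ρ (min ρ1 ρ3)) ∧
      r * ∑ j ∈ Finset.range (n + 1), T.J ((D θ) ^ j * g) x0 ≤ c2} := by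
    have hcl : IsClosed {g : G |
        r * ∑ j ∈ Finset.range (n + 1), T.J ((D θ) ^ j * g) x0 ≤ c2} := by
      refine isClosed_le (continuous_const.mul ?_) continuous_const
      exact continuous_finsetSum _ fun j _ => hcf x0 j
    exact (measurableSet_Bl _).inter hcl.measurableSet
  have hRm : MeasurableSet {p : G × G | ∀ j, j ≤ n →
      dist (((D θ) ^ j * p.1) • x0) (((D θ) ^ j * p.2) • y) ≤ ε1} := by
    refine IsClosed.measurableSet ?_
    simp only [Set.ofPred_forall]
    refine isClosed_iInter fun j => isClosed_iInter fun _ => ?_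
    refine isClosed_le ?_ continuous_const
    refine Continuous.dist ?_ ?_
    · exact ((hmulc j).comp continuous_fst).smul continuous_const
    · exact ((hmulc j).comp continuous_snd).smul continuous_const
  have key := SH_count (fun g => T.J ((D θ) ^ n * g) x0) (fun g => T.J ((D θ) ^ n * g) y)
    (hcf x0 n) (hcf y n) (fun g => (SH_posJ T _ _).le)
    {g : G | g ∈ Bl (min ρ (min ρ1 ρ3)) ∧
      r * ∑ j ∈ Finset.range (n + 1), T.J ((D θ) ^ j * g) x0 ≤ c2} (Bl ρ)
    (Kn θ n ρ2) (Kn θ n r') hAm (measurableSet_Bl ρ)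
    (isCompact_Kn θ n r').measurableSet
    {p : G × G | ∀ j, j ≤ n → dist (((D θ) ^ j * p.1) • x0) (((D θ) ^ j * p.2) • y) ≤ ε1}
    hRm C2 hC2 ?_ ?_ (isCompact_Kn θ n ρ2).measurableSet
  · have hpos := hG_Kn_pos θ n ρ2 hρ2
    have hlt := hG_Kn_lt_top θ n ρ2
    set I := ∫⁻ g in {g : G | g ∈ Bl (min ρ (min ρ1 ρ3)) ∧
      r * ∑ j ∈ Finset.range (n + 1), T.J ((D θ) ^ j * g) x0 ≤ c2},
        ENNReal.ofReal (Real.sqrt (T.J ((D θ) ^ n * g) x0)) ∂hG with hI
    set I' := ∫⁻ g in Bl ρ, ENNReal.ofReal (Real.sqrt (T.J ((D θ) ^ n * g) y)) ∂hG with hI'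
    have h3 : hG (Kn θ n ρ2) * I ≤
        hG (Kn θ n ρ2) * (ENNReal.ofReal (CV * Real.sqrt C2) * I') := by
      refine key.trans ?_
      calc hG (Kn θ n r') * (ENNReal.ofReal (Real.sqrt C2) * I')
          ≤ (ENNReal.ofReal CV * hG (Kn θ n ρ2)) * (ENNReal.ofReal (Real.sqrt C2) * I') := by
            gcongr
            exact hvol n
        _ = hG (Kn θ n ρ2) * (ENNReal.ofReal (CV * Real.sqrt C2) * I') := by
            rw [ENNReal.ofReal_mul hCV.le]; ring
    exact (ENNReal.mul_le_mul_iff_right hpos.ne' hlt.ne).mp h3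
  · rintro g ⟨hg1, hg2⟩
    have hg1' : g ∈ Bl ρ1 := Bl_mono ((min_le_right _ _).trans (min_le_left _ _)) hg1
    obtain ⟨g0, hg0⟩ := hP1 x0 n r t hr hrr0 ht g hg1' hg2
    refine ⟨g0, fun k hk => ?_⟩
    obtain ⟨a1, a2, a3⟩ := hg0 k hk
    exact ⟨a1, a2, a3⟩
  · rintro g g2 g' ⟨hg1, -⟩ ⟨hg2, -⟩ hg' hR1 hR2
    have hle : min ρ (min ρ1 ρ3) ≤ ρ3 := (min_le_right _ _).trans (min_le_right _ _)
    exact hP2 x0 y n g g2 g' (Bl_mono hle hg1) (Bl_mono hle hg2) hR1 hR2

end Pool.Agent.H88.LF
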