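import Pool.Agent.H88.LF.STAR
import Pool.Agent.H88.LF.SH
import Pool.Agent.H88.LF.RLEM
import Pool.Agent.H88.LF.RATEA

/-!
# RATE (blueprint section 6)
-/

set_option autoImplicit false

open MeasureTheory Set Filter
open scoped Topology ENNReal

namespace Pool.Agent.H88.LF

variable {X : Type} [MetricSpace X] [CompactSpace X] [MulAction G X] [ContinuousSMul G X]

variable [MeasurableSpace X] [BorelSpace X]

theorem rate_sqrt_div {r : ℝ} (hr : 0 < r) (a : ℝ) : a * Real.sqrt r / r = a / Real.sqrt r := by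
  have h1 : 0 < Real.sqrt r := Real.sqrt_pos.2 hr
  have h2 : r = Real.sqrt r * Real.sqrt r := (Real.mul_self_sqrt hr.le).symm
  rw [div_eq_div_iff hr.ne' h1.ne']
  nth_rewrite 3 [h2]
  ring

/-- averaging over `t` in `(0,r)` -/
theorem rate_avg {A : ℝ≥0∞} {I : ℝ → ℝ≥0∞} {r c B : ℝ} (hr : 0 < r) (hc : 0 ≤ c) (hB : 0 ≤ B)
    (h : ∀ t, 0 < t → t < r → A ≤ ENNReal.ofReal c * I t)
    (hI : ∫⁻ t in Ioo 0 r, I t ≤ ENNReal.ofReal B) :
    A ≤ ENNReal.ofReal (c * B / r) := by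
  have h1 : ∫⁻ _t in Ioo (0:ℝ) r, A ≤ ∫⁻ t in Ioo (0:ℝ) r, ENNReal.ofReal c * I t :=
    setLIntegral_mono' measurableSet_Ioo (fun t ht => h t ht.1 ht.2)
  rw [lintegral_const_mul' _ _ ENNReal.ofReal_ne_top, setLIntegral_const, Real.volume_Ioo,
    sub_zero] at h1
  have h2 : A * ENNReal.ofReal r ≤ ENNReal.ofReal (c * B) := by
    rw [ENNReal.ofReal_mul hc]
    exact h1.trans (mul_le_mul_right hI _)
  rw [ENNReal.ofReal_div_of_pos hr]
  rw [ENNReal.le_div_iff_mul_le (Or.inl (by simpa using hr)) (Or.inl ENNReal.ofReal_ne_top)]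
  exact h2

/-- RATE.  Fix `ρ`, `C` from `star2`, then `ρ' ≤ ρ`, `r0`, `c2` from `sh`.  For `0 < t < r ≤ min r0 r1` apply `sh` to `σt`, integrate over `t ∈ (0,r)` and use `star2`:
`r ∫_{good} √b_n ≤ C C' e^{-n/4} √r` (`‖n•θ‖ = n`), then `rlem` with `ν = hG.restrict (Bl ρ')` (the constant of `rlem` depends only on `C0,c2,C1,r0`). -/
theorem rate {S : FB X} {T : TN S} {μ : Measure X} (hμ : T.IsMu μ) (R : URep (Lp ℂ 2 μ))
    (hR : hμ.kd.IsKoop R) (C0 : ℝ) (hC0 : T.Growth C0) (θ : ℝ × ℝ) (hθ : Reg θ) (hθ1 : ‖θ‖ = 1) :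
    ∃ ρ' : ℝ, 0 < ρ' ∧ ρ' ≤ 1 ∧ ∀ r1 : ℝ, 0 < r1 → ∃ C : ℝ, 0 < C ∧
      ∀ (Ω : Set X), MeasurableSet Ω → (∀ (g : G), ∀ x ∈ Ω, g • x ∈ Ω) → NIV R Ω →
      ∀ (x : X) (σ : ℝ), (σ = 1 ∨ σ = -1) → (∀ t, 0 < t → t < r1 → S.cur x (σ * t) ∈ Ω) →
      ∀ n : ℕ, ∫⁻ g in Bl ρ',
        ENNReal.ofReal (T.J (D ((n:ℝ) • θ) * g) x ^ (1 / (16 * (C0 + 1)))) ∂hG ≤
        ENNReal.ofReal (C * Real.exp (-(n:ℝ) / (64 * (C0 + 1)))) := by
  obtain ⟨ρ, hρ, hρ1, C1, hC1, hstar⟩ := star2 hμ R hR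
  obtain ⟨ρ', hρ', hρρ, r0, hr0, hr04, c2, hc2, C2, hC2, hsh⟩ := sh T θ hθ ρ hρ
  refine ⟨ρ', hρ', hρρ.trans hρ1, ?_⟩
  intro r1 hr1
  have hfin : IsFiniteMeasure (hG.restrict (Bl ρ')) := by
    refine ⟨?_⟩
    rw [Measure.restrict_apply_univ]
    exact (isCompact_Bl ρ').measure_lt_top
  obtain ⟨C, hC, hrl⟩ := rlem (hG.restrict (Bl ρ')) C0 c2 (C2 * C1) (min r0 r1)
    (by linarith [hC0.1]) hc2 (by positivity) (lt_min hr0 hr1)
  refine ⟨C, hC, ?_⟩
  intro Ω hΩm hΩ hniv x σ hσ hcur n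
  -- the truncated functions
  set b : ℕ → G → ℝ := fun m g => max (Real.exp (-(C0 * ((m:ℝ) + 1))))
    (min (T.J (D ((m:ℝ) • θ) * g) x) (Real.exp (C0 * ((m:ℝ) + 1)))) with hb
  have hbJ : ∀ m, ∀ g ∈ Bl ρ', b m g = T.J (D ((m:ℝ) • θ) * g) x := by
    intro m g hg
    have hg1 : g ∈ Bl 1 := Bl_mono (hρρ.trans hρ1) hg
    have h1 := hC0.2 ((m:ℝ) • θ) g x hg1
    rw [norm_smul, hθ1, mul_one, Real.norm_of_nonneg (Nat.cast_nonneg m)] at h1
    rw [hb]
    simp only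
    rw [min_eq_left h1.2, max_eq_right h1.1]
  have hJc : ∀ m : ℕ, Continuous (fun g : G => T.J (D ((m:ℝ) • θ) * g) x) := by
    intro m
    exact T.continuous_J.comp ((continuous_const.mul continuous_id).prodMk continuous_const)
  have hbm : ∀ m, Measurable (b m) := by
    intro m
    exact measurable_const.max ((hJc m).measurable.min measurable_const)
  have hbb : ∀ (m : ℕ) (g : G), Real.exp (-(C0 * ((m:ℝ) + 1))) ≤ b m g ∧
      b m g ≤ Real.exp (C0 * ((m:ℝ) + 1)) := by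
    intro m g
    refine ⟨le_max_left _ _, max_le ?_ (min_le_right _ _)⟩
    apply Real.exp_le_exp.2
    have h1 : 0 ≤ C0 * ((m:ℝ) + 1) := mul_nonneg (by linarith [hC0.1]) (by positivity)
    linarith
  have hmain : ∀ (m : ℕ) (r : ℝ), 0 < r → r ≤ min r0 r1 →
      ∫⁻ g in {g | r * ∑ j ∈ Finset.range (m + 1), b j g ≤ c2},
        ENNReal.ofReal (Real.sqrt (b m g)) ∂(hG.restrict (Bl ρ')) ≤
      ENNReal.ofReal (C2 * C1 * Real.exp (-(m:ℝ) / 4) / Real.sqrt r) := by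
    intro m r hr hrr
    have hrr0 : r ≤ r0 := hrr.trans (min_le_left _ _)
    have hrr1 : r ≤ r1 := hrr.trans (min_le_right _ _)
    have hmeas : MeasurableSet {g : G | r * ∑ j ∈ Finset.range (m + 1), b j g ≤ c2} := by
      refine measurableSet_le ?_ measurable_const
      exact (Finset.measurable_fun_sum _ (fun j _ => hbm j)).const_mul r
    rw [Measure.restrict_restrict hmeas]
    set E : Set G := {g | g ∈ Bl ρ' ∧
      r * ∑ j ∈ Finset.range (m + 1), T.J ((D θ) ^ j * g) x ≤ c2} with hE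
    have hEeq : {g : G | r * ∑ j ∈ Finset.range (m + 1), b j g ≤ c2} ∩ Bl ρ' = E := by
      ext g
      rw [hE]
      constructor
      · rintro ⟨h1, h2⟩
        refine ⟨h2, ?_⟩
        rw [mem_ofPred_eq] at h1
        rw [Finset.sum_congr rfl (fun j _ => hbJ j g h2)] at h1
        simp only [D_nsmul] at h1
        exact h1
      · rintro ⟨h2, h1⟩
        refine ⟨?_, h2⟩
        rw [mem_ofPred_eq, Finset.sum_congr rfl (fun j _ => hbJ j g h2)]
        simp only [D_nsmul]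
        exact h1
    rw [hEeq]
    have hEm : MeasurableSet E := by
      rw [← hEeq]
      exact hmeas.inter (measurableSet_Bl ρ')
    have hA : ∫⁻ g in E, ENNReal.ofReal (Real.sqrt (b m g)) ∂hG =
        ∫⁻ g in E, ENNReal.ofReal (Real.sqrt (T.J ((D θ) ^ m * g) x)) ∂hG := by
      apply setLIntegral_congr_fun hEm
      intro g hg
      simp only
      rw [hbJ m g hg.1, D_nsmul]
    rw [hA]
    have hnorm : ‖(m:ℝ) • θ‖ = m := by
      rw [norm_smul, hθ1, mul_one, Real.norm_of_nonneg (Nat.cast_nonneg m)]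
    have h3 := hstar Ω hΩm hΩ hniv x σ hσ r hr (hrr0.trans hr04)
      (fun t ht1 ht2 => hcur t ht1 (ht2.trans_le hrr1)) ((m:ℝ) • θ)
    rw [hnorm] at h3
    have h4 := rate_avg (A := ∫⁻ g in E, ENNReal.ofReal (Real.sqrt (T.J ((D θ) ^ m * g) x)) ∂hG)
      (I := fun t => ∫⁻ h in Bl ρ,
        ENNReal.ofReal (Real.sqrt (T.J (D ((m:ℝ) • θ) * h) (S.cur x (σ * t)))) ∂hG)
      (c := C2) (B := C1 * Real.exp (-(m:ℝ) / 4) * Real.sqrt r) hr hC2.le (by positivity) (by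
        intro t ht1 ht2
        have habs : |σ * t| < r := by
          rcases hσ with rfl | rfl
          · rw [one_mul, abs_of_pos ht1]; exact ht2
          · rw [neg_one_mul, abs_neg, abs_of_pos ht1]; exact ht2
        have h5 := hsh x m r (σ * t) hr hrr0 habs
        simp only [D_nsmul]
        exact h5) h3
    refine h4.trans (le_of_eq ?_)
    congr 1
    rw [← rate_sqrt_div hr]
    ring
  have hfinal := hrl b hbm hbb hmain n
  refine le_trans (le_of_eq ?_) hfinal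
  apply setLIntegral_congr_fun (measurableSet_Bl ρ')
  intro g hg
  simp only
  rw [hbJ n g hg]

end Pool.Agent.H88.LF
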