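import Pool.Agent.H88.LF.FBB

/-!
# TNEX: existence of a transverse norm (blueprint section 2)

`sq0 u = (max 0 u)^2` is `C¹`.  `bmp h τ = sq0 (ρ0²/16 - ∑ (h-1)_ab²) * sq0 (9/16 - τ²)`.  Since
`∑ x² ≤ (∑|x|)² ≤ 9 ∑ x²`: `bmp > 0` if `nd h ≤ ρ1` (`100 ρ1 ≤ ρ0`) and `|τ| ≤ 1/2`; `bmp h τ ≠ 0` implies `nd h ≤ 3ρ0/4 < ρ0` and `|τ| < 3/4`.
`W g i t = ∑_j bmp h τ * |dτ i j t τ (g⁻¹h)|` where `(h,τ)` is the unique pair with `nd h < ρ0`, `|τ| < 1`, `g • c i t = h • c j τ` (term `0` if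
there is none).
Locally near `(g0,t0)`: if there is such a pair `(h0,τ0)` for `(g0,t0)`, then with the continuation `(kf,τf)` of the arrow `g0⁻¹h0` the pair for
`(g,t)` near `(g0,t0)` is `(g kf(t), τf(t))`, so the term is `bmp (g kf t) (τf t) |τf' t|`: `C¹` in `t` with derivative jointly
continuous.  If there is none for `(g0,t0)` then near `(g0,t0)` the term is `0` (the set of points `h • c j τ` with `∑(h-1)² ≤ ρ0²/16`,
`|τ| ≤ 3/4` is compact and contained in the open set of points of box `j`).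
`rule`: for an arrow `k : (i,t) → (j',τ')` the pairs for `g • c i t = (gk) • c j' τ'` are the same, and `dτ` is multiplicative.
-/

set_option autoImplicit false

open MeasureTheory Set Filter
open scoped Topology

namespace Pool.Agent.H88.LF

variable {X : Type} [MetricSpace X] [CompactSpace X] [MulAction G X] [ContinuousSMul G X]

private noncomputable def TNEX_Qg (h : G) : ℝ := ∑ a, ∑ b, (h.1 a b - (1 : Mat) a b) ^ 2

private noncomputable def TNEX_b (r : ℝ) (h : G) (τ : ℝ) : ℝ :=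
  Real.smoothTransition (r ^ 2 / 400 - TNEX_Qg h) * Real.smoothTransition (9 / 16 - τ ^ 2)

private theorem TNEX_Qg_le (h : G) (r : ℝ) (hr : nd h ≤ r) : TNEX_Qg h ≤ 9 * r ^ 2 := by
  have h1 : ∀ a b, (h.1 a b - (1 : Mat) a b) ^ 2 ≤ r ^ 2 := by
    intro a b
    have h2 := abs_le_nrm (h.1 - 1) a b
    rw [Matrix.sub_apply] at h2
    have h3 : |h.1 a b - (1 : Mat) a b| ≤ r := h2.trans hr
    have h4 := abs_le.1 h3
    exact sq_le_sq' h4.1 h4.2
  unfold TNEX_Qg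
  calc ∑ a, ∑ b, (h.1 a b - (1 : Mat) a b) ^ 2 ≤ ∑ _a : Fin 3, ∑ _b : Fin 3, r ^ 2 :=
        Finset.sum_le_sum fun a _ => Finset.sum_le_sum fun b _ => h1 a b
    _ = 9 * r ^ 2 := by
        simp only [Finset.sum_const, Finset.card_univ, Fintype.card_fin, nsmul_eq_mul]
        push_cast
        ring

private theorem TNEX_nd_le (h : G) (r : ℝ) (hr : 0 < r) (hQ : TNEX_Qg h ≤ r ^ 2 / 400) :
    nd h ≤ 9 * (r / 20) := by
  refine nrm_le_of_entries _ _ fun a b => ?_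
  have h1 : (h.1 a b - (1 : Mat) a b) ^ 2 ≤ TNEX_Qg h := by
    unfold TNEX_Qg
    have h2 : (h.1 a b - (1 : Mat) a b) ^ 2 ≤ ∑ b, (h.1 a b - (1 : Mat) a b) ^ 2 :=
      Finset.single_le_sum (f := fun b => (h.1 a b - (1 : Mat) a b) ^ 2) (fun _ _ => sq_nonneg _)
        (Finset.mem_univ b)
    exact h2.trans (Finset.single_le_sum (f := fun a => ∑ b, (h.1 a b - (1 : Mat) a b) ^ 2)
      (fun _ _ => Finset.sum_nonneg fun _ _ => sq_nonneg _) (Finset.mem_univ a))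
  have h2 : (h.1 a b - (1 : Mat) a b) ^ 2 ≤ (r / 20) ^ 2 := by nlinarith
  rw [Matrix.sub_apply]
  exact abs_le_of_sq_le_sq h2 (by positivity)

private theorem TNEX_Qg_cont : Continuous TNEX_Qg := by
  unfold TNEX_Qg
  have h1 : Continuous (fun h : G => (h.1 : Mat)) := closedEmb_val.continuous
  refine continuous_finsetSum _ fun a _ => continuous_finsetSum _ fun b _ => ?_
  exact (((continuous_apply_apply a b).comp h1).sub continuous_const).pow 2

private theorem TNEX_b_nonneg (r : ℝ) (h : G) (τ : ℝ) : 0 ≤ TNEX_b r h τ :=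
  mul_nonneg (Real.smoothTransition.nonneg _) (Real.smoothTransition.nonneg _)

private theorem TNEX_b_pos (S : FB X) (h : G) (τ : ℝ) (hh : nd h < S.ρ1) (hτ : |τ| < 1 / 2) :
    0 < TNEX_b S.ρ0 h τ := by
  have h1 := TNEX_Qg_le h S.ρ1 hh.le
  have h2 := S.hρ
  have h3 := S.hρ1
  have h4 := abs_lt.1 hτ
  refine mul_pos (Real.smoothTransition.pos_of_pos ?_) (Real.smoothTransition.pos_of_pos ?_)
  · nlinarith [pow_le_pow_left₀ (by positivity) h2 2]
  · nlinarith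

private theorem TNEX_b_ne (r : ℝ) (h : G) (τ : ℝ) (hb : TNEX_b r h τ ≠ 0) :
    TNEX_Qg h ≤ r ^ 2 / 400 ∧ |τ| ≤ 3 / 4 := by
  have h1 := left_ne_zero_of_mul hb
  have h2 := right_ne_zero_of_mul hb
  rw [Ne, Real.smoothTransition.zero_iff_nonpos, not_le] at h1 h2
  refine ⟨by linarith, ?_⟩
  exact abs_le_of_sq_le_sq (by nlinarith) (by norm_num)

/-- `x` has a representation in box `j` -/
private def TNEX_has (S : FB X) (j : Fin S.n) (x : X) : Prop :=
  ∃ p : G × ℝ, nd p.1 < S.ρ0 ∧ |p.2| < 1 ∧ x = p.1 • S.c j p.2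

open Classical in
private noncomputable def TNEX_pr (S : FB X) (j : Fin S.n) (x : X) : G × ℝ :=
  if h : TNEX_has S j x then h.choose else (1, 0)

private theorem TNEX_pr_eq (S : FB X) (j : Fin S.n) (x : X) (h : G) (τ : ℝ) (hh : nd h < S.ρ0)
    (hτ : |τ| < 1) (hx : x = h • S.c j τ) : TNEX_pr S j x = (h, τ) := by
  have hx' : TNEX_has S j x := ⟨(h, τ), hh, hτ, hx⟩
  unfold TNEX_pr
  rw [dif_pos hx']
  obtain ⟨h1, h2, h3⟩ := hx'.choose_spec
  obtain ⟨h4, h5⟩ := S.inj j _ _ _ _ h2 hτ h1 hh (h3.symm.trans hx)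
  exact Prod.ext h4 h5

open Classical in
private noncomputable def TNEX_f (S : FB X) (j : Fin S.n) (g : G) (i : Fin S.n) (t : ℝ) : ℝ :=
  if TNEX_has S j (g • S.c i t) then
    TNEX_b S.ρ0 (TNEX_pr S j (g • S.c i t)).1 (TNEX_pr S j (g • S.c i t)).2 *
      |S.dτ i j t (TNEX_pr S j (g • S.c i t)).2 (g⁻¹ * (TNEX_pr S j (g • S.c i t)).1)|
  else 0

private theorem TNEX_f_eq (S : FB X) (j : Fin S.n) (g : G) (i : Fin S.n) (t : ℝ) (h : G) (τ : ℝ)
    (hh : nd h < S.ρ0) (hτ : |τ| < 1) (hx : g • S.c i t = h • S.c j τ) :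
    TNEX_f S j g i t = TNEX_b S.ρ0 h τ * |S.dτ i j t τ (g⁻¹ * h)| := by
  unfold TNEX_f
  rw [if_pos ⟨(h, τ), hh, hτ, hx⟩, TNEX_pr_eq S j _ h τ hh hτ hx]

private theorem TNEX_f_nonneg (S : FB X) (j : Fin S.n) (g : G) (i : Fin S.n) (t : ℝ) :
    0 ≤ TNEX_f S j g i t := by
  unfold TNEX_f
  split_ifs
  · exact mul_nonneg (TNEX_b_nonneg _ _ _) (abs_nonneg _)
  · exact le_rfl

private theorem TNEX_arr (S : FB X) {i j : Fin S.n} {t τ : ℝ} {g h : G} (ht : |t| < 1)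
    (hτ : |τ| < 1) (hx : g • S.c i t = h • S.c j τ) : S.Arr i j t τ (g⁻¹ * h) := by
  refine ⟨ht, hτ, ?_⟩
  rw [mul_smul, ← hx, inv_smul_smul]

/-- the local model of `TNEX_f` -/
private noncomputable def TNEX_Ψ (r : ℝ) (σ : ℝ) (K : ℝ → G) (T : ℝ → ℝ)
    (p : (Fin 3 → Fin 3 → ℝ) × ℝ) : ℝ :=
  Real.smoothTransition (r ^ 2 / 400 -
    ∑ a, ∑ b, ((∑ m, p.1 a m * (K p.2).1 m b) - (1 : Mat) a b) ^ 2) *
    Real.smoothTransition (9 / 16 - (T p.2) ^ 2) * (σ * deriv T p.2)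

private theorem TNEX_Ψ_contDiff (r σ : ℝ) (K : ℝ → G) (T : ℝ → ℝ) (A0 : Fin 3 → Fin 3 → ℝ) (t0 : ℝ)
    (hK : ∀ a b, ContDiffAt ℝ 2 (fun t => (K t).1 a b) t0) (hT : ContDiffAt ℝ 2 T t0) :
    ContDiffAt ℝ 1 (TNEX_Ψ r σ K T) (A0, t0) := by
  have hK' : ∀ a b, ContDiffAt ℝ 1 (fun p : (Fin 3 → Fin 3 → ℝ) × ℝ => (K p.2).1 a b) (A0, t0) := by
    intro a b
    have h1 : ContDiffAt ℝ 1 (fun t => (K t).1 a b) t0 := (hK a b).of_le (by norm_num)
    exact ContDiffAt.comp (A0, t0) h1 contDiffAt_snd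
  have hA : ∀ a b, ContDiffAt ℝ 1 (fun p : (Fin 3 → Fin 3 → ℝ) × ℝ => p.1 a b) (A0, t0) := by
    intro a b
    have h1 : ContDiff ℝ 1 (fun p : (Fin 3 → Fin 3 → ℝ) × ℝ => p.1 a b) := by fun_prop
    exact h1.contDiffAt
  have hT' : ContDiffAt ℝ 1 (fun p : (Fin 3 → Fin 3 → ℝ) × ℝ => T p.2) (A0, t0) := by
    have h1 : ContDiffAt ℝ 1 T t0 := hT.of_le (by norm_num)
    exact ContDiffAt.comp (A0, t0) h1 contDiffAt_snd
  have hdT : ContDiffAt ℝ 1 (fun p : (Fin 3 → Fin 3 → ℝ) × ℝ => deriv T p.2) (A0, t0) := by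
    have h1 : ContDiffAt ℝ 1 (deriv T) t0 := by
      have h2 : ContDiffAt ℝ 1 (fderiv ℝ T) t0 := hT.fderiv_right (by norm_num)
      have h3 : deriv T = fun t => fderiv ℝ T t 1 := by
        funext t
        exact fderiv_apply_one_eq_deriv.symm
      rw [h3]
      exact h2.clm_apply contDiffAt_const
    exact ContDiffAt.comp (A0, t0) h1 contDiffAt_snd
  unfold TNEX_Ψ
  refine ContDiffAt.mul (ContDiffAt.mul ?_ ?_) (contDiffAt_const.mul hdT)
  · refine ContDiffAt.comp (A0, t0) Real.smoothTransition.contDiffAt ?_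
    refine contDiffAt_const.sub ?_
    refine ContDiffAt.sum fun a _ => ContDiffAt.sum fun b _ => ?_
    refine ContDiffAt.pow (ContDiffAt.sub ?_ contDiffAt_const) 2
    exact ContDiffAt.sum fun m _ => (hA a m).mul (hK' m b)
  · refine ContDiffAt.comp (A0, t0) Real.smoothTransition.contDiffAt ?_
    exact contDiffAt_const.sub (hT'.pow 2)

private theorem TNEX_val_cont (g0 : G) (t0 : ℝ) :
    ContinuousAt (fun p : G × ℝ => ((p.1.1 : Fin 3 → Fin 3 → ℝ), p.2)) (g0, t0) := by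
  have h1 : Continuous (fun h : G => (h.1 : Mat)) := closedEmb_val.continuous
  have h2 : Continuous (fun p : G × ℝ => ((p.1.1 : Fin 3 → Fin 3 → ℝ), p.2)) :=
    (h1.comp continuous_fst).prodMk continuous_snd
  exact h2.continuousAt

private theorem TNEX_local (S : FB X) (i j : Fin S.n) (g0 : G) (t0 : ℝ) (ht0 : |t0| < 1) :
    ∃ Ψ : (Fin 3 → Fin 3 → ℝ) × ℝ → ℝ, ContDiffAt ℝ 1 Ψ (g0.1, t0) ∧
      ∀ᶠ p : G × ℝ in 𝓝 (g0, t0), TNEX_f S j p.1 i p.2 = Ψ (p.1.1, p.2) := by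
  by_cases hcase : ∃ (h : G) (τ : ℝ), nd h < S.ρ0 ∧ |τ| < 1 ∧ g0 • S.c i t0 = h • S.c j τ
  · obtain ⟨h0, τ0, hh0, hτ0, hx0⟩ := hcase
    have harr := TNEX_arr S ht0 hτ0 hx0
    obtain ⟨hk0, hτf0, hKs, hTs, hT0, _⟩ := S.kf_τf_spec harr
    set K := S.kf i j t0 τ0 (g0⁻¹ * h0) with hK
    set T := S.τf i j t0 τ0 (g0⁻¹ * h0) with hT
    obtain ⟨σ, hσ⟩ : ∃ σ : ℝ, ∀ᶠ t in 𝓝 t0, |deriv T t| = σ * deriv T t := by
      have hc : ContinuousAt (deriv T) t0 := by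
        have h2 : ContDiffAt ℝ 1 (fderiv ℝ T) t0 := hTs.fderiv_right (by norm_num)
        have h3 : deriv T = fun t => fderiv ℝ T t 1 := by
          funext t
          exact fderiv_apply_one_eq_deriv.symm
        rw [h3]
        exact (h2.clm_apply contDiffAt_const).continuousAt
      rcases lt_or_gt_of_ne hT0 with h | h
      · refine ⟨-1, ?_⟩
        filter_upwards [hc.eventually (gt_mem_nhds h)] with t ht
        rw [abs_of_neg ht]; ring
      · refine ⟨1, ?_⟩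
        filter_upwards [hc.eventually (lt_mem_nhds h)] with t ht
        rw [abs_of_pos ht]; ring
    refine ⟨TNEX_Ψ S.ρ0 σ K T, TNEX_Ψ_contDiff _ _ _ _ _ _ hKs hTs, ?_⟩
    have e1 := S.eventually_arr harr
    have e3 := S.eventually_dτ harr
    have ec : ContinuousAt (fun p : G × ℝ => p.1 * K p.2) (g0, t0) := by
      have hKc : ContinuousAt K t0 := S.continuousAt_kf harr
      have h2 : ContinuousAt (fun p : G × ℝ => K p.2) (g0, t0) :=
        ContinuousAt.comp (f := fun p : G × ℝ => p.2) (x := (g0, t0)) hKc continuousAt_snd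
      exact continuousAt_fst.mul h2
    have e2 : ∀ᶠ p : G × ℝ in 𝓝 (g0, t0), nd (p.1 * K p.2) < S.ρ0 := by
      have h2 : ContinuousAt (fun p : G × ℝ => nd (p.1 * K p.2)) (g0, t0) :=
        continuous_nd.continuousAt.comp ec
      refine h2.eventually (gt_mem_nhds ?_)
      show nd (g0 * K t0) < S.ρ0
      rw [hk0, mul_inv_cancel_left]
      exact hh0
    have hsnd : Tendsto (fun p : G × ℝ => p.2) (𝓝 (g0, t0)) (𝓝 t0) := continuousAt_snd
    filter_upwards [hsnd.eventually e1, hsnd.eventually e3, hsnd.eventually hσ, e2]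
      with p p1 p3 pσ p2
    obtain ⟨g, t⟩ := p
    obtain ⟨q1, q2, q3⟩ := p1
    have hx : g • S.c i t = (g * K t) • S.c j (T t) := by
      rw [mul_smul, ← q3]
    rw [TNEX_f_eq S j g i t (g * K t) (T t) p2 q2 hx, inv_mul_cancel_left]
    have h4 : S.dτ i j t (T t) (K t) = deriv T t := p3.1
    rw [h4, pσ]
    unfold TNEX_b TNEX_Ψ
    have h5 : TNEX_Qg (g * K t) =
        ∑ a, ∑ b, ((∑ m, g.1 a m * (K t).1 m b) - (1 : Mat) a b) ^ 2 := by
      unfold TNEX_Qg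
      refine Finset.sum_congr rfl fun a _ => Finset.sum_congr rfl fun b _ => ?_
      have h6 : (g * K t).1 a b = ∑ m, g.1 a m * (K t).1 m b := by
        rw [Matrix.SpecialLinearGroup.coe_mul, Matrix.mul_apply]
      rw [h6]
    rw [h5]
  · refine ⟨fun _ => 0, contDiffAt_const, ?_⟩
    have hcomp : IsCompact ({h : G | TNEX_Qg h ≤ S.ρ0 ^ 2 / 400} ×ˢ Icc (-(3 / 4) : ℝ) (3 / 4)) := by
      refine IsCompact.prod ?_ isCompact_Icc
      have hρ0 : 0 < S.ρ0 := by have h1 := S.hρ; have h2 := S.hρ1; linarith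
      refine (isCompact_Bl (9 * (S.ρ0 / 20))).of_isClosed_subset
        (isClosed_le TNEX_Qg_cont continuous_const) ?_
      intro h hh
      exact TNEX_nd_le h S.ρ0 hρ0 hh
    have hcont : ContinuousOn (fun p : G × ℝ => p.1 • S.c j p.2)
        ({h : G | TNEX_Qg h ≤ S.ρ0 ^ 2 / 400} ×ˢ Icc (-(3 / 4) : ℝ) (3 / 4)) := by
      refine (S.continuousOn_map j).mono ?_
      rintro ⟨h, τ⟩ ⟨_, hτ⟩
      have h1 := hτ.1
      have h2 := hτ.2
      show |τ| < 1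
      simp only at h1 h2
      rw [abs_lt]
      constructor <;> linarith
    have hclosed := (hcomp.image_of_continuousOn hcont).isClosed
    have hopen : IsOpen {p : G × ℝ | |p.2| < 1} := isOpen_lt (continuous_snd.abs) continuous_const
    have hca : ContinuousAt (fun p : G × ℝ => p.1 • S.c i p.2) (g0, t0) :=
      (S.continuousOn_map i).continuousAt (hopen.mem_nhds ht0)
    have hρ0 : 0 < S.ρ0 := by have h1 := S.hρ; have h2 := S.hρ1; linarith
    have hnot : g0 • S.c i t0 ∉ (fun p : G × ℝ => p.1 • S.c j p.2) ''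
        ({h : G | TNEX_Qg h ≤ S.ρ0 ^ 2 / 400} ×ˢ Icc (-(3 / 4) : ℝ) (3 / 4)) := by
      rintro ⟨⟨h, τ⟩, ⟨hh, hτ⟩, hx⟩
      refine hcase ⟨h, τ, ?_, ?_, hx.symm⟩
      · have := TNEX_nd_le h S.ρ0 hρ0 hh
        linarith
      · have h1 := hτ.1
        have h2 := hτ.2
        simp only at h1 h2
        rw [abs_lt]
        constructor <;> linarith
    filter_upwards [hca.eventually (hclosed.isOpen_compl.mem_nhds hnot)] with p hp
    by_contra hne
    have hhas : TNEX_has S j (p.1 • S.c i p.2) := by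
      by_contra hn
      apply hne
      unfold TNEX_f
      rw [if_neg hn]
    obtain ⟨⟨h, τ⟩, hh, hτ, hx⟩ := hhas
    rw [TNEX_f_eq S j p.1 i p.2 h τ hh hτ hx] at hne
    have hb := left_ne_zero_of_mul hne
    obtain ⟨hb1, hb2⟩ := TNEX_b_ne _ _ _ hb
    exact hp ⟨(h, τ), ⟨hb1, abs_le.1 hb2⟩, hx.symm⟩

private noncomputable def TNEX_W (S : FB X) (g : G) (i : Fin S.n) (t : ℝ) : ℝ := ∑ j, TNEX_f S j g i t

private theorem TNEX_key (S : FB X) (i : Fin S.n) (g0 : G) (t0 : ℝ) (ht0 : |t0| < 1) :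
    ∃ Ψ : (Fin 3 → Fin 3 → ℝ) × ℝ → ℝ, ContDiffAt ℝ 1 Ψ (g0.1, t0) ∧
      ∀ᶠ p : G × ℝ in 𝓝 (g0, t0), TNEX_W S p.1 i p.2 = Ψ (p.1.1, p.2) := by
  choose Ψ h1 h2 using fun j => TNEX_local S i j g0 t0 ht0
  refine ⟨fun p => ∑ j, Ψ j p, ContDiffAt.sum fun j _ => h1 j, ?_⟩
  filter_upwards [eventually_all.2 h2] with p hp
  exact Finset.sum_congr rfl fun j _ => hp j

private theorem TNEX_slice (A : Fin 3 → Fin 3 → ℝ) (t : ℝ) :
    HasFDerivAt (fun s : ℝ => (A, s))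
      (ContinuousLinearMap.inr ℝ (Fin 3 → Fin 3 → ℝ) ℝ) t :=
  (hasFDerivAt_const A t).prodMk (hasFDerivAt_id t)

/-- `W g i` is differentiable with derivative given by the local model -/
private theorem TNEX_der (S : FB X) (i : Fin S.n) (g : G) (t : ℝ)
    (Ψ : (Fin 3 → Fin 3 → ℝ) × ℝ → ℝ) (hΨ : DifferentiableAt ℝ Ψ (g.1, t))
    (he : ∀ᶠ p : G × ℝ in 𝓝 (g, t), TNEX_W S p.1 i p.2 = Ψ (p.1.1, p.2)) :
    HasDerivAt (TNEX_W S g i) (fderiv ℝ Ψ (g.1, t) (0, 1)) t := by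
  have h1 : HasFDerivAt (fun s : ℝ => Ψ ((g.1 : Fin 3 → Fin 3 → ℝ), s))
      ((fderiv ℝ Ψ (g.1, t)).comp (ContinuousLinearMap.inr ℝ (Fin 3 → Fin 3 → ℝ) ℝ)) t :=
    HasFDerivAt.comp t hΨ.hasFDerivAt (TNEX_slice g.1 t)
  have h2 := h1.hasDerivAt
  have h3 : (fun s => TNEX_W S g i s) =ᶠ[𝓝 t] fun s : ℝ => Ψ ((g.1 : Fin 3 → Fin 3 → ℝ), s) := by
    have hc : Tendsto (fun s : ℝ => (g, s)) (𝓝 t) (𝓝 (g, t)) := by
      have : Continuous (fun s : ℝ => (g, s)) := by fun_prop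
      exact this.continuousAt
    exact hc.eventually he
  exact h2.congr_of_eventuallyEq h3

/-- TNEX -/
theorem exists_TN {X : Type} [MetricSpace X] [CompactSpace X] [MulAction G X]
    [ContinuousSMul G X] (S : FB X) : Nonempty (TN S) := by
  refine ⟨{ W := TNEX_W S, W' := fun g i t => deriv (TNEX_W S g i) t, pos := ?_, cont := ?_,
            der := ?_, cont' := ?_, rule := ?_ }⟩
  · intro g i t ht
    obtain ⟨j, h, τ, hh, hτ, hx⟩ := S.cover (g • S.c i t)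
    have hρ : S.ρ1 < S.ρ0 := by have h1 := S.hρ; have h2 := S.hρ1; linarith
    have hτ1 : |τ| < 1 := by linarith
    have harr := TNEX_arr S ht hτ1 hx
    have h1 : 0 < TNEX_f S j g i t := by
      rw [TNEX_f_eq S j g i t h τ (hh.trans hρ) hτ1 hx]
      exact mul_pos (TNEX_b_pos S h τ hh hτ) (abs_pos.2 (S.dτ_ne_zero harr))
    exact h1.trans_le (Finset.single_le_sum (f := fun j => TNEX_f S j g i t)
      (fun j _ => TNEX_f_nonneg S j g i t) (Finset.mem_univ j))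
  · rintro i ⟨g0, t0⟩ ht0
    obtain ⟨Ψ, h1, h2⟩ := TNEX_key S i g0 t0 ht0
    refine ContinuousAt.continuousWithinAt ?_
    have h3 : ContinuousAt (fun p : G × ℝ => Ψ (p.1.1, p.2)) (g0, t0) :=
      ContinuousAt.comp (f := fun p : G × ℝ => ((p.1.1 : Fin 3 → Fin 3 → ℝ), p.2)) (x := (g0, t0))
        h1.continuousAt (TNEX_val_cont g0 t0)
    exact h3.congr_of_eventuallyEq h2
  · intro g i t ht
    obtain ⟨Ψ, h1, h2⟩ := TNEX_key S i g t ht
    have h3 := TNEX_der S i g t Ψ (h1.differentiableAt (by norm_num)) h2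
    rw [h3.deriv]
    exact h3
  · rintro i ⟨g0, t0⟩ ht0
    obtain ⟨Ψ, h1, h2⟩ := TNEX_key S i g0 t0 ht0
    refine ContinuousAt.continuousWithinAt ?_
    have h4 : ContDiffAt ℝ 0 (fderiv ℝ Ψ) (g0.1, t0) := h1.fderiv_right (by norm_num)
    have h5 : ContinuousAt (fun q => fderiv ℝ Ψ q (0, 1)) ((g0.1 : Fin 3 → Fin 3 → ℝ), t0) :=
      (h4.clm_apply contDiffAt_const).continuousAt
    have h6 : ContinuousAt (fun p : G × ℝ => fderiv ℝ Ψ ((p.1.1 : Fin 3 → Fin 3 → ℝ), p.2) (0, 1)) (g0, t0) :=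
      ContinuousAt.comp (f := fun p : G × ℝ => ((p.1.1 : Fin 3 → Fin 3 → ℝ), p.2)) (x := (g0, t0))
        h5 (TNEX_val_cont g0 t0)
    refine h6.congr_of_eventuallyEq ?_
    have h7 : ∀ᶠ q in 𝓝 ((g0.1 : Fin 3 → Fin 3 → ℝ), t0), DifferentiableAt ℝ Ψ q := by
      filter_upwards [h1.eventually (by norm_num)] with q hq
      exact hq.differentiableAt (by norm_num)
    have h8 : ∀ᶠ p : G × ℝ in 𝓝 (g0, t0), DifferentiableAt ℝ Ψ ((p.1.1 : Fin 3 → Fin 3 → ℝ), p.2) :=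
      (TNEX_val_cont g0 t0).eventually h7
    filter_upwards [h8, h2.eventually_nhds] with p p8 p2
    exact (TNEX_der S i p.1 p.2 Ψ p8 p2).deriv
  · intro i j' t τ' k harr g
    unfold TNEX_W
    rw [Finset.sum_mul]
    refine Finset.sum_congr rfl fun j _ => ?_
    obtain ⟨ht, hτ', hc⟩ := harr
    have hx0 : g • S.c i t = (g * k) • S.c j' τ' := by
      rw [hc, mul_smul]
    by_cases hhas : TNEX_has S j (g • S.c i t)
    · obtain ⟨⟨h, τ⟩, hh, hτ, hx⟩ := hhas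
      have hx' : (g * k) • S.c j' τ' = h • S.c j τ := hx0.symm.trans hx
      rw [TNEX_f_eq S j g i t h τ hh hτ hx, TNEX_f_eq S j (g * k) j' τ' h τ hh hτ hx']
      have harr2 := TNEX_arr S hτ' hτ hx'
      have h1 := S.dτ_trans (⟨ht, hτ', hc⟩ : S.Arr i j' t τ' k) harr2
      have h2 : k * ((g * k)⁻¹ * h) = g⁻¹ * h := by group
      rw [h2] at h1
      rw [h1, abs_mul]
      ring
    · have hhas' : ¬ TNEX_has S j ((g * k) • S.c j' τ') := by
        rwa [← hx0]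
      unfold TNEX_f
      rw [if_neg hhas, if_neg hhas', zero_mul]

end Pool.Agent.H88.LF
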