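import Pool.Agent.H88.LF.LJG
import Pool.Agent.H88.LF.ORB
import Pool.Agent.H88.LF.RATE
import Pool.Agent.H88.LF.NET
import Pool.Agent.H88.LF.INV
import Pool.Agent.H88.LF.MUEX
import Pool.Agent.H88.LF.TNEX

/-!
# E81 (blueprint 8.1): a compact orbit has no side free of compact orbits
-/

set_option autoImplicit false

open MeasureTheory Set Filter
open scoped Topology ENNReal

namespace Pool.Agent.H88.LF

variable {X : Type} [MetricSpace X] [CompactSpace X] [MulAction G X] [ContinuousSMul G X]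

/-- all points of the orbit have the one-sided property -/
theorem e81_side (S : FB X) (i : Fin S.n) (t0 σ : ℝ) (ht0 : |t0| < 1)
    (hσ : σ = 1 ∨ σ = -1) (Ω : Set X)
    (hΩ : ∀ (g : G), ∀ x ∈ Ω, g • x ∈ Ω)
    (h : ∃ r > 0, ∀ s, 0 < s → s < r → S.c i (t0 + σ * s) ∈ Ω) (g : G) :
    ∃ σ' : ℝ, (σ' = 1 ∨ σ' = -1) ∧ ∃ r > 0, ∀ s, 0 < s → s < r →
      S.cur (g • S.c i t0) (σ' * s) ∈ Ω := by
  obtain ⟨h1, h2, h3⟩ := S.rep_spec (g • S.c i t0)
  have harr : S.Arr i (S.ri (g • S.c i t0)) t0 (S.rt (g • S.c i t0))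
      (g⁻¹ * S.rh (g • S.c i t0)) := by
    refine ⟨ht0, h2.trans (by norm_num), ?_⟩
    rw [mul_smul, ← h3, inv_smul_smul]
  obtain ⟨σ', hσ', r, hr, hr'⟩ := S.one_sided harr Ω hΩ σ hσ h
  refine ⟨σ', hσ', r, hr, fun s hs hsr => ?_⟩
  unfold FB.cur
  exact hΩ _ _ (hr' s hs hsr)

theorem e81_union {α : Type} (F : Finset G) (A : G → Set G) (ψ : G → ℝ≥0∞) :
    ∫⁻ k in (⋃ f ∈ F, A f), ψ k ∂hG ≤ ∑ f ∈ F, ∫⁻ k in A f, ψ k ∂hG := by
  classical
  induction F using Finset.induction_on with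
  | empty => simp
  | insert f F hf ih =>
    rw [Finset.set_biUnion_insert, Finset.sum_insert hf]
    exact (lintegral_union_le _ _ _).trans (add_le_add le_rfl ih)

theorem e81_shift (ρ' : ℝ) (f : G) (ψ : G → ℝ≥0∞) :
    ∫⁻ k in {k : G | k * f⁻¹ ∈ Bl ρ'}, ψ k ∂hG = ∫⁻ b in Bl ρ', ψ (b * f) ∂hG := by
  have hA : MeasurableSet {k : G | k * f⁻¹ ∈ Bl ρ'} :=
    (measurableSet_Bl ρ').preimage (measurable_mul_const f⁻¹)
  rw [← lintegral_indicator hA, ← lintegral_indicator (measurableSet_Bl ρ'),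
    ← lintegral_mul_right _ f]
  refine lintegral_congr fun b => ?_
  by_cases hb : b ∈ Bl ρ'
  · rw [indicator_of_mem hb, indicator_of_mem]
    show b * f * f⁻¹ ∈ Bl ρ'
    rw [mul_inv_cancel_right]
    exact hb
  · rw [indicator_of_notMem hb, indicator_of_notMem]
    intro h
    have h' : b * f * f⁻¹ ∈ Bl ρ' := h
    rw [mul_inv_cancel_right] at h'
    exact hb h'

/-- the integral with respect to the orbit measure -/
theorem e81_orbit [MeasurableSpace X] [BorelSpace X] (x0 : X) (lam : Measure X) (K1 : Set G)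
    (hlam : ∀ E : Set X, MeasurableSet E → lam E ≤ hG {k | k ∈ K1 ∧ k • x0 ∈ E})
    (F : Finset G) (ρ' : ℝ) (hF : ∀ q ∈ K1, ∃ f ∈ F, q * f⁻¹ ∈ Bl ρ')
    (φ : X → ℝ≥0∞) (hφ : Measurable φ) :
    ∫⁻ y, φ y ∂lam ≤ ∑ f ∈ F, ∫⁻ b in Bl ρ', φ (b • f • x0) ∂hG := by
  have hcont : Continuous (fun k : G => k • x0) := continuous_id.smul continuous_const
  have h1 : lam ≤ (hG.restrict K1).map (fun k : G => k • x0) := by
    rw [Measure.le_iff]
    intro E hE
    rw [Measure.map_apply hcont.measurable hE, Measure.restrict_apply (hcont.measurable hE)]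
    refine (hlam E hE).trans (le_of_eq ?_)
    congr 1
    ext k
    exact and_comm
  have h2 : ∫⁻ y, φ y ∂lam ≤ ∫⁻ y, φ y ∂((hG.restrict K1).map (fun k : G => k • x0)) :=
    lintegral_mono' h1 le_rfl
  rw [lintegral_map hφ hcont.measurable] at h2
  refine h2.trans ?_
  have h3 : K1 ⊆ ⋃ f ∈ F, {k : G | k * f⁻¹ ∈ Bl ρ'} := by
    intro q hq
    obtain ⟨f, hf, hqf⟩ := hF q hq
    exact mem_biUnion (x := f) hf hqf
  refine (lintegral_mono_set h3).trans ((e81_union (α := G) F _ _).trans (le_of_eq ?_))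
  refine Finset.sum_congr rfl fun f _ => ?_
  rw [e81_shift]
  refine lintegral_congr fun b => ?_
  rw [mul_smul]

theorem e81_tendsto (B κ : ℝ) (hκ : 0 < κ) :
    Tendsto (fun n : ℕ => ENNReal.ofReal (B * Real.exp (-(n : ℝ) / κ))) atTop (𝓝 0) := by
  have h1 : Tendsto (fun n : ℕ => -(n : ℝ) / κ) atTop atBot := by
    have h2 : Tendsto (fun n : ℕ => (n : ℝ) / κ) atTop atTop :=
      tendsto_natCast_atTop_atTop.atTop_div_const hκ
    have h3 := tendsto_neg_atTop_atBot.comp h2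
    refine h3.congr fun n => ?_
    simp [neg_div]
  have h2 : Tendsto (fun n : ℕ => B * Real.exp (-(n : ℝ) / κ)) atTop (𝓝 (B * 0)) :=
    (Real.tendsto_exp_atBot.comp h1).const_mul B
  rw [mul_zero] at h2
  have h3 := ENNReal.tendsto_ofReal h2
  rwa [ENNReal.ofReal_zero] at h3

/-- E81.  Let `T`, `μ`, `R` be as provided by `exists_TN`, `exists_mu`, `koop` (Borel structure on `X`); `Ω` is NIV by `niv_of_no_co`.  Every point of the orbit of `c i t0` has
the same one-sided property: `g • c i t0 = h • c j τ` (normal representation) and `FB.one_sided` gives `cur (g • c i t0) (σ' s) ∈ Ω` for small `s > 0`.  Fix one regular `θ` of norm `1`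
(`exists_net`).  `orbit_measure` gives `lam` and `K1`; cover `K1` by finitely many `Bl ρ' * f_l` (`exists_finite_cover`), `x = c i t0`:
`∫ J(D(nθ),y)^s dlam(y) ≤ ∫_{K1} J(D(nθ),k x)^s dk ≤ ∑_l ∫_{Bl ρ'} J(D(nθ), b f_l x)^s db ≤ C ∑_l ∫_{Bl ρ'} J(D(nθ) b, f_l x)^s db → 0` by `rate` (`J(D(nθ)b,y) = J(D(nθ),by)J(b,y)`).
Contradiction to `lintegral_J_ge` for large `n`. -/
theorem no_one_sided_CO (S : FB X) (i : Fin S.n) (t0 σ : ℝ) (ht0 : |t0| < 1)
    (hσ : σ = 1 ∨ σ = -1) (hCO : CO (S.c i t0)) (Ω : Set X) (hΩo : IsOpen Ω)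
    (hΩ : ∀ (g : G), ∀ x ∈ Ω, g • x ∈ Ω) (hno : ∀ x ∈ Ω, ¬ CO x)
    (h : ∃ r > 0, ∀ s, 0 < s → s < r → S.c i (t0 + σ * s) ∈ Ω) : False := by
  letI : MeasurableSpace X := borel X
  haveI : BorelSpace X := ⟨rfl⟩
  obtain ⟨T⟩ := exists_TN S
  obtain ⟨μ, hμ⟩ := exists_mu T
  haveI : IsFiniteMeasure μ := hμ.1
  obtain ⟨R, hR⟩ := koop μ hμ.kd
  have hniv : NIV R Ω := niv_of_no_co hμ R hR Ω hno
  have hside := e81_side S i t0 σ ht0 hσ Ω hΩ h
  choose σ' hσ' r' hr' hcur using hside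
  obtain ⟨N, hN1, hN2⟩ := exists_net 1 one_pos
  obtain ⟨θ, hθN, -⟩ := hN2 (1, 0) (by simp [Prod.norm_def])
  obtain ⟨hθ, hθ1⟩ := hN1 θ hθN
  obtain ⟨C0, hC0⟩ := T.exists_growth
  have hC01 : 1 ≤ C0 := hC0.1
  obtain ⟨ρ', hρ', hρ'1, hrate⟩ := rate hμ R hR C0 hC0 θ hθ hθ1
  obtain ⟨ρ, hρ, hulf⟩ := S.ulf
  obtain ⟨lam, K1, hK1, hfin, hne, hinv, hlam⟩ := orbit_measure (S.c i t0) hCO ρ hρ
    (fun k hk hnd => hulf (S.c i t0) k hnd hk)
  obtain ⟨F, hFK, hF⟩ := exists_finite_cover hK1 hρ'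
  obtain ⟨C, hC1, hJC⟩ := T.J_bound (isCompact_Bl ρ')
  have hCpos : 0 < C := by linarith
  choose Cf hCf hCf' using fun g : G => hrate (r' g) (hr' g)
  obtain ⟨s, hs⟩ : ∃ s : ℝ, s = 1 / (16 * (C0 + 1)) := ⟨_, rfl⟩
  have hs0 : 0 < s := by rw [hs]; positivity
  -- the estimate
  have hmain : ∀ n : ℕ, lam univ ≤ ENNReal.ofReal
      ((C ^ s * ∑ f ∈ F, Cf f) * Real.exp (-(n : ℝ) / (64 * (C0 + 1)))) := by
    intro n
    refine (lintegral_J_ge T lam hinv (D ((n : ℝ) • θ)) s hs0).trans ?_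
    have hmeas : Measurable (fun y : X => ENNReal.ofReal (T.J (D ((n : ℝ) • θ)) y ^ s)) := by
      have h1 : Continuous (fun y : X => T.J (D ((n : ℝ) • θ)) y) :=
        T.continuous_J.comp (continuous_const.prodMk continuous_id)
      exact ENNReal.measurable_ofReal.comp
        ((h1.rpow_const fun y => Or.inl (T.J_pos _ y).ne').measurable)
    refine (e81_orbit (S.c i t0) lam K1 hlam F ρ' hF _ hmeas).trans ?_
    have h1 : ∀ f ∈ F, ∫⁻ b in Bl ρ', ENNReal.ofReal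
        (T.J (D ((n : ℝ) • θ)) (b • f • S.c i t0) ^ s) ∂hG ≤
        ENNReal.ofReal (C ^ s * Cf f * Real.exp (-(n : ℝ) / (64 * (C0 + 1)))) := by
      intro f _
      have h2 : ∀ b ∈ Bl ρ', ENNReal.ofReal (T.J (D ((n : ℝ) • θ)) (b • f • S.c i t0) ^ s) ≤
          ENNReal.ofReal (C ^ s) *
            ENNReal.ofReal (T.J (D ((n : ℝ) • θ) * b) (f • S.c i t0) ^ s) := by
        intro b hb
        rw [← ENNReal.ofReal_mul (Real.rpow_nonneg hCpos.le s),
          ← Real.mul_rpow hCpos.le (T.J_pos _ _).le]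
        refine ENNReal.ofReal_le_ofReal (Real.rpow_le_rpow (T.J_pos _ _).le ?_ hs0.le)
        have h3 := (hJC b hb (f • S.c i t0)).1
        rw [T.J_mul]
        have h4 := T.J_pos (D ((n : ℝ) • θ)) (b • f • S.c i t0)
        have h5 : T.J (D ((n : ℝ) • θ)) (b • f • S.c i t0) * C⁻¹ ≤
            T.J (D ((n : ℝ) • θ)) (b • f • S.c i t0) * T.J b (f • S.c i t0) :=
          mul_le_mul_of_nonneg_left h3 h4.le
        calc T.J (D ((n : ℝ) • θ)) (b • f • S.c i t0)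
            = C * (T.J (D ((n : ℝ) • θ)) (b • f • S.c i t0) * C⁻¹) := by
              field_simp
          _ ≤ C * (T.J (D ((n : ℝ) • θ)) (b • f • S.c i t0) * T.J b (f • S.c i t0)) :=
              mul_le_mul_of_nonneg_left h5 hCpos.le
      have h3 : ∫⁻ b in Bl ρ', ENNReal.ofReal
          (T.J (D ((n : ℝ) • θ)) (b • f • S.c i t0) ^ s) ∂hG ≤
          ∫⁻ b in Bl ρ', ENNReal.ofReal (C ^ s) *
            ENNReal.ofReal (T.J (D ((n : ℝ) • θ) * b) (f • S.c i t0) ^ s) ∂hG :=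
        setLIntegral_mono' (measurableSet_Bl ρ') h2
      refine h3.trans ?_
      rw [lintegral_const_mul' _ _ ENNReal.ofReal_ne_top, mul_assoc,
        ENNReal.ofReal_mul (Real.rpow_nonneg hCpos.le s)]
      refine mul_le_mul_right ?_ _
      rw [hs]
      exact hCf' f Ω hΩo.measurableSet hΩ hniv (f • S.c i t0) (σ' f) (hσ' f)
        (fun t ht1 ht2 => hcur f t ht1 ht2) n
    refine (Finset.sum_le_sum h1).trans (le_of_eq ?_)
    rw [← ENNReal.ofReal_sum_of_nonneg]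
    · congr 1
      rw [Finset.mul_sum, Finset.sum_mul]
    · intro f _
      have := hCf f
      have := Real.rpow_nonneg hCpos.le s
      positivity
  have hlim := e81_tendsto (C ^ s * ∑ f ∈ F, Cf f) (64 * (C0 + 1)) (by positivity)
  exact hne (le_antisymm (ge_of_tendsto' hlim hmain) zero_le)

end Pool.Agent.H88.LF
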