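import Pool.Agent.H88.LF.D1A
import Pool.Agent.H88.LF.E81

/-!
# D1B (blueprint 8.2, second half)

Local dynamics.  `h_γ = τf i i t0 t0 γ` for `γ ∈ F`: strictly increasing and continuous on `[t0-δ1,t0+δ1]`, `h_γ(t0) = t0`, `h_{γ⁻¹}(h_γ t) = t` there (`FB.near`: composition of the
continuations of `γ` and `γ⁻¹`), and `c i (h_γ t)` is in the orbit of `c i t`.  Take the right side; `Z = {t ∈ [t0,t0+δ] : h_γ t = t for all γ ∈ F}` is closed, `t0 ∈ Z`.  If some `t1 ∈ (t0,t0+δ]` is not in `Z` let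
`p = sSup (Z ∩ [t0,t1]) ∈ Z`, `p < t1`, `(p,t1] ∩ Z = ∅`.  Claim: no `t ∈ (p,t1)` has `CO (c i t)`.  Otherwise `{s ∈ (p,t1) : c i s ∈ G c i t}` is finite (`finite_plaques`) and nonempty; let `p'` be its minimum.
For `γ ∈ F`: `h_γ p' > h_γ p = p`, and `h_γ p' < t1` would put it in the set, so `h_γ p' ≥ p'` in any case; the same for `γ⁻¹`, so `p' ≥ h_γ p'`, `h_γ p' = p'`, `p' ∈ Z`: contradiction.
`Ω = {g • c i s : s ∈ (p,t1)}` is open (`isOpen_sat`), invariant, without CO points, and `CO (c i p)` by `d1a` (`p ∈ Z`): contradiction to `no_one_sided_CO` at `p`, `σ = 1`.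
So `Z = [t0,t0+δ]`.  The left side is the same with `σ = -1`.  Then `d1a` gives the compact set.
-/

set_option autoImplicit false

open MeasureTheory Set Filter
open scoped Topology

namespace Pool.Agent.H88.LF

/-- The gap argument in dimension one. -/
theorem d1b_gap {ι : Type*} [DecidableEq ι] (F : Finset ι) (inv : ι → ι)
    (hinv : ∀ γ ∈ F, inv γ ∈ F) (h : ι → ℝ → ℝ) (R : ℝ → ℝ → Prop) (δ δ1 : ℝ)
    (hδ1 : δ ≤ δ1)
    (h0 : ∀ γ ∈ F, h γ 0 = 0)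
    (hmono : ∀ γ ∈ F, StrictMonoOn (h γ) (Icc 0 δ1))
    (hcont : ∀ γ ∈ F, ContinuousOn (h γ) (Icc 0 δ1))
    (hmaps : ∀ γ ∈ F, ∀ t ∈ Icc 0 δ, h γ t ≤ δ1)
    (hleft : ∀ γ ∈ F, ∀ t ∈ Icc 0 δ, h (inv γ) (h γ t) = t)
    (hRs : ∀ s t u, R s t → R t u → R s u) (hRr : ∀ s, R s s)
    (hR : ∀ γ ∈ F, ∀ t ∈ Icc 0 δ, R (h γ t) t)
    (hno : ∀ p t1 : ℝ, 0 ≤ p → p < t1 → t1 ≤ δ → (∀ γ ∈ F, h γ p = p) →
      (∀ t, p < t → t < t1 → ¬ Set.Finite {s : ℝ | p < s ∧ s < t1 ∧ R s t}) → False) :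
    ∀ t ∈ Icc 0 δ, ∀ γ ∈ F, h γ t = t := by
  by_contra hcon
  push Not at hcon
  obtain ⟨t1, ht1, γ1, hγ1, hne⟩ := hcon
  -- the closed set of common fixed points in `[0,t1]`
  set Z : Set ℝ := {t | t ∈ Icc 0 t1 ∧ ∀ γ ∈ F, h γ t = t} with hZ
  have hsub : Icc 0 t1 ⊆ Icc 0 δ1 := Icc_subset_Icc_right (ht1.2.trans hδ1)
  have hZc : IsClosed Z := by
    have h1 : Z = Icc 0 t1 ∩ ⋂ γ ∈ F, {t | t ∈ Icc 0 t1 ∧ h γ t = t} := by
      ext t
      simp only [hZ, mem_ofPred_eq, mem_inter_iff, mem_iInter]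
      constructor
      · rintro ⟨h1, h2⟩
        exact ⟨h1, fun γ hγ => ⟨h1, h2 γ hγ⟩⟩
      · rintro ⟨h1, h2⟩
        exact ⟨h1, fun γ hγ => (h2 γ hγ).2⟩
    rw [h1]
    refine isClosed_Icc.inter (isClosed_biInter (fun γ hγ => ?_))
    have h2 : ContinuousOn (fun t => h γ t - t) (Icc 0 t1) :=
      ((hcont γ hγ).mono hsub).sub continuousOn_id
    have h3 := h2.preimage_isClosed_of_isClosed isClosed_Icc (isClosed_singleton (x := (0 : ℝ)))
    have h4 : {t | t ∈ Icc 0 t1 ∧ h γ t = t} = Icc 0 t1 ∩ (fun t => h γ t - t) ⁻¹' {0} := by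
      ext t
      simp only [mem_ofPred_eq, mem_inter_iff, mem_preimage, mem_singleton_iff, sub_eq_zero]
    rw [h4]
    exact h3
  have hZ0 : (0 : ℝ) ∈ Z := ⟨⟨le_rfl, ht1.1⟩, fun γ hγ => h0 γ hγ⟩
  have hZb : BddAbove Z := ⟨t1, fun t ht => ht.1.2⟩
  set p : ℝ := sSup Z with hp
  have hpZ : p ∈ Z := hZc.csSup_mem ⟨0, hZ0⟩ hZb
  have hpt1 : p < t1 := by
    rcases lt_or_eq_of_le hpZ.1.2 with h1 | h1
    · exact h1
    · exact absurd (h1 ▸ hpZ.2 γ1 hγ1) hne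
  refine hno p t1 hpZ.1.1 hpt1 ht1.2 hpZ.2 ?_
  intro t ht htt1 hfin
  obtain ⟨p', hp'm, hmin⟩ := Set.exists_min_image _ id hfin ⟨t, ht, htt1, hRr t⟩
  obtain ⟨hp1, hp2, hp3⟩ := hp'm
  have hp0 : 0 ≤ p' := hpZ.1.1.trans hp1.le
  have hp'δ : p' ∈ Icc 0 δ := ⟨hp0, hp2.le.trans ht1.2⟩
  have hp'δ1 : p' ∈ Icc 0 δ1 := ⟨hp0, hp'δ.2.trans hδ1⟩
  have hpδ1 : p ∈ Icc 0 δ1 := hsub hpZ.1
  have hge : ∀ γ ∈ F, p' ≤ h γ p' := by
    intro γ hγ
    by_contra hlt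
    push Not at hlt
    have h1 : p < h γ p' := by
      have := hmono γ hγ hpδ1 hp'δ1 hp1
      rwa [hpZ.2 γ hγ] at this
    have h2 := hmin (h γ p') ⟨h1, hlt.trans hp2, hRs _ _ _ (hR γ hγ p' hp'δ) hp3⟩
    simp only [id] at h2
    linarith
  have hfix : ∀ γ ∈ F, h γ p' = p' := by
    intro γ hγ
    refine le_antisymm ?_ (hge γ hγ)
    by_contra hlt
    push Not at hlt
    have h1 : h γ p' ∈ Icc 0 δ1 := ⟨hp0.trans (hge γ hγ), hmaps γ hγ p' hp'δ⟩
    have h2 := hmono (inv γ) (hinv γ hγ) hp'δ1 h1 hlt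
    rw [hleft γ hγ p' hp'δ] at h2
    have h3 := hge (inv γ) (hinv γ hγ)
    linarith
  have h5 : p' ≤ p := le_csSup hZb ⟨⟨hp0, hp2.le⟩, hfix⟩
  linarith

variable {X : Type} [MetricSpace X] [CompactSpace X] [MulAction G X] [ContinuousSMul G X]

theorem d1b_local (S : FB X) (i : Fin S.n) (t0 : ℝ) (γ : G)
    (h : S.Arr i i t0 t0 γ) (hd : 0 < S.dτ i i t0 t0 γ) :
    (∀ᶠ t in 𝓝 t0, 0 < deriv (S.τf i i t0 t0 γ) t ∧
      S.c i t = S.kf i i t0 t0 γ t • S.c i (S.τf i i t0 t0 γ t)) ∧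
    (∀ᶠ t in 𝓝 t0, S.τf i i t0 t0 γ⁻¹ (S.τf i i t0 t0 γ t) = t) := by
  obtain ⟨h1, h2, h3, h4, h5, h6⟩ := S.kf_τf_spec h
  refine ⟨?_, ?_⟩
  · have e1 : ∀ᶠ t in 𝓝 t0, 0 < deriv (S.τf i i t0 t0 γ) t :=
      (FBA3_deriv_cont h4).eventually (lt_mem_nhds hd)
    filter_upwards [e1, h6] with t g1 g2
    exact ⟨g1, g2⟩
  · obtain ⟨ε, hε, hn⟩ := S.near (S.arr_symm h)
    have hkc := S.continuousAt_kf h
    have hτc := fba_continuousAt_τf S h
    have e1 : ∀ᶠ t in 𝓝 t0, |S.τf i i t0 t0 γ t - t0| < ε := by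
      have h7 : ContinuousAt (fun t => |S.τf i i t0 t0 γ t - t0|) t0 :=
        (hτc.sub continuousAt_const).abs
      refine h7.eventually_lt continuousAt_const ?_
      simp only [h2, sub_self, abs_zero]
      exact hε
    have e2 : ∀ᶠ t in 𝓝 t0, nd (γ⁻¹⁻¹ * (S.kf i i t0 t0 γ t)⁻¹) < ε := by
      have h8 := fba_eventually_nd hkc.inv hε
      simp only [Pi.inv_apply, h1] at h8
      exact h8
    filter_upwards [e1, e2, S.eventually_arr h] with t g1 g2 g3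
    exact ((hn _ t _ g1 g2 (S.arr_symm g3)).2).symm

/-- One side of `t0`. -/
theorem d1b_side (S : FB X) (i : Fin S.n) (t0 : ℝ) (ht0 : |t0| < 1)
    (F : Finset G) (hF : ∀ γ ∈ F, S.Arr i i t0 t0 γ ∧ 0 < S.dτ i i t0 t0 γ ∧ γ⁻¹ ∈ F)
    (K : Set G) (hK : IsCompact K) (δa : ℝ) (hδa : 0 < δa)
    (hKa : ∀ t, |t - t0| < δa →
        (∀ γ ∈ F, S.τf i i t0 t0 γ t = t) → ∀ g : G, ∃ k ∈ K, g • S.c i t = k • S.c i t)
    (σ : ℝ) (hσ : σ = 1 ∨ σ = -1) :
    ∃ δ > 0, ∀ s ∈ Icc 0 δ, ∀ γ ∈ F, S.τf i i t0 t0 γ (t0 + σ * s) = t0 + σ * s := by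
  classical
  have hσσ : σ * σ = 1 := by rcases hσ with h | h <;> rw [h] <;> norm_num
  have hσabs : |σ| = 1 := by rcases hσ with h | h <;> rw [h] <;> norm_num
  -- all the local statements on one interval
  have hr0 : 0 < (1 - |t0|) / 2 := by linarith
  have e1 : ∀ᶠ t in 𝓝 t0, ∀ γ ∈ F, 0 < deriv (S.τf i i t0 t0 γ) t ∧
      S.c i t = S.kf i i t0 t0 γ t • S.c i (S.τf i i t0 t0 γ t) := by
    rw [Finset.eventually_all]
    exact fun γ hγ => (d1b_local S i t0 γ (hF γ hγ).1 (hF γ hγ).2.1).1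
  obtain ⟨r1, hr1, hall1⟩ := Metric.eventually_nhds_iff.1 e1
  set δ1 : ℝ := min (r1 / 2) (min (δa / 2) ((1 - |t0|) / 2)) with hδ1def
  have hδ1 : 0 < δ1 := lt_min (by linarith) (lt_min (by linarith) hr0)
  have hδ1r : δ1 < r1 := lt_of_le_of_lt (min_le_left _ _) (by linarith)
  have hδ1a : δ1 < δa := lt_of_le_of_lt ((min_le_right _ _).trans (min_le_left _ _)) (by linarith)
  have hδ1b : δ1 ≤ (1 - |t0|) / 2 := (min_le_right _ _).trans (min_le_right _ _)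
  have e2 : ∀ᶠ t in 𝓝 t0, ∀ γ ∈ F, |S.τf i i t0 t0 γ t - t0| < δ1 ∧
      S.τf i i t0 t0 γ⁻¹ (S.τf i i t0 t0 γ t) = t := by
    rw [Finset.eventually_all]
    intro γ hγ
    have h1 := (S.kf_τf_spec (hF γ hγ).1).2.1
    have e3 : ∀ᶠ t in 𝓝 t0, |S.τf i i t0 t0 γ t - t0| < δ1 := by
      have h7 : ContinuousAt (fun t => |S.τf i i t0 t0 γ t - t0|) t0 :=
        ((fba_continuousAt_τf S (hF γ hγ).1).sub continuousAt_const).abs
      refine h7.eventually_lt continuousAt_const ?_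
      simp only [h1, sub_self, abs_zero]
      exact hδ1
    filter_upwards [e3, (d1b_local S i t0 γ (hF γ hγ).1 (hF γ hγ).2.1).2] with t g1 g2
    exact ⟨g1, g2⟩
  obtain ⟨r2, hr2, hall2⟩ := Metric.eventually_nhds_iff.1 e2
  set δ : ℝ := min (r2 / 2) δ1 with hδdef
  have hδ : 0 < δ := lt_min (by linarith) hδ1
  have hδr2 : δ < r2 := lt_of_le_of_lt (min_le_left _ _) (by linarith)
  have hδδ1 : δ ≤ δ1 := min_le_right _ _
  have hdist : ∀ s : ℝ, 0 ≤ s → dist (t0 + σ * s) t0 = s := by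
    intro s hs
    rw [Real.dist_eq, add_sub_cancel_left, abs_mul, hσabs, one_mul, abs_of_nonneg hs]
  have habs : ∀ s : ℝ, 0 ≤ s → |t0 + σ * s - t0| = s := by
    intro s hs
    rw [← Real.dist_eq]
    exact hdist s hs
  have hlt1 : ∀ s : ℝ, 0 ≤ s → s ≤ δ1 → |t0 + σ * s| ≤ (1 + |t0|) / 2 := by
    intro s hs hs1
    have h1 := abs_add_le t0 (σ * s)
    rw [abs_mul, hσabs, one_mul, abs_of_nonneg hs] at h1
    linarith
  have hr : (1 + |t0|) / 2 < 1 := by linarith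
  -- properties of the functions
  let h : G → ℝ → ℝ := fun γ s => σ * (S.τf i i t0 t0 γ (t0 + σ * s) - t0)
  have hback : ∀ γ s, t0 + σ * h γ s = S.τf i i t0 t0 γ (t0 + σ * s) := by
    intro γ s
    show t0 + σ * (σ * (S.τf i i t0 t0 γ (t0 + σ * s) - t0)) = _
    rw [← mul_assoc, hσσ]
    ring
  have hderiv : ∀ γ ∈ F, ∀ s ∈ Icc 0 δ1,
      HasDerivAt (h γ) (deriv (S.τf i i t0 t0 γ) (t0 + σ * s)) s := by
    intro γ hγ s hs
    have h1 := (hall1 (y := t0 + σ * s) (by rw [hdist s hs.1]; linarith [hs.2]) γ hγ).1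
    have h2 : DifferentiableAt ℝ (S.τf i i t0 t0 γ) (t0 + σ * s) :=
      differentiableAt_of_deriv_ne_zero h1.ne'
    have h3 : HasDerivAt (fun s => t0 + σ * s) σ s := by
      have := ((hasDerivAt_id s).const_mul σ).const_add t0
      simpa using this
    have h4 := (h2.hasDerivAt.comp s h3)
    have h5 := (h4.sub_const t0).const_mul σ
    have h6 : σ * (deriv (S.τf i i t0 t0 γ) (t0 + σ * s) * σ) =
        deriv (S.τf i i t0 t0 γ) (t0 + σ * s) := by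
      rw [mul_comm (deriv _ _) σ, ← mul_assoc, hσσ, one_mul]
    rw [h6] at h5
    exact h5
  have hmain := d1b_gap F (fun γ => γ⁻¹) (fun γ hγ => (hF γ hγ).2.2) h
    (fun s t => ∃ g : G, S.c i (t0 + σ * s) = g • S.c i (t0 + σ * t)) δ δ1 hδδ1
    (by
      intro γ hγ
      have h1 := (S.kf_τf_spec (hF γ hγ).1).2.1
      show σ * (S.τf i i t0 t0 γ (t0 + σ * 0) - t0) = 0
      rw [mul_zero, add_zero, h1, sub_self, mul_zero])
    (by
      intro γ hγ
      refine strictMonoOn_of_deriv_pos (convex_Icc _ _)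
        (fun s hs => (hderiv γ hγ s hs).continuousAt.continuousWithinAt) ?_
      intro s hs
      rw [interior_Icc] at hs
      have hs' : s ∈ Icc 0 δ1 := ⟨hs.1.le, hs.2.le⟩
      rw [(hderiv γ hγ s hs').deriv]
      exact (hall1 (y := t0 + σ * s) (by rw [hdist s hs'.1]; linarith [hs'.2]) γ hγ).1)
    (fun γ hγ s hs => (hderiv γ hγ s hs).continuousAt.continuousWithinAt)
    (by
      intro γ hγ s hs
      have h1 := (hall2 (y := t0 + σ * s) (by rw [hdist s hs.1]; linarith [hs.2]) γ hγ).1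
      refine (le_abs_self _).trans ?_
      show |σ * (S.τf i i t0 t0 γ (t0 + σ * s) - t0)| ≤ δ1
      rw [abs_mul, hσabs, one_mul]
      exact h1.le)
    (by
      intro γ hγ s hs
      have h1 := (hall2 (y := t0 + σ * s) (by rw [hdist s hs.1]; linarith [hs.2]) γ hγ).2
      show σ * (S.τf i i t0 t0 γ⁻¹ (t0 + σ * h γ s) - t0) = s
      rw [hback, h1, add_sub_cancel_left, ← mul_assoc, hσσ, one_mul])
    (by
      rintro s t u ⟨g, hg⟩ ⟨g', hg'⟩
      exact ⟨g * g', by rw [hg, hg', mul_smul]⟩)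
    (fun s => ⟨1, (one_smul _ _).symm⟩)
    (by
      intro γ hγ s hs
      have h1 := (hall1 (y := t0 + σ * s) (by rw [hdist s hs.1]; linarith [hs.2]) γ hγ).2
      refine ⟨(S.kf i i t0 t0 γ (t0 + σ * s))⁻¹, ?_⟩
      rw [hback, eq_inv_smul_iff]
      exact h1.symm)
    (by
      intro p s1 hp hps1 hs1 hfix hinf
      have hp1 : p ≤ δ1 := hps1.le.trans (hs1.trans hδδ1)
      -- the parameter interval
      set I : Set ℝ := {t | ∃ s, p < s ∧ s < s1 ∧ t = t0 + σ * s} with hI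
      have hIeq : I = (fun t => σ * (t - t0)) ⁻¹' (Ioo p s1) := by
        ext t
        constructor
        · rintro ⟨s, h1, h2, rfl⟩
          show σ * (t0 + σ * s - t0) ∈ Ioo p s1
          rw [add_sub_cancel_left, ← mul_assoc, hσσ, one_mul]
          exact ⟨h1, h2⟩
        · intro ht
          refine ⟨σ * (t - t0), ht.1, ht.2, ?_⟩
          rw [← mul_assoc, hσσ]
          ring
      have hIo : IsOpen I := by
        rw [hIeq]
        exact isOpen_Ioo.preimage (by fun_prop)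
      have hI1 : ∀ t ∈ I, |t| < 1 := by
        rintro t ⟨s, h1, h2, rfl⟩
        exact (hlt1 s (hp.trans h1.le) (h2.le.trans (hs1.trans hδδ1))).trans_lt hr
      have hCOp : CO (S.c i (t0 + σ * p)) := by
        refine ⟨K, hK, hKa _ ?_ ?_⟩
        · rw [habs p hp]
          linarith
        · intro γ hγ
          rw [← hback, hfix γ hγ]
      refine no_one_sided_CO S i (t0 + σ * p) σ ((hlt1 p hp hp1).trans_lt hr) hσ hCOp
        {x : X | ∃ (g : G), ∃ t ∈ I, x = g • S.c i t} (S.isOpen_sat i I hIo hI1) ?_ ?_ ?_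
      · rintro g x ⟨g', t, ht, rfl⟩
        exact ⟨g * g', t, ht, by rw [mul_smul]⟩
      · rintro x ⟨g', t, ⟨s, h1, h2, rfl⟩, rfl⟩ hCOx
        rw [CO_smul_iff] at hCOx
        obtain ⟨K', hK', hK'x⟩ := hCOx
        refine hinf s h1 h2 ?_
        have h3 := S.finite_plaques (S.c i (t0 + σ * s)) K' hK' i ((1 + |t0|) / 2) hr
        have h4 : Function.Injective (fun s : ℝ => t0 + σ * s) := by
          intro a b hab
          have h5 : σ * a = σ * b := add_left_cancel hab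
          have h6 : σ * (σ * a) = σ * (σ * b) := by rw [h5]
          rwa [← mul_assoc, ← mul_assoc, hσσ, one_mul, one_mul] at h6
        refine (h3.preimage h4.injOn).subset ?_
        rintro u ⟨hu1, hu2, g, hg⟩
        refine ⟨hlt1 u (hp.trans hu1.le) (hu2.le.trans (hs1.trans hδδ1)), ?_⟩
        obtain ⟨k, hk, hgk⟩ := hK'x g
        exact ⟨k, hk, hg.trans hgk⟩
      · refine ⟨s1 - p, by linarith, ?_⟩
        intro s hs0 hs1'
        refine ⟨1, t0 + σ * p + σ * s, ⟨p + s, by linarith, by linarith, by ring⟩, ?_⟩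
        rw [one_smul])
  refine ⟨δ, hδ, fun s hs γ hγ => ?_⟩
  rw [← hback, hmain s hs γ hγ]

/-- D1': orbits near a compact orbit are uniformly compact. -/
theorem d1 (S : FB X) (i : Fin S.n) (t0 : ℝ) (ht0 : |t0| < 1) (hCO : CO (S.c i t0)) :
    ∃ K : Set G, IsCompact K ∧ ∃ δ > 0, ∀ t, |t - t0| < δ →
      ∀ g : G, ∃ k ∈ K, g • S.c i t = k • S.c i t := by
  obtain ⟨F, hF, K, hK, δa, hδa, hKa⟩ := d1a S i t0 ht0 hCO
  obtain ⟨δp, hδp, hp⟩ := d1b_side S i t0 ht0 F hF K hK δa hδa hKa 1 (Or.inl rfl)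
  obtain ⟨δm, hδm, hm⟩ := d1b_side S i t0 ht0 F hF K hK δa hδa hKa (-1) (Or.inr rfl)
  refine ⟨K, hK, min δa (min δp δm), lt_min hδa (lt_min hδp hδm), ?_⟩
  intro t ht
  have h1 : |t - t0| < δa := ht.trans_le (min_le_left _ _)
  have h2 : |t - t0| < δp := ht.trans_le ((min_le_right _ _).trans (min_le_left _ _))
  have h3 : |t - t0| < δm := ht.trans_le ((min_le_right _ _).trans (min_le_right _ _))
  refine hKa t h1 ?_
  intro γ hγ
  rcases le_total t0 t with h4 | h4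
  · have h5 := hp (t - t0) ⟨by linarith, (le_abs_self _).trans h2.le⟩ γ hγ
    have h6 : t0 + 1 * (t - t0) = t := by ring
    rwa [h6] at h5
  · have h5 := hm (t0 - t) ⟨by linarith, by
      rw [abs_sub_comm] at h3
      exact (le_abs_self _).trans h3.le⟩ γ hγ
    have h6 : t0 + -1 * (t0 - t) = t := by ring
    rwa [h6] at h5

end Pool.Agent.H88.LF
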