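import Pool.Agent.H88.LF.Defs
import Pool.Agent.H29.DEC.Main
import Pool.Agent.H29.DEC.Mau
import Pool.Agent.H29.DEC.Grp

/-!
# DEC (blueprint section 3): exponential decay of averaged matrix coefficients

The abstract theorem (representations of the euclidean plane normalised by rotations and a hyperbolic
dilation) is `Pool.H29.DEC.VRep.decay`; Mautner's lemma is `mautner`; matrix identities in `Grp`.
This file does the averaging over rotations and the reduction.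
-/

set_option autoImplicit false

open MeasureTheory Set Filter
open scoped Topology InnerProductSpace

namespace Pool.Agent.H88.LF

open Pool.H29.DEC

private theorem dec_inner {H : Type} [NormedAddCommGroup H] [InnerProductSpace ℂ H]
    (R : URep H) (g : G) (φ ψ : H) : ⟪R.π g φ, R.π g ψ⟫_ℂ = ⟪φ, ψ⟫_ℂ := by
  let L : H →ₗᵢ[ℂ] H := ⟨(R.π g).toLinearMap, R.isom g⟩
  exact L.inner_map_map φ ψ

/-- the representation of the plane -/
private noncomputable def decV {H : Type} [NormedAddCommGroup H] [InnerProductSpace ℂ H]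
    (R : URep H) (i l m : Fin 3) (hil : i ≠ l) (him : i ≠ m) (hlm : l ≠ m) : VRep V2 H where
  N := fun x => R.π (nn i l m him hlm x)
  zero := fun φ => by rw [nn_zero, R.one]
  add := fun x y φ => by rw [nn_add i l m hil him hlm, R.mul]
  isom := fun x φ => R.isom _ φ
  cont := fun φ => (R.cont φ).comp (nn_cont i l m him hlm)

private theorem dec_D_zero : D 0 = 1 := by
  have h := D_add 0 0
  rw [add_zero] at h
  exact (mul_eq_left.mp h.symm)

private theorem dec_vs_neg (i l : Fin 3) (s : ℝ) : vs i l (-s) + vs i l s = 0 := by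
  unfold vs
  ext <;> simp <;> split_ifs <;> simp

private theorem dec_core {H : Type} [NormedAddCommGroup H] [InnerProductSpace ℂ H]
    [CompleteSpace H]
    (R : URep H) (K : Submodule ℂ H) (hKc : IsClosed (K : Set H))
    (hKi : ∀ g, ∀ φ ∈ K, R.π g φ ∈ K)
    (hK0 : ∀ φ ∈ K, (∀ g, R.π g φ = φ) → φ = 0) (i l : Fin 3) (h : i ≠ l) (s : ℝ)
    (φ ψ : H) (hφ : φ ∈ K) (hφr : ∀ θ, R.π (rot i l h θ) φ = φ)
    (hψr : ∀ θ, R.π (rot i l h θ) ψ = ψ) :
    ‖⟪ψ, R.π (D (vs i l s)) φ⟫_ℂ‖ ≤ 4 * Real.exp (-s / 2) * ‖φ‖ * ‖ψ‖ := by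
  obtain ⟨m, him, hlm⟩ : ∃ m : Fin 3, i ≠ m ∧ l ≠ m := by
    clear hφr hψr
    revert i l
    decide
  refine (decV R i l m h him hlm).decay K hKc (fun x φ hφ => hKi _ φ hφ) ?_
    (fun θ => R.π (rot i l h θ)) ?_ (fun θ φ => R.isom _ φ) s (R.π (D (vs i l s))) ?_
    (fun φ => R.isom _ φ) hφ hφr hψr
  · intro η hη hfix
    refine hK0 η hη (fun g => mautner R i m him η (fun t => ?_) g)
    have := hfix !₂[t, 0]
    change R.π (nn i l m him hlm !₂[t, 0]) η = η at this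
    rwa [nn_e0] at this
  · intro θ x η
    change R.π (rot i l h θ) (R.π (nn i l m him hlm x) η) =
      R.π (nn i l m him hlm (rot2 θ x)) (R.π (rot i l h θ) η)
    rw [← R.mul, ← R.mul, rot_nn i l m h him hlm]
  · intro x η
    change R.π (D (vs i l s)) (R.π (nn i l m him hlm x) η) =
      R.π (nn i l m him hlm (dil2 s x)) (R.π (D (vs i l s)) η)
    rw [← R.mul, ← R.mul, D_vs_nn i l m h him hlm]

private theorem dec_core' {H : Type} [NormedAddCommGroup H] [InnerProductSpace ℂ H]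
    [CompleteSpace H]
    (R : URep H) (K : Submodule ℂ H) (hKc : IsClosed (K : Set H))
    (hKi : ∀ g, ∀ φ ∈ K, R.π g φ ∈ K)
    (hK0 : ∀ φ ∈ K, (∀ g, R.π g φ = φ) → φ = 0) (i l : Fin 3) (h : i ≠ l) (s : ℝ)
    (φ ψ : H) (hφ : φ ∈ K) (hψ : ψ ∈ K) (hφr : ∀ θ, R.π (rot i l h θ) φ = φ)
    (hψr : ∀ θ, R.π (rot i l h θ) ψ = ψ) :
    ‖⟪ψ, R.π (D (vs i l s)) φ⟫_ℂ‖ ≤ 4 * Real.exp (-|s| / 2) * ‖φ‖ * ‖ψ‖ := by
  rcases le_total 0 s with hs | hs
  · rw [abs_of_nonneg hs]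
    exact dec_core R K hKc hKi hK0 i l h s φ ψ hφ hφr hψr
  · rw [abs_of_nonpos hs]
    have h1 := dec_core R K hKc hKi hK0 i l h (-s) ψ φ hψ hψr hφr
    have h2 : ⟪R.π (D (vs i l (-s))) ψ, φ⟫_ℂ = ⟪ψ, R.π (D (vs i l s)) φ⟫_ℂ := by
      rw [← dec_inner R (D (vs i l (-s))) ψ (R.π (D (vs i l s)) φ), ← R.mul, ← D_add,
        dec_vs_neg, dec_D_zero, R.one]
    rw [← h2, norm_inner_symm]
    calc ‖⟪φ, R.π (D (vs i l (-s))) ψ⟫_ℂ‖ ≤ 4 * Real.exp (-(-s) / 2) * ‖ψ‖ * ‖φ‖ := h1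
      _ = 4 * Real.exp (-(-s) / 2) * ‖φ‖ * ‖ψ‖ := by ring

section avg

variable {H : Type} [NormedAddCommGroup H] [InnerProductSpace ℂ H] [CompleteSpace H]

/-- average over the rotations -/
private noncomputable def decAv (R : URep H) (i l : Fin 3) (h : i ≠ l) (φ : H) : H :=
  ∫ θ in (0:ℝ)..(2 * Real.pi), R.π (rot i l h θ) φ

private theorem decAv_cont (R : URep H) (i l : Fin 3) (h : i ≠ l) (φ : H) :
    Continuous (fun θ => R.π (rot i l h θ) φ) :=
  (R.cont φ).comp (rot_cont i l h)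

private theorem decAv_mem (R : URep H) (i l : Fin 3) (h : i ≠ l)
    (K : Submodule ℂ H) (hKc : IsClosed (K : Set H))
    (hKi : ∀ g, ∀ φ ∈ K, R.π g φ ∈ K) (φ : H) (hφ : φ ∈ K) : decAv R i l h φ ∈ K := by
  have : CompleteSpace K := hKc.completeSpace_coe
  rw [← Submodule.starProjection_eq_self_iff (K := K), decAv,
    ← ContinuousLinearMap.intervalIntegral_comp_comm _
      ((decAv_cont R i l h φ).intervalIntegrable _ _)]
  congr 1
  funext θ
  exact Submodule.starProjection_eq_self_iff.mpr (hKi _ φ hφ)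

private theorem decAv_rot (R : URep H) (i l : Fin 3) (h : i ≠ l) (φ : H) (τ : ℝ) :
    R.π (rot i l h τ) (decAv R i l h φ) = decAv R i l h φ := by
  unfold decAv
  rw [← ContinuousLinearMap.intervalIntegral_comp_comm _
      ((decAv_cont R i l h φ).intervalIntegrable _ _)]
  have h1 : (fun θ => R.π (rot i l h τ) (R.π (rot i l h θ) φ)) =
      (fun θ => (fun θ => R.π (rot i l h θ) φ) (τ + θ)) := by
    funext θ
    rw [← R.mul, ← rot_add]
  rw [h1, intervalIntegral.integral_comp_add_left (fun θ => R.π (rot i l h θ) φ)]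
  have hp : Function.Periodic (fun θ => R.π (rot i l h θ) φ) (2 * Real.pi) := by
    intro θ
    simp only [rot_periodic]
  have h2 := hp.intervalIntegral_add_eq τ 0
  rw [zero_add] at h2
  rw [add_zero]
  exact h2

private theorem decAv_norm (R : URep H) (i l : Fin 3) (h : i ≠ l) (φ : H) :
    ‖decAv R i l h φ‖ ≤ 2 * Real.pi * ‖φ‖ := by
  unfold decAv
  have h1 := intervalIntegral.norm_integral_le_of_norm_le_const
    (a := 0) (b := 2 * Real.pi) (C := ‖φ‖) (f := fun θ => R.π (rot i l h θ) φ)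
    (fun θ _ => (R.isom _ φ).le)
  rw [sub_zero, abs_of_pos Real.two_pi_pos] at h1
  linarith

private theorem dec_double (R : URep H) (i l : Fin 3) (h : i ≠ l) (g : G) (φ ψ : H) :
    ∫ θ' in (0:ℝ)..(2 * Real.pi), ∫ θ in (0:ℝ)..(2 * Real.pi),
        inner ℂ (R.π (rot i l h θ') ψ) (R.π (g * rot i l h θ) φ) =
      ⟪decAv R i l h ψ, R.π g (decAv R i l h φ)⟫_ℂ := by
  have h1 : ∀ θ', ∫ θ in (0:ℝ)..(2 * Real.pi),
      inner ℂ (R.π (rot i l h θ') ψ) (R.π (g * rot i l h θ) φ) =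
      ⟪R.π (rot i l h θ') ψ, R.π g (decAv R i l h φ)⟫_ℂ := by
    intro θ'
    have h2 := ContinuousLinearMap.intervalIntegral_comp_comm
      ((innerSL ℂ (R.π (rot i l h θ') ψ)).comp (R.π g))
      ((decAv_cont R i l h φ).intervalIntegrable (μ := volume) 0 (2 * Real.pi))
    simp only [ContinuousLinearMap.comp_apply, innerSL_apply_apply] at h2
    rw [decAv, ← h2]
    congr 1
    funext θ
    rw [R.mul]
  simp only [h1]
  set w := R.π g (decAv R i l h φ) with hw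
  have h3 := ContinuousLinearMap.intervalIntegral_comp_comm
      (innerSL ℂ w)
      ((decAv_cont R i l h ψ).intervalIntegrable (μ := volume) 0 (2 * Real.pi))
  simp only [innerSL_apply_apply] at h3
  have h4 : ⟪decAv R i l h ψ, w⟫_ℂ = (starRingEnd ℂ) ⟪w, decAv R i l h ψ⟫_ℂ :=
    (inner_conj_symm _ _).symm
  rw [h4, decAv, ← h3, intervalIntegral.integral_of_le Real.two_pi_pos.le,
    intervalIntegral.integral_of_le Real.two_pi_pos.le, ← integral_conj]
  congr 1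
  funext θ'
  exact (inner_conj_symm _ _).symm

end avg

/-- DEC -/
theorem dec {H : Type} [NormedAddCommGroup H] [InnerProductSpace ℂ H] [CompleteSpace H]
    (R : URep H) (K : Submodule ℂ H) (hKc : IsClosed (K : Set H))
    (hKi : ∀ g, ∀ φ ∈ K, R.π g φ ∈ K)
    (hK0 : ∀ φ ∈ K, (∀ g, R.π g φ = φ) → φ = 0) (i l : Fin 3) (h : i ≠ l) (v : ℝ × ℝ)
    (φ ψ : H) (hφ : φ ∈ K) (hψ : ψ ∈ K) :
    ‖∫ θ' in (0:ℝ)..(2 * Real.pi), ∫ θ in (0:ℝ)..(2 * Real.pi),
        inner ℂ (R.π (rot i l h θ') ψ) (R.π (D v * rot i l h θ) φ)‖ ≤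
      1000 * Real.exp (-|cmp v i - cmp v l| / 4) * ‖φ‖ * ‖ψ‖ := by
  rw [dec_double]
  set s : ℝ := (cmp v i - cmp v l) / 2 with hs
  set φ0 := decAv R i l h φ with hφ0
  set ψ0 := decAv R i l h ψ with hψ0
  set φ1 := R.π (D (v - vs i l s)) φ0 with hφ1
  have hφ0K : φ0 ∈ K := decAv_mem R i l h K hKc hKi φ hφ
  have hψ0K : ψ0 ∈ K := decAv_mem R i l h K hKc hKi ψ hψ
  have hφ1K : φ1 ∈ K := hKi _ _ hφ0K
  have hφ1r : ∀ θ, R.π (rot i l h θ) φ1 = φ1 := by
    intro θ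
    rw [hφ1, ← R.mul, ← D_comm_rot i l h v θ, R.mul, hφ0, decAv_rot]
  have hψ0r : ∀ θ, R.π (rot i l h θ) ψ0 = ψ0 := fun θ => decAv_rot R i l h ψ θ
  have e1 : R.π (D v) φ0 = R.π (D (vs i l s)) φ1 := by
    rw [hφ1, ← R.mul, ← D_add]
    congr 2
    rw [add_sub_cancel]
  rw [e1]
  have hb := dec_core' R K hKc hKi hK0 i l h s φ1 ψ0 hφ1K hψ0K hφ1r hψ0r
  have hn1 : ‖φ1‖ ≤ 2 * Real.pi * ‖φ‖ := by
    rw [hφ1, R.isom]
    exact decAv_norm R i l h φ
  have hn2 : ‖ψ0‖ ≤ 2 * Real.pi * ‖ψ‖ := decAv_norm R i l h ψ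
  have hexp : Real.exp (-|s| / 2) = Real.exp (-|cmp v i - cmp v l| / 4) := by
    congr 1
    rw [hs, abs_div]
    simp
    ring
  rw [hexp] at hb
  set E := Real.exp (-|cmp v i - cmp v l| / 4) with hE
  have hE0 : 0 < E := Real.exp_pos _
  have hpi : Real.pi < 3.15 := Real.pi_lt_d2
  have hpi0 : 0 < Real.pi := Real.pi_pos
  calc ‖⟪ψ0, R.π (D (vs i l s)) φ1⟫_ℂ‖ ≤ 4 * E * ‖φ1‖ * ‖ψ0‖ := hb
    _ ≤ 4 * E * (2 * Real.pi * ‖φ‖) * (2 * Real.pi * ‖ψ‖) := by gcongr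
    _ = (16 * (Real.pi * Real.pi)) * (E * ‖φ‖ * ‖ψ‖) := by ring
    _ ≤ 1000 * (E * ‖φ‖ * ‖ψ‖) := by
        apply mul_le_mul_of_nonneg_right _ (by positivity)
        nlinarith
    _ = 1000 * E * ‖φ‖ * ‖ψ‖ := by ring

end Pool.Agent.H88.LF
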