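import Pool.Agent.H88.LF.FAM

/-!
# FLIM (blueprint 10.3)
-/

set_option autoImplicit false

open MeasureTheory Set Filter
open scoped Topology

namespace Pool.Agent.H88.LF

/-- FLIM: the log ratio -/
noncomputable def flim_F (W : G → ℝ → ℝ) (s s' : ℝ) (g : G) (v : ℝ × ℝ) : ℝ :=
  Real.log (W (D v * g) s') - Real.log (W (D v * g) s)

/-- FLIM: the increments in all directions -/
theorem flim_inc {W : G → ℝ → ℝ} {a b : ℝ} (hW : Fam W a b) {ε : ℝ} {g : G}
    (hg : g ∈ fCon W a b ε) {s s' : ℝ} (hs : s ∈ Icc a b) (hs' : s' ∈ Icc a b) :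
    ∃ C : ℝ, 0 ≤ C ∧ ∀ v w : ℝ × ℝ, ‖w‖ ≤ 1 →
      |flim_F W s s' g (v + w) - flim_F W s s' g v| ≤ C * Real.exp (-ε * ‖v‖) := by
  obtain ⟨C0, hC0⟩ := hg
  obtain ⟨C, hC, hd⟩ := hW.dist _ (isCompact_D_image 1)
  refine ⟨C * max C0 0, by positivity, fun v w hw => ?_⟩
  have h1 := hd (D w) ⟨w, hw, rfl⟩ (D v * g) s' s hs' hs
  rw [← mul_assoc, ← D_add, add_comm w v] at h1
  have h2 : flim_F W s s' g (v + w) - flim_F W s s' g v =
      (Real.log (W (D (v + w) * g) s') - Real.log (W (D v * g) s')) -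
        (Real.log (W (D (v + w) * g) s) - Real.log (W (D v * g) s)) := by
    unfold flim_F; ring
  rw [h2]
  refine h1.trans ?_
  rw [mul_assoc]
  refine mul_le_mul_of_nonneg_left ((hC0 v).trans ?_) hC.le
  exact mul_le_mul_of_nonneg_right (le_max_left _ _) (Real.exp_pos _).le

/-- Limits of ratios: for `g ∈ fCon` the logarithm of `W (D v g) s' / W (D v g) s` converges as `v → ∞` (`dist`, `conv_diag`). -/
theorem Fam.lim {W : G → ℝ → ℝ} {a b : ℝ} (hW : Fam W a b) (ε : ℝ) (hε : 0 < ε) (g : G)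
    (hg : g ∈ fCon W a b ε) (s s' : ℝ) (hs : s ∈ Icc a b) (hs' : s' ∈ Icc a b) :
    ∃ L : ℝ, Tendsto (fun v : ℝ × ℝ => Real.log (W (D v * g) s') - Real.log (W (D v * g) s))
      (cocompact (ℝ × ℝ)) (𝓝 L) := by
  obtain ⟨C, hC, hinc⟩ := flim_inc hW hg hs hs'
  obtain ⟨C', hC', hconv⟩ := conv_diag ε hε
  obtain ⟨L, hL⟩ := hconv C (flim_F W s s' g) hC hinc
  refine ⟨L, ?_⟩
  have h1 := tendsto_of_bound (ε / 2) (C' * C) (by linarith)
    (fun v => flim_F W s s' g v - L) (fun v => by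
      have := hL v
      rw [show -(ε / 2) * ‖v‖ = -ε * ‖v‖ / 2 by ring]
      exact this)
  have h2 := h1.add_const L
  simp only [sub_add_cancel, zero_add] at h2
  exact h2

/-- FLIM: a direction in which the root `i l` is not expanded -/
theorem flim_dir (i l : Fin 3) : ∃ e : ℝ × ℝ, ‖e‖ = 1 ∧ cmp e i ≤ cmp e l := by
  by_cases h : cmp (1, 1) i ≤ cmp (1, 1) l
  · exact ⟨(1, 1), by simp [Prod.norm_def], h⟩
  · refine ⟨-(1, 1), by simp [Prod.norm_def], ?_⟩
    rw [cmp_neg, cmp_neg]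
    linarith

theorem flim_seq {e : ℝ × ℝ} (he : ‖e‖ = 1) :
    Tendsto (fun n : ℕ => (n : ℝ) • e) atTop (cocompact (ℝ × ℝ)) := by
  refine tendsto_cocompact_of_tendsto_dist_comp_atTop 0 ?_
  simp only [dist_zero_right, norm_smul, he, mul_one, Real.norm_natCast]
  exact tendsto_natCast_atTop_atTop

/-- FLIM: comparison of the log ratios at `g` and `U g` -/
theorem flim_cmp {W : G → ℝ → ℝ} {a b : ℝ} (hW : Fam W a b) {ε : ℝ} (hε : 0 < ε) {g : G}
    (hg : g ∈ fCon W a b ε) {s s' : ℝ} (hs : s ∈ Icc a b) (hs' : s' ∈ Icc a b)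
    (i l : Fin 3) (hil : i ≠ l) (r : ℝ) {e : ℝ × ℝ} (he : ‖e‖ = 1) (hel : cmp e i ≤ cmp e l) :
    Tendsto (fun n : ℕ => flim_F W s s' (U i l hil r * g) ((n : ℝ) • e) -
      flim_F W s s' g ((n : ℝ) • e)) atTop (𝓝 0) := by
  obtain ⟨C0, hC0⟩ := hg
  set Q : Set G := U i l hil '' (Icc (-|r|) |r|) with hQ
  have hQc : IsCompact Q := isCompact_Icc.image (continuous_U i l hil)
  obtain ⟨C, hC, hd⟩ := hW.dist Q hQc
  have hb : ∀ n : ℕ, |flim_F W s s' (U i l hil r * g) ((n : ℝ) • e) -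
      flim_F W s s' g ((n : ℝ) • e)| ≤ C * (max C0 0 * Real.exp (-ε * n)) := by
    intro n
    set v := (n : ℝ) • e with hv
    have hvn : ‖v‖ = n := by rw [hv, norm_smul, he, mul_one, Real.norm_natCast]
    set t := Real.exp (cmp v i - cmp v l) * r with ht
    have hle : cmp v i - cmp v l ≤ 0 := by
      rw [hv, cmp_smul, cmp_smul]
      have : (0 : ℝ) ≤ n := Nat.cast_nonneg n
      nlinarith
    have htr : |t| ≤ |r| := by
      rw [ht, abs_mul, abs_of_pos (Real.exp_pos _)]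
      have h1 : Real.exp (cmp v i - cmp v l) ≤ 1 := Real.exp_le_one_iff.2 hle
      nlinarith [abs_nonneg r]
    have hmem : U i l hil t ∈ Q := ⟨t, abs_le.1 htr, rfl⟩
    have h1 := hd _ hmem (D v * g) s' s hs' hs
    have h2 : D v * (U i l hil r * g) = U i l hil t * (D v * g) := by
      rw [← mul_assoc, D_mul_U, mul_assoc]
    have h3 : flim_F W s s' (U i l hil r * g) v - flim_F W s s' g v =
        (Real.log (W (U i l hil t * (D v * g)) s') - Real.log (W (D v * g) s')) -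
          (Real.log (W (U i l hil t * (D v * g)) s) - Real.log (W (D v * g) s)) := by
      unfold flim_F; rw [h2]; ring
    rw [h3]
    refine h1.trans (mul_le_mul_of_nonneg_left ((hC0 v).trans ?_) hC.le)
    rw [hvn]
    exact mul_le_mul_of_nonneg_right (le_max_left _ _) (Real.exp_pos _).le
  refine squeeze_zero_norm (a := fun n : ℕ => C * (max C0 0 * Real.exp (-ε * n))) (fun n => ?_) ?_
  · rw [Real.norm_eq_abs]; exact hb n
  · have h1 : Tendsto (fun n : ℕ => Real.exp (-ε * n)) atTop (𝓝 0) := by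
      refine Real.tendsto_exp_atBot.comp ?_
      exact tendsto_natCast_atTop_atTop.const_mul_atTop_of_neg (by linarith)
    have h2 := (h1.const_mul (max C0 0)).const_mul C
    simpa using h2

/-- FLIM: measurability -/
theorem flim_meas {W : G → ℝ → ℝ} {a b : ℝ} (hW : Fam W a b) {s s' : ℝ} (hs : s ∈ Icc a b)
    (hs' : s' ∈ Icc a b) (v : ℝ × ℝ) : Measurable (fun g => flim_F W s s' g v) := by
  have hc : ∀ s ∈ Icc a b, Continuous (fun g : G => Real.log (W (D v * g) s)) := by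
    intro s hs
    have h1 : Continuous (fun g : G => W g s) := by
      rw [← continuousOn_univ]
      exact hW.cont.comp (continuous_id.prodMk continuous_const).continuousOn
        (fun g _ => ⟨mem_univ _, hs⟩)
    exact (h1.comp (continuous_const_mul (D v))).log (fun g => (hW.pos _ s hs).ne')
  unfold flim_F
  exact ((hc s' hs').sub (hc s hs)).measurable

/-- If `fCon` has full measure the limit is a.e. constant (half plane comparison `D v * U = U' * D v` and `dist`; measurability; `erg_fun`), and it is small for `s'` near `s` in the quantitative form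
`|L| ≤ C·len + |log W g s' - log W g s|` at any `g ∈ fCon`; only the first statement is needed here. -/
theorem Fam.lim_const {W : G → ℝ → ℝ} {a b : ℝ} (hW : Fam W a b) (ε : ℝ) (hε : 0 < ε)
    (hfull : ∀ᵐ g ∂hG, g ∈ fCon W a b ε) (s s' : ℝ) (hs : s ∈ Icc a b) (hs' : s' ∈ Icc a b) :
    ∃ L : ℝ, ∀ᵐ g ∂hG, Tendsto
      (fun v : ℝ × ℝ => Real.log (W (D v * g) s') - Real.log (W (D v * g) s))
      (cocompact (ℝ × ℝ)) (𝓝 L) := by
  have hlim : ∀ g ∈ fCon W a b ε, ∃ L : ℝ, Tendsto (flim_F W s s' g) (cocompact (ℝ × ℝ)) (𝓝 L) :=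
    fun g hg => hW.lim ε hε g hg s s' hs hs'
  have he1 : ‖((1, 1) : ℝ × ℝ)‖ = 1 := by simp [Prod.norm_def]
  have hseq := flim_seq he1
  -- a measurable version of the limit
  obtain ⟨f, hf, hfl⟩ := measurable_limit_of_tendsto_metrizable_ae (μ := (hG : Measure G))
    (f := fun (n : ℕ) (g : G) => flim_F W s s' g ((n : ℝ) • (1, 1))) (L := atTop)
    (fun n => (flim_meas hW hs hs' _).aemeasurable) (by
      filter_upwards [hfull] with g hg
      obtain ⟨L, hL⟩ := hlim g hg
      exact ⟨L, hL.comp hseq⟩)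
  have hall : ∀ᵐ g ∂(hG : Measure G), g ∈ fCon W a b ε ∧
      Tendsto (flim_F W s s' g) (cocompact (ℝ × ℝ)) (𝓝 (f g)) := by
    filter_upwards [hfull, hfl] with g hg hg2
    obtain ⟨L, hL⟩ := hlim g hg
    have : L = f g := tendsto_nhds_unique (hL.comp hseq) hg2
    exact ⟨hg, this ▸ hL⟩
  obtain ⟨c, hc⟩ := erg_fun f hf (by
    intro i l hil r
    filter_upwards [hall, ae_mul_left (U i l hil r) hall] with g hg hg2
    obtain ⟨e, he, hel⟩ := flim_dir i l
    have h1 := flim_cmp hW hε hg.1 hs hs' i l hil r he hel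
    have h2 := (hg2.2.comp (flim_seq he)).sub (hg.2.comp (flim_seq he))
    have h3 : f (U i l hil r * g) - f g = 0 := tendsto_nhds_unique h2 h1
    linarith)
  refine ⟨c, ?_⟩
  filter_upwards [hall, hc] with g hg hgc
  rw [← hgc]
  exact hg.2

end Pool.Agent.H88.LF
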