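import Pool.Agent.H88.LF.CONF
import Pool.Agent.H88.LF.FLIM

/-!
# DEN (blueprint 10.3): the invariant densities
-/

set_option autoImplicit false

open MeasureTheory Set Filter
open scoped Topology ENNReal

namespace Pool.Agent.H88.LF

/-- a sequence going to infinity in the plane -/
noncomputable def denSeq (m : ℕ) : ℝ × ℝ := (m : ℝ) • ((1 : ℝ), (0 : ℝ))

theorem den_seq_norm (m : ℕ) : ‖denSeq m‖ = m := by
  unfold denSeq
  rw [norm_smul, Prod.norm_def]
  simp

theorem den_seq_tendsto : Tendsto denSeq atTop (cocompact (ℝ × ℝ)) := by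
  rw [← Metric.cobounded_eq_cocompact, ← tendsto_norm_atTop_iff_cobounded]
  simp_rw [den_seq_norm]
  exact tendsto_natCast_atTop_atTop

theorem den_seq_zero : denSeq 0 = 0 := by simp [denSeq]

theorem den_seq_succ (m : ℕ) : D (denSeq (m + 1)) = D ((1 : ℝ), (0 : ℝ)) * D (denSeq m) := by
  rw [← D_add]
  congr 1
  unfold denSeq
  push_cast
  rw [add_smul, one_smul, add_comm]

theorem den_cont {W : G → ℝ → ℝ} {A B : ℝ} (hW : Fam W A B) (g : G) :
    ContinuousOn (W g) (Icc A B) := by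
  have h1 : ContinuousOn (fun s : ℝ => ((g, s) : G × ℝ)) (Icc A B) := by fun_prop
  exact hW.cont.comp h1 fun s hs => ⟨mem_univ _, hs⟩

/-- pointwise exponential contraction -/
theorem den_sup {W : G → ℝ → ℝ} {A B : ℝ} (hAB : A < B) (hW : Fam W A B) {ε : ℝ} (hε : 0 < ε)
    {g : G} (hg : g ∈ fCon W A B ε) :
    ∃ K : ℝ, 0 < K ∧ ∀ (v : ℝ × ℝ) (x : ℝ), x ∈ Icc A B →
      W (D v * g) x ≤ K * Real.exp (-ε * ‖v‖) := by
  obtain ⟨C, hC, hray⟩ := hW.ray ε hε
  obtain ⟨C1, hC1⟩ := hg
  obtain ⟨M, hM⟩ : ∃ M, ∀ x ∈ Icc A B, ‖Real.log (W g x)‖ ≤ M :=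
    isCompact_Icc.exists_bound_of_continuousOn
      ((den_cont hW g).log (fun x hx => (hW.pos g x hx).ne'))
  have hBA : 0 < B - A := by linarith
  refine ⟨Real.exp (C * |C1| + 2 * M) * (|C1| + 1) / (B - A), by positivity, ?_⟩
  intro v x hx
  have h1 : ∀ y ∈ Icc A B,
      W (D v * g) x ≤ Real.exp (C * |C1| + 2 * M) * W (D v * g) y := by
    intro y hy
    have h2 := hray g |C1| v (abs_nonneg _) (fun c _ _ => (hC1 _).trans
      (mul_le_mul_of_nonneg_right (le_abs_self _) (Real.exp_pos _).le)) x y hx hy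
    have h3 := hM x hx
    have h4 := hM y hy
    rw [Real.norm_eq_abs] at h3 h4
    have h5 : Real.log (W (D v * g) x) ≤ (C * |C1| + 2 * M) + Real.log (W (D v * g) y) := by
      rw [abs_le] at h2 h3 h4
      linarith [h2.1, h2.2, h3.1, h3.2, h4.1, h4.2]
    rw [← Real.exp_log (hW.pos (D v * g) x hx), ← Real.exp_log (hW.pos (D v * g) y hy),
      ← Real.exp_add]
    exact Real.exp_le_exp.2 h5
  have h6 : (B - A) * W (D v * g) x ≤
      Real.exp (C * |C1| + 2 * M) * fLen W A B (D v * g) := by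
    have hint : IntervalIntegrable (fun y => Real.exp (C * |C1| + 2 * M) * W (D v * g) y)
        volume A B := by
      apply ContinuousOn.intervalIntegrable
      rw [uIcc_of_le hAB.le]
      exact continuousOn_const.mul (den_cont hW _)
    have h7 := intervalIntegral.integral_mono_on hAB.le
      (intervalIntegrable_const (c := W (D v * g) x) (μ := volume)) hint h1
    rw [intervalIntegral.integral_const, intervalIntegral.integral_const_mul,
      smul_eq_mul] at h7
    exact h7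
  have h7 := hC1 v
  rw [div_mul_eq_mul_div, le_div_iff₀ hBA]
  have h8 : fLen W A B (D v * g) ≤ (|C1| + 1) * Real.exp (-ε * ‖v‖) := by
    refine h7.trans (mul_le_mul_of_nonneg_right ?_ (Real.exp_pos _).le)
    linarith [le_abs_self C1]
  calc W (D v * g) x * (B - A) = (B - A) * W (D v * g) x := mul_comm _ _
    _ ≤ Real.exp (C * |C1| + 2 * M) * fLen W A B (D v * g) := h6
    _ ≤ Real.exp (C * |C1| + 2 * M) * ((|C1| + 1) * Real.exp (-ε * ‖v‖)) :=
        mul_le_mul_of_nonneg_left h8 (Real.exp_pos _).le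
    _ = Real.exp (C * |C1| + 2 * M) * (|C1| + 1) * Real.exp (-ε * ‖v‖) := by ring

variable {X : Type} [MetricSpace X] [CompactSpace X] [MulAction G X] [ContinuousSMul G X]

/-- The ratio of sizes at two parameters along the sequence `denSeq`. -/
theorem den_est {S : FB X} (hS : S.Straight) (T : TN S) (i : Fin S.n) {A B : ℝ} (hA : -1 < A)
    (hAB : A < B) (hB : B < 1) {ε : ℝ} (hε : 0 < ε) {g : G}
    (hg : g ∈ fCon (fun g s => T.W g i s) A B ε) :
    ∃ C : ℝ, ∀ s s', s ∈ Icc A B → s' ∈ Icc A B → s ≤ s' → ∀ m : ℕ,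
      |(Real.log (T.W (D (denSeq m) * g) i s') - Real.log (T.W (D (denSeq m) * g) i s)) -
        (Real.log (T.W g i s') - Real.log (T.W g i s))| ≤ C * (s' - s) := by
  obtain ⟨C0, hC0, hdist⟩ := dist_int hS T _ (isCompact_D_image 1)
  have hW := fam_of_straight hS T i A B hA hAB.le hB
  obtain ⟨K, hK, hsup⟩ := den_sup hAB hW hε hg
  have hq : D ((1 : ℝ), (0 : ℝ)) ∈ D '' {v : ℝ × ℝ | ‖v‖ ≤ 1} :=
    ⟨_, by simp [Prod.norm_def], rfl⟩
  set r := Real.exp (-ε) with hr
  have hr0 : 0 < r := Real.exp_pos _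
  have hr1 : r < 1 := by rw [hr, Real.exp_lt_one_iff]; linarith
  have h1r : 0 < 1 - r := by linarith
  refine ⟨C0 * K / (1 - r), ?_⟩
  intro s s' hs hs' hss m
  have key : ∀ m : ℕ,
      |(Real.log (T.W (D (denSeq m) * g) i s') - Real.log (T.W (D (denSeq m) * g) i s)) -
        (Real.log (T.W g i s') - Real.log (T.W g i s))| ≤
        C0 * K / (1 - r) * (s' - s) * (1 - r ^ m) := by
    intro m
    induction m with
    | zero => rw [den_seq_zero, D_zero, one_mul]; simp
    | succ m ih =>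
      have h1 := hdist _ hq (D (denSeq m) * g) i s s' s s' (lt_of_lt_of_le hA hs.1) hss
        (lt_of_le_of_lt hs'.2 hB) ⟨le_refl _, hss⟩ ⟨hss, le_refl _⟩
      have h2 : fLen (fun g s => T.W g i s) s s' (D (denSeq m) * g) ≤
          (s' - s) * (K * r ^ m) := by
        have hint : IntervalIntegrable (fun y => T.W (D (denSeq m) * g) i y) volume s s' := by
          apply ContinuousOn.intervalIntegrable
          rw [uIcc_of_le hss]
          exact (den_cont hW (D (denSeq m) * g)).mono (Icc_subset_Icc hs.1 hs'.2)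
        have h3 := intervalIntegral.integral_mono_on hss hint
          (intervalIntegrable_const (c := K * r ^ m) (μ := volume)) (fun y hy => by
            have h4 := hsup (denSeq m) y ⟨hs.1.trans hy.1, hy.2.trans hs'.2⟩
            have h5 : Real.exp (-ε * ‖denSeq m‖) = r ^ m := by
              rw [den_seq_norm, hr, ← Real.exp_nat_mul, mul_comm]
            rw [h5] at h4
            exact h4)
        rw [intervalIntegral.integral_const, smul_eq_mul] at h3
        exact h3
      rw [den_seq_succ, mul_assoc]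
      have h4 : C0 * fLen (fun g s => T.W g i s) s s' (D (denSeq m) * g) ≤
          C0 * ((s' - s) * (K * r ^ m)) := mul_le_mul_of_nonneg_left h2 hC0.le
      have h5 : C0 * K / (1 - r) * (s' - s) * (1 - r ^ (m + 1)) =
          C0 * K / (1 - r) * (s' - s) * (1 - r ^ m) + C0 * ((s' - s) * (K * r ^ m)) := by
        field_simp
        ring
      rw [h5]
      have h6 := h1.trans h4
      rw [abs_le] at ih h6 ⊢
      constructor
      · linarith [ih.1, ih.2, h6.1, h6.2]
      · linarith [ih.1, ih.2, h6.1, h6.2]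
  refine (key m).trans ?_
  have h7 : 0 ≤ C0 * K / (1 - r) * (s' - s) :=
    mul_nonneg (by positivity) (by linarith)
  have h8 : 1 - r ^ m ≤ 1 := by linarith [pow_pos hr0 m]
  calc _ ≤ C0 * K / (1 - r) * (s' - s) * 1 := mul_le_mul_of_nonneg_left h8 h7
    _ = _ := mul_one _

/-- existence of the limits -/
theorem den_lim {S : FB X} (hS : S.Straight) (T : TN S) (hC : T.CStar) :
    ∃ ε : ℝ, 0 < ε ∧ (∀ (i : Fin S.n) (a b : ℝ), -1 < a → a ≤ b → b < 1 →
      ∀ᵐ g ∂hG, g ∈ fCon (fun g s => T.W g i s) a b ε) ∧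
    ∃ L : Fin S.n → ℝ → ℝ, ∀ i s, |s| < 1 → ∀ᵐ g ∂hG, Tendsto
      (fun v : ℝ × ℝ => Real.log (T.W (D v * g) i s) - Real.log (T.W (D v * g) i 0))
      (cocompact (ℝ × ℝ)) (𝓝 (L i s)) := by
  obtain ⟨ε, hε, hcon⟩ := con_full hS T hC
  refine ⟨ε, hε, hcon, ?_⟩
  have h1 : ∀ i s, |s| < 1 → ∃ L : ℝ, ∀ᵐ g ∂hG, Tendsto
      (fun v : ℝ × ℝ => Real.log (T.W (D v * g) i s) - Real.log (T.W (D v * g) i 0))
      (cocompact (ℝ × ℝ)) (𝓝 L) := by
    intro i s hs
    rw [abs_lt] at hs
    have ha : -1 < min s 0 := lt_min hs.1 (by norm_num)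
    have hb : max s 0 < 1 := max_lt hs.2 (by norm_num)
    have hab : min s 0 ≤ max s 0 := min_le_max
    exact (fam_of_straight hS T i _ _ ha hab hb).lim_const ε hε (hcon i _ _ ha hab hb) 0 s
      ⟨min_le_right _ _, le_max_right _ _⟩ ⟨min_le_left _ _, le_max_left _ _⟩
  choose! L hL using h1
  exact ⟨L, hL⟩

omit [CompactSpace X] [ContinuousSMul G X] in
theorem den_diff {S : FB X} (T : TN S) {L : Fin S.n → ℝ → ℝ}
    (hL : ∀ i s, |s| < 1 → ∀ᵐ g ∂hG, Tendsto
      (fun v : ℝ × ℝ => Real.log (T.W (D v * g) i s) - Real.log (T.W (D v * g) i 0))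
      (cocompact (ℝ × ℝ)) (𝓝 (L i s))) (i : Fin S.n) (s s' : ℝ) (hs : |s| < 1)
    (hs' : |s'| < 1) :
    ∀ᵐ g ∂hG, Tendsto
      (fun v : ℝ × ℝ => Real.log (T.W (D v * g) i s') - Real.log (T.W (D v * g) i s))
      (cocompact (ℝ × ℝ)) (𝓝 (L i s' - L i s)) := by
  filter_upwards [hL i s hs, hL i s' hs'] with g h1 h2
  have h3 := h2.sub h1
  refine h3.congr fun v => ?_
  ring

theorem den_cont_L {S : FB X} (hS : S.Straight) (T : TN S) {ε : ℝ} (hε : 0 < ε)
    (hcon : ∀ (i : Fin S.n) (a b : ℝ), -1 < a → a ≤ b → b < 1 →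
      ∀ᵐ g ∂hG, g ∈ fCon (fun g s => T.W g i s) a b ε) {L : Fin S.n → ℝ → ℝ}
    (hL : ∀ i s, |s| < 1 → ∀ᵐ g ∂hG, Tendsto
      (fun v : ℝ × ℝ => Real.log (T.W (D v * g) i s) - Real.log (T.W (D v * g) i 0))
      (cocompact (ℝ × ℝ)) (𝓝 (L i s))) (i : Fin S.n) (s : ℝ) (hs : |s| < 1) :
    ContinuousAt (L i) s := by
  have hs2 := abs_lt.1 hs
  obtain ⟨A, hA1, hA2⟩ := exists_between hs2.1
  obtain ⟨B, hB1, hB2⟩ := exists_between hs2.2
  have hAB : A < B := hA2.trans hB1
  have hmem : ∀ t ∈ Icc A B, |t| < 1 := fun t ht =>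
    abs_lt.2 ⟨lt_of_lt_of_le hA1 ht.1, lt_of_le_of_lt ht.2 hB2⟩
  apply tendsto_of_seq_tendsto
  intro x hx
  have hae : ∀ᵐ g ∂hG, ∀ n : ℕ, x n ∈ Icc A B → Tendsto
      (fun v : ℝ × ℝ => Real.log (T.W (D v * g) i (x n)) - Real.log (T.W (D v * g) i s))
      (cocompact (ℝ × ℝ)) (𝓝 (L i (x n) - L i s)) := by
    rw [ae_all_iff]
    intro n
    by_cases h : x n ∈ Icc A B
    · filter_upwards [den_diff T hL i s (x n) hs (hmem _ h)] with g hg _
      exact hg
    · exact Eventually.of_forall fun g h' => absurd h' h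
  obtain ⟨g, hg1, hg2⟩ := (hae.and (hcon i A B hA1 hAB.le hB2)).exists
  obtain ⟨C, hC⟩ := den_est hS T i hA1 hAB hB2 hε hg2
  -- the estimate in the limit
  have hlim : ∀ n : ℕ, x n ∈ Icc A B → |L i (x n) - L i s| ≤
      |Real.log (T.W g i (x n)) - Real.log (T.W g i s)| + |C| * |x n - s| := by
    intro n hn
    have h1 := (hg1 n hn).comp den_seq_tendsto
    have h2 : ∀ m : ℕ,
        |((fun v : ℝ × ℝ => Real.log (T.W (D v * g) i (x n)) - Real.log (T.W (D v * g) i s)) ∘
          denSeq) m| ≤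
        |Real.log (T.W g i (x n)) - Real.log (T.W g i s)| + |C| * |x n - s| := by
      intro m
      simp only [Function.comp]
      have hsI : s ∈ Icc A B := ⟨hA2.le, hB1.le⟩
      rcases le_total s (x n) with h | h
      · have h3 := hC s (x n) hsI hn h m
        have h4 : C * (x n - s) ≤ |C| * |x n - s| := by
          rw [← abs_mul]; exact le_abs_self _
        have h5 := abs_sub_abs_le_abs_sub
          (Real.log (T.W (D (denSeq m) * g) i (x n)) - Real.log (T.W (D (denSeq m) * g) i s))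
          (Real.log (T.W g i (x n)) - Real.log (T.W g i s))
        linarith
      · have h3 := hC (x n) s hn hsI h m
        have h4 : C * (s - x n) ≤ |C| * |x n - s| := by
          rw [← abs_mul, ← abs_neg]
          refine le_trans ?_ (le_abs_self _)
          exact le_of_eq (by ring)
        have h5 := abs_sub_abs_le_abs_sub
          (Real.log (T.W (D (denSeq m) * g) i (x n)) - Real.log (T.W (D (denSeq m) * g) i s))
          (Real.log (T.W g i (x n)) - Real.log (T.W g i s))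
        have h6 : |(Real.log (T.W (D (denSeq m) * g) i (x n)) -
            Real.log (T.W (D (denSeq m) * g) i s)) -
            (Real.log (T.W g i (x n)) - Real.log (T.W g i s))| =
            |(Real.log (T.W (D (denSeq m) * g) i s) -
              Real.log (T.W (D (denSeq m) * g) i (x n))) -
            (Real.log (T.W g i s) - Real.log (T.W g i (x n)))| := by
          rw [← abs_neg]
          congr 1
          ring
        linarith
    exact le_of_tendsto h1.abs (Eventually.of_forall h2)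
  -- conclude
  have hcW : ContinuousAt (T.W g i) s := (T.der g i s hs).continuousAt
  have hclog : ContinuousAt (fun t => Real.log (T.W g i t)) s :=
    hcW.log (T.pos g i s hs).ne'
  have h0 : Tendsto (fun n => |Real.log (T.W g i (x n)) - Real.log (T.W g i s)| +
      |C| * |x n - s|) atTop (𝓝 0) := by
    have h1 : Tendsto (fun n => Real.log (T.W g i (x n))) atTop
        (𝓝 (Real.log (T.W g i s))) := hclog.tendsto.comp hx
    have h2 := (h1.sub_const (Real.log (T.W g i s))).abs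
    have h3 := ((hx.sub_const s).abs).const_mul |C|
    have h4 := h2.add h3
    simpa using h4
  have hev : ∀ᶠ n in atTop, x n ∈ Icc A B := hx.eventually (Icc_mem_nhds hA2 hB1)
  rw [tendsto_iff_norm_sub_tendsto_zero]
  refine squeeze_zero' (Eventually.of_forall fun n => norm_nonneg _) ?_ h0
  filter_upwards [hev] with n hn
  exact hlim n hn

/-- The densities.  `r_i(s',s) = exp L` with `L` from `Fam.lim_const`; `r_i(s'',s')r_i(s',s) = r_i(s'',s)`; `ρ_i(s) = r_i(s,0)`.
Arrows (`k` constant): `W(D v g;i,s) = W(D v g k;j,τf s)|τf' s|`, right translation preserves null sets, so `r_i(s',s) = r_j(τf s',τf s)|τf' s'|/|τf' s|` for `s,s'` near `t0`.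
Continuity at `s`: on a compact segment `[a,b]` around `s` fix one `g ∈ fCon`; `|L(s',s)| ≤ |log W g s' - log W g s| + ∑ (distortion of the sub-segment `[s,s']` along a ray)`, and the length of the
sub-segment at `D v g` is `≤ C e^{-ε‖v‖}` and tends to `0` with `s' → s` for every fixed `v`: dominated convergence; or: the length of `[s,s']` at `D v g` is `≤ |s'-s| sup W(D v g;·)`, and by bounded distortion (`Fam.ray`)
`sup W(D v g;·) ≤ C len(D v g)/(b-a)`, so the sum is `≤ C|s'-s|`. -/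
theorem exists_density {S : FB X} (hS : S.Straight) (T : TN S) (hC : T.CStar) :
    ∃ r : Fin S.n → ℝ → ℝ, (∀ i s, |s| < 1 → 0 < r i s) ∧
      (∀ i s, |s| < 1 → ContinuousAt (r i) s) ∧
      ∀ i j t0 τ0 k0, S.Arr i j t0 τ0 k0 → ∃ c : ℝ, 0 < c ∧ ∀ᶠ s in 𝓝 t0,
        r j (S.τf i j t0 τ0 k0 s) * |deriv (S.τf i j t0 τ0 k0) s| = c * r i s := by
  obtain ⟨ε, hε, hcon, L, hL⟩ := den_lim hS T hC
  refine ⟨fun i s => Real.exp (L i s), fun i s _ => Real.exp_pos _, fun i s hs =>
    Real.continuous_exp.continuousAt.comp (den_cont_L hS T hε hcon hL i s hs), ?_⟩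
  intro i j t0 τ0 k0 h
  have e1 := S.eventually_arr h
  have e2 := hS.kf_const h
  have e3 := S.eventually_dτ h
  have hτ0 := (S.kf_τf_spec h).2.1
  have hd0 := (S.kf_τf_spec h).2.2.2.2.1
  have hd0' : 0 < |deriv (S.τf i j t0 τ0 k0) t0| := abs_pos.2 hd0
  refine ⟨Real.exp (L j τ0) * |deriv (S.τf i j t0 τ0 k0) t0| / Real.exp (L i t0), by positivity,
    ?_⟩
  filter_upwards [e1, e2, e3] with s h1 h2 h3
  rw [h2] at h1 h3
  have hs1 := h1.1
  have hs2 := h1.2.1
  have hrule : ∀ g : G, T.W g i s =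
      T.W (g * k0) j (S.τf i j t0 τ0 k0 s) * |deriv (S.τf i j t0 τ0 k0) s| := by
    intro g
    rw [← h3.1]
    exact T.rule i j s _ k0 h1 g
  have hrule0 : ∀ g : G, T.W g i t0 = T.W (g * k0) j τ0 * |deriv (S.τf i j t0 τ0 k0) t0| :=
    fun g => T.rule i j t0 τ0 k0 h g
  have hds : 0 < |deriv (S.τf i j t0 τ0 k0) s| := by
    have h4 := hrule 1
    have h5 := T.pos 1 i s hs1
    have h6 := T.pos (1 * k0) j _ hs2
    rw [h4] at h5
    exact pos_of_mul_pos_right h5 h6.le
  have hL1 := den_diff T hL i t0 s h.1 hs1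
  have hL2 := ae_mul_right k0 (den_diff T hL j τ0 (S.τf i j t0 τ0 k0 s) h.2.1 hs2)
  obtain ⟨g, hg1, hg2⟩ := (hL1.and hL2).exists
  have hg3 := hg2.add_const (Real.log |deriv (S.τf i j t0 τ0 k0) s| -
    Real.log |deriv (S.τf i j t0 τ0 k0) t0|)
  have heq : (fun v : ℝ × ℝ => Real.log (T.W (D v * g) i s) - Real.log (T.W (D v * g) i t0)) =
      fun v : ℝ × ℝ => (Real.log (T.W (D v * (g * k0)) j (S.τf i j t0 τ0 k0 s)) -
        Real.log (T.W (D v * (g * k0)) j τ0)) + (Real.log |deriv (S.τf i j t0 τ0 k0) s| -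
        Real.log |deriv (S.τf i j t0 τ0 k0) t0|) := by
    funext v
    rw [hrule (D v * g), hrule0 (D v * g), mul_assoc (D v) g k0,
      Real.log_mul (T.pos _ _ _ hs2).ne' hds.ne', Real.log_mul (T.pos _ _ _ h.2.1).ne' hd0'.ne']
    ring
  rw [heq] at hg1
  have huniq := tendsto_nhds_unique hg1 hg3
  have e4 : L j (S.τf i j t0 τ0 k0 s) + Real.log |deriv (S.τf i j t0 τ0 k0) s| =
      L j τ0 + Real.log |deriv (S.τf i j t0 τ0 k0) t0| - L i t0 + L i s := by linarith
  have e5 := congrArg Real.exp e4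
  rw [Real.exp_add, Real.exp_log hds, Real.exp_add, Real.exp_sub, Real.exp_add,
    Real.exp_log hd0'] at e5
  exact e5

end Pool.Agent.H88.LF
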