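import Pool.Agent.H88.LF.FBB

/-!
# FBC: the transverse norm `W` and the cocycle `J` (blueprint section 2)
-/

set_option autoImplicit false

open MeasureTheory Set Filter
open scoped Topology

namespace Pool.Agent.H88.LF

section
variable {X : Type} [TopologicalSpace X] [MulAction G X]

/-- `J` computed in any representation; from `rule`. -/
theorem TN.J_eq {S : FB X} (T : TN S) (g h : G) (i : Fin S.n) (t : ℝ) (ht : |t| < 1) :
    T.J g (h • S.c i t) = T.W (g * h) i t / T.W h i t := by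
  obtain ⟨-, h2, h3⟩ := S.rep_spec (h • S.c i t)
  unfold TN.J
  set x := h • S.c i t with hx
  set k := S.rh x with hk
  set j := S.ri x with hj
  set τ := S.rt x with hτ
  have hτ1 : |τ| < 1 := by linarith
  have harr : S.Arr i j t τ (h⁻¹ * k) := by
    refine ⟨ht, hτ1, ?_⟩
    rw [mul_smul, ← h3, hx, inv_smul_smul]
  have r1 := T.rule i j t τ _ harr (g * h)
  have r2 := T.rule i j t τ _ harr h
  rw [show g * h * (h⁻¹ * k) = g * k by group] at r1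
  rw [show h * (h⁻¹ * k) = k by group] at r2
  have p2 := T.pos h i t ht
  have p3 := T.pos k j τ hτ1
  have hd : |S.dτ i j t τ (h⁻¹ * k)| ≠ 0 := by
    intro h0
    rw [h0, mul_zero] at r2
    exact p2.ne' r2
  rw [r1, r2, mul_div_mul_right _ _ hd]

theorem FBC_half {t : ℝ} (h : |t| < 1 / 2) : |t| < 1 := by linarith

theorem TN.J_pos {S : FB X} (T : TN S) (g : G) (x : X) : 0 < T.J g x := by
  obtain ⟨-, h2, -⟩ := S.rep_spec x
  exact div_pos (T.pos _ _ _ (FBC_half h2)) (T.pos _ _ _ (FBC_half h2))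

theorem TN.J_mul {S : FB X} (T : TN S) (g h : G) (x : X) :
    T.J (g * h) x = T.J g (h • x) * T.J h x := by
  obtain ⟨-, h2, h3⟩ := S.rep_spec x
  have h4 : T.J g (h • x) =
      T.W (g * (h * S.rh x)) (S.ri x) (S.rt x) / T.W (h * S.rh x) (S.ri x) (S.rt x) := by
    conv_lhs => rw [h3, ← mul_smul]
    exact T.J_eq g (h * S.rh x) _ _ (FBC_half h2)
  have p1 := T.pos (h * S.rh x) (S.ri x) (S.rt x) (FBC_half h2)
  rw [h4]
  unfold TN.J
  rw [mul_assoc, div_mul_div_cancel₀ p1.ne']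

theorem TN.J_one {S : FB X} (T : TN S) (x : X) : T.J 1 x = 1 := by
  obtain ⟨-, h2, -⟩ := S.rep_spec x
  unfold TN.J
  rw [one_mul]
  exact div_self (T.pos _ _ _ (FBC_half h2)).ne'

theorem TN.J_inv {S : FB X} (T : TN S) (g : G) (x : X) : T.J g⁻¹ (g • x) = (T.J g x)⁻¹ := by
  have h := T.J_mul g⁻¹ g x
  rw [inv_mul_cancel, T.J_one] at h
  exact eq_inv_of_mul_eq_one_left h.symm

/-- `W(qg;i,t) = J(q, g c i t) W(g;i,t)` -/
theorem TN.W_mul {S : FB X} (T : TN S) (q g : G) (i : Fin S.n) (t : ℝ) (ht : |t| < 1) :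
    T.W (q * g) i t = T.J q (g • S.c i t) * T.W g i t := by
  rw [T.J_eq q g i t ht, div_mul_cancel₀ _ (T.pos g i t ht).ne']

theorem TN.w_pos {S : FB X} (T : TN S) (x : X) : 0 < T.w x :=
  T.pos _ _ _ (FBC_half (S.rep_spec x).2.1)

end

/-- positive continuous functions on compact sets are bounded above and below -/
theorem FBC_bound {Y : Type*} [TopologicalSpace Y] {K : Set Y} (hK : IsCompact K) {f : Y → ℝ}
    (hf : ContinuousOn f K) (hpos : ∀ y ∈ K, 0 < f y) :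
    ∃ C : ℝ, 1 ≤ C ∧ ∀ y ∈ K, C⁻¹ ≤ f y ∧ f y ≤ C := by
  obtain ⟨M, hM⟩ := hK.bddAbove_image hf
  obtain ⟨M', hM'⟩ := hK.bddAbove_image (hf.inv₀ fun y hy => (hpos y hy).ne')
  refine ⟨max 1 (max M M'), le_max_left _ _, fun y hy => ⟨?_, ?_⟩⟩
  · have h1 : (f y)⁻¹ ≤ max 1 (max M M') :=
      (hM' (mem_image_of_mem _ hy)).trans ((le_max_right _ _).trans (le_max_right _ _))
    have h2 : 0 < (f y)⁻¹ := inv_pos.2 (hpos y hy)
    have h3 := inv_anti₀ h2 h1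
    rwa [inv_inv] at h3
  · exact (hM (mem_image_of_mem _ hy)).trans ((le_max_left _ _).trans (le_max_right _ _))

/-- uniform constants over finite families -/
theorem FBC_fin {n : ℕ} {P : Fin n → ℝ → Prop} (h : ∀ i, ∃ C : ℝ, 1 ≤ C ∧ P i C)
    (hmono : ∀ i C C', 1 ≤ C → C ≤ C' → P i C → P i C') : ∃ C : ℝ, 1 ≤ C ∧ ∀ i, P i C := by
  choose c hc hP using h
  refine ⟨1 + ∑ i, c i, ?_, fun i => ?_⟩
  · have : 0 ≤ ∑ i, c i := Finset.sum_nonneg fun i _ => zero_le_one.trans (hc i)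
    linarith
  · refine hmono i _ _ (hc i) ?_ (hP i)
    have := Finset.single_le_sum (f := c) (fun i _ => zero_le_one.trans (hc i))
      (Finset.mem_univ i)
    linarith

variable {X : Type} [MetricSpace X] [CompactSpace X] [MulAction G X] [ContinuousSMul G X]

theorem TN.continuous_J {S : FB X} (T : TN S) : Continuous (fun p : G × X => T.J p.1 p.2) := by
  rw [continuous_iff_continuousAt]
  rintro ⟨g0, x0⟩
  obtain ⟨-, h2, h3⟩ := S.rep_spec x0
  set h0 := S.rh x0 with hh0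
  set i := S.ri x0 with hi
  set t0 := S.rt x0 with ht0
  have ht1 : |t0| < 1 := FBC_half h2
  intro N hN
  have hopen : IsOpen {p : G × ℝ | |p.2| < 1} :=
    isOpen_lt (continuous_abs.comp continuous_snd) continuous_const
  -- the function in coordinates
  set f : G × G × ℝ → ℝ := fun p => T.W (p.1 * p.2.1) i p.2.2 / T.W p.2.1 i p.2.2 with hf
  have hfc : ContinuousAt f (g0, h0, t0) := by
    have c1 : ContinuousAt (fun p : G × ℝ => T.W p.1 i p.2) (g0 * h0, t0) :=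
      (T.cont i).continuousAt (hopen.mem_nhds ht1)
    have c2 : ContinuousAt (fun p : G × ℝ => T.W p.1 i p.2) (h0, t0) :=
      (T.cont i).continuousAt (hopen.mem_nhds ht1)
    have e1 : ContinuousAt (fun p : G × G × ℝ => (p.1 * p.2.1, p.2.2)) (g0, h0, t0) := by
      fun_prop
    have e2 : ContinuousAt (fun p : G × G × ℝ => p.2) (g0, h0, t0) := by fun_prop
    have d1 : ContinuousAt (fun p : G × G × ℝ => T.W (p.1 * p.2.1) i p.2.2) (g0, h0, t0) :=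
      ContinuousAt.comp (g := fun p : G × ℝ => T.W p.1 i p.2)
        (f := fun p : G × G × ℝ => (p.1 * p.2.1, p.2.2)) c1 e1
    have d2 : ContinuousAt (fun p : G × G × ℝ => T.W p.2.1 i p.2.2) (g0, h0, t0) :=
      ContinuousAt.comp (g := fun p : G × ℝ => T.W p.1 i p.2)
        (f := fun p : G × G × ℝ => p.2) c2 e2
    exact d1.div d2 (T.pos _ _ _ ht1).ne'
  have hval : T.J g0 x0 = f (g0, h0, t0) := rfl
  simp only at hN
  rw [hval] at hN
  have hpre := hfc hN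
  rw [mem_map, nhds_prod_eq, mem_prod_iff] at hpre
  obtain ⟨A, hA, B, hB, hAB⟩ := hpre
  obtain ⟨V, hVB, hVo, hVm⟩ := mem_nhds_iff.1 (inter_mem hB (hopen.mem_nhds ht1))
  have himg := S.isOpen_image i V hVo (fun p hp => (hVB hp).2)
  have hx0 : x0 ∈ (fun p : G × ℝ => p.1 • S.c i p.2) '' V := ⟨(h0, t0), hVm, h3.symm⟩
  rw [mem_map, nhds_prod_eq, mem_prod_iff]
  refine ⟨A, hA, _, himg.mem_nhds hx0, ?_⟩
  rintro ⟨g, x⟩ ⟨hg, p, hp, rfl⟩
  change T.J g (p.1 • S.c i p.2) ∈ N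
  rw [T.J_eq g p.1 i p.2 (hVB hp).2]
  exact hAB (show (g, p) ∈ A ×ˢ B from ⟨hg, (hVB hp).1⟩)

theorem TN.J_bound {S : FB X} (T : TN S) {Q : Set G} (hQ : IsCompact Q) :
    ∃ C : ℝ, 1 ≤ C ∧ ∀ q ∈ Q, ∀ x : X, C⁻¹ ≤ T.J q x ∧ T.J q x ≤ C := by
  obtain ⟨C, hC, h⟩ := FBC_bound (hQ.prod (isCompact_univ (X := X))) T.continuous_J.continuousOn
    (fun p _ => T.J_pos p.1 p.2)
  exact ⟨C, hC, fun q hq x => h (q, x) ⟨hq, mem_univ _⟩⟩

theorem FBC_cpt {Q : Set G} (hQ : IsCompact Q) (r : ℝ) :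
    IsCompact (Q ×ˢ {t : ℝ | |t| ≤ r}) := by
  have : {t : ℝ | |t| ≤ r} = Icc (-r) r := by
    ext t; simp [abs_le]
  rw [this]
  exact hQ.prod isCompact_Icc

theorem TN.W_bound {S : FB X} (T : TN S) {Q : Set G} (hQ : IsCompact Q) (r : ℝ) (hr : r < 1) :
    ∃ C : ℝ, 1 ≤ C ∧ ∀ q ∈ Q, ∀ (i : Fin S.n) (t : ℝ), |t| ≤ r →
      C⁻¹ ≤ T.W q i t ∧ T.W q i t ≤ C := by
  have key : ∀ i : Fin S.n, ∃ C : ℝ, 1 ≤ C ∧ ∀ q ∈ Q, ∀ t : ℝ, |t| ≤ r →
      C⁻¹ ≤ T.W q i t ∧ T.W q i t ≤ C := by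
    intro i
    obtain ⟨C, hC, h⟩ := FBC_bound (FBC_cpt hQ r) (f := fun p : G × ℝ => T.W p.1 i p.2)
      ((T.cont i).mono fun p hp => lt_of_le_of_lt hp.2 hr)
      (fun p hp => T.pos _ _ _ (lt_of_le_of_lt hp.2 hr))
    exact ⟨C, hC, fun q hq t ht => h (q, t) ⟨hq, ht⟩⟩
  obtain ⟨C, hC, h⟩ := FBC_fin key (by
    intro i C C' h1 hCC h q hq t ht
    obtain ⟨h2, h3⟩ := h q hq t ht
    exact ⟨(inv_anti₀ (by linarith) hCC).trans h2, h3.trans hCC⟩)
  exact ⟨C, hC, fun q hq i t ht => h i q hq t ht⟩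

/-- Lipschitz bound for `log W` in `t`. -/
theorem TN.logW_lip {S : FB X} (T : TN S) {Q : Set G} (hQ : IsCompact Q) (r : ℝ) (hr : r < 1) :
    ∃ C : ℝ, 1 ≤ C ∧ ∀ q ∈ Q, ∀ (i : Fin S.n) (t t' : ℝ), |t| ≤ r → |t'| ≤ r →
      |Real.log (T.W q i t) - Real.log (T.W q i t')| ≤ C * |t - t'| := by
  have key : ∀ i : Fin S.n, ∃ C : ℝ, 1 ≤ C ∧ ∀ q ∈ Q, ∀ t : ℝ, |t| ≤ r →
      |T.W' q i t / T.W q i t| ≤ C := by
    intro i
    have hc : ContinuousOn (fun p : G × ℝ => T.W' p.1 i p.2 / T.W p.1 i p.2)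
        (Q ×ˢ {t : ℝ | |t| ≤ r}) :=
      ContinuousOn.div ((T.cont' i).mono fun p hp => lt_of_le_of_lt hp.2 hr)
        ((T.cont i).mono fun p hp => lt_of_le_of_lt hp.2 hr)
        (fun p hp => (T.pos _ _ _ (lt_of_le_of_lt hp.2 hr)).ne')
    obtain ⟨M, hM⟩ := (FBC_cpt hQ r).bddAbove_image hc.norm
    refine ⟨max 1 M, le_max_left _ _, fun q hq t ht => ?_⟩
    have := hM (mem_image_of_mem _ (show (q, t) ∈ Q ×ˢ {t : ℝ | |t| ≤ r} from ⟨hq, ht⟩))
    rw [Real.norm_eq_abs] at this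
    exact this.trans (le_max_right _ _)
  obtain ⟨C, hC, h⟩ := FBC_fin key (by
    intro i C C' _ hCC h q hq t ht
    exact (h q hq t ht).trans hCC)
  · refine ⟨C, hC, fun q hq i t t' ht ht' => ?_⟩
    have hd : ∀ s ∈ Icc (-r) r, HasDerivWithinAt (fun s => Real.log (T.W q i s))
        (T.W' q i s / T.W q i s) (Icc (-r) r) s := by
      intro s hs
      have hs1 : |s| < 1 := lt_of_le_of_lt (abs_le.2 hs) hr
      exact ((T.der q i s hs1).log (T.pos q i s hs1).ne').hasDerivWithinAt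
    have hb : ∀ s ∈ Icc (-r) r, ‖T.W' q i s / T.W q i s‖ ≤ C := by
      intro s hs
      rw [Real.norm_eq_abs]
      exact h i q hq s (abs_le.2 hs)
    have := (convex_Icc (-r) r).norm_image_sub_le_of_norm_hasDerivWithin_le hd hb
      (abs_le.1 ht') (abs_le.1 ht)
    simpa [Real.norm_eq_abs] using this

theorem TN.w_bound {S : FB X} (T : TN S) : ∃ C : ℝ, 1 ≤ C ∧ ∀ x : X, C⁻¹ ≤ T.w x ∧ T.w x ≤ C := by
  obtain ⟨C, hC, h⟩ := T.W_bound (isCompact_Bl S.ρ1) (1 / 2) (by norm_num)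
  refine ⟨C, hC, fun x => ?_⟩
  obtain ⟨h1, h2, -⟩ := S.rep_spec x
  exact h _ h1.le _ _ h2.le

/-- Growth of `J` along the diagonal group: divide `v` into `⌈‖v‖⌉` steps of length at most `1`. -/
theorem TN.J_D_bound {S : FB X} (T : TN S) :
    ∃ C0 : ℝ, 1 ≤ C0 ∧ ∀ (v : ℝ × ℝ) (x : X),
      Real.exp (-(C0 * (‖v‖ + 1))) ≤ T.J (D v) x ∧
        T.J (D v) x ≤ Real.exp (C0 * (‖v‖ + 1)) := by
  obtain ⟨C, hC, h⟩ := T.J_bound (isCompact_D_image 1)
  have hlog : 0 ≤ Real.log C := Real.log_nonneg hC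
  have hpow : ∀ (g : G), g ∈ D '' {v | ‖v‖ ≤ 1} → ∀ (m : ℕ) (x : X),
      (C⁻¹) ^ m ≤ T.J (g ^ m) x ∧ T.J (g ^ m) x ≤ C ^ m := by
    intro g hg m
    induction m with
    | zero => intro x; simp [T.J_one]
    | succ m ih =>
      intro x
      rw [pow_succ g, T.J_mul]
      obtain ⟨h1, h2⟩ := ih (g • x)
      obtain ⟨h3, h4⟩ := h g hg x
      have hCi : 0 < C⁻¹ := inv_pos.2 (by linarith)
      constructor
      · rw [pow_succ]
        exact mul_le_mul h1 h3 hCi.le (T.J_pos _ _).le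
      · rw [pow_succ]
        exact mul_le_mul h2 h4 (T.J_pos _ _).le (by positivity)
  refine ⟨2 * Real.log C + 1, by linarith, fun v x => ?_⟩
  set m : ℕ := ⌈‖v‖⌉₊ + 1 with hm
  have hm1 : ‖v‖ ≤ m := by
    rw [hm]
    push_cast
    linarith [Nat.le_ceil ‖v‖]
  have hm2 : (m : ℝ) ≤ ‖v‖ + 2 := by
    rw [hm]
    push_cast
    linarith [Nat.ceil_lt_add_one (norm_nonneg v)]
  have hm0 : (0 : ℝ) < m := by
    rw [hm]
    push_cast
    positivity
  have hv : v = (m : ℝ) • ((m : ℝ)⁻¹ • v) := by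
    rw [smul_smul, mul_inv_cancel₀ hm0.ne', one_smul]
  have hin : D ((m : ℝ)⁻¹ • v) ∈ D '' {v | ‖v‖ ≤ 1} := by
    refine ⟨_, ?_, rfl⟩
    change ‖(m : ℝ)⁻¹ • v‖ ≤ 1
    rw [norm_smul, norm_inv, Real.norm_of_nonneg hm0.le, inv_mul_le_iff₀ hm0, mul_one]
    exact hm1
  have hD : D v = D ((m : ℝ)⁻¹ • v) ^ m := by
    conv_lhs => rw [hv]
    exact D_nsmul m _
  obtain ⟨h1, h2⟩ := hpow _ hin m x
  rw [← hD] at h1 h2
  have hCm : C ^ m = Real.exp (m * Real.log C) := by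
    rw [mul_comm, Real.exp_mul, Real.exp_log (by linarith), Real.rpow_natCast]
  have hle : (m : ℝ) * Real.log C ≤ (2 * Real.log C + 1) * (‖v‖ + 1) := by
    have := norm_nonneg v
    nlinarith
  constructor
  · refine le_trans ?_ h1
    rw [inv_pow, hCm, ← Real.exp_neg]
    exact Real.exp_le_exp.2 (neg_le_neg hle)
  · refine h2.trans ?_
    rw [hCm]
    exact Real.exp_le_exp.2 hle

end Pool.Agent.H88.LF
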