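import Pool.Agent.H88.LF.FAM
import Pool.Agent.H88.LF.FBC

/-!
# DIS (blueprint section 10): bounded distortion in a straight structure
-/

set_option autoImplicit false

open MeasureTheory Set Filter
open scoped Topology ENNReal

namespace Pool.Agent.H88.LF

/-- a bound for the logarithmic derivative of `W` over compact sets -/
theorem DIS_logder {X : Type} [TopologicalSpace X] [MulAction G X] {S : FB X} (T : TN S)
    {Q : Set G} (hQ : IsCompact Q) (r : ℝ) (hr : r < 1) :
    ∃ C : ℝ, 1 ≤ C ∧ ∀ (i : Fin S.n), ∀ q ∈ Q, ∀ t : ℝ, |t| ≤ r →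
      |T.W' q i t / T.W q i t| ≤ C := by
  refine FBC_fin (P := fun i C => ∀ q ∈ Q, ∀ t : ℝ, |t| ≤ r →
      |T.W' q i t / T.W q i t| ≤ C) (fun i => ?_) ?_
  · have hc : ContinuousOn (fun p : G × ℝ => T.W' p.1 i p.2 / T.W p.1 i p.2)
        (Q ×ˢ {t : ℝ | |t| ≤ r}) :=
      ContinuousOn.div ((T.cont' i).mono fun p hp => lt_of_le_of_lt hp.2 hr)
        ((T.cont i).mono fun p hp => lt_of_le_of_lt hp.2 hr)
        (fun p hp => (T.pos _ _ _ (lt_of_le_of_lt hp.2 hr)).ne')
    obtain ⟨M, hM⟩ := (FBC_cpt hQ r).bddAbove_image hc.norm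
    refine ⟨max 1 M, le_max_left _ _, fun q hq t ht => ?_⟩
    have := hM (mem_image_of_mem _ (show (q, t) ∈ Q ×ˢ {t : ℝ | |t| ≤ r} from ⟨hq, ht⟩))
    rw [Real.norm_eq_abs] at this
    exact this.trans (le_max_right _ _)
  · intro i C C' _ hCC h q hq t ht
    exact (h q hq t ht).trans hCC

variable {X : Type} [MetricSpace X] [CompactSpace X] [MulAction G X] [ContinuousSMul G X]

omit [CompactSpace X] [ContinuousSMul G X] in
/-- the change of the logarithmic derivative in terms of the normal representation -/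
theorem DIS_eq {S : FB X} (hS : S.Straight) (T : TN S) {i j : Fin S.n} {t τ : ℝ} {k : G}
    (harr : S.Arr i j t τ k) (q g : G) :
    T.W' (q * g) i t / T.W (q * g) i t - T.W' g i t / T.W g i t =
      (T.W' (q * (g * k)) j τ / T.W (q * (g * k)) j τ - T.W' (g * k) j τ / T.W (g * k) j τ) *
        S.dτ i j t τ k := by
  have ht := harr.1
  have hτ := harr.2.1
  obtain ⟨-, hτ0, -⟩ := S.kf_τf_spec harr
  have hder := S.hasDerivAt_τf harr
  -- left side
  have h1 : HasDerivAt (fun s => Real.log (T.W (q * g) i s) - Real.log (T.W g i s))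
      (T.W' (q * g) i t / T.W (q * g) i t - T.W' g i t / T.W g i t) t :=
    ((T.der (q * g) i t ht).log (T.pos _ i t ht).ne').sub
      ((T.der g i t ht).log (T.pos _ i t ht).ne')
  -- right side
  have h2 : ∀ g' : G, HasDerivAt (fun s => Real.log (T.W g' j (S.τf i j t τ k s)))
      (T.W' g' j τ / T.W g' j τ * S.dτ i j t τ k) t := by
    intro g'
    have h3 : HasDerivAt (fun y => Real.log (T.W g' j y)) (T.W' g' j τ / T.W g' j τ)
        (S.τf i j t τ k t) := by
      rw [hτ0]
      exact (T.der g' j τ hτ).log (T.pos _ j τ hτ).ne'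
    exact h3.comp t hder
  have h4 := (h2 (q * (g * k))).sub (h2 (g * k))
  have h5 : (fun s => Real.log (T.W (q * g) i s) - Real.log (T.W g i s)) =ᶠ[𝓝 t]
      fun s => Real.log (T.W (q * (g * k)) j (S.τf i j t τ k s)) -
        Real.log (T.W (g * k) j (S.τf i j t τ k s)) := by
    filter_upwards [hS.kf_const harr, S.eventually_arr harr] with s e1 e2
    rw [e1] at e2
    have r1 := T.rule _ _ _ _ _ e2 (q * g)
    have r2 := T.rule _ _ _ _ _ e2 g
    have hd : |S.dτ i j s (S.τf i j t τ k s) k| ≠ 0 := abs_ne_zero.2 (S.dτ_ne_zero e2)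
    have p1 := (T.pos (q * g * k) j _ e2.2.1).ne'
    have p2 := (T.pos (g * k) j _ e2.2.1).ne'
    rw [r1, r2, Real.log_mul p1 hd, Real.log_mul p2 hd, mul_assoc q g k]
    ring
  have h6 := (h4.congr_of_eventuallyEq h5).unique h1
  rw [← h6]
  ring

/-- DIST.  At `(g,i,t)` let `g • c i t = h • c j τ` be the normal representation; `k = g⁻¹h` is constant along the continuation (`Straight.kf_const`), so near `t`:
`W (q'g) i s = W (q'h) j (τf s) |τf' s|` for `q' = 1, q`; the derivative of `log W(qg;i,s) - log W(g;i,s)` at `t` is `(W'(qh;j,τ)/W(qh;j,τ) - W'(h;j,τ)/W(h;j,τ)) τf'(t)`, bounded by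
`C |τf'(t)| = C W(g;i,t)/W(h;j,τ)`. -/
theorem dist_deriv {S : FB X} (hS : S.Straight) (T : TN S) (Q : Set G) (hQ : IsCompact Q) :
    ∃ C : ℝ, 0 < C ∧ ∀ q ∈ Q, ∀ (g : G) (i : Fin S.n) (t : ℝ), |t| < 1 →
      |T.W' (q * g) i t / T.W (q * g) i t - T.W' g i t / T.W g i t| ≤ C * T.W g i t := by
  obtain ⟨C1, hC1, h1⟩ := DIS_logder T (hQ.mul (isCompact_Bl S.ρ1)) (1 / 2) (by norm_num)
  obtain ⟨C2, hC2, h2⟩ := DIS_logder T (isCompact_Bl S.ρ1) (1 / 2) (by norm_num)
  obtain ⟨C3, hC3, h3⟩ := T.W_bound (isCompact_Bl S.ρ1) (1 / 2) (by norm_num)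
  refine ⟨(C1 + C2) * C3, by positivity, fun q hq g i t ht => ?_⟩
  obtain ⟨e1, e2, e3⟩ := S.rep_spec (g • S.c i t)
  set h := S.rh (g • S.c i t) with hh
  set j := S.ri (g • S.c i t) with hj
  set τ := S.rt (g • S.c i t) with hτ
  have hτ1 : |τ| < 1 := by linarith
  have harr : S.Arr i j t τ (g⁻¹ * h) := by
    refine ⟨ht, hτ1, ?_⟩
    rw [mul_smul, ← e3, inv_smul_smul]
  rw [DIS_eq hS T harr q g, mul_inv_cancel_left, abs_mul]
  have hhB : h ∈ Bl S.ρ1 := e1.le
  have b1 := h1 j (q * h) (mul_mem_mul hq hhB) τ e2.le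
  have b2 := h2 j h hhB τ e2.le
  have b3 := (h3 h hhB j τ e2.le).1
  have r1 := T.rule _ _ _ _ _ harr g
  rw [mul_inv_cancel_left] at r1
  have hW : 0 < T.W h j τ := T.pos _ _ _ hτ1
  have b4 : |S.dτ i j t τ (g⁻¹ * h)| ≤ C3 * T.W g i t := by
    rw [r1]
    have h5 : 1 ≤ C3 * T.W h j τ := by
      have h6 : C3 * C3⁻¹ = 1 := mul_inv_cancel₀ (by positivity)
      rw [← h6]
      exact mul_le_mul_of_nonneg_left b3 (by positivity)
    have h7 := mul_le_mul_of_nonneg_right h5 (abs_nonneg (S.dτ i j t τ (g⁻¹ * h)))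
    linarith
  calc |T.W' (q * h) j τ / T.W (q * h) j τ - T.W' h j τ / T.W h j τ| *
        |S.dτ i j t τ (g⁻¹ * h)|
      ≤ (C1 + C2) * (C3 * T.W g i t) := by
        refine mul_le_mul ?_ b4 (abs_nonneg _) (by positivity)
        exact (abs_sub _ _).trans (add_le_add b1 b2)
    _ = (C1 + C2) * C3 * T.W g i t := by ring

theorem DIS_cont {X : Type} [TopologicalSpace X] [MulAction G X] {S : FB X} (T : TN S) (g : G)
    (i : Fin S.n) {a b : ℝ} (ha : -1 < a) (hb : b < 1) : ContinuousOn (T.W g i) (Icc a b) := by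
  have h1 : ContinuousOn (fun s : ℝ => ((g, s) : G × ℝ)) (Icc a b) := by fun_prop
  exact (T.cont i).comp h1 fun s hs => abs_lt.2 ⟨ha.trans_le hs.1, hs.2.trans_lt hb⟩

theorem DIS_cont' {X : Type} [TopologicalSpace X] [MulAction G X] {S : FB X} (T : TN S) (g : G)
    (i : Fin S.n) {a b : ℝ} (ha : -1 < a) (hb : b < 1) : ContinuousOn (T.W' g i) (Icc a b) := by
  have h1 : ContinuousOn (fun s : ℝ => ((g, s) : G × ℝ)) (Icc a b) := by fun_prop
  exact (T.cont' i).comp h1 fun s hs => abs_lt.2 ⟨ha.trans_le hs.1, hs.2.trans_lt hb⟩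

/-- Integrated form. -/
theorem dist_int {S : FB X} (hS : S.Straight) (T : TN S) (Q : Set G) (hQ : IsCompact Q) :
    ∃ C : ℝ, 0 < C ∧ ∀ q ∈ Q, ∀ (g : G) (i : Fin S.n) (a b s s' : ℝ), -1 < a → a ≤ b → b < 1 →
      s ∈ Icc a b → s' ∈ Icc a b →
      |(Real.log (T.W (q * g) i s) - Real.log (T.W g i s)) -
        (Real.log (T.W (q * g) i s') - Real.log (T.W g i s'))| ≤
        C * fLen (fun g s => T.W g i s) a b g := by
  obtain ⟨C, hC, hd⟩ := dist_deriv hS T Q hQ
  refine ⟨C, hC, fun q hq g i a b s s' ha hab hb hs hs' => ?_⟩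
  have habs : ∀ x ∈ Icc a b, |x| < 1 := fun x hx =>
    abs_lt.2 ⟨ha.trans_le hx.1, hx.2.trans_lt hb⟩
  -- it suffices to treat `s' ≤ s`
  have key : ∀ s s', s ∈ Icc a b → s' ∈ Icc a b → s' ≤ s →
      |(Real.log (T.W (q * g) i s) - Real.log (T.W g i s)) -
        (Real.log (T.W (q * g) i s') - Real.log (T.W g i s'))| ≤
        C * fLen (fun g s => T.W g i s) a b g := by
    intro s s' hs hs' hle
    have hsub : uIcc s' s ⊆ Icc a b := by
      rw [uIcc_of_le hle]
      exact Icc_subset_Icc hs'.1 hs.2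
    have hder : ∀ x ∈ uIcc s' s,
        HasDerivAt (fun s => Real.log (T.W (q * g) i s) - Real.log (T.W g i s))
          (T.W' (q * g) i x / T.W (q * g) i x - T.W' g i x / T.W g i x) x := by
      intro x hx
      have hx1 := habs x (hsub hx)
      exact ((T.der (q * g) i x hx1).log (T.pos _ i x hx1).ne').sub
        ((T.der g i x hx1).log (T.pos _ i x hx1).ne')
    have hc : ContinuousOn (fun x => T.W' (q * g) i x / T.W (q * g) i x -
        T.W' g i x / T.W g i x) (Icc a b) := by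
      refine ContinuousOn.sub ?_ ?_
      · exact (DIS_cont' T _ i ha hb).div (DIS_cont T _ i ha hb)
          fun x hx => (T.pos _ i x (habs x hx)).ne'
      · exact (DIS_cont' T _ i ha hb).div (DIS_cont T _ i ha hb)
          fun x hx => (T.pos _ i x (habs x hx)).ne'
    have hint : IntervalIntegrable (fun x => T.W' (q * g) i x / T.W (q * g) i x -
        T.W' g i x / T.W g i x) volume s' s := (hc.mono hsub).intervalIntegrable
    have hWc : ContinuousOn (T.W g i) (Icc a b) := DIS_cont T g i ha hb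
    have hWi : IntervalIntegrable (T.W g i) volume s' s := (hWc.mono hsub).intervalIntegrable
    rw [← intervalIntegral.integral_eq_sub_of_hasDerivAt hder hint]
    have h1 : |∫ x in s'..s, (T.W' (q * g) i x / T.W (q * g) i x - T.W' g i x / T.W g i x)| ≤
        ∫ x in s'..s, C * T.W g i x := by
      refine (intervalIntegral.abs_integral_le_integral_abs hle).trans ?_
      refine intervalIntegral.integral_mono_on hle hint.abs (hWi.const_mul C) ?_
      intro x hx
      exact hd q hq g i x (habs x (hsub (by rw [uIcc_of_le hle]; exact hx)))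
    refine h1.trans ?_
    rw [intervalIntegral.integral_const_mul]
    refine mul_le_mul_of_nonneg_left ?_ hC.le
    unfold fLen
    refine intervalIntegral.integral_mono_interval hs'.1 hle hs.2 ?_ ?_
    · refine (ae_restrict_iff' measurableSet_Ioc).2 (Filter.Eventually.of_forall fun x hx => ?_)
      exact (T.pos g i x (habs x ⟨hx.1.le, hx.2⟩)).le
    · refine ContinuousOn.intervalIntegrable ?_
      rw [uIcc_of_le hab]
      exact hWc
  rcases le_total s' s with h | h
  · exact key s s' hs hs' h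
  · rw [abs_sub_comm]
    exact key s' s hs' hs h

theorem fam_of_straight {S : FB X} (hS : S.Straight) (T : TN S) (i : Fin S.n) (a b : ℝ)
    (ha : -1 < a) (hab : a ≤ b) (hb : b < 1) : Fam (fun g s => T.W g i s) a b := by
  have habs : ∀ x ∈ Icc a b, |x| < 1 := fun x hx =>
    abs_lt.2 ⟨ha.trans_le hx.1, hx.2.trans_lt hb⟩
  refine ⟨hab, fun g s hs => T.pos g i s (habs s hs), ?_, ?_, ?_⟩
  · exact (T.cont i).mono fun p hp => habs p.2 hp.2
  · intro Q hQ
    obtain ⟨C, hC, h⟩ := T.J_bound hQ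
    refine ⟨C, by linarith, fun q hq g s hs => ?_⟩
    have hs1 := habs s hs
    have h1 := T.W_mul q g i s hs1
    refine h1.le.trans ?_
    exact mul_le_mul_of_nonneg_right (h q hq _).2 (T.pos g i s hs1).le
  · intro Q hQ
    obtain ⟨C, hC, h⟩ := dist_int hS T Q hQ
    exact ⟨C, hC, fun q hq g s s' hs hs' => h q hq g i a b s s' ha hab hb hs hs'⟩

end Pool.Agent.H88.LF
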