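import Mathlib

/-!
# MP_c4fc2c_gt : definitions

`G = SL(3,ℝ)`, entrywise `ℓ¹`-size of matrices, Cartan subgroup `D v`, root groups `U i l`, rotations
`rot i l`, compact orbits `CO`, flow box structures `FB`, transverse norms `TN`.
-/

set_option autoImplicit false

open MeasureTheory Set Filter
open scoped Topology ENNReal

namespace Pool.Agent.H88.LF

/-- The group `SL(3,ℝ)`. -/
abbrev G : Type := Matrix.SpecialLinearGroup (Fin 3) ℝ

/-- Real `3 × 3` matrices. -/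
abbrev Mat : Type := Matrix (Fin 3) (Fin 3) ℝ

instance instMeasG : MeasurableSpace G := borel G
instance instBorelG : BorelSpace G := ⟨rfl⟩

theorem closedEmb_val : Topology.IsClosedEmbedding (fun g : G => (g.1 : Mat)) :=
  Matrix.SpecialLinearGroup.isClosedEmbedding_val

instance instLCMat : LocallyCompactSpace Mat :=
  inferInstanceAs (LocallyCompactSpace (Fin 3 → Fin 3 → ℝ))

instance instSCMat : SecondCountableTopology Mat :=
  inferInstanceAs (SecondCountableTopology (Fin 3 → Fin 3 → ℝ))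

instance instLCG : LocallyCompactSpace G := closedEmb_val.locallyCompactSpace

instance instSCG : SecondCountableTopology G := closedEmb_val.isEmbedding.secondCountableTopology

instance instT2G : T2Space G := closedEmb_val.isEmbedding.t2Space

/-- The sum of the absolute values of the entries; submultiplicative. -/
def nrm (A : Mat) : ℝ := ∑ i, ∑ j, |A i j|

/-- Size of `g - 1`. -/
def nd (g : G) : ℝ := nrm (g.1 - 1)

/-- The closed ball of radius `r` around `1`. -/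
def Bl (r : ℝ) : Set G := {g | nd g ≤ r}

/-- The three coordinates of `v`, with sum `0`. -/
def cmp (v : ℝ × ℝ) : Fin 3 → ℝ := ![v.1, v.2, -v.1 - v.2]

/-- The diagonal matrix with entries `exp (cmp v i)`. -/
noncomputable def D (v : ℝ × ℝ) : G :=
  ⟨Matrix.diagonal (fun i => Real.exp (cmp v i)), by
    rw [Matrix.det_diagonal, Fin.prod_univ_three, ← Real.exp_add, ← Real.exp_add]
    simp [cmp]⟩

/-- The elementary matrix `1 + s E_il`. -/
def U (i l : Fin 3) (h : i ≠ l) (s : ℝ) : G :=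
  ⟨Matrix.transvection i l s, Matrix.det_transvection_of_ne i l h s⟩

/-- The matrix of the rotation by `θ` in the plane `(i,l)`. -/
noncomputable def rotMat (i l : Fin 3) (θ : ℝ) : Mat := fun a b =>
  if a = i ∧ b = i ∨ a = l ∧ b = l then Real.cos θ
  else if a = i ∧ b = l then -Real.sin θ
  else if a = l ∧ b = i then Real.sin θ
  else if a = b then 1 else 0

theorem det_rotMat (i l : Fin 3) (h : i ≠ l) (θ : ℝ) : (rotMat i l θ).det = 1 := by
  have hs := Real.sin_sq_add_cos_sq θ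
  fin_cases i <;> fin_cases l <;> first | exact absurd rfl h | skip
  all_goals
    rw [Matrix.det_fin_three]
    simp [rotMat]
    nlinarith [hs]

/-- The rotation by `θ` in the plane `(i,l)`. -/
noncomputable def rot (i l : Fin 3) (h : i ≠ l) (θ : ℝ) : G := ⟨rotMat i l θ, det_rotMat i l h θ⟩

/-- Haar measure on `G`. -/
noncomputable abbrev hG : Measure G := Measure.haar

/-- The orbit of `x` is `K x` for a compact set `K` of group elements. -/
def CO {X : Type} [MulAction G X] (x : X) : Prop :=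
  ∃ K : Set G, IsCompact K ∧ ∀ g : G, ∃ k ∈ K, g • x = k • x

/-- Flow box structure on a `G`-space: finitely many transverse curves `c i : (-1,1) → X`. -/
structure FB (X : Type) [TopologicalSpace X] [MulAction G X] where
  /-- number of curves -/
  n : ℕ
  /-- the curves, used on `(-1,1)` -/
  c : Fin n → ℝ → X
  /-- injectivity radius -/
  ρ0 : ℝ
  /-- radius of the cores -/
  ρ1 : ℝ
  hρ1 : 0 < ρ1
  hρ : 100 * ρ1 ≤ ρ0
  hρ0 : ρ0 ≤ 1
  cont : ∀ i t, |t| < 1 → ContinuousAt (c i) t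
  inj : ∀ i (h h' : G) (t t' : ℝ), |t| < 1 → |t'| < 1 → nd h < ρ0 → nd h' < ρ0 →
    h • c i t = h' • c i t' → h = h' ∧ t = t'
  opn : ∀ i (t : ℝ), |t| < 1 → ∀ ε > 0,
    {x | ∃ (h : G) (t' : ℝ), nd h < ε ∧ |t' - t| < ε ∧ |t'| < 1 ∧ x = h • c i t'} ∈ 𝓝 (c i t)
  cover : ∀ x, ∃ i, ∃ (h : G) (t : ℝ), nd h < ρ1 ∧ |t| < 1 / 2 ∧ x = h • c i t
  trans : ∀ i j (t0 τ0 : ℝ) (k0 : G), |t0| < 1 → |τ0| < 1 → c i t0 = k0 • c j τ0 →
    ∃ (k : ℝ → G) (τ : ℝ → ℝ), k t0 = k0 ∧ τ t0 = τ0 ∧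
      (∀ a b, ContDiffAt ℝ 2 (fun t => (k t).1 a b) t0) ∧ ContDiffAt ℝ 2 τ t0 ∧
      deriv τ t0 ≠ 0 ∧ ∀ᶠ t in 𝓝 t0, c i t = k t • c j (τ t)

variable {X : Type} [TopologicalSpace X] [MulAction G X]

/-- `k` is an arrow from `(i,t)` to `(j,τ)`. -/
def FB.Arr (S : FB X) (i j : Fin S.n) (t τ : ℝ) (k : G) : Prop :=
  |t| < 1 ∧ |τ| < 1 ∧ S.c i t = k • S.c j τ

/-- The group component of the local continuation of an arrow. -/
noncomputable def FB.kf (S : FB X) (i j : Fin S.n) (t0 τ0 : ℝ) (k0 : G) : ℝ → G :=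
  open Classical in
  if h : S.Arr i j t0 τ0 k0 then (S.trans i j t0 τ0 k0 h.1 h.2.1 h.2.2).choose else fun _ => 1

/-- The transverse component of the local continuation of an arrow. -/
noncomputable def FB.τf (S : FB X) (i j : Fin S.n) (t0 τ0 : ℝ) (k0 : G) : ℝ → ℝ :=
  open Classical in
  if h : S.Arr i j t0 τ0 k0 then (S.trans i j t0 τ0 k0 h.1 h.2.1 h.2.2).choose_spec.choose
  else fun t => t

theorem FB.kf_τf_spec (S : FB X) {i j : Fin S.n} {t0 τ0 : ℝ} {k0 : G}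
    (h : S.Arr i j t0 τ0 k0) :
    S.kf i j t0 τ0 k0 t0 = k0 ∧ S.τf i j t0 τ0 k0 t0 = τ0 ∧
      (∀ a b, ContDiffAt ℝ 2 (fun t => (S.kf i j t0 τ0 k0 t).1 a b) t0) ∧
      ContDiffAt ℝ 2 (S.τf i j t0 τ0 k0) t0 ∧ deriv (S.τf i j t0 τ0 k0) t0 ≠ 0 ∧
      ∀ᶠ t in 𝓝 t0, S.c i t = S.kf i j t0 τ0 k0 t • S.c j (S.τf i j t0 τ0 k0 t) := by
  unfold FB.kf FB.τf
  rw [dif_pos h, dif_pos h]
  exact (S.trans i j t0 τ0 k0 h.1 h.2.1 h.2.2).choose_spec.choose_spec

/-- Transverse derivative of an arrow. -/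
noncomputable def FB.dτ (S : FB X) (i j : Fin S.n) (t0 τ0 : ℝ) (k0 : G) : ℝ :=
  deriv (S.τf i j t0 τ0 k0) t0

/-- Logarithmic derivative `k' k⁻¹` of the group component of an arrow. -/
noncomputable def FB.dk (S : FB X) (i j : Fin S.n) (t0 τ0 : ℝ) (k0 : G) : Mat :=
  Matrix.of (fun a b => deriv (fun t => (S.kf i j t0 τ0 k0 t).1 a b) t0) * (k0⁻¹).1

/-- A transverse norm: `W g i t` is the size of the image under `g` of the velocity of `c i`
at `t`, modulo the orbit directions. -/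
structure TN (S : FB X) where
  /-- the norm -/
  W : G → Fin S.n → ℝ → ℝ
  /-- its derivative in `t` -/
  W' : G → Fin S.n → ℝ → ℝ
  pos : ∀ g i t, |t| < 1 → 0 < W g i t
  cont : ∀ i, ContinuousOn (fun p : G × ℝ => W p.1 i p.2) {p | |p.2| < 1}
  der : ∀ g i t, |t| < 1 → HasDerivAt (W g i) (W' g i t) t
  cont' : ∀ i, ContinuousOn (fun p : G × ℝ => W' p.1 i p.2) {p | |p.2| < 1}
  rule : ∀ i j t τ k, S.Arr i j t τ k → ∀ g, W g i t = W (g * k) j τ * |S.dτ i j t τ k|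

/-- Chosen normal representation `x = rh x • c (ri x) (rt x)`: the index. -/
noncomputable def FB.ri (S : FB X) (x : X) : Fin S.n := (S.cover x).choose

/-- Chosen normal representation: the group element. -/
noncomputable def FB.rh (S : FB X) (x : X) : G := (S.cover x).choose_spec.choose

/-- Chosen normal representation: the parameter. -/
noncomputable def FB.rt (S : FB X) (x : X) : ℝ := (S.cover x).choose_spec.choose_spec.choose

theorem FB.rep_spec (S : FB X) (x : X) :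
    nd (S.rh x) < S.ρ1 ∧ |S.rt x| < 1 / 2 ∧ x = S.rh x • S.c (S.ri x) (S.rt x) :=
  (S.cover x).choose_spec.choose_spec.choose_spec

/-- The transverse curve through `x`. -/
noncomputable def FB.cur (S : FB X) (x : X) (s : ℝ) : X :=
  S.rh x • S.c (S.ri x) (S.rt x + s)

/-- The speed at `x` of the curve `cur x`. -/
noncomputable def TN.w {S : FB X} (T : TN S) (x : X) : ℝ := T.W (S.rh x) (S.ri x) (S.rt x)

/-- Transverse derivative cocycle. -/
noncomputable def TN.J {S : FB X} (T : TN S) (g : G) (x : X) : ℝ :=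
  T.W (g * S.rh x) (S.ri x) (S.rt x) / T.W (S.rh x) (S.ri x) (S.rt x)

/-- `μ` is the measure which is `W dh dt` in all flow boxes. -/
def TN.IsMu {S : FB X} (T : TN S) [MeasurableSpace X] (μ : Measure X) : Prop :=
  IsFiniteMeasure μ ∧ ∀ (i : Fin S.n) (E : Set (G × ℝ)), MeasurableSet E →
    (∀ p ∈ E, |p.2| < 1) → InjOn (fun p : G × ℝ => p.1 • S.c i p.2) E →
    μ ((fun p : G × ℝ => p.1 • S.c i p.2) '' E) =
      ∫⁻ p in E, ENNReal.ofReal (T.W p.1 i p.2) ∂(hG.prod volume)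

/-- Transitions with locally constant group component. -/
def FB.Straight (S : FB X) : Prop :=
  ∀ i j t0 τ0 k0, S.Arr i j t0 τ0 k0 →
    ∃ τ : ℝ → ℝ, τ t0 = τ0 ∧ ContDiffAt ℝ 2 τ t0 ∧ deriv τ t0 ≠ 0 ∧
      ∀ᶠ t in 𝓝 t0, S.c i t = k0 • S.c j (τ t)

/-- Transitions with locally constant group component and affine transverse component. -/
def FB.Aff (S : FB X) : Prop :=
  ∀ i j t0 τ0 k0, S.Arr i j t0 τ0 k0 →
    ∃ α : ℝ, α ≠ 0 ∧ ∀ᶠ t in 𝓝 t0, S.c i t = k0 • S.c j (τ0 + α * (t - t0))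

/-- Uniform exponential decay (C*) of the transverse derivative. -/
def TN.CStar {S : FB X} (T : TN S) : Prop :=
  ∃ s : ℝ, 0 < s ∧ ∃ ε : ℝ, 0 < ε ∧ ∃ C : ℝ, 0 < C ∧ ∃ ρ : ℝ, 0 < ρ ∧ ∀ (x : X) (v : ℝ × ℝ),
    ∫⁻ g in Bl ρ, ENNReal.ofReal (T.J (D v * g) x ^ s) ∂hG ≤
      ENNReal.ofReal (C * Real.exp (-ε * ‖v‖))

/-- A possibly infinite family of transverse curves; `preFB_toFB` extracts a flow box structure. -/
structure PreFB (X : Type) [TopologicalSpace X] [MulAction G X] where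
  /-- index type -/
  A : Type
  /-- the curves, used on `(-1,1)` -/
  c : A → ℝ → X
  /-- injectivity radii -/
  ρ : A → ℝ
  hρ : ∀ a, 0 < ρ a
  cont : ∀ a t, |t| < 1 → ContinuousAt (c a) t
  inj : ∀ a (h h' : G) (t t' : ℝ), |t| < 1 → |t'| < 1 → nd h < ρ a → nd h' < ρ a →
    h • c a t = h' • c a t' → h = h' ∧ t = t'
  opn : ∀ a (t : ℝ), |t| < 1 → ∀ ε > 0,
    {x | ∃ (h : G) (t' : ℝ), nd h < ε ∧ |t' - t| < ε ∧ |t'| < 1 ∧ x = h • c a t'} ∈ 𝓝 (c a t)
  cover : ∀ x, ∃ a, ∃ h : G, x = h • c a 0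
  trans : ∀ a b (t0 τ0 : ℝ) (k0 : G), |t0| < 1 → |τ0| < 1 → c a t0 = k0 • c b τ0 →
    ∃ (k : ℝ → G) (τ : ℝ → ℝ), k t0 = k0 ∧ τ t0 = τ0 ∧
      (∀ i j, ContDiffAt ℝ 2 (fun t => (k t).1 i j) t0) ∧ ContDiffAt ℝ 2 τ t0 ∧
      ∀ᶠ t in 𝓝 t0, c a t = k t • c b (τ t)

/-- A strongly continuous unitary representation of `G` (isometric form). -/
structure URep (H : Type) [NormedAddCommGroup H] [InnerProductSpace ℂ H] where
  /-- the operators -/
  π : G → H →L[ℂ] H
  one : ∀ φ, π 1 φ = φ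
  mul : ∀ g h φ, π (g * h) φ = π g (π h φ)
  isom : ∀ g φ, ‖π g φ‖ = ‖φ‖
  cont : ∀ φ, Continuous (fun g => π g φ)

/-- Data for the half density (Koopman) representation on `L²(Y,μ)`. -/
structure KD (Y : Type) [TopologicalSpace Y] [MeasurableSpace Y] [MulAction G Y]
    (μ : Measure Y) where
  /-- the Radon-Nikodym cocycle -/
  J : G → Y → ℝ
  pos : ∀ g y, 0 < J g y
  cont : Continuous (fun p : G × Y => J p.1 p.2)
  coc : ∀ g h y, J (g * h) y = J g (h • y) * J h y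
  qi : ∀ (g : G) (f : Y → ℝ≥0∞), Measurable f →
    ∫⁻ y, f (g⁻¹ • y) * ENNReal.ofReal (J g⁻¹ y) ∂μ = ∫⁻ y, f y ∂μ

/-- `R` is the half density representation of the data `d`. -/
def KD.IsKoop {Y : Type} [TopologicalSpace Y] [MeasurableSpace Y] [MulAction G Y]
    {μ : Measure Y} (d : KD Y μ) (R : URep (Lp ℂ 2 μ)) : Prop :=
  ∀ (g : G) (φ : Lp ℂ 2 μ), (R.π g φ : Y → ℂ) =ᵐ[μ]
    fun y => ((Real.sqrt (d.J g⁻¹ y) : ℝ) : ℂ) * (φ : Y → ℂ) (g⁻¹ • y)

/-- No nonzero invariant vector of `R` lives on `Ω`. -/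
def NIV {Y : Type} [MeasurableSpace Y] {μ : Measure Y} (R : URep (Lp ℂ 2 μ)) (Ω : Set Y) : Prop :=
  ∀ φ : Lp ℂ 2 μ, (∀ g, R.π g φ = φ) → (∀ᵐ y ∂μ, y ∉ Ω → (φ : Y → ℂ) y = 0) → φ = 0

/-- Products of `n` elements of the ball of radius `r`. -/
def BP (r : ℝ) : ℕ → Set G
  | 0 => {1}
  | n + 1 => {g | ∃ b ∈ Bl r, ∃ g' ∈ BP r n, g = b * g'}

end Pool.Agent.H88.LF
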