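import Pool.Agent.H88.LF.GBD

/-!
# GBE: ergodicity of `G` acting on itself

`H = {h : f(hg) = f(g) for a.e. g}` is a subgroup (null sets are stable under left translation)
containing all root groups, so it is `G` (`subgroup_eq_top`).  Fubini (`f` measurable): for a.e. `g`, for a.e. `h`:
`f(hg) = f(g)`; fix such a `g`; by right invariance of null sets `f` is a.e. equal to `f(g)`.
-/

set_option autoImplicit false

open MeasureTheory Set Filter
open scoped Topology ENNReal

namespace Pool.Agent.H88.LF

/-- ERG for functions. -/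
theorem erg_fun {E : Type} [MeasurableSpace E] [TopologicalSpace E]
    [TopologicalSpace.PseudoMetrizableSpace E] [BorelSpace E] [SecondCountableTopology E]
    [T2Space E] (f : G → E) (hf : Measurable f)
    (h : ∀ (i l : Fin 3) (hil : i ≠ l) (s : ℝ), ∀ᵐ g ∂hG, f (U i l hil s * g) = f g) :
    ∃ c, ∀ᵐ g ∂hG, f g = c := by
  let H : Subgroup G :=
    { carrier := {h | ∀ᵐ g ∂hG, f (h * g) = f g}
      one_mem' := by
        show ∀ᵐ g ∂hG, f (1 * g) = f g
        refine Eventually.of_forall fun g => ?_
        rw [one_mul]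
      mul_mem' := by
        intro a b ha hb
        show ∀ᵐ g ∂hG, f (a * b * g) = f g
        filter_upwards [ae_mul_left b ha, hb] with g h1 h2
        rw [mul_assoc, h1, h2]
      inv_mem' := by
        intro a ha
        show ∀ᵐ g ∂hG, f (a⁻¹ * g) = f g
        filter_upwards [ae_mul_left a⁻¹ ha] with g h1
        rw [← h1, mul_inv_cancel_left] }
  have hH : H = ⊤ := subgroup_eq_top H h
  have h1 : ∀ a : G, ∀ᵐ g ∂hG, f (a * g) = f g := by
    intro a
    have : a ∈ H := by rw [hH]; trivial
    exact this
  have hmeas : MeasurableSet {x : G × G | f (x.1 * x.2) = f x.2} :=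
    measurableSet_eq_fun (hf.comp measurable_mul) (hf.comp measurable_snd)
  have h2 : ∀ᵐ g ∂hG, ∀ᵐ a ∂hG, f (a * g) = f g :=
    (Measure.ae_ae_comm hmeas).1 (Eventually.of_forall h1)
  obtain ⟨g, hg⟩ := h2.exists
  refine ⟨f g, ?_⟩
  filter_upwards [ae_mul_right g⁻¹ hg] with a ha
  rw [← ha, inv_mul_cancel_right]

/-- ERG for sets: an almost invariant set of positive measure has full measure. -/
theorem erg_set (S : Set G) (hS : MeasurableSet S) (hpos : hG S ≠ 0)
    (h : ∀ (i l : Fin 3) (hil : i ≠ l) (s : ℝ), ∀ᵐ g ∂hG, g ∈ S → U i l hil s * g ∈ S) :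
    ∀ᵐ g ∂hG, g ∈ S := by
  classical
  obtain ⟨c, hc⟩ := erg_fun (S.indicator (fun _ => (1 : ℝ))) (measurable_const.indicator hS) (by
    intro i l hil s
    filter_upwards [h i l hil s, ae_mul_left (U i l hil s) (h i l hil (-s))] with g h1 h2
    by_cases hg : g ∈ S
    · rw [Set.indicator_of_mem hg, Set.indicator_of_mem (h1 hg)]
    · have h3 : U i l hil s * g ∉ S := by
        intro h4
        have h5 := h2 h4
        rw [← mul_assoc, U_neg, inv_mul_cancel, one_mul] at h5
        exact hg h5
      rw [Set.indicator_of_notMem hg, Set.indicator_of_notMem h3])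
  by_cases hc1 : c = 1
  · filter_upwards [hc] with g hg
    by_contra h1
    rw [Set.indicator_of_notMem h1, hc1] at hg
    exact zero_ne_one hg
  · exfalso
    apply hpos
    have h2 : ∀ᵐ g ∂hG, g ∉ S := by
      filter_upwards [hc] with g hg h1
      rw [Set.indicator_of_mem h1] at hg
      exact hc1 hg.symm
    rw [ae_iff] at h2
    simpa using h2

end Pool.Agent.H88.LF
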