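import Pool.Agent.H88.LF.GBA
import Pool.Agent.H88.LF.GBB
import Pool.Agent.H88.LF.GBD
import Pool.Agent.H88.LF.GBE
import Pool.Agent.H88.LF.CONV

/-!
# FAM (blueprint section 10): families of positive functions on `G` with bounded distortion

`W g s`, `s ∈ [a,b]`, is the transverse size; `len g = ∫_a^b W g s ds`.
-/

set_option autoImplicit false

open MeasureTheory Set Filter
open scoped Topology

namespace Pool.Agent.H88.LF

/-- length of the segment -/
noncomputable def fLen (W : G → ℝ → ℝ) (a b : ℝ) (g : G) : ℝ := ∫ s in a..b, W g s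

/-- Families with bounded distortion on `[a,b]`. -/
structure Fam (W : G → ℝ → ℝ) (a b : ℝ) : Prop where
  le : a ≤ b
  pos : ∀ g s, s ∈ Icc a b → 0 < W g s
  cont : ContinuousOn (fun p : G × ℝ => W p.1 p.2) (univ ×ˢ Icc a b)
  bd : ∀ Q : Set G, IsCompact Q → ∃ C : ℝ, 0 < C ∧ ∀ q ∈ Q, ∀ (g : G) (s : ℝ), s ∈ Icc a b →
    W (q * g) s ≤ C * W g s
  dist : ∀ Q : Set G, IsCompact Q → ∃ C : ℝ, 0 < C ∧ ∀ q ∈ Q, ∀ (g : G) (s s' : ℝ),
    s ∈ Icc a b → s' ∈ Icc a b →
    |(Real.log (W (q * g) s) - Real.log (W g s)) - (Real.log (W (q * g) s') - Real.log (W g s'))| ≤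
      C * fLen W a b g

/-- Exponential contraction of the whole segment in all directions. -/
def fCon (W : G → ℝ → ℝ) (a b ε : ℝ) : Set G :=
  {g | ∃ C : ℝ, ∀ v : ℝ × ℝ, fLen W a b (D v * g) ≤ C * Real.exp (-ε * ‖v‖)}

/-- Goodness at one parameter. -/
def fGood (W : G → ℝ → ℝ) (s ε : ℝ) : Set G :=
  {g | ∃ R : ℝ, ∀ v : ℝ × ℝ, W (D v * g) s ≤ R * Real.exp (-ε * ‖v‖)}

/-- A telescoping bound. -/
theorem FAM_tel (F : ℕ → ℝ) (A κ : ℝ) (hA : 0 ≤ A) (hκ : 0 < κ) (n : ℕ)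
    (h : ∀ k, k < n → |F (k + 1) - F k| ≤ A * Real.exp (-κ / 2) ^ k) :
    |F n - F 0| ≤ A * (1 - Real.exp (-κ / 2))⁻¹ := by
  have hr0 : 0 ≤ Real.exp (-κ / 2) := (Real.exp_pos _).le
  have hr1 : Real.exp (-κ / 2) < 1 := by
    rw [Real.exp_lt_one_iff]
    linarith
  have h1 : |F n - F 0| ≤ ∑ k ∈ Finset.range n, A * Real.exp (-κ / 2) ^ k := by
    rw [← Finset.sum_range_sub F n]
    refine (Finset.abs_sum_le_sum_abs _ _).trans ?_
    exact Finset.sum_le_sum fun k hk => h k (Finset.mem_range.1 hk)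
  refine h1.trans ?_
  rw [← Finset.mul_sum]
  refine mul_le_mul_of_nonneg_left ?_ hA
  have hs := summable_geometric_of_lt_one hr0 hr1
  rw [← tsum_geometric_of_lt_one hr0 hr1]
  exact hs.sum_le_tsum _ fun k _ => pow_nonneg hr0 k

/-- Bounded distortion along a ray: if the segment is exponentially contracted on the ray from `0` to `v` (with constants `C1`, `κ`), the ratio of `W` at two parameters changes by a bounded factor.
Divide the ray into `⌈‖v‖⌉` steps `D u`, `‖u‖ ≤ 1`, use `dist` for `Q = D '' {‖u‖ ≤ 1}` and sum the geometric series. -/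
theorem Fam.ray {W : G → ℝ → ℝ} {a b : ℝ} (hW : Fam W a b) (κ : ℝ) (hκ : 0 < κ) :
    ∃ C : ℝ, 0 < C ∧ ∀ (g : G) (C1 : ℝ) (v : ℝ × ℝ), 0 ≤ C1 →
      (∀ c : ℝ, 0 ≤ c → c ≤ 1 → fLen W a b (D (c • v) * g) ≤ C1 * Real.exp (-κ * ‖c • v‖)) →
      ∀ s s', s ∈ Icc a b → s' ∈ Icc a b →
        |(Real.log (W (D v * g) s) - Real.log (W g s)) -
          (Real.log (W (D v * g) s') - Real.log (W g s'))| ≤ C * C1 := by
  obtain ⟨Cd, hCd, hd⟩ := hW.dist _ (isCompact_D_image 1)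
  have hr1 : Real.exp (-κ / 2) < 1 := by
    rw [Real.exp_lt_one_iff]
    linarith
  refine ⟨Cd * (1 - Real.exp (-κ / 2))⁻¹, mul_pos hCd (inv_pos.2 (by linarith)), ?_⟩
  intro g C1 v hC1 hc s s' hs hs'
  set n : ℕ := ⌈‖v‖⌉₊ with hn
  by_cases hn0 : n = 0
  · have hv : v = 0 := by
      have h1 : ‖v‖ ≤ 0 := Nat.ceil_eq_zero.1 (hn.symm.trans hn0)
      exact norm_le_zero_iff.1 h1
    subst hv
    rw [D_zero, one_mul]
    simp only [sub_self, abs_zero]
    have : 0 ≤ (1 - Real.exp (-κ / 2))⁻¹ := inv_nonneg.2 (by linarith)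
    positivity
  have hnpos : 0 < n := Nat.pos_of_ne_zero hn0
  have hnR : (0 : ℝ) < n := Nat.cast_pos.2 hnpos
  have hvn : ‖v‖ ≤ n := Nat.le_ceil _
  have hnv : (n : ℝ) < ‖v‖ + 1 := Nat.ceil_lt_add_one (norm_nonneg _)
  set u : ℝ × ℝ := (n : ℝ)⁻¹ • v with hu
  have hu1 : ‖u‖ ≤ 1 := by
    rw [hu, norm_smul, norm_inv, Real.norm_natCast, inv_mul_le_iff₀ hnR, mul_one]
    exact hvn
  have hnu : (n : ℝ) • u = v := by
    rw [hu, smul_smul, mul_inv_cancel₀ hnR.ne', one_smul]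
  have hDu : D u ∈ D '' {v | ‖v‖ ≤ 1} := ⟨u, hu1, rfl⟩
  set F : ℕ → ℝ := fun k => (Real.log (W (D ((k : ℝ) • u) * g) s) -
    Real.log (W (D ((k : ℝ) • u) * g) s')) with hF
  have key := FAM_tel F (Cd * C1) κ (mul_nonneg hCd.le hC1) hκ n ?_
  · have e1 : (Real.log (W (D v * g) s) - Real.log (W g s)) -
          (Real.log (W (D v * g) s') - Real.log (W g s')) = F n - F 0 := by
      simp only [hF, hnu, Nat.cast_zero, zero_smul, D_zero, one_mul]
      ring
    rw [e1]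
    refine key.trans (le_of_eq ?_)
    ring
  · intro k hk
    have hD : D (((k + 1 : ℕ) : ℝ) • u) * g = D u * (D ((k : ℝ) • u) * g) := by
      rw [Nat.cast_add, Nat.cast_one, add_smul, one_smul, add_comm, D_add, mul_assoc]
    have h1 := hd (D u) hDu (D ((k : ℝ) • u) * g) s s' hs hs'
    have e2 : F (k + 1) - F k = (Real.log (W (D u * (D ((k : ℝ) • u) * g)) s) -
        Real.log (W (D ((k : ℝ) • u) * g) s)) - (Real.log (W (D u * (D ((k : ℝ) • u) * g)) s') -
        Real.log (W (D ((k : ℝ) • u) * g) s')) := by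
      simp only [hF, hD]
      ring
    rw [e2]
    refine h1.trans ?_
    rw [mul_assoc]
    refine mul_le_mul_of_nonneg_left ?_ hCd.le
    have hkn : (k : ℝ) ≤ n := Nat.cast_le.2 hk.le
    have h2 := hc ((k : ℝ) / n) (by positivity) ((div_le_one hnR).2 hkn)
    have e3 : ((k : ℝ) / n) • v = (k : ℝ) • u := by
      rw [hu, smul_smul, div_eq_mul_inv]
    rw [e3] at h2
    refine h2.trans (mul_le_mul_of_nonneg_left ?_ hC1)
    rw [← Real.exp_nat_mul, Real.exp_le_exp, norm_smul, Real.norm_natCast]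
    have h3 : (k : ℝ) / 2 ≤ k * ‖u‖ := by
      rcases Nat.eq_zero_or_pos k with hk0 | hk0
      · subst hk0
        simp
      · have hn2 : (2 : ℝ) ≤ n := by
          have : 2 ≤ n := by omega
          exact_mod_cast this
        have h4 : (1 : ℝ) / 2 ≤ ‖u‖ := by
          rw [hu, norm_smul, norm_inv, Real.norm_natCast, le_inv_mul_iff₀ hnR]
          linarith
        have h5 : (0 : ℝ) ≤ k := Nat.cast_nonneg _
        nlinarith
    nlinarith

end Pool.Agent.H88.LF
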