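import Pool.Agent.H88.LF.FAM

/-!
# FAME (blueprint section 10): EXT
-/

set_option autoImplicit false

open MeasureTheory Set Filter
open scoped Topology

namespace Pool.Agent.H88.LF

theorem FAME_cont {W : G → ℝ → ℝ} {a b : ℝ} (hW : Fam W a b) (g : G) :
    ContinuousOn (fun s => W g s) (Icc a b) := by
  have h1 : ContinuousOn (fun s : ℝ => ((g, s) : G × ℝ)) (Icc a b) :=
    (continuous_const.prodMk continuous_id).continuousOn
  exact hW.cont.comp h1 fun s hs => ⟨mem_univ _, hs⟩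

theorem FAME_int {W : G → ℝ → ℝ} {a b : ℝ} (hW : Fam W a b) (g : G) :
    IntervalIntegrable (fun s => W g s) volume a b :=
  (FAME_cont hW g).intervalIntegrable_of_Icc hW.le

theorem FAME_len_le {W : G → ℝ → ℝ} {a b : ℝ} (hW : Fam W a b) (g g' : G) (c : ℝ)
    (h : ∀ s ∈ Icc a b, W g s ≤ c * W g' s) : fLen W a b g ≤ c * fLen W a b g' := by
  unfold fLen
  rw [← intervalIntegral.integral_const_mul]
  exact intervalIntegral.integral_mono_on hW.le (FAME_int hW g)
    ((FAME_int hW g').const_mul c) h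

theorem FAME_len_nonneg {W : G → ℝ → ℝ} {a b : ℝ} (hW : Fam W a b) (g : G) :
    0 ≤ fLen W a b g :=
  intervalIntegral.integral_nonneg hW.le fun s hs => (hW.pos g s hs).le

/-- Exponential growth at most. -/
theorem FAME_growth {W : G → ℝ → ℝ} {a b : ℝ} (hW : Fam W a b) :
    ∃ B : ℝ, 1 ≤ B ∧ ∀ (v : ℝ × ℝ) (g : G) (s : ℝ), s ∈ Icc a b →
      W (D v * g) s ≤ B * Real.exp (Real.log B * ‖v‖) * W g s := by
  obtain ⟨C, hC, hb⟩ := hW.bd _ (isCompact_D_image 1)
  refine ⟨max C 1, le_max_right _ _, ?_⟩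
  intro v g s hs
  set B := max C 1 with hB
  have hB1 : 1 ≤ B := le_max_right _ _
  have hB0 : 0 < B := by linarith
  set n : ℕ := ⌈‖v‖⌉₊ with hn
  have hvn : ‖v‖ ≤ n := Nat.le_ceil _
  have hnv : (n : ℝ) ≤ ‖v‖ + 1 := (Nat.ceil_lt_add_one (norm_nonneg _)).le
  have hW0 := hW.pos g s hs
  have hpow : B ^ n ≤ B * Real.exp (Real.log B * ‖v‖) := by
    have h1 : B ^ n = Real.exp (Real.log B * n) := by
      rw [Real.exp_mul, Real.exp_log hB0, Real.rpow_natCast]
    have h2 : B * Real.exp (Real.log B * ‖v‖) = Real.exp (Real.log B * (‖v‖ + 1)) := by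
      rw [mul_add, mul_one, Real.exp_add, Real.exp_log hB0, mul_comm]
    rw [h1, h2, Real.exp_le_exp]
    exact mul_le_mul_of_nonneg_left hnv (Real.log_nonneg hB1)
  have hstep : ∀ (u : ℝ × ℝ), ‖u‖ ≤ 1 → ∀ k : ℕ, W ((D u) ^ k * g) s ≤ B ^ k * W g s := by
    intro u hu k
    induction k with
    | zero => simp
    | succ k ih =>
      have h1 := hb (D u) ⟨u, hu, rfl⟩ ((D u) ^ k * g) s hs
      rw [← mul_assoc, ← pow_succ'] at h1
      have h2 : C ≤ B := le_max_left _ _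
      have h3 := hW.pos ((D u) ^ k * g) s hs
      calc W ((D u) ^ (k + 1) * g) s ≤ C * W ((D u) ^ k * g) s := h1
        _ ≤ B * W ((D u) ^ k * g) s := mul_le_mul_of_nonneg_right h2 h3.le
        _ ≤ B * (B ^ k * W g s) := mul_le_mul_of_nonneg_left ih hB0.le
        _ = B ^ (k + 1) * W g s := by ring
  by_cases hn0 : n = 0
  · have hv : v = 0 := by
      have h1 : ‖v‖ ≤ 0 := Nat.ceil_eq_zero.1 (hn.symm.trans hn0)
      exact norm_le_zero_iff.1 h1
    have h2 := hstep 0 (by simp) 0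
    rw [pow_zero, pow_zero, one_mul, one_mul] at h2
    rw [hv, D_zero, one_mul, norm_zero, mul_zero, Real.exp_zero, mul_one]
    nlinarith
  · have hnR : (0 : ℝ) < n := Nat.cast_pos.2 (Nat.pos_of_ne_zero hn0)
    have hu1 : ‖(n : ℝ)⁻¹ • v‖ ≤ 1 := by
      rw [norm_smul, norm_inv, Real.norm_natCast, inv_mul_le_iff₀ hnR, mul_one]
      exact hvn
    have hnu : (n : ℝ) • ((n : ℝ)⁻¹ • v) = v := by
      rw [smul_smul, mul_inv_cancel₀ hnR.ne', one_smul]
    have h2 := hstep _ hu1 n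
    rw [← D_nsmul, hnu] at h2
    exact h2.trans (mul_le_mul_of_nonneg_right hpow hW0.le)

/-- EXT.  `P ⊆ P'` star shaped sets (`P` need not be star shaped), every `v ∈ P'` is within `δ‖v‖` of a point of `P`, `δ` small (depending on `W`, `ε` only): contraction with rate `ε` on `P` and goodness at `s0`
imply contraction with the SAME rate `ε` on `P'`.  Step 1: on `P'` contraction with rate `ε/2` (`bd` for `D u`, `‖u‖ ≤ 1`, iterated `⌈δ‖v‖⌉` times).  Step 2: `Fam.ray` on the ray to `v ∈ P'`: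
`W (D v g) s ≤ C W (D v g) s0`. -/
theorem Fam.ext {W : G → ℝ → ℝ} {a b : ℝ} (hW : Fam W a b) (ε : ℝ) (hε : 0 < ε) (s0 : ℝ)
    (hs0 : s0 ∈ Icc a b) :
    ∃ δ : ℝ, 0 < δ ∧ δ ≤ 1 / 2 ∧ ∀ (P P' : Set (ℝ × ℝ)),
      (∀ v ∈ P', ∀ c : ℝ, 0 ≤ c → c ≤ 1 → c • v ∈ P') →
      (∀ v ∈ P', ∃ u ∈ P, ‖v - u‖ ≤ δ * ‖v‖) →
      ∀ g ∈ fGood W s0 ε, (∃ C1 : ℝ, ∀ v ∈ P, fLen W a b (D v * g) ≤ C1 * Real.exp (-ε * ‖v‖)) →
        ∃ C1 : ℝ, ∀ v ∈ P', fLen W a b (D v * g) ≤ C1 * Real.exp (-ε * ‖v‖) := by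
  obtain ⟨B, hB1, hB⟩ := FAME_growth hW
  have hB0 : 0 < B := by linarith
  have hlB : 0 ≤ Real.log B := Real.log_nonneg hB1
  obtain ⟨C, hC, hray⟩ := hW.ray (ε / 2) (by linarith)
  have hden : 0 < 2 * (ε + Real.log B + 1) := by linarith
  refine ⟨min (1 / 2) (ε / (2 * (ε + Real.log B + 1))), lt_min (by norm_num)
    (div_pos hε hden), min_le_left _ _, ?_⟩
  set δ := min (1 / 2) (ε / (2 * (ε + Real.log B + 1))) with hδ
  have hδ0 : 0 < δ := lt_min (by norm_num) (div_pos hε hden)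
  have hδ1 : δ * (ε + Real.log B) ≤ ε / 2 := by
    have h1 : δ ≤ ε / (2 * (ε + Real.log B + 1)) := min_le_right _ _
    have h2 : δ * (2 * (ε + Real.log B + 1)) ≤ ε := (le_div_iff₀ hden).1 h1
    nlinarith
  intro P P' hstar hnear g hg hcon
  obtain ⟨R, hR⟩ := hg
  obtain ⟨C1, hC1⟩ := hcon
  set K : ℝ := B * |C1| with hK
  have hK0 : 0 ≤ K := mul_nonneg hB0.le (abs_nonneg _)
  have step1 : ∀ v ∈ P', fLen W a b (D v * g) ≤ K * Real.exp (-(ε / 2) * ‖v‖) := by
    intro v hv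
    obtain ⟨u, hu, huv⟩ := hnear v hv
    have e1 : D v * g = D (v - u) * (D u * g) := by
      rw [← mul_assoc, ← D_add, sub_add_cancel]
    have h1 := FAME_len_le hW (D v * g) (D u * g) (B * Real.exp (Real.log B * ‖v - u‖))
      (fun s hs => by rw [e1]; exact hB (v - u) (D u * g) s hs)
    have h2 := hC1 u hu
    have h3 : fLen W a b (D u * g) ≤ |C1| * Real.exp (-ε * ‖u‖) :=
      h2.trans (mul_le_mul_of_nonneg_right (le_abs_self _) (Real.exp_pos _).le)
    have h4 : ‖v‖ - ‖u‖ ≤ δ * ‖v‖ := (norm_sub_norm_le v u).trans huv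
    calc fLen W a b (D v * g) ≤ B * Real.exp (Real.log B * ‖v - u‖) * fLen W a b (D u * g) := h1
      _ ≤ B * Real.exp (Real.log B * ‖v - u‖) * (|C1| * Real.exp (-ε * ‖u‖)) :=
        mul_le_mul_of_nonneg_left h3 (mul_nonneg hB0.le (Real.exp_pos _).le)
      _ = K * Real.exp (Real.log B * ‖v - u‖ + -ε * ‖u‖) := by
        rw [Real.exp_add, hK]
        ring
      _ ≤ K * Real.exp (-(ε / 2) * ‖v‖) := by
        refine mul_le_mul_of_nonneg_left (Real.exp_le_exp.2 ?_) hK0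
        have h5 : Real.log B * ‖v - u‖ ≤ Real.log B * (δ * ‖v‖) :=
          mul_le_mul_of_nonneg_left huv hlB
        have h6 : ε * (‖v‖ - ‖u‖) ≤ ε * (δ * ‖v‖) := mul_le_mul_of_nonneg_left h4 hε.le
        have h7 : δ * (ε + Real.log B) * ‖v‖ ≤ ε / 2 * ‖v‖ :=
          mul_le_mul_of_nonneg_right hδ1 (norm_nonneg _)
        nlinarith
  -- bound of `W g`
  obtain ⟨M, hM⟩ := isCompact_Icc.bddAbove_image (FAME_cont hW g)
  have hM' : ∀ s ∈ Icc a b, W g s ≤ M := fun s hs => hM ⟨s, hs, rfl⟩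
  have hW0 := hW.pos g s0 hs0
  have hMpos : 0 < M := hW0.trans_le (hM' s0 hs0)
  refine ⟨(b - a) * (Real.exp (C * K) * (M / W g s0) * |R|), ?_⟩
  intro v hv
  have hr := hray g K v hK0 (fun c hc0 hc1 => step1 _ (hstar v hv c hc0 hc1))
  have h8 : ∀ s ∈ Icc a b, W (D v * g) s ≤
      Real.exp (C * K) * (M / W g s0) * |R| * Real.exp (-ε * ‖v‖) := by
    intro s hs
    have h9 := (abs_le.1 (hr s s0 hs hs0)).2
    have p1 := hW.pos (D v * g) s hs
    have p2 := hW.pos g s hs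
    have p3 := hW.pos (D v * g) s0 hs0
    have h10 : W (D v * g) s ≤ Real.exp (C * K) * (W g s / W g s0) * W (D v * g) s0 := by
      rw [← Real.log_le_log_iff p1 (by positivity), Real.log_mul (by positivity) p3.ne',
        Real.log_mul (by positivity) (by positivity), Real.log_exp,
        Real.log_div p2.ne' hW0.ne']
      linarith
    have h11 : W (D v * g) s0 ≤ |R| * Real.exp (-ε * ‖v‖) :=
      (hR v).trans (mul_le_mul_of_nonneg_right (le_abs_self _) (Real.exp_pos _).le)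
    calc W (D v * g) s ≤ Real.exp (C * K) * (W g s / W g s0) * W (D v * g) s0 := h10
      _ ≤ Real.exp (C * K) * (M / W g s0) * (|R| * Real.exp (-ε * ‖v‖)) := by
        refine mul_le_mul ?_ h11 p3.le (by positivity)
        refine mul_le_mul_of_nonneg_left ?_ (Real.exp_pos _).le
        exact div_le_div_of_nonneg_right (hM' s hs) hW0.le
      _ = _ := by ring
  unfold fLen
  have h12 := intervalIntegral.integral_mono_on hW.le (FAME_int hW (D v * g))
    (intervalIntegrable_const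
      (c := Real.exp (C * K) * (M / W g s0) * |R| * Real.exp (-ε * ‖v‖))) h8
  refine h12.trans (le_of_eq ?_)
  rw [intervalIntegral.integral_const, smul_eq_mul]
  ring

end Pool.Agent.H88.LF
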