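import Pool.Agent.H88.LF.GBA
import Pool.Agent.H88.LF.GBB

/-!
# FBA: calculus of arrows (blueprint section 1)

An arrow `(i,t) → (j,τ)` is `k` with `c i t = k • c j τ`.  By `inj` the local continuation is unique: if `c i t = k • c j τ`
with `t` near `t0` and `k` near `k0` then `k0⁻¹ c i t = (k0⁻¹k) • c j τ = (k0⁻¹ kf t) • c j (τf t)`, so `k = kf t`, `τ = τf t`.
Everything below follows from this, the chain rule, and compactness.
-/

set_option autoImplicit false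

open MeasureTheory Set Filter
open scoped Topology

namespace Pool.Agent.H88.LF

variable {X : Type} [TopologicalSpace X] [MulAction G X]

theorem fba_continuousAt_iff {f : ℝ → G} {t0 : ℝ} :
    ContinuousAt f t0 ↔ ContinuousAt (fun t => ((f t).1 : Mat)) t0 :=
  closedEmb_val.isEmbedding.continuousAt_iff


theorem FB.continuousAt_kf (S : FB X) {i j : Fin S.n} {t0 τ0 : ℝ} {k0 : G}
    (h : S.Arr i j t0 τ0 k0) : ContinuousAt (S.kf i j t0 τ0 k0) t0 := by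
  rw [fba_continuousAt_iff]
  have h1 := (S.kf_τf_spec h).2.2.1
  refine continuousAt_pi.2 fun a => continuousAt_pi.2 fun b => ?_
  exact (h1 a b).continuousAt

theorem fba_continuousAt_τf (S : FB X) {i j : Fin S.n} {t0 τ0 : ℝ} {k0 : G}
    (h : S.Arr i j t0 τ0 k0) : ContinuousAt (S.τf i j t0 τ0 k0) t0 :=
  (S.kf_τf_spec h).2.2.2.1.continuousAt

theorem fba_eventually_abs {f : ℝ → ℝ} {t0 : ℝ} (hf : ContinuousAt f t0) (h : |f t0| < 1) :
    ∀ᶠ t in 𝓝 t0, |f t| < 1 :=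
  (hf.abs).eventually_lt continuousAt_const h

theorem fba_eventually_nd {f : ℝ → G} {t0 : ℝ} (hf : ContinuousAt f t0) {ε : ℝ} (hε : 0 < ε) :
    ∀ᶠ t in 𝓝 t0, nd ((f t0)⁻¹ * f t) < ε := by
  have h1 : ContinuousAt (fun t => nd ((f t0)⁻¹ * f t)) t0 :=
    (continuous_nd.comp (continuous_const_mul ((f t0)⁻¹))).continuousAt.comp hf
  refine h1.eventually_lt continuousAt_const ?_
  simp only [inv_mul_cancel, nd_one]
  exact hε

/-- Uniqueness of the local continuation. -/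
theorem FB.near (S : FB X) {i j : Fin S.n} {t0 τ0 : ℝ} {k0 : G} (h : S.Arr i j t0 τ0 k0) :
    ∃ ε > 0, ∀ (t τ : ℝ) (k : G), |t - t0| < ε → nd (k0⁻¹ * k) < ε → S.Arr i j t τ k →
      k = S.kf i j t0 τ0 k0 t ∧ τ = S.τf i j t0 τ0 k0 t := by
  obtain ⟨h1, h2, h3, h4, h5, h6⟩ := S.kf_τf_spec h
  have hρ0 : 0 < S.ρ0 := by
    have := S.hρ1; have := S.hρ; linarith
  have e1 : ∀ᶠ t in 𝓝 t0, |S.τf i j t0 τ0 k0 t| < 1 :=
    fba_eventually_abs (fba_continuousAt_τf S h) (by rw [h2]; exact h.2.1)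
  have e2 := fba_eventually_nd (S.continuousAt_kf h) hρ0
  rw [h1] at e2
  obtain ⟨δ, hδ, hall⟩ := Metric.eventually_nhds_iff.1 (e1.and (e2.and h6))
  refine ⟨min δ S.ρ0, lt_min hδ hρ0, fun t τ k ht hk harr => ?_⟩
  obtain ⟨g1, g2, g3⟩ := hall (y := t) (by
    rw [Real.dist_eq]; exact lt_of_lt_of_le ht (min_le_left _ _))
  have h7 : (k0⁻¹ * k) • S.c j τ = (k0⁻¹ * S.kf i j t0 τ0 k0 t) •
      S.c j (S.τf i j t0 τ0 k0 t) := by
    rw [mul_smul, mul_smul, ← g3, ← harr.2.2]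
  obtain ⟨h8, h9⟩ := S.inj j _ _ _ _ harr.2.1 g1 (lt_of_lt_of_le hk (min_le_right _ _)) g2 h7
  exact ⟨mul_left_cancel h8, h9⟩

/-- Near an arrow, the continuation consists of arrows. -/
theorem FB.eventually_arr (S : FB X) {i j : Fin S.n} {t0 τ0 : ℝ} {k0 : G}
    (h : S.Arr i j t0 τ0 k0) :
    ∀ᶠ t in 𝓝 t0, S.Arr i j t (S.τf i j t0 τ0 k0 t) (S.kf i j t0 τ0 k0 t) := by
  obtain ⟨h1, h2, h3, h4, h5, h6⟩ := S.kf_τf_spec h
  have e1 : ∀ᶠ t in 𝓝 t0, |S.τf i j t0 τ0 k0 t| < 1 :=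
    fba_eventually_abs (fba_continuousAt_τf S h) (by rw [h2]; exact h.2.1)
  have e2 : ∀ᶠ t in 𝓝 t0, |t| < 1 := fba_eventually_abs continuousAt_id h.1
  filter_upwards [e1, e2, h6] with t g1 g2 g3
  exact ⟨g2, g1, g3⟩

/-- Another local continuation, continuous at `t0`, agrees with the chosen one near `t0`. -/
theorem FB.cont_unique (S : FB X) {i j : Fin S.n} {t0 τ0 : ℝ} {k0 : G} (h : S.Arr i j t0 τ0 k0)
    (k : ℝ → G) (τ : ℝ → ℝ) (hk : ContinuousAt k t0) (hτ : ContinuousAt τ t0)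
    (hk0 : k t0 = k0) (hτ0 : τ t0 = τ0) (he : ∀ᶠ t in 𝓝 t0, S.c i t = k t • S.c j (τ t)) :
    ∀ᶠ t in 𝓝 t0, k t = S.kf i j t0 τ0 k0 t ∧ τ t = S.τf i j t0 τ0 k0 t := by
  obtain ⟨ε, hε, hn⟩ := S.near h
  have e1 : ∀ᶠ t in 𝓝 t0, |τ t| < 1 := fba_eventually_abs hτ (by rw [hτ0]; exact h.2.1)
  have e2 : ∀ᶠ t in 𝓝 t0, |t| < 1 := fba_eventually_abs continuousAt_id h.1
  have e3 := fba_eventually_nd hk hε
  rw [hk0] at e3
  have e4 : ∀ᶠ t in 𝓝 t0, |t - t0| < ε := by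
    have := Metric.ball_mem_nhds t0 hε
    filter_upwards [this] with t ht
    rwa [Metric.mem_ball, Real.dist_eq] at ht
  filter_upwards [e1, e2, e3, e4, he] with t g1 g2 g3 g4 g5
  exact hn t (τ t) (k t) g4 g3 ⟨g2, g1, g5⟩

/-- `kf` and `τf` are `C²` near `t0`, in particular continuous near `t0`. -/
theorem FB.eventually_contDiffAt (S : FB X) {i j : Fin S.n} {t0 τ0 : ℝ} {k0 : G}
    (h : S.Arr i j t0 τ0 k0) :
    ∀ᶠ t in 𝓝 t0, (∀ a b, ContDiffAt ℝ 2 (fun t => (S.kf i j t0 τ0 k0 t).1 a b) t) ∧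
      ContDiffAt ℝ 2 (S.τf i j t0 τ0 k0) t ∧ ContinuousAt (S.kf i j t0 τ0 k0) t := by
  obtain ⟨h1, h2, h3, h4, h5, h6⟩ := S.kf_τf_spec h
  have e1 : ∀ᶠ t in 𝓝 t0, ∀ a b, ContDiffAt ℝ 2 (fun t => (S.kf i j t0 τ0 k0 t).1 a b) t := by
    rw [eventually_all]
    intro a
    rw [eventually_all]
    intro b
    exact (h3 a b).eventually (by decide)
  have e2 := h4.eventually (by decide)
  filter_upwards [e1, e2] with t g1 g2
  refine ⟨g1, g2, ?_⟩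
  rw [fba_continuousAt_iff]
  refine continuousAt_pi.2 fun a => continuousAt_pi.2 fun b => ?_
  exact (g1 a b).continuousAt

theorem FB.hasDerivAt_τf (S : FB X) {i j : Fin S.n} {t0 τ0 : ℝ} {k0 : G}
    (h : S.Arr i j t0 τ0 k0) :
    HasDerivAt (S.τf i j t0 τ0 k0) (S.dτ i j t0 τ0 k0) t0 :=
  ((S.kf_τf_spec h).2.2.2.1.differentiableAt (by decide)).hasDerivAt

theorem fba_dk_mul (S : FB X) {i j : Fin S.n} {t0 τ0 : ℝ} {k0 : G} :
    S.dk i j t0 τ0 k0 * k0.1 = Matrix.of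
      (fun a b => deriv (fun t => (S.kf i j t0 τ0 k0 t).1 a b) t0) := by
  unfold FB.dk
  have e0 : (k0⁻¹).1 * k0.1 = 1 := by
    rw [← Matrix.SpecialLinearGroup.coe_mul, inv_mul_cancel]; rfl
  rw [Matrix.mul_assoc, e0, Matrix.mul_one]

theorem FB.hasDerivAt_kf (S : FB X) {i j : Fin S.n} {t0 τ0 : ℝ} {k0 : G}
    (h : S.Arr i j t0 τ0 k0) (a b : Fin 3) :
    HasDerivAt (fun t => (S.kf i j t0 τ0 k0 t).1 a b) ((S.dk i j t0 τ0 k0 * k0.1) a b) t0 := by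
  rw [fba_dk_mul]
  exact (((S.kf_τf_spec h).2.2.1 a b).differentiableAt (by decide)).hasDerivAt

theorem FB.dτ_ne_zero (S : FB X) {i j : Fin S.n} {t0 τ0 : ℝ} {k0 : G}
    (h : S.Arr i j t0 τ0 k0) : S.dτ i j t0 τ0 k0 ≠ 0 :=
  (S.kf_τf_spec h).2.2.2.2.1

/-- The derivatives of the arrows on the local continuation. -/
theorem FB.eventually_dτ (S : FB X) {i j : Fin S.n} {t0 τ0 : ℝ} {k0 : G}
    (h : S.Arr i j t0 τ0 k0) :
    ∀ᶠ t in 𝓝 t0,
      S.dτ i j t (S.τf i j t0 τ0 k0 t) (S.kf i j t0 τ0 k0 t) = deriv (S.τf i j t0 τ0 k0) t ∧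
      ∀ a b, (S.dk i j t (S.τf i j t0 τ0 k0 t) (S.kf i j t0 τ0 k0 t) *
        (S.kf i j t0 τ0 k0 t).1) a b = deriv (fun t => (S.kf i j t0 τ0 k0 t).1 a b) t := by
  have h6 := (S.kf_τf_spec h).2.2.2.2.2
  filter_upwards [S.eventually_arr h, S.eventually_contDiffAt h, h6.eventually_nhds]
    with t g1 g2 g3
  have g4 := S.cont_unique g1 (S.kf i j t0 τ0 k0) (S.τf i j t0 τ0 k0) g2.2.2
    g2.2.1.continuousAt rfl rfl g3
  constructor
  · unfold FB.dτ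
    refine (Filter.EventuallyEq.deriv_eq ?_).symm
    filter_upwards [g4] with s hs
    exact hs.2
  · intro a b
    rw [fba_dk_mul, Matrix.of_apply]
    refine (Filter.EventuallyEq.deriv_eq ?_).symm
    filter_upwards [g4] with s hs
    rw [hs.1]

theorem FB.arr_refl (S : FB X) (i : Fin S.n) {t : ℝ} (ht : |t| < 1) : S.Arr i i t t 1 :=
  ⟨ht, ht, (one_smul _ _).symm⟩

theorem FB.arr_symm (S : FB X) {i j : Fin S.n} {t τ : ℝ} {k : G} (h : S.Arr i j t τ k) :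
    S.Arr j i τ t k⁻¹ :=
  ⟨h.2.1, h.1, by rw [h.2.2, inv_smul_smul]⟩

theorem FB.arr_trans (S : FB X) {i j l : Fin S.n} {t τ υ : ℝ} {k k' : G}
    (h : S.Arr i j t τ k) (h' : S.Arr j l τ υ k') : S.Arr i l t υ (k * k') :=
  ⟨h.1, h'.2.1, by rw [h.2.2, h'.2.2, mul_smul]⟩

end Pool.Agent.H88.LF
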