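import Pool.Agent.H88.LF.FBA

/-!
# FBA2: composition rules for the derivatives of arrows (chain rule, product rule, `FB.cont_unique`)
-/

set_option autoImplicit false

open MeasureTheory Set Filter
open scoped Topology

namespace Pool.Agent.H88.LF

variable {X : Type} [TopologicalSpace X] [MulAction G X]

/-- The local continuation of the identity arrow. -/
theorem fba2_refl (S : FB X) (i : Fin S.n) {t : ℝ} (ht : |t| < 1) :
    ∀ᶠ s in 𝓝 t, 1 = S.kf i i t t 1 s ∧ s = S.τf i i t t 1 s := by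
  refine S.cont_unique (S.arr_refl i ht) (fun _ => 1) (fun s => s) continuousAt_const
    continuousAt_id rfl rfl ?_
  exact Filter.Eventually.of_forall fun s => (one_smul G _).symm

theorem FB.dτ_refl (S : FB X) (i : Fin S.n) {t : ℝ} (ht : |t| < 1) : S.dτ i i t t 1 = 1 := by
  have h : S.τf i i t t 1 =ᶠ[𝓝 t] fun s => s :=
    (fba2_refl S i ht).mono fun s hs => hs.2.symm
  unfold FB.dτ
  rw [h.deriv_eq]
  exact deriv_id t

theorem FB.dk_refl (S : FB X) (i : Fin S.n) {t : ℝ} (ht : |t| < 1) : S.dk i i t t 1 = 0 := by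
  have h0 : Matrix.of (fun a b => deriv (fun s => (S.kf i i t t 1 s).1 a b) t) = (0 : Mat) := by
    ext a b
    have h : (fun s => (S.kf i i t t 1 s).1 a b) =ᶠ[𝓝 t] fun _ => (1 : G).1 a b :=
      (fba2_refl S i ht).mono fun s hs => by
        show (S.kf i i t t 1 s).1 a b = (1 : G).1 a b
        rw [← hs.1]
    rw [Matrix.of_apply, h.deriv_eq, deriv_const]
    rfl
  unfold FB.dk
  rw [h0, zero_mul]

/-- The local continuation of a composition of arrows. -/
theorem fba2_trans (S : FB X) {i j l : Fin S.n} {t τ υ : ℝ} {k k' : G}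
    (h : S.Arr i j t τ k) (h' : S.Arr j l τ υ k') :
    ∀ᶠ s in 𝓝 t, S.kf i j t τ k s * S.kf j l τ υ k' (S.τf i j t τ k s) =
        S.kf i l t υ (k * k') s ∧
      S.τf j l τ υ k' (S.τf i j t τ k s) = S.τf i l t υ (k * k') s := by
  obtain ⟨h1, h2, -, h3, -, h4⟩ := S.kf_τf_spec h
  obtain ⟨h1', h2', -, h3', -, h4'⟩ := S.kf_τf_spec h'
  have c1 : ContinuousAt (S.τf i j t τ k) t := h3.continuousAt
  have c2 : Tendsto (S.τf i j t τ k) (𝓝 t) (𝓝 τ) := by
    have := c1.tendsto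
    rwa [h2] at this
  have c3 : ContinuousAt (S.kf j l τ υ k') (S.τf i j t τ k t) := by
    rw [h2]
    exact S.continuousAt_kf h'
  have c4 : ContinuousAt (S.τf j l τ υ k') (S.τf i j t τ k t) := by
    rw [h2]
    exact h3'.continuousAt
  refine S.cont_unique (S.arr_trans h h')
    (fun s => S.kf i j t τ k s * S.kf j l τ υ k' (S.τf i j t τ k s))
    (fun s => S.τf j l τ υ k' (S.τf i j t τ k s))
    ((S.continuousAt_kf h).mul (ContinuousAt.comp (f := S.τf i j t τ k) c3 c1))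
    (ContinuousAt.comp (f := S.τf i j t τ k) c4 c1) ?_ ?_ ?_
  · show S.kf i j t τ k t * S.kf j l τ υ k' (S.τf i j t τ k t) = k * k'
    rw [h2, h1, h1']
  · show S.τf j l τ υ k' (S.τf i j t τ k t) = υ
    rw [h2, h2']
  · filter_upwards [h4, c2.eventually h4'] with s e1 e2
    rw [e1, mul_smul, ← e2]

theorem FB.dτ_trans (S : FB X) {i j l : Fin S.n} {t τ υ : ℝ} {k k' : G}
    (h : S.Arr i j t τ k) (h' : S.Arr j l τ υ k') :
    S.dτ i l t υ (k * k') = S.dτ i j t τ k * S.dτ j l τ υ k' := by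
  have e : S.τf i l t υ (k * k') =ᶠ[𝓝 t] fun s => S.τf j l τ υ k' (S.τf i j t τ k s) :=
    (fba2_trans S h h').mono fun s hs => hs.2.symm
  have d2 : HasDerivAt (S.τf j l τ υ k') (S.dτ j l τ υ k') (S.τf i j t τ k t) := by
    rw [(S.kf_τf_spec h).2.1]
    exact S.hasDerivAt_τf h'
  have d : HasDerivAt (fun s => S.τf j l τ υ k' (S.τf i j t τ k s))
      (S.dτ j l τ υ k' * S.dτ i j t τ k) t := d2.comp t (S.hasDerivAt_τf h)
  conv_lhs => unfold FB.dτ
  rw [e.deriv_eq, d.deriv, mul_comm]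

theorem FB.dk_trans (S : FB X) {i j l : Fin S.n} {t τ υ : ℝ} {k k' : G}
    (h : S.Arr i j t τ k) (h' : S.Arr j l τ υ k') :
    S.dk i l t υ (k * k') =
      S.dk i j t τ k + S.dτ i j t τ k • (k.1 * S.dk j l τ υ k' * (k⁻¹).1) := by
  obtain ⟨h1, h2, -⟩ := S.kf_τf_spec h
  obtain ⟨h1', h2', -⟩ := S.kf_τf_spec h'
  have hm : Matrix.of (fun a b => deriv (fun s => (S.kf i l t υ (k * k') s).1 a b) t) =
      S.dk i j t τ k * k.1 * k'.1 + S.dτ i j t τ k • (k.1 * (S.dk j l τ υ k' * k'.1)) := by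
    ext a b
    have e : (fun s => (S.kf i l t υ (k * k') s).1 a b) =ᶠ[𝓝 t]
        fun s => ∑ x, (S.kf i j t τ k s).1 a x *
          (S.kf j l τ υ k' (S.τf i j t τ k s)).1 x b :=
      (fba2_trans S h h').mono fun s hs => by
        show (S.kf i l t υ (k * k') s).1 a b = _
        rw [← hs.1]
        exact Matrix.mul_apply
    have d2 : ∀ x, HasDerivAt (fun s => (S.kf j l τ υ k' (S.τf i j t τ k s)).1 x b)
        ((S.dk j l τ υ k' * k'.1) x b * S.dτ i j t τ k) t := by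
      intro x
      have d3 : HasDerivAt (fun s => (S.kf j l τ υ k' s).1 x b)
          ((S.dk j l τ υ k' * k'.1) x b) (S.τf i j t τ k t) := by
        rw [h2]
        exact S.hasDerivAt_kf h' x b
      exact d3.comp t (S.hasDerivAt_τf h)
    have d : HasDerivAt (fun s => ∑ x, (S.kf i j t τ k s).1 a x *
          (S.kf j l τ υ k' (S.τf i j t τ k s)).1 x b)
        (∑ x, ((S.dk i j t τ k * k.1) a x * (S.kf j l τ υ k' (S.τf i j t τ k t)).1 x b +
          (S.kf i j t τ k t).1 a x * ((S.dk j l τ υ k' * k'.1) x b * S.dτ i j t τ k))) t :=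
      HasDerivAt.fun_sum fun x _ => (S.hasDerivAt_kf h a x).mul (d2 x)
    rw [Matrix.of_apply, e.deriv_eq, d.deriv, h2, h1, h1', Matrix.add_apply, Matrix.smul_apply,
      Matrix.mul_apply (M := S.dk i j t τ k * k.1), Matrix.mul_apply (M := k.1), smul_eq_mul,
      Finset.mul_sum, ← Finset.sum_add_distrib]
    refine Finset.sum_congr rfl fun x _ => ?_
    ring
  have hk : k.1 * (k⁻¹).1 = 1 := by
    have := congrArg (fun g : G => g.1) (mul_inv_cancel k)
    exact this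
  have hk' : k'.1 * (k'⁻¹).1 = 1 := by
    have := congrArg (fun g : G => g.1) (mul_inv_cancel k')
    exact this
  have hinv : ((k * k')⁻¹ : G).1 = (k'⁻¹).1 * (k⁻¹).1 := by
    rw [mul_inv_rev]
    rfl
  conv_lhs => unfold FB.dk
  rw [hm, hinv, add_mul, smul_mul_assoc]
  have e1 : S.dk i j t τ k * k.1 * k'.1 * ((k'⁻¹).1 * (k⁻¹).1) = S.dk i j t τ k := by
    rw [Matrix.mul_assoc (S.dk i j t τ k * k.1), ← Matrix.mul_assoc k'.1, hk', Matrix.one_mul,
      Matrix.mul_assoc, hk, Matrix.mul_one]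
  have e2 : k.1 * (S.dk j l τ υ k' * k'.1) * ((k'⁻¹).1 * (k⁻¹).1) =
      k.1 * S.dk j l τ υ k' * (k⁻¹).1 := by
    rw [← Matrix.mul_assoc k.1, Matrix.mul_assoc (k.1 * S.dk j l τ υ k'), ← Matrix.mul_assoc k'.1,
      hk', Matrix.one_mul]
  rw [e1, e2]

theorem FB.dτ_symm (S : FB X) {i j : Fin S.n} {t τ : ℝ} {k : G} (h : S.Arr i j t τ k) :
    S.dτ j i τ t k⁻¹ = (S.dτ i j t τ k)⁻¹ := by
  have e := S.dτ_trans h (S.arr_symm h)
  rw [mul_inv_cancel, S.dτ_refl i h.1] at e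
  exact eq_inv_of_mul_eq_one_right e.symm

/-- `det k = 1` differentiated. -/
theorem FB.trace_dk (S : FB X) {i j : Fin S.n} {t τ : ℝ} {k : G} (h : S.Arr i j t τ k) :
    Matrix.trace (S.dk i j t τ k) = 0 := by
  have d := S.hasDerivAt_kf h
  have h1 := (S.kf_τf_spec h).1
  generalize S.dk i j t τ k = M at d ⊢
  generalize S.kf i j t τ k = f at d h1
  have e : ∀ s, (f s).1 0 0 * (f s).1 1 1 * (f s).1 2 2 - (f s).1 0 0 * (f s).1 1 2 * (f s).1 2 1
      - (f s).1 0 1 * (f s).1 1 0 * (f s).1 2 2 + (f s).1 0 1 * (f s).1 1 2 * (f s).1 2 0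
      + (f s).1 0 2 * (f s).1 1 0 * (f s).1 2 1 - (f s).1 0 2 * (f s).1 1 1 * (f s).1 2 0 = 1 := by
    intro s
    rw [← Matrix.det_fin_three]
    exact (f s).2
  have D := (((((((d 0 0).mul (d 1 1)).mul (d 2 2)).sub (((d 0 0).mul (d 1 2)).mul (d 2 1))).sub
    (((d 0 1).mul (d 1 0)).mul (d 2 2))).add (((d 0 1).mul (d 1 2)).mul (d 2 0))).add
    (((d 0 2).mul (d 1 0)).mul (d 2 1))).sub (((d 0 2).mul (d 1 1)).mul (d 2 0))
  have D2 : HasDerivAt (fun _ : ℝ => (1 : ℝ)) _ t :=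
    D.congr_of_eventuallyEq (Filter.Eventually.of_forall fun s => (e s).symm)
  have D3 := D2.unique (hasDerivAt_const t (1 : ℝ))
  have e1 := e t
  rw [h1] at e1
  simp only [Pi.mul_apply, h1, Matrix.mul_apply, Fin.sum_univ_three] at D3
  rw [Matrix.trace_fin_three]
  linear_combination D3 - (M 0 0 + M 1 1 + M 2 2) * e1

end Pool.Agent.H88.LF
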