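import Pool.Agent.H88.LF.LFB
import Pool.Agent.H88.LF.FBB

/-!
# LEAF (blueprint section 11): the group `Λ` and its affine action

`Φ : ℝ → X` an injective affine curve.  If `g • Φ s = Φ s'` for some `s,s'` then by `match` and `unique_cont` (on `univ`) `g • Φ s = Φ (a s + b)` for all `s`, with `a ≠ 0`.  `Λ = {h : ∃ s s', h • Φ s = Φ s'}` is a subgroup,
`A h s` = the unique `s'` with `h • Φ s = Φ s'` (and `A h s = s` for `h ∉ Λ`).  Composition: `(hh') Φ s = h Φ(A h' s) = Φ(A h (A h' s))`.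
(i) `ρ` from `ulf`: `h Φ s = Φ s`, so `g h g⁻¹` fixes `g Φ s`.
(iii) For each `i` such that `c i t = g • Φ s` for some `t, g, s` (`|t|<1`) fix such data `(t_i,g_i,s_i)`; by `match` and `unique_cont` on `(-1,1)`: `c i t = g_i • Φ(a_i t + b_i)` for all `|t| < 1`.  Given `g, s`: normal representation
`g • Φ s = h • c i t = (h g_i) • Φ(a_i t + b_i)`, `nd h < ρ1`, `|t| < 1/2`; `h' = (h g_i)⁻¹ g ∈ Λ`, `A h' s = a_i t + b_i`, `g h'⁻¹ = h g_i`.  `Q = ⋃_i Bl ρ1 * g_i`, `R = max_i (|a_i| + |b_i|)`.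
-/

set_option autoImplicit false

open MeasureTheory Set Filter
open scoped Topology

namespace Pool.Agent.H88.LF

variable {X : Type} [MetricSpace X] [CompactSpace X] [MulAction G X] [ContinuousSMul G X]

theorem LEAF_ext (S : FB X) (hS : S.Aff) (Φ : ℝ → X) (hΦ : S.ACurve univ Φ) (g : G)
    (s0 s0' : ℝ) (h : g • Φ s0 = Φ s0') :
    ∃ a b : ℝ, a ≠ 0 ∧ ∀ s, g • Φ s = Φ (a * s + b) := by
  have hf := hΦ.smul g
  obtain ⟨lam, hlam, hev⟩ := FB.ACurve.match hS hf hΦ (mem_univ s0) (mem_univ s0') 1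
    (by rw [one_smul]; exact h)
  refine ⟨lam, s0' - lam * s0, hlam, ?_⟩
  have hf' := hΦ.comp_affine lam (s0' - lam * s0) hlam
  have hf'' : S.ACurve univ (fun s => Φ (lam * s + (s0' - lam * s0))) := by
    intro x _
    exact hf' x (mem_univ _)
  have key := FB.ACurve.unique_cont hS isOpen_univ isPreconnected_univ hf hf'' (mem_univ s0) ?_
  · intro s
    exact key s (mem_univ s)
  · filter_upwards [hev] with s hs
    rw [hs, one_smul]
    congr 1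
    ring

theorem LEAF_chart (S : FB X) (hS : S.Aff) (Φ : ℝ → X) (hΦ : S.ACurve univ Φ) (i : Fin S.n) :
    ∃ (g : G) (a b : ℝ), (∃ (t : ℝ) (g : G) (s : ℝ), |t| < 1 ∧ S.c i t = g • Φ s) →
      ∀ t, |t| < 1 → S.c i t = g • Φ (a * t + b) := by
  by_cases hP : ∃ (t : ℝ) (g : G) (s : ℝ), |t| < 1 ∧ S.c i t = g • Φ s
  · obtain ⟨t0, g, s0, ht0, h0⟩ := hP
    have hc := FB.acurve_chart S 1 i 0 1 one_ne_zero
    have hc' : S.ACurve {t : ℝ | |t| < 1} (S.c i) := by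
      intro x hx
      have hx' : x ∈ {s : ℝ | |0 + 1 * s| < 1} := by
        show |0 + 1 * x| < 1
        rw [zero_add, one_mul]
        exact hx
      obtain ⟨k, j, τ, α, h1, h2, h3⟩ := hc x hx'
      refine ⟨k, j, τ, α, h1, h2, ?_⟩
      filter_upwards [h3] with s hs
      rw [← hs]
      simp
    obtain ⟨lam, hlam, hev⟩ := FB.ACurve.match hS hc' hΦ (show t0 ∈ {t : ℝ | |t| < 1} from ht0)
      (mem_univ s0) g h0
    refine ⟨g, lam, s0 - lam * t0, fun _ => ?_⟩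
    have hf' := (hΦ.comp_affine lam (s0 - lam * t0) hlam).smul g
    have hf'' : S.ACurve {t : ℝ | |t| < 1} (fun s => g • Φ (lam * s + (s0 - lam * t0))) := by
      intro x _
      exact hf' x (mem_univ _)
    have hI : {t : ℝ | |t| < 1} = Ioo (-1) 1 := by
      ext t
      exact (abs_lt : |t| < 1 ↔ -1 < t ∧ t < 1)
    have hop : IsOpen {t : ℝ | |t| < 1} := by
      rw [hI]
      exact isOpen_Ioo
    have hpc : IsPreconnected {t : ℝ | |t| < 1} := by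
      rw [hI]
      exact isPreconnected_Ioo
    refine FB.ACurve.unique_cont hS hop hpc hc' hf'' (show t0 ∈ {t : ℝ | |t| < 1} from ht0) ?_
    filter_upwards [hev] with s hs
    rw [hs]
    congr 2
    ring
  · exact ⟨1, 0, 0, fun h => absurd h hP⟩

theorem leaf_of_curve (S : FB X) (hS : S.Aff) (Φ : ℝ → X) (hΦ : S.ACurve univ Φ)
    (hinj : Function.Injective Φ) :
    ∃ (Λ : Subgroup G) (A : G → ℝ → ℝ),
      (∀ h ∈ Λ, ∃ a b : ℝ, a ≠ 0 ∧ ∀ s, A h s = a * s + b) ∧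
      (∀ h ∈ Λ, ∀ h' ∈ Λ, ∀ s, A (h * h') s = A h (A h' s)) ∧
      (∃ ρ > 0, ∀ h ∈ Λ, (∃ s, A h s = s) → ∀ g : G, nd (g * h * g⁻¹) ≤ ρ → h = 1) ∧
      ∃ Q : Set G, IsCompact Q ∧ ∃ R : ℝ, ∀ (g : G) (s : ℝ), ∃ h ∈ Λ, g * h⁻¹ ∈ Q ∧
        |A h s| ≤ R := by
  classical
  let Λ : Subgroup G :=
    { carrier := {h | ∃ s s', h • Φ s = Φ s'}
      one_mem' := ⟨0, 0, one_smul _ _⟩
      mul_mem' := by
        rintro h h' ⟨s, s', hs⟩ ⟨u, u', hu⟩
        obtain ⟨a, b, -, hab⟩ := LEAF_ext S hS Φ hΦ h s s' hs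
        refine ⟨u, a * u' + b, ?_⟩
        rw [mul_smul, hu, hab]
      inv_mem' := by
        rintro h ⟨s, s', hs⟩
        exact ⟨s', s, by rw [← hs, inv_smul_smul]⟩ }
  let A : G → ℝ → ℝ := fun h s => if hh : ∃ s', h • Φ s = Φ s' then hh.choose else s
  have hA : ∀ h ∈ Λ, ∀ s, h • Φ s = Φ (A h s) := by
    rintro h ⟨s, s', hs⟩ u
    obtain ⟨a, b, -, hab⟩ := LEAF_ext S hS Φ hΦ h s s' hs
    have hex : ∃ s', h • Φ u = Φ s' := ⟨_, hab u⟩
    show h • Φ u = Φ (if hh : ∃ s', h • Φ u = Φ s' then hh.choose else u)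
    rw [dif_pos hex]
    exact hex.choose_spec
  refine ⟨Λ, A, ?_, ?_, ?_, ?_⟩
  · intro h hh
    have h1 := hA h hh
    obtain ⟨s, s', hs⟩ := hh
    obtain ⟨a, b, ha, hab⟩ := LEAF_ext S hS Φ hΦ h s s' hs
    refine ⟨a, b, ha, fun u => hinj ?_⟩
    rw [← h1 u, hab u]
  · intro h hh h' hh' s
    apply hinj
    rw [← hA _ (Λ.mul_mem hh hh') s, mul_smul, hA h' hh' s, hA h hh]
  · obtain ⟨ρ, hρ, hulf⟩ := S.ulf
    refine ⟨ρ, hρ, ?_⟩
    rintro h hh ⟨s, hs⟩ g hg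
    have h1 : h • Φ s = Φ s := by
      rw [hA h hh s, hs]
    have h2 := hulf (g • Φ s) (g * h * g⁻¹) hg (by
      rw [mul_smul, inv_smul_smul, mul_smul, h1])
    have h3 : g * h = g := by
      rw [← mul_inv_eq_one]
      exact h2
    exact mul_eq_left.1 h3
  · choose gi ai bi hi using LEAF_chart S hS Φ hΦ
    refine ⟨⋃ i, (fun h => h * gi i) '' Bl S.ρ1, isCompact_iUnion fun i =>
      (isCompact_Bl S.ρ1).image (continuous_mul_const _), ∑ i, (|ai i| + |bi i|), ?_⟩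
    intro g s
    obtain ⟨i, h, t, hh, ht, hx⟩ := S.cover (g • Φ s)
    have ht1 : |t| < 1 := by linarith
    have h1 : S.c i t = (h⁻¹ * g) • Φ s := by
      rw [mul_smul, hx, inv_smul_smul]
    have h2 := hi i ⟨t, _, s, ht1, h1⟩ t ht1
    have h3 : ((h * gi i)⁻¹ * g) • Φ s = Φ (ai i * t + bi i) := by
      rw [mul_smul, hx, h2, ← mul_smul h, inv_smul_smul]
    have h4 : (h * gi i)⁻¹ * g ∈ Λ := ⟨s, _, h3⟩
    refine ⟨_, h4, ?_, ?_⟩
    · have e : g * ((h * gi i)⁻¹ * g)⁻¹ = h * gi i := by group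
      rw [e]
      exact mem_iUnion.2 ⟨i, h, hh.le, rfl⟩
    · have h5 : A ((h * gi i)⁻¹ * g) s = ai i * t + bi i := by
        apply hinj
        rw [← hA _ h4 s, h3]
      rw [h5]
      have h6 : |ai i| + |bi i| ≤ ∑ i, (|ai i| + |bi i|) :=
        Finset.single_le_sum (f := fun i => |ai i| + |bi i|)
          (fun j _ => by positivity) (Finset.mem_univ i)
      refine le_trans ?_ h6
      refine (abs_add_le _ _).trans ?_
      rw [abs_mul]
      have := mul_le_mul_of_nonneg_left ht1.le (abs_nonneg (ai i))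
      linarith

/-- LEAF -/
theorem leaf (S : FB X) (hS : S.Aff) (T : TN S)
    (hJ : ∀ (x : X) (ε : ℝ), 0 < ε → ∃ g : G, T.J g x < ε) [Nonempty X] :
    ∃ (Λ : Subgroup G) (A : G → ℝ → ℝ),
      (∀ h ∈ Λ, ∃ a b : ℝ, a ≠ 0 ∧ ∀ s, A h s = a * s + b) ∧
      (∀ h ∈ Λ, ∀ h' ∈ Λ, ∀ s, A (h * h') s = A h (A h' s)) ∧
      (∃ ρ > 0, ∀ h ∈ Λ, (∃ s, A h s = s) → ∀ g : G, nd (g * h * g⁻¹) ≤ ρ → h = 1) ∧
      ∃ Q : Set G, IsCompact Q ∧ ∃ R : ℝ, ∀ (g : G) (s : ℝ), ∃ h ∈ Λ, g * h⁻¹ ∈ Q ∧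
        |A h s| ≤ R := by
  obtain ⟨Φ, hΦ, hinj⟩ := exists_leaf S hS T hJ
  exact leaf_of_curve S hS Φ hΦ hinj

end Pool.Agent.H88.LF
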