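import Pool.Agent.H88.LF.ManI

/-!
# MANB: the box at `x` (inverse function theorem)

`z0 = φ x`, `L` the derivative of `chAct act x x` at `(one9, z0)`.  `ξ ↦ L (ξ, 0)` on traceless
matrices (dimension `≤ 8`, injective or not) is not surjective: choose `e` not of the form `L (ξ,0)`,
`tr ξ = 0`.  `Θ (A,t) = (chAct act x x (A, z0 + t e), det A)`, `M9 × ℝ → E9 × ℝ`, is `C²` at
`(one9, 0)` with derivative `(ξ, t) ↦ (L (ξ, t e), tr ξ)` at `(one9, 0)`; note
`L (0, w) = w` (as `chAct act x x (one9, z) = z` near `z0`).  Injective by `man_inj` and choice of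
`e`, dimensions `10 = 10` (`LinearEquiv.ofInjectiveEndo`-like:
`LinearMap.linearEquivOfInjective`, `LinearEquiv.toContinuousLinearEquiv`).
`ContDiffAt.toOpenPartialHomeomorph`; the inverse is `C²` at `Θ (one9, 0)`
(`OpenPartialHomeomorph.contDiffAt_symm`, `ContDiffAt.to_localInverse`), hence near that point
(`ContDiffAt.eventually`); restrict to the open set of all good points
(`OpenPartialHomeomorph.restrOpen` / `restr`).
-/

set_option autoImplicit false

open Set Filter
open scoped Topology Manifold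

namespace Pool.Agent.H88.LF

variable {M : Type} [TopologicalSpace M] [ChartedSpace E9 M]
  [IsManifold (𝓡 9) ((⊤ : ℕ∞) : WithTop ℕ∞) M]

/-- the trace as a linear map -/
def manB_tr : M9 →ₗ[ℝ] ℝ where
  toFun ξ := ξ 0 0 + ξ 1 1 + ξ 2 2
  map_add' := by intro a b; simp only [Pi.add_apply]; ring
  map_smul' := by intro c a; simp only [Pi.smul_apply, smul_eq_mul, RingHom.id_apply]; ring

theorem manB_det (A : M9) : (Matrix.of A).det =
    A 0 0 * A 1 1 * A 2 2 - A 0 0 * A 1 2 * A 2 1 - A 0 1 * A 1 0 * A 2 2 +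
      A 0 1 * A 1 2 * A 2 0 + A 0 2 * A 1 0 * A 2 1 - A 0 2 * A 1 1 * A 2 0 := by
  rw [Matrix.det_fin_three]
  simp only [Matrix.of_apply]

theorem manB_det_smooth : ContDiff ℝ 2 (fun A : M9 => (Matrix.of A).det) := by
  simp only [manB_det]
  have hc : ∀ i j : Fin 3, ContDiff ℝ 2 (fun A : M9 => A i j) := fun i j =>
    contDiff_apply_apply (𝕜 := ℝ) (E := ℝ) i j
  exact ((((((((hc 0 0).mul (hc 1 1)).mul (hc 2 2)).sub
    (((hc 0 0).mul (hc 1 2)).mul (hc 2 1))).sub
    (((hc 0 1).mul (hc 1 0)).mul (hc 2 2))).add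
    (((hc 0 1).mul (hc 1 2)).mul (hc 2 0))).add
    (((hc 0 2).mul (hc 1 0)).mul (hc 2 1))).sub
    (((hc 0 2).mul (hc 1 1)).mul (hc 2 0)))

theorem manB_det_deriv (ξ : M9) :
    fderiv ℝ (fun A : M9 => (Matrix.of A).det) one9 ξ = manB_tr ξ := by
  have h1 : HasFDerivAt (fun A : M9 => (Matrix.of A).det)
      (fderiv ℝ (fun A : M9 => (Matrix.of A).det) one9) one9 :=
    (manB_det_smooth.differentiable (by norm_num)).differentiableAt.hasFDerivAt
  have h2 : HasDerivAt (fun s : ℝ => one9 + s • ξ) ξ 0 := by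
    simpa using ((hasDerivAt_id (0 : ℝ)).smul_const ξ).const_add one9
  have h3 : HasDerivAt (fun s : ℝ => (Matrix.of (one9 + s • ξ)).det)
      (fderiv ℝ (fun A : M9 => (Matrix.of A).det) one9 ξ) 0 := by
    have h4 : HasFDerivAt (fun A : M9 => (Matrix.of A).det)
      (fderiv ℝ (fun A : M9 => (Matrix.of A).det) one9) (one9 + (0 : ℝ) • ξ) := by
      rw [zero_smul, add_zero]; exact h1
    exact h4.comp_hasDerivAt (0 : ℝ) h2
  have h5 : ∀ i j : Fin 3, HasDerivAt (fun s : ℝ => (one9 + s • ξ) i j) (ξ i j) 0 := by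
    intro i j
    exact (hasDerivAt_pi.1 ((hasDerivAt_pi.1 h2) i)) j
  have h6 : HasDerivAt (fun s : ℝ => (Matrix.of (one9 + s • ξ)).det) (manB_tr ξ) 0 := by
    simp only [manB_det]
    have := ((((((((h5 0 0).mul (h5 1 1)).mul (h5 2 2)).sub
      (((h5 0 0).mul (h5 1 2)).mul (h5 2 1))).sub
      (((h5 0 1).mul (h5 1 0)).mul (h5 2 2))).add
      (((h5 0 1).mul (h5 1 2)).mul (h5 2 0))).add
      (((h5 0 2).mul (h5 1 0)).mul (h5 2 1))).sub
      (((h5 0 2).mul (h5 1 1)).mul (h5 2 0)))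
    refine this.congr_deriv ?_
    simp [one9, manB_tr]
  exact h3.unique h6

theorem manB_id {act : Mat → M → M} (h : SmAct M act) (x : M) (L : M9 × E9 →L[ℝ] E9)
    (hL : HasFDerivAt (chAct act x x) L (one9, chartAt E9 x x)) (w : E9) : L (0, w) = w := by
  have h1 : HasDerivAt (fun s : ℝ => ((one9, chartAt E9 x x + s • w) : M9 × E9)) (0, w) 0 := by
    refine (hasDerivAt_const (0 : ℝ) one9).prodMk ?_
    simpa using ((hasDerivAt_id (0 : ℝ)).smul_const w).const_add (chartAt E9 x x)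
  have h2 : HasDerivAt (fun s : ℝ => chAct act x x (one9, chartAt E9 x x + s • w)) (L (0, w)) 0 := by
    have h3 : HasFDerivAt (chAct act x x) L (one9, chartAt E9 x x + (0 : ℝ) • w) := by
      rw [zero_smul, add_zero]; exact hL
    exact h3.comp_hasDerivAt (0 : ℝ) h1
  have h4 : HasDerivAt (fun s : ℝ => chAct act x x (one9, chartAt E9 x x + s • w)) w 0 := by
    have h5 : HasDerivAt (fun s : ℝ => chartAt E9 x x + s • w) w 0 := by
      simpa using ((hasDerivAt_id (0 : ℝ)).smul_const w).const_add (chartAt E9 x x)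
    refine h5.congr_of_eventuallyEq ?_
    have h6 : Tendsto (fun s : ℝ => chartAt E9 x x + s • w) (𝓝 0) (𝓝 (chartAt E9 x x)) := by
      have := h5.continuousAt.tendsto
      simpa using this
    filter_upwards [h6.eventually ((chartAt E9 x).open_target.mem_nhds (mem_chart_target E9 x))]
      with s hs
    unfold chAct
    simp only [of_one9, h.one]
    exact (chartAt E9 x).right_inv hs
  exact h2.unique h4

theorem man_box {act : Mat → M → M} (h : SmAct M act) (x : M) :
    ∃ (e : E9) (Θ : OpenPartialHomeomorph (M9 × ℝ) (E9 × ℝ)) (δ ρ : ℝ), 0 < δ ∧ 0 < ρ ∧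
      (∀ p ∈ Θ.source, Θ p =
        (chAct act x x (p.1, chartAt E9 x x + p.2 • e), (Matrix.of p.1).det)) ∧
      (∀ p ∈ Θ.source, 0 < (Matrix.of p.1).det ∧
        chartAt E9 x x + p.2 • e ∈ (chartAt E9 x).target ∧
        act (Matrix.of p.1) ((chartAt E9 x).symm (chartAt E9 x x + p.2 • e)) ∈
          (chartAt E9 x).source) ∧
      (∀ q ∈ Θ.target, ContDiffAt ℝ 2 Θ.symm q) ∧
      (∀ (A : M9) (t : ℝ), nrm (Matrix.of A - 1) < ρ → |t| < δ → (A, t) ∈ Θ.source) := by
  have hdet1 : (Matrix.of one9).det = 1 := by rw [of_one9, Matrix.det_one]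
  have hsm : ContDiffAt ℝ 2 (chAct act x x) (one9, chartAt E9 x x) := by
    refine man_sm h x x one9 _ (by rw [hdet1]; exact one_pos) (mem_chart_target E9 x) ?_
    rw [of_one9, h.one, (chartAt E9 x).left_inv (mem_chart_source E9 x)]
    exact mem_chart_source E9 x
  have hL := (hsm.differentiableAt (by norm_num)).hasFDerivAt
  set L := fderiv ℝ (chAct act x x) (one9, chartAt E9 x x) with hLdef
  -- the transverse vector
  have hker : LinearMap.ker manB_tr ≠ ⊤ := by
    intro hk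
    have h1 : one9 ∈ LinearMap.ker manB_tr := by rw [hk]; trivial
    rw [LinearMap.mem_ker] at h1
    simp [manB_tr, one9] at h1
    norm_num at h1
  have hM9 : Module.finrank ℝ M9 = 9 := by
    rw [Module.finrank_pi_fintype]
    simp
  have hE9 : Module.finrank ℝ E9 = 9 := by simp [E9]
  have hkd : Module.finrank ℝ (LinearMap.ker manB_tr) < 9 := by
    rw [← hM9]; exact Submodule.finrank_lt hker
  set L1 : M9 →ₗ[ℝ] E9 := L.toLinearMap ∘ₗ LinearMap.inl ℝ M9 E9 with hL1
  have hL1a : ∀ ξ, L1 ξ = L (ξ, 0) := fun ξ => rfl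
  have hmap : Submodule.map L1 (LinearMap.ker manB_tr) ≠ ⊤ := by
    intro ht
    have h1 : Module.finrank ℝ (Submodule.map L1 (LinearMap.ker manB_tr)) ≤
        Module.finrank ℝ (LinearMap.ker manB_tr) := Submodule.finrank_map_le _ _
    rw [ht, finrank_top, hE9] at h1
    omega
  obtain ⟨e, he⟩ := SetLike.exists_not_mem_of_ne_top _ hmap rfl
  have he' : ∀ ξ : M9, manB_tr ξ = 0 → L (ξ, 0) ≠ e := by
    intro ξ hξ hc
    exact he ⟨ξ, hξ, hc⟩
  -- the map
  set Θ0 : M9 × ℝ → E9 × ℝ := fun p =>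
    (chAct act x x (p.1, chartAt E9 x x + p.2 • e), (Matrix.of p.1).det) with hΘ0
  have hin : ContDiff ℝ 2 (fun p : M9 × ℝ => ((p.1, chartAt E9 x x + p.2 • e) : M9 × E9)) :=
    contDiff_fst.prodMk (contDiff_const.add (contDiff_snd.smul contDiff_const))
  have hcomp : ContDiffAt ℝ 2 (fun p : M9 × ℝ => chAct act x x (p.1, chartAt E9 x x + p.2 • e))
      (one9, 0) := by
    refine ContDiffAt.comp (x := ((one9, 0) : M9 × ℝ))
      (f := fun p : M9 × ℝ => ((p.1, chartAt E9 x x + p.2 • e) : M9 × E9))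
      (g := chAct act x x) ?_ hin.contDiffAt
    have hin1 : ((((one9, 0) : M9 × ℝ).1, chartAt E9 x x + ((one9, 0) : M9 × ℝ).2 • e) : M9 × E9) =
        (one9, chartAt E9 x x) := by simp
    rw [hin1]; exact hsm
  have hΘs : ContDiffAt ℝ 2 Θ0 (one9, 0) :=
    hcomp.prodMk (manB_det_smooth.comp contDiff_fst).contDiffAt
  have hDin : HasFDerivAt (fun p : M9 × ℝ => ((p.1, chartAt E9 x x + p.2 • e) : M9 × E9))
      ((ContinuousLinearMap.fst ℝ M9 ℝ).prod
        ((ContinuousLinearMap.snd ℝ M9 ℝ).smulRight e)) (one9, 0) := by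
    refine HasFDerivAt.prodMk hasFDerivAt_fst ?_
    have h1 : HasFDerivAt (fun p : M9 × ℝ => p.2) (ContinuousLinearMap.snd ℝ M9 ℝ) (one9, 0) :=
      hasFDerivAt_snd
    exact (h1.smul_const e).const_add (chartAt E9 x x)
  have hD1 : HasFDerivAt (fun p : M9 × ℝ => chAct act x x (p.1, chartAt E9 x x + p.2 • e))
      (L.comp ((ContinuousLinearMap.fst ℝ M9 ℝ).prod
        ((ContinuousLinearMap.snd ℝ M9 ℝ).smulRight e))) (one9, 0) := by
    refine HasFDerivAt.comp (x := ((one9, 0) : M9 × ℝ))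
      (f := fun p : M9 × ℝ => ((p.1, chartAt E9 x x + p.2 • e) : M9 × E9))
      (g := chAct act x x) ?_ hDin
    have hin1 : ((((one9, 0) : M9 × ℝ).1, chartAt E9 x x + ((one9, 0) : M9 × ℝ).2 • e) : M9 × E9) =
        (one9, chartAt E9 x x) := by simp
    rw [hin1]; exact hL
  have hD2 : HasFDerivAt (fun p : M9 × ℝ => (Matrix.of p.1).det)
      ((fderiv ℝ (fun A : M9 => (Matrix.of A).det) one9).comp
        (ContinuousLinearMap.fst ℝ M9 ℝ)) (one9, 0) := by
    have h1 : HasFDerivAt (fun A : M9 => (Matrix.of A).det)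
      (fderiv ℝ (fun A : M9 => (Matrix.of A).det) one9) one9 :=
      (manB_det_smooth.differentiable (by norm_num)).differentiableAt.hasFDerivAt
    exact HasFDerivAt.comp (x := ((one9, 0) : M9 × ℝ)) (f := fun p : M9 × ℝ => p.1)
      (g := fun A : M9 => (Matrix.of A).det) h1 hasFDerivAt_fst
  set Dm : M9 × ℝ →L[ℝ] E9 × ℝ := (L.comp ((ContinuousLinearMap.fst ℝ M9 ℝ).prod
        ((ContinuousLinearMap.snd ℝ M9 ℝ).smulRight e))).prod
      ((fderiv ℝ (fun A : M9 => (Matrix.of A).det) one9).comp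
        (ContinuousLinearMap.fst ℝ M9 ℝ)) with hDm
  have hD : HasFDerivAt Θ0 Dm (one9, 0) := hD1.prodMk hD2
  have hinj : Function.Injective Dm.toLinearMap := by
    rw [← LinearMap.ker_eq_bot, LinearMap.ker_eq_bot']
    rintro ⟨ξ, t⟩ h0
    have h0' : Dm (ξ, t) = 0 := h0
    have h1 : L (ξ, t • e) = 0 := congrArg Prod.fst h0'
    have h2 : manB_tr ξ = 0 := by
      rw [← manB_det_deriv ξ]; exact congrArg Prod.snd h0'
    have h3 : L (ξ, t • e) = L (ξ, 0) + t • e := by
      have h4 : ((ξ, t • e) : M9 × E9) = (ξ, 0) + (0, t • e) := by simp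
      rw [h4, map_add, manB_id h x L hL]
    rw [h3] at h1
    have ht : t = 0 := by
      by_contra ht
      refine he' (-t⁻¹ • ξ) (by rw [map_smul, h2, smul_zero]) ?_
      have h5 : (((-t⁻¹) • ξ, 0) : M9 × E9) = (-t⁻¹) • (ξ, 0) := by simp
      rw [h5, map_smul, eq_neg_of_add_eq_zero_left h1, neg_smul, smul_neg, neg_neg, smul_smul,
        inv_mul_cancel₀ ht, one_smul]
    rw [ht, zero_smul, add_zero] at h1
    have h6 := man_inj h x L hL ξ h2 h1
    rw [h6, ht]
    rfl
  have hfr : Module.finrank ℝ (M9 × ℝ) = Module.finrank ℝ (E9 × ℝ) := by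
    rw [Module.finrank_prod, Module.finrank_prod, hM9, hE9]
  set eqv : (M9 × ℝ) ≃L[ℝ] (E9 × ℝ) :=
    (LinearMap.linearEquivOfInjective Dm.toLinearMap hinj hfr).toContinuousLinearEquiv with heqv
  have heq : (eqv : M9 × ℝ →L[ℝ] E9 × ℝ) = Dm := by
    refine ContinuousLinearMap.ext fun p => ?_
    rfl
  have hD' : HasFDerivAt Θ0 (eqv : M9 × ℝ →L[ℝ] E9 × ℝ) (one9, 0) := by rw [heq]; exact hD
  have hn2 : (2 : WithTop ℕ∞) ≠ 0 := by norm_num
  set P := hΘs.toOpenPartialHomeomorph Θ0 hD' hn2 with hP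
  have hPsrc : (one9, (0 : ℝ)) ∈ P.source := hΘs.mem_toOpenPartialHomeomorph_source hD' hn2
  have hPc : ∀ p, P p = Θ0 p := fun p => rfl
  have hloc : ContDiffAt ℝ 2 P.symm (Θ0 (one9, 0)) := hΘs.to_localInverse hD' hn2
  -- good points
  have g1 : ∀ᶠ p : M9 × ℝ in 𝓝 (one9, 0), 0 < (Matrix.of p.1).det := by
    have hc : Continuous (fun p : M9 × ℝ => (Matrix.of p.1).det) :=
      manB_det_smooth.continuous.comp continuous_fst
    have := (hc.tendsto (one9, 0)).eventually (lt_mem_nhds (a := 0) (by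
      simp only; rw [hdet1]; exact one_pos))
    exact this
  have g2 : ∀ᶠ p : M9 × ℝ in 𝓝 (one9, 0), chartAt E9 x x + p.2 • e ∈ (chartAt E9 x).target := by
    have hc : Tendsto (fun p : M9 × ℝ => chartAt E9 x x + p.2 • e) (𝓝 (one9, 0))
        (𝓝 (chartAt E9 x x)) := by
      have hc' : Continuous (fun p : M9 × ℝ => chartAt E9 x x + p.2 • e) := by fun_prop
      have := hc'.tendsto (one9, 0)
      simpa using this
    exact hc.eventually ((chartAt E9 x).open_target.mem_nhds (mem_chart_target E9 x))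
  have g3 : ∀ᶠ p : M9 × ℝ in 𝓝 (one9, 0),
      act (Matrix.of p.1) ((chartAt E9 x).symm (chartAt E9 x x + p.2 • e)) ∈
        (chartAt E9 x).source := by
    have hc1 : Tendsto (fun p : M9 × ℝ => (chartAt E9 x).symm (chartAt E9 x x + p.2 • e))
        (𝓝 (one9, 0)) (𝓝 x) := by
      have hc' : Continuous (fun p : M9 × ℝ => chartAt E9 x x + p.2 • e) := by fun_prop
      have h7 := hc'.tendsto (one9, 0)
      have h8 : (chartAt E9 x).symm (chartAt E9 x x) = x :=
        (chartAt E9 x).left_inv (mem_chart_source E9 x)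
      have h9 := ((chartAt E9 x).symm.continuousAt (x := chartAt E9 x x)
        (by simp)).tendsto
      rw [h8] at h9
      refine h9.comp ?_
      simpa using h7
    have hc2 : Tendsto (fun p : M9 × ℝ => ((Matrix.of p.1 : Mat), (chartAt E9 x).symm
        (chartAt E9 x x + p.2 • e))) (𝓝 (one9, 0)) (𝓝 ((1 : Mat), x)) := by
      refine Tendsto.prodMk_nhds ?_ hc1
      have hc' : Continuous (fun p : M9 × ℝ => (Matrix.of p.1 : Mat)) := continuous_fst
      have := hc'.tendsto (one9, 0)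
      rw [of_one9] at this
      exact this
    have hc3 := (man_cont h 1 x (by rw [Matrix.det_one]; exact one_pos)).tendsto
    rw [h.one] at hc3
    exact (hc3.comp hc2).eventually ((chartAt E9 x).open_source.mem_nhds (mem_chart_source E9 x))
  have g4 : ∀ᶠ p : M9 × ℝ in 𝓝 (one9, 0), ContDiffAt ℝ 2 P.symm (Θ0 p) := by
    have h10 : ∀ᶠ q in 𝓝 (Θ0 (one9, 0)), ContDiffAt ℝ 2 P.symm q :=
      hloc.eventually (by norm_num)
    exact (hΘs.continuousAt.tendsto).eventually h10
  obtain ⟨V, hV, hVo, hV0⟩ := mem_nhds_iff.1 (g1.and (g2.and (g3.and g4)))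
  refine ⟨e, P.restrOpen V hVo, ?_⟩
  have hsrc : (P.restrOpen V hVo).source = P.source ∩ V := rfl
  have hmem : (one9, (0 : ℝ)) ∈ (P.restrOpen V hVo).source := ⟨hPsrc, hV0⟩
  obtain ⟨r, hr, hball⟩ := Metric.isOpen_iff.1 (P.restrOpen V hVo).open_source _ hmem
  refine ⟨r, r, hr, hr, fun p _ => rfl, ?_, ?_, ?_⟩
  · intro p hp
    have := hV hp.2
    exact ⟨this.1, this.2.1, this.2.2.1⟩
  · intro q hq
    have h11 : (P.restrOpen V hVo).symm q ∈ (P.restrOpen V hVo).source :=
      (P.restrOpen V hVo).map_target hq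
    have h12 := (hV h11.2).2.2.2
    have h13 : Θ0 ((P.restrOpen V hVo).symm q) = q := (P.restrOpen V hVo).right_inv hq
    rw [h13] at h12
    exact h12
  · intro A t hA ht
    refine hball ?_
    rw [Metric.mem_ball, Prod.dist_eq, max_lt_iff]
    constructor
    · rw [dist_pi_lt_iff hr]
      intro i
      rw [dist_pi_lt_iff hr]
      intro j
      refine lt_of_le_of_lt ?_ hA
      have h14 : dist (A i j) (one9 i j) = |(Matrix.of A - 1) i j| := by
        rw [Real.dist_eq, Matrix.sub_apply, ← of_one9]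
        rfl
      show dist (A i j) (one9 i j) ≤ nrm (Matrix.of A - 1)
      rw [h14]
      unfold nrm
      have h15 : |(Matrix.of A - 1) i j| ≤ ∑ j', |(Matrix.of A - 1) i j'| :=
        Finset.single_le_sum (f := fun j' => |(Matrix.of A - 1) i j'|)
          (fun _ _ => abs_nonneg _) (Finset.mem_univ j)
      refine h15.trans ?_
      exact Finset.single_le_sum (f := fun i' => ∑ j', |(Matrix.of A - 1) i' j'|)
        (fun _ _ => Finset.sum_nonneg fun _ _ => abs_nonneg _) (Finset.mem_univ i)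
    · show dist t 0 < r
      rw [Real.dist_eq, sub_zero]
      exact ht

end Pool.Agent.H88.LF
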