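import Pool.Agent.H88.LF.Defs
import Pool.Agent.H88.LF.ManB

/-!
# MAN (blueprint section 13): from the manifold to a family of transverse curves

`E = EuclideanSpace ℝ (Fin 9)`, `φ = extChartAt x0`, `F(A,z) = φ(act A (φ.symm z))`, smooth near `(1, φ x0)` in `Mat × E` (open set `det > 0`).
The box at `x` is `man_box`.  (M3) transitions `c a t0 = k0 • c b τ0`:
`(k0⁻¹ k t, δ τ t) = Θ_b⁻¹ (φ_b (act k0⁻¹ (c a t)), 1)`, smooth in `t` near `t0`.
-/

set_option autoImplicit false

open Set Filter
open scoped Topology Manifold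

namespace Pool.Agent.H88.LF

/-- The action of `G` on `M` given by the function `act`. -/
@[reducible] def mkAct {M : Type} (act : Mat → M → M) (h1 : ∀ x : M, act 1 x = x)
    (hmul : ∀ (A B : Mat) (x : M), A.det = 1 → B.det = 1 → act (A * B) x = act A (act B x)) :
    MulAction G M where
  smul g x := act g.1 x
  one_smul := fun x => h1 x
  mul_smul := fun g h x => hmul g.1 h.1 x g.2 h.2

/-- the parameter curve in the chart of `x` -/
noncomputable def manCrv {M : Type} [TopologicalSpace M] [ChartedSpace E9 M] (x : M) (e : E9)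
    (s : ℝ) : M := (chartAt E9 x).symm (chartAt E9 x x + s • e)

/-- the group element of a matrix of determinant one -/
noncomputable def manG (A : M9) : G :=
  open Classical in if hd : (Matrix.of A).det = 1 then ⟨Matrix.of A, hd⟩ else 1

theorem manG_val {A : M9} (hd : (Matrix.of A).det = 1) : (manG A).1 = Matrix.of A := by
  unfold manG
  rw [dif_pos hd]

theorem manG_one : manG one9 = 1 := by
  have h : (Matrix.of one9).det = 1 := by rw [of_one9, Matrix.det_one]
  apply Subtype.ext
  rw [manG_val h, of_one9]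
  rfl

/-- the properties of the box of `man_box` -/
structure ManBox {M : Type} [TopologicalSpace M] [ChartedSpace E9 M] (act : Mat → M → M) (x : M)
    where
  e : E9
  Θ : OpenPartialHomeomorph (M9 × ℝ) (E9 × ℝ)
  δ : ℝ
  ρ : ℝ
  hδ : 0 < δ
  hρ : 0 < ρ
  h1 : ∀ p ∈ Θ.source, Θ p =
        (chAct act x x (p.1, chartAt E9 x x + p.2 • e), (Matrix.of p.1).det)
  h2 : ∀ p ∈ Θ.source, 0 < (Matrix.of p.1).det ∧
        chartAt E9 x x + p.2 • e ∈ (chartAt E9 x).target ∧
        act (Matrix.of p.1) ((chartAt E9 x).symm (chartAt E9 x x + p.2 • e)) ∈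
          (chartAt E9 x).source
  h3 : ∀ q ∈ Θ.target, ContDiffAt ℝ 2 Θ.symm q
  h4 : ∀ (A : M9) (t : ℝ), nrm (Matrix.of A - 1) < ρ → |t| < δ → (A, t) ∈ Θ.source

theorem man_nonempty_box {M : Type} [TopologicalSpace M] [ChartedSpace E9 M]
    [IsManifold (𝓡 9) ((⊤ : ℕ∞) : WithTop ℕ∞) M] {act : Mat → M → M} (h : SmAct M act) (x : M) :
    Nonempty (ManBox act x) := by
  obtain ⟨e, Θ, δ, ρ, hδ, hρ, h1, h2, h3, h4⟩ := man_box h x
  exact ⟨⟨e, Θ, δ, ρ, hδ, hρ, h1, h2, h3, h4⟩⟩

section

variable {M : Type} [TopologicalSpace M] [ChartedSpace E9 M] {act : Mat → M → M} {x : M}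

theorem ManBox.mem_one (B : ManBox act x) {s : ℝ} (hs : |s| < B.δ) : (one9, s) ∈ B.Θ.source := by
  refine B.h4 one9 s ?_ hs
  rw [of_one9, sub_self]
  have : nrm 0 = 0 := by simp [nrm]
  rw [this]
  exact B.hρ

theorem ManBox.target (B : ManBox act x) {s : ℝ} (hs : |s| < B.δ) :
    chartAt E9 x x + s • B.e ∈ (chartAt E9 x).target := (B.h2 _ (B.mem_one hs)).2.1

theorem ManBox.source (B : ManBox act x) {s : ℝ} (hs : |s| < B.δ) :
    manCrv x B.e s ∈ (chartAt E9 x).source := (chartAt E9 x).map_target (B.target hs)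

theorem ManBox.chart (B : ManBox act x) {s : ℝ} (hs : |s| < B.δ) :
    chartAt E9 x (manCrv x B.e s) = chartAt E9 x x + s • B.e :=
  (chartAt E9 x).right_inv (B.target hs)

theorem ManBox.Θ_one (B : ManBox act x) (h : SmAct M act) {s : ℝ} (hs : |s| < B.δ) :
    B.Θ (one9, s) = (chartAt E9 x (manCrv x B.e s), 1) := by
  rw [B.h1 _ (B.mem_one hs)]
  simp only [chAct, of_one9, h.one, Matrix.det_one]
  rfl

theorem ManBox.Θ_apply (B : ManBox act x) {A : M9} {s : ℝ} (hp : (A, s) ∈ B.Θ.source) :
    B.Θ (A, s) = (chartAt E9 x (act (Matrix.of A) (manCrv x B.e s)), (Matrix.of A).det) :=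
  B.h1 _ hp

/-- points near the curve have coordinates -/
theorem ManBox.lift (B : ManBox act x) (h : SmAct M act) {s : ℝ} (hs : |s| < B.δ) {ι : Type}
    {F : Filter ι} {y : ι → M} (hy : Tendsto y F (𝓝 (manCrv x B.e s))) :
    Tendsto (fun i => B.Θ.symm (chartAt E9 x (y i), 1)) F (𝓝 (one9, s)) ∧
      ∀ᶠ i in F, (Matrix.of (B.Θ.symm (chartAt E9 x (y i), 1)).1).det = 1 ∧
        y i = act (Matrix.of (B.Θ.symm (chartAt E9 x (y i), 1)).1)
          (manCrv x B.e (B.Θ.symm (chartAt E9 x (y i), 1)).2) := by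
  have hsrc := B.source hs
  have h1 : Tendsto (fun i => chartAt E9 x (y i)) F (𝓝 (chartAt E9 x (manCrv x B.e s))) :=
    ((chartAt E9 x).continuousAt hsrc).tendsto.comp hy
  have h2 : Tendsto (fun i => (chartAt E9 x (y i), (1 : ℝ))) F (𝓝 (B.Θ (one9, s))) := by
    rw [B.Θ_one h hs]
    exact h1.prodMk_nhds tendsto_const_nhds
  have htar : B.Θ (one9, s) ∈ B.Θ.target := B.Θ.map_source (B.mem_one hs)
  have h3 : Tendsto (fun i => B.Θ.symm (chartAt E9 x (y i), 1)) F (𝓝 (one9, s)) := by
    have h4 := (B.Θ.symm.continuousAt (x := B.Θ (one9, s)) (by simpa using htar)).tendsto.comp h2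
    rw [B.Θ.left_inv (B.mem_one hs)] at h4
    exact h4
  refine ⟨h3, ?_⟩
  have h5 : ∀ᶠ i in F, (chartAt E9 x (y i), (1 : ℝ)) ∈ B.Θ.target :=
    h2.eventually (B.Θ.open_target.mem_nhds htar)
  have h6 : ∀ᶠ i in F, y i ∈ (chartAt E9 x).source :=
    hy.eventually ((chartAt E9 x).open_source.mem_nhds hsrc)
  filter_upwards [h5, h6] with i h5 h6
  have h7 : B.Θ.symm (chartAt E9 x (y i), 1) ∈ B.Θ.source := B.Θ.map_target h5
  have h8 : B.Θ (B.Θ.symm (chartAt E9 x (y i), 1)) = (chartAt E9 x (y i), 1) := B.Θ.right_inv h5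
  have h9 := B.h1 _ h7
  rw [h8] at h9
  have h10 := Prod.mk.inj h9
  refine ⟨h10.2.symm, ?_⟩
  exact (chartAt E9 x).injOn h6 (B.h2 _ h7).2.2 h10.1

theorem ManBox.inj (B : ManBox act x) {A A' : M9} {s s' : ℝ} (hA : nrm (Matrix.of A - 1) < B.ρ)
    (hA' : nrm (Matrix.of A' - 1) < B.ρ) (hs : |s| < B.δ) (hs' : |s'| < B.δ)
    (hd : (Matrix.of A).det = (Matrix.of A').det)
    (he : act (Matrix.of A) (manCrv x B.e s) = act (Matrix.of A') (manCrv x B.e s')) :
    A = A' ∧ s = s' := by
  have h1 := B.h4 A s hA hs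
  have h2 := B.h4 A' s' hA' hs'
  have h3 : B.Θ (A, s) = B.Θ (A', s') := by
    rw [B.Θ_apply h1, B.Θ_apply h2, he, hd]
  exact Prod.mk.inj (B.Θ.injOn h1 h2 h3)

theorem ManBox.cont (B : ManBox act x) {s : ℝ} (hs : |s| < B.δ) :
    ContinuousAt (manCrv x B.e) s := by
  have h1 : ContinuousAt (fun s : ℝ => chartAt E9 x x + s • B.e) s := by fun_prop
  exact ContinuousAt.comp (x := s) (f := fun s : ℝ => chartAt E9 x x + s • B.e)
    (g := (chartAt E9 x).symm) ((chartAt E9 x).symm.continuousAt (by simpa using B.target hs)) h1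

end

/-- MAN -/
theorem man_preFB {M : Type} [TopologicalSpace M] [ChartedSpace (EuclideanSpace ℝ (Fin 9)) M]
    [IsManifold (𝓡 9) ((⊤ : ℕ∞) : WithTop ℕ∞) M] [T2Space M] [CompactSpace M]
    (act : Mat → M → M) (h1 : ∀ x : M, act 1 x = x)
    (hmul : ∀ (A B : Mat) (x : M), A.det = 1 → B.det = 1 → act (A * B) x = act A (act B x))
    (hsm : ContMDiffOn ((𝓘(ℝ, Fin 3 → Fin 3 → ℝ)).prod (𝓡 9)) (𝓡 9) ((⊤ : ℕ∞) : WithTop ℕ∞)
          (fun p : (Fin 3 → Fin 3 → ℝ) × M => act (Matrix.of p.1) p.2)
          {p : (Fin 3 → Fin 3 → ℝ) × M | 0 < (Matrix.of p.1).det})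
    (hfree : ∀ x : M, ∃ U ∈ 𝓝 (1 : Mat), ∀ A ∈ U, A.det = 1 → act A x = x → A = 1) :
    letI := mkAct act h1 hmul
    ContinuousSMul G M ∧ Nonempty (PreFB M) := by
  have hS : SmAct M act := ⟨h1, hmul, hsm, hfree⟩
  letI : MulAction G M := mkAct act h1 hmul
  have hsmul : ∀ (g : G) (y : M), g • y = act g.1 y := fun _ _ => rfl
  have hcs : ContinuousSMul G M := by
    refine ⟨continuous_iff_continuousAt.2 fun p => ?_⟩
    have h2 := man_cont hS p.1.1 p.2 (by rw [p.1.2]; exact one_pos)
    exact ContinuousAt.comp (x := p) (f := fun p : G × M => ((p.1.1 : Mat), p.2))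
      (g := fun p : Mat × M => act p.1 p.2) h2
      ((closedEmb_val.continuous.comp continuous_fst).prodMk continuous_snd).continuousAt
  refine ⟨hcs, ⟨?_⟩⟩
  have B : ∀ x : M, ManBox act x := fun x => (man_nonempty_box hS x).some
  have hδt : ∀ (x : M) (t : ℝ), |t| < 1 → |(B x).δ * t| < (B x).δ := by
    intro x t ht
    rw [abs_mul, abs_of_pos (B x).hδ]
    have := mul_lt_mul_of_pos_left ht (B x).hδ
    rwa [mul_one] at this
  exact
    { A := M
      c := fun x t => manCrv x (B x).e ((B x).δ * t)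
      ρ := fun x => (B x).ρ
      hρ := fun x => (B x).hρ
      cont := by
        intro x t ht
        exact ContinuousAt.comp (x := t) (f := fun t : ℝ => (B x).δ * t) (g := manCrv x (B x).e)
          ((B x).cont (hδt x t ht)) (by fun_prop)
      inj := by
        intro x h h' t t' ht ht' hh hh' he
        have := (B x).inj (A := h.1) (A' := h'.1) (s := (B x).δ * t) (s' := (B x).δ * t') hh hh'
          (hδt x t ht) (hδt x t' ht') (h.2.trans h'.2.symm) he
        exact ⟨Subtype.ext this.1, mul_left_cancel₀ (B x).hδ.ne' this.2⟩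
      opn := by
        intro x t ht ε hε
        obtain ⟨hl1, hl2⟩ := (B x).lift hS (hδt x t ht) (F := 𝓝 (manCrv x (B x).e ((B x).δ * t)))
          (y := fun y => y) tendsto_id
        have hnr : Tendsto (fun y => nrm (Matrix.of ((B x).Θ.symm (chartAt E9 x y, 1)).1 - 1))
            (𝓝 (manCrv x (B x).e ((B x).δ * t))) (𝓝 0) := by
          have hc : Continuous (fun p : M9 × ℝ => nrm (Matrix.of p.1 - 1)) := by
            unfold nrm
            simp only [Matrix.sub_apply, Matrix.of_apply]
            fun_prop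
          have h3 := (hc.tendsto (one9, (B x).δ * t)).comp hl1
          have h4 : nrm (Matrix.of (one9, (B x).δ * t).1 - 1) = 0 := by
            simp only
            rw [of_one9, sub_self]
            simp [nrm]
          rw [h4] at h3
          exact h3
        have ht2 : Tendsto (fun y => ((B x).Θ.symm (chartAt E9 x y, 1)).2 / (B x).δ)
            (𝓝 (manCrv x (B x).e ((B x).δ * t))) (𝓝 t) := by
          have h3 := ((continuous_snd.tendsto (one9, (B x).δ * t)).comp hl1).div_const (B x).δ
          have h4 : (one9, (B x).δ * t).2 / (B x).δ = t := by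
            simp only
            rw [mul_div_cancel_left₀ _ (B x).hδ.ne']
          rw [h4] at h3
          exact h3
        have ev1 := hnr.eventually (gt_mem_nhds hε)
        have ev2 := ht2.eventually (Metric.ball_mem_nhds t hε)
        have ev3 := ht2.eventually ((continuous_abs.tendsto t).eventually (gt_mem_nhds ht))
        filter_upwards [hl2, ev1, ev2, ev3] with y hy e1 e2 e3
        refine ⟨manG ((B x).Θ.symm (chartAt E9 x y, 1)).1,
          ((B x).Θ.symm (chartAt E9 x y, 1)).2 / (B x).δ, ?_, ?_, e3, ?_⟩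
        · unfold nd
          rw [manG_val hy.1]
          exact e1
        · exact e2
        · rw [mul_div_cancel₀ _ (B x).hδ.ne', hsmul, manG_val hy.1]
          exact hy.2
      cover := by
        intro x
        refine ⟨x, 1, ?_⟩
        rw [one_smul, mul_zero]
        show x = (chartAt E9 x).symm (chartAt E9 x x + (0 : ℝ) • (B x).e)
        rw [zero_smul, add_zero, (chartAt E9 x).left_inv (mem_chart_source E9 x)]
      trans := by
        intro a b t0 τ0 k0 ht0 hτ0 hc
        have hc' : k0⁻¹ • manCrv a (B a).e ((B a).δ * t0) = manCrv b (B b).e ((B b).δ * τ0) := by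
          rw [hc, inv_smul_smul]
        have hcontA : ContinuousAt (fun t : ℝ => manCrv a (B a).e ((B a).δ * t)) t0 :=
          ContinuousAt.comp (x := t0) (f := fun t : ℝ => (B a).δ * t) (g := manCrv a (B a).e)
            ((B a).cont (hδt a t0 ht0)) (by fun_prop)
        have hy : Tendsto (fun t : ℝ => k0⁻¹ • manCrv a (B a).e ((B a).δ * t)) (𝓝 t0)
            (𝓝 (manCrv b (B b).e ((B b).δ * τ0))) := by
          rw [← hc']
          exact (hcontA.const_smul k0⁻¹).tendsto
        obtain ⟨hl1, hl2⟩ := (B b).lift hS (hδt b τ0 hτ0) hy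
        set Q : ℝ → M9 × ℝ := fun t =>
          (B b).Θ.symm (chartAt E9 b (k0⁻¹ • manCrv a (B a).e ((B a).δ * t)), 1) with hQ
        have hQ0 : Q t0 = (one9, (B b).δ * τ0) := by
          rw [hQ]
          simp only
          rw [hc', ← (B b).Θ_one hS (hδt b τ0 hτ0), (B b).Θ.left_inv ((B b).mem_one (hδt b τ0 hτ0))]
        have hQs : ContDiffAt ℝ 2 Q t0 := by
          have hin : ContDiffAt ℝ 2 (fun t : ℝ =>
              (chAct act a b (Matrix.of.symm (k0⁻¹).1, chartAt E9 a a + ((B a).δ * t) • (B a).e), (1 : ℝ))) t0 := by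
            refine ContDiffAt.prodMk ?_ contDiffAt_const
            have h5 : ContDiffAt ℝ 2 (fun t : ℝ =>
                ((Matrix.of.symm (k0⁻¹).1 : M9), chartAt E9 a a + ((B a).δ * t) • (B a).e)) t0 := by
              refine ContDiffAt.prodMk contDiffAt_const ?_
              exact contDiffAt_const.add ((contDiffAt_const.mul contDiffAt_id).smul
                contDiffAt_const)
            refine ContDiffAt.comp (x := t0) (f := fun t : ℝ =>
                ((Matrix.of.symm (k0⁻¹).1 : M9), chartAt E9 a a + ((B a).δ * t) • (B a).e))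
                (g := chAct act a b) ?_ h5
            refine man_sm hS a b _ _ ?_ ((B a).target (hδt a t0 ht0)) ?_
            · show 0 < (k0⁻¹).1.det
              rw [(k0⁻¹).2]; exact one_pos
            · show k0⁻¹ • manCrv a (B a).e ((B a).δ * t0) ∈ _
              rw [hc']
              exact (B b).source (hδt b τ0 hτ0)
          refine ContDiffAt.comp (x := t0) (f := fun t : ℝ =>
              (chAct act a b (Matrix.of.symm (k0⁻¹).1, chartAt E9 a a + ((B a).δ * t) • (B a).e), (1 : ℝ)))
              (g := (B b).Θ.symm) ?_ hin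
          refine (B b).h3 _ ?_
          have h6 : (chAct act a b (Matrix.of.symm (k0⁻¹).1, chartAt E9 a a + ((B a).δ * t0) • (B a).e), (1 : ℝ))
              = (B b).Θ (one9, (B b).δ * τ0) := by
            rw [(B b).Θ_one hS (hδt b τ0 hτ0), ← hc']
            rfl
          rw [h6]
          exact (B b).Θ.map_source ((B b).mem_one (hδt b τ0 hτ0))
        refine ⟨fun t => k0 * manG (Q t).1, fun t => (Q t).2 / (B b).δ, ?_, ?_, ?_, ?_, ?_⟩
        · simp only
          rw [hQ0]
          simp only
          rw [manG_one, mul_one]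
        · simp only
          rw [hQ0]
          exact mul_div_cancel_left₀ _ (B b).hδ.ne'
        · intro i j
          have h9 : ContDiffAt ℝ 2 (fun t => ∑ l, k0.1 i l * (Q t).1 l j) t0 := by
            refine ContDiffAt.sum fun l _ => contDiffAt_const.mul ?_
            have h10 : ContDiffAt ℝ 2 (fun t => (Q t).1) t0 := contDiffAt_fst.comp t0 hQs
            exact (contDiffAt_pi.1 ((contDiffAt_pi.1 h10) l)) j
          refine h9.congr_of_eventuallyEq ?_
          filter_upwards [hl2] with t ht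
          show (k0.1 * (manG (Q t).1).1) i j = _
          rw [manG_val ht.1, Matrix.mul_apply]
          rfl
        · exact (contDiffAt_snd.comp t0 hQs).div_const _
        · filter_upwards [hl2] with t ht
          rw [mul_smul, mul_div_cancel₀ _ (B b).hδ.ne', ← inv_smul_eq_iff, hsmul (manG _),
            manG_val ht.1]
          exact ht.2 }

end Pool.Agent.H88.LF
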