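import Pool.Agent.H88.LF.Defs

/-!
# PRE: from an infinite family of transverse curves to a finite flow box structure

`X` compact.  For each `x` write `x = h_x c_{a}(0)`.  The curve `h_x c_a` satisfies: `{h h_x c_a(t) : nd h < ε, |t| < 1/2}` is a
neighbourhood of `x` for every `ε > 0` (`opn` at `t = 0` transported by `h_x`; conjugation by `h_x` is continuous).
Injectivity: `h h_x c_a(t) = h' h_x c_a(t')` gives `h_x⁻¹hh_x = h_x⁻¹h'h_x`, `t = t'` if the conjugates have `nd < ρ a`, which holds if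
`nd h, nd h' < r_x := ρ a /(nrm h_x * nrm h_x⁻¹ + 1)`.  First finite subcover of the sets `{h h_x c_a(t) : nd h < r_x/10, |t| < 1/2}`, then
`ρ0` := a small multiple of the minimum of the finitely many `r_x` (at most `1`), `ρ1 = ρ0/100`, and for each of the finitely
many curves `h_x c_a` add the translates by a finite `ρ1/8`-net (in the sense `nd (b b_l⁻¹) < ρ1`) of the compact ball `nd b ≤ r_x/10`.
(Alternatively: choose for every `x` the radius as above, take the infimum over a finite subcover, and cover again: for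
`x` the point `x` itself is `h_x c_a(0)`, but its radius `r_x` need not be bounded below, therefore the net.)
Transitions: `h c_a(t) = k0 h' c_b(τ)` iff `c_a(t) = (h⁻¹k0h') c_b(τ)`.  `deriv τ t0 ≠ 0` is automatic: compose the
transition `a → b` with the reverse transition `b → a`; by `inj` the composition is the identity near `t0`; chain rule.
-/

set_option autoImplicit false

open Set Filter
open scoped Topology

namespace Pool.Agent.H88.LF

theorem pre_nrm_nonneg (A : Mat) : 0 ≤ nrm A :=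
  Finset.sum_nonneg fun _ _ => Finset.sum_nonneg fun _ _ => abs_nonneg _

theorem pre_nrm_add (A B : Mat) : nrm (A + B) ≤ nrm A + nrm B := by
  unfold nrm
  rw [← Finset.sum_add_distrib]
  refine Finset.sum_le_sum fun i _ => ?_
  rw [← Finset.sum_add_distrib]
  exact Finset.sum_le_sum fun j _ => abs_add_le _ _

theorem pre_nrm_mul (A B : Mat) : nrm (A * B) ≤ nrm A * nrm B := by
  have h1 : nrm (A * B) ≤ ∑ i, ∑ j, ∑ k, |A i k| * |B k j| := by
    unfold nrm
    refine Finset.sum_le_sum fun i _ => Finset.sum_le_sum fun j _ => ?_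
    rw [Matrix.mul_apply]
    refine (Finset.abs_sum_le_sum_abs _ _).trans (le_of_eq ?_)
    exact Finset.sum_congr rfl fun k _ => abs_mul _ _
  refine h1.trans ?_
  have h2 : nrm A * nrm B = ∑ i, ∑ k, |A i k| * nrm B := by
    unfold nrm
    rw [Finset.sum_mul]
    exact Finset.sum_congr rfl fun i _ => Finset.sum_mul _ _ _
  rw [h2]
  refine Finset.sum_le_sum fun i _ => ?_
  rw [Finset.sum_comm]
  refine Finset.sum_le_sum fun k _ => ?_
  rw [← Finset.mul_sum]
  refine mul_le_mul_of_nonneg_left ?_ (abs_nonneg _)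
  unfold nrm
  exact Finset.single_le_sum (f := fun i => ∑ j, |B i j|)
    (fun _ _ => Finset.sum_nonneg fun _ _ => abs_nonneg _) (Finset.mem_univ k)

theorem pre_nrm_one : nrm 1 = 3 := by
  unfold nrm
  simp [Fin.sum_univ_three, Matrix.one_apply]
  norm_num

theorem pre_nd_nonneg (g : G) : 0 ≤ nd g := pre_nrm_nonneg _

theorem pre_nd_one : nd 1 = 0 := by
  unfold nd nrm
  simp

theorem pre_nd_conj (h g : G) : nd (h * g * h⁻¹) ≤ nrm h.1 * nd g * nrm (h⁻¹).1 := by
  have h1 : (h * g * h⁻¹).1 - 1 = h.1 * (g.1 - 1) * (h⁻¹).1 := by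
    have h2 : h.1 * (h⁻¹).1 = 1 := by
      rw [← Matrix.SpecialLinearGroup.coe_mul, mul_inv_cancel, Matrix.SpecialLinearGroup.coe_one]
    rw [mul_sub, sub_mul, mul_one, h2, Matrix.SpecialLinearGroup.coe_mul,
      Matrix.SpecialLinearGroup.coe_mul]
  unfold nd
  rw [h1]
  refine (pre_nrm_mul _ _).trans ?_
  exact mul_le_mul_of_nonneg_right (pre_nrm_mul _ _) (pre_nrm_nonneg _)

theorem pre_nd_mul (h b : G) : nd (h * b) ≤ nd h * (3 + nd b) + nd b := by
  have h1 : (h * b).1 - 1 = (h.1 - 1) * b.1 + (b.1 - 1) := by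
    rw [Matrix.SpecialLinearGroup.coe_mul, sub_mul, one_mul]
    abel
  have h2 : nrm b.1 ≤ 3 + nd b := by
    have h3 : b.1 = 1 + (b.1 - 1) := by abel
    conv_lhs => rw [h3]
    refine (pre_nrm_add _ _).trans ?_
    rw [pre_nrm_one]
    exact le_rfl
  unfold nd at *
  rw [h1]
  refine (pre_nrm_add _ _).trans (add_le_add ?_ le_rfl)
  exact (pre_nrm_mul _ _).trans (mul_le_mul_of_nonneg_left h2 (pre_nrm_nonneg _))

theorem pre_nrm_cont : Continuous nrm := by
  unfold nrm
  refine continuous_finsetSum _ fun i _ => continuous_finsetSum _ fun j _ => ?_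
  exact continuous_abs.comp ((continuous_apply j).comp (continuous_apply i))

theorem pre_nd_cont : Continuous nd := by
  unfold nd
  exact pre_nrm_cont.comp (closedEmb_val.continuous.sub continuous_const)

/-- balls are compact -/
theorem pre_compact (s : ℝ) : IsCompact {b : G | nd b ≤ s} := by
  have h1 : IsCompact {A : Mat | nrm (A - 1) ≤ s} := by
    refine IsCompact.of_isClosed_subset (isCompact_univ_pi (fun i : Fin 3 =>
      isCompact_univ_pi (fun j : Fin 3 =>
        (isCompact_Icc : IsCompact (Icc ((1 : Mat) i j - s) ((1 : Mat) i j + s)))))) ?_ ?_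
    · exact isClosed_le (pre_nrm_cont.comp (continuous_id.sub continuous_const)) continuous_const
    · intro A hA i _ j _
      have h2 : |(A - 1) i j| ≤ nrm (A - 1) := by
        unfold nrm
        refine (Finset.single_le_sum (f := fun j => |(A - 1) i j|) (fun _ _ => abs_nonneg _)
          (Finset.mem_univ j)).trans ?_
        exact Finset.single_le_sum (f := fun i => ∑ j, |(A - 1) i j|)
          (fun _ _ => Finset.sum_nonneg fun _ _ => abs_nonneg _) (Finset.mem_univ i)
      have h3 := abs_le.1 (h2.trans hA)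
      rw [Matrix.sub_apply] at h3
      exact ⟨by linarith [h3.1], by linarith [h3.2]⟩
  exact closedEmb_val.isCompact_preimage h1

/-- finite nets -/
theorem pre_net (s ρ : ℝ) (hρ : 0 < ρ) : ∃ N : Finset G, (∀ b ∈ N, nd b ≤ s) ∧
    ∀ b : G, nd b ≤ s → ∃ b' ∈ N, nd (b * b'⁻¹) < ρ := by
  obtain ⟨N, hN, hc⟩ := (pre_compact s).elim_nhds_subcover (fun b' => {b : G | nd (b * b'⁻¹) < ρ})
    (fun b' _ => by
      refine (isOpen_lt (pre_nd_cont.comp (continuous_id.mul continuous_const))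
        continuous_const).mem_nhds ?_
      change nd (b' * b'⁻¹) < ρ
      rw [mul_inv_cancel, pre_nd_one]
      exact hρ)
  refine ⟨N, hN, fun b hb => ?_⟩
  have h1 := hc hb
  simp only [Set.mem_iUnion, Set.mem_ofPred_eq, exists_prop] at h1
  exact h1

section

variable {X : Type} [TopologicalSpace X] [MulAction G X] [ContinuousSMul G X]

/-- transport of the neighbourhoods -/
theorem pre_opn (P : PreFB X) (a : P.A) (k : G) (t : ℝ) (ht : |t| < 1) (ε : ℝ) (hε : 0 < ε)
    (δ : ℝ) (hδ : 0 < δ) :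
    {x | ∃ (h : G) (t' : ℝ), nd h < ε ∧ |t' - t| < δ ∧ |t'| < 1 ∧ x = h • k • P.c a t'} ∈
      𝓝 (k • P.c a t) := by
  set m : ℝ := nrm k.1 * nrm (k⁻¹).1 + 1 with hm
  have hm0 : 0 < m := by
    have := mul_nonneg (pre_nrm_nonneg k.1) (pre_nrm_nonneg (k⁻¹).1)
    linarith
  have h1 := P.opn a t ht (min δ (ε / m)) (lt_min hδ (div_pos hε hm0))
  have h2 : (fun x => k⁻¹ • x) ⁻¹' {x | ∃ (h : G) (t' : ℝ), nd h < min δ (ε / m) ∧
      |t' - t| < min δ (ε / m) ∧ |t'| < 1 ∧ x = h • P.c a t'} ∈ 𝓝 (k • P.c a t) := by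
    refine (continuous_const_smul k⁻¹).continuousAt.preimage_mem_nhds ?_
    rw [inv_smul_smul]
    exact h1
  refine Filter.mem_of_superset h2 ?_
  rintro x ⟨h, t', hh, ht', ht1, hx⟩
  refine ⟨k * h * k⁻¹, t', ?_, lt_of_lt_of_le ht' (min_le_left _ _), ht1, ?_⟩
  · refine lt_of_le_of_lt (pre_nd_conj k h) ?_
    have h3 : nd h < ε / m := lt_of_lt_of_le hh (min_le_right _ _)
    rw [lt_div_iff₀ hm0] at h3
    have h4 : nrm k.1 * nd h * nrm (k⁻¹).1 ≤ nd h * m := by
      rw [hm]
      have := pre_nd_nonneg h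
      nlinarith
    linarith
  · have h5 : k⁻¹ • x = h • P.c a t' := hx
    have h6 : x = k • (k⁻¹ • x) := (smul_inv_smul k x).symm
    rw [h6, h5, mul_smul, mul_smul, inv_smul_smul]

/-- transitions with nonzero derivative -/
theorem pre_trans (P : PreFB X) (a b : P.A) (t0 τ0 : ℝ) (k0 : G) (ht : |t0| < 1) (hτ : |τ0| < 1)
    (h : P.c a t0 = k0 • P.c b τ0) :
    ∃ (k : ℝ → G) (τ : ℝ → ℝ), k t0 = k0 ∧ τ t0 = τ0 ∧
      (∀ i j, ContDiffAt ℝ 2 (fun t => (k t).1 i j) t0) ∧ ContDiffAt ℝ 2 τ t0 ∧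
      deriv τ t0 ≠ 0 ∧ ∀ᶠ t in 𝓝 t0, P.c a t = k t • P.c b (τ t) := by
  obtain ⟨k, τ, hk0, hτ0, hk, hτc, hev⟩ := P.trans a b t0 τ0 k0 ht hτ h
  have h' : P.c b τ0 = k0⁻¹ • P.c a t0 := by rw [h, inv_smul_smul]
  obtain ⟨k', τ', hk0', hτ0', hk', hτc', hev'⟩ := P.trans b a τ0 t0 k0⁻¹ hτ ht h'
  refine ⟨k, τ, hk0, hτ0, hk, hτc, ?_, hev⟩
  have hτcont : ContinuousAt τ t0 := hτc.continuousAt
  have hτ'cont : ContinuousAt τ' τ0 := hτc'.continuousAt
  have hkcont : ContinuousAt k t0 := by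
    rw [closedEmb_val.isInducing.continuousAt_iff]
    refine continuousAt_pi.2 fun i => continuousAt_pi.2 fun j => (hk i j).continuousAt
  have hk'cont : ContinuousAt k' τ0 := by
    rw [closedEmb_val.isInducing.continuousAt_iff]
    refine continuousAt_pi.2 fun i => continuousAt_pi.2 fun j => (hk' i j).continuousAt
  have hcomp : ContinuousAt (fun t => τ' (τ t)) t0 := by
    refine ContinuousAt.comp (g := τ') ?_ hτcont
    rw [hτ0]; exact hτ'cont
  have hkk : ContinuousAt (fun t => nd (k t * k' (τ t))) t0 := by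
    refine pre_nd_cont.continuousAt.comp (hkcont.mul ?_)
    refine ContinuousAt.comp (g := k') ?_ hτcont
    rw [hτ0]; exact hk'cont
  have hlt : ∀ᶠ t in 𝓝 t0, nd (k t * k' (τ t)) < P.ρ a := by
    refine hkk.eventually_lt continuousAt_const ?_
    rw [hk0, hτ0, hk0', mul_inv_cancel, pre_nd_one]
    exact P.hρ a
  have h1 : ∀ᶠ t in 𝓝 t0, |τ' (τ t)| < 1 := by
    refine (continuous_abs.continuousAt.comp hcomp).eventually_lt continuousAt_const ?_
    simp only [Function.comp]
    rw [hτ0, hτ0']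
    exact ht
  have h2 : ∀ᶠ t in 𝓝 t0, |t| < 1 :=
    continuous_abs.continuousAt.eventually_lt continuousAt_const ht
  have h3 : ∀ᶠ t in 𝓝 t0, P.c b (τ t) = k' (τ t) • P.c a (τ' (τ t)) := by
    have h4 : Tendsto τ (𝓝 t0) (𝓝 τ0) := by
      rw [← hτ0]; exact hτcont
    exact h4.eventually hev'
  have hid : (fun t => τ' (τ t)) =ᶠ[𝓝 t0] fun t => t := by
    filter_upwards [hev, hlt, h1, h2, h3] with t e1 e2 e3 e4 e5
    have e6 : (1 : G) • P.c a t = (k t * k' (τ t)) • P.c a (τ' (τ t)) := by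
      rw [one_smul, mul_smul, ← e5, ← e1]
    exact (P.inj a 1 (k t * k' (τ t)) t (τ' (τ t)) e4 e3 (by rw [pre_nd_one]; exact P.hρ a)
      e2 e6).2.symm
  intro hd
  have hdτ : HasDerivAt τ (deriv τ t0) t0 := (hτc.differentiableAt (by norm_num)).hasDerivAt
  have hdτ' : HasDerivAt τ' (deriv τ' τ0) (τ t0) := by
    rw [hτ0]
    exact (hτc'.differentiableAt (by norm_num)).hasDerivAt
  have hcd : HasDerivAt (fun t => τ' (τ t)) (deriv τ' τ0 * deriv τ t0) t0 := hdτ'.comp t0 hdτ
  have hcd' : HasDerivAt (fun t : ℝ => t) (deriv τ' τ0 * deriv τ t0) t0 :=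
    hcd.congr_of_eventuallyEq hid.symm
  have h7 := hcd'.unique (hasDerivAt_id t0)
  rw [hd, mul_zero] at h7
  exact zero_ne_one h7

/-- transitions of translates -/
theorem pre_trans' (P : PreFB X) (a b : P.A) (g g' : G) (t0 τ0 : ℝ) (k0 : G) (ht : |t0| < 1)
    (hτ : |τ0| < 1) (h : g • P.c a t0 = k0 • g' • P.c b τ0) :
    ∃ (k : ℝ → G) (τ : ℝ → ℝ), k t0 = k0 ∧ τ t0 = τ0 ∧
      (∀ i j, ContDiffAt ℝ 2 (fun t => (k t).1 i j) t0) ∧ ContDiffAt ℝ 2 τ t0 ∧
      deriv τ t0 ≠ 0 ∧ ∀ᶠ t in 𝓝 t0, g • P.c a t = k t • g' • P.c b (τ t) := by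
  have h' : P.c a t0 = (g⁻¹ * k0 * g') • P.c b τ0 := by
    rw [mul_smul, mul_smul, ← h, inv_smul_smul]
  obtain ⟨k, τ, hk0, hτ0, hk, hτc, hd, hev⟩ := pre_trans P a b t0 τ0 _ ht hτ h'
  refine ⟨fun t => g * k t * g'⁻¹, τ, ?_, hτ0, ?_, hτc, hd, ?_⟩
  · simp only [hk0]
    group
  · intro i j
    have h1 : (fun t => (g * k t * g'⁻¹).1 i j) =
        fun t => ∑ q, (∑ p, g.1 i p * (k t).1 p q) * (g'⁻¹).1 q j := by
      funext t
      rw [Matrix.SpecialLinearGroup.coe_mul, Matrix.SpecialLinearGroup.coe_mul,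
        Matrix.mul_apply]
      exact Finset.sum_congr rfl fun q _ => by rw [Matrix.mul_apply]
    rw [h1]
    refine ContDiffAt.sum fun q _ => ContDiffAt.mul (ContDiffAt.sum fun p _ =>
      contDiffAt_const.mul (hk p q)) contDiffAt_const
  · filter_upwards [hev] with t e1
    rw [mul_smul, mul_smul, inv_smul_smul, ← e1]

end

/-- PRE -/
theorem preFB_toFB {X : Type} [MetricSpace X] [CompactSpace X] [MulAction G X]
    [ContinuousSMul G X] (P : PreFB X) :
    ∃ S : FB X, ∀ i : Fin S.n, ∃ (a : P.A) (h : G), ∀ t, S.c i t = h • P.c a t := by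
  classical
  choose a h hx using P.cover
  set m : X → ℝ := fun x => nrm ((h x)⁻¹).1 * nrm (h x).1 + 1 with hm
  have hm1 : ∀ x, 1 ≤ m x := fun x => by
    have := mul_nonneg (pre_nrm_nonneg ((h x)⁻¹).1) (pre_nrm_nonneg (h x).1)
    rw [hm]; simp only; linarith
  have hm0 : ∀ x, 0 < m x := fun x => lt_of_lt_of_le one_pos (hm1 x)
  set r : X → ℝ := fun x => min 1 (P.ρ (a x) / m x) with hr
  have hr0 : ∀ x, 0 < r x := fun x => lt_min one_pos (div_pos (P.hρ _) (hm0 x))
  have hr1 : ∀ x, r x ≤ 1 := fun x => min_le_left _ _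
  -- conjugates are small
  have hconj : ∀ x (g : G), nd g < r x → nd ((h x)⁻¹ * g * h x) < P.ρ (a x) := by
    intro x g hg
    have h1 := pre_nd_conj (h x)⁻¹ g
    rw [inv_inv] at h1
    have h2 : nd g < P.ρ (a x) / m x := lt_of_lt_of_le hg (min_le_right _ _)
    rw [lt_div_iff₀ (hm0 x)] at h2
    have h3 : nrm ((h x)⁻¹).1 * nd g * nrm (h x).1 ≤ nd g * m x := by
      rw [hm]
      have := pre_nd_nonneg g
      simp only
      nlinarith
    linarith
  -- finite subcover
  obtain ⟨T, hT⟩ := isCompact_univ.elim_nhds_subcover'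
    (fun x _ => {y | ∃ (g : G) (t' : ℝ), nd g < r x / 10 ∧ |t' - 0| < 1 / 2 ∧ |t'| < 1 ∧
      y = g • h x • P.c (a x) t'}) (fun x _ => by
        have h1 := pre_opn P (a x) (h x) 0 (by simp) (r x / 10)
          (div_pos (hr0 x) (by norm_num)) (1 / 2) (by norm_num)
        rw [← hx x] at h1
        exact h1)
  -- the minimum of the radii
  obtain ⟨R, hR0, hR1, hR⟩ : ∃ R : ℝ, 0 < R ∧ R ≤ 1 ∧ ∀ x ∈ T, R ≤ r x.1 := by
    clear hT
    induction T using Finset.induction_on with
    | empty => exact ⟨1, one_pos, le_rfl, fun x hx => absurd hx (Finset.notMem_empty x)⟩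
    | insert x T _ ih =>
      obtain ⟨R, h1, h2, h3⟩ := ih
      refine ⟨min R (r x.1), lt_min h1 (hr0 _), (min_le_left _ _).trans h2, fun y hy => ?_⟩
      rcases Finset.mem_insert.1 hy with rfl | hy
      · exact min_le_right _ _
      · exact (min_le_left _ _).trans (h3 y hy)
  -- the nets
  choose N hN1 hN2 using fun x : X => pre_net (r x / 10) (R / 1000) (by positivity)
  set L : List (P.A × G) := (T.biUnion fun x => (N x.1).image fun b => (a x.1, b * h x.1)).toList
    with hL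
  have hLmem : ∀ p, p ∈ L ↔ ∃ x ∈ T, ∃ b ∈ N x.1, (a x.1, b * h x.1) = p := by
    intro p
    rw [hL, Finset.mem_toList, Finset.mem_biUnion]
    simp only [Finset.mem_image]
  have hget : ∀ i : Fin L.length, ∃ x ∈ T, ∃ b ∈ N x.1, (a x.1, b * h x.1) = L.get i :=
    fun i => (hLmem _).1 (List.get_mem L i)
  refine ⟨{
    n := L.length
    c := fun i t => (L.get i).2 • P.c (L.get i).1 t
    ρ0 := R / 10
    ρ1 := R / 1000
    hρ1 := by positivity
    hρ := by linarith
    hρ0 := by linarith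
    cont := fun i t ht => (P.cont _ t ht).const_smul _
    inj := ?_
    opn := fun i t ht ε hε => pre_opn P _ _ t ht ε hε ε hε
    cover := ?_
    trans := fun i j t0 τ0 k0 ht hτ hk => pre_trans' P _ _ _ _ t0 τ0 k0 ht hτ hk }, ?_⟩
  · intro i g g' t t' ht ht' hg hg' he
    obtain ⟨x, hxT, b, hb, hp⟩ := hget i
    rw [← hp] at he
    simp only at he
    have hbn := hN1 x.1 b hb
    have hb0 := pre_nd_nonneg b
    have hRx := hR x hxT
    have hrx := hr1 x.1
    have key : ∀ g : G, nd g < R / 10 → nd (g * b) < r x.1 := by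
      intro g hg
      refine lt_of_le_of_lt (pre_nd_mul g b) ?_
      have h1 := pre_nd_nonneg g
      have h2 : nd g * (3 + nd b) ≤ (R / 10) * 4 := by
        refine mul_le_mul hg.le (by linarith) (by linarith) (by linarith)
      linarith [hr0 x.1]
    have h1 : ((h x.1)⁻¹ * (g * b) * h x.1) • P.c (a x.1) t =
        ((h x.1)⁻¹ * (g' * b) * h x.1) • P.c (a x.1) t' := by
      have h2 : ∀ (g : G) (y : X), ((h x.1)⁻¹ * (g * b) * h x.1) • y =
          (h x.1)⁻¹ • (g • (b * h x.1) • y) := by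
        intro g y
        rw [smul_smul, smul_smul]
        congr 1
        group
      rw [h2, h2, he]
    obtain ⟨h3, h4⟩ := P.inj (a x.1) _ _ t t' ht ht' (hconj x.1 _ (key g hg))
      (hconj x.1 _ (key g' hg')) h1
    refine ⟨?_, h4⟩
    have h5 := mul_left_cancel (mul_right_cancel h3)
    exact mul_right_cancel h5
  · intro y
    have h1 := hT (Set.mem_univ y)
    simp only [Set.mem_iUnion, Set.mem_ofPred_eq, exists_prop] at h1
    obtain ⟨x, hxT, g, t', hg, ht', ht1, hy⟩ := h1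
    obtain ⟨b, hb, hgb⟩ := hN2 x.1 g hg.le
    obtain ⟨i, hi⟩ := List.get_of_mem ((hLmem (a x.1, b * h x.1)).2 ⟨x, hxT, b, hb, rfl⟩)
    refine ⟨i, g * b⁻¹, t', hgb, by simpa using ht', ?_⟩
    rw [hi]
    simp only
    rw [hy, smul_smul, smul_smul]
    congr 1
    group
  · exact fun i => ⟨(L.get i).1, (L.get i).2, fun t => rfl⟩

end Pool.Agent.H88.LF
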