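import Pool.Agent.H88.LF.FBB

/-!
# RES: restriction of a flow box structure to the clopen invariant set of points without compact orbit

`Y = {x // ¬ CO x}`, compact, action restricted (`CO_smul_iff`).  `c i ((-1,1))` is connected (`cont`), so it lies in `Y` or in the complement.  Keep the indices `i` with `c i 0 ∈ Y`
(reindex by `Fin n'`), and let the curve be `t ↦ c i t` if `|t| < 1` and `c i 0` otherwise.  All fields restrict; `cover`: a normal representation `x = h • c i t` of `x ∈ Y` has `c i t ∈ Y`.
`trans`: the functions `k, τ` of `S.trans`; the equation holds near `t0`, where `|t| < 1`, `|τ t| < 1`.  (`ContinuousAt` at `|t|<1`: the modified curve agrees near `t`.)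
-/

set_option autoImplicit false

open MeasureTheory Set Filter
open scoped Topology

namespace Pool.Agent.H88.LF

variable {X : Type} [MetricSpace X] [CompactSpace X] [MulAction G X] [ContinuousSMul G X]

omit [CompactSpace X] [ContinuousSMul G X] in
theorem res_conn (S : FB X) (hclo : IsClopen {x : X | CO x}) (i : Fin S.n) {t t' : ℝ}
    (ht : |t| < 1) (ht' : |t'| < 1) (h : CO (S.c i t)) : CO (S.c i t') := by
  have h1 : ContinuousOn (S.c i) (Ioo (-1) 1) := fun s hs =>
    (S.cont i s (abs_lt.2 hs)).continuousWithinAt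
  have h2 : IsPreconnected (S.c i '' Ioo (-1) 1) := isPreconnected_Ioo.image _ h1
  have h3 := h2.subset_isClopen hclo ⟨S.c i t, ⟨t, abs_lt.1 ht, rfl⟩, h⟩
  exact h3 ⟨t', abs_lt.1 ht', rfl⟩

/-- the space of points without compact orbit -/
abbrev ResY (X : Type) [MetricSpace X] [CompactSpace X] [MulAction G X] [ContinuousSMul G X] :
    Type := {x : X // ¬ CO x}

/-- the restricted action -/
@[reducible] def resAct (X : Type) [MetricSpace X] [CompactSpace X] [MulAction G X]
    [ContinuousSMul G X] : MulAction G (ResY X) where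
  smul g y := ⟨g • y.1, fun h => y.2 ((CO_smul_iff g).1 h)⟩
  one_smul y := Subtype.ext (one_smul G y.1)
  mul_smul g h y := Subtype.ext (mul_smul g h y.1)

theorem res_smul_val (g : G) (y : ResY X) : ((resAct X).smul g y).1 = g • y.1 := rfl

open Classical in
/-- the restricted curves -/
noncomputable def resC (S : FB X) (hclo : IsClopen {x : X | CO x}) (i : Fin S.n)
    (hi : ¬ CO (S.c i 0)) (t : ℝ) : ResY X :=
  if h : |t| < 1 then ⟨S.c i t, fun h' => hi (res_conn S hclo i h (by simp) h')⟩
  else ⟨S.c i 0, hi⟩

theorem resC_val (S : FB X) (hclo : IsClopen {x : X | CO x}) (i : Fin S.n)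
    (hi : ¬ CO (S.c i 0)) {t : ℝ} (ht : |t| < 1) : (resC S hclo i hi t).1 = S.c i t := by
  unfold resC
  rw [dif_pos ht]

/-- RES -/
theorem restrict (S : FB X) (hclo : IsClopen {x : X | CO x}) (hne : ∃ x : X, ¬ CO x) :
    ∃ (Y : Type) (_ : MetricSpace Y) (_ : CompactSpace Y) (_ : MulAction G Y)
      (_ : ContinuousSMul G Y) (_ : Nonempty Y) (_ : FB Y), ∀ y : Y, ¬ CO y := by
  classical
  let act : MulAction G (ResY X) := resAct X
  have hval : ∀ (g : G) (y : ResY X), (g • y).1 = g • y.1 := fun g y => rfl
  have hcomp : CompactSpace (ResY X) :=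
    isCompact_iff_compactSpace.1 (hclo.compl.isClosed.isCompact)
  have hcs : ContinuousSMul G (ResY X) := by
    refine ⟨Continuous.subtype_mk ?_ _⟩
    exact continuous_fst.smul (continuous_subtype_val.comp continuous_snd)
  have hnon : Nonempty (ResY X) := ⟨⟨hne.choose, hne.choose_spec⟩⟩
  let I : Type := {i : Fin S.n // ¬ CO (S.c i 0)}
  let e : Fin (Fintype.card I) ≃ I := (Fintype.equivFin I).symm
  have hlt : ∀ {t : ℝ}, |t| < 1 → ∀ᶠ s in 𝓝 t, |s| < 1 := fun {t} ht =>
    (isOpen_lt (f := fun s : ℝ => |s|) (g := fun _ => (1 : ℝ)) (by fun_prop)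
      continuous_const).mem_nhds ht
  let F : FB (ResY X) :=
    { n := Fintype.card I
      c := fun j t => resC S hclo (e j).1 (e j).2 t
      ρ0 := S.ρ0
      ρ1 := S.ρ1
      hρ1 := S.hρ1
      hρ := S.hρ
      hρ0 := S.hρ0
      cont := by
        intro j t ht
        have hi : Topology.IsInducing (Subtype.val : ResY X → X) :=
          Topology.IsInducing.subtypeVal
        rw [hi.continuousAt_iff]
        refine (S.cont (e j).1 t ht).congr ?_
        filter_upwards [hlt ht] with s hs
        exact (resC_val S hclo _ _ hs).symm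
      inj := by
        intro j h h' t t' ht ht' hh hh' heq
        refine S.inj (e j).1 h h' t t' ht ht' hh hh' ?_
        have h1 := congrArg Subtype.val heq
        rw [hval, hval, resC_val S hclo _ _ ht, resC_val S hclo _ _ ht'] at h1
        exact h1
      opn := by
        intro j t ht ε hε
        have h1 := S.opn (e j).1 t ht ε hε
        rw [← resC_val S hclo (e j).1 (e j).2 ht] at h1
        have h2 := (continuous_subtype_val.continuousAt
          (x := resC S hclo (e j).1 (e j).2 t)).preimage_mem_nhds h1
        refine Filter.mem_of_superset h2 ?_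
        rintro y ⟨h, t', h3, h4, h5, h6⟩
        refine ⟨h, t', h3, h4, h5, Subtype.ext ?_⟩
        rw [hval, resC_val S hclo _ _ h5]
        exact h6
      cover := by
        intro y
        obtain ⟨i, h, t, h1, h2, h3⟩ := S.cover y.1
        have ht : |t| < 1 := by linarith
        have hi : ¬ CO (S.c i 0) := by
          intro h4
          have h5 := res_conn S hclo i (by simp) ht h4
          refine y.2 ?_
          rw [h3]
          exact CO_smul h5 h
        refine ⟨e.symm ⟨i, hi⟩, h, t, h1, h2, Subtype.ext ?_⟩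
        rw [hval, resC_val S hclo _ _ ht, Equiv.apply_symm_apply]
        exact h3
      trans := by
        intro i j t0 τ0 k0 ht0 hτ0 heq
        have h1 := congrArg Subtype.val heq
        rw [hval, resC_val S hclo _ _ ht0, resC_val S hclo _ _ hτ0] at h1
        obtain ⟨k, τ, h2, h3, h4, h5, h6, h7⟩ := S.trans (e i).1 (e j).1 t0 τ0 k0 ht0 hτ0 h1
        refine ⟨k, τ, h2, h3, h4, h5, h6, ?_⟩
        have h8 : ∀ᶠ t in 𝓝 t0, |τ t| < 1 := by
          have h9 : ContinuousAt τ t0 := h5.continuousAt
          have h10 : ∀ᶠ s in 𝓝 (τ t0), |s| < 1 := by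
            rw [h3]
            exact hlt hτ0
          exact h9.eventually h10
        filter_upwards [h7, h8, hlt ht0] with t h9 h10 h11
        refine Subtype.ext ?_
        rw [hval, resC_val S hclo _ _ h11, resC_val S hclo _ _ h10]
        exact h9 }
  refine ⟨ResY X, inferInstance, hcomp, act, hcs, hnon, F, fun y hy => ?_⟩
  obtain ⟨K, hK, h1⟩ := hy
  refine y.2 ⟨K, hK, fun g => ?_⟩
  obtain ⟨k, hk, h2⟩ := h1 g
  exact ⟨k, hk, congrArg Subtype.val h2⟩

end Pool.Agent.H88.LF
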