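import Pool.Agent.H88.LF.FBC

/-!
# TBD (blueprint section 9): the orbit component of the images of the curves

`bmp` as in `TNEX` (any nonnegative continuous bump, `> 0` on the cores, supported in the boxes).  With `(h,τ)` the pairs of box `j` with `g • c i t = h • c j τ`, `k_j = g⁻¹h`:
`B g i t = (∑_j bmp h τ • (g * dk i j t τ k_j * g⁻¹)) / (∑_j bmp h τ)`.
`rule`: for an arrow `k : (i,t) → (j',τ')`: `dk(k_j) = dk(k) + dτ(k) Ad(k) dk(k⁻¹k_j)` (`FB.dk_trans`).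
`quasi`: for two pairs `(h,j,τ)` at `z = g • c i t` and `(h',l,υ)` at `q z`: `k_l = k_j (h⁻¹q⁻¹h')`, arrow `(j,τ) → (l,υ)` in a compact set, so
`(qg) dk(k_l) (qg)⁻¹ = Ad(q)(Ad(g) dk(k_j) + dτ(k_j) Ad(h) dk(h⁻¹q⁻¹h'))` and `|dτ(k_j)| ≤ C W(g;i,t)` (`rule` of `T` and `W_bound`).
-/

set_option autoImplicit false

open MeasureTheory Set Filter
open scoped Topology

namespace Pool.Agent.H88.LF

/-- Orbit component of `g_* (c i)'(t)` with respect to a fixed splitting. -/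
structure TB {X : Type} [TopologicalSpace X] [MulAction G X] {S : FB X} (T : TN S) where
  /-- the component -/
  B : G → Fin S.n → ℝ → Mat
  cont : ∀ i, ContinuousOn (fun p : G × ℝ => B p.1 i p.2) {p | |p.2| < 1}
  tr : ∀ g i t, |t| < 1 → Matrix.trace (B g i t) = 0
  quasi : ∀ Q : Set G, IsCompact Q → ∃ C : ℝ, 0 < C ∧ ∀ q ∈ Q, ∀ (g : G) (i : Fin S.n) (t : ℝ),
    |t| < 1 → nrm (B (q * g) i t - q.1 * B g i t * (q⁻¹).1) ≤ C * T.W g i t
  rule : ∀ i j t τ k, S.Arr i j t τ k → ∀ g,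
    B g i t = S.dτ i j t τ k • B (g * k) j τ + g.1 * S.dk i j t τ k * (g⁻¹).1

section
variable {X : Type} [MetricSpace X] [CompactSpace X] [MulAction G X] [ContinuousSMul G X]

noncomputable def TBD_b (r : ℝ) (h : G) (τ : ℝ) : ℝ :=
  max 0 (r / 2 - nd h) * max 0 (3 / 4 - |τ|)

theorem TBD_b_cont (r : ℝ) : Continuous (fun p : G × ℝ => TBD_b r p.1 p.2) := by
  unfold TBD_b
  have h1 : Continuous (fun p : G × ℝ => nd p.1) := continuous_nd.comp continuous_fst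
  exact (continuous_const.max (continuous_const.sub h1)).mul
    (continuous_const.max (continuous_const.sub continuous_snd.abs))

theorem TBD_b_nonneg (r : ℝ) (h : G) (τ : ℝ) : 0 ≤ TBD_b r h τ :=
  mul_nonneg (le_max_left _ _) (le_max_left _ _)

theorem TBD_b_pos (S : FB X) (h : G) (τ : ℝ) (hh : nd h < S.ρ1) (hτ : |τ| < 1 / 2) :
    0 < TBD_b S.ρ0 h τ := by
  have h2 := S.hρ
  have h3 := S.hρ1
  refine mul_pos (lt_max_of_lt_right ?_) (lt_max_of_lt_right ?_) <;> linarith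

theorem TBD_b_ne (r : ℝ) (h : G) (τ : ℝ) (hb : TBD_b r h τ ≠ 0) :
    nd h ≤ r / 2 ∧ |τ| ≤ 3 / 4 := by
  have h1 := left_ne_zero_of_mul hb
  have h2 := right_ne_zero_of_mul hb
  constructor
  · by_contra hcon
    apply h1
    rw [max_eq_left]
    linarith
  · by_contra hcon
    apply h2
    rw [max_eq_left]
    linarith

def TBD_has (S : FB X) (j : Fin S.n) (x : X) : Prop :=
  ∃ p : G × ℝ, nd p.1 < S.ρ0 ∧ |p.2| < 1 ∧ x = p.1 • S.c j p.2

open Classical in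
noncomputable def TBD_pr (S : FB X) (j : Fin S.n) (x : X) : G × ℝ :=
  if h : TBD_has S j x then h.choose else (1, 0)

theorem TBD_pr_eq (S : FB X) (j : Fin S.n) (x : X) (h : G) (τ : ℝ) (hh : nd h < S.ρ0)
    (hτ : |τ| < 1) (hx : x = h • S.c j τ) : TBD_pr S j x = (h, τ) := by
  have hx' : TBD_has S j x := ⟨(h, τ), hh, hτ, hx⟩
  unfold TBD_pr
  rw [dif_pos hx']
  obtain ⟨h1, h2, h3⟩ := hx'.choose_spec
  obtain ⟨h4, h5⟩ := S.inj j _ _ _ _ h2 hτ h1 hh (h3.symm.trans hx)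
  exact Prod.ext h4 h5

open Classical in
noncomputable def TBD_phi (S : FB X) (j : Fin S.n) (x : X) : ℝ :=
  if TBD_has S j x then TBD_b S.ρ0 (TBD_pr S j x).1 (TBD_pr S j x).2 else 0

theorem TBD_phi_eq (S : FB X) (j : Fin S.n) (x : X) (h : G) (τ : ℝ) (hh : nd h < S.ρ0)
    (hτ : |τ| < 1) (hx : x = h • S.c j τ) : TBD_phi S j x = TBD_b S.ρ0 h τ := by
  unfold TBD_phi
  rw [if_pos ⟨(h, τ), hh, hτ, hx⟩, TBD_pr_eq S j x h τ hh hτ hx]

theorem TBD_phi_nonneg (S : FB X) (j : Fin S.n) (x : X) : 0 ≤ TBD_phi S j x := by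
  unfold TBD_phi
  split_ifs
  · exact TBD_b_nonneg _ _ _
  · exact le_rfl

theorem TBD_ρ0_pos (S : FB X) : 0 < S.ρ0 := by
  have h1 := S.hρ
  have h2 := S.hρ1
  linarith

theorem TBD_phi_ne (S : FB X) (j : Fin S.n) (x : X) (hx : TBD_phi S j x ≠ 0) :
    ∃ (h : G) (τ : ℝ), nd h ≤ S.ρ0 / 2 ∧ |τ| ≤ 3 / 4 ∧ x = h • S.c j τ := by
  have hhas : TBD_has S j x := by
    by_contra hn
    apply hx
    unfold TBD_phi
    rw [if_neg hn]
  obtain ⟨⟨h, τ⟩, hh, hτ, hx'⟩ := hhas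
  rw [TBD_phi_eq S j x h τ hh hτ hx'] at hx
  obtain ⟨h1, h2⟩ := TBD_b_ne _ _ _ hx
  exact ⟨h, τ, h1, h2, hx'⟩

theorem TBD_sum_pos (S : FB X) (x : X) : 0 < ∑ j, TBD_phi S j x := by
  obtain ⟨j, h, τ, hh, hτ, hx⟩ := S.cover x
  have hρ : S.ρ1 < S.ρ0 := by have h1 := S.hρ; have h2 := S.hρ1; linarith
  have h1 : 0 < TBD_phi S j x := by
    rw [TBD_phi_eq S j x h τ (hh.trans hρ) (by linarith) hx]
    exact TBD_b_pos S h τ hh hτ
  exact h1.trans_le (Finset.single_le_sum (f := fun j => TBD_phi S j x)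
    (fun j _ => TBD_phi_nonneg S j x) (Finset.mem_univ j))

theorem TBD_has_nhds (S : FB X) (j : Fin S.n) (x0 : X) (h : TBD_has S j x0) :
    ∀ᶠ x in 𝓝 x0, TBD_has S j x := by
  have hopen : IsOpen {p : G × ℝ | nd p.1 < S.ρ0 ∧ |p.2| < 1} :=
    (isOpen_lt (continuous_nd.comp continuous_fst) continuous_const).inter
      (isOpen_lt continuous_snd.abs continuous_const)
  have himg := S.isOpen_image j _ hopen (fun p hp => hp.2)
  obtain ⟨p, h1, h2, h3⟩ := h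
  filter_upwards [himg.mem_nhds ⟨p, ⟨h1, h2⟩, h3.symm⟩] with x hx
  obtain ⟨q, ⟨hq1, hq2⟩, hq3⟩ := hx
  exact ⟨q, hq1, hq2, hq3.symm⟩

theorem TBD_pr_cont (S : FB X) (j : Fin S.n) (x0 : X) (h : TBD_has S j x0) :
    ContinuousAt (TBD_pr S j) x0 := by
  obtain ⟨p, h1, h2, h3⟩ := h
  have hp : TBD_pr S j x0 = p := TBD_pr_eq S j x0 p.1 p.2 h1 h2 h3
  intro N hN
  rw [hp] at hN
  have hopen : IsOpen {p : G × ℝ | nd p.1 < S.ρ0 ∧ |p.2| < 1} :=
    (isOpen_lt (continuous_nd.comp continuous_fst) continuous_const).inter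
      (isOpen_lt continuous_snd.abs continuous_const)
  obtain ⟨V, hV, hVo, hVm⟩ := mem_nhds_iff.1 (inter_mem hN (hopen.mem_nhds ⟨h1, h2⟩))
  have himg := S.isOpen_image j V hVo (fun p hp => (hV hp).2.2)
  rw [mem_map]
  filter_upwards [himg.mem_nhds ⟨p, hVm, h3.symm⟩] with x hx
  obtain ⟨q, hq, hq3⟩ := hx
  obtain ⟨hq1, hq2⟩ := hV hq
  rw [mem_preimage, TBD_pr_eq S j x q.1 q.2 hq2.1 hq2.2 hq3.symm]
  exact hq1

theorem TBD_phi_zero_nhds (S : FB X) (j : Fin S.n) (x0 : X) (h : ¬ TBD_has S j x0) :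
    ∀ᶠ x in 𝓝 x0, TBD_phi S j x = 0 := by
  have hcomp : IsCompact (Bl (S.ρ0 / 2) ×ˢ Icc (-(3 / 4) : ℝ) (3 / 4)) :=
    (isCompact_Bl _).prod isCompact_Icc
  have hcont : ContinuousOn (fun p : G × ℝ => p.1 • S.c j p.2)
      (Bl (S.ρ0 / 2) ×ˢ Icc (-(3 / 4) : ℝ) (3 / 4)) := by
    refine (S.continuousOn_map j).mono ?_
    rintro ⟨h, τ⟩ ⟨_, hτ⟩
    have h1 := abs_le.2 hτ
    show |τ| < 1
    simp only at h1
    linarith
  have hclosed := (hcomp.image_of_continuousOn hcont).isClosed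
  have hρ0 := TBD_ρ0_pos S
  have hnot : x0 ∉ (fun p : G × ℝ => p.1 • S.c j p.2) ''
      (Bl (S.ρ0 / 2) ×ˢ Icc (-(3 / 4) : ℝ) (3 / 4)) := by
    rintro ⟨⟨g, τ⟩, ⟨hg, hτ⟩, hx⟩
    have h1 := abs_le.2 hτ
    have h2 : nd g ≤ S.ρ0 / 2 := hg
    simp only at h1
    exact h ⟨(g, τ), lt_of_le_of_lt h2 (by linarith), lt_of_le_of_lt h1 (by norm_num), hx.symm⟩
  filter_upwards [hclosed.isOpen_compl.mem_nhds hnot] with x hx
  by_contra hne
  obtain ⟨g, τ, h1, h2, h3⟩ := TBD_phi_ne S j x hne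
  exact hx ⟨(g, τ), ⟨h1, abs_le.1 h2⟩, h3.symm⟩

theorem TBD_phi_cont (S : FB X) (j : Fin S.n) : Continuous (TBD_phi S j) := by
  rw [continuous_iff_continuousAt]
  intro x0
  by_cases h : TBD_has S j x0
  · have h1 : ContinuousAt (fun x => TBD_b S.ρ0 (TBD_pr S j x).1 (TBD_pr S j x).2) x0 :=
      ContinuousAt.comp (g := fun p : G × ℝ => TBD_b S.ρ0 p.1 p.2) (f := TBD_pr S j)
        (TBD_b_cont S.ρ0).continuousAt (TBD_pr_cont S j x0 h)
    refine h1.congr_of_eventuallyEq ?_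
    filter_upwards [TBD_has_nhds S j x0 h] with x hx
    unfold TBD_phi
    rw [if_pos hx]
  · have h1 := TBD_phi_zero_nhds S j x0 h
    exact (continuousAt_const (y := (0 : ℝ))).congr_of_eventuallyEq h1

noncomputable def TBD_psi (S : FB X) (j : Fin S.n) (x : X) : ℝ :=
  TBD_phi S j x / ∑ l, TBD_phi S l x

theorem TBD_psi_nonneg (S : FB X) (j : Fin S.n) (x : X) : 0 ≤ TBD_psi S j x :=
  div_nonneg (TBD_phi_nonneg S j x) (TBD_sum_pos S x).le

theorem TBD_psi_sum (S : FB X) (x : X) : ∑ j, TBD_psi S j x = 1 := by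
  unfold TBD_psi
  rw [← Finset.sum_div]
  exact div_self (TBD_sum_pos S x).ne'

theorem TBD_psi_cont (S : FB X) (j : Fin S.n) : Continuous (TBD_psi S j) := by
  unfold TBD_psi
  exact (TBD_phi_cont S j).div (continuous_finsetSum _ fun l _ => TBD_phi_cont S l)
    (fun x => (TBD_sum_pos S x).ne')

theorem TBD_psi_ne (S : FB X) (j : Fin S.n) (x : X) (hx : TBD_psi S j x ≠ 0) :
    ∃ (h : G) (τ : ℝ), nd h ≤ S.ρ0 / 2 ∧ |τ| ≤ 3 / 4 ∧ x = h • S.c j τ := by
  apply TBD_phi_ne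
  intro h
  apply hx
  unfold TBD_psi
  rw [h, zero_div]

/-- the term of the box `j` -/
noncomputable def TBD_M (S : FB X) (j : Fin S.n) (g : G) (i : Fin S.n) (t : ℝ) : Mat :=
  g.1 * S.dk i j t (TBD_pr S j (g • S.c i t)).2 (g⁻¹ * (TBD_pr S j (g • S.c i t)).1) * (g⁻¹).1

theorem TBD_M_eq (S : FB X) (j : Fin S.n) (g : G) (i : Fin S.n) (t : ℝ) (h : G) (τ : ℝ)
    (hh : nd h < S.ρ0) (hτ : |τ| < 1) (hx : g • S.c i t = h • S.c j τ) :
    TBD_M S j g i t = g.1 * S.dk i j t τ (g⁻¹ * h) * (g⁻¹).1 := by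
  unfold TBD_M
  rw [TBD_pr_eq S j _ h τ hh hτ hx]

theorem TBD_arr (S : FB X) {i j : Fin S.n} {t τ : ℝ} {g h : G} (ht : |t| < 1)
    (hτ : |τ| < 1) (hx : g • S.c i t = h • S.c j τ) : S.Arr i j t τ (g⁻¹ * h) := by
  refine ⟨ht, hτ, ?_⟩
  rw [mul_smul, ← hx, inv_smul_smul]

noncomputable def TBD_B (S : FB X) (g : G) (i : Fin S.n) (t : ℝ) : Mat :=
  ∑ j, TBD_psi S j (g • S.c i t) • TBD_M S j g i t

theorem TBD_mat_inv (g : G) : g.1 * (g⁻¹).1 = 1 := by
  rw [← Matrix.SpecialLinearGroup.coe_mul, mul_inv_cancel]; rfl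

theorem TBD_mat_inv' (g : G) : (g⁻¹).1 * g.1 = 1 := by
  rw [← Matrix.SpecialLinearGroup.coe_mul, inv_mul_cancel]; rfl

theorem TBD_map_cont (S : FB X) (i : Fin S.n) (g0 : G) (t0 : ℝ) (ht0 : |t0| < 1) :
    ContinuousAt (fun p : G × ℝ => p.1 • S.c i p.2) (g0, t0) := by
  have hopen : IsOpen {p : G × ℝ | |p.2| < 1} := isOpen_lt (continuous_snd.abs) continuous_const
  exact (S.continuousOn_map i).continuousAt (hopen.mem_nhds ht0)

theorem TBD_comp_aux {α β γ : Type*} [TopologicalSpace α] [TopologicalSpace β]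
    [TopologicalSpace γ] (K : β → γ) (F : α → β) (s : Set β) (a : α)
    (hK : ContinuousWithinAt K s (F a)) (hF : ContinuousAt F a) (hs : ∀ᶠ p in 𝓝 a, F p ∈ s) :
    ContinuousAt (fun p => K (F p)) a := by
  have h1 : Tendsto F (𝓝 a) (𝓝[s] (F a)) := tendsto_nhdsWithin_iff.2 ⟨hF, hs⟩
  exact Tendsto.comp (g := K) (f := F) hK h1

noncomputable def TBD_F (S : FB X) (i j : Fin S.n) (p : G × ℝ) : ℝ × ℝ × G :=
  (p.2, (TBD_pr S j (p.1 • S.c i p.2)).2, p.1⁻¹ * (TBD_pr S j (p.1 • S.c i p.2)).1)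

noncomputable def TBD_K (S : FB X) (i j : Fin S.n) (p : ℝ × ℝ × G) : Mat :=
  S.dk i j p.1 p.2.1 p.2.2

theorem TBD_M_def (S : FB X) (i j : Fin S.n) (p : G × ℝ) :
    TBD_M S j p.1 i p.2 = p.1.1 * TBD_K S i j (TBD_F S i j p) * (p.1⁻¹).1 := rfl

theorem TBD_term_cont (S : FB X) (i j : Fin S.n) (g0 : G) (t0 : ℝ) (ht0 : |t0| < 1) :
    ContinuousAt (fun p : G × ℝ => TBD_psi S j (p.1 • S.c i p.2) • TBD_M S j p.1 i p.2)
      (g0, t0) := by
  have hmap := TBD_map_cont S i g0 t0 ht0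
  by_cases h : TBD_has S j (g0 • S.c i t0)
  · have hpr : ContinuousAt (fun p : G × ℝ => TBD_pr S j (p.1 • S.c i p.2)) (g0, t0) :=
      ContinuousAt.comp (g := TBD_pr S j) (f := fun p : G × ℝ => p.1 • S.c i p.2)
        (TBD_pr_cont S j _ h) hmap
    have hpr1 : ContinuousAt (fun p : G × ℝ => (TBD_pr S j (p.1 • S.c i p.2)).1) (g0, t0) :=
      continuousAt_fst.comp hpr
    have hpr2 : ContinuousAt (fun p : G × ℝ => (TBD_pr S j (p.1 • S.c i p.2)).2) (g0, t0) :=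
      continuousAt_snd.comp hpr
    have hF : ContinuousAt (TBD_F S i j) (g0, t0) :=
      continuousAt_snd.prodMk (hpr2.prodMk (continuousAt_fst.inv.mul hpr1))
    have hev1 : ∀ᶠ p : G × ℝ in 𝓝 (g0, t0), TBD_has S j (p.1 • S.c i p.2) :=
      hmap.eventually (TBD_has_nhds S j _ h)
    have hev2 : ∀ᶠ p : G × ℝ in 𝓝 (g0, t0), |p.2| < 1 :=
      (isOpen_lt (continuous_snd.abs) continuous_const).mem_nhds ht0
    have harr : ∀ (g : G) (t : ℝ), TBD_has S j (g • S.c i t) → |t| < 1 →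
        TBD_F S i j (g, t) ∈ {p : ℝ × ℝ × G | S.Arr i j p.1 p.2.1 p.2.2} := by
      rintro g t ⟨q, h1, h2, h3⟩ ht
      have h4 := TBD_pr_eq S j _ q.1 q.2 h1 h2 h3
      have h5 : TBD_F S i j (g, t) = (t, q.2, g⁻¹ * q.1) := by
        unfold TBD_F
        rw [h4]
      rw [h5]
      exact TBD_arr S ht h2 h3
    have hdk : ContinuousAt (fun p => TBD_K S i j (TBD_F S i j p)) (g0, t0) := by
      refine TBD_comp_aux (TBD_K S i j) (TBD_F S i j)
        {p : ℝ × ℝ × G | S.Arr i j p.1 p.2.1 p.2.2} (g0, t0) ?_ hF ?_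
      · exact S.continuousOn_dk i j _ (harr g0 t0 h ht0)
      · filter_upwards [hev1, hev2] with p hp1 hp2
        exact harr p.1 p.2 hp1 hp2
    have hval : Continuous (fun p : G × ℝ => (p.1.1 : Mat)) :=
      closedEmb_val.continuous.comp continuous_fst
    have hval' : Continuous (fun p : G × ℝ => ((p.1⁻¹).1 : Mat)) :=
      closedEmb_val.continuous.comp (continuous_inv.comp continuous_fst)
    have hM : ContinuousAt (fun p : G × ℝ => TBD_M S j p.1 i p.2) (g0, t0) := by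
      have e : (fun p : G × ℝ => TBD_M S j p.1 i p.2) =
          fun p : G × ℝ => p.1.1 * TBD_K S i j (TBD_F S i j p) * (p.1⁻¹).1 := by
        funext p
        exact TBD_M_def S i j p
      rw [e]
      exact (hval.continuousAt.mul hdk).mul hval'.continuousAt
    have hpsi : ContinuousAt (fun p : G × ℝ => TBD_psi S j (p.1 • S.c i p.2)) (g0, t0) :=
      ContinuousAt.comp (g := TBD_psi S j) (f := fun p : G × ℝ => p.1 • S.c i p.2)
        (TBD_psi_cont S j).continuousAt hmap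
    exact hpsi.smul hM
  · have h1 : (fun p : G × ℝ => TBD_psi S j (p.1 • S.c i p.2) • TBD_M S j p.1 i p.2)
        =ᶠ[𝓝 (g0, t0)] fun _ => (0 : Mat) := by
      filter_upwards [hmap.eventually (TBD_phi_zero_nhds S j _ h)] with p hp
      unfold TBD_psi
      rw [hp, zero_div, zero_smul]
    exact (continuousAt_const (y := (0 : Mat))).congr_of_eventuallyEq h1

theorem TBD_B_cont (S : FB X) (i : Fin S.n) :
    ContinuousOn (fun p : G × ℝ => TBD_B S p.1 i p.2) {p | |p.2| < 1} := by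
  rintro ⟨g0, t0⟩ ht0
  refine ContinuousAt.continuousWithinAt ?_
  unfold TBD_B
  exact tendsto_finsetSum _ fun j _ => TBD_term_cont S i j g0 t0 ht0

theorem TBD_trace (S : FB X) (g : G) (i : Fin S.n) (t : ℝ) (ht : |t| < 1) :
    Matrix.trace (TBD_B S g i t) = 0 := by
  unfold TBD_B
  rw [Matrix.trace_sum]
  refine Finset.sum_eq_zero fun j _ => ?_
  rw [Matrix.trace_smul]
  by_cases h : TBD_psi S j (g • S.c i t) = 0
  · rw [h, zero_smul]
  · obtain ⟨q, τ, h1, h2, h3⟩ := TBD_psi_ne S j _ h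
    have hρ0 := TBD_ρ0_pos S
    have h4 : nd q < S.ρ0 := by linarith
    have h5 : |τ| < 1 := by linarith
    rw [TBD_M_eq S j g i t q τ h4 h5 h3, Matrix.trace_mul_comm, ← Matrix.mul_assoc,
      TBD_mat_inv', Matrix.one_mul, S.trace_dk (TBD_arr S ht h5 h3), smul_zero]

theorem TBD_rule (S : FB X) (i j : Fin S.n) (t τ : ℝ) (k : G) (harr : S.Arr i j t τ k) (g : G) :
    TBD_B S g i t = S.dτ i j t τ k • TBD_B S (g * k) j τ + g.1 * S.dk i j t τ k * (g⁻¹).1 := by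
  have hx0 : g • S.c i t = (g * k) • S.c j τ := by
    rw [harr.2.2, mul_smul]
  have hterm : ∀ l, TBD_psi S l (g • S.c i t) • TBD_M S l g i t =
      S.dτ i j t τ k • (TBD_psi S l ((g * k) • S.c j τ) • TBD_M S l (g * k) j τ) +
        TBD_psi S l (g • S.c i t) • (g.1 * S.dk i j t τ k * (g⁻¹).1) := by
    intro l
    by_cases h : TBD_psi S l (g • S.c i t) = 0
    · rw [← hx0, h]
      simp
    · obtain ⟨q, υ, h1, h2, h3⟩ := TBD_psi_ne S l _ h
      have hρ0 := TBD_ρ0_pos S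
      have h4 : nd q < S.ρ0 := by linarith
      have h5 : |υ| < 1 := by linarith
      have h3' : (g * k) • S.c j τ = q • S.c l υ := hx0.symm.trans h3
      rw [TBD_M_eq S l g i t q υ h4 h5 h3, TBD_M_eq S l (g * k) j τ q υ h4 h5 h3', ← hx0]
      have h6 := S.dk_trans harr (TBD_arr S harr.2.1 h5 h3')
      have h7 : k * ((g * k)⁻¹ * q) = g⁻¹ * q := by group
      rw [h7] at h6
      rw [h6]
      have h8 : ((g * k)⁻¹).1 = (k⁻¹).1 * (g⁻¹).1 := by
        rw [mul_inv_rev, Matrix.SpecialLinearGroup.coe_mul]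
      rw [h8, Matrix.SpecialLinearGroup.coe_mul, Matrix.mul_add, Matrix.add_mul, smul_add,
        add_comm]
      congr 1
      rw [Matrix.mul_smul, Matrix.smul_mul, smul_comm]
      congr 2
      simp only [Matrix.mul_assoc]
  unfold TBD_B
  rw [Finset.sum_congr rfl fun l _ => hterm l, Finset.sum_add_distrib, ← Finset.smul_sum,
    ← Finset.sum_smul, TBD_psi_sum, one_smul]

theorem TBD_nrm_sum {ι : Type*} (s : Finset ι) (f : ι → Mat) :
    nrm (∑ i ∈ s, f i) ≤ ∑ i ∈ s, nrm (f i) := by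
  classical
  induction s using Finset.induction_on with
  | empty => simp [nrm_zero]
  | insert a s ha ih =>
    rw [Finset.sum_insert ha, Finset.sum_insert ha]
    exact (nrm_add_le _ _).trans (by linarith)

theorem TBD_quasi (S : FB X) (T : TN S) (Q : Set G) (hQ : IsCompact Q) :
    ∃ C : ℝ, 0 < C ∧ ∀ q ∈ Q, ∀ (g : G) (i : Fin S.n) (t : ℝ),
    |t| < 1 → nrm (TBD_B S (q * g) i t - q.1 * TBD_B S g i t * (q⁻¹).1) ≤ C * T.W g i t := by
  have hB := isCompact_Bl (S.ρ0 / 2)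
  have hρ0 := TBD_ρ0_pos S
  -- the compact set of the elements m = h⁻¹ q⁻¹ h'
  let φ : G × G × G → G := fun p => p.1⁻¹ * p.2.1⁻¹ * p.2.2
  have hφ : Continuous φ := by
    show Continuous fun p : G × G × G => p.1⁻¹ * p.2.1⁻¹ * p.2.2
    fun_prop
  have hQ' : IsCompact (φ '' (Bl (S.ρ0 / 2) ×ˢ Q ×ˢ Bl (S.ρ0 / 2))) :=
    (hB.prod (hQ.prod hB)).image hφ
  obtain ⟨C1, hC1, h1⟩ := S.exists_bound_arr (3 / 4) (by norm_num) _ hQ'
  obtain ⟨C2, hC2, h2⟩ := T.W_bound hB (3 / 4) (by norm_num)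
  have hcont : Continuous (fun p : G × G => nrm (p.1 * p.2).1 * nrm ((p.1 * p.2)⁻¹).1) := by
    have e1 : Continuous (fun p : G × G => ((p.1 * p.2).1 : Mat)) :=
      closedEmb_val.continuous.comp (continuous_fst.mul continuous_snd)
    have e2 : Continuous (fun p : G × G => (((p.1 * p.2)⁻¹).1 : Mat)) :=
      closedEmb_val.continuous.comp (continuous_inv.comp (continuous_fst.mul continuous_snd))
    exact (continuous_nrm.comp e1).mul (continuous_nrm.comp e2)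
  obtain ⟨C3, h3⟩ := (hQ.prod hB).bddAbove_image hcont.continuousOn
  have hC30 : 0 ≤ max C3 0 := le_max_right _ _
  refine ⟨C2 * C1 * (max C3 0) + 1, by positivity, ?_⟩
  intro q hq g i t ht
  have hWpos := T.pos g i t ht
  -- the difference as a double sum
  have hqg : (q * g) • S.c i t = q • (g • S.c i t) := mul_smul _ _ _
  have key : ∀ l j, nrm ((TBD_psi S l ((q * g) • S.c i t) * TBD_psi S j (g • S.c i t)) •
      (TBD_M S l (q * g) i t - q.1 * TBD_M S j g i t * (q⁻¹).1)) ≤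
      (TBD_psi S l ((q * g) • S.c i t) * TBD_psi S j (g • S.c i t)) *
        (C2 * C1 * (max C3 0) * T.W g i t) := by
    intro l j
    rw [nrm_smul, abs_of_nonneg (mul_nonneg (TBD_psi_nonneg S _ _) (TBD_psi_nonneg S _ _))]
    by_cases hz : TBD_psi S l ((q * g) • S.c i t) * TBD_psi S j (g • S.c i t) = 0
    · rw [hz, zero_mul, zero_mul]
    · refine mul_le_mul_of_nonneg_left ?_
        (mul_nonneg (TBD_psi_nonneg S _ _) (TBD_psi_nonneg S _ _))
      obtain ⟨h', υ, a1, a2, a3⟩ := TBD_psi_ne S l _ (left_ne_zero_of_mul hz)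
      obtain ⟨h, τ, b1, b2, b3⟩ := TBD_psi_ne S j _ (right_ne_zero_of_mul hz)
      have a1' : nd h' < S.ρ0 := by linarith
      have b1' : nd h < S.ρ0 := by linarith
      have a2' : |υ| < 1 := by linarith
      have b2' : |τ| < 1 := by linarith
      rw [TBD_M_eq S l (q * g) i t h' υ a1' a2' a3, TBD_M_eq S j g i t h τ b1' b2' b3]
      have arr1 := TBD_arr S ht b2' b3
      have hx : (q * h) • S.c j τ = h' • S.c l υ := by
        rw [mul_smul, ← b3, ← mul_smul, a3]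
      have arr2 := TBD_arr S b2' a2' hx
      have h6 := S.dk_trans arr1 arr2
      have h7 : g⁻¹ * h * ((q * h)⁻¹ * h') = (q * g)⁻¹ * h' := by group
      rw [h7] at h6
      rw [h6]
      have h8 : (q * g).1 * (S.dk i j t τ (g⁻¹ * h) + S.dτ i j t τ (g⁻¹ * h) •
          ((g⁻¹ * h).1 * S.dk j l τ υ ((q * h)⁻¹ * h') * ((g⁻¹ * h)⁻¹).1)) * ((q * g)⁻¹).1 -
          q.1 * (g.1 * S.dk i j t τ (g⁻¹ * h) * (g⁻¹).1) * (q⁻¹).1 =
          S.dτ i j t τ (g⁻¹ * h) • ((q * h).1 * S.dk j l τ υ ((q * h)⁻¹ * h') *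
            ((q * h)⁻¹).1) := by
        have e1 : ((q * g)⁻¹).1 = (g⁻¹).1 * (q⁻¹).1 := by
          rw [mul_inv_rev, Matrix.SpecialLinearGroup.coe_mul]
        have e2 : (q * g).1 * (g⁻¹ * h).1 = (q * h).1 := by
          have e2' : q * g * (g⁻¹ * h) = q * h := by
            rw [mul_assoc, mul_inv_cancel_left]
          rw [← Matrix.SpecialLinearGroup.coe_mul, e2']
        have e3 : ((g⁻¹ * h)⁻¹).1 * ((q * g)⁻¹).1 = ((q * h)⁻¹).1 := by
          have e3' : (g⁻¹ * h)⁻¹ * (q * g)⁻¹ = (q * h)⁻¹ := by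
            rw [← mul_inv_rev, mul_assoc, mul_inv_cancel_left]
          rw [← Matrix.SpecialLinearGroup.coe_mul, e3']
        rw [Matrix.mul_add, Matrix.add_mul]
        have e4 : (q * g).1 * S.dk i j t τ (g⁻¹ * h) * ((q * g)⁻¹).1 =
            q.1 * (g.1 * S.dk i j t τ (g⁻¹ * h) * (g⁻¹).1) * (q⁻¹).1 := by
          rw [e1, Matrix.SpecialLinearGroup.coe_mul]
          simp only [Matrix.mul_assoc]
        rw [e4, add_sub_cancel_left, Matrix.mul_smul, Matrix.smul_mul, ← e2, ← e3]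
        congr 1
        simp only [Matrix.mul_assoc]
      rw [h8, nrm_smul]
      have h9 : |S.dτ i j t τ (g⁻¹ * h)| ≤ C2 * T.W g i t := by
        have e1 := T.rule i j t τ (g⁻¹ * h) arr1 g
        rw [mul_inv_cancel_left] at e1
        obtain ⟨e2, -⟩ := h2 h b1 j τ b2
        have e3 : 0 ≤ |S.dτ i j t τ (g⁻¹ * h)| := abs_nonneg _
        have hC2p : 0 < C2 := by linarith
        rw [e1]
        have e4 : C2⁻¹ * |S.dτ i j t τ (g⁻¹ * h)| ≤ T.W h j τ * |S.dτ i j t τ (g⁻¹ * h)| :=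
          mul_le_mul_of_nonneg_right e2 e3
        have e5 : |S.dτ i j t τ (g⁻¹ * h)| = C2 * (C2⁻¹ * |S.dτ i j t τ (g⁻¹ * h)|) := by
          rw [← mul_assoc, mul_inv_cancel₀ hC2p.ne', one_mul]
        calc |S.dτ i j t τ (g⁻¹ * h)| = C2 * (C2⁻¹ * |S.dτ i j t τ (g⁻¹ * h)|) := e5
          _ ≤ C2 * (T.W h j τ * |S.dτ i j t τ (g⁻¹ * h)|) :=
            mul_le_mul_of_nonneg_left e4 hC2p.le
      have hmem : (q * h)⁻¹ * h' ∈ φ '' (Bl (S.ρ0 / 2) ×ˢ Q ×ˢ Bl (S.ρ0 / 2)) := by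
        refine ⟨(h, q, h'), ⟨b1, hq, a1⟩, ?_⟩
        show h⁻¹ * q⁻¹ * h' = _
        rw [mul_inv_rev]
      have h10 : nrm (S.dk j l τ υ ((q * h)⁻¹ * h')) ≤ C1 := (h1 j l τ υ _ b2 a2 hmem arr2).2.2
      have h11 : nrm (q * h).1 * nrm ((q * h)⁻¹).1 ≤ max C3 0 :=
        (h3 ⟨(q, h), ⟨hq, b1⟩, rfl⟩).trans (le_max_left _ _)
      have h12 : nrm ((q * h).1 * S.dk j l τ υ ((q * h)⁻¹ * h') * ((q * h)⁻¹).1) ≤
          C1 * max C3 0 := by
        calc nrm ((q * h).1 * S.dk j l τ υ ((q * h)⁻¹ * h') * ((q * h)⁻¹).1) ≤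
            nrm (q * h).1 * nrm (S.dk j l τ υ ((q * h)⁻¹ * h')) * nrm ((q * h)⁻¹).1 :=
              (nrm_mul_le _ _).trans
                (mul_le_mul_of_nonneg_right (nrm_mul_le _ _) (nrm_nonneg _))
          _ = nrm (S.dk j l τ υ ((q * h)⁻¹ * h')) * (nrm (q * h).1 * nrm ((q * h)⁻¹).1) := by
              ring
          _ ≤ C1 * max C3 0 :=
              mul_le_mul h10 h11 (mul_nonneg (nrm_nonneg _) (nrm_nonneg _)) (by linarith)
      calc |S.dτ i j t τ (g⁻¹ * h)| *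
            nrm ((q * h).1 * S.dk j l τ υ ((q * h)⁻¹ * h') * ((q * h)⁻¹).1) ≤
            (C2 * T.W g i t) * (C1 * max C3 0) :=
              mul_le_mul h9 h12 (nrm_nonneg _) (by positivity)
        _ = C2 * C1 * (max C3 0) * T.W g i t := by ring
  have hdiff : TBD_B S (q * g) i t - q.1 * TBD_B S g i t * (q⁻¹).1 =
      ∑ l, ∑ j, (TBD_psi S l ((q * g) • S.c i t) * TBD_psi S j (g • S.c i t)) •
        (TBD_M S l (q * g) i t - q.1 * TBD_M S j g i t * (q⁻¹).1) := by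
    have e1 : TBD_B S (q * g) i t = ∑ l, ∑ j,
        (TBD_psi S l ((q * g) • S.c i t) * TBD_psi S j (g • S.c i t)) •
          TBD_M S l (q * g) i t := by
      unfold TBD_B
      refine Finset.sum_congr rfl fun l _ => ?_
      rw [← Finset.sum_smul, ← Finset.mul_sum, TBD_psi_sum, mul_one]
    have e2 : q.1 * TBD_B S g i t * (q⁻¹).1 = ∑ l, ∑ j,
        (TBD_psi S l ((q * g) • S.c i t) * TBD_psi S j (g • S.c i t)) •
          (q.1 * TBD_M S j g i t * (q⁻¹).1) := by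
      rw [Finset.sum_comm]
      unfold TBD_B
      rw [Finset.mul_sum, Finset.sum_mul]
      refine Finset.sum_congr rfl fun j _ => ?_
      rw [← Finset.sum_smul, ← Finset.sum_mul, TBD_psi_sum, one_mul, Matrix.mul_smul,
        Matrix.smul_mul]
    rw [e1, e2, ← Finset.sum_sub_distrib]
    refine Finset.sum_congr rfl fun l _ => ?_
    rw [← Finset.sum_sub_distrib]
    refine Finset.sum_congr rfl fun j _ => ?_
    rw [smul_sub]
  rw [hdiff]
  calc nrm (∑ l, ∑ j, (TBD_psi S l ((q * g) • S.c i t) * TBD_psi S j (g • S.c i t)) •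
        (TBD_M S l (q * g) i t - q.1 * TBD_M S j g i t * (q⁻¹).1))
      ≤ ∑ l, ∑ j, (TBD_psi S l ((q * g) • S.c i t) * TBD_psi S j (g • S.c i t)) *
        (C2 * C1 * (max C3 0) * T.W g i t) := by
        refine (TBD_nrm_sum _ _).trans (Finset.sum_le_sum fun l _ => ?_)
        exact (TBD_nrm_sum _ _).trans (Finset.sum_le_sum fun j _ => key l j)
    _ = C2 * C1 * (max C3 0) * T.W g i t := by
        have : ∀ l, ∑ j, (TBD_psi S l ((q * g) • S.c i t) * TBD_psi S j (g • S.c i t)) *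
            (C2 * C1 * (max C3 0) * T.W g i t) =
            TBD_psi S l ((q * g) • S.c i t) * (C2 * C1 * (max C3 0) * T.W g i t) := by
          intro l
          rw [← Finset.sum_mul, ← Finset.mul_sum, TBD_psi_sum, mul_one]
        rw [Finset.sum_congr rfl fun l _ => this l, ← Finset.sum_mul, TBD_psi_sum, one_mul]
    _ ≤ (C2 * C1 * (max C3 0) + 1) * T.W g i t := by nlinarith

end

/-- TBD -/
theorem exists_TB {X : Type} [MetricSpace X] [CompactSpace X] [MulAction G X]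
    [ContinuousSMul G X] {S : FB X} (T : TN S) : Nonempty (TB T) :=
  ⟨{ B := TBD_B S
     cont := TBD_B_cont S
     tr := TBD_trace S
     quasi := TBD_quasi S T
     rule := TBD_rule S }⟩

end Pool.Agent.H88.LF
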