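import Pool.Agent.H88.LF.P7
import Pool.Agent.H88.LF.TBD
import Pool.Agent.H88.LF.GOOD

/-!
# P7E (blueprint 9.3): continuity of the line field; proof in the header of P7C
-/

set_option autoImplicit false

open MeasureTheory Set Filter
open scoped Topology ENNReal

namespace Pool.Agent.H88.LF

/-- exponential bounds give stability -/
theorem p7e_stab {B : G → Mat} {ζ : Mat} {g : G} {C ε : ℝ} (hε : 0 < ε)
    (h : ∀ v : ℝ × ℝ, nrm (NN B ζ (D v * g)) ≤ C * Real.exp (-ε * ‖v‖ / 2)) : Stab B ζ g := by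
  refine tendsto_of_bound (ε / 2) C (by linarith) _ fun v => ?_
  rw [abs_of_nonneg (nrm_nonneg _)]
  refine (h v).trans (le_of_eq ?_)
  congr 2
  ring

variable {X : Type} [MetricSpace X] [CompactSpace X] [MulAction G X] [ContinuousSMul G X]

/-- the bounds at good points -/
theorem p7e_good {S : FB X} {T : TN S} (Bd : TB T) (ε : ℝ) (hε : 0 < ε) (hε1 : ε ≤ 1) :
    ∃ C : ℝ, 0 < C ∧ ∀ (i : Fin S.n) (t : ℝ), |t| < 1 → ∀ (g : G) (R : ℝ),
      (∀ v : ℝ × ℝ, T.W (D v * g) i t ≤ R * Real.exp (-ε * ‖v‖)) → ∀ ζ : Mat,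
        Stab (fun g => Bd.B g i t) ζ g →
          (∀ v : ℝ × ℝ, nrm (NN (fun g => Bd.B g i t) ζ (D v * g)) ≤
            C * R * Real.exp (-ε * ‖v‖ / 2)) ∧
          nrm ζ ≤ nrm (g⁻¹).1 * nrm g.1 * (nrm (Bd.B g i t) + C * R) := by
  obtain ⟨Cq, hCq, hq⟩ := Bd.quasi _ (isCompact_D_image 1)
  obtain ⟨C, hC, h⟩ := p7_exists ε Cq hε hε1 hCq
  refine ⟨C, hC, fun i t ht g R hg ζ hζ => ?_⟩
  obtain ⟨ζ', h1, h2⟩ := h (fun g => T.W g i t) (fun g => Bd.B g i t)
    (fun g => (T.pos g i t ht).le) (fun u g hu => hq (D u) ⟨u, hu, rfl⟩ g i t ht) g R hg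
  have h3 : ζ = ζ' := hζ.unique (p7e_stab hε h1)
  rw [h3]
  exact ⟨h1, h2⟩

/-- Continuity of `ζ`. -/
theorem line_field_cont {S : FB X} {T : TN S} (hC : T.CStar) (Bd : TB T)
    (ζ : Fin S.n → ℝ → Mat)
    (hζ : ∀ i t, |t| < 1 → ∀ᵐ g ∂hG, Stab (fun g => Bd.B g i t) (ζ i t) g) :
    ∀ i t, |t| < 1 → ContinuousAt (ζ i) t := by
  intro i t0 ht0
  obtain ⟨ρ, hρ0, hρ1, ε, hε, hε1, hunif, -⟩ := good_unif hC
  obtain ⟨C, hC0, hgood⟩ := p7e_good Bd ε hε hε1
  -- the measure of the ball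
  set μ : ℝ≥0∞ := hG (Bl ρ) with hμ
  have hμpos : 0 < μ := hG_Bl_pos hρ0
  have hμtop : μ < ⊤ := hG_Bl_lt_top ρ
  have hμr : 0 < μ.toReal := ENNReal.toReal_pos hμpos.ne' hμtop.ne
  obtain ⟨R, hR1, hR⟩ := hunif (μ.toReal / 4) (by positivity)
  have hquarter : ENNReal.ofReal (μ.toReal / 4) < μ := by
    rw [ENNReal.ofReal_lt_iff_lt_toReal (by positivity) hμtop.ne]
    linarith
  -- uniform constants near `t0`
  set r : ℝ := (1 + |t0|) / 2 with hr
  have hr1 : r < 1 := by rw [hr]; linarith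
  have hr0 : |t0| < r := by rw [hr]; linarith
  obtain ⟨Wb, hWb1, hWb⟩ := T.W_bound (Q := {1}) isCompact_singleton r hr1
  have hWle : ∀ t : ℝ, |t| ≤ r → ∀ g : G,
      (∀ v : ℝ × ℝ, T.J (D v * g) (S.c i t) ≤ R * Real.exp (-ε * ‖v‖)) →
      ∀ v : ℝ × ℝ, T.W (D v * g) i t ≤ R * Wb * Real.exp (-ε * ‖v‖) := by
    intro t ht g hg v
    have ht1 : |t| < 1 := lt_of_le_of_lt ht hr1
    have h1 := T.W_mul (D v * g) 1 i t ht1
    rw [mul_one, one_smul] at h1
    rw [h1]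
    have h2 := (hWb 1 rfl i t ht).2
    have h3 := T.pos 1 i t ht1
    have h4 : 0 ≤ R * Real.exp (-ε * ‖v‖) := by positivity
    calc T.J (D v * g) (S.c i t) * T.W 1 i t ≤ (R * Real.exp (-ε * ‖v‖)) * Wb :=
          mul_le_mul (hg v) h2 h3.le h4
      _ = _ := by ring
  -- the set of bad points
  set bad : ℝ → Set G := fun t => {g | g ∈ Bl ρ ∧
    ¬ ∀ v : ℝ × ℝ, T.J (D v * g) (S.c i t) ≤ R * Real.exp (-ε * ‖v‖)} with hbad
  have hbadm : ∀ t, hG (bad t) ≤ ENNReal.ofReal (μ.toReal / 4) := fun t => hR (S.c i t)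
  -- boundedness of `ζ`
  obtain ⟨Z, hZ⟩ : ∃ Z : ℝ, ∀ t : ℝ, |t| ≤ r → nrm (ζ i t) ≤ Z := by
    have hcpt := FBC_cpt (isCompact_Bl ρ) r
    have hBc : ContinuousOn (fun p : G × ℝ => nrm (Bd.B p.1 i p.2)) (Bl ρ ×ˢ {t : ℝ | |t| ≤ r}) :=
      continuous_nrm.comp_continuousOn ((Bd.cont i).mono fun p hp =>
        lt_of_le_of_lt hp.2 hr1)
    have hinv : Continuous (fun p : G × ℝ => nrm (p.1⁻¹).1) :=
      continuous_nrm.comp (closedEmb_val.continuous.comp (continuous_inv.comp continuous_fst))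
    have hid : Continuous (fun p : G × ℝ => nrm (p.1).1) :=
      continuous_nrm.comp (closedEmb_val.continuous.comp continuous_fst)
    have hcont : ContinuousOn (fun p : G × ℝ => nrm (p.1⁻¹).1 * nrm (p.1).1 *
        (nrm (Bd.B p.1 i p.2) + C * (R * Wb))) (Bl ρ ×ˢ {t : ℝ | |t| ≤ r}) :=
      (hinv.continuousOn.mul hid.continuousOn).mul (hBc.add continuousOn_const)
    obtain ⟨Z, hZ⟩ := hcpt.bddAbove_image hcont
    refine ⟨Z, fun t ht => ?_⟩
    have ht1 : |t| < 1 := lt_of_le_of_lt ht hr1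
    obtain ⟨g, hg1, hg2, hg3⟩ : ∃ g ∈ Bl ρ, g ∉ bad t ∧
        Stab (fun g => Bd.B g i t) (ζ i t) g := by
      by_contra hcon
      push Not at hcon
      have h1 : Bl ρ ⊆ bad t ∪ {g | ¬ Stab (fun g => Bd.B g i t) (ζ i t) g} := by
        intro g hg
        by_cases hb : g ∈ bad t
        · exact Or.inl hb
        · exact Or.inr (hcon g hg hb)
      have h2 : μ ≤ ENNReal.ofReal (μ.toReal / 4) := by
        calc μ ≤ hG (bad t ∪ {g | ¬ Stab (fun g => Bd.B g i t) (ζ i t) g}) := measure_mono h1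
          _ ≤ hG (bad t) + hG {g | ¬ Stab (fun g => Bd.B g i t) (ζ i t) g} := measure_union_le _ _
          _ = hG (bad t) + 0 := by rw [ae_iff.1 (hζ i t ht1)]
          _ ≤ _ := by rw [add_zero]; exact hbadm t
      exact absurd hquarter (not_lt.2 h2)
    have hg4 : ∀ v : ℝ × ℝ, T.J (D v * g) (S.c i t) ≤ R * Real.exp (-ε * ‖v‖) := by
      by_contra h
      exact hg2 ⟨hg1, h⟩
    have h5 := (hgood i t ht1 g (R * Wb) (hWle t ht g hg4) (ζ i t) hg3).2
    exact h5.trans (hZ ⟨(g, t), ⟨hg1, ht⟩, rfl⟩)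
  -- sequences
  refine tendsto_of_subseq_tendsto fun ns hns => ?_
  have hev : ∀ᶠ n in atTop, |ns n| ≤ r := by
    have h1 : Tendsto (fun n => |ns n|) atTop (𝓝 |t0|) := hns.abs
    exact (h1.eventually (gt_mem_nhds hr0)).mono fun n hn => le_of_lt hn
  obtain ⟨N, hN⟩ := eventually_atTop.1 hev
  obtain ⟨ζs, -, φ, hφ, hlim⟩ := (GBA_compact_mat Z).tendsto_subseq
    (x := fun n => ζ i (ns (n + N))) (fun n => hZ _ (hN _ (Nat.le_add_left _ _)))
  refine ⟨fun n => φ n + N, ?_⟩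
  suffices hs : ζs = ζ i t0 by
    rw [← hs]
    exact hlim
  -- times of the subsequence
  set tm : ℕ → ℝ := fun n => ns (φ n + N) with htm
  have htr : ∀ n, |tm n| ≤ r := fun n => hN _ (Nat.le_add_left _ _)
  have ht1 : ∀ n, |tm n| < 1 := fun n => lt_of_le_of_lt (htr n) hr1
  have htl : Tendsto tm atTop (𝓝 t0) := by
    refine hns.comp ?_
    exact tendsto_atTop_mono (fun n => Nat.le_add_right _ _) hφ.tendsto_atTop
  -- a common good point
  set E : ℕ → Set G := fun k => ⋂ n ≥ k, bad (tm n) with hE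
  have hEmono : Monotone E := by
    intro a b hab g hg
    simp only [hE, mem_iInter] at hg ⊢
    intro n hn
    exact hg n (hab.trans hn)
  have hEm : hG (⋃ k, E k) ≤ ENNReal.ofReal (μ.toReal / 4) := by
    rw [hEmono.measure_iUnion]
    refine iSup_le fun k => (measure_mono ?_).trans (hbadm (tm k))
    intro g hg
    simp only [hE, mem_iInter] at hg
    exact hg k le_rfl
  obtain ⟨g, hg1, hg2, hg3, hg4⟩ : ∃ g ∈ Bl ρ, g ∉ (⋃ k, E k) ∧
      (∀ n, Stab (fun g => Bd.B g i (tm n)) (ζ i (tm n)) g) ∧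
      Stab (fun g => Bd.B g i t0) (ζ i t0) g := by
    by_contra hcon
    push Not at hcon
    have hae : ∀ᵐ g ∂hG, (∀ n, Stab (fun g => Bd.B g i (tm n)) (ζ i (tm n)) g) ∧
        Stab (fun g => Bd.B g i t0) (ζ i t0) g :=
      (ae_all_iff.2 fun n => hζ i (tm n) (ht1 n)).and (hζ i t0 ht0)
    have h1 : Bl ρ ⊆ (⋃ k, E k) ∪ {g | ¬ ((∀ n, Stab (fun g => Bd.B g i (tm n)) (ζ i (tm n)) g) ∧
        Stab (fun g => Bd.B g i t0) (ζ i t0) g)} := by
      intro g hg
      by_cases hb : g ∈ ⋃ k, E k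
      · exact Or.inl hb
      · refine Or.inr fun h => ?_
        exact hcon g hg hb h.1 h.2
    have h2 : μ ≤ ENNReal.ofReal (μ.toReal / 4) := by
      refine (measure_mono h1).trans ((measure_union_le _ _).trans ?_)
      rw [ae_iff.1 hae, add_zero]
      exact hEm
    exact absurd hquarter (not_lt.2 h2)
  have hfreq : ∃ᶠ n in atTop, g ∉ bad (tm n) := by
    rw [frequently_atTop]
    intro k
    by_contra h
    push Not at h
    apply hg2
    refine mem_iUnion.2 ⟨k, ?_⟩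
    simp only [hE, mem_iInter]
    exact fun n hn => h n hn
  have hopen : IsOpen {p : G × ℝ | |p.2| < 1} :=
    isOpen_lt (continuous_abs.comp continuous_snd) continuous_const
  have hbound : ∀ v : ℝ × ℝ, nrm (NN (fun g => Bd.B g i t0) ζs (D v * g)) ≤
      C * (R * Wb) * Real.exp (-ε * ‖v‖ / 2) := by
    intro v
    have hl : Tendsto (fun n => nrm (NN (fun g => Bd.B g i (tm n)) (ζ i (tm n)) (D v * g))) atTop
        (𝓝 (nrm (NN (fun g => Bd.B g i t0) ζs (D v * g)))) := by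
      refine (continuous_nrm.tendsto _).comp ?_
      unfold NN
      refine Tendsto.add ?_ ?_
      · have h1 : ContinuousAt (fun p : G × ℝ => Bd.B p.1 i p.2) (D v * g, t0) :=
          (Bd.cont i).continuousAt (hopen.mem_nhds ht0)
        have h2 : Tendsto (fun n => ((D v * g, tm n) : G × ℝ)) atTop (𝓝 (D v * g, t0)) :=
          tendsto_const_nhds.prodMk_nhds htl
        exact h1.tendsto.comp h2
      · have h3 : Continuous (fun A : Mat => (D v * g).1 * A * ((D v * g)⁻¹).1) := by fun_prop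
        exact (h3.tendsto _).comp hlim
    refine le_of_tendsto_of_frequently hl ?_
    refine hfreq.mono fun n hn => ?_
    have hg5 : ∀ v : ℝ × ℝ, T.J (D v * g) (S.c i (tm n)) ≤ R * Real.exp (-ε * ‖v‖) := by
      by_contra h
      exact hn ⟨hg1, h⟩
    exact (hgood i (tm n) (ht1 n) g (R * Wb) (hWle (tm n) (htr n) g hg5) _ (hg3 n)).1 v
  exact (p7e_stab hε hbound).unique hg4

end Pool.Agent.H88.LF
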