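import Pool.Agent.H88.LF.GBA

/-!
# ODE (blueprint 9.4): `γ' = γ ζ` in `G`

Picard-Lindelöf for the linear equation in `Fin 3 → Fin 3 → ℝ` (right side continuous in `t`, Lipschitz in `γ`), local solution with `γ(t0) = 1`.
`det γ = 1`: `(det γ)' = tr(ζ) det γ = 0` (expand the 3 by 3 determinant).
-/

set_option autoImplicit false

open Set Filter
open scoped Topology

namespace Pool.Agent.H88.LF

/-- the linear vector field -/
def odeF (z : ℝ → Fin 3 → Fin 3 → ℝ) (t : ℝ) (x : Fin 3 → Fin 3 → ℝ) : Fin 3 → Fin 3 → ℝ :=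
  fun a b => ∑ k, x a k * z t k b

theorem odeF_norm (z : ℝ → Fin 3 → Fin 3 → ℝ) (t : ℝ) (x : Fin 3 → Fin 3 → ℝ) :
    ‖odeF z t x‖ ≤ 3 * ‖z t‖ * ‖x‖ := by
  have h0 : 0 ≤ 3 * ‖z t‖ * ‖x‖ := by positivity
  rw [pi_norm_le_iff_of_nonneg h0]
  intro a
  rw [pi_norm_le_iff_of_nonneg h0]
  intro b
  unfold odeF
  have h1 : ∀ k, ‖x a k * z t k b‖ ≤ ‖x‖ * ‖z t‖ := by
    intro k
    rw [norm_mul]
    exact mul_le_mul ((norm_le_pi_norm (x a) k).trans (norm_le_pi_norm x a))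
      ((norm_le_pi_norm (z t k) b).trans (norm_le_pi_norm (z t) k)) (norm_nonneg _) (norm_nonneg _)
  calc ‖∑ k, x a k * z t k b‖ ≤ ∑ k, ‖x a k * z t k b‖ := norm_sum_le _ _
    _ ≤ ∑ _k : Fin 3, ‖x‖ * ‖z t‖ := Finset.sum_le_sum fun k _ => h1 k
    _ = 3 * ‖z t‖ * ‖x‖ := by simp; ring

theorem odeF_sub (z : ℝ → Fin 3 → Fin 3 → ℝ) (t : ℝ) (x y : Fin 3 → Fin 3 → ℝ) :
    odeF z t x - odeF z t y = odeF z t (x - y) := by
  funext a b
  simp only [odeF, Pi.sub_apply, ← Finset.sum_sub_distrib, sub_mul]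

theorem ode_sol (z : ℝ → Fin 3 → Fin 3 → ℝ) (t0 r : ℝ) (hr : 0 < r)
    (hc : ∀ t, |t - t0| < r → ContinuousAt z t) (x₀ : Fin 3 → Fin 3 → ℝ) :
    ∃ ε : ℝ, 0 < ε ∧ ε ≤ r ∧ ∃ α : ℝ → Fin 3 → Fin 3 → ℝ, α t0 = x₀ ∧
      ∀ t, |t - t0| < ε → HasDerivAt α (odeF z t (α t)) t := by
  have hcon : ContinuousOn z (Icc (t0 - r / 2) (t0 + r / 2)) := by
    intro t ht
    apply (hc t _).continuousWithinAt
    rw [abs_lt]
    constructor <;> linarith [ht.1, ht.2]
  obtain ⟨Z, hZ⟩ := isCompact_Icc.exists_bound_of_continuousOn hcon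
  have hZ0 : 0 ≤ Z := (norm_nonneg _).trans (hZ t0 ⟨by linarith, by linarith⟩)
  set L : ℝ := 3 * Z * (‖x₀‖ + 1) + 1 with hL
  have hL0 : 0 < L := by positivity
  set ε : ℝ := min (r / 2) (1 / L) with hε
  have hε0 : 0 < ε := lt_min (by linarith) (by positivity)
  have hε1 : ε ≤ r / 2 := min_le_left _ _
  have hε2 : L * ε ≤ 1 := by
    calc L * ε ≤ L * (1 / L) := mul_le_mul_of_nonneg_left (min_le_right _ _) hL0.le
      _ = 1 := by field_simp
  have hsub : Icc (t0 - ε) (t0 + ε) ⊆ Icc (t0 - r / 2) (t0 + r / 2) :=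
    Icc_subset_Icc (by linarith) (by linarith)
  have hPL : IsPicardLindelof (odeF z) (tmin := t0 - ε) (tmax := t0 + ε)
      ⟨t0, by constructor <;> linarith⟩ x₀ 1 0 ⟨L, hL0.le⟩ ⟨3 * Z, by positivity⟩ := by
    constructor
    · intro t ht
      apply LipschitzOnWith.of_dist_le_mul
      intro x _ y _
      rw [dist_eq_norm, dist_eq_norm, odeF_sub]
      refine (odeF_norm z t _).trans ?_
      have h1 := hZ t (hsub ht)
      change 3 * ‖z t‖ * ‖x - y‖ ≤ 3 * Z * ‖x - y‖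
      gcongr
    · intro x _
      have h1 : ContinuousOn z (Icc (t0 - ε) (t0 + ε)) := hcon.mono hsub
      unfold odeF
      rw [continuousOn_pi]
      intro a
      rw [continuousOn_pi]
      intro b
      apply continuousOn_finsetSum
      intro k _
      apply ContinuousOn.mul continuousOn_const
      exact continuousOn_pi.1 (continuousOn_pi.1 h1 k) b
    · intro t ht x hx
      refine (odeF_norm z t x).trans ?_
      have h1 := hZ t (hsub ht)
      have h2 : ‖x‖ ≤ ‖x₀‖ + 1 := by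
        rw [Metric.mem_closedBall, dist_eq_norm] at hx
        have h3 : ‖x‖ ≤ ‖x - x₀‖ + ‖x₀‖ := by
          have := norm_add_le (x - x₀) x₀
          rwa [sub_add_cancel] at this
        have h4 : ‖x - x₀‖ ≤ 1 := by simpa using hx
        linarith
      change 3 * ‖z t‖ * ‖x‖ ≤ L
      have h3 : 3 * ‖z t‖ * ‖x‖ ≤ 3 * Z * (‖x₀‖ + 1) := by gcongr
      linarith
    · change L * max ((t0 + ε) - t0) (t0 - (t0 - ε)) ≤ 1 - 0
      have h1 : max ((t0 + ε) - t0) (t0 - (t0 - ε)) = ε := by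
        rw [add_sub_cancel_left, sub_sub_cancel, max_self]
      rw [h1]
      linarith
  obtain ⟨α, hα0, hα⟩ := hPL.exists_eq_forall_mem_Icc_hasDerivWithinAt₀
  refine ⟨ε, hε0, by linarith, α, hα0, fun t ht => ?_⟩
  rw [abs_lt] at ht
  exact (hα t ⟨by linarith, by linarith⟩).hasDerivAt (Icc_mem_nhds (by linarith) (by linarith))

theorem ode_det (z : ℝ → Fin 3 → Fin 3 → ℝ) (α : ℝ → Fin 3 → Fin 3 → ℝ) (t : ℝ)
    (h : HasDerivAt α (odeF z t (α t)) t) (htr : z t 0 0 + z t 1 1 + z t 2 2 = 0) :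
    HasDerivAt (fun t => (Matrix.of (α t)).det) 0 t := by
  have hab : ∀ a b, HasDerivAt (fun t => α t a b) (α t a 0 * z t 0 b + α t a 1 * z t 1 b +
      α t a 2 * z t 2 b) t := by
    intro a b
    have h1 := hasDerivAt_pi.1 (hasDerivAt_pi.1 h a) b
    simpa only [odeF, Fin.sum_univ_three] using h1
  have e : (fun t => (Matrix.of (α t)).det) = fun t =>
      α t 0 0 * α t 1 1 * α t 2 2 - α t 0 0 * α t 1 2 * α t 2 1 - α t 0 1 * α t 1 0 * α t 2 2 +
      α t 0 1 * α t 1 2 * α t 2 0 + α t 0 2 * α t 1 0 * α t 2 1 - α t 0 2 * α t 1 1 * α t 2 0 := by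
    funext t
    rw [Matrix.det_fin_three]
    rfl
  rw [e]
  have h1 := (((((((hab 0 0).mul (hab 1 1)).mul (hab 2 2)).sub
    (((hab 0 0).mul (hab 1 2)).mul (hab 2 1))).sub
    (((hab 0 1).mul (hab 1 0)).mul (hab 2 2))).add
    (((hab 0 1).mul (hab 1 2)).mul (hab 2 0))).add
    (((hab 0 2).mul (hab 1 0)).mul (hab 2 1))).sub
    (((hab 0 2).mul (hab 1 1)).mul (hab 2 0))
  refine HasDerivAt.congr_deriv h1 ?_
  simp only [Pi.mul_apply]
  linear_combination ((α t 0 0 * α t 1 1 * α t 2 2 - α t 0 0 * α t 1 2 * α t 2 1 -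
      α t 0 1 * α t 1 0 * α t 2 2 + α t 0 1 * α t 1 2 * α t 2 0 + α t 0 2 * α t 1 0 * α t 2 1 -
      α t 0 2 * α t 1 1 * α t 2 0)) * htr

/-- ODE -/
theorem ode (ζ : ℝ → Mat) (t0 r : ℝ) (hr : 0 < r) (hc : ∀ t, |t - t0| < r → ContinuousAt ζ t)
    (htr : ∀ t, |t - t0| < r → Matrix.trace (ζ t) = 0) :
    ∃ ε : ℝ, 0 < ε ∧ ε ≤ r ∧ ∃ γ : ℝ → G, γ t0 = 1 ∧ ∀ t, |t - t0| < ε → ∀ a b : Fin 3,
      HasDerivAt (fun t => (γ t).1 a b) (((γ t).1 * ζ t) a b) t := by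
  obtain ⟨ε, hε, hεr, α, hα0, hα⟩ := ode_sol (fun t => (ζ t : Fin 3 → Fin 3 → ℝ)) t0 r hr hc
    ((1 : Mat) : Fin 3 → Fin 3 → ℝ)
  have hdet : ∀ t, |t - t0| < ε → (Matrix.of (α t)).det = 1 := by
    intro t ht
    have hd : ∀ s, s ∈ Metric.ball t0 ε → HasDerivAt (fun t => (Matrix.of (α t)).det) 0 s := by
      intro s hs
      rw [Metric.mem_ball, Real.dist_eq] at hs
      apply ode_det _ _ _ (hα s hs)
      have h1 := htr s (hs.trans_le hεr)
      rw [Matrix.trace, Fin.sum_univ_three] at h1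
      exact h1
    have h1 := Metric.isOpen_ball.is_const_of_deriv_eq_zero
      (convex_ball t0 ε).isPreconnected
      (fun s hs => (hd s hs).differentiableAt.differentiableWithinAt)
      (fun s hs => (hd s hs).deriv)
      (show t ∈ Metric.ball t0 ε by rwa [Metric.mem_ball, Real.dist_eq])
      (Metric.mem_ball_self hε)
    rw [h1, hα0]
    exact Matrix.det_one
  obtain ⟨γ, hγ⟩ : ∃ γ : ℝ → G, ∀ t, |t - t0| < ε → (γ t).1 = Matrix.of (α t) := by
    refine ⟨fun t => if h : |t - t0| < ε then (⟨Matrix.of (α t), hdet t h⟩ : G) else 1, ?_⟩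
    intro t ht
    simp only [dif_pos ht]
  refine ⟨ε, hε, hεr, γ, ?_, ?_⟩
  · have h0 : |t0 - t0| < ε := by simpa using hε
    apply Subtype.ext
    rw [hγ t0 h0, hα0]
    rfl
  · intro t ht a b
    have hev : ∀ᶠ s in 𝓝 t, |s - t0| < ε := by
      have hcont : Continuous fun s : ℝ => |s - t0| := by fun_prop
      exact hcont.continuousAt.eventually_lt continuousAt_const ht
    have h1 := hasDerivAt_pi.1 (hasDerivAt_pi.1 (hα t ht) a) b
    have h2 : (fun t => (γ t).1 a b) =ᶠ[𝓝 t] fun t => α t a b := by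
      filter_upwards [hev] with s hs
      rw [hγ s hs]
      rfl
    rw [hγ t ht]
    refine (h1.congr_of_eventuallyEq h2).congr_deriv ?_
    rw [Matrix.mul_apply]
    rfl

end Pool.Agent.H88.LF
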