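import Pool.Agent.H88.LF.STRA
import Pool.Agent.H88.LF.ODE
import Pool.Agent.H88.LF.FBB

/-!
# STRB (blueprint 9.4): straightening

`PreFB` with `A = Fin S.n × {t // |t| < 1}` and `c (i,t0) s = γ(t0+εs) • c i (t0+εs)` (`ode` for `ζ i` near `t0`; `ε` so small that `|t0 ± ε| < 1` and `nd(γ(t)) `, `nd(γ(t)⁻¹)` are small).
`inj`: `h γ(t) c i t = h' γ(t') c i t'` and `S.inj`.  `opn`: `(h,t) ↦ (hγ(t),t)` is a local homeomorphism, `S.opn` (use `FB.isOpen_image`).
`cover`: every `x` is `h • c i t0`, `γ(t0) = 1`.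
Transitions: `c (i,t0)(s) = k0 • c (j,τ0)(υ)` means with `t = t0+εs`, `τ = τ0+ε'υ`: `c i t = (γ_i(t)⁻¹ k0 γ_j(τ)) • c j τ`, an arrow `k`; along its continuation `γ_i(t) kf(t) γ_j(τf t)⁻¹` has derivative
`γ_i ζ_i kf γ_j⁻¹ + γ_i (dk kf) γ_j⁻¹ - γ_i kf (τf' ζ_j) γ_j⁻¹ = γ_i (ζ_i + dk - τf' Ad(kf)ζ_j) kf γ_j⁻¹ = 0` (law for `ζ`; inverse: `(γ⁻¹)' = -ζγ⁻¹`), so it is constant `= k0`: `c (i,t0)(s) = k0 • c (j,τ0)(υ(s))`.
-/

set_option autoImplicit false

open MeasureTheory Set Filter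
open scoped Topology

namespace Pool.Agent.H88.LF

/-- entrywise derivative -/
def STRB_MD (A : ℝ → Mat) (A' : Mat) (t : ℝ) : Prop :=
  ∀ a b : Fin 3, HasDerivAt (fun t => A t a b) (A' a b) t

theorem STRB_MD.mul {A B : ℝ → Mat} {A' B' : Mat} {t : ℝ} (hA : STRB_MD A A' t)
    (hB : STRB_MD B B' t) : STRB_MD (fun t => A t * B t) (A' * B t + A t * B') t := by
  intro a b
  have h1 : (fun t => (A t * B t) a b) = fun t => ∑ k, A t a k * B t k b := by
    funext t
    rw [Matrix.mul_apply]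
  have h2 : (A' * B t + A t * B') a b = ∑ k, (A' a k * B t k b + A t a k * B' k b) := by
    rw [Matrix.add_apply, Matrix.mul_apply, Matrix.mul_apply, Finset.sum_add_distrib]
  rw [h1, h2]
  exact HasDerivAt.fun_sum fun k _ => (hA a k).mul (hB k b)

theorem STRB_MD.unique {A : ℝ → Mat} {A' B' : Mat} {t : ℝ} (hA : STRB_MD A A' t)
    (hB : STRB_MD A B' t) : A' = B' := by
  ext a b
  exact (hA a b).unique (hB a b)

theorem STRB_MD.comp {A : ℝ → Mat} {A' : Mat} {f : ℝ → ℝ} {f' t : ℝ}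
    (hA : STRB_MD A A' (f t)) (hf : HasDerivAt f f' t) :
    STRB_MD (fun t => A (f t)) (f' • A') t := by
  intro a b
  have h := (hA a b).comp t hf
  rw [Matrix.smul_apply, smul_eq_mul, mul_comm]
  exact h

theorem STRB_inv {γ : ℝ → G} {B' : Mat} {t : ℝ} (h : STRB_MD (fun t => (γ t).1) B' t) :
    STRB_MD (fun t => ((γ t)⁻¹).1) (-(((γ t)⁻¹).1 * B' * ((γ t)⁻¹).1)) t := by
  have hd : ∀ a b : Fin 3, DifferentiableAt ℝ (fun t => ((γ t)⁻¹).1 a b) t := by
    have h0 : ∀ a b : Fin 3, DifferentiableAt ℝ (fun t => (γ t).1 a b) t :=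
      fun a b => (h a b).differentiableAt
    have h1 : (fun t => ((γ t)⁻¹).1) = fun t => (γ t).1.adjugate := by
      funext t
      rw [Matrix.SpecialLinearGroup.coe_inv]
    intro a b
    have h2 : (fun t => ((γ t)⁻¹).1 a b) = fun t => (γ t).1.adjugate a b := by
      funext t
      rw [Matrix.SpecialLinearGroup.coe_inv]
    rw [h2]
    simp only [Matrix.adjugate_fin_three]
    fin_cases a <;> fin_cases b <;>
    simp only [Matrix.of_apply, Matrix.cons_val', Matrix.cons_val_zero, Matrix.cons_val_one,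
      Matrix.cons_val, Matrix.cons_val_fin_one, Fin.zero_eta, Fin.mk_one, Fin.reduceFinMk,
      Fin.isValue] <;>
    fun_prop (disch := assumption)
  set C' : Mat := Matrix.of fun a b => deriv (fun t => ((γ t)⁻¹).1 a b) t with hC'
  have hC : STRB_MD (fun t => ((γ t)⁻¹).1) C' t := fun a b => (hd a b).hasDerivAt
  have h1 := h.mul hC
  have h2 : STRB_MD (fun t => (γ t).1 * ((γ t)⁻¹).1) 0 t := by
    have h3 : (fun t => (γ t).1 * ((γ t)⁻¹).1) = fun _ => (1 : Mat) := by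
      funext t
      rw [← Matrix.SpecialLinearGroup.coe_mul, mul_inv_cancel, Matrix.SpecialLinearGroup.coe_one]
    rw [h3]
    exact fun a b => hasDerivAt_const t _
  have h4 := h1.unique h2
  have h5 : ((γ t)⁻¹).1 * (γ t).1 = 1 := by
    rw [← Matrix.SpecialLinearGroup.coe_mul, inv_mul_cancel, Matrix.SpecialLinearGroup.coe_one]
  have h6 : C' = -(((γ t)⁻¹).1 * B' * ((γ t)⁻¹).1) := by
    have h7 : ((γ t)⁻¹).1 * (B' * ((γ t)⁻¹).1 + (γ t).1 * C') = 0 := by
      rw [h4, mul_zero]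
    rw [mul_add, ← mul_assoc, ← mul_assoc, h5, one_mul] at h7
    exact eq_neg_of_add_eq_zero_right h7
  rw [← h6]
  exact hC

theorem STRB_cont {γ : ℝ → G} {B' : Mat} {t : ℝ} (h : STRB_MD (fun t => (γ t).1) B' t) :
    ContinuousAt γ t := by
  rw [closedEmb_val.isInducing.continuousAt_iff]
  exact continuousAt_pi.2 fun a => continuousAt_pi.2 fun b => (h a b).continuousAt

/-- a curve in `G` with vanishing derivative near `t1` is constant near `t1` -/
theorem STRB_const {F : ℝ → G} {t1 : ℝ} (h : ∀ᶠ t in 𝓝 t1, STRB_MD (fun t => (F t).1) 0 t) :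
    ∀ᶠ t in 𝓝 t1, F t = F t1 := by
  obtain ⟨δ, hδ, hb⟩ := Metric.eventually_nhds_iff_ball.1 h
  refine Metric.eventually_nhds_iff_ball.2 ⟨δ, hδ, fun t ht => ?_⟩
  apply Subtype.ext
  ext a b
  refine Metric.isOpen_ball.is_const_of_deriv_eq_zero (s := Metric.ball t1 δ)
    (f := fun t => (F t).1 a b) (convex_ball t1 δ).isPreconnected ?_ ?_ ht
    (Metric.mem_ball_self hδ)
  · exact fun s hs => (hb s hs a b).differentiableAt.differentiableWithinAt
  · intro s hs
    have := (hb s hs a b).deriv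
    simpa using this

variable {X : Type} [MetricSpace X] [CompactSpace X] [MulAction G X] [ContinuousSMul G X]

/-- the local straightening curves -/
theorem STRB_data (S : FB X) (ζ : Fin S.n → ℝ → Mat)
    (hc : ∀ i t, |t| < 1 → ContinuousAt (ζ i) t)
    (htr : ∀ i t, |t| < 1 → Matrix.trace (ζ i t) = 0) (i : Fin S.n) (t0 : ℝ) (ht0 : |t0| < 1) :
    ∃ ε : ℝ, 0 < ε ∧ ∃ γ : ℝ → G, γ t0 = 1 ∧ ∀ t, |t - t0| < ε → |t| < 1 ∧
      nd (γ t) < S.ρ0 / 2 ∧ STRB_MD (fun t => (γ t).1) ((γ t).1 * ζ i t) t := by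
  have hr : 0 < 1 - |t0| := by linarith
  have hin : ∀ t, |t - t0| < 1 - |t0| → |t| < 1 := by
    intro t ht
    have h1 : |t| ≤ |t - t0| + |t0| := by
      have := abs_add_le (t - t0) t0
      rwa [sub_add_cancel] at this
    linarith
  obtain ⟨ε, hε, hεr, γ, hγ0, hγ⟩ := ode (ζ i) t0 (1 - |t0|) hr
    (fun t ht => hc i t (hin t ht)) (fun t ht => htr i t (hin t ht))
  have hρ0 : 0 < S.ρ0 := by
    have h1 := S.hρ1
    have h2 := S.hρ
    linarith
  have hcont : ContinuousAt (fun t => nd (γ t)) t0 := by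
    have h1 : ContinuousAt γ t0 := STRB_cont (hγ t0 (by simpa using hε))
    exact continuous_nd.continuousAt.comp h1
  have hev : ∀ᶠ t in 𝓝 t0, nd (γ t) < S.ρ0 / 2 := by
    refine hcont.eventually_lt continuousAt_const ?_
    rw [hγ0, nd_one]
    linarith
  obtain ⟨δ, hδ, hb⟩ := Metric.eventually_nhds_iff.1 hev
  refine ⟨min ε δ, lt_min hε hδ, γ, hγ0, fun t ht => ⟨hin t ?_, hb ?_, hγ t ?_⟩⟩
  · exact (ht.trans_le (min_le_left _ _)).trans_le hεr
  · rw [Real.dist_eq]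
    exact ht.trans_le (min_le_right _ _)
  · exact ht.trans_le (min_le_left _ _)

/-- the product `γ_i(t) kf(t) γ_j(τf t)⁻¹` has derivative zero -/
theorem STRB_deriv {A K B : ℝ → G} {t : ℝ} {Zi Zj dk : Mat} {d : ℝ}
    (hA : STRB_MD (fun t => (A t).1) ((A t).1 * Zi) t)
    (hK : STRB_MD (fun t => (K t).1) (dk * (K t).1) t)
    (hB : STRB_MD (fun t => (B t).1) (d • ((B t).1 * Zj)) t)
    (hlaw : dk + Zi = d • ((K t).1 * Zj * ((K t)⁻¹).1)) :
    STRB_MD (fun t => (A t * K t * (B t)⁻¹).1) 0 t := by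
  have h1 := (hA.mul hK).mul (STRB_inv hB)
  have e1 : (fun t => (A t * K t * (B t)⁻¹).1) =
      fun t => (A t).1 * (K t).1 * ((B t)⁻¹).1 := by
    funext t
    rw [Matrix.SpecialLinearGroup.coe_mul, Matrix.SpecialLinearGroup.coe_mul]
  rw [e1]
  have hBB : ((B t)⁻¹).1 * (B t).1 = 1 := by
    rw [← Matrix.SpecialLinearGroup.coe_mul, inv_mul_cancel, Matrix.SpecialLinearGroup.coe_one]
  have hKK : ((K t)⁻¹).1 * (K t).1 = 1 := by
    rw [← Matrix.SpecialLinearGroup.coe_mul, inv_mul_cancel, Matrix.SpecialLinearGroup.coe_one]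
  have e2 : ((A t).1 * Zi * (K t).1 + (A t).1 * (dk * (K t).1)) * ((B t)⁻¹).1 +
      (A t).1 * (K t).1 * (-(((B t)⁻¹).1 * (d • ((B t).1 * Zj)) * ((B t)⁻¹).1)) = 0 := by
    have e3 : (A t).1 * Zi * (K t).1 + (A t).1 * (dk * (K t).1) =
        d • ((A t).1 * (K t).1 * Zj) := by
      have : (A t).1 * Zi * (K t).1 + (A t).1 * (dk * (K t).1) =
          (A t).1 * (dk + Zi) * (K t).1 := by
        noncomm_ring
      rw [this, hlaw, mul_smul_comm, smul_mul_assoc]
      congr 1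
      calc (A t).1 * ((K t).1 * Zj * ((K t)⁻¹).1) * (K t).1
          = (A t).1 * (K t).1 * Zj * (((K t)⁻¹).1 * (K t).1) := by noncomm_ring
        _ = _ := by rw [hKK, mul_one]
    have e4 : ((B t)⁻¹).1 * (d • ((B t).1 * Zj)) * ((B t)⁻¹).1 = d • (Zj * ((B t)⁻¹).1) := by
      rw [mul_smul_comm, smul_mul_assoc, ← mul_assoc, hBB, one_mul]
    have e5 : (A t).1 * (K t).1 * (Zj * ((B t)⁻¹).1) = (A t).1 * (K t).1 * Zj * ((B t)⁻¹).1 :=
      (mul_assoc _ _ _).symm
    rw [e3, e4, smul_mul_assoc, mul_neg, mul_smul_comm, e5]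
    exact add_neg_cancel _
  rw [e2] at h1
  exact h1

/-- Straightening with a given continuous line field. -/
theorem straighten_of_line_field (S : FB X) (ζ : Fin S.n → ℝ → Mat)
    (hc : ∀ i t, |t| < 1 → ContinuousAt (ζ i) t)
    (htr : ∀ i t, |t| < 1 → Matrix.trace (ζ i t) = 0)
    (hlaw : ∀ i j t τ k, S.Arr i j t τ k →
      S.dk i j t τ k + ζ i t = S.dτ i j t τ k • (k.1 * ζ j τ * (k⁻¹).1)) :
    ∃ S' : FB X, S'.Straight := by
  have data : ∀ a : Fin S.n × {t : ℝ // |t| < 1}, ∃ ε : ℝ, 0 < ε ∧ ∃ γ : ℝ → G,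
      γ a.2.1 = 1 ∧ ∀ t, |t - a.2.1| < ε → |t| < 1 ∧
      nd (γ t) < S.ρ0 / 2 ∧ STRB_MD (fun t => (γ t).1) ((γ t).1 * ζ a.1 t) t :=
    fun a => STRB_data S ζ hc htr a.1 a.2.1 a.2.2
  choose ε hε γ hγ0 hγ using data
  have hρ0 : 0 < S.ρ0 := by
    have h1 := S.hρ1
    have h2 := S.hρ
    linarith
  have hρ01 := S.hρ0
  -- the parameter
  have hpar : ∀ (a : Fin S.n × {t : ℝ // |t| < 1}) (s : ℝ), |s| < 1 →
      |a.2.1 + ε a * s - a.2.1| < ε a := by
    intro a s hs
    rw [add_sub_cancel_left, abs_mul, abs_of_pos (hε a)]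
    have := hε a
    nlinarith
  set c : Fin S.n × {t : ℝ // |t| < 1} → ℝ → X := fun a s =>
    γ a (a.2.1 + ε a * s) • S.c a.1 (a.2.1 + ε a * s) with hcdef
  -- the main point
  have main : ∀ (a b : Fin S.n × {t : ℝ // |t| < 1}) (s0 υ0 : ℝ) (k0 : G), |s0| < 1 → |υ0| < 1 →
      c a s0 = k0 • c b υ0 → ∃ τ : ℝ → ℝ, τ s0 = υ0 ∧ ContDiffAt ℝ 2 τ s0 ∧
        ∀ᶠ s in 𝓝 s0, c a s = k0 • c b (τ s) := by
    intro a b s0 υ0 k0 hs0 hυ0 he
    have hεb := hε b
    set t1 : ℝ := a.2.1 + ε a * s0 with ht1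
    set τ1 : ℝ := b.2.1 + ε b * υ0 with hτ1
    have hta := hpar a s0 hs0
    have hτb := hpar b υ0 hυ0
    rw [← ht1] at hta
    rw [← hτ1] at hτb
    have harr : S.Arr a.1 b.1 t1 τ1 ((γ a t1)⁻¹ * k0 * γ b τ1) := by
      refine ⟨(hγ a t1 hta).1, (hγ b τ1 hτb).1, ?_⟩
      have h1 : γ a t1 • S.c a.1 t1 = k0 • γ b τ1 • S.c b.1 τ1 := he
      rw [mul_smul, mul_smul, ← h1, inv_smul_smul]
    set k1 : G := (γ a t1)⁻¹ * k0 * γ b τ1 with hk1
    obtain ⟨hkf0, hτf0, -, hτf2, -, hev⟩ := S.kf_τf_spec harr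
    set kf : ℝ → G := S.kf a.1 b.1 t1 τ1 k1 with hkf
    set τf : ℝ → ℝ := S.τf a.1 b.1 t1 τ1 k1 with hτf
    have hτfc : ContinuousAt τf t1 := hτf2.continuousAt
    -- near `t1` everything is defined
    have n1 : ∀ᶠ t in 𝓝 t1, |t - a.2.1| < ε a := by
      have : ContinuousAt (fun t => |t - a.2.1|) t1 := by fun_prop
      exact this.eventually_lt continuousAt_const hta
    have n2 : ∀ᶠ t in 𝓝 t1, |τf t - b.2.1| < ε b := by
      have : ContinuousAt (fun t => |τf t - b.2.1|) t1 :=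
        (hτfc.sub continuousAt_const).abs
      refine this.eventually_lt continuousAt_const ?_
      rw [hτf0]
      exact hτb
    have n3 := S.eventually_arr harr
    have n4 := S.eventually_contDiffAt harr
    have n5 := S.eventually_dτ harr
    have hconst : ∀ᶠ t in 𝓝 t1, γ a t * kf t * (γ b (τf t))⁻¹ =
        γ a t1 * kf t1 * (γ b (τf t1))⁻¹ := by
      refine STRB_const (F := fun t => γ a t * kf t * (γ b (τf t))⁻¹) ?_
      filter_upwards [n1, n2, n3, n4, n5] with t m1 m2 m3 m4 m5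
      have hA := (hγ a t m1).2.2
      have hB0 := (hγ b (τf t) m2).2.2
      have hτd : HasDerivAt τf (deriv τf t) t :=
        (m4.2.1.differentiableAt (by norm_num)).hasDerivAt
      have hB := hB0.comp hτd
      have hK : STRB_MD (fun t => (kf t).1)
          (S.dk a.1 b.1 t (τf t) (kf t) * (kf t).1) t := by
        intro x y
        rw [m5.2 x y]
        exact ((m4.1 x y).differentiableAt (by norm_num)).hasDerivAt
      refine STRB_deriv (A := γ a) (K := kf) (B := fun t => γ b (τf t)) hA hK hB ?_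
      rw [← m5.1]
      exact hlaw _ _ _ _ _ m3
    have hk0 : γ a t1 * kf t1 * (γ b (τf t1))⁻¹ = k0 := by
      rw [hkf0, hτf0, hk1]
      group
    rw [hk0] at hconst
    have hfin : ∀ᶠ t in 𝓝 t1, γ a t • S.c a.1 t = k0 • γ b (τf t) • S.c b.1 (τf t) := by
      filter_upwards [hconst, hev] with t m1 m2
      rw [m2, ← m1, ← mul_smul, ← mul_smul]
      congr 1
      group
    have hlin : ContinuousAt (fun s : ℝ => a.2.1 + ε a * s) s0 := by fun_prop
    refine ⟨fun s => (τf (a.2.1 + ε a * s) - b.2.1) / ε b, ?_, ?_, ?_⟩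
    · simp only
      rw [← ht1, hτf0, hτ1]
      field_simp
      ring
    · have h1 : ContDiffAt ℝ 2 (fun s : ℝ => a.2.1 + ε a * s) s0 := by fun_prop
      have h2 : ContDiffAt ℝ 2 (fun s : ℝ => τf (a.2.1 + ε a * s)) s0 :=
        ContDiffAt.comp (g := τf) s0 (by rw [← ht1]; exact hτf2) h1
      exact (h2.sub contDiffAt_const).div_const _
    · filter_upwards [hlin.eventually hfin] with s m
      simp only [hcdef]
      have h3 : b.2.1 + ε b * ((τf (a.2.1 + ε a * s) - b.2.1) / ε b) =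
          τf (a.2.1 + ε a * s) := by
        rw [mul_div_cancel₀ _ hεb.ne']
        ring
      rw [h3]
      exact m
  refine straight_of_preFB
    { A := Fin S.n × {t : ℝ // |t| < 1}
      c := c
      ρ := fun _ => S.ρ0 / 8
      hρ := fun _ => by positivity
      cont := ?_
      inj := ?_
      opn := ?_
      cover := ?_
      trans := ?_ } main
  · intro a s hs
    have h1 := (hγ a _ (hpar a s hs))
    have h2 : ContinuousAt (γ a) (a.2.1 + ε a * s) := STRB_cont h1.2.2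
    have h3 : ContinuousAt (S.c a.1) (a.2.1 + ε a * s) := S.cont _ _ h1.1
    have h4 : ContinuousAt (fun s : ℝ => a.2.1 + ε a * s) s := by fun_prop
    exact (ContinuousAt.comp (f := fun s : ℝ => a.2.1 + ε a * s) (g := γ a) h2 h4).smul
      (ContinuousAt.comp (f := fun s : ℝ => a.2.1 + ε a * s) (g := S.c a.1) h3 h4)
  · intro a h h' s s' hs hs' hh hh' he
    have hεa := hε a
    have key : ∀ (h : G) (s : ℝ), |s| < 1 → nd h < S.ρ0 / 8 →
        nd (h * γ a (a.2.1 + ε a * s)) < S.ρ0 := by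
      intro h s hs hh
      have h1 := (hγ a _ (hpar a s hs)).2.1
      have h2 := nd_mul_le h (γ a (a.2.1 + ε a * s))
      have h3 := nrm_le_nd (γ a (a.2.1 + ε a * s))
      have h4 := nd_nonneg h
      have h5 : nd h * nrm (γ a (a.2.1 + ε a * s)).1 ≤ (S.ρ0 / 8) * (3 + 1 / 2) := by
        refine mul_le_mul hh.le (by linarith) (nrm_nonneg _) (by linarith)
      linarith
    have h1 : (h * γ a (a.2.1 + ε a * s)) • S.c a.1 (a.2.1 + ε a * s) =
        (h' * γ a (a.2.1 + ε a * s')) • S.c a.1 (a.2.1 + ε a * s') := by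
      rw [mul_smul, mul_smul]
      exact he
    obtain ⟨h2, h3⟩ := S.inj a.1 _ _ _ _ (hγ a _ (hpar a s hs)).1 (hγ a _ (hpar a s' hs')).1
      (key h s hs hh) (key h' s' hs' hh') h1
    have h4 : s = s' := by
      have h5 : ε a * s = ε a * s' := by linarith
      exact mul_left_cancel₀ hεa.ne' h5
    subst h4
    exact ⟨mul_right_cancel h2, rfl⟩
  · intro a s hs η hη
    have hεa := hε a
    set U : Set (G × ℝ) := {p | |p.2 - a.2.1| < ε a} with hU
    have hUo : IsOpen U := isOpen_lt (by fun_prop) continuous_const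
    have hf : ContinuousOn (fun p : G × ℝ =>
        (nd (p.1 * (γ a p.2)⁻¹), |(p.2 - a.2.1) / ε a - s|)) U := by
      intro p hp
      have h1 : ContinuousAt (γ a) p.2 := STRB_cont (hγ a p.2 hp).2.2
      have h2 : ContinuousAt (fun p : G × ℝ => γ a p.2) p :=
        ContinuousAt.comp (f := fun p : G × ℝ => p.2) (g := γ a) h1 continuousAt_snd
      have h3 : ContinuousAt (fun p : G × ℝ => p.1 * (γ a p.2)⁻¹) p :=
        continuousAt_fst.mul h2.inv
      have h4 : ContinuousAt (fun p : G × ℝ => nd (p.1 * (γ a p.2)⁻¹)) p :=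
        ContinuousAt.comp (f := fun p : G × ℝ => p.1 * (γ a p.2)⁻¹) (g := nd)
          continuous_nd.continuousAt h3
      have h5 : ContinuousAt (fun p : G × ℝ => |(p.2 - a.2.1) / ε a - s|) p := by fun_prop
      exact (h4.prodMk h5).continuousWithinAt
    have hVo := hf.isOpen_inter_preimage hUo
      ((isOpen_Iio (a := η)).prod (isOpen_Iio (a := min η (1 - |s|))))
    have himg := S.isOpen_image a.1 _ hVo (fun p hp => (hγ a p.2 hp.1).1)
    have hs1 : 0 < 1 - |s| := by linarith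
    refine mem_of_superset (himg.mem_nhds
      ⟨(γ a (a.2.1 + ε a * s), a.2.1 + ε a * s), ⟨hpar a s hs, ?_⟩, rfl⟩) ?_
    · simp only [mem_preimage, mem_prod, mem_Iio]
      rw [mul_inv_cancel, nd_one, add_sub_cancel_left, mul_div_cancel_left₀ _ hεa.ne', sub_self,
        abs_zero]
      exact ⟨hη, lt_min hη hs1⟩
    · rintro x ⟨⟨g, T⟩, ⟨hT, h1, h2⟩, rfl⟩
      simp only [mem_Iio] at h1 h2
      refine ⟨g * (γ a T)⁻¹, (T - a.2.1) / ε a, h1, h2.trans_le (min_le_left _ _), ?_, ?_⟩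
      · have h3 : |(T - a.2.1) / ε a| ≤ |(T - a.2.1) / ε a - s| + |s| := by
          have := abs_add_le ((T - a.2.1) / ε a - s) s
          rwa [sub_add_cancel] at this
        have h4 := h2.trans_le (min_le_right _ _)
        linarith
      · simp only [hcdef]
        rw [mul_div_cancel₀ _ hεa.ne', add_sub_cancel, mul_smul, inv_smul_smul]
  · intro x
    obtain ⟨-, h2, h3⟩ := S.rep_spec x
    refine ⟨(S.ri x, ⟨S.rt x, by linarith⟩), S.rh x, ?_⟩
    simp only [hcdef, mul_zero, add_zero]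
    rw [hγ0, one_smul]
    exact h3
  · intro a b s0 υ0 k0 hs0 hυ0 he
    obtain ⟨τ, h1, h2, h3⟩ := main a b s0 υ0 k0 hs0 hυ0 he
    exact ⟨fun _ => k0, τ, rfl, h1, fun _ _ => contDiffAt_const, h2, h3⟩

end Pool.Agent.H88.LF
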