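import Pool.Agent.H88.LF.P7C
import Pool.Agent.H88.LF.P7E
import Pool.Agent.H88.LF.STRB

/-!
# STR (blueprint 9.4): straightening
-/

set_option autoImplicit false

open MeasureTheory Set Filter
open scoped Topology

namespace Pool.Agent.H88.LF

variable {X : Type} [MetricSpace X] [CompactSpace X] [MulAction G X] [ContinuousSMul G X]

/-- STR -/
theorem straighten (S : FB X) (T : TN S) (h : T.CStar) : ∃ S' : FB X, S'.Straight := by
  obtain ⟨Bd⟩ := exists_TB T
  obtain ⟨ζ, h1, h2, h3⟩ := line_field_ae h Bd
  exact straighten_of_line_field S ζ (line_field_cont h Bd ζ h1) h2 h3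

end Pool.Agent.H88.LF
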