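import Pool.Agent.H88.LF.Defs

/-!
# GBA: the size functions `nrm`, `nd` and the balls `Bl`
-/

set_option autoImplicit false

open Set Filter
open scoped Topology

namespace Pool.Agent.H88.LF

theorem nrm_nonneg (A : Mat) : 0 ≤ nrm A :=
  Finset.sum_nonneg fun _ _ => Finset.sum_nonneg fun _ _ => abs_nonneg _

theorem nrm_zero : nrm (0 : Mat) = 0 := by simp [nrm]

theorem nrm_one : nrm (1 : Mat) = 3 := by
  simp [nrm, Fin.sum_univ_three, Matrix.one_apply]
  norm_num

theorem abs_le_nrm (A : Mat) (i j : Fin 3) : |A i j| ≤ nrm A := by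
  have h1 : |A i j| ≤ ∑ j, |A i j| :=
    Finset.single_le_sum (f := fun j => |A i j|) (fun _ _ => abs_nonneg _) (Finset.mem_univ j)
  have h2 : ∑ j, |A i j| ≤ nrm A :=
    Finset.single_le_sum (f := fun i => ∑ j, |A i j|)
      (fun _ _ => Finset.sum_nonneg fun _ _ => abs_nonneg _) (Finset.mem_univ i)
  exact h1.trans h2

theorem nrm_eq_zero_iff (A : Mat) : nrm A = 0 ↔ A = 0 := by
  constructor
  · intro h
    ext i j
    have := abs_le_nrm A i j
    rw [h] at this
    simpa using abs_nonpos_iff.mp this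
  · rintro rfl; exact nrm_zero

theorem nrm_add_le (A B : Mat) : nrm (A + B) ≤ nrm A + nrm B := by
  unfold nrm
  rw [← Finset.sum_add_distrib]
  refine Finset.sum_le_sum fun i _ => ?_
  rw [← Finset.sum_add_distrib]
  refine Finset.sum_le_sum fun j _ => ?_
  rw [Matrix.add_apply]
  exact abs_add_le _ _

theorem nrm_neg (A : Mat) : nrm (-A) = nrm A := by
  simp [nrm]

theorem nrm_sub_le (A B : Mat) : nrm (A - B) ≤ nrm A + nrm B := by
  rw [sub_eq_add_neg, ← nrm_neg B]
  exact nrm_add_le _ _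

theorem nrm_sub_comm (A B : Mat) : nrm (A - B) = nrm (B - A) := by
  rw [← nrm_neg (A - B), neg_sub]

theorem nrm_smul (a : ℝ) (A : Mat) : nrm (a • A) = |a| * nrm A := by
  simp [nrm, abs_mul, Finset.mul_sum]

theorem nrm_mul_le (A B : Mat) : nrm (A * B) ≤ nrm A * nrm B := by
  have hrow : ∀ k, ∑ j, |B k j| ≤ nrm B := fun k =>
    Finset.single_le_sum (f := fun i => ∑ j, |B i j|)
      (fun _ _ => Finset.sum_nonneg fun _ _ => abs_nonneg _) (Finset.mem_univ k)
  have h1 : ∀ i, ∑ j, |(A * B) i j| ≤ (∑ k, |A i k|) * nrm B := by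
    intro i
    calc ∑ j, |(A * B) i j| ≤ ∑ j, ∑ k, |A i k| * |B k j| := by
          refine Finset.sum_le_sum fun j _ => ?_
          rw [Matrix.mul_apply]
          refine (Finset.abs_sum_le_sum_abs _ _).trans (le_of_eq ?_)
          exact Finset.sum_congr rfl fun k _ => abs_mul _ _
      _ = ∑ k, |A i k| * ∑ j, |B k j| := by
          rw [Finset.sum_comm]
          exact Finset.sum_congr rfl fun k _ => by rw [Finset.mul_sum]
      _ ≤ ∑ k, |A i k| * nrm B :=
          Finset.sum_le_sum fun k _ => mul_le_mul_of_nonneg_left (hrow k) (abs_nonneg _)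
      _ = (∑ k, |A i k|) * nrm B := by rw [Finset.sum_mul]
  calc nrm (A * B) ≤ ∑ i, (∑ k, |A i k|) * nrm B := Finset.sum_le_sum fun i _ => h1 i
    _ = nrm A * nrm B := by rw [← Finset.sum_mul]; rfl

theorem nrm_le_of_entries (A : Mat) (r : ℝ) (h : ∀ i j, |A i j| ≤ r) : nrm A ≤ 9 * r := by
  calc nrm A ≤ ∑ _i : Fin 3, ∑ _j : Fin 3, r :=
        Finset.sum_le_sum fun i _ => Finset.sum_le_sum fun j _ => h i j
    _ = 9 * r := by simp; ring

theorem continuous_nrm : Continuous nrm := by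
  unfold nrm
  refine continuous_finsetSum _ fun i _ => continuous_finsetSum _ fun j _ => ?_
  exact (continuous_id.matrix_elem i j).abs

theorem continuous_nd : Continuous nd := by
  unfold nd
  exact continuous_nrm.comp (closedEmb_val.continuous.sub continuous_const)

theorem nd_nonneg (g : G) : 0 ≤ nd g := nrm_nonneg _

theorem nd_one : nd 1 = 0 := by
  unfold nd
  simp [nrm_zero]

theorem nd_eq_zero_iff (g : G) : nd g = 0 ↔ g = 1 := by
  unfold nd
  rw [nrm_eq_zero_iff, sub_eq_zero]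
  constructor
  · intro h; exact Subtype.ext (by rw [h]; rfl)
  · rintro rfl; rfl

theorem nrm_le_nd (g : G) : nrm g.1 ≤ 3 + nd g := by
  have h : g.1 = 1 + (g.1 - 1) := by abel
  have := nrm_add_le 1 (g.1 - 1)
  rw [← h, nrm_one] at this
  exact this

theorem GBA_nine (A : Mat) : nrm A = |A 0 0| + |A 0 1| + |A 0 2| + (|A 1 0| + |A 1 1| + |A 1 2|)
    + (|A 2 0| + |A 2 1| + |A 2 2|) := by
  simp [nrm, Fin.sum_univ_three]

theorem GBA_det (A : Mat) : |A.det| ≤ nrm A ^ 3 := by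
  rw [GBA_nine, Matrix.det_fin_three]
  have key : ∀ a b c d e f g h i : ℝ,
      |a * e * i - a * f * h - b * d * i + b * f * g + c * d * h - c * e * g| ≤
        (|a| + |b| + |c|) * (|d| + |e| + |f|) * (|g| + |h| + |i|) := by
    intro a b c d e f g h i
    have t : |a * e * i - a * f * h - b * d * i + b * f * g + c * d * h - c * e * g| ≤
        |a| * |e| * |i| + |a| * |f| * |h| + |b| * |d| * |i| + |b| * |f| * |g| + |c| * |d| * |h|
          + |c| * |e| * |g| := by
      have e1 : ∀ x y z : ℝ, |x| * |y| * |z| = |x * y * z| := fun x y z => by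
        rw [abs_mul, abs_mul]
      rw [e1, e1, e1, e1, e1, e1]
      rw [abs_le]
      constructor <;>
      linarith [neg_abs_le (a * e * i), le_abs_self (a * e * i), neg_abs_le (a * f * h),
        le_abs_self (a * f * h), neg_abs_le (b * d * i), le_abs_self (b * d * i),
        neg_abs_le (b * f * g), le_abs_self (b * f * g), neg_abs_le (c * d * h),
        le_abs_self (c * d * h), neg_abs_le (c * e * g), le_abs_self (c * e * g)]
    refine t.trans ?_
    generalize ha : |a| = a'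
    generalize hb : |b| = b'
    generalize hc : |c| = c'
    generalize hd : |d| = d'
    generalize he : |e| = e'
    generalize hf : |f| = f'
    generalize hg : |g| = g'
    generalize hh : |h| = h'
    generalize hi : |i| = i'
    have pa : 0 ≤ a' := ha ▸ abs_nonneg a
    have pb : 0 ≤ b' := hb ▸ abs_nonneg b
    have pc : 0 ≤ c' := hc ▸ abs_nonneg c
    have pd : 0 ≤ d' := hd ▸ abs_nonneg d
    have pe : 0 ≤ e' := he ▸ abs_nonneg e
    have pf : 0 ≤ f' := hf ▸ abs_nonneg f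
    have pg : 0 ≤ g' := hg ▸ abs_nonneg g
    have ph : 0 ≤ h' := hh ▸ abs_nonneg h
    have pi : 0 ≤ i' := hi ▸ abs_nonneg i
    have eq : (a' + b' + c') * (d' + e' + f') * (g' + h' + i') =
      (a' * e' * i' + a' * f' * h' + b' * d' * i' + b' * f' * g' + c' * d' * h' + c' * e' * g') +
      (a' * d' * g' + a' * d' * h' + a' * d' * i' + a' * e' * g' + a' * e' * h' + a' * f' * g'
      + a' * f' * i' + b' * d' * g' + b' * d' * h' + b' * e' * g' + b' * e' * h' + b' * e' * i'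
      + b' * f' * h' + b' * f' * i' + c' * d' * g' + c' * d' * i' + c' * e' * h' + c' * e' * i'
      + c' * f' * g' + c' * f' * h' + c' * f' * i') := by ring
    rw [eq]
    have : 0 ≤ (a' * d' * g' + a' * d' * h' + a' * d' * i' + a' * e' * g' + a' * e' * h'
      + a' * f' * g' + a' * f' * i' + b' * d' * g' + b' * d' * h' + b' * e' * g' + b' * e' * h'
      + b' * e' * i' + b' * f' * h' + b' * f' * i' + c' * d' * g' + c' * d' * i' + c' * e' * h'
      + c' * e' * i' + c' * f' * g' + c' * f' * h' + c' * f' * i') := by positivity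
    linarith
  refine (key _ _ _ _ _ _ _ _ _).trans ?_
  set x := |A 0 0| + |A 0 1| + |A 0 2| with hx
  set y := |A 1 0| + |A 1 1| + |A 1 2| with hy
  set z := |A 2 0| + |A 2 1| + |A 2 2| with hz
  have px : 0 ≤ x := by positivity
  have py : 0 ≤ y := by positivity
  have pz : 0 ≤ z := by positivity
  have eq : (x + y + z) ^ 3 = x * y * z + (x ^ 3 + y ^ 3 + z ^ 3 + 3 * x ^ 2 * y + 3 * x ^ 2 * z +
    3 * x * y ^ 2 + 3 * x * z ^ 2 + 3 * y ^ 2 * z + 3 * y * z ^ 2 + 5 * x * y * z) := by ring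
  rw [eq]
  have : 0 ≤ (x ^ 3 + y ^ 3 + z ^ 3 + 3 * x ^ 2 * y + 3 * x ^ 2 * z +
    3 * x * y ^ 2 + 3 * x * z ^ 2 + 3 * y ^ 2 * z + 3 * y * z ^ 2 + 5 * x * y * z) := by positivity
  linarith

theorem one_le_nrm (g : G) : 1 ≤ nrm g.1 := by
  have h := GBA_det g.1
  rw [g.2, abs_one] at h
  by_contra hc
  push Not at hc
  have h0 := nrm_nonneg g.1
  have : nrm g.1 ^ 3 < 1 := pow_lt_one₀ h0 hc (by norm_num)
  linarith

/-- `gh - 1 = (g-1)h + (h-1)` -/
theorem nd_mul_le (g h : G) : nd (g * h) ≤ nd g * nrm h.1 + nd h := by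
  unfold nd
  have e : (g * h).1 - 1 = (g.1 - 1) * h.1 + (h.1 - 1) := by
    rw [Matrix.SpecialLinearGroup.coe_mul]; noncomm_ring
  rw [e]
  exact (nrm_add_le _ _).trans (by linarith [nrm_mul_le (g.1 - 1) h.1])

/-- `gh - 1 = (g-1) + g(h-1)` -/
theorem nd_mul_le' (g h : G) : nd (g * h) ≤ nd g + nrm g.1 * nd h := by
  unfold nd
  have e : (g * h).1 - 1 = (g.1 - 1) + g.1 * (h.1 - 1) := by
    rw [Matrix.SpecialLinearGroup.coe_mul]; noncomm_ring
  rw [e]
  exact (nrm_add_le _ _).trans (by linarith [nrm_mul_le g.1 (h.1 - 1)])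

theorem GBA_adj (A : Mat) : nrm A.adjugate ≤ nrm A ^ 2 := by
  rw [GBA_nine, GBA_nine, Matrix.adjugate_fin_three]
  have key : ∀ a b c d : ℝ, |a * b - c * d| ≤ |a| * |b| + |c| * |d| := fun a b c d => by
    have := abs_sub (a * b) (c * d)
    rwa [abs_mul, abs_mul] at this
  have key' : ∀ a b c d : ℝ, |-(a * b) + c * d| ≤ |a| * |b| + |c| * |d| := fun a b c d => by
    have := abs_add_le (-(a * b)) (c * d)
    rwa [abs_neg, abs_mul, abs_mul] at this
  simp only [Matrix.of_apply, Matrix.cons_val', Matrix.cons_val_zero, Matrix.cons_val_one,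
    Matrix.cons_val, Matrix.cons_val_fin_one]
  set a := A 0 0
  set b := A 0 1
  set c := A 0 2
  set d := A 1 0
  set e := A 1 1
  set f := A 1 2
  set g := A 2 0
  set h := A 2 1
  set i := A 2 2
  have h1 := key e i f h
  have h2 := key' b i c h
  have h3 := key b f c e
  have h4 := key' d i f g
  have h5 := key a i c g
  have h6 := key' a f c d
  have h7 := key d h e g
  have h8 := key' a h b g
  have h9 := key a e b d
  have pa := abs_nonneg a
  have pb := abs_nonneg b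
  have pc := abs_nonneg c
  have pd := abs_nonneg d
  have pe := abs_nonneg e
  have pf := abs_nonneg f
  have pg := abs_nonneg g
  have ph := abs_nonneg h
  have pi := abs_nonneg i
  refine (add_le_add (add_le_add (add_le_add (add_le_add h1 h2) h3)
    (add_le_add (add_le_add h4 h5) h6)) (add_le_add (add_le_add h7 h8) h9)).trans ?_
  generalize |a| = a' at *
  generalize |b| = b' at *
  generalize |c| = c' at *
  generalize |d| = d' at *
  generalize |e| = e' at *
  generalize |f| = f' at *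
  generalize |g| = g' at *
  generalize |h| = h' at *
  generalize |i| = i' at *
  clear h1 h2 h3 h4 h5 h6 h7 h8 h9 key key'
  rw [← sub_nonneg]
  have eq : (a' + b' + c' + (d' + e' + f') + (g' + h' + i')) ^ 2 -
    (e' * i' + f' * h' + (b' * i' + c' * h') + (b' * f' + c' * e') +
    (d' * i' + f' * g' + (a' * i' + c' * g') + (a' * f' + c' * d')) +
    (d' * h' + e' * g' + (a' * h' + b' * g') + (a' * e' + b' * d'))) =
    a' ^ 2 + b' ^ 2 + c' ^ 2 + d' ^ 2 + e' ^ 2 + f' ^ 2 + g' ^ 2 + h' ^ 2 + i' ^ 2 +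
    (e' * i' + f' * h' + (b' * i' + c' * h') + (b' * f' + c' * e') +
    (d' * i' + f' * g' + (a' * i' + c' * g') + (a' * f' + c' * d')) +
    (d' * h' + e' * g' + (a' * h' + b' * g') + (a' * e' + b' * d'))) +
    2 * (a' * b' + a' * c' + b' * c' + d' * e' + d' * f' + e' * f' + g' * h' + g' * i' + h' * i' +
     a' * d' + a' * g' + d' * g' + b' * e' + b' * h' + e' * h' + c' * f' + c' * i' + f' * i') := by
    ring
  rw [eq]
  positivity

/-- The entries of the inverse are 2 by 2 minors. -/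
theorem nrm_inv_le (g : G) : nrm (g⁻¹).1 ≤ nrm g.1 ^ 2 := by
  rw [Matrix.SpecialLinearGroup.coe_inv]
  exact GBA_adj _

/-- `g⁻¹ - 1 = g⁻¹(1-g)` -/
theorem nd_inv_le (g : G) : nd g⁻¹ ≤ nrm (g⁻¹).1 * nd g := by
  unfold nd
  have e0 : (g⁻¹).1 * g.1 = 1 := by
    rw [← Matrix.SpecialLinearGroup.coe_mul, inv_mul_cancel]; rfl
  have e : (g⁻¹).1 - 1 = (g⁻¹).1 * (1 - g.1) := by
    rw [mul_sub, e0, mul_one]
  rw [e, nrm_sub_comm g.1 1]
  exact nrm_mul_le _ _

theorem nd_inv_le_of_small (g : G) (h : nd g ≤ 1 / 2) : nd g⁻¹ ≤ 2 * nd g := by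
  -- `g⁻¹ - 1 = (1 - g) + (g⁻¹ - 1)(1 - g)`
  have e0 : (g⁻¹).1 * g.1 = 1 := by
    rw [← Matrix.SpecialLinearGroup.coe_mul, inv_mul_cancel]; rfl
  have e : (g⁻¹).1 - 1 = (1 - g.1) + ((g⁻¹).1 - 1) * (1 - g.1) := by
    rw [sub_mul, mul_sub, e0]; noncomm_ring
  have h1 : nd g⁻¹ ≤ nd g + nd g⁻¹ * nd g := by
    unfold nd
    conv_lhs => rw [e]
    refine (nrm_add_le _ _).trans ?_
    rw [nrm_sub_comm g.1 1]
    linarith [nrm_mul_le ((g⁻¹).1 - 1) (1 - g.1)]
  nlinarith [nd_nonneg g, nd_nonneg g⁻¹]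

theorem nd_conj_le (q g : G) : nd (q * g * q⁻¹) ≤ nrm q.1 * nd g * nrm (q⁻¹).1 := by
  unfold nd
  have e0 : q.1 * (q⁻¹).1 = 1 := by
    rw [← Matrix.SpecialLinearGroup.coe_mul, mul_inv_cancel]; rfl
  have e : (q * g * q⁻¹).1 - 1 = q.1 * (g.1 - 1) * (q⁻¹).1 := by
    rw [Matrix.SpecialLinearGroup.coe_mul, Matrix.SpecialLinearGroup.coe_mul, mul_sub, sub_mul,
      mul_one, e0]
  rw [e]
  refine (nrm_mul_le _ _).trans ?_
  exact mul_le_mul_of_nonneg_right (nrm_mul_le _ _) (nrm_nonneg _)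

/-- `g h⁻¹ - 1 = (g - h) h⁻¹` -/
theorem nd_mul_inv_le (g h : G) : nd (g * h⁻¹) ≤ nrm (g.1 - h.1) * nrm (h⁻¹).1 := by
  unfold nd
  have e0 : h.1 * (h⁻¹).1 = 1 := by
    rw [← Matrix.SpecialLinearGroup.coe_mul, mul_inv_cancel]; rfl
  have e : (g * h⁻¹).1 - 1 = (g.1 - h.1) * (h⁻¹).1 := by
    rw [Matrix.SpecialLinearGroup.coe_mul, sub_mul, e0]
  rw [e]
  exact nrm_mul_le _ _

theorem GBA_compact_mat (C : ℝ) : IsCompact {A : Mat | nrm A ≤ C} := by
  have hK : IsCompact (Set.pi univ (fun _ : Fin 3 => Set.pi univ (fun _ : Fin 3 =>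
      Set.Icc (-C) C)) : Set (Fin 3 → Fin 3 → ℝ)) :=
    isCompact_univ_pi fun _ => isCompact_univ_pi fun _ => isCompact_Icc
  have hK' : IsCompact ({A : Mat | ∀ i, i ∈ univ → ∀ j, j ∈ univ → A i j ∈ Set.Icc (-C) C}) := hK
  refine hK'.of_isClosed_subset (isClosed_le continuous_nrm continuous_const) ?_
  intro A hA i _ j _
  have := (abs_le_nrm A i j).trans hA
  exact abs_le.mp this

theorem isCompact_nrm_le (C : ℝ) : IsCompact {g : G | nrm g.1 ≤ C} :=
  closedEmb_val.isCompact_preimage (GBA_compact_mat C)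

theorem isClosed_Bl_aux (r : ℝ) : IsClosed (Bl r) := isClosed_le continuous_nd continuous_const

theorem isCompact_Bl (r : ℝ) : IsCompact (Bl r) := by
  refine (isCompact_nrm_le (3 + r)).of_isClosed_subset (isClosed_Bl_aux r) ?_
  intro g hg
  have h1 : nd g ≤ r := hg
  have := nrm_le_nd g
  show nrm g.1 ≤ 3 + r
  linarith

theorem measurableSet_Bl (r : ℝ) : MeasurableSet (Bl r) := (isClosed_Bl_aux r).measurableSet

theorem isOpen_nd_lt (r : ℝ) : IsOpen {g : G | nd g < r} := isOpen_lt continuous_nd continuous_const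

theorem Bl_mem_nhds {r : ℝ} (hr : 0 < r) : Bl r ∈ 𝓝 (1 : G) := by
  refine Filter.mem_of_superset ((isOpen_nd_lt r).mem_nhds ?_) ?_
  · show nd 1 < r
    rwa [nd_one]
  · intro g hg
    have hg' : nd g < r := hg
    exact le_of_lt hg'

theorem GBA_basis_mat (B : Mat) :
    (𝓝 B).HasBasis (fun r : ℝ => 0 < r) (fun r => {A : Mat | nrm (A - B) ≤ r}) := by
  have hb : (𝓝 B).HasBasis (fun r : ℝ => 0 < r)
      (fun r => {A : Mat | ∀ i j, |A i j - B i j| ≤ r}) := by
    have h0 := @Metric.nhds_basis_closedBall (Fin 3 → Fin 3 → ℝ) _ B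
    have h2 : (@nhds (Fin 3 → Fin 3 → ℝ) _ B).HasBasis (fun r : ℝ => 0 < r)
      (fun r => {A : Fin 3 → Fin 3 → ℝ | ∀ i j, |A i j - B i j| ≤ r}) := ?_
    exact h2
    refine h0.congr (fun _ => Iff.rfl) ?_
    intro r hr
    ext A
    constructor
    · intro h i j
      have h1 := (dist_pi_le_iff (le_of_lt hr)).mp (Metric.mem_closedBall.mp h) i
      have h2 := (dist_pi_le_iff (le_of_lt hr)).mp h1 j
      rwa [Real.dist_eq] at h2
    · intro h
      refine Metric.mem_closedBall.mpr ((dist_pi_le_iff (le_of_lt hr)).mpr fun i => ?_)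
      refine (dist_pi_le_iff (le_of_lt hr)).mpr fun j => ?_
      rw [Real.dist_eq]
      exact h i j
  refine hb.to_hasBasis ?_ ?_
  · intro r hr
    refine ⟨r, hr, fun A hA i j => ?_⟩
    have := (abs_le_nrm (A - B) i j).trans hA
    rwa [Matrix.sub_apply] at this
  · intro r hr
    refine ⟨r / 9, by positivity, fun A hA => ?_⟩
    have := nrm_le_of_entries (A - B) (r / 9) (fun i j => by
      rw [Matrix.sub_apply]; exact hA i j)
    show nrm (A - B) ≤ r
    linarith

theorem nhds_one_basis_Bl : (𝓝 (1 : G)).HasBasis (fun r : ℝ => 0 < r) Bl := by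
  have h := (GBA_basis_mat ((1 : G).1)).comap (fun g : G => (g.1 : Mat))
  rw [← closedEmb_val.isInducing.nhds_eq_comap] at h
  exact h

theorem Bl_mono {r s : ℝ} (h : r ≤ s) : Bl r ⊆ Bl s := fun _ hg => le_trans hg h

/-- Near `g`: the elements `b * g` with `b` small. -/
theorem nhds_basis_Bl_mul (g : G) :
    (𝓝 g).HasBasis (fun r : ℝ => 0 < r) (fun r => {h | nd (h * g⁻¹) ≤ r}) := by
  have h1 : 𝓝 g = comap (fun h : G => h * g⁻¹) (𝓝 (1 : G)) := by
    have := (Homeomorph.mulRight (g⁻¹ : G)).comap_nhds_eq (1 : G)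
    rw [show (fun h : G => h * g⁻¹) = ⇑(Homeomorph.mulRight (g⁻¹ : G)) from rfl, this]
    congr 1
    rw [Homeomorph.mulRight_symm]
    simp
  rw [h1]
  exact nhds_one_basis_Bl.comap _

theorem exists_bound_of_isCompact {Q : Set G} (hQ : IsCompact Q) :
    ∃ C : ℝ, 1 ≤ C ∧ ∀ q ∈ Q, nrm q.1 ≤ C ∧ nrm (q⁻¹).1 ≤ C := by
  have c1 : Continuous (fun g : G => nrm g.1) := continuous_nrm.comp closedEmb_val.continuous
  have c2 : Continuous (fun g : G => nrm (g⁻¹).1) := c1.comp continuous_inv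
  obtain ⟨C1, h1⟩ := (hQ.image c1).bddAbove
  obtain ⟨C2, h2⟩ := (hQ.image c2).bddAbove
  refine ⟨max 1 (max C1 C2), le_max_left _ _, fun q hq => ⟨?_, ?_⟩⟩
  · exact (h1 ⟨q, hq, rfl⟩).trans ((le_max_left _ _).trans (le_max_right _ _))
  · exact (h2 ⟨q, hq, rfl⟩).trans ((le_max_right _ _).trans (le_max_right _ _))

/-- Finite cover of a compact set by translates of a small ball. -/
theorem exists_finite_cover {Q : Set G} (hQ : IsCompact Q) {r : ℝ} (hr : 0 < r) :
    ∃ F : Finset G, (∀ f ∈ F, f ∈ Q) ∧ ∀ q ∈ Q, ∃ f ∈ F, q * f⁻¹ ∈ Bl r := by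
  obtain ⟨t, ht, hcov⟩ := hQ.elim_nhds_subcover (fun g => {h | nd (h * g⁻¹) ≤ r})
    (fun g _ => (nhds_basis_Bl_mul g).mem_of_mem hr)
  refine ⟨t, ht, fun q hq => ?_⟩
  have := hcov hq
  simp only [mem_iUnion] at this
  obtain ⟨f, hf, hq'⟩ := this
  exact ⟨f, hf, hq'⟩

theorem tendsto_one_iff_nd {α : Type*} {l : Filter α} {u : α → G} :
    Tendsto u l (𝓝 1) ↔ Tendsto (fun a => nd (u a)) l (𝓝 0) := by
  constructor
  · intro h
    have := (continuous_nd.tendsto 1).comp h
    rwa [nd_one] at this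
  · intro h
    rw [nhds_one_basis_Bl.tendsto_right_iff]
    intro r hr
    filter_upwards [h.eventually (gt_mem_nhds hr)] with a ha
    exact le_of_lt ha

end Pool.Agent.H88.LF
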