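import Pool.Agent.H88.LF.INVH
import Pool.Agent.H88.LF.FBB

/-!
# INVB (blueprint section 7)
-/

set_option autoImplicit false

open MeasureTheory Set Filter
open scoped Topology ENNReal

namespace Pool.Agent.H88.LF

variable {X : Type} [MetricSpace X] [CompactSpace X] [MulAction G X] [ContinuousSMul G X]

/-- The sign and the height change of an arrow. -/
noncomputable def invbF {S : FB X} (N : Fin S.n → ℝ → ℝ) (i j : Fin S.n) (t τ : ℝ) (k : G) :
    ℝ × ℝ :=
  (Real.sign (S.dτ i j t τ k), N j τ - Real.sign (S.dτ i j t τ k) * N i t)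

/-- The sign of the transverse derivative is locally constant along a continuation. -/
theorem invb_sign (S : FB X) {i j : Fin S.n} {t0 τ0 : ℝ} {k0 : G} (h : S.Arr i j t0 τ0 k0) :
    ∀ᶠ t in 𝓝 t0, Real.sign (S.dτ i j t (S.τf i j t0 τ0 k0 t) (S.kf i j t0 τ0 k0 t)) =
      Real.sign (S.dτ i j t0 τ0 k0) := by
  have h3 : ContDiffAt ℝ 2 (S.τf i j t0 τ0 k0) t0 := (S.kf_τf_spec h).2.2.2.1
  have hne := S.dτ_ne_zero h
  have c1 : ContinuousAt (fderiv ℝ (S.τf i j t0 τ0 k0)) t0 :=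
    (h3.fderiv_right (m := 1) (by norm_num)).continuousAt
  have c2 : ContinuousAt (fun t => deriv (S.τf i j t0 τ0 k0) t) t0 := by
    have : (fun t => deriv (S.τf i j t0 τ0 k0) t) = fun t => fderiv ℝ (S.τf i j t0 τ0 k0) t 1 :=
      rfl
    rw [this]
    exact c1.clm_apply continuousAt_const
  rcases lt_or_gt_of_ne hne with hlt | hgt
  · have e1 : ∀ᶠ t in 𝓝 t0, deriv (S.τf i j t0 τ0 k0) t < 0 :=
      c2.eventually (gt_mem_nhds hlt)
    filter_upwards [e1, S.eventually_dτ h] with t h1 h2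
    rw [h2.1, Real.sign_of_neg h1, Real.sign_of_neg hlt]
  · have e1 : ∀ᶠ t in 𝓝 t0, 0 < deriv (S.τf i j t0 τ0 k0) t :=
      c2.eventually (lt_mem_nhds hgt)
    filter_upwards [e1, S.eventually_dτ h] with t h1 h2
    rw [h2.1, Real.sign_of_pos h1, Real.sign_of_pos hgt]

/-- INVB: finitely many height changes over compact sets of arrows (`FB.finite_values`; sign and height change are constant along continuations). -/
theorem height_steps_finite (S : FB X) (N : Fin S.n → ℝ → ℝ) (hN : S.IsHeight N) (Q : Set G)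
    (hQ : IsCompact Q) :
    ∃ F : Finset (ℝ × ℝ), (∀ p ∈ F, p.1 = 1 ∨ p.1 = -1) ∧
      ∀ (i j : Fin S.n) (t τ : ℝ) (k : G), |t| ≤ 1 / 2 → |τ| ≤ 1 / 2 → k ∈ Q →
        S.Arr i j t τ k → ∃ p ∈ F, N j τ = p.1 * N i t + p.2 := by
  classical
  have hfin : ∀ i j : Fin S.n, Set.Finite {e : ℝ × ℝ | ∃ t τ k, |t| ≤ 1 / 2 ∧ |τ| ≤ 1 / 2 ∧
      k ∈ Q ∧ S.Arr i j t τ k ∧ e = invbF N i j t τ k} := by
    intro i j
    refine S.finite_values i j (invbF N i j) ?_ (1 / 2) (by norm_num) Q hQ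
    intro t0 τ0 k0 h
    filter_upwards [invb_sign S h, hN i j t0 τ0 k0 h] with t h1 h2
    unfold invbF
    rw [h1]
    refine Prod.ext rfl ?_
    show N j (S.τf i j t0 τ0 k0 t) - Real.sign (S.dτ i j t0 τ0 k0) * N i t =
      N j τ0 - Real.sign (S.dτ i j t0 τ0 k0) * N i t0
    linarith
  refine ⟨Finset.univ.biUnion fun i : Fin S.n => Finset.univ.biUnion fun j : Fin S.n =>
    (hfin i j).toFinset, ?_, ?_⟩
  · intro p hp
    simp only [Finset.mem_biUnion, Finset.mem_univ, true_and, Set.Finite.mem_toFinset] at hp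
    obtain ⟨i, j, t, τ, k, -, -, -, h, rfl⟩ := hp
    have hne := S.dτ_ne_zero h
    show Real.sign (S.dτ i j t τ k) = 1 ∨ Real.sign (S.dτ i j t τ k) = -1
    rcases lt_or_gt_of_ne hne with hlt | hgt
    · exact Or.inr (Real.sign_of_neg hlt)
    · exact Or.inl (Real.sign_of_pos hgt)
  · intro i j t τ k ht hτ hk h
    refine ⟨invbF N i j t τ k, ?_, ?_⟩
    · simp only [Finset.mem_biUnion, Finset.mem_univ, true_and, Set.Finite.mem_toFinset]
      exact ⟨i, j, t, τ, k, ht, hτ, hk, h, rfl⟩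
    · unfold invbF
      ring

end Pool.Agent.H88.LF
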