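import Pool.Agent.H88.LF.FBA3

/-!
# INVH: definition of heights
-/

set_option autoImplicit false

open MeasureTheory Set Filter
open scoped Topology ENNReal

namespace Pool.Agent.H88.LF

variable {X : Type} [MetricSpace X] [CompactSpace X] [MulAction G X] [ContinuousSMul G X]

/-- A system of heights: along every arrow the heights change by an isometry, locally constant. -/
def FB.IsHeight (S : FB X) (N : Fin S.n → ℝ → ℝ) : Prop :=
  ∀ i j t0 τ0 k0, S.Arr i j t0 τ0 k0 → ∀ᶠ t in 𝓝 t0,
    N j (S.τf i j t0 τ0 k0 t) - N j τ0 = Real.sign (S.dτ i j t0 τ0 k0) * (N i t - N i t0)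

end Pool.Agent.H88.LF
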