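import Pool.Agent.H88.LF.GBA
import Pool.Agent.H88.LF.GBB
import Pool.Agent.H88.LF.GBD

/-!
# KN: dynamical balls (blueprint section 5, (P3))

`a = D θ`.  `(a^j k a^{-j} - 1)_il = e^{j(θ_i-θ_l)}(k-1)_il`.  For `k ∈ Kn θ n r'` the numbers `y_il = (k-1)_il / m_il`, `m_il = min 1 (e^{-n(θ_i-θ_l)})`, satisfy `|y_il| ≤ r'`.
Cut `[-r',r']^9` into finitely many cells of side `ς` (their number does not depend on `n`).  If `k,k'` lie in the same cell then for all `j ≤ n`: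
`|(a^j(k-k')a^{-j})_il| ≤ ς e^{j(θ_i-θ_l)} m_il ≤ ς`, and `a^j(kk'⁻¹-1)a^{-j} = a^j(k-k')a^{-j} · a^jk'⁻¹a^{-j}`, where `nrm(a^jk'⁻¹a^{-j}) ≤ (3+r')^2`
(`nrm_inv_le`).  So `kk'⁻¹ ∈ Kn θ n r` if `ς` is small: `Kn θ n r'` is covered by (number of cells) right translates of `Kn θ n r`.
-/

set_option autoImplicit false

open MeasureTheory Set Filter
open scoped Topology ENNReal

namespace Pool.Agent.H88.LF

/-- Dynamical ball of size `r` and length `n`. -/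
def Kn (θ : ℝ × ℝ) (n : ℕ) (r : ℝ) : Set G :=
  {k | ∀ j : ℕ, j ≤ n → nd ((D θ) ^ j * k * ((D θ) ^ j)⁻¹) ≤ r}

private theorem kn_cont (g h : G) : Continuous (fun k : G => nd (g * k * h)) :=
  continuous_nd.comp ((continuous_const.mul continuous_id).mul continuous_const)

private theorem kn_closed (θ : ℝ × ℝ) (n : ℕ) (r : ℝ) : IsClosed (Kn θ n r) := by
  have h : Kn θ n r = ⋂ j : ℕ, ⋂ _ : j ≤ n, {k | nd ((D θ) ^ j * k * ((D θ) ^ j)⁻¹) ≤ r} := by
    ext k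
    simp [Kn]
  rw [h]
  exact isClosed_iInter fun j => isClosed_iInter fun _ =>
    isClosed_le (kn_cont _ _) continuous_const

theorem isCompact_Kn (θ : ℝ × ℝ) (n : ℕ) (r : ℝ) : IsCompact (Kn θ n r) := by
  refine (isCompact_Bl r).of_isClosed_subset (kn_closed θ n r) ?_
  intro k hk
  have h := hk 0 (Nat.zero_le n)
  show nd k ≤ r
  simpa using h

theorem hG_Kn_pos (θ : ℝ × ℝ) (n : ℕ) (r : ℝ) (hr : 0 < r) : 0 < hG (Kn θ n r) := by
  have ho : IsOpen (⋂ j ∈ Finset.range (n + 1), {k : G | nd ((D θ) ^ j * k * ((D θ) ^ j)⁻¹) < r}) :=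
    isOpen_biInter_finset fun j _ => isOpen_lt (kn_cont _ _) continuous_const
  have h1 : (1 : G) ∈ ⋂ j ∈ Finset.range (n + 1),
      {k : G | nd ((D θ) ^ j * k * ((D θ) ^ j)⁻¹) < r} := by
    simp only [Set.mem_iInter]
    intro j _
    show nd ((D θ) ^ j * 1 * ((D θ) ^ j)⁻¹) < r
    rw [mul_one, mul_inv_cancel, nd_one]
    exact hr
  refine lt_of_lt_of_le (ho.measure_pos hG ⟨1, h1⟩) (measure_mono ?_)
  intro k hk j hj
  simp only [Set.mem_iInter] at hk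
  exact (hk j (by rw [Finset.mem_range]; omega)).le

theorem hG_Kn_lt_top (θ : ℝ × ℝ) (n : ℕ) (r : ℝ) : hG (Kn θ n r) < ∞ :=
  (isCompact_Kn θ n r).measure_lt_top

/-- entries of `a^j M a^{-j}` -/
private theorem kn_entry (θ : ℝ × ℝ) (j : ℕ) (M : Mat) (i l : Fin 3) :
    (((D θ) ^ j).1 * M * (((D θ) ^ j)⁻¹).1) i l =
      Real.exp (j * (cmp θ i - cmp θ l)) * M i l := by
  rw [← D_nsmul, D_conj_entry, cmp_smul, cmp_smul]
  congr 2
  ring

private theorem kn_nd (θ : ℝ × ℝ) (j : ℕ) (k : G) :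
    ((D θ) ^ j * k * ((D θ) ^ j)⁻¹).1 - 1 = ((D θ) ^ j).1 * (k.1 - 1) * (((D θ) ^ j)⁻¹).1 := by
  have h1 : ((D θ) ^ j).1 * (((D θ) ^ j)⁻¹).1 = 1 := by
    rw [← Matrix.SpecialLinearGroup.coe_mul, mul_inv_cancel]
    rfl
  rw [Matrix.SpecialLinearGroup.coe_mul, Matrix.SpecialLinearGroup.coe_mul, mul_sub, sub_mul,
    mul_one, h1]

/-- the scale of the entry `(i,l)` -/
private noncomputable def knm (θ : ℝ × ℝ) (n : ℕ) (i l : Fin 3) : ℝ :=
  min 1 (Real.exp (-(n * (cmp θ i - cmp θ l))))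

private theorem knm_pos (θ : ℝ × ℝ) (n : ℕ) (i l : Fin 3) : 0 < knm θ n i l :=
  lt_min one_pos (Real.exp_pos _)

private theorem knm_mul (θ : ℝ × ℝ) (n j : ℕ) (hj : j ≤ n) (i l : Fin 3) :
    Real.exp (j * (cmp θ i - cmp θ l)) * knm θ n i l ≤ 1 := by
  have hjn : (j : ℝ) ≤ n := by exact_mod_cast hj
  have hj0 : (0 : ℝ) ≤ j := Nat.cast_nonneg j
  rcases le_total (cmp θ i) (cmp θ l) with h | h
  · have h1 : Real.exp (j * (cmp θ i - cmp θ l)) ≤ 1 := by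
      rw [Real.exp_le_one_iff]
      nlinarith
    calc Real.exp (j * (cmp θ i - cmp θ l)) * knm θ n i l
        ≤ 1 * 1 := mul_le_mul h1 (min_le_left _ _) (knm_pos θ n i l).le zero_le_one
      _ = 1 := one_mul 1
  · calc Real.exp (j * (cmp θ i - cmp θ l)) * knm θ n i l
        ≤ Real.exp (j * (cmp θ i - cmp θ l)) * Real.exp (-(n * (cmp θ i - cmp θ l))) :=
          mul_le_mul_of_nonneg_left (min_le_right _ _) (Real.exp_pos _).le
      _ = Real.exp (j * (cmp θ i - cmp θ l) + -(n * (cmp θ i - cmp θ l))) :=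
          (Real.exp_add _ _).symm
      _ ≤ 1 := by
          rw [Real.exp_le_one_iff]
          nlinarith

private theorem kn_bound (θ : ℝ × ℝ) (n : ℕ) (r : ℝ) (k : G) (hk : k ∈ Kn θ n r) (i l : Fin 3) :
    |(k.1 - 1) i l| ≤ r * knm θ n i l := by
  have h : ∀ j ≤ n, Real.exp (j * (cmp θ i - cmp θ l)) * |(k.1 - 1) i l| ≤ r := by
    intro j hj
    have h1 := hk j hj
    unfold nd at h1
    rw [kn_nd] at h1
    have h2 := (abs_le_nrm _ i l).trans h1
    rw [kn_entry, abs_mul, abs_of_pos (Real.exp_pos _)] at h2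
    exact h2
  have h0 := h 0 (Nat.zero_le n)
  have hn := h n le_rfl
  simp only [Nat.cast_zero, zero_mul, Real.exp_zero, one_mul] at h0
  unfold knm
  rcases min_cases (1 : ℝ) (Real.exp (-(n * (cmp θ i - cmp θ l)))) with ⟨h3, -⟩ | ⟨h3, -⟩
  · rw [h3, mul_one]; exact h0
  · rw [h3, Real.exp_neg, ← div_eq_mul_inv, le_div_iff₀ (Real.exp_pos _), mul_comm]
    exact hn

/-- the cell of `k` -/
private noncomputable def knc (θ : ℝ × ℝ) (n : ℕ) (s : ℝ) (k : G) : Fin 3 → Fin 3 → ℤ :=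
  fun i l => ⌊(k.1 - 1) i l / (s * knm θ n i l)⌋

private theorem kn_cell (θ : ℝ × ℝ) (n : ℕ) (r' s : ℝ) (_hr' : 0 < r') (hs : 0 < s) (k k' : G)
    (hk' : k' ∈ Kn θ n r') (h : knc θ n s k = knc θ n s k') :
    k * k'⁻¹ ∈ Kn θ n (9 * s * (3 + r') ^ 2) := by
  intro j hj
  have h1 : ∀ i l, |(k.1 - k'.1) i l| ≤ s * knm θ n i l := by
    intro i l
    have h2 := congrFun (congrFun h i) l
    unfold knc at h2
    have h3 := Int.abs_sub_lt_one_of_floor_eq_floor h2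
    have h4 : 0 < s * knm θ n i l := mul_pos hs (knm_pos θ n i l)
    rw [← sub_div, abs_div, abs_of_pos h4, div_lt_one h4] at h3
    have h5 : (k.1 - k'.1) i l = (k.1 - 1) i l - (k'.1 - 1) i l := by
      simp only [Matrix.sub_apply]; ring
    rw [h5]
    exact h3.le
  set a : G := (D θ) ^ j with ha
  have h6 : (a * (k * k'⁻¹) * a⁻¹).1 - 1 =
      (a.1 * (k.1 - k'.1) * (a⁻¹).1) * ((a * k' * a⁻¹)⁻¹).1 := by
    have e1 : ((a * k' * a⁻¹)⁻¹) = a * k'⁻¹ * a⁻¹ := by group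
    rw [e1]
    simp only [Matrix.SpecialLinearGroup.coe_mul]
    have e2 : (a⁻¹).1 * a.1 = 1 := by
      rw [← Matrix.SpecialLinearGroup.coe_mul, inv_mul_cancel]; rfl
    have e3 : k'.1 * (k'⁻¹).1 = 1 := by
      rw [← Matrix.SpecialLinearGroup.coe_mul, mul_inv_cancel]; rfl
    have e4 : a.1 * (a⁻¹).1 = 1 := by
      rw [← Matrix.SpecialLinearGroup.coe_mul, mul_inv_cancel]; rfl
    calc a.1 * (k.1 * (k'⁻¹).1) * (a⁻¹).1 - 1
        = a.1 * (k.1 * (k'⁻¹).1) * (a⁻¹).1 - a.1 * (k'.1 * (k'⁻¹).1) * (a⁻¹).1 := by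
          rw [e3, mul_one, e4]
      _ = a.1 * (k.1 - k'.1) * ((k'⁻¹).1 * (a⁻¹).1) := by
          simp only [mul_sub, sub_mul, mul_assoc]
      _ = a.1 * (k.1 - k'.1) * (((a⁻¹).1 * a.1) * ((k'⁻¹).1 * (a⁻¹).1)) := by
          rw [e2, one_mul]
      _ = _ := by simp only [mul_assoc]
  have h7 : nrm (a.1 * (k.1 - k'.1) * (a⁻¹).1) ≤ 9 * s := by
    apply nrm_le_of_entries
    intro i l
    rw [ha, kn_entry, abs_mul, abs_of_pos (Real.exp_pos _)]
    calc Real.exp (j * (cmp θ i - cmp θ l)) * |(k.1 - k'.1) i l|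
        ≤ Real.exp (j * (cmp θ i - cmp θ l)) * (s * knm θ n i l) :=
          mul_le_mul_of_nonneg_left (h1 i l) (Real.exp_pos _).le
      _ = s * (Real.exp (j * (cmp θ i - cmp θ l)) * knm θ n i l) := by ring
      _ ≤ s * 1 := mul_le_mul_of_nonneg_left (knm_mul θ n j hj i l) hs.le
      _ = s := mul_one s
  have h8 : nrm ((a * k' * a⁻¹)⁻¹).1 ≤ (3 + r') ^ 2 := by
    refine (nrm_inv_le _).trans ?_
    have h9 := nrm_le_nd (a * k' * a⁻¹)
    have h10 := hk' j hj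
    have h11 : nrm (a * k' * a⁻¹).1 ≤ 3 + r' := by linarith
    exact pow_le_pow_left₀ (nrm_nonneg _) h11 2
  unfold nd
  rw [h6]
  refine (nrm_mul_le _ _).trans ?_
  exact mul_le_mul h7 h8 (nrm_nonneg _) (by positivity)

theorem Kn_volume (θ : ℝ × ℝ) (r r' : ℝ) (hr : 0 < r) (hr' : 0 < r') :
    ∃ C : ℝ, 0 < C ∧ ∀ n : ℕ, hG (Kn θ n r') ≤ ENNReal.ofReal C * hG (Kn θ n r) := by
  classical
  set s : ℝ := r / (9 * (3 + r') ^ 2) with hs
  have hs0 : 0 < s := by positivity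
  have hsr : 9 * s * (3 + r') ^ 2 = r := by
    rw [hs]; field_simp
  obtain ⟨N, hN⟩ := exists_nat_ge (r' / s + 1)
  set F : Finset (Fin 3 → Fin 3 → ℤ) :=
    Fintype.piFinset (fun _ => Fintype.piFinset (fun _ => Finset.Icc (-(N : ℤ)) N)) with hF
  have hFne : F.Nonempty := by
    refine ⟨fun _ _ => 0, ?_⟩
    rw [hF, Fintype.mem_piFinset]
    intro i
    rw [Fintype.mem_piFinset]
    intro l
    rw [Finset.mem_Icc]
    constructor <;> omega
  refine ⟨F.card, by exact_mod_cast hFne.card_pos, ?_⟩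
  intro n
  have hcov : Kn θ n r' ⊆ ⋃ c ∈ F, {k | k ∈ Kn θ n r' ∧ knc θ n s k = c} := by
    intro k hk
    simp only [Set.mem_iUnion]
    refine ⟨knc θ n s k, ?_, hk, rfl⟩
    rw [hF, Fintype.mem_piFinset]
    intro i
    rw [Fintype.mem_piFinset]
    intro l
    have h1 := kn_bound θ n r' k hk i l
    have h4 : 0 < s * knm θ n i l := mul_pos hs0 (knm_pos θ n i l)
    have h2 : |(k.1 - 1) i l / (s * knm θ n i l)| ≤ r' / s := by
      rw [abs_div, abs_of_pos h4, div_le_div_iff₀ h4 hs0]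
      calc |(k.1 - 1) i l| * s ≤ (r' * knm θ n i l) * s := mul_le_mul_of_nonneg_right h1 hs0.le
        _ = r' * (s * knm θ n i l) := by ring
    rw [abs_le] at h2
    rw [Finset.mem_Icc]
    unfold knc
    constructor
    · rw [Int.le_floor]
      push_cast
      linarith [h2.1]
    · have h5 : ((⌊(k.1 - 1) i l / (s * knm θ n i l)⌋ : ℤ) : ℝ) ≤ ((N : ℤ) : ℝ) := by
        refine (Int.floor_le _).trans ?_
        push_cast
        linarith [h2.2]
      exact_mod_cast h5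
  have hcell : ∀ c ∈ F, hG {k | k ∈ Kn θ n r' ∧ knc θ n s k = c} ≤ hG (Kn θ n r) := by
    intro c _
    rcases Set.eq_empty_or_nonempty {k | k ∈ Kn θ n r' ∧ knc θ n s k = c} with h | ⟨k', hk', hc⟩
    · rw [h, measure_empty]; exact zero_le
    · have h1 : {k | k ∈ Kn θ n r' ∧ knc θ n s k = c} ⊆ (fun x => x * k'⁻¹) ⁻¹' (Kn θ n r) := by
        rintro k ⟨-, hkc⟩
        show k * k'⁻¹ ∈ Kn θ n r
        rw [← hsr]
        exact kn_cell θ n r' s hr' hs0 k k' hk' (hkc.trans hc.symm)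
      refine (measure_mono h1).trans ?_
      rw [measure_preimage_mul_right]
  calc hG (Kn θ n r') ≤ hG (⋃ c ∈ F, {k | k ∈ Kn θ n r' ∧ knc θ n s k = c}) := measure_mono hcov
    _ ≤ ∑ c ∈ F, hG {k | k ∈ Kn θ n r' ∧ knc θ n s k = c} := measure_biUnion_finset_le _ _
    _ ≤ ∑ _c ∈ F, hG (Kn θ n r) := Finset.sum_le_sum hcell
    _ = ENNReal.ofReal F.card * hG (Kn θ n r) := by
        rw [Finset.sum_const, nsmul_eq_mul, ENNReal.ofReal_natCast]

end Pool.Agent.H88.LF
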