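import Pool.Agent.H88.LF.FBA3

/-!
# LFA (blueprint section 11): affine curves and unique continuation

An affine curve on `I` is locally `s ↦ k • c j (τ + α(s-s0))`, `|τ| < 1`, `α ≠ 0`.
`match`: `f = k • c j (τ+α(s-s0))` near `s0`, `f' = k' • c j' (τ'+α'(s-s0'))` near `s0'` and `f s0 = g • f' s0'`: an arrow `(j,τ) → (j',τ')`, `k⁻¹ g k'`; by `Aff` `c j (τ+x) = (k⁻¹gk') • c j' (τ'+βx)` for small `x`,
so `f s = g • k' • c j' (τ' + βα(s-s0)) = g • f'(s0' + (βα/α')(s-s0))`.
`unique_cont`: the set of `s ∈ I` near which `f = f'` is open; it is closed in `I`: if `s_m → s ∈ I`, then `f s = f' s` by continuity, `match` gives `f x = f'(s+λ(x-s))` near `s`; for `x = s_m` near which also `f = f'`: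
`f'(s+λ(x-s)) = f' x`, and `f'` is injective near `s` (flow box), so `λ = 1`.
-/

set_option autoImplicit false
set_option linter.unusedSectionVars false

open MeasureTheory Set Filter
open scoped Topology

namespace Pool.Agent.H88.LF

variable {X : Type} [MetricSpace X] [CompactSpace X] [MulAction G X] [ContinuousSMul G X]

/-- Affine curves. -/
def FB.ACurve (S : FB X) (I : Set ℝ) (f : ℝ → X) : Prop :=
  ∀ s0 ∈ I, ∃ (k : G) (j : Fin S.n) (τ α : ℝ), |τ| < 1 ∧ α ≠ 0 ∧
    ∀ᶠ s in 𝓝 s0, f s = k • S.c j (τ + α * (s - s0))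

theorem FB.acurve_chart (S : FB X) (k : G) (j : Fin S.n) (τ α : ℝ) (hα : α ≠ 0) :
    S.ACurve {s | |τ + α * s| < 1} (fun s => k • S.c j (τ + α * s)) := by
  intro s0 hs0
  refine ⟨k, j, τ + α * s0, α, hs0, hα, Eventually.of_forall fun s => ?_⟩
  have h : τ + α * s0 + α * (s - s0) = τ + α * s := by ring
  simp only [h]

theorem FB.ACurve.comp_affine {S : FB X} {I : Set ℝ} {f : ℝ → X} (hf : S.ACurve I f) (a b : ℝ)
    (ha : a ≠ 0) : S.ACurve {s | a * s + b ∈ I} (fun s => f (a * s + b)) := by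
  intro s0 hs0
  obtain ⟨k, j, τ, α, hτ, hα, hev⟩ := hf (a * s0 + b) hs0
  refine ⟨k, j, τ, α * a, hτ, mul_ne_zero hα ha, ?_⟩
  have hc : Continuous (fun s : ℝ => a * s + b) := by fun_prop
  filter_upwards [(hc.tendsto s0).eventually hev] with s hs
  rw [hs]
  have h : τ + α * (a * s + b - (a * s0 + b)) = τ + α * a * (s - s0) := by ring
  rw [h]

theorem FB.ACurve.smul {S : FB X} {I : Set ℝ} {f : ℝ → X} (hf : S.ACurve I f) (g : G) :
    S.ACurve I (fun s => g • f s) := by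
  intro s0 hs0
  obtain ⟨k, j, τ, α, hτ, hα, hev⟩ := hf s0 hs0
  refine ⟨g * k, j, τ, α, hτ, hα, ?_⟩
  filter_upwards [hev] with s hs
  rw [hs, mul_smul]

/-- An affine curve is injective and continuous near every point. -/
theorem LFA_chart_cont (S : FB X) (k : G) (j : Fin S.n) (τ α s0 : ℝ) (hτ : |τ| < 1) :
    ContinuousAt (fun s => k • S.c j (τ + α * (s - s0))) s0 := by
  have h1 : ContinuousAt (fun s : ℝ => τ + α * (s - s0)) s0 := by fun_prop
  have h2 : ContinuousAt (S.c j) (τ + α * (s0 - s0)) := by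
    rw [sub_self, mul_zero, add_zero]
    exact S.cont j τ hτ
  have h3 : ContinuousAt (fun s => S.c j (τ + α * (s - s0))) s0 :=
    ContinuousAt.comp (f := fun s : ℝ => τ + α * (s - s0)) h2 h1
  exact h3.const_smul k

theorem FB.ACurve.continuousAt {S : FB X} {I : Set ℝ} {f : ℝ → X} (hf : S.ACurve I f) {s : ℝ}
    (hs : s ∈ I) : ContinuousAt f s := by
  obtain ⟨k, j, τ, α, hτ, hα, hev⟩ := hf s hs
  exact (LFA_chart_cont S k j τ α s hτ).congr (hev.mono fun x hx => hx.symm)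

theorem FB.ACurve.match {S : FB X} (hS : S.Aff) {I I' : Set ℝ} {f f' : ℝ → X}
    (hf : S.ACurve I f) (hf' : S.ACurve I' f') {s0 s0' : ℝ} (h0 : s0 ∈ I) (h0' : s0' ∈ I')
    (g : G) (h : f s0 = g • f' s0') :
    ∃ lam : ℝ, lam ≠ 0 ∧ ∀ᶠ s in 𝓝 s0, f s = g • f' (s0' + lam * (s - s0)) := by
  obtain ⟨k, j, τ, α, hτ, hα, hev⟩ := hf s0 h0
  obtain ⟨k', j', τ', α', hτ', hα', hev'⟩ := hf' s0' h0'
  have e1 : f s0 = k • S.c j τ := by
    rw [hev.self_of_nhds, sub_self, mul_zero, add_zero]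
  have e2 : f' s0' = k' • S.c j' τ' := by
    rw [hev'.self_of_nhds, sub_self, mul_zero, add_zero]
  have harr : S.Arr j j' τ τ' (k⁻¹ * g * k') := by
    refine ⟨hτ, hτ', ?_⟩
    rw [mul_smul, mul_smul, ← e2, ← h, e1, inv_smul_smul]
  obtain ⟨β, hβ, hevβ⟩ := hS j j' τ τ' _ harr
  refine ⟨β * α / α', div_ne_zero (mul_ne_zero hβ hα) hα', ?_⟩
  have hc1 : Tendsto (fun s : ℝ => τ + α * (s - s0)) (𝓝 s0) (𝓝 τ) := by
    have : Continuous (fun s : ℝ => τ + α * (s - s0)) := by fun_prop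
    have h3 := this.tendsto s0
    rwa [sub_self, mul_zero, add_zero] at h3
  have hc2 : Tendsto (fun s : ℝ => s0' + β * α / α' * (s - s0)) (𝓝 s0) (𝓝 s0') := by
    have : Continuous (fun s : ℝ => s0' + β * α / α' * (s - s0)) := by fun_prop
    have h3 := this.tendsto s0
    rwa [sub_self, mul_zero, add_zero] at h3
  filter_upwards [hev, hc1.eventually hevβ, hc2.eventually hev'] with s h1 h2 h3
  rw [h1, h3, h2, mul_smul, mul_smul, smul_inv_smul]
  congr 3
  field_simp
  ring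

/-- Points near `s0` with the same value of an affine curve are equal. -/
theorem LFA_inj {S : FB X} {I : Set ℝ} {f : ℝ → X} (hf : S.ACurve I f) {s0 : ℝ} (h0 : s0 ∈ I) :
    ∃ N ∈ 𝓝 s0, ∀ x ∈ N, ∀ y ∈ N, f x = f y → x = y := by
  obtain ⟨k, j, τ, α, hτ, hα, hev⟩ := hf s0 h0
  have hc1 : Tendsto (fun s : ℝ => τ + α * (s - s0)) (𝓝 s0) (𝓝 τ) := by
    have : Continuous (fun s : ℝ => τ + α * (s - s0)) := by fun_prop
    have h3 := this.tendsto s0
    rwa [sub_self, mul_zero, add_zero] at h3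
  have hlt : ∀ᶠ s in 𝓝 s0, |τ + α * (s - s0)| < 1 :=
    hc1.eventually ((isOpen_lt continuous_abs continuous_const).mem_nhds hτ)
  refine ⟨_, hev.and hlt, ?_⟩
  rintro x ⟨hx1, hx2⟩ y ⟨hy1, hy2⟩ hxy
  rw [hx1, hy1] at hxy
  have h1 := smul_left_cancel k hxy
  have hρ : nd (1 : G) < S.ρ0 := by
    rw [nd_one]
    have := S.hρ1
    have := S.hρ
    linarith
  have h2 := (S.inj j 1 1 _ _ hx2 hy2 hρ hρ (by rw [one_smul, one_smul]; exact h1)).2
  have h3 : α * (x - y) = 0 := by linarith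
  rcases mul_eq_zero.1 h3 with h4 | h4
  · exact absurd h4 hα
  · linarith

theorem FB.ACurve.unique_cont {S : FB X} (hS : S.Aff) {I : Set ℝ} (hI : IsOpen I)
    (hIc : IsPreconnected I) {f f' : ℝ → X} (hf : S.ACurve I f) (hf' : S.ACurve I f') {s0 : ℝ}
    (h0 : s0 ∈ I) (h : ∀ᶠ s in 𝓝 s0, f s = f' s) : ∀ s ∈ I, f s = f' s := by
  have hu : IsOpen {s | ∀ᶠ x in 𝓝 s, f x = f' x} := isOpen_setOfPred_eventually_nhds
  have hsub : I ⊆ {s | ∀ᶠ x in 𝓝 s, f x = f' x} := by
    refine hIc.subset_of_closure_inter_subset hu ⟨s0, h0, h⟩ ?_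
    rintro s ⟨hsc, hsI⟩
    by_contra hsu
    rw [mem_closure_iff_frequently] at hsc
    -- equality at `s`
    have heq : f s = f' s := by
      by_contra hne
      have h1 : ∀ᶠ x in 𝓝 s, f x ≠ f' x := by
        have hc : ContinuousAt (fun x => (f x, f' x)) s :=
          (hf.continuousAt hsI).prodMk (hf'.continuousAt hsI)
        exact hc.eventually ((isOpen_ne_fun continuous_fst continuous_snd).mem_nhds hne)
      obtain ⟨x, hx1, hx2⟩ := (hsc.and_eventually h1).exists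
      exact hx2 hx1.self_of_nhds
    obtain ⟨lam, -, hlam⟩ := hf.match hS hf' hsI hsI 1 (by rw [one_smul]; exact heq)
    obtain ⟨N, hN, hinj⟩ := LFA_inj hf' hsI
    have hc : Tendsto (fun x : ℝ => s + lam * (x - s)) (𝓝 s) (𝓝 s) := by
      have : Continuous (fun x : ℝ => s + lam * (x - s)) := by fun_prop
      have h3 := this.tendsto s
      rwa [sub_self, mul_zero, add_zero] at h3
    have hlam1 : lam = 1 := by
      have h2 : ∀ᶠ x in 𝓝 s, f x = (1 : G) • f' (s + lam * (x - s)) ∧ x ∈ N ∧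
          s + lam * (x - s) ∈ N :=
        hlam.and (Filter.Eventually.and hN (hc.eventually hN))
      obtain ⟨x, hx1, hx2, hx3, hx4⟩ := (hsc.and_eventually h2).exists
      have hxs : x ≠ s := fun hxs => hsu (by rw [← hxs]; exact hx1)
      rw [one_smul] at hx2
      have h5 := hinj x hx3 _ hx4 (by rw [← hx2]; exact hx1.self_of_nhds.symm)
      have h6 : (lam - 1) * (x - s) = 0 := by linarith
      rcases mul_eq_zero.1 h6 with h7 | h7
      · linarith
      · exact absurd (by linarith) hxs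
    apply hsu
    filter_upwards [hlam] with x hx
    rw [hx, one_smul, hlam1, one_mul]
    congr 1
    ring
  intro s hs
  exact (hsub hs).self_of_nhds

end Pool.Agent.H88.LF
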