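import Pool.Agent.H88.LF.LFA
import Pool.Agent.H88.LF.FBC

/-!
# LFB (blueprint section 11): the leaf `Φ : ℝ → X`

Base point `x0 = c i0 0` (some `i0` exists as `X` is nonempty).  For `g` with `J(g,x0)` small let `g • x0 = h • c j τ` be the normal representation; `Aff` for the arrow `g⁻¹h : (i0,0) → (j,τ)`:
`c i0 s = (g⁻¹h) • c j (τ + α s)` near `0`, and `|α| = |dτ| = W(g;i0,0)/W(h;j,τ) ≤ C J(g,x0)`.  For `R > 0` choose `g` with `|α| R ≤ 1/4`: `Φ_R(s) = (g⁻¹h) • c j (τ+αs)` is an affine curve on `(-R,R)` (and on a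
larger interval), injective there (`S.inj` with `h = h' = 1` after cancelling), equal to `c i0` near `0`.  By `unique_cont` the `Φ_R` agree on common intervals; `Φ(s) = Φ_{|s|+1}(s)`.
-/

set_option autoImplicit false

open MeasureTheory Set Filter
open scoped Topology

namespace Pool.Agent.H88.LF

variable {X : Type} [MetricSpace X] [CompactSpace X] [MulAction G X] [ContinuousSMul G X]

/-- The derivative of an arrow in terms of `W`. -/
theorem FB.abs_dτ_eq {S : FB X} (T : TN S) {i j : Fin S.n} {t τ : ℝ} {k : G}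
    (h : S.Arr i j t τ k) : |S.dτ i j t τ k| = T.W 1 i t / T.W k j τ := by
  have h1 := T.rule i j t τ k h 1
  rw [one_mul] at h1
  have h2 := T.pos k j τ h.2.1
  rw [eq_div_iff h2.ne', h1, mul_comm]

/-- the derivative of an affine arrow -/
theorem LFB_dτ {S : FB X} {i j : Fin S.n} {t0 τ0 α : ℝ} {k0 : G} (h : S.Arr i j t0 τ0 k0)
    (he : ∀ᶠ t in 𝓝 t0, S.c i t = k0 • S.c j (τ0 + α * (t - t0))) :
    S.dτ i j t0 τ0 k0 = α := by
  have hc : Continuous fun t : ℝ => τ0 + α * (t - t0) := by fun_prop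
  have h1 := S.cont_unique h (fun _ => k0) (fun t => τ0 + α * (t - t0)) continuousAt_const
    hc.continuousAt rfl (by simp) he
  have h2 : S.τf i j t0 τ0 k0 =ᶠ[𝓝 t0] fun t => τ0 + α * (t - t0) := by
    filter_upwards [h1] with t ht
    exact ht.2.symm
  unfold FB.dτ
  rw [h2.deriv_eq]
  have h3 : HasDerivAt (fun t : ℝ => τ0 + α * (t - t0)) (α * 1) t0 :=
    (((hasDerivAt_id t0).sub_const t0).const_mul α).const_add τ0
  rw [h3.deriv, mul_one]

/-- long affine charts around the base point -/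
theorem LFB_chart (S : FB X) (hS : S.Aff) (T : TN S)
    (hJ : ∀ (x : X) (ε : ℝ), 0 < ε → ∃ g : G, T.J g x < ε) (i0 : Fin S.n) (R : ℝ) (hR : 0 < R) :
    ∃ (k : G) (j : Fin S.n) (τ α : ℝ), |τ| < 1 / 2 ∧ α ≠ 0 ∧ |α| * R ≤ 1 / 4 ∧
      ∀ᶠ s in 𝓝 (0 : ℝ), S.c i0 s = k • S.c j (τ + α * s) := by
  obtain ⟨C, hC, hW⟩ := T.W_bound (isCompact_Bl S.ρ1) (1 / 2) (by norm_num)
  have h0 : |(0 : ℝ)| < 1 := by rw [abs_zero]; exact one_pos
  have hW0 := T.pos 1 i0 0 h0
  have hε : 0 < 1 / (4 * R * C * T.W 1 i0 0) := by positivity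
  obtain ⟨g, hg⟩ := hJ (S.c i0 0) _ hε
  obtain ⟨h1, h2, h3⟩ := S.rep_spec (g • S.c i0 0)
  set h := S.rh (g • S.c i0 0) with hh
  set j := S.ri (g • S.c i0 0) with hj
  set τ := S.rt (g • S.c i0 0) with hτ
  have hτ1 : |τ| < 1 := by linarith
  have harr : S.Arr i0 j 0 τ (g⁻¹ * h) := by
    refine ⟨h0, hτ1, ?_⟩
    rw [mul_smul, ← h3, inv_smul_smul]
  obtain ⟨α, hα, he⟩ := hS i0 j 0 τ (g⁻¹ * h) harr
  refine ⟨g⁻¹ * h, j, τ, α, h2, hα, ?_, ?_⟩
  · have hd := LFB_dτ harr he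
    have hr := T.rule i0 j 0 τ _ harr g
    rw [hd, mul_inv_cancel_left] at hr
    have hJe := T.J_eq g 1 i0 0 h0
    rw [one_smul, mul_one] at hJe
    rw [hJe, div_lt_div_iff₀ hW0 (by positivity)] at hg
    have hWh := hW h h1.le j τ h2.le
    have hCpos : 0 < C := by linarith
    have hCinv : C⁻¹ * C = 1 := inv_mul_cancel₀ hCpos.ne'
    -- |α| * R * 4 ≤ 1
    have e1 : |α| * C⁻¹ ≤ T.W g i0 0 := by
      rw [hr, mul_comm]
      exact mul_le_mul_of_nonneg_right hWh.1 (abs_nonneg _)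
    have e2 : |α| ≤ T.W g i0 0 * C := by
      have := mul_le_mul_of_nonneg_right e1 hCpos.le
      rwa [mul_assoc, hCinv, mul_one] at this
    have e3 : T.W g i0 0 * C * (4 * R) < 1 := by
      have e4 : T.W g i0 0 * (4 * R * C * T.W 1 i0 0) =
          (T.W g i0 0 * C * (4 * R)) * T.W 1 i0 0 := by ring
      rw [e4] at hg
      exact lt_of_mul_lt_mul_right hg hW0.le
    have e5 : |α| * (4 * R) ≤ T.W g i0 0 * C * (4 * R) :=
      mul_le_mul_of_nonneg_right e2 (by positivity)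
    linarith
  · filter_upwards [he] with s hs
    rw [hs, sub_zero]

/-- LFB -/
theorem exists_leaf (S : FB X) (hS : S.Aff) (T : TN S)
    (hJ : ∀ (x : X) (ε : ℝ), 0 < ε → ∃ g : G, T.J g x < ε) [Nonempty X] :
    ∃ Φ : ℝ → X, S.ACurve univ Φ ∧ Function.Injective Φ := by
  obtain ⟨x⟩ := ‹Nonempty X›
  set i0 := S.ri x with hi0
  have hch : ∀ n : ℕ, ∃ (k : G) (j : Fin S.n) (τ α : ℝ), |τ| < 1 / 2 ∧ α ≠ 0 ∧
      |α| * ((n : ℝ) + 1) ≤ 1 / 4 ∧ ∀ᶠ s in 𝓝 (0 : ℝ), S.c i0 s = k • S.c j (τ + α * s) :=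
    fun n => LFB_chart S hS T hJ i0 ((n : ℝ) + 1) (by positivity)
  choose k j τ α h1 h2 h3 h4 using hch
  -- the charts
  set F : ℕ → ℝ → X := fun n s => k n • S.c (j n) (τ n + α n * s) with hF
  have hin : ∀ (n : ℕ) (s : ℝ), |s| < (n : ℝ) + 1 → |τ n + α n * s| < 1 := by
    intro n s hs
    have e1 : |α n * s| ≤ 1 / 4 := by
      rw [abs_mul]
      exact (mul_le_mul_of_nonneg_left hs.le (abs_nonneg _)).trans (h3 n)
    have e2 := abs_add_le (τ n) (α n * s)
    have := h1 n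
    linarith
  have hcur : ∀ n : ℕ, S.ACurve (Ioo (-((n : ℝ) + 1)) ((n : ℝ) + 1)) (F n) := by
    intro n s0 hs0
    exact S.acurve_chart (k n) (j n) (τ n) (α n) (h2 n) s0 (hin n s0 (abs_lt.2 hs0))
  have hmono : ∀ {n m : ℕ}, n ≤ m → ∀ s : ℝ, |s| < (n : ℝ) + 1 → F n s = F m s := by
    intro n m hnm s hs
    have hnm' : (n : ℝ) ≤ m := by exact_mod_cast hnm
    have hcm : S.ACurve (Ioo (-((n : ℝ) + 1)) ((n : ℝ) + 1)) (F m) := by
      intro s0 hs0
      refine hcur m s0 ⟨?_, ?_⟩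
      · have := hs0.1
        linarith
      · have := hs0.2
        linarith
    refine FB.ACurve.unique_cont hS isOpen_Ioo isPreconnected_Ioo (hcur n) hcm (s0 := 0) ?_ ?_ s
      (abs_lt.1 hs)
    · constructor
      · have : (0 : ℝ) ≤ n := Nat.cast_nonneg n
        linarith
      · positivity
    · filter_upwards [h4 n, h4 m] with s e1 e2
      rw [hF]
      simp only
      rw [← e1, ← e2]
  have hagree : ∀ (n m : ℕ) (s : ℝ), |s| < (n : ℝ) + 1 → |s| < (m : ℝ) + 1 → F n s = F m s := by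
    intro n m s hn hm
    rcases le_total n m with h | h
    · exact hmono h s hn
    · exact (hmono h s hm).symm
  have hceil : ∀ s : ℝ, |s| < (⌈|s|⌉₊ : ℝ) + 1 := fun s => by
    have := Nat.le_ceil |s|
    linarith
  set Φ : ℝ → X := fun s => F ⌈|s|⌉₊ s with hΦ
  have hΦF : ∀ (n : ℕ) (s : ℝ), |s| < (n : ℝ) + 1 → Φ s = F n s := fun n s hs =>
    hagree _ n s (hceil s) hs
  refine ⟨Φ, ?_, ?_⟩
  · intro s0 _
    obtain ⟨k', j', τ', α', e1, e2, e3⟩ := hcur ⌈|s0|⌉₊ s0 (abs_lt.1 (hceil s0))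
    refine ⟨k', j', τ', α', e1, e2, ?_⟩
    have hopen : IsOpen {s : ℝ | |s| < (⌈|s0|⌉₊ : ℝ) + 1} :=
      isOpen_lt continuous_abs continuous_const
    filter_upwards [e3, hopen.mem_nhds (hceil s0)] with s e4 e5
    rw [hΦF _ s e5]
    exact e4
  · intro s s' hss
    set n := max ⌈|s|⌉₊ ⌈|s'|⌉₊ with hn
    have e1 : |s| < (n : ℝ) + 1 := by
      refine (hceil s).trans_le ?_
      have : ((⌈|s|⌉₊ : ℕ) : ℝ) ≤ n := by exact_mod_cast le_max_left _ _
      linarith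
    have e2 : |s'| < (n : ℝ) + 1 := by
      refine (hceil s').trans_le ?_
      have : ((⌈|s'|⌉₊ : ℕ) : ℝ) ≤ n := by exact_mod_cast le_max_right _ _
      linarith
    rw [hΦF n s e1, hΦF n s' e2] at hss
    have e3 : S.c (j n) (τ n + α n * s) = S.c (j n) (τ n + α n * s') := by
      have := congrArg (fun y => (k n)⁻¹ • y) hss
      simp only [hF, inv_smul_smul] at this
      exact this
    have hρ0 : 0 < S.ρ0 := by
      have := S.hρ1
      have := S.hρ
      linarith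
    have e4 := (S.inj (j n) 1 1 _ _ (hin n s e1) (hin n s' e2) (by rw [nd_one]; exact hρ0)
      (by rw [nd_one]; exact hρ0) (by rw [one_smul, one_smul]; exact e3)).2
    have e5 : α n * s = α n * s' := by linarith
    exact mul_left_cancel₀ (h2 n) e5

end Pool.Agent.H88.LF
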