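import Pool.Agent.H88.LF.FBC
import Pool.Agent.H88.LF.GBC

/-!
# LJG (blueprint 8.1)
-/

set_option autoImplicit false

open MeasureTheory Set Filter
open scoped Topology ENNReal

namespace Pool.Agent.H88.LF

variable {X : Type} [MetricSpace X] [CompactSpace X] [MulAction G X] [ContinuousSMul G X]

/-- For a finite `G`-invariant measure `lam` on `X`: `g ↦ ∫ log J(g,y) dlam` is a homomorphism `G → ℝ`, so `0` (`hom_trivial`); `J^s = e^{s log J} ≥ 1 + s log J`. -/
theorem lintegral_J_ge [MeasurableSpace X] [BorelSpace X] {S : FB X} (T : TN S)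
    (lam : Measure X) [IsFiniteMeasure lam]
    (hinv : ∀ g : G, Measure.map (fun y => g • y) lam = lam) (g : G) (s : ℝ) (hs : 0 < s) :
    lam univ ≤ ∫⁻ y, ENNReal.ofReal (T.J g y ^ s) ∂lam := by
  have hJc : ∀ g : G, Continuous (fun y => T.J g y) := fun g =>
    T.continuous_J.comp (continuous_const.prodMk continuous_id)
  have hlc : ∀ g : G, Continuous (fun y => Real.log (T.J g y)) := fun g =>
    (hJc g).log (fun y => (T.J_pos g y).ne')
  have hint : ∀ g : G, Integrable (fun y => Real.log (T.J g y)) lam := by
    intro g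
    exact (hlc g).integrable_of_hasCompactSupport
      (HasCompactSupport.of_compactSpace _)
  have hmul : ∀ a b : G, ∫ y, Real.log (T.J (a * b) y) ∂lam =
      ∫ y, Real.log (T.J a y) ∂lam + ∫ y, Real.log (T.J b y) ∂lam := by
    intro a b
    have h1 : ∀ y, Real.log (T.J (a * b) y) = Real.log (T.J a (b • y)) + Real.log (T.J b y) := by
      intro y
      rw [T.J_mul, Real.log_mul (T.J_pos _ _).ne' (T.J_pos _ _).ne']
    have h2 : ∫ y, Real.log (T.J a (b • y)) ∂lam = ∫ y, Real.log (T.J a y) ∂lam := by
      have h3 : ∫ y, Real.log (T.J a y) ∂(Measure.map (fun y => b • y) lam) =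
          ∫ y, Real.log (T.J a (b • y)) ∂lam := by
        refine integral_map ?_ ?_
        · exact (continuous_const_smul b).measurable.aemeasurable
        · exact (hlc a).aestronglyMeasurable
      rw [← h3, hinv b]
    have h4 : Integrable (fun y => Real.log (T.J a (b • y))) lam := by
      exact ((hlc a).comp (continuous_const_smul b)).integrable_of_hasCompactSupport
        (HasCompactSupport.of_compactSpace _)
    simp only [h1]
    rw [integral_add h4 (hint b), h2]
  let f : G →* Multiplicative ℝ :=
    { toFun := fun g => Multiplicative.ofAdd (∫ y, Real.log (T.J g y) ∂lam)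
      map_one' := by
        have h5 := hmul 1 1
        rw [one_mul] at h5
        have h6 : ∫ y, Real.log (T.J 1 y) ∂lam = 0 := by linarith
        rw [h6]
        rfl
      map_mul' := by
        intro a b
        rw [hmul a b]
        rfl }
  have hzero : ∫ y, Real.log (T.J g y) ∂lam = 0 := by
    have h7 := hom_trivial f g
    exact Multiplicative.ofAdd.injective (h7.trans ofAdd_zero.symm)
  have h8 : ∀ y, 1 + s * Real.log (T.J g y) ≤ T.J g y ^ s := by
    intro y
    rw [Real.rpow_def_of_pos (T.J_pos g y), mul_comm s]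
    have := Real.add_one_le_exp (Real.log (T.J g y) * s)
    linarith
  have hint2 : Integrable (fun y => 1 + s * Real.log (T.J g y)) lam :=
    (integrable_const 1).add ((hint g).const_mul s)
  have h9 : ∫ y, (1 + s * Real.log (T.J g y)) ∂lam = (lam univ).toReal := by
    rw [integral_add (integrable_const 1) ((hint g).const_mul s), integral_const_mul, hzero]
    simp [Measure.real]
  calc lam univ = ENNReal.ofReal ((lam univ).toReal) :=
        (ENNReal.ofReal_toReal (measure_ne_top _ _)).symm
    _ = ENNReal.ofReal (∫ y, (1 + s * Real.log (T.J g y)) ∂lam) := by rw [h9]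
    _ ≤ ∫⁻ y, ENNReal.ofReal (1 + s * Real.log (T.J g y)) ∂lam := by
        rw [integral_eq_lintegral_pos_part_sub_lintegral_neg_part hint2]
        refine (ENNReal.ofReal_le_ofReal (sub_le_self _ ENNReal.toReal_nonneg)).trans ?_
        exact ENNReal.ofReal_toReal_le
    _ ≤ ∫⁻ y, ENNReal.ofReal (T.J g y ^ s) ∂lam :=
        lintegral_mono (fun y => ENNReal.ofReal_le_ofReal (h8 y))

end Pool.Agent.H88.LF
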