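import Pool.Agent.H88.LF.FBC

/-!
# LOC: uniform local estimates (blueprint section 2)

For `q ∈ Q` compact, `x = h c i t`, `qx = h' c j τ` (the chosen normal representations) the arrow `k = (qh)⁻¹h' : (i,t) → (j,τ)` lies in a compact set.
Its continuation gives `q h c i (t+s) = η h' c j (τ+F)` with `F = τf(t+s) - τ`, `η = q h kf(t+s) h'⁻¹`.  Everything is `C¹` in `s`
with constants that are uniform by compactness (`FB.isCompact_arr`): cover the compact set of arrows by finitely many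
neighbourhoods on which the continuation of one arrow describes all (`FB.near`).
`J(η⁻¹q, cur x s) = W(η⁻¹qh;i,t+s)/W(h;i,t+s)`, and `W(η⁻¹ q h;i,t+s) = W(η⁻¹ q h kf(t+s);j,τ+F)|τf'(t+s)| = W(h';j,τ+F)|τf'(t+s)|` by `rule`, so the
logarithm of the quotient by `J(q,x) = W(h';j,τ)|τf'(t)|/W(h;i,t)` is `O(s)` by `logW_lip` and `τf ∈ C²`.
`w(qx)|F| ≤ J(q,x) w(x) |s| e^{C|s|}`: mean value theorem and the same estimate of `|τf'|`.
-/

set_option autoImplicit false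

open MeasureTheory Set Filter
open scoped Topology Pointwise

namespace Pool.Agent.H88.LF

/-- A real function with a `C¹` germ is Lipschitz near the point. -/
theorem loc_lip {φ : ℝ → ℝ} {t0 : ℝ} (h : ContDiffAt ℝ 1 φ t0) :
    ∃ K : ℝ, 0 ≤ K ∧ ∀ᶠ p : ℝ × ℝ in 𝓝 (t0, t0), |φ p.1 - φ p.2| ≤ K * |p.1 - p.2| := by
  obtain ⟨K, s, hs, hL⟩ := h.exists_lipschitzOnWith
  refine ⟨K, K.2, ?_⟩
  have h1 : ∀ᶠ p : ℝ × ℝ in 𝓝 (t0, t0), p.1 ∈ s ∧ p.2 ∈ s := by
    rw [nhds_prod_eq]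
    exact (show ∀ᶠ t in 𝓝 t0, t ∈ s from hs).prod_mk (show ∀ᶠ t in 𝓝 t0, t ∈ s from hs)
  filter_upwards [h1] with p hp
  have h2 := hL.dist_le_mul p.1 hp.1 p.2 hp.2
  rwa [Real.dist_eq, Real.dist_eq] at h2

theorem loc_contDiffAt_deriv {g : ℝ → ℝ} {t0 : ℝ} (h : ContDiffAt ℝ 2 g t0) :
    ContDiffAt ℝ 1 (deriv g) t0 := by
  have h1 : ContDiffAt ℝ 1 (fderiv ℝ g) t0 := h.fderiv_right (by norm_num)
  exact h1.clm_apply contDiffAt_const

/-- Mean value estimate. -/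
theorem loc_mvt {g : ℝ → ℝ} {t0 ε K : ℝ} (hK : 0 ≤ K)
    (hd : ∀ t, |t - t0| < ε → DifferentiableAt ℝ g t)
    (hne : ∀ t, |t - t0| < ε → deriv g t ≠ 0)
    (hL : ∀ t u, |t - t0| < ε → |u - t0| < ε →
      |Real.log (deriv g t) - Real.log (deriv g u)| ≤ K * |t - u|)
    {t u : ℝ} (ht : |t - t0| < ε) (hu : |u - t0| < ε) :
    |g u - g t| ≤ |deriv g t| * |u - t| * Real.exp (K * |u - t|) := by
  have hsub : ∀ v ∈ Set.uIcc t u, |v - t0| < ε := by
    intro v hv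
    rw [abs_lt] at ht hu ⊢
    rcases Set.mem_uIcc.1 hv with h | h <;> constructor <;>
      linarith [h.1, h.2, ht.1, ht.2, hu.1, hu.2]
  have hb : ∀ v ∈ Set.uIcc t u, ‖deriv g v‖ ≤ |deriv g t| * Real.exp (K * |u - t|) := by
    intro v hv
    have h1 := hL v t (hsub v hv) ht
    have h2 : |v - t| ≤ |u - t| := by
      rcases Set.mem_uIcc.1 hv with h | h
      · rw [abs_of_nonneg (by linarith [h.1]), abs_of_nonneg (by linarith [h.1, h.2])]
        linarith [h.2]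
      · rw [abs_of_nonpos (by linarith [h.2]), abs_of_nonpos (by linarith [h.1, h.2])]
        linarith [h.1]
    have h3 : Real.log (deriv g v) ≤ Real.log (deriv g t) + K * |u - t| := by
      have h4 := (abs_le.1 h1).2
      have h5 := mul_le_mul_of_nonneg_left h2 hK
      linarith
    rw [Real.norm_eq_abs, ← Real.exp_log (abs_pos.2 (hne v (hsub v hv))), Real.log_abs,
      ← Real.exp_log (abs_pos.2 (hne t ht)), Real.log_abs, ← Real.exp_add]
    exact Real.exp_le_exp.2 h3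
  have h6 := Convex.norm_image_sub_le_of_norm_deriv_le (fun v hv => hd v (hsub v hv)) hb
    (convex_uIcc t u) left_mem_uIcc right_mem_uIcc
  rw [Real.norm_eq_abs, Real.norm_eq_abs] at h6
  calc |g u - g t| ≤ |deriv g t| * Real.exp (K * |u - t|) * |u - t| := h6
    _ = |deriv g t| * |u - t| * Real.exp (K * |u - t|) := by ring

/-- The local estimate for one arrow. -/
def LocE {X : Type} [TopologicalSpace X] [MulAction G X] (S : FB X) (i j : Fin S.n) (δ C : ℝ)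
    (p : ℝ × ℝ × G) : Prop :=
  ∀ s : ℝ, |s| ≤ δ → ∃ (τ' : ℝ) (k' : G), S.Arr i j (p.1 + s) τ' k' ∧ |τ' - p.2.1| ≤ C * |s| ∧
    |τ' - p.2.1| ≤ |S.dτ i j p.1 p.2.1 p.2.2| * |s| * Real.exp (C * |s|) ∧
    nrm (k'.1 - p.2.2.1) ≤ C * |s| ∧
    |Real.log (S.dτ i j (p.1 + s) τ' k') - Real.log (S.dτ i j p.1 p.2.1 p.2.2)| ≤ C * |s|

theorem LocE.mono {X : Type} [TopologicalSpace X] [MulAction G X] {S : FB X} {i j : Fin S.n}
    {δ C δ' C' : ℝ} {p : ℝ × ℝ × G} (h : LocE S i j δ C p) (hδ : δ' ≤ δ) (hC : C ≤ C') :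
    LocE S i j δ' C' p := by
  intro s hs
  obtain ⟨τ', k', h1, h2, h3, h4, h5⟩ := h s (hs.trans hδ)
  have h6 : C * |s| ≤ C' * |s| := mul_le_mul_of_nonneg_right hC (abs_nonneg s)
  refine ⟨τ', k', h1, h2.trans h6, h3.trans ?_, h4.trans h6, h5.trans h6⟩
  exact mul_le_mul_of_nonneg_left (Real.exp_le_exp.2 h6)
    (mul_nonneg (abs_nonneg _) (abs_nonneg _))

theorem loc_local {X : Type} [TopologicalSpace X] [MulAction G X] (S : FB X) {i j : Fin S.n}
    {t0 τ0 : ℝ} {k0 : G} (h : S.Arr i j t0 τ0 k0) :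
    ∃ δ : ℝ, 0 < δ ∧ ∃ C : ℝ, 1 ≤ C ∧ ∀ᶠ p : ℝ × ℝ × G in 𝓝 (t0, τ0, k0),
      S.Arr i j p.1 p.2.1 p.2.2 → LocE S i j δ C p := by
  obtain ⟨hk0, hτ0, hkd, hτd, hdne, -⟩ := S.kf_τf_spec h
  set f := S.kf i j t0 τ0 k0 with hf
  set g := S.τf i j t0 τ0 k0 with hg
  -- Lipschitz constants
  have hent : ∀ a b : Fin 3, ∃ K : ℝ, 0 ≤ K ∧ ∀ᶠ p : ℝ × ℝ in 𝓝 (t0, t0),
      |(f p.1).1 a b - (f p.2).1 a b| ≤ K * |p.1 - p.2| := fun a b =>
    loc_lip ((hkd a b).of_le (by norm_num))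
  choose Kf hKf0 hKf using hent
  obtain ⟨Kg, hKg0, hKg⟩ := loc_lip (hτd.of_le (by norm_num : (1 : WithTop ℕ∞) ≤ 2))
  obtain ⟨Kd, hKd0, hKd⟩ := loc_lip (φ := fun t => Real.log (deriv g t))
    ((loc_contDiffAt_deriv hτd).log hdne)
  have hKf' : ∀ᶠ p : ℝ × ℝ in 𝓝 (t0, t0), ∀ a b : Fin 3,
      |(f p.1).1 a b - (f p.2).1 a b| ≤ Kf a b * |p.1 - p.2| := by
    rw [Filter.eventually_all]
    intro a
    rw [Filter.eventually_all]
    intro b
    exact hKf a b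
  obtain ⟨ε1, hε1, h1⟩ := Metric.eventually_nhds_iff.1 ((hKf'.and hKg).and hKd)
  have h2 := (S.eventually_arr h).and ((S.eventually_dτ h).and (S.eventually_contDiffAt h))
  obtain ⟨ε2, hε2, h2⟩ := Metric.eventually_nhds_iff.1 h2
  obtain ⟨ε3, hε3, h3⟩ := S.near h
  set ε := min ε1 ε2 with hε
  have hεp : 0 < ε := lt_min hε1 hε2
  have hA : ∀ t u, |t - t0| < ε → |u - t0| < ε →
      ((∀ a b : Fin 3, |(f t).1 a b - (f u).1 a b| ≤ Kf a b * |t - u|) ∧
        |g t - g u| ≤ Kg * |t - u|) ∧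
        |Real.log (deriv g t) - Real.log (deriv g u)| ≤ Kd * |t - u| := by
    intro t u ht hu
    have := @h1 (t, u) (by
      rw [Prod.dist_eq, max_lt_iff, Real.dist_eq, Real.dist_eq]
      exact ⟨ht.trans_le (min_le_left _ _), hu.trans_le (min_le_left _ _)⟩)
    exact this
  have hB : ∀ t, |t - t0| < ε → S.Arr i j t (g t) (f t) ∧
      S.dτ i j t (g t) (f t) = deriv g t ∧ DifferentiableAt ℝ g t := by
    intro t ht
    have h4 := @h2 t (by rw [Real.dist_eq]; exact ht.trans_le (min_le_right _ _))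
    exact ⟨h4.1, h4.2.1.1, h4.2.2.2.1.differentiableAt (by norm_num)⟩
  have hC : ∀ t, |t - t0| < ε → deriv g t ≠ 0 := by
    intro t ht
    obtain ⟨h5, h6, -⟩ := hB t ht
    rw [← h6]
    exact S.dτ_ne_zero h5
  set C := 1 + (∑ a, ∑ b, Kf a b) + Kg + Kd with hCdef
  have hsum : 0 ≤ ∑ a, ∑ b, Kf a b :=
    Finset.sum_nonneg fun a _ => Finset.sum_nonneg fun b _ => hKf0 a b
  refine ⟨ε / 2, by positivity, C, by linarith, ?_⟩
  have h7 : ∀ᶠ p : ℝ × ℝ × G in 𝓝 (t0, τ0, k0), |p.1 - t0| < min (ε / 2) ε3 := by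
    have hc : ContinuousAt (fun p : ℝ × ℝ × G => |p.1 - t0|) (t0, τ0, k0) := by fun_prop
    have := hc.eventually (gt_mem_nhds (show |(t0, τ0, k0).1 - t0| < min (ε / 2) ε3 by
      simp only [sub_self, abs_zero]
      exact lt_min (by positivity) hε3))
    exact this
  have h8 : ∀ᶠ p : ℝ × ℝ × G in 𝓝 (t0, τ0, k0), nd (k0⁻¹ * p.2.2) < ε3 := by
    have hc : Continuous (fun p : ℝ × ℝ × G => nd (k0⁻¹ * p.2.2)) :=
      continuous_nd.comp (continuous_const.mul (continuous_snd.comp continuous_snd))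
    have := hc.continuousAt.eventually (gt_mem_nhds
      (show nd (k0⁻¹ * (t0, τ0, k0).2.2) < ε3 by
        simp only [inv_mul_cancel, nd_one]
        exact hε3))
    exact this
  filter_upwards [h7, h8] with p hp7 hp8 hArr
  obtain ⟨t, τ, k⟩ := p
  simp only at hp7 hp8 hArr ⊢
  have ht1 : |t - t0| < ε / 2 := hp7.trans_le (min_le_left _ _)
  obtain ⟨hk, hτ⟩ := h3 t τ k (hp7.trans_le (min_le_right _ _)) hp8 hArr
  have ht2 : |t - t0| < ε := by linarith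
  intro s hs
  simp only at hs ⊢
  have hts : |t + s - t0| < ε := by
    have : t + s - t0 = (t - t0) + s := by ring
    rw [this]
    exact (abs_add_le _ _).trans_lt (by linarith)
  have e1 : t + s - t = s := by ring
  have hAA := hA (t + s) t hts ht2
  rw [e1] at hAA
  obtain ⟨⟨hA1, hA2⟩, hA3⟩ := hAA
  obtain ⟨hB1, hB2, -⟩ := hB (t + s) hts
  obtain ⟨hB3, hB4, -⟩ := hB t ht2
  have hkd' : S.dτ i j t τ k = deriv g t := by rw [hk, hτ]; exact hB4
  refine ⟨g (t + s), f (t + s), hB1, ?_, ?_, ?_, ?_⟩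
  · rw [hτ]
    refine hA2.trans (mul_le_mul_of_nonneg_right ?_ (abs_nonneg s))
    linarith
  · rw [hkd', hτ]
    have h9 := loc_mvt hKd0 (fun v hv => (hB v hv).2.2) hC (fun v u hv hu => (hA v u hv hu).2)
      ht2 hts
    rw [e1] at h9
    refine h9.trans (mul_le_mul_of_nonneg_left (Real.exp_le_exp.2 ?_)
      (mul_nonneg (abs_nonneg _) (abs_nonneg _)))
    refine mul_le_mul_of_nonneg_right ?_ (abs_nonneg s)
    linarith
  · rw [hk]
    have h10 : nrm ((f (t + s)).1 - (f t).1) ≤ (∑ a, ∑ b, Kf a b) * |s| := by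
      unfold nrm
      rw [Finset.sum_mul]
      refine Finset.sum_le_sum fun a _ => ?_
      rw [Finset.sum_mul]
      refine Finset.sum_le_sum fun b _ => ?_
      rw [Matrix.sub_apply]
      exact hA1 a b
    refine h10.trans (mul_le_mul_of_nonneg_right ?_ (abs_nonneg s))
    linarith
  · rw [hkd', hB2]
    refine hA3.trans (mul_le_mul_of_nonneg_right ?_ (abs_nonneg s))
    linarith

/-- Uniform version over compact sets of arrows. -/
theorem loc_compact {X : Type} [TopologicalSpace X] [MulAction G X] [T2Space X]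
    [ContinuousSMul G X] (S : FB X) (i j : Fin S.n) (Q : Set G) (hQ : IsCompact Q) :
    ∃ δ : ℝ, 0 < δ ∧ ∃ C : ℝ, 1 ≤ C ∧ ∀ (t τ : ℝ) (k : G), |t| ≤ 1 / 2 → |τ| ≤ 1 / 2 → k ∈ Q →
      S.Arr i j t τ k → LocE S i j δ C (t, τ, k) := by
  have hK := S.isCompact_arr i j (1 / 2) (by norm_num) Q hQ
  have key : ∃ δ : ℝ, 0 < δ ∧ ∃ C : ℝ, 1 ≤ C ∧ ∀ p ∈ {p : ℝ × ℝ × G | |p.1| ≤ 1 / 2 ∧
      |p.2.1| ≤ 1 / 2 ∧ p.2.2 ∈ Q ∧ S.Arr i j p.1 p.2.1 p.2.2},
      S.Arr i j p.1 p.2.1 p.2.2 → LocE S i j δ C p := by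
    refine hK.induction_on (p := fun s => ∃ δ : ℝ, 0 < δ ∧ ∃ C : ℝ, 1 ≤ C ∧ ∀ p ∈ s,
      S.Arr i j p.1 p.2.1 p.2.2 → LocE S i j δ C p) ?_ ?_ ?_ ?_
    · exact ⟨1, one_pos, 1, le_refl 1, fun p hp => absurd hp (Set.notMem_empty p)⟩
    · rintro s t hst ⟨δ, hδ, C, hC, h⟩
      exact ⟨δ, hδ, C, hC, fun p hp => h p (hst hp)⟩
    · rintro s t ⟨δ, hδ, C, hC, h⟩ ⟨δ', hδ', C', hC', h'⟩
      refine ⟨min δ δ', lt_min hδ hδ', max C C', hC.trans (le_max_left _ _), ?_⟩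
      rintro p (hp | hp) ha
      · exact (h p hp ha).mono (min_le_left _ _) (le_max_left _ _)
      · exact (h' p hp ha).mono (min_le_right _ _) (le_max_right _ _)
    · rintro ⟨t0, τ0, k0⟩ hx
      obtain ⟨δ, hδ, C, hC, h⟩ := loc_local S hx.2.2.2
      exact ⟨_, mem_nhdsWithin_of_mem_nhds h, δ, hδ, C, hC, fun p hp => hp⟩
  obtain ⟨δ, hδ, C, hC, h⟩ := key
  exact ⟨δ, hδ, C, hC, fun t τ k ht hτ hk ha => h (t, τ, k) ⟨ht, hτ, hk, ha⟩ ha⟩

/-- Uniform version, all pairs of charts. -/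
theorem loc_all {X : Type} [TopologicalSpace X] [MulAction G X] [T2Space X]
    [ContinuousSMul G X] (S : FB X) (Q : Set G) (hQ : IsCompact Q) :
    ∃ δ : ℝ, 0 < δ ∧ ∃ C : ℝ, 1 ≤ C ∧ ∀ (i j : Fin S.n) (t τ : ℝ) (k : G), |t| ≤ 1 / 2 →
      |τ| ≤ 1 / 2 → k ∈ Q → S.Arr i j t τ k → LocE S i j δ C (t, τ, k) := by
  choose δ hδ C hC h using fun i j => loc_compact S i j Q hQ
  have hC0 : ∀ i j, 0 ≤ C i j := fun i j => zero_le_one.trans (hC i j)
  have hD0 : ∀ i j, 0 ≤ (δ i j)⁻¹ := fun i j => inv_nonneg.2 (hδ i j).le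
  have hsC : 0 ≤ ∑ i, ∑ j, C i j := Finset.sum_nonneg fun i _ => Finset.sum_nonneg fun j _ => hC0 i j
  have hsD : 0 ≤ ∑ i, ∑ j, (δ i j)⁻¹ :=
    Finset.sum_nonneg fun i _ => Finset.sum_nonneg fun j _ => hD0 i j
  refine ⟨(1 + ∑ i, ∑ j, (δ i j)⁻¹)⁻¹, by positivity, 1 + ∑ i, ∑ j, C i j, by linarith, ?_⟩
  intro i j t τ k ht hτ hk ha
  refine (h i j t τ k ht hτ hk ha).mono ?_ ?_
  · have h1 : (δ i j)⁻¹ ≤ ∑ i, ∑ j, (δ i j)⁻¹ :=
      (Finset.single_le_sum (f := fun j => (δ i j)⁻¹) (fun j _ => hD0 i j)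
        (Finset.mem_univ j)).trans
      (Finset.single_le_sum (f := fun i => ∑ j, (δ i j)⁻¹)
        (fun i _ => Finset.sum_nonneg fun j _ => hD0 i j) (Finset.mem_univ i))
    rw [inv_le_comm₀ (by positivity) (hδ i j)]
    linarith
  · have h1 : C i j ≤ ∑ i, ∑ j, C i j :=
      (Finset.single_le_sum (f := fun j => C i j) (fun j _ => hC0 i j)
        (Finset.mem_univ j)).trans
      (Finset.single_le_sum (f := fun i => ∑ j, C i j)
        (fun i _ => Finset.sum_nonneg fun j _ => hC0 i j) (Finset.mem_univ i))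
    linarith

variable {X : Type} [MetricSpace X] [CompactSpace X] [MulAction G X] [ContinuousSMul G X]

/-- `nrm` is bounded on compact sets. -/
theorem loc_nrm_bound {Q : Set G} (hQ : IsCompact Q) : ∃ C : ℝ, 1 ≤ C ∧ ∀ q ∈ Q, nrm q.1 ≤ C := by
  obtain ⟨C, hC⟩ := hQ.exists_bound_of_continuousOn
    (f := fun q : G => nrm q.1) (continuous_nrm.comp closedEmb_val.continuous).continuousOn
  refine ⟨max 1 C, le_max_left _ _, fun q hq => ?_⟩
  have h1 := hC q hq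
  rw [Real.norm_eq_abs] at h1
  exact (le_abs_self _).trans (h1.trans (le_max_right _ _))

/-- LOC -/
theorem TN.loc {S : FB X} (T : TN S) {Q : Set G} (hQ : IsCompact Q) :
    ∃ δ : ℝ, 0 < δ ∧ δ ≤ 1 / 8 ∧ ∃ C : ℝ, 1 ≤ C ∧ ∀ q ∈ Q, ∀ (x : X) (s : ℝ), |s| ≤ δ →
      ∃ (η : G) (F : ℝ), |F| ≤ 1 / 4 ∧ q • S.cur x s = η • S.cur (q • x) F ∧
        nd η ≤ C * |s| ∧ |F| ≤ C * |s| ∧
        T.w (q • x) * |F| ≤ T.J q x * T.w x * |s| * Real.exp (C * |s|) ∧
        |Real.log (T.J (η⁻¹ * q) (S.cur x s)) - Real.log (T.J q x)| ≤ C * |s| := by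
  -- the compact set of arrows
  have hB : IsCompact (Bl S.ρ1) := isCompact_Bl S.ρ1
  have hQ1 : IsCompact ((Q * Bl S.ρ1)⁻¹ * Bl S.ρ1) := (hQ.mul hB).inv.mul hB
  obtain ⟨δ0, hδ0, C0, hC0, hloc⟩ := loc_all S _ hQ1
  obtain ⟨C1, hC1, hn1⟩ := loc_nrm_bound (hQ.mul hB)
  obtain ⟨C2, hC2, hn2⟩ := loc_nrm_bound hB.inv
  obtain ⟨C3, hC3, hlip⟩ := T.logW_lip hB (3 / 4) (by norm_num)
  set δ := min (min δ0 (1 / 8)) (1 / (4 * C0)) with hδ
  have hδp : 0 < δ := lt_min (lt_min hδ0 (by norm_num)) (by positivity)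
  set C := C0 + C1 * C0 * C2 + (C3 * C0 + C0 + C3) with hC
  have hC0' : 0 ≤ C0 := zero_le_one.trans hC0
  have hC1' : 0 ≤ C1 := zero_le_one.trans hC1
  have hC2' : 0 ≤ C2 := zero_le_one.trans hC2
  have hC3' : 0 ≤ C3 := zero_le_one.trans hC3
  have hCp1 : 0 ≤ C1 * C0 * C2 := by positivity
  have hCp2 : 0 ≤ C3 * C0 := by positivity
  refine ⟨δ, hδp, (min_le_left _ _).trans (min_le_right _ _), C, by linarith, ?_⟩
  intro q hq x s hs
  have hs0 : |s| ≤ δ0 := hs.trans ((min_le_left _ _).trans (min_le_left _ _))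
  have hs1 : |s| ≤ 1 / 8 := hs.trans ((min_le_left _ _).trans (min_le_right _ _))
  have hs2 : C0 * |s| ≤ 1 / 4 := by
    have h1 : |s| ≤ 1 / (4 * C0) := hs.trans (min_le_right _ _)
    have h2 : 0 < C0 := zero_lt_one.trans_le hC0
    rw [le_div_iff₀ (by positivity)] at h1
    linarith
  obtain ⟨hh1, ht1, hx1⟩ := S.rep_spec x
  obtain ⟨hh2, ht2, hx2⟩ := S.rep_spec (q • x)
  unfold TN.w FB.cur
  set h := S.rh x with hhdef
  set i := S.ri x with hidef
  set t := S.rt x with htdef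
  set h' := S.rh (q • x) with hh'def
  set j := S.ri (q • x) with hjdef
  set τ := S.rt (q • x) with hτdef
  have hmem : (q * h)⁻¹ * h' ∈ (Q * Bl S.ρ1)⁻¹ * Bl S.ρ1 := by
    refine Set.mul_mem_mul (Set.inv_mem_inv.2 (Set.mul_mem_mul hq ?_)) ?_
    · exact hh1.le
    · exact hh2.le
  have hArr : S.Arr i j t τ ((q * h)⁻¹ * h') := by
    refine ⟨by linarith, by linarith, ?_⟩
    rw [mul_smul, ← hx2, inv_smul_eq_iff.2 ?_]
    rw [mul_smul, ← hx1]
  set k := (q * h)⁻¹ * h' with hk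
  obtain ⟨τ', k', hA, hF1, hF2, hk1, hd1⟩ := hloc i j t τ k ht1.le ht2.le hmem hArr s hs0
  simp only at hA hF1 hF2 hk1 hd1
  have hF3 : |τ' - τ| ≤ 1 / 4 := hF1.trans hs2
  have hts : |t + s| < 1 := (abs_add_le _ _).trans_lt (by linarith)
  have hqk : q * h * k = h' := by rw [hk]; group
  refine ⟨q * h * k' * h'⁻¹, τ' - τ, hF3, ?_, ?_, ?_, ?_, ?_⟩
  · have e1 : τ + (τ' - τ) = τ' := by ring
    rw [e1, ← mul_smul, ← mul_smul, inv_mul_cancel_right, hA.2.2, ← mul_smul]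
  · have e0 : h'.1 * (h'⁻¹).1 = 1 := by
      rw [← Matrix.SpecialLinearGroup.coe_mul, mul_inv_cancel]; rfl
    have e2 : (q * h * k' * h'⁻¹).1 - 1 = (q * h).1 * (k'.1 - k.1) * (h'⁻¹).1 := by
      have e3 : (q * h).1 * k.1 = h'.1 := by rw [← Matrix.SpecialLinearGroup.coe_mul, hqk]
      rw [mul_sub, sub_mul, e3, e0, Matrix.SpecialLinearGroup.coe_mul (q * h * k') h'⁻¹,
        Matrix.SpecialLinearGroup.coe_mul (q * h) k']
    unfold nd
    rw [e2]
    have h3 : nrm (q * h).1 ≤ C1 := hn1 _ (Set.mul_mem_mul hq hh1.le)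
    have h4 : nrm (h'⁻¹).1 ≤ C2 := hn2 _ (Set.inv_mem_inv.2 hh2.le)
    calc nrm ((q * h).1 * (k'.1 - k.1) * (h'⁻¹).1)
        ≤ nrm ((q * h).1 * (k'.1 - k.1)) * nrm (h'⁻¹).1 := nrm_mul_le _ _
      _ ≤ (nrm (q * h).1 * nrm (k'.1 - k.1)) * nrm (h'⁻¹).1 :=
          mul_le_mul_of_nonneg_right (nrm_mul_le _ _) (nrm_nonneg _)
      _ ≤ (C1 * (C0 * |s|)) * C2 :=
          mul_le_mul (mul_le_mul h3 hk1 (nrm_nonneg _) hC1') h4 (nrm_nonneg _)
            (by positivity)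
      _ = C1 * C0 * C2 * |s| := by ring
      _ ≤ C * |s| := mul_le_mul_of_nonneg_right (by linarith) (abs_nonneg s)
  · refine hF1.trans (mul_le_mul_of_nonneg_right (by linarith) (abs_nonneg s))
  · have hr := T.rule i j t τ k hArr (q * h)
    rw [hqk] at hr
    have hJ : T.J q x * T.W h i t = T.W (q * h) i t := by
      unfold TN.J
      rw [← hhdef, ← hidef, ← htdef]
      exact div_mul_cancel₀ _ (T.pos h i t (by linarith)).ne'
    rw [hJ, hr]
    have hW := (T.pos h' j τ (by linarith)).le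
    calc T.W h' j τ * |τ' - τ|
        ≤ T.W h' j τ * (|S.dτ i j t τ k| * |s| * Real.exp (C0 * |s|)) :=
          mul_le_mul_of_nonneg_left hF2 hW
      _ ≤ T.W h' j τ * (|S.dτ i j t τ k| * |s| * Real.exp (C * |s|)) := by
          refine mul_le_mul_of_nonneg_left (mul_le_mul_of_nonneg_left (Real.exp_le_exp.2 ?_)
            (mul_nonneg (abs_nonneg _) (abs_nonneg _))) hW
          exact mul_le_mul_of_nonneg_right (by linarith) (abs_nonneg s)
      _ = T.W h' j τ * |S.dτ i j t τ k| * |s| * Real.exp (C * |s|) := by ring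
  · have hη : (q * h * k' * h'⁻¹)⁻¹ * q * h * k' = h' := by group
    rw [T.J_eq _ h i (t + s) hts, T.rule i j (t + s) τ' k' hA, hη]
    have hJ : T.J q x = T.W h' j τ * |S.dτ i j t τ k| / T.W h i t := by
      unfold TN.J
      rw [← hhdef, ← hidef, ← htdef, T.rule i j t τ k hArr (q * h), hqk]
    rw [hJ]
    have hp1 := T.pos h' j τ' hA.2.1
    have hp2 := T.pos h' j τ hArr.2.1
    have hp3 := T.pos h i (t + s) hts
    have hp4 := T.pos h i t hArr.1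
    have hp5 : 0 < |S.dτ i j (t + s) τ' k'| := abs_pos.2 (S.dτ_ne_zero hA)
    have hp6 : 0 < |S.dτ i j t τ k| := abs_pos.2 (S.dτ_ne_zero hArr)
    rw [Real.log_div (mul_pos hp1 hp5).ne' hp3.ne', Real.log_div (mul_pos hp2 hp6).ne' hp4.ne',
      Real.log_mul hp1.ne' hp5.ne', Real.log_mul hp2.ne' hp6.ne', Real.log_abs, Real.log_abs]
    have hτ'b : |τ'| ≤ 3 / 4 := by
      have : τ' = (τ' - τ) + τ := by ring
      rw [this]
      exact (abs_add_le _ _).trans (by linarith)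
    have hL1 := hlip h' hh2.le j τ' τ hτ'b (by linarith)
    have hL2 := hlip h hh1.le i (t + s) t ((abs_add_le _ _).trans (by linarith)) (by linarith)
    have e1 : t + s - t = s := by ring
    rw [e1] at hL2
    have hL1' : |Real.log (T.W h' j τ') - Real.log (T.W h' j τ)| ≤ C3 * (C0 * |s|) :=
      hL1.trans (mul_le_mul_of_nonneg_left hF1 hC3')
    have e5 : Real.log (T.W h' j τ') + Real.log (S.dτ i j (t + s) τ' k') -
        Real.log (T.W h i (t + s)) -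
        (Real.log (T.W h' j τ) + Real.log (S.dτ i j t τ k) - Real.log (T.W h i t)) =
        (Real.log (T.W h' j τ') - Real.log (T.W h' j τ)) +
        (Real.log (S.dτ i j (t + s) τ' k') - Real.log (S.dτ i j t τ k)) -
        (Real.log (T.W h i (t + s)) - Real.log (T.W h i t)) := by ring
    rw [e5]
    have h9 := abs_sub ((Real.log (T.W h' j τ') - Real.log (T.W h' j τ)) +
        (Real.log (S.dτ i j (t + s) τ' k') - Real.log (S.dτ i j t τ k)))
        (Real.log (T.W h i (t + s)) - Real.log (T.W h i t))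
    have h10 := abs_add_le (Real.log (T.W h' j τ') - Real.log (T.W h' j τ))
        (Real.log (S.dτ i j (t + s) τ' k') - Real.log (S.dτ i j t τ k))
    have h11 : C3 * (C0 * |s|) + C0 * |s| + C3 * |s| ≤ C * |s| := by
      have : C3 * (C0 * |s|) + C0 * |s| + C3 * |s| = (C3 * C0 + C0 + C3) * |s| := by ring
      rw [this]
      exact mul_le_mul_of_nonneg_right (by linarith) (abs_nonneg s)
    linarith

/-- The two sides of a transversal: one-sided neighbourhoods are transported by arrows. -/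
theorem FB.one_sided (S : FB X) {i j : Fin S.n} {t τ : ℝ} {k : G} (h : S.Arr i j t τ k)
    (Ω : Set X) (hΩ : ∀ (g : G), ∀ x ∈ Ω, g • x ∈ Ω) (σ : ℝ) (hσ : σ = 1 ∨ σ = -1)
    (h1 : ∃ r > 0, ∀ s, 0 < s → s < r → S.c i (t + σ * s) ∈ Ω) :
    ∃ σ' : ℝ, (σ' = 1 ∨ σ' = -1) ∧ ∃ r > 0, ∀ s, 0 < s → s < r → S.c j (τ + σ' * s) ∈ Ω := by
  obtain ⟨r, hr, h1⟩ := h1
  have h' := S.arr_symm h
  obtain ⟨-, hτ0, -, -, hdne, hev⟩ := S.kf_τf_spec h'
  have hd := S.hasDerivAt_τf h'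
  set g := S.τf j i τ t k⁻¹ with hg
  set d := S.dτ j i τ t k⁻¹ with hdd
  have hdne' : d ≠ 0 := hdne
  have hσ2 : σ * σ = 1 := by rcases hσ with rfl | rfl <;> norm_num
  -- the sign
  obtain ⟨σ', hσ', hpos⟩ : ∃ σ' : ℝ, (σ' = 1 ∨ σ' = -1) ∧ 0 < σ * (σ' * d) := by
    rcases lt_or_gt_of_ne (mul_ne_zero (by rcases hσ with rfl | rfl <;> norm_num : σ ≠ 0) hdne')
      with h2 | h2
    · exact ⟨-1, Or.inr rfl, by linarith⟩
    · exact ⟨1, Or.inl rfl, by linarith⟩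
  refine ⟨σ', hσ', ?_⟩
  -- derivative of `s ↦ σ (g (τ + σ' s) - t)` at `0`
  have hφ : HasDerivAt (fun s : ℝ => σ * (g (τ + σ' * s) - t)) (σ * (σ' * d)) 0 := by
    have h3 : HasDerivAt (fun s : ℝ => τ + σ' * s) σ' 0 := by
      have := ((hasDerivAt_id (0 : ℝ)).const_mul σ').const_add τ
      simpa using this
    have h4 : HasDerivAt g d (τ + σ' * 0) := by
      rw [mul_zero, add_zero]; exact hd
    have h5 := HasDerivAt.comp (0 : ℝ) h4 h3
    have h6 := (h5.sub_const t).const_mul σ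
    rw [mul_comm d σ'] at h6
    exact h6
  have hφ0 : σ * (g (τ + σ' * 0) - t) = 0 := by
    rw [mul_zero, add_zero, hτ0, sub_self, mul_zero]
  have hev1 : ∀ᶠ s in 𝓝[>] (0 : ℝ), 0 < σ * (g (τ + σ' * s) - t) := by
    have h7 := hφ.tendsto_slope_zero_right
    have h8 := h7.eventually (lt_mem_nhds hpos)
    filter_upwards [h8, self_mem_nhdsWithin] with s hs hs0
    have hs0' : (0 : ℝ) < s := hs0
    simp only [zero_add, hφ0, sub_zero, smul_eq_mul] at hs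
    have h9 : 0 < s⁻¹ := inv_pos.2 hs0'
    exact (mul_pos_iff_of_pos_left h9).1 hs
  have hev2 : ∀ᶠ s in 𝓝[>] (0 : ℝ), σ * (g (τ + σ' * s) - t) < r := by
    have h7 : ContinuousAt (fun s : ℝ => σ * (g (τ + σ' * s) - t)) 0 := hφ.continuousAt
    have h8 := h7.eventually (gt_mem_nhds (show σ * (g (τ + σ' * 0) - t) < r by rw [hφ0]; exact hr))
    exact nhdsWithin_le_nhds h8
  have hev3 : ∀ᶠ s in 𝓝[>] (0 : ℝ), S.c j (τ + σ' * s) =
      S.kf j i τ t k⁻¹ (τ + σ' * s) • S.c i (g (τ + σ' * s)) := by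
    have h7 : Tendsto (fun s : ℝ => τ + σ' * s) (𝓝 0) (𝓝 τ) := by
      have : ContinuousAt (fun s : ℝ => τ + σ' * s) 0 := by fun_prop
      have h8 := this.tendsto
      simpa using h8
    exact nhdsWithin_le_nhds (h7.eventually hev)
  have hev4 := (hev1.and hev2).and hev3
  rw [eventually_nhdsWithin_iff, Metric.eventually_nhds_iff] at hev4
  obtain ⟨r', hr', hev4⟩ := hev4
  refine ⟨r', hr', fun s hs0 hsr => ?_⟩
  obtain ⟨⟨h2, h3⟩, h4⟩ := @hev4 s (by rw [Real.dist_eq, sub_zero, abs_of_pos hs0]; exact hsr) hs0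
  rw [h4]
  refine hΩ _ _ ?_
  have h5 := h1 _ h2 h3
  have e1 : t + σ * (σ * (g (τ + σ' * s) - t)) = g (τ + σ' * s) := by
    rw [← mul_assoc, hσ2]; ring
  rwa [e1] at h5

end Pool.Agent.H88.LF
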