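import Pool.Agent.H88.LF.GBA
import Pool.Agent.H88.LF.GBB

/-!
# LU: decomposition along a regular direction and the shadowing lemma in the group (blueprint section 5)
-/

set_option autoImplicit false

open Set Filter
open scoped Topology

namespace Pool.Agent.H88.LF

/-- Regular direction. -/
def Reg (θ : ℝ × ℝ) : Prop := Function.Injective (cmp θ)

/-- Unipotent matrices with entries only where `cmp θ i < cmp θ l`: contracted by conjugation with `D θ`. -/
def Nm (θ : ℝ × ℝ) : Set G :=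
  {g | (∀ i, g.1 i i = 1) ∧ ∀ i l, cmp θ l < cmp θ i → g.1 i l = 0}

/-- Matrices with zero entries where `cmp θ i < cmp θ l`: not expanded by conjugation with `(D θ)⁻¹`. -/
def Pp (θ : ℝ × ℝ) : Set G := {g | ∀ i l, cmp θ i < cmp θ l → g.1 i l = 0}

theorem one_mem_Nm (θ : ℝ × ℝ) (hθ : Reg θ) : (1 : G) ∈ Nm θ := by
  refine ⟨fun i => ?_, fun i l h => ?_⟩
  · change (1 : Mat) i i = 1
    exact Matrix.one_apply_eq i
  · change (1 : Mat) i l = 0
    refine Matrix.one_apply_ne ?_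
    rintro rfl
    exact lt_irrefl _ h

theorem Nm_mul (θ : ℝ × ℝ) (hθ : Reg θ) {g h : G} (hg : g ∈ Nm θ) (hh : h ∈ Nm θ) :
    g * h ∈ Nm θ := by
  refine ⟨fun i => ?_, fun i l hl => ?_⟩
  · change (g.1 * h.1) i i = 1
    rw [Matrix.mul_apply, Finset.sum_eq_single i, hg.1 i, hh.1 i, mul_one]
    · intro k _ hk
      have hne : cmp θ k ≠ cmp θ i := fun h => hk (hθ h)
      rcases lt_or_gt_of_ne hne with h1 | h1
      · rw [hg.2 i k h1, zero_mul]
      · rw [hh.2 k i h1, mul_zero]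
    · intro h
      exact absurd (Finset.mem_univ i) h
  · change (g.1 * h.1) i l = 0
    rw [Matrix.mul_apply]
    refine Finset.sum_eq_zero fun k _ => ?_
    by_cases h1 : cmp θ k < cmp θ i
    · rw [hg.2 i k h1, zero_mul]
    · rw [hh.2 k l (lt_of_lt_of_le hl (not_lt.1 h1)), mul_zero]

theorem Nm_conj (θ : ℝ × ℝ) {g : G} (hg : g ∈ Nm θ) (v : ℝ × ℝ) : D v * g * (D v)⁻¹ ∈ Nm θ := by
  have he : ∀ i l, (D v * g * (D v)⁻¹).1 i l = Real.exp (cmp v i - cmp v l) * g.1 i l :=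
    fun i l => D_conj_entry v g.1 i l
  refine ⟨fun i => ?_, fun i l h => ?_⟩
  · rw [he, sub_self, Real.exp_zero, one_mul, hg.1 i]
  · rw [he, hg.2 i l h, mul_zero]

/-- Contraction of `Nm θ` with a factor `< 1` depending on `θ`. -/
theorem Nm_contract (θ : ℝ × ℝ) (hθ : Reg θ) :
    ∃ c : ℝ, 0 < c ∧ c < 1 ∧ ∀ g ∈ Nm θ, nd (D θ * g * (D θ)⁻¹) ≤ c * nd g := by
  have hne : ∀ i l : Fin 3, i ≠ l → 0 < |cmp θ i - cmp θ l| := fun i l h =>
    abs_pos.2 (sub_ne_zero.2 fun h' => h (hθ h'))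
  obtain ⟨δ, hδ, h01, h02, h12⟩ : ∃ δ : ℝ, 0 < δ ∧ δ ≤ |cmp θ 0 - cmp θ 1| ∧
      δ ≤ |cmp θ 0 - cmp θ 2| ∧ δ ≤ |cmp θ 1 - cmp θ 2| :=
    ⟨min (|cmp θ 0 - cmp θ 1|) (min (|cmp θ 0 - cmp θ 2|) (|cmp θ 1 - cmp θ 2|)),
      lt_min (hne 0 1 (by decide)) (lt_min (hne 0 2 (by decide)) (hne 1 2 (by decide))),
      min_le_left _ _, (min_le_right _ _).trans (min_le_left _ _),
      (min_le_right _ _).trans (min_le_right _ _)⟩
  have hδ' : ∀ i l : Fin 3, i ≠ l → δ ≤ |cmp θ i - cmp θ l| := by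
    intro i l h
    fin_cases i <;> fin_cases l <;> first | exact absurd rfl h | skip
    · exact h01
    · exact h02
    · rw [abs_sub_comm]; exact h01
    · exact h12
    · rw [abs_sub_comm]; exact h02
    · rw [abs_sub_comm]; exact h12
  refine ⟨Real.exp (-δ), Real.exp_pos _, by rw [Real.exp_lt_one_iff]; linarith, fun g hg => ?_⟩
  unfold nd nrm
  rw [Finset.mul_sum]
  refine Finset.sum_le_sum fun i _ => ?_
  rw [Finset.mul_sum]
  refine Finset.sum_le_sum fun l _ => ?_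
  have he : (D θ * g * (D θ)⁻¹).1 i l = Real.exp (cmp θ i - cmp θ l) * g.1 i l :=
    D_conj_entry θ g.1 i l
  rw [Matrix.sub_apply, Matrix.sub_apply, he]
  by_cases hil : i = l
  · subst hil
    rw [hg.1 i, sub_self, Real.exp_zero, Matrix.one_apply_eq]
    simp
  · rw [Matrix.one_apply_ne hil, sub_zero, sub_zero, abs_mul, Real.abs_exp]
    rcases lt_or_gt_of_ne (fun h => hil (hθ h) : cmp θ i ≠ cmp θ l) with h1 | h1
    · refine mul_le_mul_of_nonneg_right ?_ (abs_nonneg _)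
      rw [Real.exp_le_exp]
      have := hδ' i l hil
      rw [abs_of_neg (by linarith)] at this
      linarith
    · rw [hg.2 i l h1, abs_zero, mul_zero, mul_zero]

/-- No expansion of `Pp θ` under the inverse. -/
theorem Pp_nonexp (θ : ℝ × ℝ) {g : G} (hg : g ∈ Pp θ) (m : ℕ) :
    nd (((D θ) ^ m)⁻¹ * g * (D θ) ^ m) ≤ nd g := by
  have he : ∀ i l, (((D θ) ^ m)⁻¹ * g * (D θ) ^ m).1 i l =
      Real.exp (-(m : ℝ) * (cmp θ i - cmp θ l)) * g.1 i l := by
    intro i l
    have h1 : ((D θ) ^ m)⁻¹ = D (-((m : ℝ) • θ)) := by rw [D_neg, D_nsmul]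
    have h2 : (D θ) ^ m = (D (-((m : ℝ) • θ)))⁻¹ := by rw [← D_neg, neg_neg, D_nsmul]
    rw [h1, h2]
    refine (D_conj_entry (-((m : ℝ) • θ)) g.1 i l).trans ?_
    rw [cmp_neg, cmp_neg, cmp_smul, cmp_smul]
    congr 2
    ring
  unfold nd nrm
  refine Finset.sum_le_sum fun i _ => Finset.sum_le_sum fun l _ => ?_
  rw [Matrix.sub_apply, Matrix.sub_apply, he]
  by_cases hil : i = l
  · subst hil
    rw [sub_self, mul_zero, Real.exp_zero, one_mul]
  · rw [Matrix.one_apply_ne hil, sub_zero, sub_zero, abs_mul, Real.abs_exp]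
    by_cases h1 : cmp θ i < cmp θ l
    · rw [hg i l h1, abs_zero, mul_zero]
    · have h2 : Real.exp (-(m : ℝ) * (cmp θ i - cmp θ l)) ≤ 1 := by
        rw [Real.exp_le_one_iff]
        have h3 : 0 ≤ (m : ℝ) * (cmp θ i - cmp θ l) :=
          mul_nonneg (Nat.cast_nonneg _) (by linarith [not_lt.1 h1])
        linarith
      calc Real.exp (-(m : ℝ) * (cmp θ i - cmp θ l)) * |g.1 i l| ≤ 1 * |g.1 i l| :=
            mul_le_mul_of_nonneg_right h2 (abs_nonneg _)
        _ = |g.1 i l| := one_mul _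

/-- `gh - 1 = (g-1)(h-1) + (g-1) + (h-1)` -/
theorem one_add_nd_mul (g h : G) : 1 + nd (g * h) ≤ (1 + nd g) * (1 + nd h) := by
  unfold nd
  have e : (g * h).1 - 1 = (g.1 - 1) * (h.1 - 1) + ((g.1 - 1) + (h.1 - 1)) := by
    rw [Matrix.SpecialLinearGroup.coe_mul]; noncomm_ring
  rw [e]
  have h1 := nrm_add_le ((g.1 - 1) * (h.1 - 1)) ((g.1 - 1) + (h.1 - 1))
  have h2 := nrm_add_le (g.1 - 1) (h.1 - 1)
  have h3 := nrm_mul_le (g.1 - 1) (h.1 - 1)
  nlinarith

theorem LU_U_mem (θ : ℝ × ℝ) (i l : Fin 3) (h : i ≠ l) (hlt : cmp θ i < cmp θ l) (s : ℝ) :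
    U i l h s ∈ Nm θ := by
  refine ⟨fun a => ?_, fun a b hab => ?_⟩
  · change Matrix.transvection i l s a a = 1
    rw [Matrix.transvection, Matrix.add_apply, Matrix.one_apply_eq, Matrix.single_apply_of_ne,
      add_zero]
    rintro ⟨rfl, rfl⟩
    exact h rfl
  · change Matrix.transvection i l s a b = 0
    rw [Matrix.transvection, Matrix.add_apply, Matrix.one_apply_ne, Matrix.single_apply_of_ne,
      add_zero]
    · rintro ⟨rfl, rfl⟩
      exact lt_asymm hlt hab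
    · rintro rfl
      exact lt_irrefl _ hab

theorem LU_sort (θ : ℝ × ℝ) (hθ : Reg θ) : ∃ a b c : Fin 3, a ≠ b ∧ a ≠ c ∧ b ≠ c ∧
    (∀ j, j = a ∨ j = b ∨ j = c) ∧ cmp θ b < cmp θ a ∧ cmp θ c < cmp θ b := by
  have hne : ∀ i l : Fin 3, i ≠ l → cmp θ i ≠ cmp θ l := fun i l h h' => h (hθ h')
  rcases lt_or_gt_of_ne (hne 0 1 (by decide)) with h1 | h1 <;>
  rcases lt_or_gt_of_ne (hne 0 2 (by decide)) with h2 | h2 <;>
  rcases lt_or_gt_of_ne (hne 1 2 (by decide)) with h3 | h3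
  · exact ⟨2, 1, 0, by decide, by decide, by decide, by decide, h3, h1⟩
  · exact ⟨1, 2, 0, by decide, by decide, by decide, by decide, h3, h2⟩
  · exact absurd (h1.trans h3) (not_lt.2 h2.le)
  · exact ⟨1, 0, 2, by decide, by decide, by decide, by decide, h1, h2⟩
  · exact ⟨2, 0, 1, by decide, by decide, by decide, by decide, h2, h1⟩
  · exact absurd (h2.trans h3) (not_lt.2 h1.le)
  · exact ⟨0, 2, 1, by decide, by decide, by decide, by decide, h2, h3⟩
  · exact ⟨0, 1, 2, by decide, by decide, by decide, by decide, h1, h3⟩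

/-- LU decomposition near `1`.  After the permutation of the coordinates which makes `cmp θ` decreasing, `Nm` is the lower unipotent and `Pp` the
upper triangular group: explicit elimination (`m11`, and the 2 by 2 minor, are near `1`). -/
theorem lu (θ : ℝ × ℝ) (hθ : Reg θ) :
    ∃ ρ : ℝ, 0 < ρ ∧ ∃ C : ℝ, 1 ≤ C ∧ ∀ m : G, nd m ≤ ρ →
      ∃ s ∈ Nm θ, ∃ p ∈ Pp θ, m = s * p ∧ nd s ≤ C * nd m ∧ nd p ≤ C * nd m := by
  obtain ⟨a, b, c, hab, hac, hbc, hcov, hba, hcb⟩ := LU_sort θ hθ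
  refine ⟨1 / 20, by norm_num, 40, by norm_num, fun m hm => ?_⟩
  set η := nd m with hη
  have hη0 : 0 ≤ η := nd_nonneg m
  have hoff : ∀ i l, i ≠ l → |m.1 i l| ≤ η := by
    intro i l h
    have := abs_le_nrm (m.1 - 1) i l
    rwa [Matrix.sub_apply, Matrix.one_apply_ne h, sub_zero] at this
  have hdiag : ∀ i, |m.1 i i - 1| ≤ η := by
    intro i
    have := abs_le_nrm (m.1 - 1) i i
    rwa [Matrix.sub_apply, Matrix.one_apply_eq] at this
  have hdpos : ∀ i, 1 - η ≤ m.1 i i := fun i => by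
    have := (abs_le.1 (hdiag i)).1
    linarith
  have haa : 19 / 20 ≤ m.1 a a := by linarith [hdpos a]
  set x := m.1 b a / m.1 a a with hx
  set y := m.1 c a / m.1 a a with hy
  have hquot : ∀ t q : ℝ, |t| ≤ η → 19 / 20 ≤ q → |t / q| ≤ 11 / 10 * η := by
    intro t q ht hq
    rw [abs_div, abs_of_pos (by linarith : 0 < q), div_le_iff₀ (by linarith)]
    nlinarith
  have hxb : |x| ≤ 11 / 10 * η := hquot _ _ (hoff b a hab.symm) haa
  have hyb : |y| ≤ 11 / 10 * η := hquot _ _ (hoff c a hac.symm) haa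
  have hmab : |m.1 a b| ≤ η := hoff a b hab
  have hxm : |x * m.1 a b| ≤ 11 / 200 * η := by
    rw [abs_mul]
    nlinarith [abs_nonneg x, abs_nonneg (m.1 a b)]
  have hym : |y * m.1 a b| ≤ 11 / 200 * η := by
    rw [abs_mul]
    nlinarith [abs_nonneg y, abs_nonneg (m.1 a b)]
  have hden : 9 / 10 ≤ m.1 b b - x * m.1 a b := by
    have := (abs_le.1 hxm).2
    linarith [hdpos b]
  set z := (m.1 c b - y * m.1 a b) / (m.1 b b - x * m.1 a b) with hz
  have hzb : |z| ≤ 6 / 5 * η := by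
    rw [hz, abs_div, abs_of_pos (by linarith : 0 < m.1 b b - x * m.1 a b),
      div_le_iff₀ (by linarith)]
    have h1 : |m.1 c b - y * m.1 a b| ≤ |m.1 c b| + |y * m.1 a b| := abs_sub _ _
    have h2 := hoff c b hbc.symm
    nlinarith
  have hxe : m.1 b a - x * m.1 a a = 0 := by
    rw [hx, div_mul_cancel₀ _ (by linarith), sub_self]
  have hye : m.1 c a - y * m.1 a a = 0 := by
    rw [hy, div_mul_cancel₀ _ (by linarith), sub_self]
  have hze : (m.1 c b - y * m.1 a b) - z * (m.1 b b - x * m.1 a b) = 0 := by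
    rw [hz, div_mul_cancel₀ _ (by linarith), sub_self]
  let s : G := U b a hab.symm x * (U c a hac.symm y * U c b hbc.symm z)
  let p : G := U c b hbc.symm (-z) * (U c a hac.symm (-y) * (U b a hab.symm (-x) * m))
  have hsp : m = s * p := by
    change m = U b a hab.symm x * (U c a hac.symm y * U c b hbc.symm z) *
      (U c b hbc.symm (-z) * (U c a hac.symm (-y) * (U b a hab.symm (-x) * m)))
    rw [U_neg, U_neg, U_neg]
    group
  have hs : s ∈ Nm θ :=
    Nm_mul θ hθ (LU_U_mem θ b a _ hba x) (Nm_mul θ hθ (LU_U_mem θ c a _ (hcb.trans hba) y)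
      (LU_U_mem θ c b _ hcb z))
  -- entries of `p`
  set m1 : Mat := Matrix.transvection b a (-x) * m.1 with hm1
  set m2 : Mat := Matrix.transvection c a (-y) * m1 with hm2
  have hp1 : p.1 = Matrix.transvection c b (-z) * m2 := rfl
  have e1 : ∀ l, m1 b l = m.1 b l - x * m.1 a l := by
    intro l
    rw [hm1, Matrix.transvection_mul_apply_same]
    ring
  have e2 : ∀ i l, i ≠ b → m1 i l = m.1 i l := by
    intro i l hi
    rw [hm1, Matrix.transvection_mul_apply_of_ne _ _ _ _ hi]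
  have e3 : ∀ l, m2 c l = m.1 c l - y * m.1 a l := by
    intro l
    rw [hm2, Matrix.transvection_mul_apply_same, e2 c l hbc.symm, e2 a l hab]
    ring
  have e4 : ∀ i l, i ≠ c → m2 i l = m1 i l := by
    intro i l hi
    rw [hm2, Matrix.transvection_mul_apply_of_ne _ _ _ _ hi]
  have e5 : ∀ l, p.1 c l = (m.1 c l - y * m.1 a l) - z * (m.1 b l - x * m.1 a l) := by
    intro l
    rw [hp1, Matrix.transvection_mul_apply_same, e3, e4 b l hbc, e1]
    ring
  have e6 : ∀ l, p.1 b l = m.1 b l - x * m.1 a l := by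
    intro l
    rw [hp1, Matrix.transvection_mul_apply_of_ne _ _ _ _ hbc, e4 b l hbc, e1]
  have hp : p ∈ Pp θ := by
    intro i l hil
    rcases hcov i with rfl | rfl | rfl <;> rcases hcov l with rfl | rfl | rfl
    · exact absurd hil (lt_irrefl _)
    · exact absurd hil (lt_asymm hba)
    · exact absurd hil (lt_asymm (hcb.trans hba))
    · rw [e6, hxe]
    · exact absurd hil (lt_irrefl _)
    · exact absurd hil (lt_asymm hcb)
    · rw [e5, hye, hxe, mul_zero, sub_zero]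
    · rw [e5, hze]
    · exact absurd hil (lt_irrefl _)
  have hnds : nd s ≤ 5 * η := by
    have h1 := one_add_nd_mul (U b a hab.symm x) (U c a hac.symm y * U c b hbc.symm z)
    have h2 := one_add_nd_mul (U c a hac.symm y) (U c b hbc.symm z)
    rw [nd_U] at h1
    rw [nd_U, nd_U] at h2
    have h3 : 1 + nd s ≤ (1 + |x|) * ((1 + |y|) * (1 + |z|)) :=
      h1.trans (mul_le_mul_of_nonneg_left h2 (by positivity))
    have h4 : (1 + |y|) * (1 + |z|) ≤ (1 + 6 / 5 * η) * (1 + 6 / 5 * η) :=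
      mul_le_mul (by linarith) (by linarith) (by positivity) (by positivity)
    have h5 : (1 + |x|) * ((1 + |y|) * (1 + |z|)) ≤
        (1 + 6 / 5 * η) * ((1 + 6 / 5 * η) * (1 + 6 / 5 * η)) :=
      mul_le_mul (by linarith) h4 (by positivity) (by positivity)
    have h6 : (1 + 6 / 5 * η) * ((1 + 6 / 5 * η) * (1 + 6 / 5 * η)) ≤ 1 + 5 * η := by
      nlinarith [mul_nonneg hη0 hη0, mul_nonneg (mul_nonneg hη0 hη0) hη0]
    linarith
  refine ⟨s, hs, p, hp, hsp, by linarith, ?_⟩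
  have hpe : p = s⁻¹ * m := by rw [hsp]; group
  have h7 := nd_mul_le s⁻¹ m
  rw [← hpe] at h7
  have h8 := nd_inv_le_of_small s (by linarith)
  have h9 := nrm_le_nd m
  have h10 : nd s⁻¹ * nrm m.1 ≤ (10 * η) * (61 / 20) :=
    mul_le_mul (by linarith) (by linarith) (nrm_nonneg _) (by positivity)
  linarith

end Pool.Agent.H88.LF
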