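import Pool.Agent.H88.LF.LU

/-!
# LUB: the shadowing lemma in the group (blueprint section 5)
-/

set_option autoImplicit false

open Set Filter
open scoped Topology

namespace Pool.Agent.H88.LF

/-- One step of the construction. -/
theorem lub_step (θ : ℝ × ℝ) (hθ : Reg θ) :
    ∃ ρ : ℝ, 0 < ρ ∧ ∃ C : ℝ, 1 ≤ C ∧ ∀ t ζ : G, t ∈ Nm θ → nd t ≤ 1 → nd ζ ≤ ρ →
      ∃ x : G × G, x.1 ∈ Nm θ ∧ x.2 ∈ Pp θ ∧ ζ * (D θ * t * (D θ)⁻¹) = x.1 * x.2 ∧
        nd x.1 ≤ nd t + C * nd ζ ∧ nd x.2 ≤ C * nd ζ := by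
  obtain ⟨c, hc0, hc1, hcon⟩ := Nm_contract θ hθ
  obtain ⟨ρ, hρ, C, hC, hlu⟩ := lu θ hθ
  refine ⟨ρ / 64, by positivity, 256 * C, by linarith, ?_⟩
  intro t ζ ht ht1 hζ
  set n0 : G := D θ * t * (D θ)⁻¹ with hn0
  have hn0m : n0 ∈ Nm θ := Nm_conj θ ht θ
  have hndt := nd_nonneg t
  have hndζ := nd_nonneg ζ
  have hn0d : nd n0 ≤ nd t := by
    have h1 := hcon t ht
    nlinarith
  have hn01 : nrm n0.1 ≤ 4 := by
    have := nrm_le_nd n0
    linarith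
  have hn0pos := nrm_nonneg n0.1
  have hn02 : nrm (n0⁻¹).1 ≤ 16 := by
    have := nrm_inv_le n0
    nlinarith
  have hm : nd (n0⁻¹ * ζ * n0) ≤ 64 * nd ζ := by
    have h1 := nd_conj_le n0⁻¹ ζ
    rw [inv_inv] at h1
    have h2 : nrm (n0⁻¹).1 * nd ζ * nrm n0.1 ≤ 16 * nd ζ * 4 := by
      have := nrm_nonneg (n0⁻¹).1
      gcongr
    linarith
  obtain ⟨s, hs, p, hp, hsp, hsd, hpd⟩ := hlu (n0⁻¹ * ζ * n0) (by linarith)
  refine ⟨(n0 * s, p), Nm_mul θ hθ hn0m hs, hp, ?_, ?_, ?_⟩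
  · show ζ * n0 = n0 * s * p
    rw [mul_assoc, ← hsp]
    group
  · show nd (n0 * s) ≤ _
    have h1 := nd_mul_le' n0 s
    have h2 : nrm n0.1 * nd s ≤ 4 * (C * (64 * nd ζ)) := by
      have h3 : nd s ≤ C * (64 * nd ζ) := hsd.trans (by gcongr)
      have := nd_nonneg s
      gcongr
    linarith
  · show nd p ≤ _
    have h3 : nd p ≤ C * (64 * nd ζ) := hpd.trans (by gcongr)
    nlinarith

theorem lub_exp_le {x : ℝ} (h0 : 0 ≤ x) (h1 : x ≤ 1 / 2) : Real.exp x ≤ 1 + 2 * x := by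
  have h2 := Real.one_sub_le_exp_neg x
  have h3 : Real.exp x * Real.exp (-x) = 1 := by rw [← Real.exp_add]; simp
  have h4 := Real.exp_pos x
  nlinarith

/-- Shadowing in the group.  `a = D θ`, `Y (j+1) = ζ j * a * Y j` with small `ζ j` of small sum.  Then one group element `q` near `1` satisfies
`a^j q Y 0 = δ_j Y j` with `δ_j` near `1` for all `j ≤ n`.
Proof.  Construct `t_j ∈ Nm θ`, `p_j ∈ Pp θ`, `q_j` with `t_0 = 1`, `q_0 = 1`, `Y j = t_j a^j q_j (Y 0)`: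
`Y (j+1) = ζ_j (a t_j a⁻¹) a^{j+1} q_j Y 0`; put `n = a t_j a⁻¹ ∈ Nm`, `n⁻¹ ζ_j n = s̃ p̃` (`lu`), `t_{j+1} = n s̃`, `q_{j+1} = (a^{-(j+1)} p̃ a^{j+1}) q_j`.
`nd p̃, nd s̃ ≤ C' nd(ζ_j)` as long as `nd t_j ≤ 1`; `nd t_{j+1} ≤ c nd t_j + C'' nd ζ_j`, so all `nd t_j ≤ C''' ∑ nd ζ_i`.  `q = q_n`;
`a^j q_n q_j⁻¹ a^{-j}` is the product over `i = n-1, ..., j` of `a^{-(i+1-j)} p̃_i a^{i+1-j}`, factors of size `≤ nd p̃_i` (`Pp_nonexp`), so of size
`≤ exp(∑ nd p̃_i) - 1` (`one_add_nd_mul`); `a^j q Y 0 = [a^j q_n q_j⁻¹ a^{-j}] t_j⁻¹ Y j`. -/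
theorem shadow (θ : ℝ × ℝ) (hθ : Reg θ) :
    ∃ c0 : ℝ, 0 < c0 ∧ ∃ C : ℝ, 1 ≤ C ∧ ∀ (n : ℕ) (ζ Y : ℕ → G),
      (∑ j ∈ Finset.range n, nd (ζ j)) ≤ c0 → (∀ j, j < n → Y (j + 1) = ζ j * D θ * Y j) →
      ∃ q : G, nd q ≤ C * ∑ j ∈ Finset.range n, nd (ζ j) ∧
        ∀ j, j ≤ n → ∃ δ : G, nd δ ≤ C * ∑ j ∈ Finset.range n, nd (ζ j) ∧
          (D θ) ^ j * (q * Y 0) = δ * Y j := by
  obtain ⟨ρ, hρ, C, hC, hstep⟩ := lub_step θ hθ
  have hstep' : ∀ t ζ : G, ∃ x : G × G, t ∈ Nm θ → nd t ≤ 1 → nd ζ ≤ ρ →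
      x.1 ∈ Nm θ ∧ x.2 ∈ Pp θ ∧ ζ * (D θ * t * (D θ)⁻¹) = x.1 * x.2 ∧
        nd x.1 ≤ nd t + C * nd ζ ∧ nd x.2 ≤ C * nd ζ := by
    intro t ζ
    by_cases h : t ∈ Nm θ ∧ nd t ≤ 1 ∧ nd ζ ≤ ρ
    · obtain ⟨x, hx⟩ := hstep t ζ h.1 h.2.1 h.2.2
      exact ⟨x, fun _ _ _ => hx⟩
    · exact ⟨(1, 1), fun h1 h2 h3 => absurd ⟨h1, h2, h3⟩ h⟩
  choose F hF using hstep'
  set a : G := D θ with ha
  refine ⟨min ρ (1 / (2 * C)), lt_min hρ (by positivity), 8 * C, by linarith, ?_⟩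
  intro n ζ Y hS hY
  set S : ℝ := ∑ j ∈ Finset.range n, nd (ζ j) with hSdef
  have hSρ : S ≤ ρ := hS.trans (min_le_left _ _)
  have hSC : C * S ≤ 1 / 2 := by
    have h1 : S ≤ 1 / (2 * C) := hS.trans (min_le_right _ _)
    rw [le_div_iff₀ (by positivity)] at h1
    linarith
  have hS0 : 0 ≤ S := Finset.sum_nonneg fun _ _ => nd_nonneg _
  have hpart : ∀ j, j ≤ n → ∑ i ∈ Finset.range j, nd (ζ i) ≤ S := fun j hj =>
    Finset.sum_le_sum_of_subset_of_nonneg (Finset.range_mono hj) (fun _ _ _ => nd_nonneg _)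
  have hζρ : ∀ j, j < n → nd (ζ j) ≤ ρ := fun j hj =>
    (Finset.single_le_sum (f := fun i => nd (ζ i)) (fun _ _ => nd_nonneg _)
      (Finset.mem_range.2 hj)).trans hSρ
  -- the sequences
  let t : ℕ → G := fun j => Nat.rec 1 (fun j tj => (F tj (ζ j)).1) j
  have t0 : t 0 = 1 := rfl
  have tS : ∀ j, t (j + 1) = (F (t j) (ζ j)).1 := fun j => rfl
  let p : ℕ → G := fun j => (F (t j) (ζ j)).2
  let q : ℕ → G := fun j => Nat.rec 1 (fun j qj => ((a ^ (j + 1))⁻¹ * p j * a ^ (j + 1)) * qj) j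
  have q0 : q 0 = 1 := rfl
  have qS : ∀ j, q (j + 1) = ((a ^ (j + 1))⁻¹ * p j * a ^ (j + 1)) * q j := fun j => rfl
  have hinv : ∀ j, j ≤ n → t j ∈ Nm θ ∧ nd (t j) ≤ C * ∑ i ∈ Finset.range j, nd (ζ i) := by
    intro j
    induction j with
    | zero =>
      intro _
      rw [t0]
      exact ⟨one_mem_Nm θ hθ, by rw [nd_one]; simp⟩
    | succ j ih =>
      intro hj
      obtain ⟨h1, h2⟩ := ih (by omega)
      have h3 : nd (t j) ≤ 1 := by
        have := hpart j (by omega)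
        nlinarith
      obtain ⟨h4, _, _, h7, _⟩ := hF (t j) (ζ j) h1 h3 (hζρ j (by omega))
      rw [tS]
      refine ⟨h4, ?_⟩
      rw [Finset.sum_range_succ, mul_add]
      linarith
  have hinv1 : ∀ j, j ≤ n → nd (t j) ≤ C * S := fun j hj =>
    (hinv j hj).2.trans (by have := hpart j hj; gcongr)
  have hdat : ∀ j, j < n → p j ∈ Pp θ ∧ ζ j * (a * t j * a⁻¹) = t (j + 1) * p j ∧
      nd (p j) ≤ C * nd (ζ j) := by
    intro j hj
    have h3 : nd (t j) ≤ 1 := (hinv1 j hj.le).trans (by linarith)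
    obtain ⟨_, h5, h6, _, h8⟩ := hF (t j) (ζ j) (hinv j hj.le).1 h3 (hζρ j hj)
    exact ⟨h5, h6, h8⟩
  have hY' : ∀ j, j ≤ n → Y j = t j * a ^ j * q j * Y 0 := by
    intro j
    induction j with
    | zero => intro _; rw [t0, q0]; simp
    | succ j ih =>
      intro hj
      obtain ⟨_, h6, _⟩ := hdat j (by omega)
      rw [hY j (by omega), ih (by omega)]
      have h7 : t (j + 1) * a ^ (j + 1) * q (j + 1) * Y 0 =
          (t (j + 1) * p j) * (a ^ (j + 1) * q j * Y 0) := by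
        rw [qS]
        group
      rw [h7, ← h6, pow_succ']
      group
  -- the products
  have hR : ∀ j m, j ≤ m → m ≤ n → 1 + nd (a ^ j * (q m * (q j)⁻¹) * (a ^ j)⁻¹) ≤
      Real.exp (C * ∑ i ∈ Finset.range m, nd (ζ i)) := by
    intro j m hjm
    induction m, hjm using Nat.le_induction with
    | base =>
      intro _
      have : a ^ j * (q j * (q j)⁻¹) * (a ^ j)⁻¹ = 1 := by group
      rw [this, nd_one, add_zero]
      exact Real.one_le_exp (mul_nonneg (by linarith)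
        (Finset.sum_nonneg fun _ _ => nd_nonneg _))
    | succ m hjm ih =>
      intro hm
      obtain ⟨h5, _, h8⟩ := hdat m (by omega)
      have h9 := ih (by omega)
      have h10 : a ^ j * (q (m + 1) * (q j)⁻¹) * (a ^ j)⁻¹ =
          ((a ^ (m + 1 - j))⁻¹ * p m * a ^ (m + 1 - j)) *
            (a ^ j * (q m * (q j)⁻¹) * (a ^ j)⁻¹) := by
        obtain ⟨d, rfl⟩ := Nat.exists_eq_add_of_le hjm
        have h11 : j + d + 1 - j = d + 1 := by omega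
        rw [qS, h11, show j + d + 1 = (d + 1) + j from by ring, pow_add a (d + 1) j]
        group
      rw [h10]
      refine (one_add_nd_mul _ _).trans ?_
      have h12 : 1 + nd ((a ^ (m + 1 - j))⁻¹ * p m * a ^ (m + 1 - j)) ≤
          Real.exp (C * nd (ζ m)) := by
        have h13 := Pp_nonexp θ h5 (m + 1 - j)
        have h14 := Real.add_one_le_exp (C * nd (ζ m))
        linarith
      have h16 : C * ∑ i ∈ Finset.range (m + 1), nd (ζ i) =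
          C * nd (ζ m) + C * ∑ i ∈ Finset.range m, nd (ζ i) := by
        rw [Finset.sum_range_succ]; ring
      rw [h16, Real.exp_add]
      have h15 := nd_nonneg (a ^ j * (q m * (q j)⁻¹) * (a ^ j)⁻¹)
      exact mul_le_mul h12 h9 (by linarith) (Real.exp_pos _).le
  have hR' : ∀ j, j ≤ n → nd (a ^ j * (q n * (q j)⁻¹) * (a ^ j)⁻¹) ≤ 2 * (C * S) := by
    intro j hj
    have h1 := hR j n hj le_rfl
    have h2 := lub_exp_le (x := C * S) (mul_nonneg (by linarith) hS0) hSC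
    linarith
  refine ⟨q n, ?_, ?_⟩
  · have h1 := hR' 0 (Nat.zero_le n)
    rw [q0] at h1
    simp only [pow_zero, inv_one, mul_one, one_mul] at h1
    nlinarith
  · intro j hj
    refine ⟨a ^ j * (q n * (q j)⁻¹) * (a ^ j)⁻¹ * (t j)⁻¹, ?_, ?_⟩
    · have h1 := hR' j hj
      have h2 := hinv1 j hj
      have h3 := nd_inv_le_of_small (t j) (h2.trans hSC)
      have h4 := one_add_nd_mul (a ^ j * (q n * (q j)⁻¹) * (a ^ j)⁻¹) (t j)⁻¹
      have h5 := nd_nonneg (a ^ j * (q n * (q j)⁻¹) * (a ^ j)⁻¹)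
      have h6 := nd_nonneg (t j)⁻¹
      have h7 : (1 + nd (a ^ j * (q n * (q j)⁻¹) * (a ^ j)⁻¹)) * (1 + nd (t j)⁻¹) ≤
          (1 + 2 * (C * S)) * (1 + 2 * (C * S)) := by
        apply mul_le_mul
        · linarith
        · linarith
        · linarith
        · nlinarith
      have h8 : (C * S) * (C * S) ≤ (C * S) * (1 / 2) :=
        mul_le_mul_of_nonneg_left hSC (mul_nonneg (by linarith) hS0)
      nlinarith
    · rw [hY' j hj]
      group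

end Pool.Agent.H88.LF
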