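import Pool.Agent.H88.LF.FBC
import Pool.Agent.H88.LF.GBD

/-!
# MUCV: change of variables along one arrow

`∫_{F} W(h',τ) dh'dτ = ∫_{E} W(h kf(t);j,τf(t)) |τf'(t)| dh dt = ∫_{E} W(h;i,t) dh dt`: right invariance of Haar measure for fixed
`t` (Tonelli), one-dimensional change of variables (`lintegral_image_eq_lintegral_abs_deriv_mul`), and `rule` (`FB.eventually_arr`, `FB.eventually_dτ`).  The map is injective on `|t-t0| < ε`.
-/

set_option autoImplicit false

open MeasureTheory Set Filter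
open scoped Topology ENNReal

namespace Pool.Agent.H88.LF

variable {X : Type} [MetricSpace X] [CompactSpace X] [MulAction G X] [ContinuousSMul G X]
  [MeasurableSpace X] [BorelSpace X]

instance MUCV_polish : PolishSpace G := by
  have : PolishSpace Mat := inferInstanceAs (PolishSpace (Fin 3 → Fin 3 → ℝ))
  exact closedEmb_val.polishSpace

/-- `|t - t0| < ε` -/
theorem MUCV_meas (t0 ε : ℝ) : MeasurableSet {t : ℝ | |t - t0| < ε} :=
  (isOpen_lt ((continuous_id.sub continuous_const).abs) continuous_const).measurableSet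

omit [CompactSpace X] [ContinuousSMul G X] [MeasurableSpace X] [BorelSpace X] in
theorem MUCV_near {S : FB X} {i j : Fin S.n} {t0 τ0 : ℝ} {k0 : G}
    (h : S.Arr i j t0 τ0 k0) :
    ∃ ε > 0, (∀ t, |t - t0| < ε → S.Arr i j t (S.τf i j t0 τ0 k0 t) (S.kf i j t0 τ0 k0 t) ∧
      DifferentiableAt ℝ (S.τf i j t0 τ0 k0) t ∧ ContinuousAt (S.kf i j t0 τ0 k0) t ∧
      S.dτ i j t (S.τf i j t0 τ0 k0 t) (S.kf i j t0 τ0 k0 t) = deriv (S.τf i j t0 τ0 k0) t) ∧
      InjOn (S.τf i j t0 τ0 k0) {t | |t - t0| < ε} := by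
  have hcd : ContDiffAt ℝ 2 (S.τf i j t0 τ0 k0) t0 := (S.kf_τf_spec h).2.2.2.1
  have hd0 : deriv (S.τf i j t0 τ0 k0) t0 ≠ 0 := (S.kf_τf_spec h).2.2.2.2.1
  have hsd : HasStrictDerivAt (S.τf i j t0 τ0 k0) (deriv (S.τf i j t0 τ0 k0) t0) t0 :=
    hcd.hasStrictDerivAt (by norm_num)
  have hli := hsd.eventually_left_inverse hd0
  have hev := ((S.eventually_arr h).and ((S.eventually_contDiffAt h).and
    (S.eventually_dτ h))).and hli
  obtain ⟨ε, hε, hball⟩ := Metric.eventually_nhds_iff.1 hev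
  refine ⟨ε, hε, fun t ht => ?_, ?_⟩
  · have h1 := (hball (y := t) (by rwa [Real.dist_eq])).1
    exact ⟨h1.1, h1.2.1.2.1.differentiableAt (by norm_num), h1.2.1.2.2, h1.2.2.1⟩
  · intro t ht t' ht' hEq
    have h1 := (hball (y := t) (by rwa [Real.dist_eq])).2
    have h2 := (hball (y := t') (by rwa [Real.dist_eq])).2
    rw [← h1, ← h2, hEq]

omit [CompactSpace X] [ContinuousSMul G X] [MeasurableSpace X] [BorelSpace X] in
theorem MUCV_meas_W {S : FB X} (T : TN S) (j : Fin S.n) :
    Measurable ({p : G × ℝ | |p.2| < 1}.indicator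
      (fun p : G × ℝ => ENNReal.ofReal (T.W p.1 j p.2))) := by
  classical
  have hop : IsOpen {p : G × ℝ | |p.2| < 1} :=
    isOpen_lt (continuous_snd.abs) continuous_const
  have h1 : ContinuousOn (fun p : G × ℝ => ENNReal.ofReal (T.W p.1 j p.2)) {p | |p.2| < 1} :=
    ENNReal.continuous_ofReal.comp_continuousOn (T.cont j)
  have h2 := h1.measurable_piecewise (g := fun _ => (0 : ℝ≥0∞)) continuousOn_const
    hop.measurableSet
  exact h2

/-- Change of variables for the continuation of one arrow: pieces `E'` of box `i` and `F'` of box `j` which correspond. -/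
theorem TN.change_of_var {S : FB X} (T : TN S) {i j : Fin S.n} {t0 τ0 : ℝ} {k0 : G}
    (h : S.Arr i j t0 τ0 k0) :
    ∃ ε > 0, ∀ (E' : Set (G × ℝ)), MeasurableSet E' → (∀ p ∈ E', |p.2 - t0| < ε) →
      (MeasurableSet ((fun p : G × ℝ => (p.1 * S.kf i j t0 τ0 k0 p.2,
          S.τf i j t0 τ0 k0 p.2)) '' E')) ∧
      ∫⁻ p in (fun p : G × ℝ => (p.1 * S.kf i j t0 τ0 k0 p.2, S.τf i j t0 τ0 k0 p.2)) '' E',
        ENNReal.ofReal (T.W p.1 j p.2) ∂(hG.prod volume) =
      ∫⁻ p in E', ENNReal.ofReal (T.W p.1 i p.2) ∂(hG.prod volume) := by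
  obtain ⟨ε, hε, hgood, hinj⟩ := MUCV_near h
  refine ⟨ε, hε, fun E' hE' hEε => ?_⟩
  set kf := S.kf i j t0 τ0 k0 with hkf
  set τf := S.τf i j t0 τ0 k0 with hτf
  set Φ : G × ℝ → G × ℝ := fun p => (p.1 * kf p.2, τf p.2) with hΦ
  set I0 : Set ℝ := {t | |t - t0| < ε} with hI0
  have hI0m : MeasurableSet I0 := MUCV_meas t0 ε
  have hτc : ContinuousOn τf I0 := fun t ht => (hgood t ht).2.1.continuousAt.continuousWithinAt
  have hΦc : ContinuousOn Φ E' := by
    intro p hp
    have h1 := hgood p.2 (hEε p hp)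
    have h2 : ContinuousAt (fun p : G × ℝ => kf p.2) p :=
      ContinuousAt.comp (f := fun p : G × ℝ => p.2) h1.2.2.1 continuousAt_snd
    have h3 : ContinuousAt (fun p : G × ℝ => τf p.2) p :=
      ContinuousAt.comp (f := fun p : G × ℝ => p.2) h1.2.1.continuousAt continuousAt_snd
    exact ((continuousAt_fst.mul h2).prodMk h3).continuousWithinAt
  have hΦi : ∀ p p' : G × ℝ, p.2 ∈ I0 → p'.2 ∈ I0 → Φ p = Φ p' → p = p' := by
    intro p p' hp hp' hEq
    have h1 : τf p.2 = τf p'.2 := congrArg Prod.snd hEq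
    have h2 : p.2 = p'.2 := hinj hp hp' h1
    have h3 : p.1 * kf p.2 = p'.1 * kf p'.2 := congrArg Prod.fst hEq
    rw [h2] at h3
    exact Prod.ext (mul_right_cancel h3) h2
  have hΦinj : InjOn Φ E' := fun p hp p' hp' hEq => hΦi p p' (hEε p hp) (hEε p' hp') hEq
  have hF : MeasurableSet (Φ '' E') := hE'.image_of_continuousOn_injOn hΦc hΦinj
  refine ⟨hF, ?_⟩
  have hJm : MeasurableSet (τf '' I0) := hI0m.image_of_continuousOn_injOn hτc hinj
  have harr : ∀ t ∈ I0, |t| < 1 ∧ |τf t| < 1 := fun t ht => ⟨(hgood t ht).1.1, (hgood t ht).1.2.1⟩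
  -- measurability of the integrands
  have hm1 : Measurable ((Φ '' E').indicator
      (fun p : G × ℝ => ENNReal.ofReal (T.W p.1 j p.2))) := by
    have h1 : (Φ '' E').indicator (fun p : G × ℝ => ENNReal.ofReal (T.W p.1 j p.2))
        = (Φ '' E').indicator ({p : G × ℝ | |p.2| < 1}.indicator
          (fun p : G × ℝ => ENNReal.ofReal (T.W p.1 j p.2))) := by
      rw [indicator_indicator]
      congr 1
      refine (inter_eq_self_of_subset_left ?_).symm
      rintro _ ⟨p, hp, rfl⟩
      exact (harr p.2 (hEε p hp)).2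
    rw [h1]
    exact (MUCV_meas_W T j).indicator hF
  have hm2 : Measurable (E'.indicator
      (fun p : G × ℝ => ENNReal.ofReal (T.W p.1 i p.2))) := by
    have h1 : E'.indicator (fun p : G × ℝ => ENNReal.ofReal (T.W p.1 i p.2))
        = E'.indicator ({p : G × ℝ | |p.2| < 1}.indicator
          (fun p : G × ℝ => ENNReal.ofReal (T.W p.1 i p.2))) := by
      rw [indicator_indicator]
      congr 1
      refine (inter_eq_self_of_subset_left ?_).symm
      intro p hp
      exact (harr p.2 (hEε p hp)).1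
    rw [h1]
    exact (MUCV_meas_W T i).indicator hE'
  rw [← lintegral_indicator hF, ← lintegral_indicator hE',
    lintegral_prod_symm _ hm1.aemeasurable, lintegral_prod_symm _ hm2.aemeasurable]
  -- the left side is concentrated on the image of the interval
  have hA : (fun τ : ℝ => ∫⁻ g, (Φ '' E').indicator
      (fun p : G × ℝ => ENNReal.ofReal (T.W p.1 j p.2)) (g, τ) ∂hG)
      = (τf '' I0).indicator (fun τ : ℝ => ∫⁻ g, (Φ '' E').indicator
      (fun p : G × ℝ => ENNReal.ofReal (T.W p.1 j p.2)) (g, τ) ∂hG) := by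
    funext τ
    by_cases hτ : τ ∈ τf '' I0
    · rw [indicator_of_mem hτ]
    · rw [indicator_of_notMem hτ]
      have h1 : ∀ g : G, (Φ '' E').indicator
          (fun p : G × ℝ => ENNReal.ofReal (T.W p.1 j p.2)) (g, τ) = 0 := by
        intro g
        refine indicator_of_notMem ?_ _
        rintro ⟨p, hp, hEq⟩
        exact hτ ⟨p.2, hEε p hp, congrArg Prod.snd hEq⟩
      simp only [h1, lintegral_zero]
  have hB : (fun t : ℝ => ∫⁻ g, E'.indicator
      (fun p : G × ℝ => ENNReal.ofReal (T.W p.1 i p.2)) (g, t) ∂hG)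
      = I0.indicator (fun t : ℝ => ∫⁻ g, E'.indicator
      (fun p : G × ℝ => ENNReal.ofReal (T.W p.1 i p.2)) (g, t) ∂hG) := by
    funext t
    by_cases ht : t ∈ I0
    · rw [indicator_of_mem ht]
    · rw [indicator_of_notMem ht]
      have h1 : ∀ g : G, E'.indicator
          (fun p : G × ℝ => ENNReal.ofReal (T.W p.1 i p.2)) (g, t) = 0 := by
        intro g
        refine indicator_of_notMem ?_ _
        intro hp
        exact ht (hEε _ hp)
      simp only [h1, lintegral_zero]
  rw [hA, hB, lintegral_indicator hJm, lintegral_indicator hI0m,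
    lintegral_image_eq_lintegral_abs_deriv_mul hI0m
      (fun t ht => (hgood t ht).2.1.hasDerivAt.hasDerivWithinAt) hinj]
  refine setLIntegral_congr_fun hI0m fun t ht => ?_
  rw [← lintegral_mul_right _ (kf t), ← lintegral_const_mul' _ _ ENNReal.ofReal_ne_top]
  refine lintegral_congr fun g => ?_
  have h1 : ((g * kf t, τf t) : G × ℝ) = Φ (g, t) := rfl
  rw [h1]
  by_cases hg : ((g, t) : G × ℝ) ∈ E'
  · rw [indicator_of_mem (mem_image_of_mem Φ hg), indicator_of_mem hg]
    have h2 := T.rule i j t (τf t) (kf t) (hgood t ht).1 g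
    rw [h2, (hgood t ht).2.2.2, mul_comm, ENNReal.ofReal_mul' (abs_nonneg _)]
  · rw [indicator_of_notMem hg, indicator_of_notMem, mul_zero]
    rintro ⟨p, hp, hEq⟩
    have h2 := hΦi p (g, t) (hEε p hp) ht hEq
    rw [h2] at hp
    exact hg hp

end Pool.Agent.H88.LF
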