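import Pool.Agent.H88.LF.Defs

/-!
# MAN: common definitions of the MAN modules (helper58)
-/

set_option autoImplicit false

open Set Filter
open scoped Topology Manifold

namespace Pool.Agent.H88.LF

/-- the model space -/
abbrev E9 : Type := EuclideanSpace ℝ (Fin 9)

/-- matrices as functions (with the sup norm) -/
abbrev M9 : Type := Fin 3 → Fin 3 → ℝ

/-- the unit matrix as a function -/
def one9 : M9 := fun i j => if i = j then 1 else 0

theorem of_one9 : Matrix.of one9 = (1 : Mat) := by
  ext i j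
  simp [one9, Matrix.one_apply]

/-- the action on `M` in charts: `A, z ↦ ψ (act A (φ⁻¹ z))` with `φ` the chart at `x` and `ψ` the
chart at `y` -/
noncomputable def chAct {M : Type} [TopologicalSpace M] [ChartedSpace E9 M] (act : Mat → M → M)
    (x y : M) (p : M9 × E9) : E9 :=
  chartAt E9 y (act (Matrix.of p.1) ((chartAt E9 x).symm p.2))

/-- hypotheses on the action (those of S13902) -/
structure SmAct (M : Type) [TopologicalSpace M] [ChartedSpace E9 M] (act : Mat → M → M) :
    Prop where
  one : ∀ x : M, act 1 x = x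
  mul : ∀ (A B : Mat) (x : M), A.det = 1 → B.det = 1 → act (A * B) x = act A (act B x)
  sm : ContMDiffOn ((𝓘(ℝ, Fin 3 → Fin 3 → ℝ)).prod (𝓡 9)) (𝓡 9) ((⊤ : ℕ∞) : WithTop ℕ∞)
          (fun p : (Fin 3 → Fin 3 → ℝ) × M => act (Matrix.of p.1) p.2)
          {p : (Fin 3 → Fin 3 → ℝ) × M | 0 < (Matrix.of p.1).det}
  free : ∀ x : M, ∃ U ∈ 𝓝 (1 : Mat), ∀ A ∈ U, A.det = 1 → act A x = x → A = 1

end Pool.Agent.H88.LF
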