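import Pool.Agent.H88.LF.ManDefs

/-!
# MANE: the one-parameter group of a traceless matrix

`e s = exp (s ξ)` (`NormedSpace.exp` with the local instances `Matrix.linftyOpNormedRing`,
`Matrix.linftyOpNormedAlgebra`; derivative `hasDerivAt_exp_smul_const`; entrywise: compose with the
continuous linear maps `A ↦ A i j`; or any other construction, e.g. as solution of the linear ODE).
`det (e s) = 1`: `f s = det (e s)` is multiplicative and `f' 0 = tr ξ = 0` (`Matrix.det_fin_three`),
so `f' s = f s * f' 0 = 0` and `f` is constant.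
-/

set_option autoImplicit false

open Set Filter
open scoped Topology Manifold

namespace Pool.Agent.H88.LF

section

attribute [local instance] Matrix.linftyOpNormedRing Matrix.linftyOpNormedAlgebra

theorem manE_deriv (X : Matrix (Fin 3) (Fin 3) ℝ) (s : ℝ) :
    HasDerivAt (fun t : ℝ => NormedSpace.exp (t • X)) (NormedSpace.exp (s • X) * X) s := by
  have := hasDerivAt_exp_smul_const (𝕂 := ℝ) X s
  exact this

end

theorem man_exp (ξ : M9) (htr : ξ 0 0 + ξ 1 1 + ξ 2 2 = 0) :
    ∃ e : ℝ → M9, e 0 = one9 ∧ (∀ s t, Matrix.of (e (s + t)) = Matrix.of (e s) * Matrix.of (e t)) ∧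
      (∀ s, (Matrix.of (e s)).det = 1) ∧ HasDerivAt e ξ 0 ∧ Continuous e := by
  set X : Matrix (Fin 3) (Fin 3) ℝ := Matrix.of ξ with hX
  set e : ℝ → M9 := fun s => Matrix.of.symm (NormedSpace.exp (s • X)) with he
  have hof : ∀ s, Matrix.of (e s) = NormedSpace.exp (s • X) := fun s => rfl
  have h0 : e 0 = one9 := by
    apply Matrix.of.injective
    rw [of_one9, hof, zero_smul, NormedSpace.exp_zero]
  have hadd : ∀ s t, Matrix.of (e (s + t)) = Matrix.of (e s) * Matrix.of (e t) := by
    intro s t
    rw [hof, hof, hof, add_smul]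
    refine Matrix.exp_add_of_commute _ _ ?_
    exact (Commute.refl X).smul_left s |>.smul_right t
  have hder : HasDerivAt e ξ 0 := by
    have h1 := manE_deriv X 0
    rw [zero_smul, NormedSpace.exp_zero, one_mul] at h1
    exact h1
  have hcont : Continuous e := by
    rw [continuous_iff_continuousAt]
    intro s
    have h1 : HasDerivAt e (Matrix.of.symm (NormedSpace.exp (s • X) * X) : M9) s :=
      manE_deriv X s
    exact h1.continuousAt
  have hdet : ∀ s, (Matrix.of (e s)).det = 1 := by
    have hmul : ∀ s t, (Matrix.of (e (s + t))).det = (Matrix.of (e s)).det * (Matrix.of (e t)).det :=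
      fun s t => by rw [hadd, Matrix.det_mul]
    have h5 : ∀ i j : Fin 3, HasDerivAt (fun s : ℝ => e s i j) (ξ i j) 0 := by
      intro i j
      exact (hasDerivAt_pi.1 ((hasDerivAt_pi.1 hder) i)) j
    have hf : ∀ A : M9, (Matrix.of A).det =
        A 0 0 * A 1 1 * A 2 2 - A 0 0 * A 1 2 * A 2 1 - A 0 1 * A 1 0 * A 2 2 +
          A 0 1 * A 1 2 * A 2 0 + A 0 2 * A 1 0 * A 2 1 - A 0 2 * A 1 1 * A 2 0 := by
      intro A
      rw [Matrix.det_fin_three]
      simp only [Matrix.of_apply]
    have h6 : HasDerivAt (fun s : ℝ => (Matrix.of (e s)).det) 0 0 := by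
      simp only [hf]
      have := ((((((((h5 0 0).mul (h5 1 1)).mul (h5 2 2)).sub
        (((h5 0 0).mul (h5 1 2)).mul (h5 2 1))).sub
        (((h5 0 1).mul (h5 1 0)).mul (h5 2 2))).add
        (((h5 0 1).mul (h5 1 2)).mul (h5 2 0))).add
        (((h5 0 2).mul (h5 1 0)).mul (h5 2 1))).sub
        (((h5 0 2).mul (h5 1 1)).mul (h5 2 0)))
      refine this.congr_deriv ?_
      simp [h0, one9]
      linarith
    have h7 : ∀ s, HasDerivAt (fun s : ℝ => (Matrix.of (e s)).det) 0 s := by
      intro s
      have h8 : HasDerivAt (fun r : ℝ => (Matrix.of (e (r - s))).det) 0 s := by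
        have h9 : HasDerivAt (fun s : ℝ => (Matrix.of (e s)).det) 0 (s - s) := by
          rw [sub_self]; exact h6
        exact h9.comp_sub_const s s
      have h10 := h8.const_mul (Matrix.of (e s)).det
      rw [mul_zero] at h10
      refine h10.congr_of_eventuallyEq (Filter.Eventually.of_forall fun r => ?_)
      show (Matrix.of (e r)).det = (Matrix.of (e s)).det * (Matrix.of (e (r - s))).det
      rw [← hmul, add_sub_cancel]
    intro s
    have h11 := is_const_of_deriv_eq_zero (f := fun s : ℝ => (Matrix.of (e s)).det)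
      (fun s => (h7 s).differentiableAt) (fun s => (h7 s).deriv) s 0
    rw [h11, h0, of_one9, Matrix.det_one]
  exact ⟨e, h0, hadd, hdet, hder, hcont⟩

end Pool.Agent.H88.LF
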