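import Pool.Agent.H88.LF.ManDefs

/-!
# MANS: smoothness of the action in charts, continuity

`man_sm`: `p ↦ ((p.1, φ.symm p.2) : M9 × M)` is `ContMDiffAt` at `(A0, z0)` (`contMDiffOn_chart_symm`),
compose with the action (`ContMDiffOn.contMDiffAt` on the open set `det > 0`) and with the chart at
`y` (`contMDiffOn_chart`); `contMDiffAt_iff_contDiffAt` with `modelWithCornersSelf_prod`,
`chartedSpaceSelf_prod`.
`man_cont`: the action is continuous at all `(A0, x)` with `det A0 > 0`.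
-/

set_option autoImplicit false

open Set Filter
open scoped Topology Manifold

namespace Pool.Agent.H88.LF

variable {M : Type} [TopologicalSpace M] [ChartedSpace E9 M]
  [IsManifold (𝓡 9) ((⊤ : ℕ∞) : WithTop ℕ∞) M]

omit [ChartedSpace E9 M] [IsManifold (𝓡 9) ((⊤ : ℕ∞) : WithTop ℕ∞) M] in
theorem manS_open : IsOpen {p : M9 × M | 0 < (Matrix.of p.1).det} := by
  have h1 : Continuous (fun p : M9 × M => (Matrix.of p.1).det) :=
    Continuous.matrix_det (show Continuous (fun p : M9 × M => (Matrix.of p.1 : Mat)) from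
      continuous_fst)
  exact isOpen_lt continuous_const h1


theorem man_cont {act : Mat → M → M} (h : SmAct M act) (A0 : Mat) (x : M) (hA : 0 < A0.det) :
    ContinuousAt (fun p : Mat × M => act p.1 p.2) (A0, x) := by
  have h1 := h.sm.continuousOn
  have h2 : ContinuousAt (fun p : M9 × M => act (Matrix.of p.1) p.2)
      ((Matrix.of.symm A0 : M9), x) :=
    h1.continuousAt (manS_open.mem_nhds hA)
  exact h2

theorem man_sm {act : Mat → M → M} (h : SmAct M act) (x y : M) (A0 : M9) (z0 : E9)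
    (hdet : 0 < (Matrix.of A0).det) (hz0 : z0 ∈ (chartAt E9 x).target)
    (hy : act (Matrix.of A0) ((chartAt E9 x).symm z0) ∈ (chartAt E9 y).source) :
    ContDiffAt ℝ 2 (chAct act x y) (A0, z0) := by
  have h1 : ContMDiffAt (𝓡 9) (𝓡 9) ((⊤ : ℕ∞) : WithTop ℕ∞) (chartAt E9 x).symm z0 :=
    (contMDiffOn_chart_symm (I := 𝓡 9) (x := x)).contMDiffAt
      ((chartAt E9 x).open_target.mem_nhds hz0)
  have h2 : ContMDiffAt ((𝓘(ℝ, Fin 3 → Fin 3 → ℝ)).prod (𝓡 9)) (𝓡 9) ((⊤ : ℕ∞) : WithTop ℕ∞)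
          (fun p : (Fin 3 → Fin 3 → ℝ) × M => act (Matrix.of p.1) p.2)
          (A0, (chartAt E9 x).symm z0) :=
    h.sm.contMDiffAt (manS_open.mem_nhds hdet)
  have h3 : ContMDiffAt (𝓡 9) (𝓡 9) ((⊤ : ℕ∞) : WithTop ℕ∞) (chartAt E9 y)
      (act (Matrix.of A0) ((chartAt E9 x).symm z0)) :=
    (contMDiffOn_chart (I := 𝓡 9) (x := y)).contMDiffAt
      ((chartAt E9 y).open_source.mem_nhds hy)
  have h4 : ContMDiffAt ((𝓘(ℝ, Fin 3 → Fin 3 → ℝ)).prod (𝓡 9))
      ((𝓘(ℝ, Fin 3 → Fin 3 → ℝ)).prod (𝓡 9)) ((⊤ : ℕ∞) : WithTop ℕ∞)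
      (fun p : M9 × E9 => (p.1, (chartAt E9 x).symm p.2)) (A0, z0) := by
    refine ContMDiffAt.prodMk contMDiffAt_fst ?_
    exact ContMDiffAt.comp (x := ((A0, z0) : M9 × E9)) (f := fun p : M9 × E9 => p.2)
      (g := (chartAt E9 x).symm) h1 contMDiffAt_snd
  have h5 := ContMDiffAt.comp (x := ((A0, z0) : M9 × E9))
    (f := fun p : M9 × E9 => (p.1, (chartAt E9 x).symm p.2))
    (g := fun p : (Fin 3 → Fin 3 → ℝ) × M => act (Matrix.of p.1) p.2) h2 h4
  have h6 := ContMDiffAt.comp (x := ((A0, z0) : M9 × E9))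
    (f := fun p : M9 × E9 => act (Matrix.of p.1) ((chartAt E9 x).symm p.2))
    (g := chartAt E9 y) h3 h5
  have h7 : ContMDiffAt ((𝓘(ℝ, Fin 3 → Fin 3 → ℝ)).prod (𝓡 9)) (𝓡 9) ((⊤ : ℕ∞) : WithTop ℕ∞)
      (chAct act x y) (A0, z0) := h6
  rw [← modelWithCornersSelf_prod, chartedSpaceSelf_prod] at h7
  exact (contMDiffAt_iff_contDiffAt.1 h7).of_le (WithTop.coe_le_coe.2 le_top)

end Pool.Agent.H88.LF
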