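import Pool.Agent.H88.LF.ManE
import Pool.Agent.H88.LF.ManS

/-!
# MANI: the derivative of the orbit map is injective on traceless matrices

Let `L (ξ, 0) = 0`, `tr ξ = 0`, `e` from `man_exp`, `u s = act (e s) x`, `φ` the chart at `x`.
* `φ (u ε)` has derivative `0` at `ε = 0`: chain rule for `ε ↦ chAct act x x (e ε, φ x)`.
* for every `s` and every `y` with `u s ∈ (chartAt y).source`: `u (s + ε) = act (e s) (u ε)`, so
  `(chartAt y) (u (s + ε)) = chAct act x y (e s, φ (u ε))` for small `ε` (`u ε` is in the source of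
  `φ`), which has derivative `0` at `ε = 0` (chain rule, `man_sm` at `(e s, φ x)`).
* so `u` is locally constant (chart at `u s`, derivative zero on an interval:
  `is_const_of_deriv_eq_zero` or the convex version; charts are injective on their source),
  so constant on `ℝ` (`IsLocallyConstant`, `ℝ` preconnected): `act (e s) x = x` for all `s`.
* `h.free x` and continuity of `e` at `0`: `e s = 1` for small `s`, so `ξ = 0`.
-/

set_option autoImplicit false

open Set Filter
open scoped Topology Manifold

namespace Pool.Agent.H88.LF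

variable {M : Type} [TopologicalSpace M] [ChartedSpace E9 M]
  [IsManifold (𝓡 9) ((⊤ : ℕ∞) : WithTop ℕ∞) M]

theorem man_inj {act : Mat → M → M} (h : SmAct M act) (x : M) (L : M9 × E9 →L[ℝ] E9)
    (hL : HasFDerivAt (chAct act x x) L (one9, chartAt E9 x x)) (ξ : M9)
    (htr : ξ 0 0 + ξ 1 1 + ξ 2 2 = 0) (h0 : L (ξ, 0) = 0) : ξ = 0 := by
  obtain ⟨e, e0, eadd, edet, eder, econt⟩ := man_exp ξ htr
  have hxx : (chartAt E9 x).symm (chartAt E9 x x) = x :=
    (chartAt E9 x).left_inv (mem_chart_source E9 x)
  set u : ℝ → M := fun s => act (Matrix.of (e s)) x with hu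
  have hu0 : u 0 = x := by
    show act (Matrix.of (e 0)) x = x
    rw [e0, of_one9, h.one]
  have hucont : Continuous u := by
    rw [continuous_iff_continuousAt]
    intro s
    have h1 := man_cont h (Matrix.of (e s)) x (by rw [edet]; exact one_pos)
    have h2 : Continuous (fun s : ℝ => ((Matrix.of (e s) : Mat), x)) :=
      (show Continuous (fun s : ℝ => (Matrix.of (e s) : Mat)) from econt).prodMk continuous_const
    exact ContinuousAt.comp (x := s) (f := fun s : ℝ => ((Matrix.of (e s) : Mat), x))
      (g := fun p : Mat × M => act p.1 p.2) h1 h2.continuousAt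
  have hφu : HasDerivAt (fun ε => chartAt E9 x (u ε)) 0 0 := by
    have h1 : HasDerivAt (fun s : ℝ => ((e s, chartAt E9 x x) : M9 × E9)) (ξ, 0) 0 :=
      eder.prodMk (hasDerivAt_const _ _)
    have h2 : HasFDerivAt (chAct act x x) L (e 0, chartAt E9 x x) := by rw [e0]; exact hL
    have h3 := h2.comp_hasDerivAt (0 : ℝ) h1
    rw [h0] at h3
    refine h3.congr_of_eventuallyEq (Eventually.of_forall fun s => ?_)
    show chartAt E9 x (act (Matrix.of (e s)) x) =
      chartAt E9 x (act (Matrix.of (e s)) ((chartAt E9 x).symm (chartAt E9 x x)))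
    rw [hxx]
  have key : ∀ (s : ℝ) (y : M), u s ∈ (chartAt E9 y).source →
      HasDerivAt (fun r => chartAt E9 y (u r)) 0 s := by
    intro s y hsy
    have h1 := man_sm h x y (e s) (chartAt E9 x x) (by rw [edet]; exact one_pos)
      (mem_chart_target E9 x) (by rw [hxx]; exact hsy)
    have h2 := (h1.differentiableAt (by norm_num)).hasFDerivAt
    have h3 : HasDerivAt (fun ε : ℝ => ((e s, chartAt E9 x (u ε)) : M9 × E9)) (0, 0) 0 :=
      (hasDerivAt_const _ _).prodMk hφu
    have h4 : HasFDerivAt (chAct act x y) (fderiv ℝ (chAct act x y) (e s, chartAt E9 x x))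
        (e s, chartAt E9 x (u 0)) := by rw [hu0]; exact h2
    have h5 := h4.comp_hasDerivAt (0 : ℝ) h3
    have h50 : (((0 : M9), (0 : E9)) : M9 × E9) = 0 := rfl
    rw [h50, map_zero] at h5
    have h6 : HasDerivAt (fun ε : ℝ => chartAt E9 y (u (s + ε))) 0 0 := by
      refine h5.congr_of_eventuallyEq ?_
      have h7 : ∀ᶠ ε in 𝓝 (0 : ℝ), u ε ∈ (chartAt E9 x).source := by
        have h8 := hucont.tendsto 0
        rw [hu0] at h8
        exact h8.eventually ((chartAt E9 x).open_source.mem_nhds (mem_chart_source E9 x))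
      filter_upwards [h7] with ε hε
      show chartAt E9 y (act (Matrix.of (e (s + ε))) x) =
        chartAt E9 y (act (Matrix.of (e s)) ((chartAt E9 x).symm (chartAt E9 x (u ε))))
      rw [(chartAt E9 x).left_inv hε, eadd, h.mul _ _ _ (edet s) (edet ε)]
    have h7 : HasDerivAt (fun r : ℝ => chartAt E9 y (u (s + (r - s)))) 0 s := by
      have h8 : HasDerivAt (fun ε : ℝ => chartAt E9 y (u (s + ε))) 0 (s - s) := by
        rw [sub_self]; exact h6
      exact h8.comp_sub_const s s
    refine h7.congr_of_eventuallyEq (Eventually.of_forall fun r => ?_)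
    show chartAt E9 y (u r) = chartAt E9 y (u (s + (r - s)))
    rw [add_sub_cancel]
  have hloc : IsLocallyConstant u := by
    rw [IsLocallyConstant.iff_eventually_eq]
    intro s
    have hopen : IsOpen (u ⁻¹' (chartAt E9 (u s)).source) :=
      (chartAt E9 (u s)).open_source.preimage hucont
    obtain ⟨r, hr, hball⟩ := Metric.isOpen_iff.1 hopen s (mem_chart_source E9 (u s))
    filter_upwards [Metric.ball_mem_nhds s hr] with t ht
    have h1 : chartAt E9 (u s) (u t) = chartAt E9 (u s) (u s) := by
      refine Metric.isOpen_ball.is_const_of_deriv_eq_zero (s := Metric.ball s r)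
        (f := fun r => chartAt E9 (u s) (u r)) (convex_ball s r).isPreconnected ?_ ?_ ht
        (Metric.mem_ball_self hr)
      · intro t' ht'
        exact (key t' (u s) (hball ht')).differentiableAt.differentiableWithinAt
      · intro t' ht'
        exact (key t' (u s) (hball ht')).deriv
    exact (chartAt E9 (u s)).injOn (hball ht) (mem_chart_source E9 (u s)) h1
  have hfix : ∀ s, act (Matrix.of (e s)) x = x := by
    intro s
    have h1 : u s = u 0 := hloc.apply_eq_of_preconnectedSpace s 0
    rw [hu0] at h1
    exact h1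
  obtain ⟨U, hU, hfree⟩ := h.free x
  have hev : ∀ᶠ s in 𝓝 (0 : ℝ), e s = one9 := by
    have h1 : Tendsto (fun s : ℝ => (Matrix.of (e s) : Mat)) (𝓝 0) (𝓝 (1 : Mat)) := by
      have h2 : Continuous (fun s : ℝ => (Matrix.of (e s) : Mat)) := econt
      have h3 := h2.tendsto 0
      rw [e0, of_one9] at h3
      exact h3
    filter_upwards [h1 hU] with s hs
    have h4 := hfree _ hs (edet s) (hfix s)
    rw [← of_one9] at h4
    exact Matrix.of.injective h4
  have hd0 : HasDerivAt e 0 0 :=
    (hasDerivAt_const (0 : ℝ) one9).congr_of_eventuallyEq hev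
  exact eder.unique hd0

end Pool.Agent.H88.LF
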