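import Pool.Agent.H88.LF.D1B

/-!
# NOB (blueprint 8.3)

`E_i = {t : |t|<1, CO (c i t)}` is open by `d1`; for an arrow `(i,t) → (j,τ)`: `t ∈ E_i ↔ τ ∈ E_j`.  Claim: `E_i` is closed in `(-1,1)`, so `∅` or everything; then `{CO}` and its complement are
unions of saturations of the open intervals (`isOpen_sat`), so `{CO}` is clopen.
Suppose `t0 ∉ E_i` is a limit of `E_i`, `|t0|<1`.  Then (changing `t0`) there are `t0 ∉ E_i`, `σ = ±1`, `δ > 0` with `t0 + σs ∈ E_i` for `0<s<δ`.  `x = c i t0` is not CO, so by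
`exists_infinite_plaques` there are `j` and infinitely many `s`, `|s| ≤ 1/2`, with `c j s = g_s • x`, i.e. an arrow `(i,t0) → (j,s)` (`g_s⁻¹`).  Its continuation maps a one-sided neighbourhood of `t0`
(side `σ`) onto a one-sided neighbourhood of `s` inside `E_j`, and `s ∉ E_j`.  Let `I_s` be the connected component of `E_j ∩ (-3/4,3/4)` adjacent to `s` on that side; `s` is an end point of
`I_s`, so infinitely many different (disjoint open) intervals occur; discard the at most two with an end point `±3/4`; for the others the end points are in `(-3/4,3/4)∖E_j`.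
For such `I`: `A_I = {u ∈ (0,δ) : c i (t0+σu) ∈ G c j I}` is nonempty (small `u`), open (`isOpen_sat`), closed in `(0,δ)`: `u_m → u`, `c j (w_m) ∈ G c i (t0+σu_m)`, by `d1` at `t0+σu` (CO) `c j w_m = k_m c i (t0+σu_m)` with
`k_m ∈ K` compact, limits `w ∈ closure I`, `c j w = k c i (t0+σu)` is CO, so `w ∈ E_j`, so `w ∈ I`.  Hence `A_I = (0,δ)` for infinitely many disjoint `I`: the orbit of `c i (t0+σδ/2)` (CO) contains `c j w` for infinitely
many `w ∈ [-3/4,3/4]`: contradiction to `finite_plaques`.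
-/

set_option autoImplicit false

open MeasureTheory Set Filter
open scoped Topology

namespace Pool.Agent.H88.LF

variable {X : Type} [MetricSpace X] [CompactSpace X] [MulAction G X] [ContinuousSMul G X]

/-- The set of parameters with compact orbit is open. -/
theorem nob_open (S : FB X) (j : Fin S.n) (t : ℝ) (ht : |t| < 1) (h : CO (S.c j t)) :
    ∃ δ > 0, ∀ t', |t' - t| < δ → CO (S.c j t') := by
  obtain ⟨K, hK, δ, hδ, h1⟩ := d1 S j t ht h
  exact ⟨δ, hδ, fun t' ht' => ⟨K, hK, h1 t' ht'⟩⟩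

/-- A one-sided neighbourhood of `t0` is mapped onto a one-sided neighbourhood of `s` by the continuation
of an arrow. -/
theorem nob_side (S : FB X) (i j : Fin S.n) (t0 s σ δ : ℝ) (hσ : σ = 1 ∨ σ = -1) (hδ : 0 < δ)
    (k0 : G) (h : S.Arr i j t0 s k0) :
    ∃ σ' : ℝ, (σ' = 1 ∨ σ' = -1) ∧ ∃ η > 0, ∀ v, 0 < v → v < η →
      ∃ u, 0 < u ∧ u < δ ∧ ∃ k : G, S.c i (t0 + σ * u) = k • S.c j (s + σ' * v) := by
  have hd := S.hasDerivAt_τf h
  have hne := S.dτ_ne_zero h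
  have hτ0 : S.τf i j t0 s k0 t0 = s := (S.kf_τf_spec h).2.1
  have hσ0 : σ ≠ 0 := by rcases hσ with h | h <;> rw [h] <;> norm_num
  have hσσ : σ * σ = 1 := by rcases hσ with h | h <;> rw [h] <;> norm_num
  obtain ⟨σ', hσ', hpos⟩ : ∃ σ' : ℝ, (σ' = 1 ∨ σ' = -1) ∧ 0 < σ' * (σ * S.dτ i j t0 s k0) := by
    rcases lt_or_gt_of_ne (mul_ne_zero hσ0 hne) with h1 | h1
    · exact ⟨-1, Or.inr rfl, by linarith⟩
    · exact ⟨1, Or.inl rfl, by linarith⟩
  have hσ'σ' : σ' * σ' = 1 := by rcases hσ' with h | h <;> rw [h] <;> norm_num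
  refine ⟨σ', hσ', ?_⟩
  let f : ℝ → ℝ := fun u => σ' * (S.τf i j t0 s k0 (t0 + σ * u) - s)
  have hf0 : f 0 = 0 := by
    show σ' * (S.τf i j t0 s k0 (t0 + σ * 0) - s) = 0
    rw [mul_zero, add_zero, hτ0, sub_self, mul_zero]
  have hfd : HasDerivAt f (σ' * (σ * S.dτ i j t0 s k0)) 0 := by
    have h1 : HasDerivAt (fun u : ℝ => t0 + σ * u) σ 0 := by
      simpa using ((hasDerivAt_id (0 : ℝ)).const_mul σ).const_add t0
    have h2 : HasDerivAt (S.τf i j t0 s k0) (S.dτ i j t0 s k0) (t0 + σ * 0) := by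
      rw [mul_zero, add_zero]; exact hd
    have h3 := ((h2.comp (0 : ℝ) h1).sub_const s).const_mul σ'
    have h4 : σ' * (σ * S.dτ i j t0 s k0) = σ' * (S.dτ i j t0 s k0 * σ) := by ring
    rw [h4]
    exact h3
  -- positivity to the right
  have hposr : ∀ᶠ u in 𝓝[>] (0 : ℝ), 0 < f u := by
    have h1 : ∀ᶠ u in 𝓝[≠] (0 : ℝ), 0 < slope f 0 u :=
      (hasDerivAt_iff_tendsto_slope.1 hfd).eventually (lt_mem_nhds hpos)
    have h2 : ∀ᶠ u in 𝓝[>] (0 : ℝ), 0 < slope f 0 u :=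
      h1.filter_mono (nhdsWithin_mono _ (fun x hx => ne_of_gt hx))
    filter_upwards [h2, self_mem_nhdsWithin] with u hu hu0
    have hu0' : (0 : ℝ) < u := hu0
    rw [slope_def_field, hf0, sub_zero, sub_zero] at hu
    exact (div_pos_iff_of_pos_right hu0').1 hu
  have hev : ∀ᶠ t in 𝓝 t0, S.Arr i j t (S.τf i j t0 s k0 t) (S.kf i j t0 s k0 t) ∧
      ContinuousAt (S.τf i j t0 s k0) t := by
    filter_upwards [S.eventually_arr h, S.eventually_contDiffAt h] with t h1 h2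
    exact ⟨h1, h2.2.1.continuousAt⟩
  obtain ⟨r, hr, hr'⟩ := Metric.eventually_nhds_iff.1 hev
  have hsmall : ∀ᶠ u in 𝓝[>] (0 : ℝ), u < min r δ :=
    (gt_mem_nhds (lt_min hr hδ)).filter_mono nhdsWithin_le_nhds
  obtain ⟨u0, hu1, hu2, hu3⟩ := (hposr.and (hsmall.and self_mem_nhdsWithin)).exists
  have hu3' : (0 : ℝ) < u0 := hu3
  refine ⟨f u0, hu1, fun v hv1 hv2 => ?_⟩
  have habs : ∀ u, 0 ≤ u → u ≤ u0 → dist (t0 + σ * u) t0 < r := by
    intro u h1 h2
    rw [Real.dist_eq]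
    have h3 : |t0 + σ * u - t0| = u := by
      rcases hσ with h | h <;> rw [h]
      · rw [show t0 + 1 * u - t0 = u by ring, abs_of_nonneg h1]
      · rw [show t0 + -1 * u - t0 = -u by ring, abs_neg, abs_of_nonneg h1]
    rw [h3]
    exact lt_of_le_of_lt h2 (hu2.trans_le (min_le_left _ _))
  have hfc : ContinuousOn f (Icc 0 u0) := by
    intro u hu
    refine ContinuousAt.continuousWithinAt ?_
    have h1 := (hr' (habs u hu.1 hu.2)).2
    have h2 : ContinuousAt (fun u : ℝ => t0 + σ * u) u := by fun_prop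
    exact ((ContinuousAt.comp (f := fun u : ℝ => t0 + σ * u) h1 h2).sub continuousAt_const).const_mul σ'
  obtain ⟨u, hu, hfu⟩ := intermediate_value_Icc hu3'.le hfc
    (show v ∈ Icc (f 0) (f u0) from ⟨by rw [hf0]; exact hv1.le, hv2.le⟩)
  have hu0 : 0 < u := by
    rcases hu.1.eq_or_lt with h1 | h1
    · rw [← h1, hf0] at hfu
      linarith
    · exact h1
  refine ⟨u, hu0, lt_of_le_of_lt hu.2 (hu2.trans_le (min_le_right _ _)),
    S.kf i j t0 s k0 (t0 + σ * u), ?_⟩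
  have h1 := (hr' (habs u hu.1 hu.2)).1
  have h2 : S.τf i j t0 s k0 (t0 + σ * u) = s + σ' * v := by
    have h3 : σ' * (S.τf i j t0 s k0 (t0 + σ * u) - s) = v := hfu
    rw [← h3]
    linear_combination (- (S.τf i j t0 s k0 (t0 + σ * u) - s)) * hσ'σ'
  rw [← h2]
  exact h1.2.2

/-- The maximal interval of compact orbits adjacent to `s` on the side `σ'`. -/
theorem nob_interval (S : FB X) (j : Fin S.n) (s σ' η : ℝ) (hσ' : σ' = 1 ∨ σ' = -1)
    (hs : |s| ≤ 1 / 2) (hη : 0 < η) (h : ∀ v, 0 < v → v < η → CO (S.c j (s + σ' * v))) :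
    ∃ b > 0, (∀ w, 0 < w → w < b → |s + σ' * w| < 3 / 4 ∧ CO (S.c j (s + σ' * w))) ∧
      ¬ (|s + σ' * b| < 3 / 4 ∧ CO (S.c j (s + σ' * b))) := by
  have habs : ∀ w : ℝ, |σ' * w| = |w| := by
    intro w
    rcases hσ' with h | h <;> rw [h]
    · rw [one_mul]
    · rw [neg_one_mul, abs_neg]
  let V : Set ℝ := {v | 0 < v ∧ ∀ w, 0 < w → w < v →
    |s + σ' * w| < 3 / 4 ∧ CO (S.c j (s + σ' * w))}
  have hbdd : BddAbove V := by
    refine ⟨3, fun v hv => ?_⟩
    by_contra hcon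
    push Not at hcon
    have h1 := (hv.2 2 (by norm_num) (by linarith)).1
    have h2 := abs_sub_abs_le_abs_sub (σ' * 2) (-s)
    rw [habs, abs_neg, abs_of_pos (by norm_num : (0 : ℝ) < 2), sub_neg_eq_add, add_comm (σ' * 2)] at h2
    linarith
  have hne : min η (1 / 4) ∈ V := by
    refine ⟨lt_min hη (by norm_num), fun w hw1 hw2 => ⟨?_, h w hw1 (hw2.trans_le (min_le_left _ _))⟩⟩
    have h1 := abs_add_le s (σ' * w)
    rw [habs, abs_of_pos hw1] at h1
    have h2 := hw2.trans_le (min_le_right η (1 / 4))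
    linarith
  have hpos : 0 < sSup V := lt_of_lt_of_le (lt_min hη (by norm_num)) (le_csSup hbdd hne)
  have hin : ∀ w, 0 < w → w < sSup V → |s + σ' * w| < 3 / 4 ∧ CO (S.c j (s + σ' * w)) := by
    intro w hw1 hw2
    obtain ⟨v, hv, hwv⟩ := exists_lt_of_lt_csSup ⟨_, hne⟩ hw2
    exact hv.2 w hw1 hwv
  refine ⟨sSup V, hpos, hin, ?_⟩
  rintro ⟨h1, h2⟩
  obtain ⟨δ, hδ, h3⟩ := nob_open S j (s + σ' * sSup V) (by linarith) h2
  let m : ℝ := min δ (3 / 4 - |s + σ' * sSup V|)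
  have hm : 0 < m := lt_min hδ (by linarith)
  have h4 : sSup V + m ∈ V := by
    refine ⟨by linarith, fun w hw1 hw2 => ?_⟩
    rcases lt_or_ge w (sSup V) with h5 | h5
    · exact hin w hw1 h5
    · have h6 : |s + σ' * w - (s + σ' * sSup V)| < m := by
        rw [show s + σ' * w - (s + σ' * sSup V) = σ' * (w - sSup V) by ring, habs,
          abs_of_nonneg (by linarith)]
        linarith
      refine ⟨?_, h3 _ (h6.trans_le (min_le_left _ _))⟩
      have h7 := abs_sub_abs_le_abs_sub (s + σ' * w) (s + σ' * sSup V)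
      have h8 := h6.trans_le (min_le_right δ (3 / 4 - |s + σ' * sSup V|))
      linarith
  have h5 := le_csSup hbdd h4
  linarith

/-- The orbits through `c i (t0 + σ u)` all meet the curve of an interval with non-compact ends. -/
theorem nob_all (S : FB X) (i j : Fin S.n) (t0 σ δ s σ' b : ℝ) (hσ'σ' : σ' * σ' = 1)
    (hδ1 : ∀ u, 0 < u → u < δ → |t0 + σ * u| < 1)
    (hCO : ∀ u, 0 < u → u < δ → CO (S.c i (t0 + σ * u)))
    (hs : |s| ≤ 1 / 2) (hb : |s + σ' * b| ≤ 3 / 4) (hb0 : 0 < b)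
    (hsn : ¬ CO (S.c j s)) (hbn : ¬ CO (S.c j (s + σ' * b)))
    (hin : ∀ w, 0 < w → w < b → |s + σ' * w| < 3 / 4)
    (h0 : ∃ u, 0 < u ∧ u < δ ∧ ∃ w, 0 < w ∧ w < b ∧ ∃ k : G,
      S.c i (t0 + σ * u) = k • S.c j (s + σ' * w)) :
    ∀ u, 0 < u → u < δ → ∃ w, 0 < w ∧ w < b ∧ ∃ k : G,
      S.c i (t0 + σ * u) = k • S.c j (s + σ' * w) := by
  let A : Set ℝ := {u | (0 < u ∧ u < δ) ∧ ∃ w, 0 < w ∧ w < b ∧ ∃ k : G,
      S.c i (t0 + σ * u) = k • S.c j (s + σ' * w)}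
  have hle : ∀ w, 0 ≤ w → w ≤ b → |s + σ' * w| ≤ 3 / 4 := by
    intro w h1 h2
    rcases h1.eq_or_lt with h3 | h3
    · rw [← h3, mul_zero, add_zero]; linarith
    · rcases h2.eq_or_lt with h4 | h4
      · rw [h4]; exact hb
      · exact (hin w h3 h4).le
  have hAo : IsOpen A := by
    rw [isOpen_iff_mem_nhds]
    rintro u ⟨⟨hu1, hu2⟩, w, hw1, hw2, k, hk⟩
    have hIo : IsOpen ((fun t : ℝ => σ' * (t - s)) ⁻¹' Ioo 0 b) :=
      isOpen_Ioo.preimage (by fun_prop)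
    have hI1 : ∀ t ∈ (fun t : ℝ => σ' * (t - s)) ⁻¹' Ioo 0 b, t = s + σ' * (σ' * (t - s)) := by
      intro t _
      linear_combination (s - t) * hσ'σ'
    have hsat := S.isOpen_sat j _ hIo (fun t ht => by
      rw [hI1 t ht]
      exact (hin _ ht.1 ht.2).trans (by norm_num))
    have hmem : S.c i (t0 + σ * u) ∈ {x : X | ∃ (g : G),
        ∃ t ∈ (fun t : ℝ => σ' * (t - s)) ⁻¹' Ioo 0 b, x = g • S.c j t} := by
      refine ⟨k, s + σ' * w, ?_, hk⟩
      show σ' * (s + σ' * w - s) ∈ Ioo 0 b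
      rw [show σ' * (s + σ' * w - s) = σ' * σ' * w by ring, hσ'σ', one_mul]
      exact ⟨hw1, hw2⟩
    have hcu : ContinuousAt (fun u : ℝ => S.c i (t0 + σ * u)) u :=
      ContinuousAt.comp (f := fun u : ℝ => t0 + σ * u) (g := S.c i)
        (S.cont i _ (hδ1 u hu1 hu2)) (by fun_prop)
    have h1 := hcu.preimage_mem_nhds (hsat.mem_nhds hmem)
    filter_upwards [h1, Ioo_mem_nhds hu1 hu2] with u' h2 h3
    obtain ⟨g, t, ht, h4⟩ := h2
    refine ⟨h3, σ' * (t - s), ht.1, ht.2, g, ?_⟩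
    rw [← hI1 t ht]
    exact h4
  have hcl : closure A ∩ Ioo 0 δ ⊆ A := by
    rintro u ⟨hu, hu1, hu2⟩
    obtain ⟨y, hyA, hy⟩ := mem_closure_iff_seq_limit.1 hu
    obtain ⟨K, hK, δ', hδ', hKd⟩ := d1 S i (t0 + σ * u) (hδ1 u hu1 hu2) (hCO u hu1 hu2)
    have hlim : Tendsto (fun n => t0 + σ * y n) atTop (𝓝 (t0 + σ * u)) :=
      (hy.const_mul σ).const_add t0
    have hev : ∀ᶠ n in atTop, |t0 + σ * y n - (t0 + σ * u)| < δ' := by
      have := hlim.eventually (Metric.ball_mem_nhds _ hδ')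
      filter_upwards [this] with n hn
      rwa [Real.dist_eq] at hn
    obtain ⟨N, hN⟩ := Filter.eventually_atTop.1 hev
    have hex : ∀ n, ∃ p : ℝ × G, p ∈ Icc 0 b ×ˢ K ∧
        S.c j (s + σ' * p.1) = p.2 • S.c i (t0 + σ * y (N + n)) := by
      intro n
      obtain ⟨-, w, hw1, hw2, k, hk⟩ := hyA (N + n)
      obtain ⟨k', hk', h1⟩ := hKd _ (hN (N + n) (Nat.le_add_right _ _)) k⁻¹
      refine ⟨(w, k'), ⟨⟨hw1.le, hw2.le⟩, hk'⟩, ?_⟩
      show S.c j (s + σ' * w) = k' • S.c i (t0 + σ * y (N + n))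
      rw [← h1, hk, inv_smul_smul]
    choose p hp hp' using hex
    obtain ⟨⟨w, k⟩, hwk, φ, hφ, hlimp⟩ := (isCompact_Icc.prod hK).tendsto_subseq hp
    have hw3 : |s + σ' * w| < 1 := lt_of_le_of_lt (hle w hwk.1.1 hwk.1.2) (by norm_num)
    have hl1 : Tendsto (fun n => S.c j (s + σ' * (p (φ n)).1)) atTop (𝓝 (S.c j (s + σ' * w))) := by
      have h1 : Tendsto (fun n => (p (φ n)).1) atTop (𝓝 w) :=
        (continuous_fst.tendsto _).comp hlimp
      have h2 : Tendsto (fun n => s + σ' * (p (φ n)).1) atTop (𝓝 (s + σ' * w)) :=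
        (h1.const_mul σ').const_add s
      exact (S.cont j _ hw3).tendsto.comp h2
    have hl2 : Tendsto (fun n => (p (φ n)).2 • S.c i (t0 + σ * y (N + φ n))) atTop
        (𝓝 (k • S.c i (t0 + σ * u))) := by
      have h1 : Tendsto (fun n => (p (φ n)).2) atTop (𝓝 k) :=
        (continuous_snd.tendsto _).comp hlimp
      have h2 : Tendsto (fun n => t0 + σ * y (N + φ n)) atTop (𝓝 (t0 + σ * u)) := by
        have h3 : Tendsto (fun n => N + φ n) atTop atTop :=
          tendsto_atTop_mono (fun n => Nat.le_add_left _ _) hφ.tendsto_atTop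
        exact hlim.comp h3
      exact h1.smul ((S.cont i _ (hδ1 u hu1 hu2)).tendsto.comp h2)
    have heq : S.c j (s + σ' * w) = k • S.c i (t0 + σ * u) := by
      refine tendsto_nhds_unique hl1 ?_
      refine hl2.congr (fun n => ?_)
      exact (hp' (φ n)).symm
    have hCOw : CO (S.c j (s + σ' * w)) := by
      rw [heq]; exact CO_smul (hCO u hu1 hu2) k
    have hw0 : 0 < w := by
      rcases hwk.1.1.eq_or_lt with h1 | h1
      · have h1' : w = 0 := h1.symm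
        rw [h1', mul_zero, add_zero] at hCOw
        exact absurd hCOw hsn
      · exact h1
    have hwb : w < b := by
      rcases hwk.1.2.eq_or_lt with h1 | h1
      · have h1' : w = b := h1
        rw [h1'] at hCOw
        exact absurd hCOw hbn
      · exact h1
    refine ⟨⟨hu1, hu2⟩, w, hw0, hwb, k⁻¹, ?_⟩
    rw [heq, inv_smul_smul]
  intro u hu1 hu2
  obtain ⟨u', hu1', hu2', h1⟩ := h0
  have h2 : Ioo 0 δ ⊆ A := isPreconnected_Ioo.subset_of_closure_inter_subset hAo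
    ⟨u', ⟨hu1', hu2'⟩, ⟨hu1', hu2'⟩, h1⟩ hcl
  exact (h2 ⟨hu1, hu2⟩).2

/-- The key point: no one-sided accumulation. -/
theorem no_boundary (S : FB X) (i : Fin S.n) (t0 σ δ : ℝ) (ht0 : |t0| < 1)
    (hσ : σ = 1 ∨ σ = -1) (hδ : 0 < δ) (hδ1 : ∀ s, 0 < s → s < δ → |t0 + σ * s| < 1)
    (hCO : ∀ s, 0 < s → s < δ → CO (S.c i (t0 + σ * s))) : CO (S.c i t0) := by
  by_contra hn
  obtain ⟨j, hj⟩ := S.exists_infinite_plaques (S.c i t0) hn
  -- the parameters with a good side `σ'`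
  let P : ℝ → Set ℝ := fun σ' => {s | |s| ≤ 1 / 2 ∧ ¬ CO (S.c j s) ∧ ∃ η > 0, ∀ v, 0 < v → v < η →
      ∃ u, 0 < u ∧ u < δ ∧ ∃ k : G, S.c i (t0 + σ * u) = k • S.c j (s + σ' * v)}
  have hcov : {s : ℝ | |s| ≤ 1 / 2 ∧ ∃ g : G, S.c j s = g • S.c i t0} ⊆ P 1 ∪ P (-1) := by
    rintro s ⟨hs, g, hg⟩
    have harr : S.Arr i j t0 s g⁻¹ := ⟨ht0, by linarith, by rw [hg, inv_smul_smul]⟩
    have hns : ¬ CO (S.c j s) := by
      rw [hg, CO_smul_iff]; exact hn
    obtain ⟨σ', hσ', hη⟩ := nob_side S i j t0 s σ δ hσ hδ _ harr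
    rcases hσ' with h | h
    · left; rw [h] at hη; exact ⟨hs, hns, hη⟩
    · right; rw [h] at hη; exact ⟨hs, hns, hη⟩
  have hinf : ∃ σ' : ℝ, (σ' = 1 ∨ σ' = -1) ∧ (P σ').Infinite := by
    rcases Set.infinite_union.1 (hj.mono hcov) with h | h
    · exact ⟨1, Or.inl rfl, h⟩
    · exact ⟨-1, Or.inr rfl, h⟩
  obtain ⟨σ', hσ', hinf⟩ := hinf
  have hσ'σ' : σ' * σ' = 1 := by rcases hσ' with h | h <;> rw [h] <;> norm_num
  have habs : ∀ w : ℝ, |σ' * w| = |w| := by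
    intro w
    rcases hσ' with h | h <;> rw [h]
    · rw [one_mul]
    · rw [neg_one_mul, abs_neg]
  have hint : ∀ s ∈ P σ', ∃ b > 0,
      (∀ w, 0 < w → w < b → |s + σ' * w| < 3 / 4 ∧ CO (S.c j (s + σ' * w))) ∧
      ¬ (|s + σ' * b| < 3 / 4 ∧ CO (S.c j (s + σ' * b))) := by
    rintro s ⟨hs, -, η, hη, h1⟩
    refine nob_interval S j s σ' η hσ' hs hη (fun v hv1 hv2 => ?_)
    obtain ⟨u, hu1, hu2, k, hk⟩ := h1 v hv1 hv2
    have h2 := hCO u hu1 hu2
    rw [hk] at h2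
    exact (CO_smul_iff k).1 h2
  choose! b hb0 hb1 hb2 using hint
  -- disjointness
  have hdisj : ∀ s ∈ P σ', ∀ s' ∈ P σ', σ' * s < σ' * s' → b s ≤ σ' * s' - σ' * s := by
    intro s hs s' hs' hlt
    by_contra hcon
    push Not at hcon
    have h1 := (hb1 s hs (σ' * s' - σ' * s) (by linarith) hcon).2
    have h2 : s + σ' * (σ' * s' - σ' * s) = s' := by
      linear_combination (s' - s) * hσ'σ'
    rw [h2] at h1
    exact hs'.2.1 h1
  let Q : Set ℝ := {s | s ∈ P σ' ∧ ∃ s' ∈ P σ', σ' * s < σ' * s'}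
  have hQ : Q.Infinite := by
    intro hQf
    refine hinf ?_
    have hsub : (P σ' \ Q).Subsingleton := by
      rintro s ⟨hs, hsQ⟩ s' ⟨hs', hsQ'⟩
      by_contra hne
      have h1 : ¬ σ' * s < σ' * s' := fun h => hsQ ⟨hs, s', hs', h⟩
      have h2 : ¬ σ' * s' < σ' * s := fun h => hsQ' ⟨hs', s, hs, h⟩
      have h3 : σ' * s = σ' * s' := le_antisymm (not_lt.1 h2) (not_lt.1 h1)
      have h4 : σ' ≠ 0 := by rcases hσ' with h | h <;> rw [h] <;> norm_num
      exact hne (mul_left_cancel₀ h4 h3)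
    refine (hQf.union hsub.finite).subset ?_
    intro s hs
    by_cases h : s ∈ Q
    · exact Or.inl h
    · exact Or.inr ⟨hs, h⟩
  have hend : ∀ s ∈ Q, |s + σ' * b s| < 3 / 4 := by
    rintro s ⟨hs, s', hs', hlt⟩
    have h1 := hdisj s hs s' hs' hlt
    have h2 := hb0 s hs
    have h3 : |s + σ' * b s| = |σ' * s + b s| := by
      rw [← habs (s + σ' * b s)]
      congr 1
      linear_combination (b s) * hσ'σ'
    have h4 : |σ' * s| ≤ 1 / 2 := by rw [habs]; exact hs.1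
    have h5 : |σ' * s'| ≤ 1 / 2 := by rw [habs]; exact hs'.1
    have h6 := abs_le.1 h4
    have h7 := abs_le.1 h5
    rw [h3, abs_lt]
    constructor <;> linarith
  have hall : ∀ s ∈ Q, ∃ w, 0 < w ∧ w < b s ∧ ∃ k : G,
      S.c i (t0 + σ * (δ / 2)) = k • S.c j (s + σ' * w) := by
    intro s hs
    refine nob_all S i j t0 σ δ s σ' (b s) hσ'σ' hδ1 hCO hs.1.1 (hend s hs).le (hb0 s hs.1) hs.1.2.1
      (fun h => hb2 s hs.1 ⟨hend s hs, h⟩) (fun w h1 h2 => (hb1 s hs.1 w h1 h2).1) ?_ (δ / 2)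
      (by linarith) (by linarith)
    obtain ⟨-, -, η, hη, h1⟩ := hs.1
    have hb := hb0 s hs.1
    have hm : 0 < min η (b s) := lt_min hη hb
    obtain ⟨u, hu1, hu2, k, hk⟩ := h1 (min η (b s) / 2) (by linarith)
      (by have := min_le_left η (b s); linarith)
    exact ⟨u, hu1, hu2, min η (b s) / 2, by linarith,
      by have := min_le_right η (b s); linarith, k, hk⟩
  choose! w hw0 hwb k hk using hall
  obtain ⟨K, hK, hKx⟩ := hCO (δ / 2) (by linarith) (by linarith)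
  have hfin := S.finite_plaques (S.c i (t0 + σ * (δ / 2))) K hK j (3 / 4) (by norm_num)
  refine Set.infinite_of_injOn_mapsTo (f := fun s => s + σ' * w s) (s := Q) ?_ ?_ hQ hfin
  · have key : ∀ s ∈ Q, ∀ s' ∈ Q, s + σ' * w s = s' + σ' * w s' → ¬ σ' * s < σ' * s' := by
      intro s hs s' hs' heq hlt
      have h1 := hdisj s hs.1 s' hs'.1 hlt
      have h2 : σ' * s' - σ' * s = w s - w s' := by
        linear_combination σ' * (-heq) + (w s - w s') * hσ'σ' 
      have h3 := hwb s hs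
      have h4 := hw0 s' hs'
      linarith
    intro s hs s' hs' heq
    have heq' : s + σ' * w s = s' + σ' * w s' := heq
    have h1 := key s hs s' hs' heq'
    have h2 := key s' hs' s hs heq'.symm
    have h3 : σ' * s = σ' * s' := le_antisymm (not_lt.1 h2) (not_lt.1 h1)
    have h4 : σ' ≠ 0 := by rcases hσ' with h | h <;> rw [h] <;> norm_num
    exact mul_left_cancel₀ h4 h3
  · intro s hs
    refine ⟨((hb1 s hs.1 (w s) (hw0 s hs) (hwb s hs)).1).le, ?_⟩
    obtain ⟨k', hk', h1⟩ := hKx (k s)⁻¹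
    refine ⟨k', hk', ?_⟩
    show S.c j (s + σ' * w s) = k' • S.c i (t0 + σ * (δ / 2))
    rw [← h1, hk s hs, inv_smul_smul]

end Pool.Agent.H88.LF
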