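import Pool.Agent.H88.LF.P7D
import Pool.Agent.H88.LF.CONV

/-!
# P7B (blueprint 9.1, 9.2): functions on `G` only
-/

set_option autoImplicit false

open MeasureTheory Set Filter
open scoped Topology

namespace Pool.Agent.H88.LF

theorem P7B_dir (i l : Fin 3) (h : i ≠ l) (a b : Fin 3) :
    ∃ w : ℝ × ℝ, w ≠ 0 ∧ cmp w i = cmp w l ∧ cmp w b ≤ cmp w a := by
  have key : ∃ w : ℝ × ℝ, w ≠ 0 ∧ cmp w i = cmp w l := by
    obtain ⟨w, hw⟩ := exists_cmp (fun j => if j = i ∨ j = l then 1 else -2) (by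
      fin_cases i <;> fin_cases l <;> first | exact absurd rfl h | (simp; try norm_num))
    refine ⟨w, ?_, ?_⟩
    · rintro rfl
      have h1 := hw i
      rw [if_pos (Or.inl rfl)] at h1
      have h2 := abs_cmp_le 0 i
      rw [norm_zero, mul_zero, h1, abs_one] at h2
      linarith
    · rw [hw, hw, if_pos (Or.inl rfl), if_pos (Or.inr rfl)]
  obtain ⟨w, hw0, hw⟩ := key
  rcases le_total (cmp w b) (cmp w a) with h1 | h1
  · exact ⟨w, hw0, hw, h1⟩
  · refine ⟨-w, neg_ne_zero.2 hw0, ?_, ?_⟩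
    · rw [cmp_neg, cmp_neg, hw]
    · rw [cmp_neg, cmp_neg]
      exact neg_le_neg h1

/-- Half plane uniqueness: the boundary line `v_i = v_l` contains directions in which `v_a - v_b ≥ 0` for any given `(a,b)`. -/
theorem p7_half (i l : Fin 3) (h : i ≠ l) (M : Mat)
    (hM : ∀ δ : ℝ, 0 < δ → ∃ r : ℝ, ∀ v : ℝ × ℝ, r ≤ ‖v‖ → cmp v i ≤ cmp v l →
      nrm ((D v).1 * M * ((D v)⁻¹).1) ≤ δ) : M = 0 := by
  ext a b
  rw [Matrix.zero_apply]
  obtain ⟨w, hw0, hw, hab⟩ := P7B_dir i l h a b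
  have hwn : 0 < ‖w‖ := norm_pos_iff.2 hw0
  have key : ∀ δ : ℝ, 0 < δ → |M a b| ≤ δ := by
    intro δ hδ
    obtain ⟨r, hr⟩ := hM δ hδ
    set t : ℝ := |r| / ‖w‖ with ht
    have ht0 : 0 ≤ t := by positivity
    have h1 : r ≤ ‖t • w‖ := by
      rw [norm_smul, Real.norm_of_nonneg ht0, ht, div_mul_cancel₀ _ hwn.ne']
      exact le_abs_self r
    have h2 := hr (t • w) h1 (by rw [cmp_smul, cmp_smul, hw])
    have h3 := (abs_le_nrm _ a b).trans h2
    rw [D_conj_entry, abs_mul, abs_of_pos (Real.exp_pos _), cmp_smul, cmp_smul] at h3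
    have h4 : 1 ≤ Real.exp (t * cmp w a - t * cmp w b) := by
      apply Real.one_le_exp
      rw [← mul_sub]
      exact mul_nonneg ht0 (sub_nonneg.2 hab)
    calc |M a b| = 1 * |M a b| := (one_mul _).symm
      _ ≤ Real.exp (t * cmp w a - t * cmp w b) * |M a b| :=
        mul_le_mul_of_nonneg_right h4 (abs_nonneg _)
      _ ≤ δ := h3
  have h5 : |M a b| ≤ 0 := le_of_forall_pos_le_add fun δ hδ => by
    rw [zero_add]; exact key δ hδ
  exact abs_nonpos_iff.1 h5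

theorem P7B_ev {P : ℝ × ℝ → Prop} (h : ∀ᶠ v in cocompact (ℝ × ℝ), P v) :
    ∃ r : ℝ, ∀ v, r ≤ ‖v‖ → P v := by
  rw [← Metric.cobounded_eq_cocompact, ← comap_norm_atTop, eventually_comap,
    eventually_atTop] at h
  obtain ⟨r, hr⟩ := h
  exact ⟨r, fun v hv => hr ‖v‖ hv v rfl⟩

theorem P7B_diff (B : G → Mat) (ζ ζ' : Mat) (g : G) (v : ℝ × ℝ) :
    (D v).1 * (g.1 * (ζ - ζ') * (g⁻¹).1) * ((D v)⁻¹).1 =
      NN B ζ (D v * g) - NN B ζ' (D v * g) := by
  unfold NN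
  have h1 : (D v * g).1 = (D v).1 * g.1 := rfl
  have h2 : ((D v * g)⁻¹).1 = (g⁻¹).1 * ((D v)⁻¹).1 := by
    rw [mul_inv_rev]; rfl
  rw [h1, h2]
  noncomm_ring

theorem P7B_zero {ζ ζ' : Mat} {g : G} (h : g.1 * (ζ - ζ') * (g⁻¹).1 = 0) : ζ = ζ' := by
  have e0 : (g⁻¹).1 * g.1 = 1 := by
    rw [← Matrix.SpecialLinearGroup.coe_mul, inv_mul_cancel]; rfl
  have h1 : (g⁻¹).1 * (g.1 * (ζ - ζ') * (g⁻¹).1) * g.1 = 0 := by
    rw [h, mul_zero, zero_mul]
  have h2 : (g⁻¹).1 * (g.1 * (ζ - ζ') * (g⁻¹).1) * g.1 =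
      ((g⁻¹).1 * g.1) * (ζ - ζ') * ((g⁻¹).1 * g.1) := by noncomm_ring
  rw [h2, e0, one_mul, mul_one] at h1
  exact sub_eq_zero.1 h1

/-- Uniqueness of the stable correction at one `g`. -/
theorem Stab.unique {B : G → Mat} {ζ ζ' : Mat} {g : G} (h : Stab B ζ g) (h' : Stab B ζ' g) :
    ζ = ζ' := by
  apply P7B_zero (g := g)
  refine p7_half 0 1 (by decide) _ fun δ hδ => ?_
  have h1 := (tendsto_order.1 h).2 (δ / 2) (half_pos hδ)
  have h2 := (tendsto_order.1 h').2 (δ / 2) (half_pos hδ)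
  obtain ⟨r, hr⟩ := P7B_ev (h1.and h2)
  refine ⟨r, fun v hv _ => ?_⟩
  rw [P7B_diff B]
  have h3 := hr v hv
  exact (nrm_sub_le _ _).trans (by linarith [h3.1, h3.2])

/-- Invariance under root groups: on the half plane `v_i ≤ v_l` one has `D v * U = U' * D v` with `U' = U i l (s e^{v_i-v_l})` in a compact set. -/
theorem Stab.root_inv {w : G → ℝ} {B : G → Mat} (hq : Quasi w B) {ζ ζ' : Mat} {g : G}
    (i l : Fin 3) (h : i ≠ l) (s : ℝ)
    (hw : Tendsto (fun v : ℝ × ℝ => w (D v * g)) (cocompact (ℝ × ℝ)) (𝓝 0))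
    (h1 : Stab B ζ g) (h2 : Stab B ζ' (U i l h s * g)) : ζ = ζ' := by
  set Q : Set G := U i l h '' Icc (-|s|) |s| with hQ
  have hQc : IsCompact Q := isCompact_Icc.image (continuous_U i l h)
  obtain ⟨C, hC0, hC⟩ := hq Q hQc
  obtain ⟨C', hC'1, hC'⟩ := exists_bound_of_isCompact hQc
  have hC'0 : 0 < C' := by linarith
  apply P7B_zero (g := g)
  refine p7_half i l h _ fun δ hδ => ?_
  set η : ℝ := δ / (2 * (C' * C') * (1 + C)) with hη
  have hη0 : 0 < η := by positivity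
  have e1 := (tendsto_order.1 h1).2 (δ / 2) (half_pos hδ)
  have e2 := (tendsto_order.1 h2).2 η hη0
  have e3 := (tendsto_order.1 hw).2 η hη0
  obtain ⟨r, hr⟩ := P7B_ev ((e1.and e2).and e3)
  refine ⟨r, fun v hv hvil => ?_⟩
  rw [P7B_diff B]
  obtain ⟨⟨k1, k2⟩, k3⟩ := hr v hv
  set q : G := U i l h (Real.exp (cmp v i - cmp v l) * s) with hqdef
  have hqQ : q ∈ Q := by
    refine ⟨_, ?_, rfl⟩
    rw [Set.mem_Icc, ← abs_le, abs_mul, abs_of_pos (Real.exp_pos _)]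
    have : Real.exp (cmp v i - cmp v l) ≤ 1 := by
      rw [Real.exp_le_one_iff]
      linarith
    exact mul_le_of_le_one_left (abs_nonneg _) this
  have hcomm : D v * (U i l h s * g) = q * (D v * g) := by
    rw [← mul_assoc, D_mul_U, mul_assoc]
  rw [hcomm] at k2
  have hE := (hC q hqQ (D v * g)).2
  set x : G := D v * g with hx
  have hqi : (q⁻¹).1 * q.1 = 1 := by
    rw [← Matrix.SpecialLinearGroup.coe_mul, inv_mul_cancel]; rfl
  have hrel : NN B ζ' x = (q⁻¹).1 * (NN B ζ' (q * x) - (B (q * x) - q.1 * B x * (q⁻¹).1)) * q.1 := by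
    unfold NN
    have m1 : (q * x).1 = q.1 * x.1 := rfl
    have m2 : ((q * x)⁻¹).1 = (x⁻¹).1 * (q⁻¹).1 := by
      rw [mul_inv_rev]; rfl
    rw [m1, m2]
    have m3 : (q⁻¹).1 * (B (q * x) + q.1 * x.1 * ζ' * ((x⁻¹).1 * (q⁻¹).1) -
        (B (q * x) - q.1 * B x * (q⁻¹).1)) * q.1 =
        ((q⁻¹).1 * q.1) * (B x + x.1 * ζ' * (x⁻¹).1) * ((q⁻¹).1 * q.1) := by
      noncomm_ring
    rw [m3, hqi, one_mul, mul_one]
  have hbd : nrm (NN B ζ' x) ≤ δ / 2 := by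
    rw [hrel]
    have n1 := (hC' q hqQ).1
    have n2 := (hC' q hqQ).2
    have n3 : nrm (NN B ζ' (q * x) - (B (q * x) - q.1 * B x * (q⁻¹).1)) ≤ η * (1 + C) := by
      refine (nrm_sub_le _ _).trans ?_
      have n4 : C * w x ≤ C * η := mul_le_mul_of_nonneg_left k3.le hC0.le
      linarith
    calc nrm ((q⁻¹).1 * (NN B ζ' (q * x) - (B (q * x) - q.1 * B x * (q⁻¹).1)) * q.1)
        ≤ nrm (q⁻¹).1 * nrm (NN B ζ' (q * x) - (B (q * x) - q.1 * B x * (q⁻¹).1)) * nrm q.1 :=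
          (nrm_mul_le _ _).trans (mul_le_mul_of_nonneg_right (nrm_mul_le _ _) (nrm_nonneg _))
      _ ≤ C' * (η * (1 + C)) * C' := by
          refine mul_le_mul ?_ n1 (nrm_nonneg _) (by positivity)
          exact mul_le_mul n2 n3 (nrm_nonneg _) hC'0.le
      _ = δ / 2 := by
          rw [hη]
          field_simp
  exact (nrm_sub_le _ _).trans (by linarith)

end Pool.Agent.H88.LF
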