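import Pool.Agent.H88.LF.P7A
import Pool.Agent.H88.LF.P7B
import Pool.Agent.H88.LF.GBD
import Pool.Agent.H88.LF.GBE

/-!
# P7 (blueprint 9.1, 9.2): functions on `G` only
-/

set_option autoImplicit false

open MeasureTheory Set Filter
open scoped Topology

namespace Pool.Agent.H88.LF

/-- A direction in which `v_a - v_b` is nonnegative. -/
theorem p7_dir (a b : Fin 3) : ∃ v : ℝ × ℝ, v ≠ 0 ∧ 0 ≤ cmp v a - cmp v b := by
  have h1 : ((1, 0) : ℝ × ℝ) ≠ 0 := by
    intro h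
    have := congrArg Prod.fst h
    simp at this
  by_cases h : 0 ≤ cmp (1, 0) a - cmp (1, 0) b
  · exact ⟨(1, 0), h1, h⟩
  · refine ⟨-(1, 0), neg_ne_zero.2 h1, ?_⟩
    rw [cmp_neg, cmp_neg]
    linarith [not_le.1 h]

theorem p7_decay {ε R : ℝ} (hε : 0 < ε) :
    Tendsto (fun v : ℝ × ℝ => R * Real.exp (-ε * ‖v‖)) (cocompact (ℝ × ℝ)) (𝓝 0) := by
  have h1 : Tendsto (fun v : ℝ × ℝ => ε * ‖v‖) (cocompact (ℝ × ℝ)) atTop :=
    (tendsto_norm_cocompact_atTop (E := ℝ × ℝ)).const_mul_atTop hε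
  have h2 : Tendsto (fun v : ℝ × ℝ => Real.exp (-(ε * ‖v‖))) (cocompact (ℝ × ℝ)) (𝓝 0) :=
    Real.tendsto_exp_neg_atTop_nhds_zero.comp h1
  have h3 := h2.const_mul R
  rw [mul_zero] at h3
  refine h3.congr fun v => ?_
  rw [neg_mul]

/-- The entries of the stable correction are limits along fixed directions. -/
theorem p7_entry {B : G → Mat} {ζ : Mat} {g : G} (h : Stab B ζ g) (a b : Fin 3) (v : ℝ × ℝ)
    (hv0 : v ≠ 0) (hv : 0 ≤ cmp v a - cmp v b) :
    Tendsto (fun n : ℕ => Real.exp (-(cmp ((n : ℝ) • v) a - cmp ((n : ℝ) • v) b)) *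
      B (D ((n : ℝ) • v) * g) a b) atTop (𝓝 (-(g.1 * ζ * (g⁻¹).1) a b)) := by
  have h1 : Tendsto (fun n : ℕ => (n : ℝ) • v) atTop (cocompact (ℝ × ℝ)) := by
    rw [← Metric.cobounded_eq_cocompact, ← comap_norm_atTop, tendsto_comap_iff]
    have h2 : (norm ∘ fun n : ℕ => (n : ℝ) • v) = fun n : ℕ => (n : ℝ) * ‖v‖ := by
      funext n
      simp [norm_smul]
    rw [h2]
    exact tendsto_natCast_atTop_atTop.atTop_mul_const (norm_pos_iff.2 hv0)
  have h2 := h.comp h1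
  rw [tendsto_iff_norm_sub_tendsto_zero]
  refine squeeze_zero (fun n => norm_nonneg _) (fun n => ?_) h2
  set u := (n : ℝ) • v with hu
  have h3 : 0 ≤ cmp u a - cmp u b := by
    rw [hu, cmp_smul, cmp_smul, ← mul_sub]
    exact mul_nonneg (Nat.cast_nonneg n) hv
  have h4 : NN B ζ (D u * g) = B (D u * g) + (D u).1 * (g.1 * ζ * (g⁻¹).1) * ((D u)⁻¹).1 := by
    unfold NN
    have h5 : (D u * g).1 = (D u).1 * g.1 := rfl
    have h6 : ((D u * g)⁻¹).1 = (g⁻¹).1 * ((D u)⁻¹).1 := by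
      rw [mul_inv_rev]; rfl
    rw [h5, h6]
    noncomm_ring
  have h7 : NN B ζ (D u * g) a b = B (D u * g) a b +
      Real.exp (cmp u a - cmp u b) * (g.1 * ζ * (g⁻¹).1) a b := by
    rw [h4, Matrix.add_apply, D_conj_entry]
  have h8 : Real.exp (-(cmp u a - cmp u b)) * B (D u * g) a b - -(g.1 * ζ * (g⁻¹).1) a b =
      Real.exp (-(cmp u a - cmp u b)) * NN B ζ (D u * g) a b := by
    rw [h7, mul_add, ← mul_assoc, ← Real.exp_add, neg_add_cancel, Real.exp_zero, one_mul,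
      sub_neg_eq_add]
  show ‖Real.exp (-(cmp u a - cmp u b)) * B (D u * g) a b - -(g.1 * ζ * (g⁻¹).1) a b‖ ≤
    nrm (NN B ζ (D u * g))
  rw [h8, norm_mul, Real.norm_eq_abs, Real.norm_eq_abs, abs_of_pos (Real.exp_pos _)]
  calc Real.exp (-(cmp u a - cmp u b)) * |NN B ζ (D u * g) a b|
      ≤ 1 * |NN B ζ (D u * g) a b| := by
        refine mul_le_mul_of_nonneg_right ?_ (abs_nonneg _)
        rw [← Real.exp_zero]
        exact Real.exp_le_exp.2 (by linarith)
    _ = |NN B ζ (D u * g) a b| := one_mul _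
    _ ≤ _ := abs_le_nrm _ a b

/-- P7 core.  The stable correction `ζ(g)` exists for a.e. `g`; it is a measurable function of `g` (limit of continuous functions on the measurable full set where the
limit exists; entries one by one), invariant under root groups; `erg_fun`. -/
theorem p7_core (w : G → ℝ) (B : G → Mat) (hwc : Continuous w) (hBc : Continuous B)
    (hw0 : ∀ g, 0 ≤ w g) (hq : Quasi w B) (ε : ℝ) (hε : 0 < ε) (hε1 : ε ≤ 1)
    (hgood : ∀ᵐ g ∂hG, ∃ R : ℝ, ∀ v : ℝ × ℝ, w (D v * g) ≤ R * Real.exp (-ε * ‖v‖)) :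
    ∃ ζ : Mat, ∀ᵐ g ∂hG, Stab B ζ g := by
  classical
  obtain ⟨Cq, hCq, hq1⟩ := hq _ (isCompact_D_image 1)
  have hB1 : ∀ (u : ℝ × ℝ) (g : G), ‖u‖ ≤ 1 →
      nrm (B (D u * g) - (D u).1 * B g * ((D u)⁻¹).1) ≤ Cq * w g := by
    intro u g hu
    exact (hq1 (D u) ⟨u, hu, rfl⟩ g).2
  obtain ⟨C1, hC1, hex⟩ := p7_exists ε Cq hε hε1 hCq
  have hstab : ∀ᵐ g ∂hG, ∃ ζ : Mat, Stab B ζ g := by
    filter_upwards [hgood] with g hg
    obtain ⟨R, hR⟩ := hg
    obtain ⟨ζ, hζ, -⟩ := hex w B hw0 hB1 g R hR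
    refine ⟨ζ, ?_⟩
    refine squeeze_zero (fun v => nrm_nonneg _) hζ ?_
    have h := p7_decay (ε := ε / 2) (R := C1 * R) (by positivity)
    refine h.congr fun v => ?_
    congr 2
    ring
  have hwt : ∀ᵐ g ∂hG, Tendsto (fun v : ℝ × ℝ => w (D v * g)) (cocompact (ℝ × ℝ)) (𝓝 0) := by
    filter_upwards [hgood] with g hg
    obtain ⟨R, hR⟩ := hg
    exact squeeze_zero (fun v => hw0 _) hR (p7_decay hε)
  -- the chosen correction
  let z : G → Mat := fun g => if h : ∃ ζ : Mat, Stab B ζ g then h.choose else 0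
  have hz : ∀ g, (∃ ζ : Mat, Stab B ζ g) → Stab B (z g) g := by
    intro g hg
    show Stab B (if h : ∃ ζ : Mat, Stab B ζ g then h.choose else 0) g
    rw [dif_pos hg]
    exact hg.choose_spec
  -- measurability
  choose dir hdir0 hdir using p7_dir
  let Ln : ℕ → G → Mat := fun n g => Matrix.of fun a b =>
    Real.exp (-(cmp ((n : ℝ) • dir a b) a - cmp ((n : ℝ) • dir a b) b)) *
      B (D ((n : ℝ) • dir a b) * g) a b
  have hLn : ∀ n, Continuous (Ln n) := by
    intro n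
    refine continuous_matrix fun a b => ?_
    exact continuous_const.mul
      ((hBc.comp (continuous_const.mul continuous_id)).matrix_elem a b)
  let fn : ℕ → G → (Fin 3 → Fin 3 → ℝ) := fun n g => -((g⁻¹).1 * Ln n g * g.1)
  have hval : Continuous (fun g : G => (g.1 : Mat)) := closedEmb_val.continuous
  have hfn : ∀ n, Continuous (fn n) := by
    intro n
    have h1 : Continuous (fun g : G => ((g⁻¹).1 : Mat)) := hval.comp continuous_inv
    exact ((h1.matrix_mul (hLn n)).matrix_mul hval).neg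
  let z' : G → (Fin 3 → Fin 3 → ℝ) := z
  have hlim : ∀ᵐ g ∂hG, Tendsto (fun n => fn n g) atTop (𝓝 (z' g)) := by
    filter_upwards [hstab] with g hg
    have h1 := hz g hg
    have h2 : Tendsto (fun n => Ln n g) atTop (𝓝 (-(g.1 * z g * (g⁻¹).1))) := by
      refine tendsto_pi_nhds.2 fun a => tendsto_pi_nhds.2 fun b => ?_
      exact p7_entry h1 a b (dir a b) (hdir0 a b) (hdir a b)
    have h3 : Continuous (fun M : Mat => (-((g⁻¹).1 * M * g.1) : Mat)) :=
      ((continuous_const.matrix_mul continuous_id).matrix_mul continuous_const).neg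
    have h4 := (h3.tendsto _).comp h2
    have h5 : -((g⁻¹).1 * -(g.1 * z g * (g⁻¹).1) * g.1) = z g := by
      have h6 : (g⁻¹).1 * g.1 = 1 := by
        rw [← Matrix.SpecialLinearGroup.coe_mul, inv_mul_cancel]; rfl
      calc -((g⁻¹).1 * -(g.1 * z g * (g⁻¹).1) * g.1)
          = ((g⁻¹).1 * g.1) * z g * ((g⁻¹).1 * g.1) := by noncomm_ring
        _ = z g := by rw [h6, one_mul, mul_one]
    rw [h5] at h4
    exact h4
  have hzm : AEMeasurable z' hG :=
    aemeasurable_of_tendsto_metrizable_ae' (fun n => (hfn n).measurable.aemeasurable) hlim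
  -- invariance
  have hinv : ∀ (i l : Fin 3) (hil : i ≠ l) (s : ℝ), ∀ᵐ g ∂hG,
      hzm.mk z' (U i l hil s * g) = hzm.mk z' g := by
    intro i l hil s
    filter_upwards [hzm.ae_eq_mk, ae_mul_left (U i l hil s) hzm.ae_eq_mk, hstab,
      ae_mul_left (U i l hil s) hstab, hwt] with g h1 h2 h3 h4 h5
    rw [← h1, ← h2]
    exact (Stab.root_inv hq i l hil s h5 (hz g h3) (hz _ h4)).symm
  obtain ⟨c, hc⟩ := erg_fun (hzm.mk z') hzm.measurable_mk hinv
  refine ⟨c, ?_⟩
  filter_upwards [hc, hzm.ae_eq_mk, hstab] with g h1 h2 h3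
  have h4 : z g = c := h2.trans h1
  rw [← h4]
  exact hz g h3

end Pool.Agent.H88.LF
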