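import Pool.Agent.H88.LF.P7D
import Pool.Agent.H88.LF.CONV

/-!
# P7A (blueprint 9.1, 9.2): functions on `G` only
-/

set_option autoImplicit false

open MeasureTheory Set Filter
open scoped Topology

namespace Pool.Agent.H88.LF

theorem P7A_cmp4 (u : ℝ × ℝ) (hu : ‖u‖ ≤ 1) (a b : Fin 3) : -(cmp u a - cmp u b) ≤ 4 := by
  have h1 := abs_le.1 (abs_cmp_le u a)
  have h2 := abs_le.1 (abs_cmp_le u b)
  linarith [h1.1, h2.2]

theorem P7A_step (Cq : ℝ) (w : G → ℝ) (B : G → Mat)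
    (hB : ∀ (u : ℝ × ℝ) (g : G), ‖u‖ ≤ 1 →
      nrm (B (D u * g) - (D u).1 * B g * ((D u)⁻¹).1) ≤ Cq * w g) (g : G) (a b : Fin 3)
    (v u : ℝ × ℝ) (hu : ‖u‖ ≤ 1) :
    |Real.exp (-(cmp (v + u) a - cmp (v + u) b)) * B (D (v + u) * g) a b -
      Real.exp (-(cmp v a - cmp v b)) * B (D v * g) a b| ≤
      Real.exp 4 * (Cq * w (D v * g)) * Real.exp (-(cmp v a - cmp v b)) := by
  have h1 : D (v + u) * g = D u * (D v * g) := by
    rw [D_add, D_comm, mul_assoc]
  have h2 := (abs_le_nrm (B (D u * (D v * g)) - (D u).1 * B (D v * g) * ((D u)⁻¹).1) a b).trans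
    (hB u (D v * g) hu)
  rw [Matrix.sub_apply, D_conj_entry] at h2
  have h3 : Real.exp (-(cmp (v + u) a - cmp (v + u) b)) =
      Real.exp (-(cmp v a - cmp v b)) * Real.exp (-(cmp u a - cmp u b)) := by
    rw [← Real.exp_add, cmp_add, cmp_add]
    congr 1
    ring
  have h4 : Real.exp (-(cmp u a - cmp u b)) * Real.exp (cmp u a - cmp u b) = 1 := by
    rw [← Real.exp_add, neg_add_cancel, Real.exp_zero]
  have h5 : Real.exp (-(cmp (v + u) a - cmp (v + u) b)) * B (D (v + u) * g) a b -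
      Real.exp (-(cmp v a - cmp v b)) * B (D v * g) a b =
      Real.exp (-(cmp v a - cmp v b)) * (Real.exp (-(cmp u a - cmp u b)) *
        (B (D u * (D v * g)) a b - Real.exp (cmp u a - cmp u b) * B (D v * g) a b)) := by
    rw [h1, h3]
    have h6 : B (D v * g) a b = (Real.exp (-(cmp u a - cmp u b)) * Real.exp (cmp u a - cmp u b)) *
      B (D v * g) a b := by rw [h4, one_mul]
    conv_lhs => rw [h6]
    ring
  rw [h5, abs_mul, abs_mul, abs_of_pos (Real.exp_pos _), abs_of_pos (Real.exp_pos _)]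
  have h7 : Real.exp (-(cmp u a - cmp u b)) ≤ Real.exp 4 := Real.exp_le_exp.2 (P7A_cmp4 u hu a b)
  have h8 : Real.exp (-(cmp u a - cmp u b)) *
      |B (D u * (D v * g)) a b - Real.exp (cmp u a - cmp u b) * B (D v * g) a b| ≤
      Real.exp 4 * (Cq * w (D v * g)) :=
    mul_le_mul h7 h2 (abs_nonneg _) (Real.exp_pos _).le
  calc Real.exp (-(cmp v a - cmp v b)) * (Real.exp (-(cmp u a - cmp u b)) *
      |B (D u * (D v * g)) a b - Real.exp (cmp u a - cmp u b) * B (D v * g) a b|)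
      ≤ Real.exp (-(cmp v a - cmp v b)) * (Real.exp 4 * (Cq * w (D v * g))) :=
        mul_le_mul_of_nonneg_left h8 (Real.exp_pos _).le
    _ = _ := by ring

/-- Existence with explicit constants.  `b(v) = D(-v) B(D v g) D(v)` (conjugation): `|(b(v+u) - b(v))_{ab}| ≤ C e^{-(v_a-v_b)} w(D v g)` for `‖u‖ ≤ 1`;
`conv_off` for `a ≠ b`, `conv_diag` for `a = b` give limits `L_ab` with `|e^{v_a-v_b}(b(v) - L)_{ab}| ≤ C R e^{-ε‖v‖/2}`; `ζ = - g⁻¹ L g`. -/
theorem p7_exists (ε Cq : ℝ) (hε : 0 < ε) (hε1 : ε ≤ 1) (hCq : 0 < Cq) :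
    ∃ C : ℝ, 0 < C ∧ ∀ (w : G → ℝ) (B : G → Mat), (∀ g, 0 ≤ w g) →
      (∀ (u : ℝ × ℝ) (g : G), ‖u‖ ≤ 1 →
        nrm (B (D u * g) - (D u).1 * B g * ((D u)⁻¹).1) ≤ Cq * w g) →
      ∀ (g : G) (R : ℝ), (∀ v : ℝ × ℝ, w (D v * g) ≤ R * Real.exp (-ε * ‖v‖)) →
        ∃ ζ : Mat, (∀ v : ℝ × ℝ, nrm (NN B ζ (D v * g)) ≤ C * R * Real.exp (-ε * ‖v‖ / 2)) ∧
          nrm ζ ≤ nrm (g⁻¹).1 * nrm g.1 * (nrm (B g) + C * R) := by
  obtain ⟨C1, hC1, hdiag⟩ := conv_diag ε hε
  obtain ⟨C2, hC2, hoff⟩ := conv_off ε hε hε1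
  set Cm := max C1 C2 with hCm
  have hCm0 : 0 < Cm := lt_max_of_lt_left hC1
  refine ⟨9 * (Cm * (Real.exp 4 * Cq)), by positivity, fun w B hw0 hB g R hR => ?_⟩
  have hR0 : 0 ≤ R := by
    have h := (hw0 _).trans (hR 0)
    rwa [norm_zero, mul_zero, Real.exp_zero, mul_one] at h
  set C := Real.exp 4 * Cq * R with hC
  have hC0 : 0 ≤ C := by positivity
  -- the entries of the limit
  have hL : ∀ a b : Fin 3, ∃ L : ℝ, ∀ v : ℝ × ℝ,
      Real.exp (cmp v a - cmp v b) *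
        |Real.exp (-(cmp v a - cmp v b)) * B (D v * g) a b - L| ≤
        Cm * C * Real.exp (-ε * ‖v‖ / 2) := by
    intro a b
    have hstep : ∀ v u : ℝ × ℝ, ‖u‖ ≤ 1 →
        |Real.exp (-(cmp (v + u) a - cmp (v + u) b)) * B (D (v + u) * g) a b -
          Real.exp (-(cmp v a - cmp v b)) * B (D v * g) a b| ≤
        C * Real.exp (-ε * ‖v‖ - (cmp v a - cmp v b)) := by
      intro v u hu
      refine (P7A_step Cq w B hB g a b v u hu).trans ?_
      have h1 : Real.exp (-ε * ‖v‖ - (cmp v a - cmp v b)) =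
          Real.exp (-ε * ‖v‖) * Real.exp (-(cmp v a - cmp v b)) := by
        rw [← Real.exp_add]
        congr 1
      rw [h1]
      have h2 : Real.exp 4 * (Cq * w (D v * g)) ≤ C * Real.exp (-ε * ‖v‖) := by
        have h3 := mul_le_mul_of_nonneg_left (hR v) (by positivity : 0 ≤ Real.exp 4 * Cq)
        calc Real.exp 4 * (Cq * w (D v * g)) = Real.exp 4 * Cq * w (D v * g) := by ring
          _ ≤ Real.exp 4 * Cq * (R * Real.exp (-ε * ‖v‖)) := h3
          _ = _ := by rw [hC]; ring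
      calc Real.exp 4 * (Cq * w (D v * g)) * Real.exp (-(cmp v a - cmp v b))
          ≤ C * Real.exp (-ε * ‖v‖) * Real.exp (-(cmp v a - cmp v b)) :=
            mul_le_mul_of_nonneg_right h2 (Real.exp_pos _).le
        _ = _ := by ring
    by_cases hab : a = b
    · subst hab
      obtain ⟨L, hL⟩ := hdiag C
        (fun v => Real.exp (-(cmp v a - cmp v a)) * B (D v * g) a a) hC0 (fun v u hu => by
          have h := hstep v u hu
          rw [sub_self (cmp v a), sub_zero] at h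
          rw [sub_self (cmp v a)]
          exact h)
      refine ⟨L, fun v => ?_⟩
      rw [sub_self, Real.exp_zero, one_mul]
      have h := hL v
      rw [sub_self] at h
      refine h.trans ?_
      have h2 : C1 * C ≤ Cm * C := mul_le_mul_of_nonneg_right (le_max_left _ _) hC0
      exact mul_le_mul_of_nonneg_right h2 (Real.exp_pos _).le
    · obtain ⟨L, hL⟩ := hoff a b hab C
        (fun v => Real.exp (-(cmp v a - cmp v b)) * B (D v * g) a b) hC0 hstep
      refine ⟨L, fun v => ?_⟩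
      have h := mul_le_mul_of_nonneg_left (hL v) (Real.exp_pos (cmp v a - cmp v b)).le
      refine h.trans ?_
      have h1 : Real.exp (cmp v a - cmp v b) *
          (C2 * C * Real.exp (-ε * ‖v‖ - (cmp v a - cmp v b))) =
          C2 * C * Real.exp (-ε * ‖v‖) := by
        have h2 : Real.exp (-ε * ‖v‖) = Real.exp (cmp v a - cmp v b) *
            Real.exp (-ε * ‖v‖ - (cmp v a - cmp v b)) := by
          rw [← Real.exp_add]
          congr 1
          ring
        rw [h2]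
        ring
      rw [h1]
      have h2 : C2 * C ≤ Cm * C := mul_le_mul_of_nonneg_right (le_max_right _ _) hC0
      have h3 : Real.exp (-ε * ‖v‖) ≤ Real.exp (-ε * ‖v‖ / 2) := by
        apply Real.exp_le_exp.2
        have : 0 ≤ ε * ‖v‖ := by positivity
        linarith
      exact mul_le_mul h2 h3 (Real.exp_pos _).le (by positivity)
  choose Lm hLm using hL
  set L : Mat := Matrix.of Lm with hLdef
  have hgg : g.1 * (g⁻¹).1 = 1 := by
    rw [← Matrix.SpecialLinearGroup.coe_mul, mul_inv_cancel]; rfl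
  set ζ : Mat := -((g⁻¹).1 * L * g.1) with hζ
  have hNN : ∀ v : ℝ × ℝ, NN B ζ (D v * g) = B (D v * g) - (D v).1 * L * ((D v)⁻¹).1 := by
    intro v
    unfold NN
    have h1 : (D v * g).1 = (D v).1 * g.1 := rfl
    have h2 : ((D v * g)⁻¹).1 = (g⁻¹).1 * ((D v)⁻¹).1 := by
      rw [mul_inv_rev]; rfl
    rw [h1, h2, hζ]
    have h3 : (D v).1 * g.1 * -((g⁻¹).1 * L * g.1) * ((g⁻¹).1 * ((D v)⁻¹).1) =
        -((D v).1 * (g.1 * (g⁻¹).1) * L * (g.1 * (g⁻¹).1) * ((D v)⁻¹).1) := by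
      noncomm_ring
    rw [h3, hgg, mul_one, mul_one, ← sub_eq_add_neg]
  have hbound : ∀ v : ℝ × ℝ, nrm (NN B ζ (D v * g)) ≤
      9 * (Cm * (Real.exp 4 * Cq)) * R * Real.exp (-ε * ‖v‖ / 2) := by
    intro v
    have h1 : nrm (NN B ζ (D v * g)) ≤ 9 * (Cm * C * Real.exp (-ε * ‖v‖ / 2)) := by
      refine nrm_le_of_entries _ _ fun a b => ?_
      rw [hNN, Matrix.sub_apply, D_conj_entry]
      have h2 := hLm a b v
      refine le_trans (le_of_eq ?_) h2
      rw [← abs_of_pos (Real.exp_pos (cmp v a - cmp v b)), ← abs_mul,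
        abs_of_pos (Real.exp_pos (cmp v a - cmp v b)), mul_sub, ← mul_assoc, ← Real.exp_add,
        add_neg_cancel, Real.exp_zero, one_mul]
      rfl
    refine h1.trans (le_of_eq ?_)
    rw [hC]
    ring
  refine ⟨ζ, hbound, ?_⟩
  have h0 := hbound 0
  rw [D_zero, one_mul, norm_zero, mul_zero, zero_div, Real.exp_zero, mul_one] at h0
  have h0' := hNN 0
  rw [D_zero, one_mul, inv_one] at h0'
  have h1 : (1 : G).1 * L * (1 : G).1 = L := by
    change (1 : Mat) * L * (1 : Mat) = L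
    rw [one_mul, mul_one]
  rw [h1] at h0'
  have h2 : nrm L ≤ nrm (B g) + 9 * (Cm * (Real.exp 4 * Cq)) * R := by
    have h3 : L = B g - NN B ζ g := by rw [h0']; abel
    rw [h3]
    exact (nrm_sub_le _ _).trans (add_le_add le_rfl h0)
  rw [hζ, nrm_neg]
  calc nrm ((g⁻¹).1 * L * g.1) ≤ nrm (g⁻¹).1 * nrm L * nrm g.1 :=
        (nrm_mul_le _ _).trans (mul_le_mul_of_nonneg_right (nrm_mul_le _ _) (nrm_nonneg _))
    _ = nrm (g⁻¹).1 * nrm g.1 * nrm L := by ring
    _ ≤ _ := mul_le_mul_of_nonneg_left h2 (mul_nonneg (nrm_nonneg _) (nrm_nonneg _))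

end Pool.Agent.H88.LF
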