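import Pool.Agent.H88.LF.P7
import Pool.Agent.H88.LF.TBD
import Pool.Agent.H88.LF.GOOD

/-!
# P7C (blueprint 9.3): the invariant line field

For `|t| < 1` let `w g = W g i t`, `B g = B g i t` (continuous in `g`); `W(D v g;i,t) = J(D v g, c i t) W(1;i,t)` decays for a.e. `g` (`good_unif`); `Quasi` from `J_bound` and `quasi`; `p7_core` gives
`ζ i t` (unique by `Stab.unique`).
Trace: take traces in `NN → 0`: `tr (NN) = tr ζ`.
Arrows: `B g i t + g ζ g⁻¹ = dτ • (B (gk) j τ + (gk) ζ' (gk)⁻¹)` with `ζ' = dτ⁻¹ k⁻¹(dk + ζ)k` (`rule`); for a.e. `g` the left side at `D v g` tends to `0`, and a.e. is stable under right translation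
(`ae_mul_right`), so `ζ' = ζ j τ`.
Continuity at `t∞`: let `t_m → t∞`.  With `ρ, ε` from `good_unif` choose `R` with bad measure `≤ hG(Bl ρ)/4`; near `t∞` the factors `W(1;i,t)` are bounded, so the constants `R' = R·sup W(1;i,·)` are uniform.  By
`p7_exists` and a.e. uniqueness `nrm (ζ i t_m) ≤ C`.  If `ζ i t_m` does not converge to `ζ i t∞` take a subsequence converging to `ζ* ≠ ζ i t∞`.  The set of `g ∈ Bl ρ` which are `R`-good for infinitely many
`t_m` of the subsequence has measure `≥ 3/4 hG(Bl ρ)`, so it contains some `g` with: `Stab` for all `(t_m, ζ i t_m)` and for `(t∞, ζ i t∞)`.  By uniqueness at `g` the `ζ` of `p7_exists` is `ζ i t_m`, so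
`nrm (NN (B · i t_m) (ζ i t_m) (D v g)) ≤ C R' e^{-ε‖v‖/2}` for infinitely many `m`; by continuity of `B` in `t` the same for `(t∞, ζ*)`: `Stab` for `ζ*` at `t∞`, so `ζ* = ζ i t∞`.
-/

set_option autoImplicit false

open MeasureTheory Set Filter
open scoped Topology ENNReal

namespace Pool.Agent.H88.LF

variable {X : Type} [MetricSpace X] [CompactSpace X] [MulAction G X] [ContinuousSMul G X]

/-- Existence for one curve and one parameter. -/
theorem P7C_one {S : FB X} {T : TN S} (hC : T.CStar) (Bd : TB T) (i : Fin S.n) (t : ℝ)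
    (ht : |t| < 1) : ∃ ζ : Mat, ∀ᵐ g ∂hG, Stab (fun g => Bd.B g i t) ζ g := by
  obtain ⟨ρ, -, -, ε, hε, hε1, -, hae⟩ := good_unif hC
  have hpair : Continuous (fun g : G => ((g, t) : G × ℝ)) := by fun_prop
  have hwc : Continuous (fun g : G => T.W g i t) := by
    rw [← continuousOn_univ]
    exact (T.cont i).comp hpair.continuousOn (fun g _ => ht)
  have hBc : Continuous (fun g : G => Bd.B g i t) := by
    rw [← continuousOn_univ]
    exact (Bd.cont i).comp hpair.continuousOn (fun g _ => ht)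
  refine p7_core (fun g => T.W g i t) (fun g => Bd.B g i t) hwc hBc
    (fun g => (T.pos g i t ht).le) ?_ ε hε hε1 ?_
  · intro Q hQ
    obtain ⟨C1, hC1, h1⟩ := T.J_bound hQ
    obtain ⟨C2, hC2, h2⟩ := Bd.quasi Q hQ
    refine ⟨max C1 C2, lt_max_of_lt_right hC2, fun q hq g => ⟨?_, ?_⟩⟩
    · change T.W (q * g) i t ≤ max C1 C2 * T.W g i t
      rw [T.W_mul q g i t ht]
      exact mul_le_mul_of_nonneg_right ((h1 q hq _).2.trans (le_max_left _ _)) (T.pos g i t ht).le
    · refine (h2 q hq g i t ht).trans ?_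
      exact mul_le_mul_of_nonneg_right (le_max_right _ _) (T.pos g i t ht).le
  · filter_upwards [hae (S.c i t)] with g hg
    obtain ⟨R, hR⟩ := hg
    refine ⟨R * T.W 1 i t, fun v => ?_⟩
    have h1 := T.W_mul (D v * g) 1 i t ht
    rw [mul_one, one_smul] at h1
    change T.W (D v * g) i t ≤ _
    rw [h1]
    calc T.J (D v * g) (S.c i t) * T.W 1 i t ≤ (R * Real.exp (-ε * ‖v‖)) * T.W 1 i t :=
          mul_le_mul_of_nonneg_right (hR v) (T.pos 1 i t ht).le
      _ = R * T.W 1 i t * Real.exp (-ε * ‖v‖) := by ring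

theorem P7C_exists {p : G → Prop} (h : ∀ᵐ g ∂hG, p g) : ∃ g, p g := by
  have : (hG : Measure G) ≠ 0 := NeZero.ne _
  haveI : NeBot (ae (hG : Measure G)) := ae_neBot.2 this
  exact h.exists

theorem P7C_trace {S : FB X} {T : TN S} (Bd : TB T) (i : Fin S.n) (t : ℝ) (ht : |t| < 1)
    {ζ : Mat} {g : G} (h : Stab (fun g => Bd.B g i t) ζ g) : Matrix.trace ζ = 0 := by
  have h1 : ∀ v : ℝ × ℝ, Matrix.trace (NN (fun g => Bd.B g i t) ζ (D v * g)) = Matrix.trace ζ := by
    intro v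
    unfold NN
    rw [Matrix.trace_add, Bd.tr _ _ _ ht, zero_add, Matrix.trace_mul_comm, ← mul_assoc]
    have h2 : ((D v * g)⁻¹).1 * (D v * g).1 = 1 := by
      rw [← Matrix.SpecialLinearGroup.coe_mul, inv_mul_cancel]; rfl
    rw [h2, one_mul]
  have h2 : ∀ v : ℝ × ℝ, |Matrix.trace ζ| ≤ 3 * nrm (NN (fun g => Bd.B g i t) ζ (D v * g)) := by
    intro v
    rw [← h1 v, Matrix.trace, Fin.sum_univ_three]
    refine (abs_add_le _ _).trans ?_
    have a0 := abs_le_nrm (NN (fun g => Bd.B g i t) ζ (D v * g)) 0 0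
    have a1 := abs_le_nrm (NN (fun g => Bd.B g i t) ζ (D v * g)) 1 1
    have a2 := abs_le_nrm (NN (fun g => Bd.B g i t) ζ (D v * g)) 2 2
    have a3 := abs_add_le (NN (fun g => Bd.B g i t) ζ (D v * g) 0 0)
      (NN (fun g => Bd.B g i t) ζ (D v * g) 1 1)
    simp only [Matrix.diag_apply]
    linarith
  have h3 : Tendsto (fun v : ℝ × ℝ => 3 * nrm (NN (fun g => Bd.B g i t) ζ (D v * g)))
      (cocompact (ℝ × ℝ)) (𝓝 (3 * 0)) := h.const_mul 3
  rw [mul_zero] at h3
  have h4 : |Matrix.trace ζ| ≤ 0 := ge_of_tendsto h3 (Eventually.of_forall h2)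
  exact abs_nonpos_iff.1 h4

theorem P7C_arr {S : FB X} {T : TN S} (Bd : TB T) {i j : Fin S.n} {t τ : ℝ} {k : G}
    (harr : S.Arr i j t τ k) {ζ : Mat} {g : G}
    (h : Stab (fun g => Bd.B g j τ) ζ (g * k)) :
    Stab (fun g => Bd.B g i t)
      (S.dτ i j t τ k • (k.1 * ζ * (k⁻¹).1) - S.dk i j t τ k) g := by
  have h1 : ∀ v : ℝ × ℝ, NN (fun g => Bd.B g i t)
      (S.dτ i j t τ k • (k.1 * ζ * (k⁻¹).1) - S.dk i j t τ k) (D v * g) =
      S.dτ i j t τ k • NN (fun g => Bd.B g j τ) ζ (D v * (g * k)) := by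
    intro v
    unfold NN
    have m1 : (D v * (g * k)).1 = (D v * g).1 * k.1 := by
      rw [← mul_assoc]; rfl
    have m2 : ((D v * (g * k))⁻¹).1 = (k⁻¹).1 * ((D v * g)⁻¹).1 := by
      rw [← mul_assoc, mul_inv_rev]; rfl
    have m3 : D v * (g * k) = D v * g * k := (mul_assoc _ _ _).symm
    simp only []
    rw [Bd.rule i j t τ k harr (D v * g), m1, m2, m3, mul_sub, sub_mul, mul_smul_comm,
      smul_mul_assoc, smul_add]
    simp only [mul_assoc]
    abel
  unfold Stab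
  have h2 : Tendsto (fun v : ℝ × ℝ => |S.dτ i j t τ k| *
      nrm (NN (fun g => Bd.B g j τ) ζ (D v * (g * k)))) (cocompact (ℝ × ℝ))
      (𝓝 (|S.dτ i j t τ k| * 0)) := h.const_mul _
  rw [mul_zero] at h2
  refine h2.congr fun v => ?_
  rw [h1 v, nrm_smul]

/-- Existence of `ζ` and the transformation law. -/
theorem line_field_ae {S : FB X} {T : TN S} (hC : T.CStar) (Bd : TB T) :
    ∃ ζ : Fin S.n → ℝ → Mat,
      (∀ i t, |t| < 1 → ∀ᵐ g ∂hG, Stab (fun g => Bd.B g i t) (ζ i t) g) ∧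
      (∀ i t, |t| < 1 → Matrix.trace (ζ i t) = 0) ∧
      ∀ i j t τ k, S.Arr i j t τ k →
        S.dk i j t τ k + ζ i t = S.dτ i j t τ k • (k.1 * ζ j τ * (k⁻¹).1) := by
  have h : ∀ (i : Fin S.n) (t : ℝ), ∃ ζ : Mat, |t| < 1 →
      ∀ᵐ g ∂hG, Stab (fun g => Bd.B g i t) ζ g := by
    intro i t
    by_cases ht : |t| < 1
    · obtain ⟨ζ, hζ⟩ := P7C_one hC Bd i t ht
      exact ⟨ζ, fun _ => hζ⟩
    · exact ⟨0, fun h => absurd h ht⟩
  choose ζ hζ using h
  refine ⟨ζ, hζ, fun i t ht => ?_, fun i j t τ k harr => ?_⟩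
  · obtain ⟨g, hg⟩ := P7C_exists (hζ i t ht)
    exact P7C_trace Bd i t ht hg
  · obtain ⟨g, h1, h2⟩ := P7C_exists ((hζ i t harr.1).and (ae_mul_right k (hζ j τ harr.2.1)))
    have h3 := h1.unique (P7C_arr Bd harr h2)
    rw [h3]
    abel

end Pool.Agent.H88.LF
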