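import Pool.Agent.H88.LF.GBA
import Pool.Agent.H88.LF.GBB

/-!
# P7D (blueprint 9.1, 9.2): definitions

`w : G → ℝ` is the transverse size, `B : G → Mat` the orbit component.  `N(g;ζ) = B g + g ζ g⁻¹`.
-/

set_option autoImplicit false

open MeasureTheory Set Filter
open scoped Topology

namespace Pool.Agent.H88.LF

/-- `N(g;ζ)` -/
noncomputable def NN (B : G → Mat) (ζ : Mat) (g : G) : Mat := B g + g.1 * ζ * (g⁻¹).1

/-- `ζ` is a stable correction at `g`. -/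
def Stab (B : G → Mat) (ζ : Mat) (g : G) : Prop :=
  Tendsto (fun v : ℝ × ℝ => nrm (NN B ζ (D v * g))) (cocompact (ℝ × ℝ)) (𝓝 0)

/-- The approximate cocycle inequalities. -/
def Quasi (w : G → ℝ) (B : G → Mat) : Prop :=
  ∀ Q : Set G, IsCompact Q → ∃ C : ℝ, 0 < C ∧ ∀ q ∈ Q, ∀ g : G,
    w (q * g) ≤ C * w g ∧ nrm (B (q * g) - q.1 * B g * (q⁻¹).1) ≤ C * w g

end Pool.Agent.H88.LF
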