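import Pool.Agent.H88.LF.LUB
import Pool.Agent.H88.LF.KN
import Pool.Agent.H88.LF.LOC

/-!
# SHA: (P1) of blueprint section 5
-/

set_option autoImplicit false

open MeasureTheory Set Filter
open scoped Topology ENNReal

namespace Pool.Agent.H88.LF

/-- `(1+u)^4 ≤ 1 + 15 u` for `0 ≤ u ≤ 1`. -/
theorem sha_pow4 (u : ℝ) (h0 : 0 ≤ u) (h1 : u ≤ 1) : (1 + u) ^ 4 ≤ 1 + 15 * u := by
  have h2 : u ^ 2 ≤ u := by nlinarith
  have h3 : u ^ 3 ≤ u := by nlinarith [mul_nonneg h0 h0]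
  have h4 : u ^ 4 ≤ u := by nlinarith [mul_nonneg h0 h0, mul_nonneg (mul_nonneg h0 h0) h0]
  nlinarith

theorem sha_nd2 (g h : G) (u : ℝ) (hg : nd g ≤ u) (hh : nd h ≤ u) (h0 : 0 ≤ u) (h1 : u ≤ 1) :
    nd (g * h) ≤ 3 * u := by
  have h2 := one_add_nd_mul g h
  have h3 := nd_nonneg g
  have h4 := nd_nonneg h
  have h5 : (1 + nd g) * (1 + nd h) ≤ (1 + u) * (1 + u) :=
    mul_le_mul (by linarith) (by linarith) (by linarith) (by linarith)
  nlinarith

theorem sha_nd4 (g1 g2 g3 g4 : G) (u : ℝ) (h1 : nd g1 ≤ u) (h2 : nd g2 ≤ u) (h3 : nd g3 ≤ u)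
    (h4 : nd g4 ≤ u) (hu0 : 0 ≤ u) (hu1 : u ≤ 1) :
    nd (g1 * (g2 * (g3 * g4))) ≤ 15 * u := by
  have a1 := one_add_nd_mul g1 (g2 * (g3 * g4))
  have a2 := one_add_nd_mul g2 (g3 * g4)
  have a3 := one_add_nd_mul g3 g4
  have n1 := nd_nonneg g1
  have n2 := nd_nonneg g2
  have n3 := nd_nonneg g3
  have n4 := nd_nonneg g4
  have b3 : (1 + nd g3) * (1 + nd g4) ≤ (1 + u) * (1 + u) :=
    mul_le_mul (by linarith) (by linarith) (by linarith) (by linarith)
  have b2 : (1 + nd g2) * (1 + nd (g3 * g4)) ≤ (1 + u) * ((1 + u) * (1 + u)) :=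
    mul_le_mul (by linarith) (by linarith) (by linarith [nd_nonneg (g3 * g4)]) (by linarith)
  have b1 : (1 + nd g1) * (1 + nd (g2 * (g3 * g4))) ≤ (1 + u) * ((1 + u) * ((1 + u) * (1 + u))) :=
    mul_le_mul (by linarith) (by linarith) (by linarith [nd_nonneg (g2 * (g3 * g4))])
      (by linarith)
  have := sha_pow4 u hu0 hu1
  nlinarith

variable {X : Type} [MetricSpace X] [CompactSpace X] [MulAction G X] [ContinuousSMul G X]

/-- The orbit bookkeeping: `tt`, `Y` from the local estimates. -/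
theorem sha_orbit {S : FB X} (T : TN S) (a : G) (C Cw δ K : ℝ) (hC : 1 ≤ C) (hCw : 1 ≤ Cw)
    (hK : K = Cw ^ 2 * Real.exp (2 * C))
    (hw : ∀ x : X, Cw⁻¹ ≤ T.w x ∧ T.w x ≤ Cw)
    (hloc : ∀ (x : X) (s : ℝ), |s| ≤ δ →
      ∃ (η : G) (F : ℝ), a • S.cur x s = η • S.cur (a • x) F ∧
        nd η ≤ C * |s| ∧
        T.w (a • x) * |F| ≤ T.J a x * T.w x * |s| * Real.exp (C * |s|) ∧
        |Real.log (T.J (η⁻¹ * a) (S.cur x s)) - Real.log (T.J a x)| ≤ C * |s|)
    (x0 : X) (n : ℕ) (r t c2 : ℝ) (hr : 0 < r) (hr1 : r ≤ 1) (ht : |t| < r) (g : G)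
    (hc2δ : K * c2 ≤ δ) (hc21 : K * c2 ≤ 1)
    (hsum : r * ∑ j ∈ Finset.range (n + 1), T.J (a ^ j * g) x0 ≤ c2)
    (η0 : G) (F0 : ℝ) (h0 : g • S.cur x0 t = η0 • S.cur (g • x0) F0)
    (h0w : T.w (g • x0) * |F0| ≤ T.J g x0 * T.w x0 * |t| * Real.exp (C * |t|))
    (h0J : |Real.log (T.J (η0⁻¹ * g) (S.cur x0 t)) - Real.log (T.J g x0)| ≤ C * |t|) :
    ∃ (tt : ℕ → ℝ) (η Y : ℕ → G), Y 0 = η0⁻¹ * g ∧ (∀ j, Y (j + 1) = (η j)⁻¹ * a * Y j) ∧
      (∀ j, j ≤ n → |tt j| ≤ K * c2) ∧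
      (∑ j ∈ Finset.range (n + 1), |tt j| ≤ K * c2) ∧
      (∀ j, j ≤ n → Y j • S.cur x0 t = S.cur ((a ^ j * g) • x0) (tt j)) ∧
      (∀ j, j ≤ n → nd (η j) ≤ C * |tt j|) ∧
      Real.log (T.J (a ^ n * g) x0) ≤ Real.log (T.J (Y n) (S.cur x0 t)) + 2 * C := by
  classical
  have hKpos : 0 < K := by rw [hK]; positivity
  -- choice functions
  have hch : ∀ (x : X) (s : ℝ), ∃ (p : G × ℝ), |s| ≤ δ →
      a • S.cur x s = p.1 • S.cur (a • x) p.2 ∧
        nd p.1 ≤ C * |s| ∧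
        T.w (a • x) * |p.2| ≤ T.J a x * T.w x * |s| * Real.exp (C * |s|) ∧
        |Real.log (T.J (p.1⁻¹ * a) (S.cur x s)) - Real.log (T.J a x)| ≤ C * |s| := by
    intro x s
    by_cases h : |s| ≤ δ
    · obtain ⟨η, F, h1⟩ := hloc x s h
      exact ⟨(η, F), fun _ => h1⟩
    · exact ⟨(1, 0), fun h' => absurd h' h⟩
  choose pf hpf using hch
  let tt : ℕ → ℝ := fun j => Nat.rec F0 (fun j s => (pf ((a ^ j * g) • x0) s).2) j
  have htt0 : tt 0 = F0 := rfl
  have htts : ∀ j, tt (j + 1) = (pf ((a ^ j * g) • x0) (tt j)).2 := fun j => rfl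
  let η : ℕ → G := fun j => (pf ((a ^ j * g) • x0) (tt j)).1
  let Y : ℕ → G := fun j => Nat.rec (η0⁻¹ * g) (fun j y => (η j)⁻¹ * a * y) j
  have hY0 : Y 0 = η0⁻¹ * g := rfl
  have hYs : ∀ j, Y (j + 1) = (η j)⁻¹ * a * Y j := fun j => rfl
  have hxs : ∀ j : ℕ, a • (a ^ j * g) • x0 = (a ^ (j + 1) * g) • x0 := by
    intro j
    rw [smul_smul, pow_succ']
    congr 1
    group
  have hbs : ∀ j : ℕ, T.J (a ^ (j + 1) * g) x0 =
      T.J a ((a ^ j * g) • x0) * T.J (a ^ j * g) x0 := by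
    intro j
    rw [← T.J_mul]
    congr 1
    rw [pow_succ']
    group
  have hbpos : ∀ j : ℕ, 0 < T.J (a ^ j * g) x0 := fun j => T.J_pos _ _
  have ht0 : 0 ≤ |t| := abs_nonneg t
  -- partial sums
  have hpart : ∀ m, m ≤ n + 1 → r * ∑ j ∈ Finset.range m, T.J (a ^ j * g) x0 ≤ c2 := by
    intro m hm
    refine le_trans ?_ hsum
    refine mul_le_mul_of_nonneg_left ?_ hr.le
    exact Finset.sum_le_sum_of_subset_of_nonneg
      (Finset.range_subset_range.mpr hm) (fun i _ _ => (hbpos i).le)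
  have hsumtt : ∀ m, m ≤ n + 1 → (∀ l, l < m → |tt l| ≤ K * (r * T.J (a ^ l * g) x0)) →
      ∑ l ∈ Finset.range m, |tt l| ≤ K * c2 := by
    intro m hm hl
    calc ∑ l ∈ Finset.range m, |tt l| ≤ ∑ l ∈ Finset.range m, K * (r * T.J (a ^ l * g) x0) :=
          Finset.sum_le_sum fun l hlm => hl l (Finset.mem_range.mp hlm)
      _ = K * (r * ∑ l ∈ Finset.range m, T.J (a ^ l * g) x0) := by
          rw [← Finset.mul_sum, ← Finset.mul_sum]
      _ ≤ K * c2 := mul_le_mul_of_nonneg_left (hpart m hm) hKpos.le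
  -- the main estimate
  have hbase : ∀ j, j ≤ n → (T.w ((a ^ j * g) • x0) * |tt j| ≤ T.J (a ^ j * g) x0 * T.w x0 * |t| *
      Real.exp (C * (|t| + ∑ l ∈ Finset.range j, |tt l|))) →
      (∑ l ∈ Finset.range j, |tt l| ≤ 1) → |tt j| ≤ K * (r * T.J (a ^ j * g) x0) := by
    intro j _ h1 h2
    have h3 : Cw⁻¹ * |tt j| ≤ T.w ((a ^ j * g) • x0) * |tt j| :=
      mul_le_mul_of_nonneg_right (hw _).1 (abs_nonneg _)
    have h4 : Real.exp (C * (|t| + ∑ l ∈ Finset.range j, |tt l|)) ≤ Real.exp (2 * C) := by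
      apply Real.exp_le_exp.mpr
      nlinarith
    have h5 : T.J (a ^ j * g) x0 * T.w x0 * |t| *
        Real.exp (C * (|t| + ∑ l ∈ Finset.range j, |tt l|)) ≤
        T.J (a ^ j * g) x0 * Cw * r * Real.exp (2 * C) := by
      have hb := (hbpos j).le
      have hw0 := (T.w_pos x0).le
      refine mul_le_mul ?_ h4 (Real.exp_pos _).le (by positivity)
      refine mul_le_mul ?_ ht.le ht0 (by positivity)
      exact mul_le_mul_of_nonneg_left (hw x0).2 hb
    have h6 : Cw⁻¹ * |tt j| ≤ T.J (a ^ j * g) x0 * Cw * r * Real.exp (2 * C) :=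
      h3.trans (h1.trans h5)
    have h7 : |tt j| = Cw * (Cw⁻¹ * |tt j|) := by
      field_simp
    rw [h7]
    calc Cw * (Cw⁻¹ * |tt j|) ≤ Cw * (T.J (a ^ j * g) x0 * Cw * r * Real.exp (2 * C)) :=
          mul_le_mul_of_nonneg_left h6 (by linarith)
      _ = K * (r * T.J (a ^ j * g) x0) := by rw [hK]; ring
  have hmain : ∀ j, j ≤ n → (∀ l, l ≤ j → |tt l| ≤ K * (r * T.J (a ^ l * g) x0)) ∧
      T.w ((a ^ j * g) • x0) * |tt j| ≤ T.J (a ^ j * g) x0 * T.w x0 * |t| *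
        Real.exp (C * (|t| + ∑ l ∈ Finset.range j, |tt l|)) := by
    intro j
    induction j with
    | zero =>
      intro _
      have h1 : T.w ((a ^ 0 * g) • x0) * |tt 0| ≤ T.J (a ^ 0 * g) x0 * T.w x0 * |t| *
        Real.exp (C * (|t| + ∑ l ∈ Finset.range 0, |tt l|)) := by
        simpa [htt0] using h0w
      refine ⟨?_, h1⟩
      intro l hl
      obtain rfl : l = 0 := by omega
      exact hbase 0 (by omega) h1 (by simp)
    | succ j ih =>
      intro hj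
      obtain ⟨ih1, ih2⟩ := ih (by omega)
      have hs1 : ∑ l ∈ Finset.range (j + 1), |tt l| ≤ K * c2 :=
        hsumtt (j + 1) (by omega) (fun l hl => ih1 l (by omega))
      have hs2 : ∑ l ∈ Finset.range (j + 1), |tt l| ≤ 1 := hs1.trans hc21
      have hj1 : |tt j| ≤ δ := by
        refine le_trans ?_ (hs1.trans hc2δ)
        exact Finset.single_le_sum (f := fun l => |tt l|) (fun _ _ => abs_nonneg _)
          (Finset.mem_range.mpr (by omega))
      obtain ⟨_, _, h3, _⟩ := hpf ((a ^ j * g) • x0) (tt j) hj1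
      rw [← htts j, hxs j] at h3
      have h4 : T.w ((a ^ (j + 1) * g) • x0) * |tt (j + 1)| ≤ T.J (a ^ (j + 1) * g) x0 * T.w x0 *
          |t| * Real.exp (C * (|t| + ∑ l ∈ Finset.range (j + 1), |tt l|)) := by
        refine h3.trans ?_
        have h5 : T.J a ((a ^ j * g) • x0) * T.w ((a ^ j * g) • x0) * |tt j| *
            Real.exp (C * |tt j|) = T.J a ((a ^ j * g) • x0) * Real.exp (C * |tt j|) *
            (T.w ((a ^ j * g) • x0) * |tt j|) := by ring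
        rw [h5, hbs j, Finset.sum_range_succ]
        have h6 : 0 ≤ T.J a ((a ^ j * g) • x0) * Real.exp (C * |tt j|) :=
          mul_nonneg (T.J_pos _ _).le (Real.exp_pos _).le
        refine (mul_le_mul_of_nonneg_left ih2 h6).trans (le_of_eq ?_)
        have h7 : C * (|t| + (∑ l ∈ Finset.range j, |tt l| + |tt j|)) =
            C * (|t| + ∑ l ∈ Finset.range j, |tt l|) + C * |tt j| := by ring
        rw [h7, Real.exp_add]
        ring
      refine ⟨?_, h4⟩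
      intro l hl
      rcases Nat.lt_or_ge l (j + 1) with h | h
      · exact ih1 l (by omega)
      · obtain rfl : l = j + 1 := by omega
        exact hbase (j + 1) hj h4 hs2
  have hall : ∑ j ∈ Finset.range (n + 1), |tt j| ≤ K * c2 :=
    hsumtt (n + 1) le_rfl (fun l hl => (hmain n le_rfl).1 l (by omega))
  have hsingle : ∀ j, j ≤ n → |tt j| ≤ K * c2 := by
    intro j hj
    refine le_trans ?_ hall
    exact Finset.single_le_sum (f := fun l => |tt l|) (fun _ _ => abs_nonneg _)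
      (Finset.mem_range.mpr (by omega))
  -- the points
  have hpts : ∀ j, j ≤ n → Y j • S.cur x0 t = S.cur ((a ^ j * g) • x0) (tt j) := by
    intro j
    induction j with
    | zero =>
      intro _
      rw [hY0, htt0, mul_smul, h0, inv_smul_smul]
      simp
    | succ j ih =>
      intro hj
      have h1 := ih (by omega)
      obtain ⟨h2, _, _, _⟩ := hpf ((a ^ j * g) • x0) (tt j) ((hsingle j (by omega)).trans hc2δ)
      rw [hYs, mul_smul, mul_smul, h1, h2, ← htts j, hxs j]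
      exact inv_smul_smul _ _
  -- the cocycle
  have hJ : ∀ j, j ≤ n → |Real.log (T.J (Y j) (S.cur x0 t)) - Real.log (T.J (a ^ j * g) x0)| ≤
      C * (|t| + ∑ l ∈ Finset.range j, |tt l|) := by
    intro j
    induction j with
    | zero =>
      intro _
      simpa [hY0] using h0J
    | succ j ih =>
      intro hj
      have h1 := ih (by omega)
      obtain ⟨_, _, _, h2⟩ := hpf ((a ^ j * g) • x0) (tt j) ((hsingle j (by omega)).trans hc2δ)
      have h3 : T.J (Y (j + 1)) (S.cur x0 t) =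
          T.J ((η j)⁻¹ * a) (S.cur ((a ^ j * g) • x0) (tt j)) * T.J (Y j) (S.cur x0 t) := by
        rw [hYs, T.J_mul, hpts j (by omega)]
      rw [h3, hbs j, Real.log_mul (T.J_pos _ _).ne' (T.J_pos _ _).ne',
        Real.log_mul (T.J_pos _ _).ne' (T.J_pos _ _).ne', Finset.sum_range_succ]
      have h4 : |Real.log (T.J ((η j)⁻¹ * a) (S.cur ((a ^ j * g) • x0) (tt j))) -
          Real.log (T.J a ((a ^ j * g) • x0))| ≤ C * |tt j| := h2
      rw [abs_le] at h1 h4 ⊢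
      constructor <;> nlinarith [h1.1, h1.2, h4.1, h4.2]
  refine ⟨tt, η, Y, hY0, hYs, hsingle, hall, hpts, ?_, ?_⟩
  · intro j hj
    exact (hpf ((a ^ j * g) • x0) (tt j) ((hsingle j hj).trans hc2δ)).2.1
  · have h1 := hJ n le_rfl
    have h2 : ∑ l ∈ Finset.range n, |tt l| ≤ 1 := by
      refine le_trans ?_ (hall.trans hc21)
      exact Finset.sum_le_sum_of_subset_of_nonneg
        (Finset.range_subset_range.mpr (by omega)) (fun i _ _ => abs_nonneg _)
    have h3 : C * (|t| + ∑ l ∈ Finset.range n, |tt l|) ≤ 2 * C := by nlinarith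
    rw [abs_le] at h1
    linarith [h1.1]

/-- (P1).  `a = D θ`, `x_j = a^j g x0`, `b_j = J(a^j g, x0)`.  Put `Y_0 = η⁻¹ g` with `g • cur x0 t = η • cur (g x0) t_0` (`loc` for the compact set `Bl ρ'`), and inductively (`loc` for
`Q = {a}`) `a • cur x_j t_j = η_j • cur x_{j+1} t_{j+1}`, `Y_{j+1} = η_j⁻¹ a Y_j`, so `Y_j • y = cur x_j t_j`, `y = cur x0 t`.  `w(x_j)|t_j| ≤ b_j w(x0)|t| exp(C(|t| + ∑_{l<j}|t_l|))`, so by
induction `|t_j| ≤ C' r b_j` and `∑|t_j| ≤ C' c2` (at most `1`), `nd η_j ≤ C|t_j|`.  `shadow` with `ζ_j = η_j⁻¹` gives `q` with `a^j q Y_0 = δ_j Y_j`; `g0 := q Y_0`.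
For `k ∈ Kn θ n ρ2`: `a^j k g0 y = (a^j k a^{-j}) δ_j (cur x_j t_j)` is near `x_j` (`small_move`, `cur_close`).  `J(a^n k g0,y) = J(a^nka^{-n}δ_n, ·) J(Y_n,y)`,
`J(Y_n,y) = J(Y_0,y) ∏ J(η_j⁻¹a, cur x_j t_j)`, `b_n = J(g,x0) ∏ J(a,x_j)`; compare by the last clause of `loc`. -/
theorem sh_P1 {S : FB X} (T : TN S) (θ : ℝ × ℝ) (hθ : Reg θ) (ρ ε1 : ℝ) (hρ : 0 < ρ)
    (hε1 : 0 < ε1) :
    ∃ ρ' : ℝ, 0 < ρ' ∧ ∃ ρ2 : ℝ, 0 < ρ2 ∧ ∃ c2 : ℝ, 0 < c2 ∧ ∃ r0 : ℝ, 0 < r0 ∧ r0 ≤ 1 / 4 ∧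
      ∃ C2 : ℝ, 0 < C2 ∧
      ∀ (x0 : X) (n : ℕ) (r t : ℝ), 0 < r → r ≤ r0 → |t| < r → ∀ g ∈ Bl ρ',
        r * ∑ j ∈ Finset.range (n + 1), T.J ((D θ) ^ j * g) x0 ≤ c2 →
        ∃ g0 : G, ∀ k ∈ Kn θ n ρ2, k * g0 ∈ Bl ρ ∧
          (∀ j, j ≤ n → dist (((D θ) ^ j * g) • x0)
            (((D θ) ^ j * (k * g0)) • S.cur x0 t) ≤ ε1) ∧
          T.J ((D θ) ^ n * g) x0 ≤ C2 * T.J ((D θ) ^ n * (k * g0)) (S.cur x0 t) := by
  obtain ⟨Cw, hCw, hw⟩ := T.w_bound
  obtain ⟨δ1, hδ1, hδ1', C1, hC1, hl1⟩ := T.loc (isCompact_Bl 1)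
  obtain ⟨δa, hδa, hδa', Ca, hCa, hla⟩ := T.loc (Q := {D θ}) isCompact_singleton
  obtain ⟨c0, hc0, Cs, hCs, hsh⟩ := shadow θ hθ
  obtain ⟨ρm, hρm, hmv⟩ := small_move (X := X) (ε1 / 2) (by positivity)
  obtain ⟨δc, hδc, hδc', hcc⟩ := S.cur_close (ε1 / 2) (by positivity)
  obtain ⟨CJ, hCJ, hJb⟩ := T.J_bound (isCompact_Bl 1)
  set C : ℝ := max C1 Ca with hCdef
  have hC1C : C1 ≤ C := le_max_left _ _
  have hCaC : Ca ≤ C := le_max_right _ _
  have hC : 1 ≤ C := hC1.trans hC1C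
  set K : ℝ := Cw ^ 2 * Real.exp (2 * C) with hKdef
  have hKpos : 0 < K := by positivity
  -- the smallness parameter
  set u : ℝ := min (1 / 3) (min (ρ / 15) (ρm / 3)) with hu
  have hu0 : 0 < u := by
    rw [hu]
    refine lt_min (by norm_num) (lt_min (by positivity) (by positivity))
  have hu1 : u ≤ 1 / 3 := min_le_left _ _
  have hu2 : u ≤ ρ / 15 := (min_le_right _ _).trans (min_le_left _ _)
  have hu3 : u ≤ ρm / 3 := (min_le_right _ _).trans (min_le_right _ _)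
  -- the bound for `K * c2`
  set m : ℝ := min (min δa (min δc 1)) (min (1 / (2 * C)) (min (c0 / (2 * C)) (u / (2 * C * Cs))))
    with hm
  have hm0 : 0 < m := by
    rw [hm]
    refine lt_min (lt_min hδa (lt_min hδc one_pos)) (lt_min (by positivity)
      (lt_min (by positivity) (by positivity)))
  have hm1 : m ≤ δa := (min_le_left _ _).trans (min_le_left _ _)
  have hm2 : m ≤ δc := (min_le_left _ _).trans ((min_le_right _ _).trans (min_le_left _ _))
  have hm3 : m ≤ 1 := (min_le_left _ _).trans ((min_le_right _ _).trans (min_le_right _ _))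
  have hm4 : m ≤ 1 / (2 * C) := (min_le_right _ _).trans (min_le_left _ _)
  have hm5 : m ≤ c0 / (2 * C) :=
    (min_le_right _ _).trans ((min_le_right _ _).trans (min_le_left _ _))
  have hm6 : m ≤ u / (2 * C * Cs) :=
    (min_le_right _ _).trans ((min_le_right _ _).trans (min_le_right _ _))
  have hCpos : 0 < C := by linarith
  have hm4' : C * m ≤ 1 / 2 := by
    rw [le_div_iff₀ (by positivity)] at hm4
    linarith
  have hm5' : 2 * C * m ≤ c0 := by
    rw [le_div_iff₀ (by positivity)] at hm5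
    linarith
  have hm6' : Cs * (2 * C * m) ≤ u := by
    rw [le_div_iff₀ (by positivity)] at hm6
    linarith
  have hKc : K * (m / K) = m := by field_simp
  set r0 : ℝ := min (min (1 / 4) δ1) (min (1 / (2 * C)) (u / (2 * C))) with hr0
  have hr00 : 0 < r0 := by
    rw [hr0]
    refine lt_min (lt_min (by norm_num) hδ1) (lt_min (by positivity) (by positivity))
  have hr01 : r0 ≤ 1 / 4 := (min_le_left _ _).trans (min_le_left _ _)
  have hr02 : r0 ≤ δ1 := (min_le_left _ _).trans (min_le_right _ _)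
  have hr03 : C * r0 ≤ 1 / 2 := by
    have : r0 ≤ 1 / (2 * C) := (min_le_right _ _).trans (min_le_left _ _)
    rw [le_div_iff₀ (by positivity)] at this
    linarith
  have hr04 : 2 * C * r0 ≤ u := by
    have : r0 ≤ u / (2 * C) := (min_le_right _ _).trans (min_le_right _ _)
    rw [le_div_iff₀ (by positivity)] at this
    linarith
  refine ⟨u, hu0, u, hu0, m / K, by positivity, r0, hr00, hr01, Real.exp (2 * C) * CJ,
    by positivity, ?_⟩
  intro x0 n r t hr hrr0 ht g hg hsum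
  have hgu : nd g ≤ u := hg
  have ht0 : 0 ≤ |t| := abs_nonneg t
  have htr0 : |t| ≤ r0 := ht.le.trans hrr0
  -- first step
  obtain ⟨η0, F0, _, e1, e2, _, e4, e5⟩ := hl1 g (show nd g ≤ 1 by linarith) x0 t
    (htr0.trans hr02)
  have hloc : ∀ (x : X) (s : ℝ), |s| ≤ δa →
      ∃ (η : G) (F : ℝ), (D θ) • S.cur x s = η • S.cur ((D θ) • x) F ∧
        nd η ≤ C * |s| ∧
        T.w ((D θ) • x) * |F| ≤ T.J (D θ) x * T.w x * |s| * Real.exp (C * |s|) ∧
        |Real.log (T.J (η⁻¹ * (D θ)) (S.cur x s)) - Real.log (T.J (D θ) x)| ≤ C * |s| := by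
    intro x s hs
    obtain ⟨η, F, _, f1, f2, _, f4, f5⟩ := hla (D θ) rfl x s hs
    have hs0 : 0 ≤ |s| := abs_nonneg s
    have hmono : Ca * |s| ≤ C * |s| := mul_le_mul_of_nonneg_right hCaC hs0
    refine ⟨η, F, f1, f2.trans hmono, f4.trans ?_, f5.trans hmono⟩
    refine mul_le_mul_of_nonneg_left (Real.exp_le_exp.mpr hmono) ?_
    exact mul_nonneg (mul_nonneg (T.J_pos _ _).le (T.w_pos _).le) hs0
  have hmono1 : C1 * |t| ≤ C * |t| := mul_le_mul_of_nonneg_right hC1C ht0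
  obtain ⟨tt, η, Y, hY0, hYs, hsg, hall, hpts, hη, hlog⟩ :=
    sha_orbit T (D θ) C Cw δa K hC hCw hKdef hw hloc x0 n r t (m / K) hr
      (hrr0.trans (hr01.trans (by norm_num))) ht g (by rw [hKc]; exact hm1)
      (by rw [hKc]; exact hm3) hsum η0 F0 e1
      (e4.trans (mul_le_mul_of_nonneg_left (Real.exp_le_exp.mpr hmono1)
        (mul_nonneg (mul_nonneg (T.J_pos _ _).le (T.w_pos _).le) ht0)))
      (e5.trans hmono1)
  rw [hKc] at hall
  simp only [hKc] at hsg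
  -- the sizes of the `η`
  have hη' : ∀ j, j < n → nd (η j)⁻¹ ≤ 2 * C * |tt j| := by
    intro j hj
    have h1 := hη j hj.le
    have h2 : nd (η j) ≤ 1 / 2 := by
      refine h1.trans (le_trans ?_ hm4')
      exact mul_le_mul_of_nonneg_left (hsg j hj.le) hCpos.le
    have h3 := nd_inv_le_of_small (η j) h2
    linarith
  have hsumη : ∑ j ∈ Finset.range n, nd (η j)⁻¹ ≤ 2 * C * m := by
    calc ∑ j ∈ Finset.range n, nd (η j)⁻¹ ≤ ∑ j ∈ Finset.range n, 2 * C * |tt j| :=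
          Finset.sum_le_sum fun j hj => hη' j (Finset.mem_range.mp hj)
      _ = 2 * C * ∑ j ∈ Finset.range n, |tt j| := by rw [← Finset.mul_sum]
      _ ≤ 2 * C * m := by
          refine mul_le_mul_of_nonneg_left ?_ (by positivity)
          refine le_trans ?_ hall
          exact Finset.sum_le_sum_of_subset_of_nonneg
            (Finset.range_subset_range.mpr (by omega)) (fun i _ _ => abs_nonneg _)
  obtain ⟨q, hq1, hq2⟩ := hsh n (fun j => (η j)⁻¹) Y (hsumη.trans hm5') (fun j _ => hYs j)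
  have hCs0 : 0 ≤ Cs := by linarith
  have hqu : nd q ≤ u := hq1.trans ((mul_le_mul_of_nonneg_left hsumη hCs0).trans hm6')
  have hη0 : nd η0⁻¹ ≤ u := by
    have h1 : nd η0 ≤ C * r0 := e2.trans ((mul_le_mul_of_nonneg_right hC1C ht0).trans
      (mul_le_mul_of_nonneg_left htr0 hCpos.le))
    have h2 := nd_inv_le_of_small η0 (h1.trans hr03)
    linarith
  refine ⟨q * Y 0, ?_⟩
  intro k hk
  have hk0 : nd k ≤ u := by
    have := hk 0 (Nat.zero_le _)
    simpa using this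
  -- the identity for the shadowing orbit
  have hid : ∀ j, j ≤ n → ∃ κ : G, nd κ ≤ 3 * u ∧
      (D θ) ^ j * (k * (q * Y 0)) = κ * Y j := by
    intro j hj
    obtain ⟨δ', hδ'1, hδ'2⟩ := hq2 j hj
    refine ⟨((D θ) ^ j * k * ((D θ) ^ j)⁻¹) * δ', ?_, ?_⟩
    · refine sha_nd2 _ _ u (hk j hj) ?_ hu0.le (by linarith)
      exact hδ'1.trans ((mul_le_mul_of_nonneg_left hsumη hCs0).trans hm6')
    · rw [mul_assoc _ δ' (Y j), ← hδ'2]
      group
  refine ⟨?_, ?_, ?_⟩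
  · change nd (k * (q * Y 0)) ≤ ρ
    rw [hY0]
    have := sha_nd4 k q η0⁻¹ g u hk0 hqu hη0 hgu hu0.le (by linarith)
    linarith
  · intro j hj
    obtain ⟨κ, hκ, hκe⟩ := hid j hj
    rw [hκe, mul_smul κ (Y j), hpts j hj]
    have h1 : dist (((D θ) ^ j * g) • x0) (S.cur (((D θ) ^ j * g) • x0) (tt j)) ≤ ε1 / 2 := by
      rw [dist_comm]
      exact hcc _ _ ((hsg j hj).trans hm2)
    have h2 : dist (S.cur (((D θ) ^ j * g) • x0) (tt j))
        (κ • S.cur (((D θ) ^ j * g) • x0) (tt j)) ≤ ε1 / 2 := by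
      rw [dist_comm]
      exact hmv _ _ (by linarith)
    linarith [dist_triangle (((D θ) ^ j * g) • x0) (S.cur (((D θ) ^ j * g) • x0) (tt j))
      (κ • S.cur (((D θ) ^ j * g) • x0) (tt j))]
  · obtain ⟨κ, hκ, hκe⟩ := hid n le_rfl
    rw [hκe, T.J_mul κ (Y n)]
    have h1 := (hJb κ (show nd κ ≤ 1 by linarith) (Y n • S.cur x0 t)).1
    have h2 : T.J ((D θ) ^ n * g) x0 ≤ Real.exp (2 * C) * T.J (Y n) (S.cur x0 t) := by
      rw [← Real.log_le_log_iff (T.J_pos _ _) (mul_pos (Real.exp_pos _) (T.J_pos _ _)),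
        Real.log_mul (Real.exp_pos _).ne' (T.J_pos _ _).ne', Real.log_exp]
      linarith
    refine h2.trans ?_
    have h3 : T.J (Y n) (S.cur x0 t) ≤ CJ * (T.J κ (Y n • S.cur x0 t) * T.J (Y n) (S.cur x0 t)) := by
      have h4 : 1 ≤ CJ * T.J κ (Y n • S.cur x0 t) := by
        have h5 : CJ * CJ⁻¹ ≤ CJ * T.J κ (Y n • S.cur x0 t) :=
          mul_le_mul_of_nonneg_left h1 (by linarith)
        rwa [mul_inv_cancel₀ (by linarith)] at h5
      have h6 := (T.J_pos (Y n) (S.cur x0 t)).le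
      nlinarith
    calc Real.exp (2 * C) * T.J (Y n) (S.cur x0 t)
        ≤ Real.exp (2 * C) * (CJ * (T.J κ (Y n • S.cur x0 t) * T.J (Y n) (S.cur x0 t))) :=
          mul_le_mul_of_nonneg_left h3 (Real.exp_pos _).le
      _ = _ := by ring

end Pool.Agent.H88.LF
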