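import Pool.Agent.H88.LF.MUQ

/-!
# STARB (blueprint section 4)
-/

set_option autoImplicit false

open MeasureTheory Set Filter
open scoped Topology ENNReal Pointwise

namespace Pool.Agent.H88.LF

variable {X : Type} [MetricSpace X] [CompactSpace X] [MulAction G X] [ContinuousSMul G X]
  [MeasurableSpace X] [BorelSpace X]

/-- The mass of a thickened transversal of length `r` is `O(r)`: `{k • cur x (σt)} = Θ_i(K rh x × (rt x + σ(0,r)))`,
`TN.IsMu.image_le` and `W_bound`. -/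
theorem thick_mass {S : FB X} {T : TN S} {μ : Measure X} (hμ : T.IsMu μ) (K : Set G)
    (hK : IsCompact K) :
    ∃ C : ℝ, 0 < C ∧ ∀ (x : X) (σ : ℝ), (σ = 1 ∨ σ = -1) → ∀ r, 0 < r → r ≤ 1 / 4 →
      μ {y | ∃ k ∈ K, ∃ t, 0 < t ∧ t < r ∧ y = k • S.cur x (σ * t)} ≤ ENNReal.ofReal (C * r) := by
  have hB : IsCompact (Bl S.ρ1) := isCompact_Bl S.ρ1
  have hKB : IsCompact (K * Bl S.ρ1) := hK.mul hB
  obtain ⟨C1, hC1, hW⟩ := T.W_bound hKB (3 / 4) (by norm_num)
  have hfin : hG (K * Bl S.ρ1) < ⊤ := hKB.measure_lt_top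
  set m : ℝ := (hG (K * Bl S.ρ1)).toReal with hm
  have hm0 : 0 ≤ m := ENNReal.toReal_nonneg
  have hmK : hG (K * Bl S.ρ1) = ENNReal.ofReal m := (ENNReal.ofReal_toReal hfin.ne).symm
  have hC1' : 0 < C1 := zero_lt_one.trans_le hC1
  refine ⟨C1 * (m + 1), by positivity, fun x σ hσ r hr hr4 => ?_⟩
  obtain ⟨hh, ht, -⟩ := S.rep_spec x
  have hσ2 : σ * σ = 1 := by rcases hσ with rfl | rfl <;> norm_num
  have hσa : |σ| = 1 := by rcases hσ with rfl | rfl <;> simp
  set E : Set (G × ℝ) := ((fun k : G => k * S.rh x) '' K) ×ˢ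
    Set.Ioo (S.rt x - r) (S.rt x + r) ∩ {p | 0 < σ * (p.2 - S.rt x)} with hE
  have hKc : IsCompact ((fun k : G => k * S.rh x) '' K) :=
    hK.image (continuous_id.mul continuous_const)
  have hEm : MeasurableSet E := by
    refine (hKc.measurableSet.prod measurableSet_Ioo).inter ?_
    have hc : Continuous (fun p : G × ℝ => σ * (p.2 - S.rt x)) := by fun_prop
    exact (isOpen_lt continuous_const hc).measurableSet
  have hE1 : ∀ p ∈ E, |p.2| ≤ 3 / 4 := by
    rintro ⟨g, u⟩ ⟨⟨-, hu⟩, -⟩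
    simp only at hu ⊢
    have h1 := abs_lt.1 ht
    rw [abs_le]
    constructor <;> linarith [hu.1, hu.2, h1.1, h1.2]
  have hsub : {y | ∃ k ∈ K, ∃ t, 0 < t ∧ t < r ∧ y = k • S.cur x (σ * t)} ⊆
      (fun p : G × ℝ => p.1 • S.c (S.ri x) p.2) '' E := by
    rintro y ⟨k, hk, t, ht0, htr, rfl⟩
    refine ⟨(k * S.rh x, S.rt x + σ * t), ⟨⟨⟨k, hk, rfl⟩, ?_⟩, ?_⟩, ?_⟩
    · simp only
      have h2 : |σ * t| < r := by rw [abs_mul, hσa, one_mul, abs_of_pos ht0]; exact htr
      have h3 := abs_lt.1 h2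
      constructor <;> linarith [h3.1, h3.2]
    · show 0 < σ * (S.rt x + σ * t - S.rt x)
      have : σ * (S.rt x + σ * t - S.rt x) = (σ * σ) * t := by ring
      rw [this, hσ2, one_mul]
      exact ht0
    · show (k * S.rh x) • S.c (S.ri x) (S.rt x + σ * t) = k • S.cur x (σ * t)
      rw [FB.cur, mul_smul]
  have hlt : ∀ p ∈ E, |p.2| < 1 := fun p hp => (hE1 p hp).trans_lt (by norm_num)
  have hEK : ∀ p ∈ E, p.1 ∈ K * Bl S.ρ1 := by
    rintro p ⟨⟨⟨k, hk, hp⟩, -⟩, -⟩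
    rw [← hp]
    exact Set.mul_mem_mul hk hh.le
  calc μ {y | ∃ k ∈ K, ∃ t, 0 < t ∧ t < r ∧ y = k • S.cur x (σ * t)}
      ≤ μ ((fun p : G × ℝ => p.1 • S.c (S.ri x) p.2) '' E) := measure_mono hsub
    _ ≤ ∫⁻ p in E, ENNReal.ofReal (T.W p.1 (S.ri x) p.2) ∂(hG.prod volume) :=
        hμ.image_le (S.ri x) E hEm hlt
    _ ≤ ∫⁻ p in E, ENNReal.ofReal C1 ∂(hG.prod volume) := by
        refine setLIntegral_mono measurable_const fun p hp => ?_
        exact ENNReal.ofReal_le_ofReal (hW p.1 (hEK p hp) _ _ (hE1 p hp)).2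
    _ = ENNReal.ofReal C1 * (hG.prod volume) E := by rw [setLIntegral_const]
    _ ≤ ENNReal.ofReal C1 * (ENNReal.ofReal m * ENNReal.ofReal r) := by
        refine mul_le_mul_right ?_ _
        have h4 : E ⊆ (K * Bl S.ρ1) ×ˢ (if σ = 1 then Set.Ioo (S.rt x) (S.rt x + r)
            else Set.Ioo (S.rt x - r) (S.rt x)) := by
          rintro ⟨g, u⟩ hp
          refine ⟨hEK _ hp, ?_⟩
          obtain ⟨⟨-, hu⟩, hs⟩ := hp
          have hs' : 0 < σ * (u - S.rt x) := hs
          simp only at hu ⊢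
          rcases hσ with h5 | h5
          · rw [h5] at hs'
            rw [if_pos h5]
            exact ⟨by linarith, hu.2⟩
          · rw [h5] at hs'
            rw [if_neg (by rw [h5]; norm_num)]
            exact ⟨hu.1, by linarith⟩
        refine (measure_mono h4).trans ?_
        rw [Measure.prod_prod, hmK]
        refine mul_le_mul_right (le_of_eq ?_) _
        split_ifs
        · rw [Real.volume_Ioo]; congr 1; ring
        · rw [Real.volume_Ioo]; congr 1; ring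
    _ = ENNReal.ofReal (C1 * (m * r)) := by
        rw [← ENNReal.ofReal_mul hm0, ← ENNReal.ofReal_mul hC1'.le]
    _ ≤ ENNReal.ofReal (C1 * (m + 1) * r) := by
        refine ENNReal.ofReal_le_ofReal ?_
        nlinarith [mul_pos hC1' hr]

end Pool.Agent.H88.LF
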