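import Pool.Agent.H88.LF.STARA
import Pool.Agent.H88.LF.STARB

/-!
# STAR (blueprint section 4)
-/

set_option autoImplicit false

open MeasureTheory Set Filter
open scoped Topology ENNReal Pointwise

namespace Pool.Agent.H88.LF

variable {X : Type} [MetricSpace X] [CompactSpace X] [MulAction G X] [ContinuousSMul G X]
  [MeasurableSpace X] [BorelSpace X]

/-- the reparametrisation of the flow box around a curve is measure preserving -/
theorem starC_mp (q : G) (σ a : ℝ) (hσ : σ = 1 ∨ σ = -1) :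
    MeasurePreserving (fun p : G × ℝ => (p.1 * q, a + σ * p.2)) (hG.prod (volume : Measure ℝ))
      (hG.prod (volume : Measure ℝ)) := by
  have h1 : MeasurePreserving (fun g : G => g * q) hG hG := measurePreserving_mul_right hG q
  have h2 : MeasurePreserving (fun t : ℝ => a + σ * t) volume volume := by
    have h3 : MeasurePreserving (fun t : ℝ => a + t) volume volume :=
      measurePreserving_add_left volume a
    have h4 : MeasurePreserving (fun t : ℝ => σ * t) volume volume := by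
      rcases hσ with rfl | rfl
      · simp only [one_mul]
        exact MeasurePreserving.id (volume : Measure ℝ)
      · simpa using Measure.measurePreserving_neg (volume : Measure ℝ)
    exact h3.comp h4
  exact h1.prod h2

/-- Tonelli for the flow box around a curve -/
theorem starC_tonelli (q : G) (σ a : ℝ) (hσ : σ = 1 ∨ σ = -1) (F : G × ℝ → ℝ≥0∞)
    (hF : Measurable F) :
    ∫⁻ p, F p ∂(hG.prod (volume : Measure ℝ)) =
      ∫⁻ t : ℝ, ∫⁻ h, F (h * q, a + σ * t) ∂hG := by
  have h1 := (starC_mp q σ a hσ).lintegral_comp hF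
  have h2 : AEMeasurable (fun p : G × ℝ => F (p.1 * q, a + σ * p.2))
      (hG.prod (volume : Measure ℝ)) :=
    (hF.comp (starC_mp q σ a hσ).measurable).aemeasurable
  rw [← h1, lintegral_prod_symm _ h2]

/-- STAR2.  `Box = {h • cur x (σt) : h ∈ Bl ρ, 0<t<r}`: for `ρ` small the map `(h,t) ↦ h • cur x (σ t) = (h rh x) • c i (rt x + σt)` is injective there,
with density `W ≥ c`; `J(D v * h, y) = J(D v, hy) J(h,y)`, `J(h,·) ≤ C`; `star` with `Q` from `exists_compact_rot`, and `thick_mass` for `K = Q * Bl ρ`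
(measurability: `Box` is the injective continuous image of a Borel set; for `Box'` take a measurable superset of equal measure or a countable union of compact sets). -/
theorem star2 {S : FB X} {T : TN S} {μ : Measure X} (hμ : T.IsMu μ) (R : URep (Lp ℂ 2 μ))
    (hR : hμ.kd.IsKoop R) :
    ∃ ρ : ℝ, 0 < ρ ∧ ρ ≤ 1 ∧ ∃ C : ℝ, 0 < C ∧
      ∀ (Ω : Set X), MeasurableSet Ω → (∀ (g : G), ∀ x ∈ Ω, g • x ∈ Ω) → NIV R Ω →
      ∀ (x : X) (σ : ℝ), (σ = 1 ∨ σ = -1) → ∀ r, 0 < r → r ≤ 1 / 4 →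
        (∀ t, 0 < t → t < r → S.cur x (σ * t) ∈ Ω) → ∀ v : ℝ × ℝ,
        ∫⁻ t in Ioo 0 r, ∫⁻ h in Bl ρ,
          ENNReal.ofReal (Real.sqrt (T.J (D v * h) (S.cur x (σ * t)))) ∂hG ≤
        ENNReal.ofReal (C * Real.exp (-‖v‖ / 4) * Real.sqrt r) := by
  obtain ⟨Q, hQ, hQi, hQ1, hQr⟩ := exists_compact_rot
  obtain ⟨C1, hC1, hstar⟩ := star hμ R hR Q hQ hQi hQr
  have hρ1 : 0 < S.ρ1 := S.hρ1
  have hρ1' : S.ρ1 ≤ 1 := by linarith [S.hρ, S.hρ0]
  set K : Set G := Q * Bl S.ρ1 with hK
  have hKc : IsCompact K := hQ.mul (isCompact_Bl _)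
  obtain ⟨C2, hC2, hmass⟩ := thick_mass hμ K hKc
  obtain ⟨C3, hC3, hJ⟩ := T.J_bound (isCompact_Bl S.ρ1)
  obtain ⟨C4, hC4, hW⟩ := T.W_bound ((isCompact_Bl S.ρ1).mul (isCompact_Bl S.ρ1)) (3 / 4)
    (by norm_num)
  have hC3' : 0 < C3 := lt_of_lt_of_le one_pos hC3
  have hC4' : 0 < C4 := lt_of_lt_of_le one_pos hC4
  refine ⟨S.ρ1, hρ1, hρ1', Real.sqrt C3 * C4 * (C1 * Real.sqrt C2), by positivity, ?_⟩
  intro Ω hΩ hΩi hN x σ hσ r hr hr4 hcur v
  have hσa : |σ| = 1 := by rcases hσ with rfl | rfl <;> simp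
  obtain ⟨hrep1, hrep2, hrep3⟩ := S.rep_spec x
  set i := S.ri x with hi
  set q := S.rh x with hq
  set a := S.rt x with ha
  have hcurd : ∀ s, S.cur x s = q • S.c i (a + s) := fun s => rfl
  have hu : ∀ t, 0 < t → t < r → |a + σ * t| ≤ 3 / 4 := by
    intro t h0 h1
    have h2 : |σ * t| ≤ 1 / 4 := by
      rw [abs_mul, hσa, one_mul, abs_of_pos h0]; linarith
    have h3 := abs_add_le a (σ * t)
    linarith
  -- the parameter set
  set E : Set (G × ℝ) := {p | nd (p.1 * q⁻¹) ≤ S.ρ1 ∧ 0 < σ * (p.2 - a) ∧ σ * (p.2 - a) < r}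
    with hE
  have hEm : MeasurableSet E := by
    have h1 : Measurable (fun p : G × ℝ => nd (p.1 * q⁻¹)) :=
      (continuous_nd.comp (continuous_fst.mul continuous_const)).measurable
    have h2 : Measurable (fun p : G × ℝ => σ * (p.2 - a)) :=
      (continuous_const.mul (continuous_snd.sub continuous_const)).measurable
    exact (measurableSet_le h1 measurable_const).inter
      ((measurableSet_lt measurable_const h2).inter (measurableSet_lt h2 measurable_const))
  have hσσ : σ * σ = 1 := by rcases hσ with rfl | rfl <;> norm_num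
  have hEp : ∀ p ∈ E, ∃ h : G, nd h ≤ S.ρ1 ∧ ∃ t, 0 < t ∧ t < r ∧ p = (h * q, a + σ * t) := by
    rintro ⟨g, u⟩ ⟨h1, h2, h3⟩
    refine ⟨g * q⁻¹, h1, σ * (u - a), h2, h3, ?_⟩
    rw [inv_mul_cancel_right, ← mul_assoc, hσσ, one_mul, add_sub_cancel]
  have hEm' : ∀ (h : G) (t : ℝ), nd h ≤ S.ρ1 → 0 < t → t < r → (h * q, a + σ * t) ∈ E := by
    intro h t h1 h2 h3
    refine ⟨?_, ?_, ?_⟩
    · simp only
      rw [mul_inv_cancel_right]; exact h1
    · simp only
      rw [add_sub_cancel_left, ← mul_assoc, hσσ, one_mul]; exact h2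
    · simp only
      rw [add_sub_cancel_left, ← mul_assoc, hσσ, one_mul]; exact h3
  have hE1 : ∀ p ∈ E, |p.2| < 1 := by
    intro p hp
    obtain ⟨h, hh, t, ht0, htr, rfl⟩ := hEp p hp
    exact (hu t ht0 htr).trans_lt (by norm_num)
  have hqn : nd q < S.ρ1 := hrep1
  have hnd : ∀ h : G, nd h ≤ S.ρ1 → nd (h * q) < S.ρ0 := by
    intro h hh
    have h1 := nd_mul_le h q
    have h2 := nrm_le_nd q
    have h3 : nd h * nrm q.1 ≤ S.ρ1 * 4 :=
      mul_le_mul hh (by linarith) (nrm_nonneg _) hρ1.le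
    have := S.hρ
    linarith
  have hinj : InjOn (fun p : G × ℝ => p.1 • S.c i p.2) E := by
    intro p hp p' hp' he
    have h1 := hE1 p hp
    have h2 := hE1 p' hp'
    obtain ⟨h, hh, t, ht0, htr, rfl⟩ := hEp p hp
    obtain ⟨h', hh', t', ht0', htr', rfl⟩ := hEp p' hp'
    have h3 := S.inj i _ _ _ _ h1 h2 (hnd h hh) (hnd h' hh') he
    exact Prod.ext h3.1 h3.2
  set f : X → ℝ≥0∞ := fun z => ENNReal.ofReal (Real.sqrt (T.J (D v) z)) with hf
  have hfc : Continuous (fun z : X => Real.sqrt (T.J (D v) z)) :=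
    Real.continuous_sqrt.comp (T.continuous_J.comp (continuous_const.prodMk continuous_id))
  have hfm : Measurable f := hfc.measurable.ennreal_ofReal
  obtain ⟨hBm, hBi⟩ := hμ.lintegral_image i E hEm hE1 hinj f hfm
  set Box : Set X := (fun p : G × ℝ => p.1 • S.c i p.2) '' E with hBox
  have hBoxp : ∀ z ∈ Box, ∃ h : G, nd h ≤ S.ρ1 ∧ ∃ t, 0 < t ∧ t < r ∧ z = h • S.cur x (σ * t) := by
    rintro z ⟨p, hp, rfl⟩
    obtain ⟨h, hh, t, ht0, htr, rfl⟩ := hEp p hp
    refine ⟨h, hh, t, ht0, htr, ?_⟩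
    simp only
    rw [hcurd, mul_smul]
  have hBΩ : Box ⊆ Ω := by
    intro z hz
    obtain ⟨h, hh, t, ht0, htr, rfl⟩ := hBoxp z hz
    exact hΩi _ _ (hcur t ht0 htr)
  set Th : Set X := {y | ∃ k ∈ K, ∃ t, 0 < t ∧ t < r ∧ y = k • S.cur x (σ * t)} with hTh
  set Box' : Set X := toMeasurable μ Th with hBox'
  have hB'm : MeasurableSet Box' := measurableSet_toMeasurable _ _
  have hB'μ : μ Box' ≤ ENNReal.ofReal (C2 * r) := by
    rw [hBox', measure_toMeasurable]
    exact hmass x σ hσ r hr hr4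
  have hB'r : μ.real Box' ≤ C2 * r := by
    rw [measureReal_def]
    exact ENNReal.toReal_le_of_le_ofReal (by positivity) hB'μ
  have hBB' : ∀ k ∈ Q, ∀ z ∈ Box, k • z ∈ Box' := by
    intro k hk z hz
    obtain ⟨h, hh, t, ht0, htr, rfl⟩ := hBoxp z hz
    refine subset_toMeasurable μ Th ⟨k * h, Set.mul_mem_mul hk hh, t, ht0, htr, ?_⟩
    rw [mul_smul]
  have hst := hstar Ω hΩ hΩi hN v Box Box' hBm hB'm hBΩ hBB'
  rw [hBi] at hst
  -- the integrand on the flow box
  set g : G × ℝ → ℝ≥0∞ := fun p => f (p.1 • S.c i p.2) * ENNReal.ofReal (T.W p.1 i p.2) with hg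
  set V : Set (G × ℝ) := {p | |p.2| < 1} with hV
  have hVo : IsOpen V := isOpen_lt (continuous_abs.comp continuous_snd) continuous_const
  have hgr : Measurable (V.indicator g) := by
    have h1 : ContinuousOn (fun p : G × ℝ => Real.sqrt (T.J (D v) (p.1 • S.c i p.2))) V :=
      hfc.comp_continuousOn (S.continuousOn_map i)
    have h2 : ContinuousOn (fun p : G × ℝ => Real.sqrt (T.J (D v) (p.1 • S.c i p.2)) *
        T.W p.1 i p.2) V := h1.mul (T.cont i)
    have h3 : Measurable (V.indicator (fun p : G × ℝ =>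
        Real.sqrt (T.J (D v) (p.1 • S.c i p.2)) * T.W p.1 i p.2)) := by
      classical
      rw [← Set.piecewise_eq_indicator]
      exact h2.measurable_piecewise continuousOn_const hVo.measurableSet
    have h4 : V.indicator g = fun p => ENNReal.ofReal (V.indicator (fun p : G × ℝ =>
        Real.sqrt (T.J (D v) (p.1 • S.c i p.2)) * T.W p.1 i p.2) p) := by
      funext p
      by_cases hp : p ∈ V
      · rw [indicator_of_mem hp, indicator_of_mem hp, hg, hf]
        simp only
        rw [ENNReal.ofReal_mul (Real.sqrt_nonneg _)]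
      · rw [indicator_of_notMem hp, indicator_of_notMem hp, ENNReal.ofReal_zero]
    rw [h4]
    exact h3.ennreal_ofReal
  set F : G × ℝ → ℝ≥0∞ := E.indicator g with hF
  have hFm : Measurable F := by
    have h1 : F = E.indicator (V.indicator g) := by
      funext p
      by_cases hp : p ∈ E
      · rw [hF, indicator_of_mem hp, indicator_of_mem hp, indicator_of_mem (show p ∈ V from hE1 p hp)]
      · rw [hF, indicator_of_notMem hp, indicator_of_notMem hp]
    rw [h1]
    exact hgr.indicator hEm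
  have hint : ∫⁻ p in E, g p ∂(hG.prod volume) =
      ∫⁻ t : ℝ, ∫⁻ h, F (h * q, a + σ * t) ∂hG := by
    rw [← lintegral_indicator hEm]
    exact starC_tonelli q σ a hσ F hFm
  have hpt : ∀ (h : G) (t : ℝ), nd h ≤ S.ρ1 → 0 < t → t < r →
      ENNReal.ofReal (Real.sqrt (T.J (D v * h) (S.cur x (σ * t)))) ≤
        ENNReal.ofReal (Real.sqrt C3 * C4) * F (h * q, a + σ * t) := by
    intro h t hh ht0 htr
    have hm := hEm' h t hh ht0 htr
    rw [hF, indicator_of_mem hm, hg]
    simp only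
    rw [mul_smul, ← hcurd, hf]
    simp only
    rw [← ENNReal.ofReal_mul (Real.sqrt_nonneg _), ← ENNReal.ofReal_mul (by positivity)]
    refine ENNReal.ofReal_le_ofReal ?_
    have e1 : T.J (D v * h) (S.cur x (σ * t)) ≤ C3 * T.J (D v) (h • S.cur x (σ * t)) := by
      rw [T.J_mul, mul_comm]
      exact mul_le_mul_of_nonneg_right (hJ h hh _).2 (T.J_pos _ _).le
    have e2 : Real.sqrt (T.J (D v * h) (S.cur x (σ * t))) ≤
        Real.sqrt C3 * Real.sqrt (T.J (D v) (h • S.cur x (σ * t))) := by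
      rw [← Real.sqrt_mul hC3'.le]
      exact Real.sqrt_le_sqrt e1
    have e3 : 1 ≤ C4 * T.W (h * q) i (a + σ * t) := by
      have h1 := (hW (h * q) (Set.mul_mem_mul hh hqn.le) i (a + σ * t) (hu t ht0 htr)).1
      have h2 := mul_le_mul_of_nonneg_left h1 hC4'.le
      rwa [mul_inv_cancel₀ hC4'.ne'] at h2
    calc Real.sqrt (T.J (D v * h) (S.cur x (σ * t)))
        ≤ Real.sqrt C3 * Real.sqrt (T.J (D v) (h • S.cur x (σ * t))) := e2
      _ ≤ (Real.sqrt C3 * Real.sqrt (T.J (D v) (h • S.cur x (σ * t)))) *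
          (C4 * T.W (h * q) i (a + σ * t)) := le_mul_of_one_le_right (by positivity) e3
      _ = Real.sqrt C3 * C4 * (Real.sqrt (T.J (D v) (h • S.cur x (σ * t))) *
          T.W (h * q) i (a + σ * t)) := by ring
  calc ∫⁻ t in Ioo 0 r, ∫⁻ h in Bl S.ρ1,
          ENNReal.ofReal (Real.sqrt (T.J (D v * h) (S.cur x (σ * t)))) ∂hG
      ≤ ∫⁻ t : ℝ, ∫⁻ h, ENNReal.ofReal (Real.sqrt C3 * C4) * F (h * q, a + σ * t) ∂hG := by
        rw [← lintegral_indicator measurableSet_Ioo]
        refine lintegral_mono fun t => ?_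
        by_cases ht : t ∈ Ioo 0 r
        · rw [indicator_of_mem ht, ← lintegral_indicator (measurableSet_Bl _)]
          refine lintegral_mono fun h => ?_
          by_cases hh : h ∈ Bl S.ρ1
          · rw [indicator_of_mem hh]
            exact hpt h t hh ht.1 ht.2
          · rw [indicator_of_notMem hh]
            exact bot_le
        · rw [indicator_of_notMem ht]
          exact bot_le
    _ = ENNReal.ofReal (Real.sqrt C3 * C4) * ∫⁻ p in E, g p ∂(hG.prod volume) := by
        rw [hint]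
        simp only [lintegral_const_mul' _ _ ENNReal.ofReal_ne_top]
    _ ≤ ENNReal.ofReal (Real.sqrt C3 * C4) *
        ENNReal.ofReal (C1 * Real.exp (-‖v‖ / 4) * Real.sqrt (μ.real Box')) := by
        gcongr
    _ ≤ ENNReal.ofReal (Real.sqrt C3 * C4 * (C1 * Real.sqrt C2) * Real.exp (-‖v‖ / 4) *
        Real.sqrt r) := by
        rw [← ENNReal.ofReal_mul (by positivity)]
        refine ENNReal.ofReal_le_ofReal ?_
        have h1 : Real.sqrt (μ.real Box') ≤ Real.sqrt C2 * Real.sqrt r := by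
          rw [← Real.sqrt_mul hC2.le]
          exact Real.sqrt_le_sqrt hB'r
        calc Real.sqrt C3 * C4 * (C1 * Real.exp (-‖v‖ / 4) * Real.sqrt (μ.real Box'))
            ≤ Real.sqrt C3 * C4 * (C1 * Real.exp (-‖v‖ / 4) * (Real.sqrt C2 * Real.sqrt r)) := by
              gcongr
          _ = Real.sqrt C3 * C4 * (C1 * Real.sqrt C2) * Real.exp (-‖v‖ / 4) * Real.sqrt r := by
              ring

end Pool.Agent.H88.LF
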