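import Pool.Agent.H88.LF.DEC
import Pool.Agent.H88.LF.KOOP
import Pool.Agent.H88.LF.MUQ

/-!
# STARA (blueprint section 4)
-/

set_option autoImplicit false

open MeasureTheory Set Filter
open scoped Topology ENNReal

namespace Pool.Agent.H88.LF

section STARA

variable {Y : Type} [MeasurableSpace Y] {μ : Measure Y}

/-- Functions vanishing almost everywhere outside `Ω`. -/
noncomputable def STARA_K (μ : Measure Y) (Ω : Set Y) : Submodule ℂ (Lp ℂ 2 μ) :=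
  (LpToLpRestrictCLM Y ℂ ℂ μ 2 Ωᶜ).ker

theorem STARA_mem_K {Ω : Set Y} (hΩ : MeasurableSet Ω) (φ : Lp ℂ 2 μ) :
    φ ∈ STARA_K μ Ω ↔ ∀ᵐ y ∂μ, y ∉ Ω → (φ : Y → ℂ) y = 0 := by
  have h1 := LpToLpRestrictCLM_coeFn (𝕜 := ℂ) (p := 2) Ωᶜ φ
  change _ ↔ ∀ᵐ y ∂μ, y ∈ Ωᶜ → (φ : Y → ℂ) y = 0
  rw [← ae_restrict_iff' hΩ.compl]
  constructor
  · intro h
    have h0 : LpToLpRestrictCLM Y ℂ ℂ μ 2 Ωᶜ φ = 0 := h
    rw [h0] at h1
    have h2 := Lp.coeFn_zero (E := ℂ) (p := 2) (μ := μ.restrict Ωᶜ)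
    filter_upwards [h1, h2] with y hy1 hy2
    rw [← hy1, hy2]
    rfl
  · intro h
    change LpToLpRestrictCLM Y ℂ ℂ μ 2 Ωᶜ φ = 0
    apply Lp.ext
    have h2 := Lp.coeFn_zero (E := ℂ) (p := 2) (μ := μ.restrict Ωᶜ)
    filter_upwards [h1, h2, h] with y hy1 hy2 hy3
    rw [hy1, hy2, hy3]
    rfl

theorem STARA_closed_K (Ω : Set Y) : IsClosed (STARA_K μ Ω : Set (Lp ℂ 2 μ)) :=
  (LpToLpRestrictCLM Y ℂ ℂ μ 2 Ωᶜ).isClosed_ker

end STARA

variable {X : Type} [MetricSpace X] [CompactSpace X] [MulAction G X] [ContinuousSMul G X]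
  [MeasurableSpace X] [BorelSpace X]

theorem STARA_inv_K {μ : Measure X} (d : KD X μ) (R : URep (Lp ℂ 2 μ)) (hR : d.IsKoop R)
    (Ω : Set X) (hΩ : MeasurableSet Ω) (hinv : ∀ (g : G), ∀ x ∈ Ω, g • x ∈ Ω) (g : G)
    (φ : Lp ℂ 2 μ) (hφ : φ ∈ STARA_K μ Ω) : R.π g φ ∈ STARA_K μ Ω := by
  rw [STARA_mem_K hΩ] at hφ ⊢
  have h1 := (KOOP_qmp d g).ae hφ
  filter_upwards [h1, hR g φ] with y hy1 hy2 hy
  rw [hy2, hy1 (fun hc => hy ?_), mul_zero]
  have := hinv g _ hc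
  rwa [smul_inv_smul] at this

/-- The matrix coefficient as an integral, and its lower bound. -/
theorem STARA_coef {S : FB X} {T : TN S} {μ : Measure X} (hμ : T.IsMu μ) (R : URep (Lp ℂ 2 μ))
    (hR : hμ.kd.IsKoop R) (Q : Set G) (hQi : ∀ q ∈ Q, q⁻¹ ∈ Q) (C1 : ℝ) (hC1 : 1 ≤ C1)
    (hJ : ∀ q ∈ Q, ∀ x : X, C1⁻¹ ≤ T.J q x ∧ T.J q x ≤ C1)
    (Ω : Set X) (hΩ : MeasurableSet Ω) (hinv : ∀ (g : G), ∀ x ∈ Ω, g • x ∈ Ω)
    (v : ℝ × ℝ) (Box B : Set X) (hBox : MeasurableSet Box) (hB : MeasurableSet B)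
    (hBΩ : B ⊆ Ω) (hBB : ∀ q ∈ Q, ∀ x ∈ Box, q • x ∈ B) (k k' : G) (hk : k ∈ Q) (hk' : k' ∈ Q)
    (hΩf : μ Ω ≠ ⊤) (hBf : μ B ≠ ⊤) :
    ∃ r : ℝ, C1⁻¹ * ∫ y in Box, Real.sqrt (T.J (D v) y) ∂μ ≤ r ∧
      inner ℂ (R.π k' (indicatorConstLp 2 hB hBf (1 : ℂ)))
        (R.π (D (-v) * k) (indicatorConstLp 2 hΩ hΩf (1 : ℂ))) = (r : ℂ) := by
  have := hμ.1
  set φ : Lp ℂ 2 μ := indicatorConstLp 2 hΩ hΩf (1 : ℂ) with hφ
  set ψ : Lp ℂ 2 μ := indicatorConstLp 2 hB hBf (1 : ℂ) with hψ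
  have hinv' : ∀ (g : G) (x : X), g • x ∈ Ω → x ∈ Ω := by
    intro g x hx
    have := hinv g⁻¹ _ hx
    rwa [inv_smul_smul] at this
  have eD : (D (-v) * k)⁻¹ = k⁻¹ * D v := by
    rw [D_neg, mul_inv_rev, inv_inv]
  -- the real integrand
  set f : X → ℝ := fun y => B.indicator (fun _ => (1:ℝ)) (k'⁻¹ • y) *
    (Real.sqrt (T.J k'⁻¹ y) * Real.sqrt (T.J (k⁻¹ * D v) y)) with hf
  have h1 : ∀ᵐ y ∂μ, (ψ : X → ℂ) (k'⁻¹ • y) = B.indicator (fun _ => (1:ℂ)) (k'⁻¹ • y) :=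
    (KOOP_qmp hμ.kd k').ae (indicatorConstLp_coeFn (hs := hB) (hμs := hBf) (c := (1:ℂ)) (p := 2))
  have h2 : ∀ᵐ y ∂μ, (φ : X → ℂ) ((D (-v) * k)⁻¹ • y) =
      Ω.indicator (fun _ => (1:ℂ)) ((D (-v) * k)⁻¹ • y) :=
    (KOOP_qmp hμ.kd (D (-v) * k)).ae
      (indicatorConstLp_coeFn (hs := hΩ) (hμs := hΩf) (c := (1:ℂ)) (p := 2))
  have h3 := hR k' ψ
  have h4 := hR (D (-v) * k) φ
  have hin : inner ℂ (R.π k' ψ) (R.π (D (-v) * k) φ) = ∫ y, ((f y : ℝ) : ℂ) ∂μ := by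
    rw [L2.inner_def]
    apply integral_congr_ae
    filter_upwards [h1, h2, h3, h4] with y e1 e2 e3 e4
    rw [e3, e4, e1, e2, eD]
    have eJ : ∀ g : G, hμ.kd.J g y = T.J g y := fun g => rfl
    rw [eJ, eJ]
    by_cases hy : k'⁻¹ • y ∈ B
    · have hyΩ : (k⁻¹ * D v) • y ∈ Ω := hinv _ _ (hinv' _ _ (hBΩ hy))
      simp only [hf, indicator_of_mem hy, indicator_of_mem hyΩ, mul_one, one_mul,
        Complex.ofReal_mul]
      rw [RCLike.inner_apply, Complex.conj_ofReal, mul_comm]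
    · simp only [hf, indicator_of_notMem hy, mul_zero, zero_mul, Complex.ofReal_zero,
        inner_zero_left]
  refine ⟨∫ y, f y ∂μ, ?_, by rw [hin, integral_complex_ofReal]⟩
  have hcJ : ∀ g : G, Continuous (fun y => Real.sqrt (T.J g y)) := fun g =>
    Real.continuous_sqrt.comp (T.continuous_J.comp (Continuous.prodMk_right g))
  have hcont2 : Continuous (fun y => Real.sqrt (T.J k'⁻¹ y) * Real.sqrt (T.J (k⁻¹ * D v) y)) :=
    (hcJ _).mul (hcJ _)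
  have hcompint : ∀ F : X → ℝ, Continuous F → Integrable F μ := by
    intro F hF
    exact (hF.integrable_of_hasCompactSupport (HasCompactSupport.of_compactSpace F))
  have hpre : MeasurableSet ((fun y : X => k'⁻¹ • y) ⁻¹' B) := KOOP_meas_smul _ hB
  have hfi : f = ((fun y : X => k'⁻¹ • y) ⁻¹' B).indicator
      (fun y => Real.sqrt (T.J k'⁻¹ y) * Real.sqrt (T.J (k⁻¹ * D v) y)) := by
    funext y
    by_cases hy : k'⁻¹ • y ∈ B
    · rw [indicator_of_mem (show y ∈ (fun y : X => k'⁻¹ • y) ⁻¹' B from hy)]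
      simp only [hf, indicator_of_mem hy, one_mul]
    · rw [indicator_of_notMem (show y ∉ (fun y : X => k'⁻¹ • y) ⁻¹' B from hy)]
      simp only [hf, indicator_of_notMem hy, zero_mul]
  rw [hfi, integral_indicator hpre, ← integral_const_mul]
  have hsub : Box ⊆ (fun y : X => k'⁻¹ • y) ⁻¹' B := fun x hx => hBB _ (hQi _ hk') x hx
  calc ∫ y in Box, C1⁻¹ * Real.sqrt (T.J (D v) y) ∂μ
      ≤ ∫ y in Box, Real.sqrt (T.J k'⁻¹ y) * Real.sqrt (T.J (k⁻¹ * D v) y) ∂μ := by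
        apply setIntegral_mono_on _ _ hBox _
        · exact ((hcompint _ (hcJ _)).const_mul _).integrableOn
        · exact (hcompint _ hcont2).integrableOn
        · intro y _
          rw [T.J_mul, Real.sqrt_mul (T.J_pos _ _).le, ← mul_assoc]
          apply mul_le_mul_of_nonneg_right _ (Real.sqrt_nonneg _)
          rw [← Real.sqrt_mul (T.J_pos _ _).le]
          apply Real.le_sqrt_of_sq_le
          have a1 := (hJ _ (hQi _ hk') y).1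
          have a2 := (hJ _ (hQi _ hk) (D v • y)).1
          have : 0 < C1⁻¹ := by positivity
          calc C1⁻¹ ^ 2 = C1⁻¹ * C1⁻¹ := sq _
            _ ≤ _ := mul_le_mul a1 a2 this.le (T.J_pos _ _).le
    _ ≤ ∫ y in (fun y : X => k'⁻¹ • y) ⁻¹' B,
        Real.sqrt (T.J k'⁻¹ y) * Real.sqrt (T.J (k⁻¹ * D v) y) ∂μ := by
        apply setIntegral_mono_set (hcompint _ hcont2).integrableOn
        · exact Eventually.of_forall fun y => mul_nonneg (Real.sqrt_nonneg _) (Real.sqrt_nonneg _)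
        · exact hsub.eventuallyLE

/-- Averages of a function with real values bounded below. -/
theorem STARA_avg (F : ℝ → ℝ → ℂ) (hFc : Continuous (fun p : ℝ × ℝ => F p.1 p.2)) (c M : ℝ)
    (hc : 0 ≤ c) (hcoef : ∀ θ' θ : ℝ, ∃ r : ℝ, c ≤ r ∧ F θ' θ = (r : ℂ))
    (hM : ‖∫ θ' in (0:ℝ)..(2 * Real.pi), ∫ θ in (0:ℝ)..(2 * Real.pi), F θ' θ‖ ≤ M) : c ≤ M := by
  obtain ⟨r, hr⟩ : ∃ r : ℝ → ℝ → ℝ, ∀ θ' θ, c ≤ r θ' θ ∧ F θ' θ = ((r θ' θ : ℝ) : ℂ) :=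
    ⟨fun θ' θ => (hcoef θ' θ).choose, fun θ' θ => (hcoef θ' θ).choose_spec⟩
  have hrc : Continuous (fun p : ℝ × ℝ => r p.1 p.2) := by
    have : (fun p : ℝ × ℝ => r p.1 p.2) = fun p : ℝ × ℝ => (F p.1 p.2).re := by
      funext p
      rw [(hr p.1 p.2).2, Complex.ofReal_re]
    rw [this]
    exact Complex.continuous_re.comp hFc
  have hrc1 : ∀ θ', Continuous (fun θ => r θ' θ) := fun θ' =>
    hrc.comp (Continuous.prodMk_right θ')
  have hpi : (0:ℝ) ≤ 2 * Real.pi := by positivity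
  have hint1 : ∀ θ', (2 * Real.pi) * c ≤ ∫ θ in (0:ℝ)..(2 * Real.pi), r θ' θ := by
    intro θ'
    have := intervalIntegral.integral_mono_on (a := 0) (b := 2 * Real.pi) hpi
      (f := fun _ => c) (g := fun θ => r θ' θ) (μ := volume)
      (continuous_const.intervalIntegrable _ _) ((hrc1 θ').intervalIntegrable _ _)
      (fun θ _ => (hr θ' θ).1)
    rw [intervalIntegral.integral_const, smul_eq_mul, sub_zero] at this
    exact this
  have hrc2 : Continuous (fun θ' => ∫ θ in (0:ℝ)..(2 * Real.pi), r θ' θ) :=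
    intervalIntegral.continuous_parametric_intervalIntegral_of_continuous' hrc 0 (2 * Real.pi)
  have hint2 : (2 * Real.pi) * ((2 * Real.pi) * c) ≤
      ∫ θ' in (0:ℝ)..(2 * Real.pi), ∫ θ in (0:ℝ)..(2 * Real.pi), r θ' θ := by
    have := intervalIntegral.integral_mono_on (a := 0) (b := 2 * Real.pi) hpi
      (f := fun _ => (2 * Real.pi) * c)
      (g := fun θ' => ∫ θ in (0:ℝ)..(2 * Real.pi), r θ' θ) (μ := volume)
      (continuous_const.intervalIntegrable _ _) (hrc2.intervalIntegrable _ _)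
      (fun θ' _ => hint1 θ')
    rw [intervalIntegral.integral_const, smul_eq_mul, sub_zero] at this
    exact this
  have hFr : ∫ θ' in (0:ℝ)..(2 * Real.pi), ∫ θ in (0:ℝ)..(2 * Real.pi), F θ' θ =
      ((∫ θ' in (0:ℝ)..(2 * Real.pi), ∫ θ in (0:ℝ)..(2 * Real.pi), r θ' θ : ℝ) : ℂ) := by
    have e1 : ∀ θ', ∫ θ in (0:ℝ)..(2 * Real.pi), F θ' θ =
        ((∫ θ in (0:ℝ)..(2 * Real.pi), r θ' θ : ℝ) : ℂ) := by
      intro θ'
      rw [← intervalIntegral.integral_ofReal]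
      congr 1
      funext θ
      exact (hr θ' θ).2
    rw [← intervalIntegral.integral_ofReal]
    congr 1
    funext θ'
    exact e1 θ'
  rw [hFr, Complex.norm_real] at hM
  have hp : 1 ≤ 2 * Real.pi := by linarith [Real.pi_gt_three]
  have h7 := le_trans hint2 (le_trans (le_abs_self _) hM)
  have h8 : c ≤ (2 * Real.pi) * ((2 * Real.pi) * c) := by
    have h9 : c ≤ (2 * Real.pi) * c := by nlinarith
    have h10 : (2 * Real.pi) * c ≤ (2 * Real.pi) * ((2 * Real.pi) * c) := by nlinarith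
    exact h9.trans h10
  exact h8.trans h7

/-- The bound for real integrals. -/
theorem STARA_real {S : FB X} {T : TN S} {μ : Measure X} (hμ : T.IsMu μ) (R : URep (Lp ℂ 2 μ))
    (hR : hμ.kd.IsKoop R) (Q : Set G) (hQi : ∀ q ∈ Q, q⁻¹ ∈ Q)
    (hQr : ∀ (i l : Fin 3) (h : i ≠ l) (θ : ℝ), rot i l h θ ∈ Q) (C1 : ℝ) (hC1 : 1 ≤ C1)
    (hJ : ∀ q ∈ Q, ∀ x : X, C1⁻¹ ≤ T.J q x ∧ T.J q x ≤ C1)
    (Ω : Set X) (hΩ : MeasurableSet Ω) (hinv : ∀ (g : G), ∀ x ∈ Ω, g • x ∈ Ω) (hniv : NIV R Ω)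
    (v : ℝ × ℝ) (Box B : Set X) (hBox : MeasurableSet Box) (hB : MeasurableSet B)
    (hBΩ : B ⊆ Ω) (hBB : ∀ q ∈ Q, ∀ x ∈ Box, q • x ∈ B)
    (hΩf : μ Ω ≠ ⊤) (hBf : μ B ≠ ⊤) :
    C1⁻¹ * ∫ y in Box, Real.sqrt (T.J (D v) y) ∂μ ≤
      1000 * Real.exp (-‖v‖ / 4) * ‖(indicatorConstLp 2 hΩ hΩf (1 : ℂ) : Lp ℂ 2 μ)‖ *
        ‖(indicatorConstLp 2 hB hBf (1 : ℂ) : Lp ℂ 2 μ)‖ := by
  obtain ⟨i, l, hil, hv⟩ := exists_pair v
  have hφK : (indicatorConstLp 2 hΩ hΩf (1 : ℂ) : Lp ℂ 2 μ) ∈ STARA_K μ Ω := by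
    rw [STARA_mem_K hΩ]
    filter_upwards [indicatorConstLp_coeFn (hs := hΩ) (hμs := hΩf) (c := (1:ℂ)) (p := 2)]
      with y hy hyn
    rw [hy, indicator_of_notMem hyn]
  have hψK : (indicatorConstLp 2 hB hBf (1 : ℂ) : Lp ℂ 2 μ) ∈ STARA_K μ Ω := by
    rw [STARA_mem_K hΩ]
    filter_upwards [indicatorConstLp_coeFn (hs := hB) (hμs := hBf) (c := (1:ℂ)) (p := 2)]
      with y hy hyn
    rw [hy, indicator_of_notMem (fun hc => hyn (hBΩ hc))]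
  have hdec := dec R (STARA_K μ Ω) (STARA_closed_K Ω)
    (fun g φ hφ => STARA_inv_K hμ.kd R hR Ω hΩ hinv g φ hφ)
    (fun φ hφ hg => hniv φ hg ((STARA_mem_K hΩ φ).1 hφ)) i l hil (-v) _ _ hφK hψK
  have hcmp : |cmp (-v) i - cmp (-v) l| = |cmp v i - cmp v l| := by
    rw [cmp_neg, cmp_neg, ← abs_neg]
    congr 1
    ring
  have hexp : Real.exp (-|cmp (-v) i - cmp (-v) l| / 4) ≤ Real.exp (-‖v‖ / 4) := by
    rw [hcmp]
    apply Real.exp_le_exp.2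
    linarith
  refine STARA_avg (fun θ' θ => inner ℂ
    (R.π (rot i l hil θ') (indicatorConstLp 2 hB hBf (1 : ℂ)))
    (R.π (D (-v) * rot i l hil θ) (indicatorConstLp 2 hΩ hΩf (1 : ℂ)))) ?_ _ _ ?_ ?_
    (le_trans hdec ?_)
  · apply Continuous.inner
    · exact (R.cont _).comp ((continuous_rot i l hil).comp continuous_fst)
    · exact (R.cont _).comp (continuous_const.mul ((continuous_rot i l hil).comp continuous_snd))
  · exact mul_nonneg (by positivity) (integral_nonneg fun _ => Real.sqrt_nonneg _)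
  · intro θ' θ
    exact STARA_coef hμ R hR Q hQi C1 hC1 hJ Ω hΩ hinv v Box B hBox hB hBΩ hBB
      (rot i l hil θ) (rot i l hil θ') (hQr _ _ _ _) (hQr _ _ _ _) hΩf hBf
  · gcongr

/-- STAR: `Box'` contains `Q • Box` for a compact symmetric `Q` with all rotations.
Proof.  Replace `Box'` by `Box' ∩ Ω`.  Choose `(i,l)` with `‖v‖ ≤ |cmp v i - cmp v l|` (`exists_pair`), apply `dec` with
`K = {φ : φ = 0 a.e. outside Ω}`, the vector `D (-v)`, `φ = 1_Ω`, `ψ = 1_{Box'}`.  Pointwise in `θ,θ'`, with `k = rot θ`, `k' = rot θ'`: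
`⟪π(k')ψ, π(D(-v)k)φ⟫ = ∫_{k'Box'} √(J(k'⁻¹,y)) √(J(k⁻¹D(v),y)) dμ(y) ≥ c ∫_Box √(J(D v,y)) dμ(y)`
(`J` bounded on `Q`; `Box ⊆ k'Box'`).  Integrate over `θ,θ'`. -/
theorem star {S : FB X} {T : TN S} {μ : Measure X} (hμ : T.IsMu μ) (R : URep (Lp ℂ 2 μ))
    (hR : hμ.kd.IsKoop R) (Q : Set G) (hQ : IsCompact Q) (hQi : ∀ q ∈ Q, q⁻¹ ∈ Q)
    (hQr : ∀ (i l : Fin 3) (h : i ≠ l) (θ : ℝ), rot i l h θ ∈ Q) :
    ∃ C : ℝ, 0 < C ∧ ∀ (Ω : Set X), MeasurableSet Ω → (∀ (g : G), ∀ x ∈ Ω, g • x ∈ Ω) →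
      NIV R Ω → ∀ (v : ℝ × ℝ) (Box Box' : Set X), MeasurableSet Box → MeasurableSet Box' →
      Box ⊆ Ω → (∀ q ∈ Q, ∀ x ∈ Box, q • x ∈ Box') →
      ∫⁻ z in Box, ENNReal.ofReal (Real.sqrt (T.J (D v) z)) ∂μ ≤
        ENNReal.ofReal (C * Real.exp (-‖v‖ / 4) * Real.sqrt (μ.real Box')) := by
  have := hμ.1
  obtain ⟨C1, hC1, hJ⟩ := T.J_bound hQ
  have hC1' : 0 < C1 := by linarith
  refine ⟨C1 * 1000 * (Real.sqrt (μ.real univ) + 1), by positivity, ?_⟩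
  intro Ω hΩ hinv hniv v Box Box' hBox hBox' hBΩ hQB
  have hΩf : μ Ω ≠ ⊤ := measure_ne_top _ _
  have hB : MeasurableSet (Box' ∩ Ω) := hBox'.inter hΩ
  have hBf : μ (Box' ∩ Ω) ≠ ⊤ := measure_ne_top _ _
  have hmain := STARA_real hμ R hR Q hQi hQr C1 hC1 hJ Ω hΩ hinv hniv v Box (Box' ∩ Ω) hBox hB
    inter_subset_right (fun q hq x hx => ⟨hQB q hq x hx, hinv q x (hBΩ hx)⟩) hΩf hBf
  have hnφ : ‖(indicatorConstLp 2 hΩ hΩf (1 : ℂ) : Lp ℂ 2 μ)‖ ≤ Real.sqrt (μ.real univ) := by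
    rw [norm_indicatorConstLp (by norm_num) (by norm_num), norm_one, one_mul, Real.sqrt_eq_rpow]
    simp only [ENNReal.toReal_ofNat]
    exact Real.rpow_le_rpow measureReal_nonneg (measureReal_mono (subset_univ _)) (by norm_num)
  have hnψ : ‖(indicatorConstLp 2 hB hBf (1 : ℂ) : Lp ℂ 2 μ)‖ ≤ Real.sqrt (μ.real Box') := by
    rw [norm_indicatorConstLp (by norm_num) (by norm_num), norm_one, one_mul, Real.sqrt_eq_rpow]
    simp only [ENNReal.toReal_ofNat]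
    exact Real.rpow_le_rpow measureReal_nonneg (measureReal_mono inter_subset_left) (by norm_num)
  have hfin : ∫ y in Box, Real.sqrt (T.J (D v) y) ∂μ ≤
      C1 * 1000 * (Real.sqrt (μ.real univ) + 1) * Real.exp (-‖v‖ / 4) *
      Real.sqrt (μ.real Box') := by
    generalize ∫ y in Box, Real.sqrt (T.J (D v) y) ∂μ = I at hmain ⊢
    have h5 : C1⁻¹ * I ≤ 1000 * Real.exp (-‖v‖ / 4) * Real.sqrt (μ.real univ) *
        Real.sqrt (μ.real Box') := by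
      refine le_trans hmain ?_
      gcongr
    have h8 : I = C1 * (C1⁻¹ * I) := by field_simp
    rw [h8]
    calc C1 * (C1⁻¹ * I) ≤ C1 * (1000 * Real.exp (-‖v‖ / 4) * Real.sqrt (μ.real univ) *
        Real.sqrt (μ.real Box')) := mul_le_mul_of_nonneg_left h5 hC1'.le
      _ ≤ C1 * (1000 * Real.exp (-‖v‖ / 4) * (Real.sqrt (μ.real univ) + 1) *
        Real.sqrt (μ.real Box')) := by
          gcongr
          linarith
      _ = _ := by ring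
  have hcJ : Continuous (fun y => Real.sqrt (T.J (D v) y)) :=
    Real.continuous_sqrt.comp (T.continuous_J.comp (Continuous.prodMk_right (D v)))
  rw [← ofReal_integral_eq_lintegral_ofReal]
  · exact ENNReal.ofReal_le_ofReal hfin
  · exact (hcJ.integrable_of_hasCompactSupport (HasCompactSupport.of_compactSpace _)).integrableOn
  · exact Eventually.of_forall fun _ => Real.sqrt_nonneg _

end Pool.Agent.H88.LF
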