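import Pool.Agent.H88.LF.PRE
import Pool.Agent.H88.LF.FBA3

/-!
# STRA: a family with constant group components gives a straight structure

`preFB_toFB`; an arrow `h • P.c a t0 = k0 • h' • P.c b τ0` is `P.c a t0 = (h⁻¹k0h') • P.c b τ0`.  `deriv τ t0 ≠ 0` by comparison with `τf` (`FB.cont_unique`).
-/

set_option autoImplicit false

open MeasureTheory Set Filter
open scoped Topology

namespace Pool.Agent.H88.LF

variable {X : Type} [MetricSpace X] [CompactSpace X] [MulAction G X] [ContinuousSMul G X]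

/-- A family with transitions with constant group component gives a straight structure. -/
theorem straight_of_preFB (P : PreFB X)
    (hP : ∀ a b (t0 τ0 : ℝ) (k0 : G), |t0| < 1 → |τ0| < 1 → P.c a t0 = k0 • P.c b τ0 →
      ∃ τ : ℝ → ℝ, τ t0 = τ0 ∧ ContDiffAt ℝ 2 τ t0 ∧ ∀ᶠ t in 𝓝 t0, P.c a t = k0 • P.c b (τ t)) :
    ∃ S : FB X, S.Straight := by
  obtain ⟨S, hS⟩ := preFB_toFB P
  refine ⟨S, ?_⟩
  intro i j t0 τ0 k0 h
  obtain ⟨a, g, hg⟩ := hS i
  obtain ⟨b, g', hg'⟩ := hS j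
  have h1 : P.c a t0 = (g⁻¹ * k0 * g') • P.c b τ0 := by
    have h2 := h.2.2
    rw [hg, hg'] at h2
    rw [mul_smul, mul_smul, ← h2, inv_smul_smul]
  obtain ⟨τ, hτ0, hτ, he⟩ := hP a b t0 τ0 _ h.1 h.2.1 h1
  have he' : ∀ᶠ t in 𝓝 t0, S.c i t = k0 • S.c j (τ t) := by
    filter_upwards [he] with t ht
    rw [hg, hg', ht, ← mul_smul, ← mul_smul, ← mul_assoc, ← mul_assoc, mul_inv_cancel, one_mul]
  refine ⟨τ, hτ0, hτ, ?_, he'⟩
  have h3 := S.cont_unique h (fun _ => k0) τ continuousAt_const hτ.continuousAt rfl hτ0 he'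
  have h4 : τ =ᶠ[𝓝 t0] S.τf i j t0 τ0 k0 := by
    filter_upwards [h3] with t ht
    exact ht.2
  rw [h4.deriv_eq]
  exact S.dτ_ne_zero h

end Pool.Agent.H88.LF
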